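import Mathlib

/-!
# Polynomial Pell equations over a field

`S` is a power series whose square is a polynomial `D` of degree at most `2 m`, and which is not
itself a polynomial of degree at most `m`. A pair `(a, b)` of polynomials of degrees at most `e`,
`e - m` with `a - b S` divisible by `X ^ (2 e)` is a unit of degree `e` of the ring of functions
of `y ^ 2 = D` without poles outside infinity (in the reversed variable).
-/

set_option autoImplicit false

namespace Pool.Agent.X295.Pe

open Polynomial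

variable {k : Type*} [Field k]

/-- approximations to `S` -/
structure App (m : ℕ) (S : PowerSeries k) (e t : ℕ) (a b : k[X]) : Prop where
  da : ∀ i, e < i → a.coeff i = 0
  db : ∀ i, e < i + m → b.coeff i = 0
  ne : a ≠ 0 ∨ b ≠ 0
  dvd : (PowerSeries.X : PowerSeries k) ^ t ∣ (a : PowerSeries k) - (b : PowerSeries k) * S

/-- `S` is a square root of `D` which is not a polynomial of degree at most `m` -/
structure Root (m : ℕ) (D : k[X]) (S : PowerSeries k) : Prop where
  sq : (D : PowerSeries k) = S * S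
  deg : ∀ i, 2 * m < i → D.coeff i = 0
  c0 : PowerSeries.constantCoeff S ≠ 0
  big : ∃ i, m < i ∧ PowerSeries.coeff i S ≠ 0
  two : (2 : k) ≠ 0
  pos : 1 ≤ m

theorem coeff_mul_zero {R : Type*} [CommRing R] {p q s s' : ℕ} {f g : R[X]}
    (hf : ∀ i, p < i + s → f.coeff i = 0) (hg : ∀ i, q < i + s' → g.coeff i = 0) :
    ∀ i, p + q < i + (s + s') → (f * g).coeff i = 0 := by
  intro i hi
  rw [coeff_mul]
  refine Finset.sum_eq_zero fun x hx => ?_
  have hx' := Finset.HasAntidiagonal.mem_antidiagonal.1 hx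
  by_cases h1 : p < x.1 + s
  · rw [hf _ h1, zero_mul]
  · rw [hg x.2 (by omega), mul_zero]

theorem norm_ne {m : ℕ} {D : k[X]} {S : PowerSeries k} (h : Root m D S) {a b : k[X]}
    (hab : a ≠ 0 ∨ b ≠ 0) : a * a - D * (b * b) ≠ 0 := by
  intro h0
  have h1 : a * a = D * (b * b) := sub_eq_zero.1 h0
  by_cases hb : b = 0
  · subst hb
    rw [mul_zero, mul_zero] at h1
    rcases hab with ha | hb
    · exact ha (mul_self_eq_zero.1 h1)
    · exact hb rfl
  have h2 : b ^ 2 ∣ a ^ 2 := ⟨D, by rw [sq, sq, h1]; ring⟩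
  obtain ⟨g, rfl⟩ := (IsIntegrallyClosed.pow_dvd_pow_iff two_ne_zero).1 h2
  have h3 : g * g = D := by
    have h4 : (b * b) * (g * g) = (b * b) * D := by rw [mul_comm (b * b) D, ← h1]; ring
    exact mul_left_cancel₀ (mul_ne_zero hb hb) h4
  have hdg : g.natDegree ≤ m := by
    have h4 : D.natDegree ≤ 2 * m :=
      natDegree_le_iff_coeff_eq_zero.2 fun i hi => h.deg i hi
    have h5 : D.natDegree = g.natDegree + g.natDegree := by
      rw [← h3]
      by_cases hg : g = 0
      · subst hg; simp
      · exact natDegree_mul hg hg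
    omega
  have h4 : ((g : PowerSeries k) - S) * (g + S) = 0 := by
    have h5 : (g : PowerSeries k) * g = S * S := by rw [← h.sq, ← h3]; push_cast; rfl
    calc ((g : PowerSeries k) - S) * (g + S) = g * g - S * S := by ring
      _ = 0 := by rw [h5, sub_self]
  obtain ⟨i, hi, hS⟩ := h.big
  have hgi : g.coeff i = 0 := coeff_eq_zero_of_natDegree_lt (by omega)
  rcases mul_eq_zero.1 h4 with h5 | h5
  · apply hS
    rw [← sub_eq_zero.1 h5, Polynomial.coeff_coe, hgi]
  · apply hS
    rw [eq_neg_of_add_eq_zero_right h5, map_neg, Polynomial.coeff_coe, hgi, neg_zero]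

theorem isUnit_S {m : ℕ} {D : k[X]} {S : PowerSeries k} (h : Root m D S) :
    IsUnit ((2 : PowerSeries k) * S) := by
  rw [PowerSeries.isUnit_iff_constantCoeff, map_mul]
  refine (mul_ne_zero ?_ h.c0).isUnit
  have : PowerSeries.constantCoeff (R := k) 2 = 2 := map_ofNat _ 2
  rw [this]
  exact h.two

theorem isUnit_two {m : ℕ} {D : k[X]} {S : PowerSeries k} (h : Root m D S) :
    IsUnit (2 : PowerSeries k) := by
  rw [PowerSeries.isUnit_iff_constantCoeff]
  have : PowerSeries.constantCoeff (R := k) 2 = 2 := map_ofNat _ 2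
  rw [this]
  exact h.two.isUnit

theorem App.mul {m : ℕ} {D : k[X]} {S : PowerSeries k} (h : Root m D S) {e e' t t' : ℕ}
    {a b a' b' : k[X]} (h1 : App m S e t a b) (h2 : App m S e' t' a' b') :
    App m S (e + e') (t + t') (a * a' + D * (b * b')) (a * b' + a' * b) where
  da := by
    intro i hi
    rw [coeff_add, coeff_mul_zero (s := 0) (s' := 0) h1.da h2.da i (by omega), zero_add]
    exact coeff_mul_zero (s := 0) (s' := m + m) h.deg (coeff_mul_zero h1.db h2.db) i (by omega)
  db := by
    intro i hi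
    rw [coeff_add, coeff_mul_zero (s := 0) (s' := m) h1.da h2.db i (by omega),
      coeff_mul_zero (s := 0) (s' := m) h2.da h1.db i (by omega), add_zero]
  ne := by
    by_contra hc
    rw [not_or, not_not, not_not] at hc
    have h3 : (a * a - D * (b * b)) * (a' * a' - D * (b' * b')) =
        (a * a' + D * (b * b')) * (a * a' + D * (b * b')) -
          D * ((a * b' + a' * b) * (a * b' + a' * b)) := by ring
    rw [hc.1, hc.2, mul_zero, mul_zero, sub_zero] at h3
    exact mul_ne_zero (norm_ne h h1.ne) (norm_ne h h2.ne) h3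
  dvd := by
    have h3 : ((a * a' + D * (b * b') : k[X]) : PowerSeries k) -
        ((a * b' + a' * b : k[X]) : PowerSeries k) * S = (a - b * S) * (a' - b' * S) := by
      push_cast
      rw [h.sq]
      ring
    rw [h3, pow_add]
    exact mul_dvd_mul h1.dvd h2.dvd

theorem norm_dvd {m : ℕ} {D : k[X]} {S : PowerSeries k} (h : Root m D S) {e t : ℕ}
    {a b : k[X]} (h1 : App m S e t a b) : X ^ t ∣ a * a - D * (b * b) := by
  rw [Polynomial.X_pow_dvd_iff]
  intro i hi
  have h3 : ((a * a - D * (b * b) : k[X]) : PowerSeries k) = (a - b * S) * (a + b * S) := by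
    push_cast
    rw [h.sq]
    ring
  have h4 : (PowerSeries.X : PowerSeries k) ^ t ∣ ((a * a - D * (b * b) : k[X]) : PowerSeries k) := by
    rw [h3]
    exact h1.dvd.mul_right _
  have h5 := PowerSeries.X_pow_dvd_iff.1 h4 i hi
  rwa [Polynomial.coeff_coe] at h5

theorem norm_deg {m : ℕ} {D : k[X]} {S : PowerSeries k} (h : Root m D S) {e t : ℕ}
    {a b : k[X]} (h1 : App m S e t a b) : ∀ i, 2 * e < i → (a * a - D * (b * b)).coeff i = 0 := by
  intro i hi
  rw [coeff_sub, coeff_mul_zero (s := 0) (s' := 0) h1.da h1.da i (by omega), zero_sub, neg_eq_zero]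
  exact coeff_mul_zero (s := 0) (s' := m + m) h.deg (coeff_mul_zero h1.db h1.db) i (by omega)

theorem eq_monomial {R : Type*} [CommRing R] {f : R[X]} {n : ℕ} (h1 : X ^ n ∣ f)
    (h2 : ∀ i, n < i → f.coeff i = 0) : f = C (f.coeff n) * X ^ n := by
  ext i
  rw [coeff_C_mul, coeff_X_pow]
  rcases lt_trichotomy i n with hi | hi | hi
  · rw [Polynomial.X_pow_dvd_iff.1 h1 i hi, if_neg hi.ne, mul_zero]
  · rw [if_pos hi, mul_one, hi]
  · rw [h2 i hi, if_neg hi.ne', mul_zero]

theorem norm_sol {m : ℕ} {D : k[X]} {S : PowerSeries k} (h : Root m D S) {e : ℕ}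
    {a b : k[X]} (h1 : App m S e (2 * e) a b) :
    ∃ c : k, c ≠ 0 ∧ a * a - D * (b * b) = C c * X ^ (2 * e) := by
  have h2 := eq_monomial (norm_dvd h h1) (norm_deg h h1)
  refine ⟨_, ?_, h2⟩
  intro h3
  rw [h3, C_0, zero_mul] at h2
  exact norm_ne h h1.ne h2

theorem coeff0_ne {m : ℕ} {D : k[X]} {S : PowerSeries k} (h : Root m D S) {e : ℕ} (he : 1 ≤ e)
    {a b : k[X]} (h1 : App m S e (2 * e) a b) : a.coeff 0 ≠ 0 := by
  intro h0
  have hX : (PowerSeries.X : PowerSeries k) ∣ (a : PowerSeries k) := by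
    rw [PowerSeries.X_dvd_iff, ← PowerSeries.coeff_zero_eq_constantCoeff_apply,
      Polynomial.coeff_coe, h0]
  have h2 : (PowerSeries.X : PowerSeries k) ∣ (a : PowerSeries k) - b * S :=
    (dvd_pow_self _ (by omega : 2 * e ≠ 0)).trans h1.dvd
  have h3 : (PowerSeries.X : PowerSeries k) ∣ (a : PowerSeries k) + b * S := by
    have h4 : (a : PowerSeries k) + b * S = 2 * a - (a - b * S) := by ring
    rw [h4]
    exact dvd_sub (hX.mul_left _) h2
  have h4 : (PowerSeries.X : PowerSeries k) ^ (2 * e + 1) ∣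
      ((a * a - D * (b * b) : k[X]) : PowerSeries k) := by
    have h5 : ((a * a - D * (b * b) : k[X]) : PowerSeries k) = (a - b * S) * (a + b * S) := by
      push_cast
      rw [h.sq]
      ring
    rw [h5, pow_succ]
    exact mul_dvd_mul h1.dvd h3
  apply norm_ne h h1.ne
  ext i
  rw [coeff_zero]
  by_cases hi : i < 2 * e + 1
  · have h5 := PowerSeries.X_pow_dvd_iff.1 h4 i hi
    rwa [Polynomial.coeff_coe] at h5
  · exact norm_deg h h1 i (by omega)

/-- a weak approximation at the level of a unit is proportional to the unit -/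
theorem prop_of {m : ℕ} {D : k[X]} {S : PowerSeries k} (h : Root m D S) {e t : ℕ} (he : m ≤ e)
    (ht : 2 * e + 1 ≤ t + m) (ht2 : t ≤ 2 * e)
    {a b a' b' : k[X]} (hw : App m S e t a b) (hs : App m S e (2 * e) a' b') :
    ∃ γ : k, γ ≠ 0 ∧ a = C γ * a' ∧ b = C γ * b' := by
  have hm := h.pos
  have hP : a' * b - a * b' = 0 := by
    have h1 : (PowerSeries.X : PowerSeries k) ^ t ∣
        ((a' * b - a * b' : k[X]) : PowerSeries k) := by
      have h2 : (PowerSeries.X : PowerSeries k) ^ t ∣ (a + b * S) * (a' - b' * S) :=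
        (((pow_dvd_pow _ ht2).trans hs.dvd)).mul_left _
      have h3 : (PowerSeries.X : PowerSeries k) ^ t ∣ (a - b * S) * (a' + b' * S) :=
        hw.dvd.mul_right _
      have h4 : ((a : PowerSeries k) + b * S) * (a' - b' * S) - (a - b * S) * (a' + b' * S) =
          ((a' * b - a * b' : k[X]) : PowerSeries k) * (2 * S) := by
        push_cast
        ring
      have h5 := dvd_sub h2 h3
      rw [h4] at h5
      exact (isUnit_S h).dvd_mul_right.1 h5
    ext i
    rw [coeff_zero]
    by_cases hi : i < t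
    · have h5 := PowerSeries.X_pow_dvd_iff.1 h1 i hi
      rwa [Polynomial.coeff_coe] at h5
    · rw [coeff_sub, coeff_mul_zero (s := 0) (s' := m) hs.da hw.db i (by omega),
        coeff_mul_zero (s := 0) (s' := m) hw.da hs.db i (by omega), sub_zero]
  have hab : a' * b = a * b' := sub_eq_zero.1 hP
  obtain ⟨c, hc, hN⟩ := norm_sol h hs
  set g : k[X] := a * a' - D * (b * b') with hg
  have h1 : a * (C c * X ^ (2 * e)) = a' * g := by
    rw [← hN, hg]
    linear_combination (D * b') * hab
  have h2 : b * (C c * X ^ (2 * e)) = b' * g := by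
    rw [← hN, hg]
    linear_combination a' * hab
  have hX : ¬ (X : k[X]) ∣ a' := by
    rw [Polynomial.X_dvd_iff]
    exact coeff0_ne h (by omega) hs
  have h3 : (X : k[X]) ^ (2 * e) ∣ g := by
    refine Polynomial.prime_X.pow_dvd_of_dvd_mul_left _ hX ?_
    rw [← h1]
    exact ⟨a * C c, by ring⟩
  have h4 : ∀ i, 2 * e < i → g.coeff i = 0 := by
    intro i hi
    rw [hg, coeff_sub, coeff_mul_zero (s := 0) (s' := 0) hw.da hs.da i (by omega), zero_sub,
      neg_eq_zero]
    exact coeff_mul_zero (s := 0) (s' := m + m) h.deg (coeff_mul_zero hw.db hs.db) i (by omega)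
  have h5 := eq_monomial h3 h4
  set γ := g.coeff (2 * e) with hγ
  have hXe : (X : k[X]) ^ (2 * e) ≠ 0 := pow_ne_zero _ X_ne_zero
  have h6 : a * C c = a' * C γ := by
    rw [h5] at h1
    apply mul_right_cancel₀ hXe
    linear_combination h1
  have h7 : b * C c = b' * C γ := by
    rw [h5] at h2
    apply mul_right_cancel₀ hXe
    linear_combination h2
  have hcc : C c * C c⁻¹ = (1 : k[X]) := by rw [← C_mul, mul_inv_cancel₀ hc, C_1]
  have ha : a = C (γ * c⁻¹) * a' := by
    rw [C_mul]
    linear_combination (C c⁻¹) * h6 - a * hcc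
  have hb : b = C (γ * c⁻¹) * b' := by
    rw [C_mul]
    linear_combination (C c⁻¹) * h7 - b * hcc
  refine ⟨γ * c⁻¹, ?_, ha, hb⟩
  intro h0
  rw [h0, C_0, zero_mul] at ha hb
  rcases hw.ne with h8 | h8
  · exact h8 ha
  · exact h8 hb

/-- quotients of units -/
theorem sub_of {m : ℕ} {D : k[X]} {S : PowerSeries k} (h : Root m D S) {e e' : ℕ} (he : e' ≤ e)
    {a b a' b' : k[X]} (h1 : App m S e (2 * e) a b) (h2 : App m S e' (2 * e') a' b') :
    ∃ x y, App m S (e - e') (2 * (e - e')) x y := by
  set x : k[X] := a * a' - D * (b * b') with hx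
  set y : k[X] := a' * b - a * b' with hy
  have h3 : (PowerSeries.X : PowerSeries k) ^ (2 * e') ∣ (a + b * S) * (a' - b' * S) :=
    h2.dvd.mul_left _
  have h4 : (PowerSeries.X : PowerSeries k) ^ (2 * e') ∣ (a - b * S) * (a' + b' * S) :=
    ((pow_dvd_pow _ (by omega)).trans h1.dvd).mul_right _
  have h5 : (PowerSeries.X : PowerSeries k) ^ (2 * e') ∣ (x : PowerSeries k) := by
    have h6 := dvd_add h3 h4
    have h7 : ((a : PowerSeries k) + b * S) * (a' - b' * S) + (a - b * S) * (a' + b' * S) =
        (x : PowerSeries k) * 2 := by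
      rw [hx]
      push_cast
      rw [h.sq]
      ring
    rw [h7] at h6
    exact (isUnit_two h).dvd_mul_right.1 h6
  have h6 : (PowerSeries.X : PowerSeries k) ^ (2 * e') ∣ (y : PowerSeries k) := by
    have h6 := dvd_sub h3 h4
    have h7 : ((a : PowerSeries k) + b * S) * (a' - b' * S) - (a - b * S) * (a' + b' * S) =
        (y : PowerSeries k) * (2 * S) := by
      rw [hy]
      push_cast
      ring
    rw [h7] at h6
    exact (isUnit_S h).dvd_mul_right.1 h6
  have h7 : X ^ (2 * e') ∣ x := by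
    rw [Polynomial.X_pow_dvd_iff]
    intro i hi
    have h8 := PowerSeries.X_pow_dvd_iff.1 h5 i hi
    rwa [Polynomial.coeff_coe] at h8
  have h8 : X ^ (2 * e') ∣ y := by
    rw [Polynomial.X_pow_dvd_iff]
    intro i hi
    have h8 := PowerSeries.X_pow_dvd_iff.1 h6 i hi
    rwa [Polynomial.coeff_coe] at h8
  obtain ⟨x1, hx1⟩ := h7
  obtain ⟨y1, hy1⟩ := h8
  have hcx : ∀ i, x1.coeff i = x.coeff (i + 2 * e') := by
    intro i
    rw [hx1, coeff_X_pow_mul]
  have hcy : ∀ i, y1.coeff i = y.coeff (i + 2 * e') := by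
    intro i
    rw [hy1, coeff_X_pow_mul]
  refine ⟨x1, y1, ?_, ?_, ?_, ?_⟩
  · intro i hi
    rw [hcx, hx, coeff_sub, coeff_mul_zero (s := 0) (s' := 0) h1.da h2.da _ (by omega), zero_sub,
      neg_eq_zero]
    exact coeff_mul_zero (s := 0) (s' := m + m) h.deg (coeff_mul_zero h1.db h2.db) _ (by omega)
  · intro i hi
    rw [hcy, hy, coeff_sub, coeff_mul_zero (s := 0) (s' := m) h2.da h1.db _ (by omega),
      coeff_mul_zero (s := 0) (s' := m) h1.da h2.db _ (by omega), sub_zero]
  · by_contra hc
    rw [not_or, not_not, not_not] at hc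
    rw [hc.1, mul_zero] at hx1
    rw [hc.2, mul_zero] at hy1
    have h3 : (a * a - D * (b * b)) * (a' * a' - D * (b' * b')) = x * x - D * (y * y) := by
      rw [hx, hy]; ring
    rw [hx1, hy1, mul_zero, mul_zero, sub_zero] at h3
    exact mul_ne_zero (norm_ne h h1.ne) (norm_ne h h2.ne) h3
  · have h9 : (PowerSeries.X : PowerSeries k) ^ (2 * e') * ((x1 : PowerSeries k) - y1 * S) =
        (a - b * S) * (a' + b' * S) := by
      have h10 : (x : PowerSeries k) - y * S = (a - b * S) * (a' + b' * S) := by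
        rw [hx, hy]
        push_cast
        rw [h.sq]
        ring
      rw [← h10, hx1, hy1]
      push_cast
      ring
    have h10 : (PowerSeries.X : PowerSeries k) ^ (2 * e') * PowerSeries.X ^ (2 * (e - e')) ∣
        (PowerSeries.X : PowerSeries k) ^ (2 * e') * ((x1 : PowerSeries k) - y1 * S) := by
      rw [h9, ← pow_add, show 2 * e' + 2 * (e - e') = 2 * e by omega]
      exact h1.dvd.mul_right _
    exact (mul_dvd_mul_iff_left (pow_ne_zero _ PowerSeries.X_ne_zero)).1 h10

/-- the degrees of the units -/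
def Lam (m : ℕ) (S : PowerSeries k) : Set ℕ := {e | ∃ a b, App m S e (2 * e) a b}

theorem dvd_of_mem {m : ℕ} {D : k[X]} {S : PowerSeries k} (h : Root m D S) {n : ℕ} (hn : 1 ≤ n)
    (h1 : n ∈ Lam m S) (h2 : ∀ j ∈ Lam m S, 1 ≤ j → n ≤ j) : ∀ e ∈ Lam m S, n ∣ e := by
  intro e
  induction e using Nat.strong_induction_on with
  | _ e ih =>
    intro he
    rcases Nat.eq_zero_or_pos e with h0 | h0
    · rw [h0]; exact dvd_zero n
    · have hne := h2 e he h0
      obtain ⟨a, b, hab⟩ := he
      obtain ⟨a', b', hab'⟩ := h1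
      have h3 := ih (e - n) (by omega) (sub_of h hne hab hab')
      have h4 := dvd_add h3 (dvd_refl n)
      rwa [Nat.sub_add_cancel hne] at h4

theorem App.ge {m : ℕ} {S : PowerSeries k} {e : ℕ} (he : 1 ≤ e)
    {a b : k[X]} (h1 : App m S e (2 * e) a b) : b ≠ 0 ∧ m ≤ e := by
  have hb : b ≠ 0 := by
    intro hb
    have ha : a = 0 := by
      have h2 := h1.dvd
      rw [hb, Polynomial.coe_zero, zero_mul, sub_zero] at h2
      ext i
      rw [coeff_zero]
      by_cases hi : i < 2 * e
      · have h3 := PowerSeries.X_pow_dvd_iff.1 h2 i hi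
        rwa [Polynomial.coeff_coe] at h3
      · exact h1.da i (by omega)
    rcases h1.ne with h | h
    · exact h ha
    · exact h hb
  refine ⟨hb, ?_⟩
  by_contra hc
  apply hb
  ext i
  rw [coeff_zero]
  exact h1.db i (by omega)

/-- weak approximations exist -/
theorem exists_weak (m : ℕ) (S : PowerSeries k) {e t : ℕ} (he : m ≤ e) (ht : t + m < 2 * e + 2) :
    ∃ a b, App m S e t a b := by
  let L : ((degreeLT k (e + 1)) × (degreeLT k (e + 1 - m))) →ₗ[k] (Fin t → k) :=
    { toFun := fun v i => PowerSeries.coeff i ((v.1 : k[X]) - (v.2 : k[X]) * S : PowerSeries k)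
      map_add' := by
        intro v w
        funext i
        simp only [Prod.fst_add, Prod.snd_add, Submodule.coe_add, Pi.add_apply]
        rw [← map_add]
        congr 1
        push_cast
        ring
      map_smul' := by
        intro c v
        funext i
        simp only [Prod.smul_fst, Prod.smul_snd, Submodule.coe_smul, Pi.smul_apply,
          RingHom.id_apply, smul_eq_mul, Polynomial.smul_eq_C_mul]
        rw [← PowerSeries.coeff_C_mul]
        congr 1
        push_cast
        ring }
  have hfin : ∀ n, Module.finrank k (degreeLT k n) = n := by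
    intro n
    rw [(degreeLTEquiv k n).finrank_eq, Module.finrank_fin_fun]
  haveI : ∀ n, Module.Finite k (degreeLT k n) := fun n =>
    Module.Finite.equiv (degreeLTEquiv k n).symm
  have hlt : Module.finrank k (Fin t → k) <
      Module.finrank k ((degreeLT k (e + 1)) × (degreeLT k (e + 1 - m))) := by
    rw [Module.finrank_fin_fun, Module.finrank_prod, hfin, hfin]
    omega
  have hker := LinearMap.ker_ne_bot_of_finrank_lt (f := L) hlt
  obtain ⟨v, hv, hv0⟩ := (Submodule.ne_bot_iff _).1 hker
  refine ⟨v.1, v.2, ?_, ?_, ?_, ?_⟩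
  · intro i hi
    exact coeff_eq_zero_of_degree_lt (lt_of_lt_of_le (mem_degreeLT.1 v.1.2) (by exact_mod_cast hi))
  · intro i hi
    exact coeff_eq_zero_of_degree_lt (lt_of_lt_of_le (mem_degreeLT.1 v.2.2)
      (by exact_mod_cast (by omega : e + 1 - m ≤ i)))
  · by_contra hc
    rw [not_or, not_not, not_not] at hc
    apply hv0
    exact Prod.ext (Subtype.ext hc.1) (Subtype.ext hc.2)
  · rw [PowerSeries.X_pow_dvd_iff]
    intro i hi
    have h1 := congrFun (LinearMap.mem_ker.1 hv) ⟨i, hi⟩
    exact h1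

end Pool.Agent.X295.Pe
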