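import Mathlib
import Pool.Agent.X295.PeA

/-!
# The degree of the fundamental unit over a valued field and over the residue field
-/

set_option autoImplicit false

namespace Pool.Agent.X295.Pe

open Polynomial

/-- approximations with coefficients in a ring -/
structure AppR {R : Type*} [CommRing R] (m : ℕ) (S : PowerSeries R) (e t : ℕ) (a b : R[X]) :
    Prop where
  da : ∀ i, e < i → a.coeff i = 0
  db : ∀ i, e < i + m → b.coeff i = 0
  dvd : (PowerSeries.X : PowerSeries R) ^ t ∣ (a : PowerSeries R) - (b : PowerSeries R) * S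

theorem coe_map {R A : Type*} [CommRing R] [CommRing A] (φ : R →+* A) (f : R[X]) :
    ((f.map φ : A[X]) : PowerSeries A) = PowerSeries.map φ (f : PowerSeries R) := by
  ext i
  rw [Polynomial.coeff_coe, coeff_map, PowerSeries.coeff_map, Polynomial.coeff_coe]

theorem AppR.map {R A : Type*} [CommRing R] [CommRing A] (φ : R →+* A) {m : ℕ}
    {S : PowerSeries R} {e t : ℕ} {a b : R[X]} (h : AppR m S e t a b) :
    AppR m (PowerSeries.map φ S) e t (a.map φ) (b.map φ) where
  da i hi := by rw [coeff_map, h.da i hi, map_zero]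
  db i hi := by rw [coeff_map, h.db i hi, map_zero]
  dvd := by
    rw [coe_map, coe_map, ← map_mul, ← map_sub]
    have := map_dvd (PowerSeries.map φ) h.dvd
    rwa [map_pow, PowerSeries.map_X] at this

theorem AppR.of_map {R A : Type*} [CommRing R] [CommRing A] {φ : R →+* A}
    (hφ : Function.Injective φ) {m : ℕ}
    {S : PowerSeries R} {e t : ℕ} {a b : R[X]}
    (h : AppR m (PowerSeries.map φ S) e t (a.map φ) (b.map φ)) : AppR m S e t a b where
  da i hi := by
    have := h.da i hi
    rw [coeff_map] at this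
    exact (map_eq_zero_iff φ hφ).1 this
  db i hi := by
    have := h.db i hi
    rw [coeff_map] at this
    exact (map_eq_zero_iff φ hφ).1 this
  dvd := by
    have h1 := h.dvd
    rw [coe_map, coe_map, ← map_mul, ← map_sub, PowerSeries.X_pow_dvd_iff] at h1
    rw [PowerSeries.X_pow_dvd_iff]
    intro i hi
    have h2 := h1 i hi
    rw [PowerSeries.coeff_map] at h2
    exact (map_eq_zero_iff φ hφ).1 h2

theorem App.toR {k : Type*} [Field k] {m : ℕ} {S : PowerSeries k} {e t : ℕ} {a b : k[X]}
    (h : App m S e t a b) : AppR m S e t a b := ⟨h.da, h.db, h.dvd⟩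

theorem AppR.toA {k : Type*} [Field k] {m : ℕ} {S : PowerSeries k} {e t : ℕ} {a b : k[X]}
    (h : AppR m S e t a b) (hab : a ≠ 0 ∨ b ≠ 0) : App m S e t a b := ⟨h.da, h.db, hab, h.dvd⟩

/-- root data over a ring -/
structure RootR {R : Type*} [CommRing R] (m : ℕ) (D : R[X]) (S : PowerSeries R) : Prop where
  sq : (D : PowerSeries R) = S * S
  deg : ∀ i, 2 * m < i → D.coeff i = 0
  pos : 1 ≤ m

theorem RootR.map {R A : Type*} [CommRing R] [CommRing A] (φ : R →+* A) {m : ℕ} {D : R[X]}
    {S : PowerSeries R} (h : RootR m D S) : RootR m (D.map φ) (PowerSeries.map φ S) where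
  sq := by rw [coe_map, h.sq, map_mul]
  deg i hi := by rw [coeff_map, h.deg i hi, map_zero]
  pos := h.pos

theorem RootR.toRoot {k : Type*} [Field k] {m : ℕ} {D : k[X]}
    {S : PowerSeries k} (h : RootR m D S) (h0 : PowerSeries.constantCoeff S ≠ 0)
    (h1 : ∃ i, m < i ∧ PowerSeries.coeff i S ≠ 0) (h2 : (2 : k) ≠ 0) : Root m D S :=
  ⟨h.sq, h.deg, h0, h1, h2, h.pos⟩

section ring

variable {R : Type*} [CommRing R] {m : ℕ} {D : R[X]} {S : PowerSeries R}

theorem AppR.mul (h : RootR m D S) {e e' t t' : ℕ}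
    {a b a' b' : R[X]} (h1 : AppR m S e t a b) (h2 : AppR m S e' t' a' b') :
    AppR m S (e + e') (t + t') (a * a' + D * (b * b')) (a * b' + a' * b) where
  da := by
    intro i hi
    rw [coeff_add, coeff_mul_zero (s := 0) (s' := 0) h1.da h2.da i (by omega), zero_add]
    exact coeff_mul_zero (s := 0) (s' := m + m) h.deg (coeff_mul_zero h1.db h2.db) i (by omega)
  db := by
    intro i hi
    rw [coeff_add, coeff_mul_zero (s := 0) (s' := m) h1.da h2.db i (by omega),
      coeff_mul_zero (s := 0) (s' := m) h2.da h1.db i (by omega), add_zero]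
  dvd := by
    have h3 : ((a * a' + D * (b * b') : R[X]) : PowerSeries R) -
        ((a * b' + a' * b : R[X]) : PowerSeries R) * S = (a - b * S) * (a' - b' * S) := by
      push_cast
      rw [h.sq]
      ring
    rw [h3, pow_add]
    exact mul_dvd_mul h1.dvd h2.dvd

/-- powers of a unit -/
noncomputable def pw (D a b : R[X]) : ℕ → R[X] × R[X]
  | 0 => (1, 0)
  | j + 1 => (a * (pw D a b j).1 + D * (b * (pw D a b j).2), a * (pw D a b j).2 + (pw D a b j).1 * b)

theorem pw_app (h : RootR m D S) {e t : ℕ} {a b : R[X]} (h1 : AppR m S e t a b) (j : ℕ) :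
    AppR m S (j * e) (j * t) (pw D a b j).1 (pw D a b j).2 := by
  induction j with
  | zero =>
    refine ⟨?_, ?_, ?_⟩
    · intro i hi
      show (1 : R[X]).coeff i = 0
      rw [coeff_one, if_neg (by omega)]
    · intro i _
      exact coeff_zero i
    · rw [zero_mul, pow_zero]
      exact one_dvd _
  | succ j ih =>
    have := h1.mul h ih
    rw [show (j + 1) * e = e + j * e by ring, show (j + 1) * t = t + j * t by ring]
    exact this

theorem pw_norm (a b : R[X]) (j : ℕ) :
    (pw D a b j).1 * (pw D a b j).1 - D * ((pw D a b j).2 * (pw D a b j).2) =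
      (a * a - D * (b * b)) ^ j := by
  induction j with
  | zero =>
    show (1 : R[X]) * 1 - D * (0 * 0) = _
    rw [pow_zero]; ring
  | succ j ih =>
    rw [pow_succ, ← ih]
    show (a * (pw D a b j).1 + D * (b * (pw D a b j).2)) *
      (a * (pw D a b j).1 + D * (b * (pw D a b j).2)) - D * ((a * (pw D a b j).2 +
        (pw D a b j).1 * b) * (a * (pw D a b j).2 + (pw D a b j).1 * b)) = _
    ring

theorem pw_map {A : Type*} [CommRing A] (φ : R →+* A) (a b : R[X]) (j : ℕ) :
    pw (D.map φ) (a.map φ) (b.map φ) j = ((pw D a b j).1.map φ, (pw D a b j).2.map φ) := by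
  induction j with
  | zero =>
    show ((1 : A[X]), (0 : A[X])) = ((1 : R[X]).map φ, (0 : R[X]).map φ)
    rw [Polynomial.map_one, Polynomial.map_zero]
  | succ j ih =>
    show ((a.map φ) * (pw (D.map φ) (a.map φ) (b.map φ) j).1 + (D.map φ) * ((b.map φ) *
      (pw (D.map φ) (a.map φ) (b.map φ) j).2), (a.map φ) *
      (pw (D.map φ) (a.map φ) (b.map φ) j).2 + (pw (D.map φ) (a.map φ) (b.map φ) j).1 *
      (b.map φ)) = ((a * (pw D a b j).1 + D * (b * (pw D a b j).2)).map φ,
        (a * (pw D a b j).2 + (pw D a b j).1 * b).map φ)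
    rw [ih]
    simp only [Polynomial.map_add, Polynomial.map_mul]

end ring

theorem exists_dvd_all {O : Type*} [CommRing O] [IsDomain O] [ValuationRing O] (T : Finset O)
    (hT : T.Nonempty) : ∃ θ ∈ T, ∀ c ∈ T, θ ∣ c := by
  classical
  induction hT using Finset.Nonempty.cons_induction with
  | singleton a => exact ⟨a, Finset.mem_singleton_self a, fun c hc => by
      rw [Finset.mem_singleton.1 hc]⟩
  | cons a s ha hs ih =>
    obtain ⟨θ, hθ, hall⟩ := ih
    rcases ValuationRing.dvd_total a θ with h | h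
    · refine ⟨a, Finset.mem_cons_self a s, fun c hc => ?_⟩
      rcases Finset.mem_cons.1 hc with rfl | hc
      · exact dvd_rfl
      · exact h.trans (hall c hc)
    · refine ⟨θ, Finset.mem_cons.2 (Or.inr hθ), fun c hc => ?_⟩
      rcases Finset.mem_cons.1 hc with rfl | hc
      · exact h
      · exact hall c hc

section val

variable {O : Type*} [CommRing O] [IsDomain O] [ValuationRing O]

/-- the content of a pair of polynomials -/
theorem exists_prim (f g : O[X]) (hfg : f ≠ 0 ∨ g ≠ 0) :
    ∃ (θ : O) (f1 g1 : O[X]), θ ≠ 0 ∧ f = C θ * f1 ∧ g = C θ * g1 ∧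
      (f1.map (IsLocalRing.residue O) ≠ 0 ∨ g1.map (IsLocalRing.residue O) ≠ 0) := by
  classical
  set T : Finset O := f.support.image f.coeff ∪ g.support.image g.coeff with hT
  have hne : T.Nonempty := by
    rcases hfg with h | h
    · obtain ⟨i, hi⟩ := Polynomial.nonempty_support_iff.2 h
      exact ⟨f.coeff i, Finset.mem_union_left _ (Finset.mem_image_of_mem _ hi)⟩
    · obtain ⟨i, hi⟩ := Polynomial.nonempty_support_iff.2 h
      exact ⟨g.coeff i, Finset.mem_union_right _ (Finset.mem_image_of_mem _ hi)⟩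
  obtain ⟨θ, hθ, hall⟩ := exists_dvd_all T hne
  have hf : C θ ∣ f := by
    rw [C_dvd_iff_dvd_coeff]
    intro i
    by_cases hi : f.coeff i = 0
    · rw [hi]; exact dvd_zero _
    · exact hall _ (Finset.mem_union_left _ (Finset.mem_image_of_mem _ (mem_support_iff.2 hi)))
  have hg : C θ ∣ g := by
    rw [C_dvd_iff_dvd_coeff]
    intro i
    by_cases hi : g.coeff i = 0
    · rw [hi]; exact dvd_zero _
    · exact hall _ (Finset.mem_union_right _ (Finset.mem_image_of_mem _ (mem_support_iff.2 hi)))
  obtain ⟨f1, hf1⟩ := hf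
  obtain ⟨g1, hg1⟩ := hg
  have key : ∀ (u u1 : O[X]), u = C θ * u1 → ∀ i ∈ u.support, u.coeff i = θ → θ ≠ 0 ∧
      u1.map (IsLocalRing.residue O) ≠ 0 := by
    intro u u1 hu i hi hθi
    have h0 : θ ≠ 0 := by rw [← hθi]; exact mem_support_iff.1 hi
    refine ⟨h0, ?_⟩
    intro hz
    have h1 : u1.coeff i = 1 := by
      have h2 : θ * u1.coeff i = θ * 1 := by rw [← coeff_C_mul, ← hu, hθi, mul_one]
      exact mul_left_cancel₀ h0 h2
    have h2 : (u1.map (IsLocalRing.residue O)).coeff i = 0 := by rw [hz, coeff_zero]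
    rw [coeff_map, h1, map_one] at h2
    exact one_ne_zero h2
  rcases Finset.mem_union.1 hθ with h | h
  · obtain ⟨i, hi, hθi⟩ := Finset.mem_image.1 h
    obtain ⟨h0, h1⟩ := key f f1 hf1 i hi hθi
    exact ⟨θ, f1, g1, h0, hf1, hg1, Or.inl h1⟩
  · obtain ⟨i, hi, hθi⟩ := Finset.mem_image.1 h
    obtain ⟨h0, h1⟩ := key g g1 hg1 i hi hθi
    exact ⟨θ, f1, g1, h0, hf1, hg1, Or.inr h1⟩

variable {L : Type*} [Field L] [Algebra O L] [IsFractionRing O L]

omit [ValuationRing O] in
theorem clear_den (a b : L[X]) : ∃ (d : O) (a1 b1 : O[X]), d ≠ 0 ∧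
    a1.map (algebraMap O L) = C (algebraMap O L d) * a ∧
    b1.map (algebraMap O L) = C (algebraMap O L d) * b := by
  obtain ⟨d1, h1⟩ := IsLocalization.integerNormalization_map_to_map (nonZeroDivisors O) a
  obtain ⟨d2, h2⟩ := IsLocalization.integerNormalization_map_to_map (nonZeroDivisors O) b
  refine ⟨d1 * d2, C (d2 : O) * IsLocalization.integerNormalization (nonZeroDivisors O) a,
    C (d1 : O) * IsLocalization.integerNormalization (nonZeroDivisors O) b,
    mul_ne_zero (nonZeroDivisors.coe_ne_zero d1) (nonZeroDivisors.coe_ne_zero d2), ?_, ?_⟩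
  · rw [Polynomial.map_mul, h1, map_C, map_mul, C_mul, Algebra.smul_def]
    rw [IsScalarTower.algebraMap_apply O L L[X], Polynomial.algebraMap_eq]
    ring
  · rw [Polynomial.map_mul, h2, map_C, map_mul, C_mul, Algebra.smul_def]
    rw [IsScalarTower.algebraMap_apply O L L[X], Polynomial.algebraMap_eq]
    ring

theorem App.of_smul {k : Type*} [Field k] {m : ℕ} {S : PowerSeries k} {e t : ℕ} {a b : k[X]}
    {c : k} (hc : c ≠ 0) (h : App m S e t (C c * a) (C c * b)) : App m S e t a b where
  da i hi := by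
    have := h.da i hi
    rw [coeff_C_mul] at this
    exact (mul_eq_zero.1 this).resolve_left hc
  db i hi := by
    have := h.db i hi
    rw [coeff_C_mul] at this
    exact (mul_eq_zero.1 this).resolve_left hc
  ne := by
    rcases h.ne with h1 | h1
    · exact Or.inl (right_ne_zero_of_mul h1)
    · exact Or.inr (right_ne_zero_of_mul h1)
  dvd := by
    have h1 := h.dvd
    have h2 : ((C c * a : k[X]) : PowerSeries k) - ((C c * b : k[X]) : PowerSeries k) * S =
        PowerSeries.C c * (a - b * S) := by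
      push_cast
      ring
    rw [h2] at h1
    have h3 : IsUnit (PowerSeries.C c : PowerSeries k) := (hc.isUnit).map _
    exact h3.dvd_mul_left.1 h1

theorem App.smul {k : Type*} [Field k] {m : ℕ} {S : PowerSeries k} {e t : ℕ} {a b : k[X]}
    {c : k} (hc : c ≠ 0) (h : App m S e t a b) : App m S e t (C c * a) (C c * b) where
  da i hi := by rw [coeff_C_mul, h.da i hi, mul_zero]
  db i hi := by rw [coeff_C_mul, h.db i hi, mul_zero]
  ne := by
    rcases h.ne with h1 | h1
    · exact Or.inl (mul_ne_zero (C_ne_zero.2 hc) h1)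
    · exact Or.inr (mul_ne_zero (C_ne_zero.2 hc) h1)
  dvd := by
    have h2 : ((C c * a : k[X]) : PowerSeries k) - ((C c * b : k[X]) : PowerSeries k) * S =
        PowerSeries.C c * (a - b * S) := by
      push_cast
      ring
    rw [h2]
    exact h.dvd.mul_left _

/-- integral primitive approximations -/
theorem exists_int {m : ℕ} {S : PowerSeries O} {e t : ℕ}
    {a b : L[X]} (h : App m (PowerSeries.map (algebraMap O L) S) e t a b) :
    ∃ a1 b1 : O[X], AppR m S e t a1 b1 ∧
      App m (PowerSeries.map (IsLocalRing.residue O) S) e t (a1.map (IsLocalRing.residue O))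
        (b1.map (IsLocalRing.residue O)) := by
  obtain ⟨d, a1, b1, hd, ha1, hb1⟩ := clear_den (O := O) a b
  have hinj : Function.Injective (algebraMap O L) := IsFractionRing.injective O L
  have hd' : algebraMap O L d ≠ 0 := by
    rw [Ne, map_eq_zero_iff _ hinj]; exact hd
  have h1 := h.smul hd'
  rw [← ha1, ← hb1] at h1
  have hne : a1 ≠ 0 ∨ b1 ≠ 0 := by
    by_contra hc
    rw [not_or, not_not, not_not] at hc
    rw [hc.1, hc.2, Polynomial.map_zero] at h1
    rcases h1.ne with h2 | h2 <;> exact h2 rfl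
  obtain ⟨θ, a2, b2, hθ, ha2, hb2, hres⟩ := exists_prim a1 b1 hne
  have hθ' : algebraMap O L θ ≠ 0 := by
    rw [Ne, map_eq_zero_iff _ hinj]; exact hθ
  rw [ha2, hb2, Polynomial.map_mul, Polynomial.map_mul, map_C] at h1
  have h2 : AppR m S e t a2 b2 := AppR.of_map hinj (h1.of_smul hθ').toR
  exact ⟨a2, b2, h2, (h2.map (IsLocalRing.residue O)).toA hres⟩

end val

end Pool.Agent.X295.Pe
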