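import Mathlib
import Pool.Agent.X295.PeB

/-!
# Roots of order prime to the residue characteristic lift
-/

set_option autoImplicit false

namespace Pool.Agent.X295.Pe

open Polynomial

theorem monomial_split {R : Type*} [CommRing R] (f : R[X]) (n : ℕ)
    (h : ∀ i, n < i → f.coeff i = 0) :
    ∃ f1 : R[X], f = C (f.coeff n) * X ^ n + f1 ∧ (∀ i, n ≤ i → f1.coeff i = 0) ∧
      ∀ i, i < n → f1.coeff i = f.coeff i := by
  refine ⟨f - C (f.coeff n) * X ^ n, by ring, ?_, ?_⟩
  · intro i hi
    rw [coeff_sub, coeff_C_mul, coeff_X_pow]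
    rcases eq_or_lt_of_le hi with rfl | hi
    · rw [if_pos rfl, mul_one, sub_self]
    · rw [if_neg hi.ne', mul_zero, sub_zero, h i hi]
  · intro i hi
    rw [coeff_sub, coeff_C_mul, coeff_X_pow, if_neg hi.ne, mul_zero, sub_zero]

theorem AppR.norm_deg {R : Type*} [CommRing R] {m : ℕ} {D : R[X]} {S : PowerSeries R}
    (h : RootR m D S) {e t : ℕ} {a b : R[X]} (h1 : AppR m S e t a b) :
    ∀ i, 2 * e < i → (a * a - D * (b * b)).coeff i = 0 := by
  intro i hi
  rw [coeff_sub, coeff_mul_zero (s := 0) (s' := 0) h1.da h1.da i (by omega), zero_sub, neg_eq_zero]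
  exact coeff_mul_zero (s := 0) (s' := m + m) h.deg (coeff_mul_zero h1.db h1.db) i (by omega)

theorem AppR.norm_low {R : Type*} [CommRing R] {m : ℕ} {D : R[X]} {S : PowerSeries R}
    (h : RootR m D S) {e t : ℕ} {a b : R[X]} (h1 : AppR m S e t a b) :
    ∀ i, i < t → (a * a - D * (b * b)).coeff i = 0 := by
  intro i hi
  have h3 : ((a * a - D * (b * b) : R[X]) : PowerSeries R) = (a - b * S) * (a + b * S) := by
    push_cast
    rw [h.sq]
    ring
  have h4 : (PowerSeries.X : PowerSeries R) ^ t ∣ ((a * a - D * (b * b) : R[X]) : PowerSeries R) := by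
    rw [h3]
    exact h1.dvd.mul_right _
  have h5 := PowerSeries.X_pow_dvd_iff.1 h4 i hi
  rwa [Polynomial.coeff_coe] at h5

section

variable {O : Type*} [CommRing O] [IsDomain O] [ValuationRing O]
variable {L : Type*} [Field L] [Algebra O L] [IsFractionRing O L]

/-- If the residue field has a unit of degree `e` and the field one of degree `q e`, `q` not
divisible by the residue characteristic, then the field has a unit of degree `e`. -/
theorem key {m q e : ℕ} {D : O[X]} {S : PowerSeries O} (h : RootR m D S)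
    (hK : Root m (D.map (IsLocalRing.residue O)) (PowerSeries.map (IsLocalRing.residue O) S))
    (hq : ((q : ℕ) : IsLocalRing.ResidueField O) ≠ 0) (he : 1 ≤ e)
    (h1 : e ∈ Lam m (PowerSeries.map (IsLocalRing.residue O) S))
    (h2 : q * e ∈ Lam m (PowerSeries.map (algebraMap O L) S)) :
    e ∈ Lam m (PowerSeries.map (algebraMap O L) S) := by
  classical
  by_contra hne
  have hinj : Function.Injective (algebraMap O L) := IsFractionRing.injective O L
  set ρ := IsLocalRing.residue O with hρ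
  have hq0 : 1 ≤ q := by
    rcases Nat.eq_zero_or_pos q with rfl | h
    · exact absurd Nat.cast_zero hq
    · exact h
  obtain ⟨a', b', hη⟩ := h1
  obtain ⟨a0, b0, hε0⟩ := h2
  have hme : m ≤ e := (hη.ge he).2
  have hm := h.pos
  have hqe : e ≤ q * e := Nat.le_mul_of_pos_left e hq0
  obtain ⟨α, β, hε, hεκ⟩ := exists_int hε0
  obtain ⟨a1, b1, hζ0⟩ := exists_weak m (PowerSeries.map (algebraMap O L) S) hme
    (t := 2 * e + 1 - m) (by omega)
  obtain ⟨a, b, hζ, hζκ⟩ := exists_int hζ0
  obtain ⟨γ, hγ, haγ, hbγ⟩ := prop_of hK hme (by omega) (by omega) hζκ hη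
  have hζs : App m (PowerSeries.map ρ S) e (2 * e) (a.map ρ) (b.map ρ) := by
    rw [haγ, hbγ]
    exact hη.smul hγ
  -- the norm of the weak approximation
  set N : O[X] := a * a - D * (b * b) with hN
  have hNmap : N.map ρ = (a.map ρ) * (a.map ρ) - (D.map ρ) * ((b.map ρ) * (b.map ρ)) := by
    rw [hN]
    simp only [Polynomial.map_sub, Polynomial.map_mul]
  obtain ⟨c1, hc1, hNκ⟩ := norm_sol hK hζs
  rw [← hNmap] at hNκ
  have hNdeg := hζ.norm_deg h
  rw [← hN] at hNdeg
  have hNlow := hζ.norm_low h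
  rw [← hN] at hNlow
  obtain ⟨N', hN', hN'deg, hN'low⟩ := monomial_split N (2 * e) hNdeg
  set ν := N.coeff (2 * e) with hν
  have hν0 : ρ ν ≠ 0 := by
    have h3 : (N.map ρ).coeff (2 * e) = ρ ν := coeff_map _ _
    rw [hNκ, coeff_C_mul, coeff_X_pow, if_pos rfl, mul_one] at h3
    rw [← h3]
    exact hc1
  have hN'κ : N'.map ρ = 0 := by
    ext i
    rw [coeff_map, coeff_zero]
    by_cases hi : i < 2 * e
    · rw [hN'low i hi, ← coeff_map, hNκ, coeff_C_mul, coeff_X_pow, if_neg hi.ne, mul_zero]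
    · rw [hN'deg i (by omega), map_zero]
  have hN'0 : N' ≠ 0 := by
    intro h0
    apply hne
    have h3 : (PowerSeries.X : PowerSeries O) ^ (2 * e) ∣ (a + b * S) * (a - b * S) := by
      have h4 : ((a : PowerSeries O) + b * S) * (a - b * S) = ((N : O[X]) : PowerSeries O) := by
        rw [hN]
        push_cast
        rw [h.sq]
        ring
      rw [h4, hN', h0, add_zero]
      push_cast
      exact Dvd.intro_left _ rfl
    have h4 : IsUnit ((a : PowerSeries O) + b * S) := by
      rw [PowerSeries.isUnit_iff_constantCoeff]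
      have h5 : ρ (PowerSeries.constantCoeff ((a : PowerSeries O) + b * S)) ≠ 0 := by
        have h6 := hζs.dvd
        rw [PowerSeries.X_pow_dvd_iff] at h6
        have h7 := h6 0 (by omega)
        rw [PowerSeries.coeff_zero_eq_constantCoeff_apply, map_sub, sub_eq_zero, map_mul] at h7
        have h8 : PowerSeries.constantCoeff (((a.map ρ : (IsLocalRing.ResidueField O)[X])) :
            PowerSeries (IsLocalRing.ResidueField O)) = ρ (PowerSeries.constantCoeff
            (a : PowerSeries O)) := by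
          rw [coe_map, ← PowerSeries.coeff_zero_eq_constantCoeff_apply, PowerSeries.coeff_map,
            PowerSeries.coeff_zero_eq_constantCoeff_apply]
        have h9 : PowerSeries.constantCoeff (((b.map ρ : (IsLocalRing.ResidueField O)[X])) :
            PowerSeries (IsLocalRing.ResidueField O)) = ρ (PowerSeries.constantCoeff
            (b : PowerSeries O)) := by
          rw [coe_map, ← PowerSeries.coeff_zero_eq_constantCoeff_apply, PowerSeries.coeff_map,
            PowerSeries.coeff_zero_eq_constantCoeff_apply]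
        have h10 : PowerSeries.constantCoeff (PowerSeries.map ρ S) =
            ρ (PowerSeries.constantCoeff S) := by
          rw [← PowerSeries.coeff_zero_eq_constantCoeff_apply, PowerSeries.coeff_map,
            PowerSeries.coeff_zero_eq_constantCoeff_apply]
        have h11 := coeff0_ne hK he hζs
        have h12 : (a.map ρ).coeff 0 = ρ (PowerSeries.constantCoeff (a : PowerSeries O)) := by
          rw [← h8, ← PowerSeries.coeff_zero_eq_constantCoeff_apply, Polynomial.coeff_coe]
        rw [map_add, map_add, map_mul, map_mul, ← h9, ← h10, ← h7, h8, ← two_mul]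
        refine mul_ne_zero hK.two ?_
        rw [← h12]
        exact h11
      by_contra h6
      exact h5 ((IsLocalRing.residue_eq_zero_iff _).2 ((IsLocalRing.mem_maximalIdeal _).2 h6))
    have h5 : AppR m S e (2 * e) a b := ⟨hζ.da, hζ.db, h4.dvd_mul_left.1 h3⟩
    refine ⟨_, _, (h5.map (algebraMap O L)).toA ?_⟩
    rcases hζκ.ne with h6 | h6
    · left
      intro h7
      apply h6
      rw [(Polynomial.map_eq_zero_iff hinj).1 h7, Polynomial.map_zero]
    · right
      intro h7
      apply h6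
      rw [(Polynomial.map_eq_zero_iff hinj).1 h7, Polynomial.map_zero]
  obtain ⟨θ', N1, z1, hθ'0, hN1, hz1, hN1κ⟩ := exists_prim N' 0 (Or.inl hN'0)
  have hz10 : z1 = 0 := (mul_eq_zero.1 hz1.symm).resolve_left (C_ne_zero.2 hθ'0)
  rw [hz10, Polynomial.map_zero] at hN1κ
  have hN1κ' : N1.map ρ ≠ 0 := hN1κ.resolve_right (fun h => h rfl)
  have hθ'κ : ρ θ' = 0 := by
    rw [hN1, Polynomial.map_mul, map_C] at hN'κ
    exact C_eq_zero.1 ((mul_eq_zero.1 hN'κ).resolve_right hN1κ')
  have hN1z : ∀ i, N'.coeff i = 0 → N1.coeff i = 0 := by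
    intro i hi
    rw [hN1, coeff_C_mul] at hi
    exact (mul_eq_zero.1 hi).resolve_left hθ'0
  -- the unit of degree q e
  set Nε : O[X] := α * α - D * (β * β) with hNε
  have hNεm : Nε = C (Nε.coeff (2 * (q * e))) * X ^ (2 * (q * e)) :=
    eq_monomial (Polynomial.X_pow_dvd_iff.2 (hε.norm_low h)) (hε.norm_deg h)
  set c := Nε.coeff (2 * (q * e)) with hc
  have hNεmap : Nε.map ρ = (α.map ρ) * (α.map ρ) - (D.map ρ) * ((β.map ρ) * (β.map ρ)) := by
    rw [hNε]
    simp only [Polynomial.map_sub, Polynomial.map_mul]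
  have hNεκ : Nε.map ρ = C (ρ c) * X ^ (2 * (q * e)) := by
    rw [hNεm, Polynomial.map_mul, map_C, Polynomial.map_pow, map_X]
  have hcκ : ρ c ≠ 0 := by
    intro h0
    rw [h0, C_0, zero_mul, hNεmap] at hNεκ
    exact norm_ne hK hεκ.ne hNεκ
  -- the power of the weak approximation
  set P := pw D a b q with hP
  have hPapp : AppR m S (q * e) (q * (2 * e + 1 - m)) P.1 P.2 := pw_app h hζ q
  have hPn : P.1 * P.1 - D * (P.2 * P.2) = N ^ q := pw_norm a b q
  have hPκ : App m (PowerSeries.map ρ S) (q * e) (2 * (q * e)) (P.1.map ρ) (P.2.map ρ) := by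
    have h3 := pw_app (h.map ρ) hζs.toR q
    rw [pw_map, show q * (2 * e) = 2 * (q * e) by ring] at h3
    refine h3.toA ?_
    by_contra h4
    rw [not_or, not_not, not_not] at h4
    have h4' : map ρ P.1 = 0 ∧ map ρ P.2 = 0 := h4
    have h5 := congrArg (Polynomial.map ρ) hPn
    simp only [Polynomial.map_sub, Polynomial.map_mul, Polynomial.map_pow] at h5
    rw [h4'.1, h4'.2, mul_zero, mul_zero, sub_zero, hNκ] at h5
    exact pow_ne_zero q (mul_ne_zero (C_ne_zero.2 hc1) (pow_ne_zero _ X_ne_zero)) h5.symm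
  obtain ⟨γ2, hγ2, hP1, hP2⟩ := prop_of hK (hme.trans hqe) (by omega) le_rfl hPκ hεκ
  -- the quotient
  set x : O[X] := P.1 * α - D * (P.2 * β) with hx
  set y : O[X] := α * P.2 - P.1 * β with hy
  have hxdeg : ∀ i, 2 * (q * e) < i → x.coeff i = 0 := by
    intro i hi
    rw [hx, coeff_sub, coeff_mul_zero (s := 0) (s' := 0) hPapp.da hε.da i (by omega), zero_sub,
      neg_eq_zero]
    exact coeff_mul_zero (s := 0) (s' := m + m) h.deg (coeff_mul_zero hPapp.db hε.db) i (by omega)
  have hydeg : ∀ i, 2 * (q * e) < i + m → y.coeff i = 0 := by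
    intro i hi
    rw [hy, coeff_sub, coeff_mul_zero (s := 0) (s' := m) hε.da hPapp.db i (by omega),
      coeff_mul_zero (s := 0) (s' := m) hPapp.da hε.db i (by omega), sub_zero]
  have hxκ : x.map ρ = C (γ2 * ρ c) * X ^ (2 * (q * e)) := by
    have h3 : x.map ρ = C γ2 * (Nε.map ρ) := by
      rw [hNεmap, hx]
      simp only [Polynomial.map_sub, Polynomial.map_mul]
      rw [hP1, hP2]
      ring
    rw [h3, hNεκ, C_mul]
    ring
  have hyκ : y.map ρ = 0 := by
    rw [hy]
    simp only [Polynomial.map_sub, Polynomial.map_mul]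
    rw [hP1, hP2]
    ring
  have hxy : (PowerSeries.X : PowerSeries O) ^ (2 * (q * e)) ∣ (x : PowerSeries O) + y * S := by
    have h3 : (x : PowerSeries O) + y * S = (P.1 + P.2 * S) * (α - β * S) := by
      rw [hx, hy]
      push_cast
      rw [h.sq]
      ring
    rw [h3]
    exact hε.dvd.mul_left _
  obtain ⟨x', hx', hx'deg, hx'low⟩ := monomial_split x (2 * (q * e)) hxdeg
  set g0 := x.coeff (2 * (q * e)) with hg0
  have hg0κ : ρ g0 ≠ 0 := by
    have h3 : (x.map ρ).coeff (2 * (q * e)) = ρ g0 := coeff_map _ _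
    rw [hxκ, coeff_C_mul, coeff_X_pow, if_pos rfl, mul_one] at h3
    rw [← h3]
    exact mul_ne_zero hγ2 hcκ
  have hx'κ : x'.map ρ = 0 := by
    ext i
    rw [coeff_map, coeff_zero]
    by_cases hi : i < 2 * (q * e)
    · rw [hx'low i hi, ← coeff_map, hxκ, coeff_C_mul, coeff_X_pow, if_neg hi.ne, mul_zero]
    · rw [hx'deg i (by omega), map_zero]
  -- the norm of the quotient, first expansion
  set V : O[X] := x * x - D * (y * y) with hV
  have hVN : V = N ^ q * Nε := by
    rw [hV, ← hPn, hNε, hx, hy]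
    ring
  obtain ⟨K, hKe⟩ := powAddExpansion (C ν * X ^ (2 * e)) (C θ' * N1) q
  set Y : O[X] := C c * X ^ (2 * (q * e)) * ((q : O[X]) * (C ν * X ^ (2 * e)) ^ (q - 1) * N1 +
    K * (C θ' * N1 ^ 2)) with hY
  have hV1 : V = C (c * ν ^ q) * X ^ (4 * (q * e)) + C θ' * Y := by
    rw [hVN, hNεm, hN', hN1, hKe, hY, mul_pow, ← pow_mul, C_mul, C_pow,
      show 4 * (q * e) = 2 * (q * e) + 2 * e * q by ring, pow_add]
    ring
  have hYκ : Y.map ρ = C (ρ c * (q : IsLocalRing.ResidueField O) * ρ ν ^ (q - 1)) *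
      (X ^ (2 * (q * e) + 2 * e * (q - 1)) * N1.map ρ) := by
    rw [hY]
    simp only [Polynomial.map_add, Polynomial.map_mul, Polynomial.map_pow, map_C, map_X,
      Polynomial.map_natCast]
    rw [hθ'κ, C_0, zero_mul, mul_zero, add_zero, mul_pow, ← pow_mul, C_mul, C_mul, C_pow, pow_add,
      C_eq_natCast]
    ring
  -- the coefficients of Y
  have hYhigh : ∃ i, i < 4 * (q * e) ∧ ρ (Y.coeff i) ≠ 0 := by
    have h3 : ∃ j, (N1.map ρ).coeff j ≠ 0 := by
      by_contra h4
      apply hN1κ'
      ext j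
      rw [coeff_zero]
      by_contra h5
      exact h4 ⟨j, h5⟩
    obtain ⟨j, hj⟩ := h3
    have hj2 : j < 2 * e := by
      by_contra h4
      apply hj
      rw [coeff_map, hN1z j (hN'deg j (by omega)), map_zero]
    refine ⟨j + (2 * (q * e) + 2 * e * (q - 1)), ?_, ?_⟩
    · have h4 : 2 * e * (q - 1) + 2 * e = 2 * (q * e) := by
        obtain ⟨p, rfl⟩ := Nat.exists_eq_add_of_le hq0
        rw [Nat.add_sub_cancel_left]
        ring
      omega
    · rw [← coeff_map, hYκ, coeff_C_mul, coeff_X_pow_mul]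
      exact mul_ne_zero (mul_ne_zero (mul_ne_zero hcκ hq) (pow_ne_zero _ hν0)) hj
  have hYlow : ∀ i, i + m ≤ 2 * (q * e) → ρ (Y.coeff (2 * (q * e) + i)) = 0 := by
    intro i hi
    have h4 : 2 * e * (q - 1) + 2 * e = 2 * (q * e) := by
      obtain ⟨p, rfl⟩ := Nat.exists_eq_add_of_le hq0
      rw [Nat.add_sub_cancel_left]
      ring
    rw [← coeff_map, hYκ, coeff_C_mul, coeff_X_pow_mul']
    by_cases h5 : 2 * (q * e) + 2 * e * (q - 1) ≤ 2 * (q * e) + i
    · rw [if_pos h5, coeff_map, hN1z, map_zero, mul_zero]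
      rw [hN'low _ (by omega)]
      exact hNlow _ (by omega)
    · rw [if_neg h5, mul_zero]
  by_cases hxy0 : x' = 0 ∧ y = 0
  · obtain ⟨i, hi, hYi⟩ := hYhigh
    have h3 : V.coeff i = 0 := by
      rw [hV, hxy0.2, mul_zero, mul_zero, sub_zero, hx', hxy0.1, add_zero,
        show C g0 * X ^ (2 * (q * e)) * (C g0 * X ^ (2 * (q * e))) =
          C (g0 * g0) * X ^ (4 * (q * e)) by
            rw [C_mul, show 4 * (q * e) = 2 * (q * e) + 2 * (q * e) by ring, pow_add]; ring,
        coeff_C_mul, coeff_X_pow, if_neg hi.ne, mul_zero]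
    rw [hV1, coeff_add, coeff_C_mul, coeff_X_pow, if_neg hi.ne, mul_zero, zero_add,
      coeff_C_mul] at h3
    apply hYi
    rw [(mul_eq_zero.1 h3).resolve_left hθ'0, map_zero]
  have hxy1 : x' ≠ 0 ∨ y ≠ 0 := by
    by_contra h3
    rw [not_or, not_not, not_not] at h3
    exact hxy0 h3
  obtain ⟨θ, x1, y1, hθ0, hx1, hy1, hprim⟩ := exists_prim x' y hxy1
  have hθκ : ρ θ = 0 := by
    rw [hx1, Polynomial.map_mul, map_C] at hx'κ
    rw [hy1, Polynomial.map_mul, map_C] at hyκ
    rcases hprim with h3 | h3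
    · exact C_eq_zero.1 ((mul_eq_zero.1 hx'κ).resolve_right h3)
    · exact C_eq_zero.1 ((mul_eq_zero.1 hyκ).resolve_right h3)
  have hx1deg : ∀ i, 2 * (q * e) ≤ i → x1.coeff i = 0 := by
    intro i hi
    have h3 := hx'deg i hi
    rw [hx1, coeff_C_mul] at h3
    exact (mul_eq_zero.1 h3).resolve_left hθ0
  have hy1deg : ∀ i, 2 * (q * e) < i + m → y1.coeff i = 0 := by
    intro i hi
    have h3 := hydeg i hi
    rw [hy1, coeff_C_mul] at h3
    exact (mul_eq_zero.1 h3).resolve_left hθ0
  have hxy1' : ∀ i, i < 2 * (q * e) → PowerSeries.coeff i ((x1 : PowerSeries O) + (y1 : PowerSeries O) * S) = 0 := by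
    intro i hi
    have h3 := PowerSeries.X_pow_dvd_iff.1 hxy i hi
    have h4 : (x : PowerSeries O) + (y : PowerSeries O) * S = PowerSeries.C g0 * PowerSeries.X ^ (2 * (q * e)) +
        PowerSeries.C θ * ((x1 : PowerSeries O) + (y1 : PowerSeries O) * S) := by
      rw [hx', hx1, hy1]
      push_cast
      ring
    rw [h4, map_add, PowerSeries.coeff_C_mul, PowerSeries.coeff_C_mul, PowerSeries.coeff_X_pow,
      if_neg hi.ne, mul_zero, zero_add] at h3
    exact (mul_eq_zero.1 h3).resolve_left hθ0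
  have hxyκ : ∀ i, i < 2 * (q * e) → PowerSeries.coeff i
      (((x1.map ρ : (IsLocalRing.ResidueField O)[X]) : PowerSeries (IsLocalRing.ResidueField O)) +
        ((y1.map ρ : (IsLocalRing.ResidueField O)[X]) : PowerSeries (IsLocalRing.ResidueField O)) *
          PowerSeries.map ρ S) = 0 := by
    intro i hi
    rw [coe_map, coe_map, ← map_mul, ← map_add, PowerSeries.coeff_map, hxy1' i hi, map_zero]
  have hx1low : ∃ i, i + m ≤ 2 * (q * e) ∧ ρ (x1.coeff i) ≠ 0 := by
    by_contra h3
    have h4 : ∀ i, i + m ≤ 2 * (q * e) → (x1.map ρ).coeff i = 0 := by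
      intro i hi
      rw [coeff_map]
      by_contra h5
      exact h3 ⟨i, hi, h5⟩
    have hy10 : y1.map ρ = 0 := by
      have h5 : (PowerSeries.X : PowerSeries (IsLocalRing.ResidueField O)) ^
          (2 * (q * e) + 1 - m) ∣ ((y1.map ρ : (IsLocalRing.ResidueField O)[X]) :
            PowerSeries (IsLocalRing.ResidueField O)) * PowerSeries.map ρ S := by
        rw [PowerSeries.X_pow_dvd_iff]
        intro i hi
        have h6 := hxyκ i (by omega)
        rw [map_add, Polynomial.coeff_coe, h4 i (by omega), zero_add] at h6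
        exact h6
      have h6 : IsUnit (PowerSeries.map ρ S) := by
        rw [PowerSeries.isUnit_iff_constantCoeff]
        exact hK.c0.isUnit
      have h7 := h6.dvd_mul_right.1 h5
      ext i
      rw [coeff_zero]
      by_cases hi : i + m ≤ 2 * (q * e)
      · have h8 := PowerSeries.X_pow_dvd_iff.1 h7 i (by omega)
        rwa [Polynomial.coeff_coe] at h8
      · rw [coeff_map, hy1deg i (by omega), map_zero]
    have hx10 : x1.map ρ = 0 := by
      ext i
      rw [coeff_zero]
      by_cases hi : i < 2 * (q * e)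
      · have h6 := hxyκ i hi
        rw [hy10, Polynomial.coe_zero, zero_mul, add_zero, Polynomial.coeff_coe] at h6
        exact h6
      · rw [coeff_map, hx1deg i (by omega), map_zero]
    rcases hprim with h5 | h5
    · exact h5 hx10
    · exact h5 hy10
  -- second expansion
  set Z : O[X] := 2 * C g0 * X ^ (2 * (q * e)) * x1 + C θ * (x1 * x1 - D * (y1 * y1)) with hZ
  have hV2 : V = C (g0 * g0) * X ^ (4 * (q * e)) + C θ * Z := by
    rw [hV, hx', hx1, hy1, hZ, C_mul, show 4 * (q * e) = 2 * (q * e) + 2 * (q * e) by ring,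
      pow_add]
    ring
  have hcmp : ∀ i, i < 4 * (q * e) → θ * Z.coeff i = θ' * Y.coeff i := by
    intro i hi
    have h3 : V.coeff i = θ * Z.coeff i := by
      rw [hV2, coeff_add, coeff_C_mul, coeff_X_pow, if_neg hi.ne, mul_zero, zero_add, coeff_C_mul]
    have h4 : V.coeff i = θ' * Y.coeff i := by
      rw [hV1, coeff_add, coeff_C_mul, coeff_X_pow, if_neg hi.ne, mul_zero, zero_add, coeff_C_mul]
    rw [← h3, h4]
  obtain ⟨i0, hi0, hx1i0⟩ := hx1low
  have hZi0 : ρ (Z.coeff (2 * (q * e) + i0)) ≠ 0 := by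
    rw [← coeff_map, hZ]
    simp only [Polynomial.map_add, Polynomial.map_mul, Polynomial.map_pow, map_C, map_X,
      Polynomial.map_ofNat]
    rw [hθκ, C_0, zero_mul, add_zero,
      show (2 : (IsLocalRing.ResidueField O)[X]) * C (ρ g0) * X ^ (2 * (q * e)) * x1.map ρ =
        C (2 * ρ g0) * (X ^ (2 * (q * e)) * x1.map ρ) by
          rw [C_mul, show (C (2 : IsLocalRing.ResidueField O) : (IsLocalRing.ResidueField O)[X]) = 2
            from rfl]; ring,
      coeff_C_mul, add_comm, coeff_X_pow_mul, coeff_map]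
    exact mul_ne_zero (mul_ne_zero hK.two hg0κ) hx1i0
  rcases ValuationRing.dvd_total θ θ' with ⟨r, hr⟩ | ⟨r, hr⟩
  · have h3 := hcmp (2 * (q * e) + i0) (by omega)
    rw [hr, mul_assoc] at h3
    have h4 := mul_left_cancel₀ hθ0 h3
    apply hZi0
    rw [h4, map_mul, hYlow i0 hi0, mul_zero]
  · have h3 := hcmp (2 * (q * e) + i0) (by omega)
    rw [hr, mul_assoc] at h3
    have h4 := mul_left_cancel₀ hθ'0 h3
    obtain ⟨i1, hi1, hYi1⟩ := hYhigh
    have h5 := hcmp i1 hi1
    rw [hr, mul_assoc] at h5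
    have h6 := mul_left_cancel₀ hθ'0 h5
    have h7 : ρ r ≠ 0 := by
      intro h8
      apply hYi1
      rw [← h6, map_mul, h8, zero_mul]
    have h8 := hYlow i0 hi0
    rw [← h4, map_mul] at h8
    exact mul_ne_zero h7 hZi0 h8

end

end Pool.Agent.X295.Pe
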