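import Mathlib
import Pool.Agent.X295.PeC

/-!
# Units over finite fields, the Pell equation and the order of the section
-/

set_option autoImplicit false

namespace Pool.Agent.X295.Pe

open Polynomial

section field

variable {k : Type*} [Field k] {m : ℕ} {D : k[X]} {S : PowerSeries k}

theorem zero_mem_Lam : 0 ∈ Lam m S := by
  refine ⟨1, 0, ?_, ?_, Or.inl one_ne_zero, ?_⟩
  · intro i hi
    rw [coeff_one, if_neg (by omega)]
  · intro i _
    exact coeff_zero i
  · rw [mul_zero, pow_zero]
    exact one_dvd _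

theorem add_mem_Lam (h : Root m D S) {e e' : ℕ} (h1 : e ∈ Lam m S) (h2 : e' ∈ Lam m S) :
    e + e' ∈ Lam m S := by
  obtain ⟨a, b, hab⟩ := h1
  obtain ⟨a', b', hab'⟩ := h2
  have h3 := App.mul h hab hab'
  rw [← mul_add] at h3
  exact ⟨_, _, h3⟩

theorem mul_mem_Lam (h : Root m D S) {e : ℕ} (h1 : e ∈ Lam m S) (t : ℕ) : e * t ∈ Lam m S := by
  induction t with
  | zero => rw [mul_zero]; exact zero_mem_Lam
  | succ t ih => rw [mul_add, mul_one]; exact add_mem_Lam h ih h1

theorem D0_ne (h : Root m D S) : D.coeff 0 ≠ 0 := by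
  have h1 : PowerSeries.constantCoeff (D : PowerSeries k) = PowerSeries.constantCoeff S *
      PowerSeries.constantCoeff S := by rw [h.sq, map_mul]
  rw [← PowerSeries.coeff_zero_eq_constantCoeff_apply, Polynomial.coeff_coe] at h1
  rw [h1]
  exact mul_ne_zero h.c0 h.c0

theorem natDegree_reflect_le {R : Type*} [CommRing R] (f : R[X]) {n : ℕ} (hf : f.natDegree ≤ n) :
    (reflect n f).natDegree ≤ n := by
  rw [natDegree_le_iff_coeff_eq_zero]
  intro i hi
  rw [coeff_reflect, revAt_eq_self_of_lt hi]
  exact coeff_eq_zero_of_natDegree_lt (by omega)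

theorem natDegree_D (h : Root m D S) : (reflect (2 * m) D).natDegree = 2 * m := by
  apply le_antisymm
  · exact natDegree_reflect_le D (natDegree_le_iff_coeff_eq_zero.2 fun i hi => h.deg i hi)
  · apply le_natDegree_of_ne_zero
    rw [coeff_reflect, revAt_le le_rfl, Nat.sub_self]
    exact D0_ne h

theorem reflect_norm (hD : D.natDegree ≤ 2 * m) {e : ℕ} (hme : m ≤ e) {a b : k[X]}
    (ha : a.natDegree ≤ e) (hb : b.natDegree ≤ e - m) :
    reflect (2 * e) (a * a - D * (b * b)) =
      reflect e a * reflect e a - reflect (2 * m) D * (reflect (e - m) b * reflect (e - m) b) := by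
  have h1 : reflect (2 * e) (a * a) = reflect e a * reflect e a := by
    rw [two_mul, reflect_mul a a ha ha]
  have h2 : reflect (2 * e) (D * (b * b)) =
      reflect (2 * m) D * (reflect (e - m) b * reflect (e - m) b) := by
    rw [← reflect_mul b b hb hb, show 2 * e = 2 * m + ((e - m) + (e - m)) by omega]
    refine reflect_mul D (b * b) hD ?_
    exact natDegree_mul_le.trans (by omega)
  rw [← h1, ← h2]
  ext i
  simp only [coeff_reflect, coeff_sub]

/-- a solution of the Pell equation gives a unit -/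
theorem mem_of_pell (h : Root m D S) {A B : k[X]} (hB : B ≠ 0)
    (hAB : A * A - reflect (2 * m) D * (B * B) = 1) :
    A.natDegree ∈ Lam m S ∧ 1 ≤ A.natDegree := by
  have hm := h.pos
  have hDd : D.natDegree ≤ 2 * m := natDegree_le_iff_coeff_eq_zero.2 fun i hi => h.deg i hi
  have hD1 := natDegree_D h
  have hD10 : reflect (2 * m) D ≠ 0 := by
    intro h0
    rw [h0, natDegree_zero] at hD1
    omega
  have h1 : A * A = reflect (2 * m) D * (B * B) + 1 := by rw [← hAB]; ring
  have h2 : (reflect (2 * m) D * (B * B)).natDegree = 2 * m + 2 * B.natDegree := by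
    rw [natDegree_mul hD10 (mul_ne_zero hB hB), natDegree_mul hB hB, hD1]
    ring
  have h3 : (A * A).natDegree = 2 * m + 2 * B.natDegree := by
    rw [h1, natDegree_add_eq_left_of_natDegree_lt (by rw [natDegree_one, h2]; omega), h2]
  have hA0 : A ≠ 0 := by
    intro h0
    rw [h0, mul_zero, natDegree_zero] at h3
    omega
  rw [natDegree_mul hA0 hA0] at h3
  set e := A.natDegree with he
  have hme : m ≤ e := by omega
  have hBd : B.natDegree = e - m := by omega
  set a := reflect e A with ha
  set b := reflect (e - m) B with hb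
  have had : a.natDegree ≤ e := natDegree_reflect_le A le_rfl
  have hbd : b.natDegree ≤ e - m := natDegree_reflect_le B hBd.le
  have hN : a * a - D * (b * b) = X ^ (2 * e) := by
    have h4 := reflect_norm (D := reflect (2 * m) D) (m := m) hD1.le hme (le_refl e) hBd.le
    rw [hAB, reflect_reflect, reflect_one] at h4
    rw [h4]
  have ha0 : a.coeff 0 ≠ 0 := by
    rw [ha, coeff_reflect, revAt_le (Nat.zero_le _), Nat.sub_zero]
    exact leadingCoeff_ne_zero.2 hA0
  have hb0 : b ≠ 0 := by
    rw [hb, Ne, reflect_eq_zero_iff]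
    exact hB
  have hda : ∀ i, e < i → a.coeff i = 0 := fun i hi => coeff_eq_zero_of_natDegree_lt (by omega)
  have hdb : ∀ i, e < i + m → b.coeff i = 0 := fun i hi => coeff_eq_zero_of_natDegree_lt (by omega)
  have hprod : ((a : PowerSeries k) + (b : PowerSeries k) * S) *
      ((a : PowerSeries k) - (b : PowerSeries k) * S) = PowerSeries.X ^ (2 * e) := by
    have h4 : ((a : PowerSeries k) + (b : PowerSeries k) * S) *
        ((a : PowerSeries k) - (b : PowerSeries k) * S) =
        ((a * a - D * (b * b) : k[X]) : PowerSeries k) := by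
      push_cast
      rw [h.sq]
      ring
    rw [h4, hN]
    push_cast
    rfl
  refine ⟨?_, by omega⟩
  by_cases hu : IsUnit ((a : PowerSeries k) + (b : PowerSeries k) * S)
  · exact ⟨a, b, hda, hdb, Or.inr hb0, hu.dvd_mul_left.1 (dvd_of_eq hprod.symm)⟩
  · have hu2 : IsUnit ((a : PowerSeries k) - (b : PowerSeries k) * S) := by
      rw [PowerSeries.isUnit_iff_constantCoeff] at hu ⊢
      rw [isUnit_iff_ne_zero, not_not, map_add] at hu
      rw [isUnit_iff_ne_zero, map_sub]
      intro h0
      have h5 : PowerSeries.constantCoeff (a : PowerSeries k) = a.coeff 0 := by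
        rw [← PowerSeries.coeff_zero_eq_constantCoeff_apply, Polynomial.coeff_coe]
      have h6 : (2 : k) * a.coeff 0 = 0 := by
        rw [← h5]
        linear_combination hu + h0
      exact mul_ne_zero h.two ha0 h6
    refine ⟨a, -b, hda, ?_, Or.inl ?_, ?_⟩
    · intro i hi
      rw [coeff_neg, hdb i hi, neg_zero]
    · intro h0
      rw [h0, coeff_zero] at ha0
      exact ha0 rfl
    · have h7 : (a : PowerSeries k) - ((-b : k[X]) : PowerSeries k) * S =
          (a : PowerSeries k) + (b : PowerSeries k) * S := by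
        push_cast
        ring
      rw [h7]
      exact hu2.dvd_mul_right.1 (dvd_of_eq hprod.symm)

/-- a unit of positive degree gives a solution of the Pell equation -/
theorem pell_of_mem (h : Root m D S) {e : ℕ} (he : 1 ≤ e) (h1 : e ∈ Lam m S) :
    ∃ A B : k[X], B ≠ 0 ∧ A * A - reflect (2 * m) D * (B * B) = 1 := by
  obtain ⟨a, b, hab⟩ := h1
  have hDd : D.natDegree ≤ 2 * m := natDegree_le_iff_coeff_eq_zero.2 fun i hi => h.deg i hi
  obtain ⟨hb0, hme⟩ := hab.ge he
  obtain ⟨c, hc, hN⟩ := norm_sol h hab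
  have ha0 : a ≠ 0 := by
    intro h0
    apply coeff0_ne h he hab
    rw [h0, coeff_zero]
  have had : a.natDegree ≤ e := natDegree_le_iff_coeff_eq_zero.2 fun i hi => hab.da i hi
  have hbd : b.natDegree ≤ e - m := natDegree_le_iff_coeff_eq_zero.2 fun i hi =>
    hab.db i (by omega)
  have h2 := reflect_norm hDd hme had hbd
  rw [hN, reflect_C_mul_X_pow, revAt_le le_rfl, Nat.sub_self, pow_zero, mul_one] at h2
  set A := reflect e a
  set B := reflect (e - m) b
  set E := reflect (2 * m) D
  refine ⟨C c⁻¹ * (A * A + E * (B * B)), C c⁻¹ * (2 * A * B), ?_, ?_⟩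
  · refine mul_ne_zero (C_ne_zero.2 (inv_ne_zero hc)) (mul_ne_zero (mul_ne_zero ?_ ?_) ?_)
    · rw [show (2 : k[X]) = C 2 from rfl]
      exact C_ne_zero.2 h.two
    · rw [Ne, reflect_eq_zero_iff]; exact ha0
    · rw [Ne, reflect_eq_zero_iff]; exact hb0
  · have h3 : C c⁻¹ * C c = (1 : k[X]) := by rw [← C_mul, inv_mul_cancel₀ hc, C_1]
    have h4 : C c⁻¹ * (A * A + E * (B * B)) * (C c⁻¹ * (A * A + E * (B * B))) -
        E * (C c⁻¹ * (2 * A * B) * (C c⁻¹ * (2 * A * B))) =
        (C c⁻¹ * (A * A - E * (B * B))) ^ 2 := by ring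
    rw [h4, ← h2, h3, one_pow]

/-- the trailing coefficients of an approximation -/
theorem exists_low (h : Root m D S) {e t : ℕ} (hme : m ≤ e) (ht : 2 * e + 1 ≤ t + m)
    (ht2 : m ≤ t) {a b : k[X]} (hab : App m S e t a b) : ∃ i, i < m ∧ a.coeff i ≠ 0 := by
  by_contra hc
  have h0 : ∀ i, i < m → a.coeff i = 0 := by
    intro i hi
    by_contra h1
    exact hc ⟨i, hi, h1⟩
  have h1 : (PowerSeries.X : PowerSeries k) ^ m ∣ (a : PowerSeries k) := by
    rw [PowerSeries.X_pow_dvd_iff]
    intro i hi
    rw [Polynomial.coeff_coe, h0 i hi]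
  have h2 : (PowerSeries.X : PowerSeries k) ^ m ∣ (a : PowerSeries k) + b * S := by
    have h3 : (a : PowerSeries k) + b * S = 2 * a - (a - b * S) := by ring
    rw [h3]
    exact dvd_sub (h1.mul_left _) ((pow_dvd_pow _ ht2).trans hab.dvd)
  have h3 : (PowerSeries.X : PowerSeries k) ^ (2 * e + 1) ∣
      ((a * a - D * (b * b) : k[X]) : PowerSeries k) := by
    have h4 : ((a * a - D * (b * b) : k[X]) : PowerSeries k) = (a - b * S) * (a + b * S) := by
      push_cast
      rw [h.sq]
      ring
    rw [h4]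
    refine (pow_dvd_pow _ ht).trans ?_
    rw [pow_add]
    exact mul_dvd_mul hab.dvd h2
  apply norm_ne h hab.ne
  ext i
  rw [coeff_zero]
  by_cases hi : i < 2 * e + 1
  · have h5 := PowerSeries.X_pow_dvd_iff.1 h3 i hi
    rwa [Polynomial.coeff_coe] at h5
  · exact norm_deg h hab i (by omega)

/-- pigeonhole: over a finite field there is a unit of bounded degree -/
theorem exists_unit [Fintype k] (h : Root m D S) :
    ∃ e ∈ Lam m S, 1 ≤ e ∧ e ≤ 2 * (m * (Fintype.card k ^ (3 * m) + 1)) := by
  classical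
  have hm := h.pos
  have hDd : D.natDegree ≤ 2 * m := natDegree_le_iff_coeff_eq_zero.2 fun i hi => h.deg i hi
  set E := reflect (2 * m) D with hE
  set M := Fintype.card k ^ (3 * m) + 1 with hM
  have hex : ∀ i : ℕ, ∃ A B : k[X], A * A - E * (B * B) ≠ 0 ∧
      (A * A - E * (B * B)).natDegree < m ∧ m * i < A.natDegree ∧ A.natDegree ≤ m * (i + 1) ∧
        B.natDegree ≤ m * (i + 1) - m := by
    intro i
    set e := m * (i + 1) with he
    have hme : m ≤ e := Nat.le_mul_of_pos_right m (Nat.succ_pos i)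
    obtain ⟨a, b, hab⟩ := exists_weak m S hme (t := 2 * e + 1 - m) (by omega)
    have had : a.natDegree ≤ e := natDegree_le_iff_coeff_eq_zero.2 fun i hi => hab.da i hi
    have hbd : b.natDegree ≤ e - m := natDegree_le_iff_coeff_eq_zero.2 fun i hi =>
      hab.db i (by omega)
    have h2 := reflect_norm hDd hme had hbd
    refine ⟨reflect e a, reflect (e - m) b, ?_, ?_, ?_, natDegree_reflect_le a had,
      natDegree_reflect_le b hbd⟩
    · rw [← h2, Ne, reflect_eq_zero_iff]
      exact norm_ne h hab.ne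
    · rw [← h2]
      refine lt_of_le_of_lt (b := m - 1) ?_ (by omega)
      rw [natDegree_le_iff_coeff_eq_zero]
      intro j hj
      rw [coeff_reflect]
      by_cases hj2 : j ≤ 2 * e
      · rw [revAt_le hj2]
        exact Polynomial.X_pow_dvd_iff.1 (norm_dvd h hab) _ (by omega)
      · rw [revAt_eq_self_of_lt (by omega)]
        exact norm_deg h hab j (by omega)
    · obtain ⟨r, hr, har⟩ := exists_low h hme (by omega) (by omega) hab
      have h3 : e - r ≤ (reflect e a).natDegree := by
        apply le_natDegree_of_ne_zero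
        rw [coeff_reflect, revAt_le (by omega), show e - (e - r) = r by omega]
        exact har
      have h4 : e = m * i + m := by rw [he]; ring
      omega
  choose A B hν0 hνd hA1 hA2 hB using hex
  set ν : ℕ → k[X] := fun i => A i * A i - E * (B i * B i) with hν
  let f : Fin M → (Fin m → k) × (Fin m → k) × (Fin m → k) := fun i =>
    (fun j => (ν i).coeff j, fun j => (A i % ν i).coeff j, fun j => (B i % ν i).coeff j)
  have hcard : Fintype.card ((Fin m → k) × (Fin m → k) × (Fin m → k)) < Fintype.card (Fin M) := by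
    rw [Fintype.card_prod, Fintype.card_prod, Fintype.card_fun, Fintype.card_fin, Fintype.card_fin,
      hM, ← pow_add, ← pow_add, show m + (m + m) = 3 * m by ring]
    exact Nat.lt_succ_self _
  obtain ⟨i, j, hij, hf⟩ := Fintype.exists_ne_map_eq_of_card_lt f hcard
  have hf1 : ∀ (p p' : k[X]), p.natDegree < m → p'.natDegree < m →
      (fun l : Fin m => p.coeff l) = (fun l : Fin m => p'.coeff l) → p = p' := by
    intro p p' hp hp' hpp
    ext l
    by_cases hl : l < m
    · exact congrFun hpp ⟨l, hl⟩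
    · rw [coeff_eq_zero_of_natDegree_lt (by omega), coeff_eq_zero_of_natDegree_lt (by omega)]
  have hmod : ∀ (p : k[X]) (l : ℕ), (p % ν l).natDegree < m := by
    intro p l
    by_cases h0 : (ν l).natDegree = 0
    · have h1 : (ν l) ∣ p := by
        have h2 : IsUnit (ν l) := by
          rw [eq_C_of_natDegree_eq_zero h0]
          refine (isUnit_iff_ne_zero.2 ?_).map C
          intro h3
          apply hν0 l
          have h4 := eq_C_of_natDegree_eq_zero h0
          rw [h3, C_0] at h4
          exact h4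
        exact h2.dvd
      rw [EuclideanDomain.mod_eq_zero.2 h1, natDegree_zero]
      omega
    · exact (natDegree_mod_lt p h0).trans (hνd l)
  have hν_eq : ν i = ν j := hf1 _ _ (hνd i) (hνd j) (congrArg Prod.fst hf)
  have hA_eq : A i % ν i = A j % ν j := hf1 _ _ (hmod _ _) (hmod _ _)
    (congrArg (fun z => z.2.1) hf)
  have hB_eq : B i % ν i = B j % ν j := hf1 _ _ (hmod _ _) (hmod _ _)
    (congrArg (fun z => z.2.2) hf)
  rw [← hν_eq] at hA_eq hB_eq
  have hAd : ν i ∣ A j - A i := by
    have h1 := EuclideanDomain.div_add_mod (A i) (ν i)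
    have h2 := EuclideanDomain.div_add_mod (A j) (ν i)
    refine ⟨A j / ν i - A i / ν i, ?_⟩
    rw [mul_sub]
    linear_combination h1 - h2 - hA_eq
  have hBd : ν i ∣ B j - B i := by
    have h1 := EuclideanDomain.div_add_mod (B i) (ν i)
    have h2 := EuclideanDomain.div_add_mod (B j) (ν i)
    refine ⟨B j / ν i - B i / ν i, ?_⟩
    rw [mul_sub]
    linear_combination h1 - h2 - hB_eq
  obtain ⟨x, hx⟩ := hAd
  obtain ⟨y, hy⟩ := hBd
  have hνi : ν i = A i * A i - E * (B i * B i) := rfl
  have hνj : ν i = A j * A j - E * (B j * B j) := hν_eq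
  have hνne : ν i ≠ 0 := hν0 i
  set A2 := 1 + A i * x - E * (B i * y) with hA2d
  set B2 := A i * y - x * B i with hB2d
  have e1 : ν i * A2 = A i * A j - E * (B i * B j) := by
    rw [hA2d]
    linear_combination hνi - (A i) * hx + (E * B i) * hy
  have e2 : ν i * B2 = A i * B j - A j * B i := by
    rw [hB2d]
    linear_combination (B i) * hx - (A i) * hy
  have hpell : A2 * A2 - E * (B2 * B2) = 1 := by
    have h3 : ν i * ν i * (A2 * A2 - E * (B2 * B2)) = ν i * ν i * 1 := by
      have h4 : ν i * ν i * (A2 * A2 - E * (B2 * B2)) =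
          (ν i * A2) * (ν i * A2) - E * ((ν i * B2) * (ν i * B2)) := by ring
      rw [h4, e1, e2, mul_one]
      have h5 : ν i * ν i = (A i * A i - E * (B i * B i)) * (A j * A j - E * (B j * B j)) := by
        rw [← hνi, ← hνj]
      rw [h5]
      ring
    exact mul_left_cancel₀ (mul_ne_zero hνne hνne) h3
  have hB2 : B2 ≠ 0 := by
    intro h0
    rw [h0, mul_zero] at e2
    rw [h0, mul_zero, mul_zero, sub_zero] at hpell
    have h3 : A j * ν i = A i * (ν i * A2) := by
      rw [e1]
      nth_rewrite 1 [hνi]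
      linear_combination (-(E * B i)) * e2
    have h4 : A j = A i * A2 := by
      apply mul_right_cancel₀ hνne
      rw [h3]
      ring
    have h5 : A2 = 1 ∨ A2 = -1 := mul_self_eq_one_iff.1 hpell
    have h6 : (A j).natDegree = (A i).natDegree := by
      rcases h5 with h5 | h5
      · rw [h4, h5, mul_one]
      · rw [h4, h5, mul_neg, mul_one, natDegree_neg]
    have hij' : (i : ℕ) ≠ (j : ℕ) := fun h => hij (Fin.ext h)
    have b1 := hA1 i
    have b2 := hA2 i
    have b3 := hA1 j
    have b4 := hA2 j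
    rcases lt_or_gt_of_ne hij' with h7 | h7
    · have h8 : m * ((i : ℕ) + 1) ≤ m * (j : ℕ) := Nat.mul_le_mul_left m h7
      omega
    · have h8 : m * ((j : ℕ) + 1) ≤ m * (i : ℕ) := Nat.mul_le_mul_left m h7
      omega
  obtain ⟨h3, h4⟩ := mem_of_pell h hB2 hpell
  refine ⟨A2.natDegree, h3, h4, ?_⟩
  have hA2ne : A2 ≠ 0 := by
    intro h0
    rw [h0, natDegree_zero] at h4
    omega
  have hi2 : m * ((i : ℕ) + 1) ≤ m * M := Nat.mul_le_mul_left m i.2
  have hj2 : m * ((j : ℕ) + 1) ≤ m * M := Nat.mul_le_mul_left m j.2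
  have hmi : m ≤ m * ((i : ℕ) + 1) := Nat.le_mul_of_pos_right m (Nat.succ_pos _)
  have hmj : m ≤ m * ((j : ℕ) + 1) := Nat.le_mul_of_pos_right m (Nat.succ_pos _)
  have h5 : (ν i * A2).natDegree ≤ 2 * (m * M) := by
    rw [e1]
    refine (natDegree_sub_le _ _).trans (max_le ?_ ?_)
    · refine natDegree_mul_le.trans ?_
      have b2 := hA2 i
      have b4 := hA2 j
      omega
    · refine natDegree_mul_le.trans ?_
      have b1 : E.natDegree ≤ 2 * m := natDegree_reflect_le D hDd
      have b2 : (B i * B j).natDegree ≤ (B i).natDegree + (B j).natDegree := natDegree_mul_le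
      have b3 := hB i
      have b4 := hB j
      omega
  rw [natDegree_mul hνne hA2ne] at h5
  omega

end field

section

variable {O : Type*} [CommRing O] [IsDomain O] [ValuationRing O]
variable {L : Type*} [Field L] [Algebra O L] [IsFractionRing O L]

/-- the degree of the fundamental unit, up to a power of the residue characteristic -/
theorem local_order {m n l e0 : ℕ} {D : O[X]} {S : PowerSeries O} (h : RootR m D S)
    (hK : Root m (D.map (IsLocalRing.residue O)) (PowerSeries.map (IsLocalRing.residue O) S))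
    [CharP (IsLocalRing.ResidueField O) l] (hl : l.Prime)
    (hn1 : 1 ≤ n) (hn : n ∈ Lam m (PowerSeries.map (algebraMap O L) S))
    (hmin : ∀ j ∈ Lam m (PowerSeries.map (algebraMap O L) S), 1 ≤ j → n ≤ j)
    (he0 : e0 ∈ Lam m (PowerSeries.map (IsLocalRing.residue O) S)) (he1 : 1 ≤ e0) :
    ∃ n1 j, 1 ≤ n1 ∧ n1 ≤ e0 ∧ n = n1 * l ^ j := by
  classical
  have hex : ∃ j, j ∈ Lam m (PowerSeries.map (IsLocalRing.residue O) S) ∧ 1 ≤ j := ⟨e0, he0, he1⟩
  obtain ⟨hn1m, hn11⟩ := Nat.find_spec hex
  set n1 := Nat.find hex with hn1d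
  have hn1min : ∀ j ∈ Lam m (PowerSeries.map (IsLocalRing.residue O) S), 1 ≤ j → n1 ≤ j :=
    fun j hj hj1 => Nat.find_min' hex ⟨hj, hj1⟩
  have hnK : n ∈ Lam m (PowerSeries.map (IsLocalRing.residue O) S) := by
    obtain ⟨a, b, hab⟩ := hn
    obtain ⟨a1, b1, _, h2⟩ := exists_int hab
    exact ⟨_, _, h2⟩
  obtain ⟨t, ht⟩ := dvd_of_mem hK hn11 hn1m hn1min n hnK
  have ht0 : t ≠ 0 := by
    rintro rfl
    rw [mul_zero] at ht
    omega
  refine ⟨n1, t.primeFactorsList.length, hn11, hn1min e0 he0 he1, ?_⟩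
  have h3 : t = l ^ t.primeFactorsList.length := by
    refine Nat.eq_prime_pow_of_unique_prime_dvd ht0 ?_
    intro p hp hpt
    by_contra hne
    obtain ⟨t', rfl⟩ := hpt
    have ht'0 : 1 ≤ t' := by
      rcases Nat.eq_zero_or_pos t' with rfl | h4
      · exact absurd (mul_zero p) ht0
      · exact h4
    have he : 1 ≤ n1 * t' := Nat.mul_pos hn11 ht'0
    have h5 : n1 * t' ∈ Lam m (PowerSeries.map (algebraMap O L) S) := by
      refine key (q := p) h hK ?_ he (mul_mem_Lam hK hn1m t') ?_
      · intro h6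
        rw [CharP.cast_eq_zero_iff (IsLocalRing.ResidueField O) l] at h6
        exact hne ((Nat.prime_dvd_prime_iff_eq hl hp).1 h6).symm
      · rw [show p * (n1 * t') = n1 * (p * t') by ring, ← ht]
        exact hn
    have h6 := hmin _ h5 he
    rw [ht] at h6
    have h7 : n1 * t' < n1 * (p * t') := by
      apply Nat.mul_lt_mul_of_pos_left _ hn11
      have := hp.two_le
      nlinarith
    omega
  rw [← h3]
  exact ht

end

end Pool.Agent.X295.Pe
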