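import Mathlib
import Pool.Agent.X295.PeD

/-!
# The degree of the fundamental unit at a good prime
-/

set_option autoImplicit false

namespace Pool.Agent.X295.Pe

open Polynomial NumberField

/-- a valuation ring of `L` dominating the localisation of the integers at `l` -/
theorem exists_dom (l : ℕ) (hl : l.Prime) (L : Type*) [Field L] [CharZero L] :
    ∃ O : ValuationSubring L, ∀ r : ℤ, IsUnit ((r : O)) ↔ ¬ (l : ℤ) ∣ r := by
  have hq : Prime (l : ℤ) := Nat.prime_iff_prime_int.1 hl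
  have hP : (Ideal.span {(l : ℤ)}).IsPrime := (Ideal.span_singleton_prime hq.ne_zero).2 hq
  have hinj : Function.Injective (algebraMap ℤ L) := (algebraMap ℤ L).injective_int
  have hg : ∀ y : (Ideal.span {(l : ℤ)}).primeCompl, IsUnit (algebraMap ℤ L y) := by
    intro y
    rw [isUnit_iff_ne_zero, Ne, map_eq_zero_iff _ hinj]
    intro h
    exact y.2 (by rw [h]; exact Ideal.zero_mem _)
  set f : Localization.AtPrime (Ideal.span {(l : ℤ)}) →+* L := IsLocalization.lift hg with hf
  obtain ⟨O, hO, hloc⟩ := IsLocalRing.exists_factor_valuationRing f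
  set F : Localization.AtPrime (Ideal.span {(l : ℤ)}) →+* O := f.codRestrict O.toSubring hO with hF
  refine ⟨O, fun r => ?_⟩
  have h1 : IsUnit (F (algebraMap ℤ _ r)) ↔
      IsUnit (algebraMap ℤ (Localization.AtPrime (Ideal.span {(l : ℤ)})) r) :=
    ⟨fun h => hloc.map_nonunit _ h, fun h => h.map F⟩
  have h2 : F (algebraMap ℤ _ r) = (r : O) := by
    rw [← RingHom.comp_apply]
    exact RingHom.congr_fun (Subsingleton.elim _ (Int.castRingHom O)) r
  rw [← h2, h1, IsLocalization.AtPrime.isUnit_to_map_iff _ (Ideal.span {(l : ℤ)})]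
  rw [Ideal.mem_primeCompl_iff, Ideal.mem_span_singleton]

theorem PowerSeries_map_map {R A B : Type*} [CommRing R] [CommRing A] [CommRing B] (f : R →+* A)
    (g : A →+* B) (S : PowerSeries R) :
    PowerSeries.map g (PowerSeries.map f S) = PowerSeries.map (g.comp f) S := by
  ext i
  rw [PowerSeries.coeff_map, PowerSeries.coeff_map, PowerSeries.coeff_map, RingHom.comp_apply]

theorem constantCoeff_map {R A : Type*} [CommRing R] [CommRing A] (f : R →+* A)
    (S : PowerSeries R) : PowerSeries.constantCoeff (PowerSeries.map f S) =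
      f (PowerSeries.constantCoeff S) := by
  rw [← PowerSeries.coeff_zero_eq_constantCoeff_apply, PowerSeries.coeff_map,
    PowerSeries.coeff_zero_eq_constantCoeff_apply]

/-- the card of a residue field -/
theorem card_quot_le {F : Type*} [Field F] [NumberField F] (P : Ideal (𝓞 F)) (l : ℕ)
    (hl : l.Prime) (hP : (l : 𝓞 F) ∈ P) : Nat.card (𝓞 F ⧸ P) ≤ l ^ (Module.finrank ℚ F) := by
  have h1 : Ideal.absNorm P ∣ Ideal.absNorm (Ideal.span {(l : 𝓞 F)}) :=
    Ideal.absNorm_dvd_absNorm_of_le ((Ideal.span_singleton_le_iff_mem _).2 hP)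
  have h2 : Ideal.absNorm (Ideal.span {(l : 𝓞 F)}) = l ^ (Module.finrank ℚ F) := by
    rw [Ideal.absNorm_span_singleton]
    have h3 : (l : 𝓞 F) = algebraMap ℤ (𝓞 F) (l : ℤ) := by
      rw [map_natCast]
    rw [h3, Algebra.norm_algebraMap, Int.natAbs_pow, Int.natAbs_natCast, RingOfIntegers.rank]
  rw [h2] at h1
  exact Nat.le_of_dvd (pow_pos hl.pos _) h1

/-- the order at a good prime -/
theorem place_bound {q m : ℕ} {DA : (MvPolynomial (Fin q) ℤ)[X]}
    {SA : PowerSeries (MvPolynomial (Fin q) ℤ)} (h : RootR m DA SA) {k0 : ℕ} (hk0 : m < k0)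
    {F : Type*} [Field F] [NumberField F] (u : Fin q → F) (b : ℕ)
    (hb : ∀ j, IsIntegral ℤ ((b : F) * u j)) {N0 : ℤ} {c : ℕ} {α : 𝓞 F}
    (hα : (α : F) = (b : F) ^ c * MvPolynomial.aeval u
      (PowerSeries.constantCoeff SA * PowerSeries.coeff k0 SA))
    (hαN : α ∣ (N0 : 𝓞 F)) {l : ℕ} (hl : l.Prime) (hl2 : l ≠ 2) (hlb : ¬ l ∣ b)
    (hlN : ¬ (l : ℤ) ∣ N0) {L : Type*} [Field L] [CharZero L] [Algebra F L] {n : ℕ} (hn : 1 ≤ n)
    (hnm : n ∈ Lam m (PowerSeries.map ((algebraMap F L).comp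
      (MvPolynomial.aeval u : MvPolynomial (Fin q) ℤ →ₐ[ℤ] F).toRingHom) SA))
    (hmin : ∀ j ∈ Lam m (PowerSeries.map ((algebraMap F L).comp
      (MvPolynomial.aeval u : MvPolynomial (Fin q) ℤ →ₐ[ℤ] F).toRingHom) SA), 1 ≤ j → n ≤ j) :
    ∃ n1 j, 1 ≤ n1 ∧ n1 ≤ 2 * (m * ((l ^ (Module.finrank ℚ F)) ^ (3 * m) + 1)) ∧
      n = n1 * l ^ j := by
  classical
  obtain ⟨O, hO⟩ := exists_dom l hl L
  have hOinj : Function.Injective (algebraMap O L) := IsFractionRing.injective O L
  -- the integers of F in O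
  have hmem : ∀ z : 𝓞 F, ∃ y : O, algebraMap O L y = algebraMap F L (z : F) := by
    intro z
    have h1 : IsIntegral ℤ (algebraMap F L (z : F)) :=
      (map_isIntegral_int (algebraMap F L) z.isIntegral_coe)
    have h2 : IsIntegral O (algebraMap F L (z : F)) := h1.tower_top
    exact IsIntegrallyClosed.isIntegral_iff.1 h2
  have hmem' : ∀ z : 𝓞 F, ((algebraMap F L).comp (algebraMap (𝓞 F) F)) z ∈ O.toSubring := by
    intro z
    obtain ⟨y, hy⟩ := hmem z
    show algebraMap F L (z : F) ∈ O.toSubring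
    rw [← hy]
    exact y.2
  set J : 𝓞 F →+* O := ((algebraMap F L).comp (algebraMap (𝓞 F) F)).codRestrict O.toSubring hmem'
    with hJ
  have hJL : ∀ z : 𝓞 F, algebraMap O L (J z) = algebraMap F L (z : F) := fun z => rfl
  set ρ := IsLocalRing.residue O with hρ
  set τ : 𝓞 F →+* IsLocalRing.ResidueField O := ρ.comp J with hτ
  have hunit : ∀ x : O, ρ x ≠ 0 ↔ IsUnit x := by
    intro x
    rw [Ne, hρ, IsLocalRing.residue_eq_zero_iff, IsLocalRing.mem_maximalIdeal, mem_nonunits_iff,
      not_not]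
  have hl0 : ρ ((l : ℤ) : O) = 0 := by
    by_contra h1
    exact (hO l).1 ((hunit _).1 h1) dvd_rfl
  have hchar : CharP (IsLocalRing.ResidueField O) l := by
    have := Fact.mk hl
    refine (CharP.charP_iff_prime_eq_zero hl).2 ?_
    have h1 : ((l : ℕ) : IsLocalRing.ResidueField O) = ρ ((l : ℤ) : O) := by
      rw [map_intCast, Int.cast_natCast]
    rw [h1, hl0]
  have hker : (RingHom.ker τ).IsPrime := RingHom.ker_isPrime τ
  have hlker : (l : 𝓞 F) ∈ RingHom.ker τ := by
    rw [RingHom.mem_ker, map_natCast]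
    exact CharP.cast_eq_zero _ l
  have hker0 : RingHom.ker τ ≠ ⊥ := by
    intro h1
    rw [h1, Ideal.mem_bot] at hlker
    exact hl.ne_zero (by exact_mod_cast hlker)
  have hmax : (RingHom.ker τ).IsMaximal := hker.isMaximal hker0
  let : Field (𝓞 F ⧸ RingHom.ker τ) := Ideal.Quotient.field _
  have : Finite (𝓞 F ⧸ RingHom.ker τ) := Ideal.finiteQuotientOfFreeOfNeBot _ hker0
  let : Fintype (𝓞 F ⧸ RingHom.ker τ) := Fintype.ofFinite _
  set ι : (𝓞 F ⧸ RingHom.ker τ) →+* IsLocalRing.ResidueField O :=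
    Ideal.Quotient.lift _ τ (fun a ha => ha) with hι
  have hιinj : Function.Injective ι := ι.injective
  have hιmk : ∀ z, ι (Ideal.Quotient.mk _ z) = τ z := fun z => Ideal.Quotient.lift_mk _ _ _
  -- the parameters
  have hbu : IsUnit ((b : ℤ) : O) := (hO b).2 (fun h1 => hlb (by exact_mod_cast h1))
  obtain ⟨bu, hbu'⟩ := hbu
  have hbL : algebraMap F L (b : F) ≠ 0 := by
    rw [map_natCast]
    intro h1
    have h2 : (b : ℕ) = 0 := by exact_mod_cast h1
    exact hlb (h2 ▸ dvd_zero l)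
  set z : Fin q → 𝓞 F := fun j => ⟨(b : F) * u j, hb j⟩ with hz
  set uO : Fin q → O := fun j => J (z j) * ((bu⁻¹ : Oˣ) : O) with huO
  have hbinv : algebraMap O L ((bu⁻¹ : Oˣ) : O) = (algebraMap F L (b : F))⁻¹ := by
    have h1 : algebraMap F L (b : F) = algebraMap O L (bu : O) := by
      rw [hbu', map_natCast, map_intCast, Int.cast_natCast]
    apply eq_inv_of_mul_eq_one_left
    rw [h1, ← map_mul, Units.inv_mul, map_one]
  have huL : ∀ j, algebraMap O L (uO j) = algebraMap F L (u j) := by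
    intro j
    show algebraMap O L (J (z j) * ((bu⁻¹ : Oˣ) : O)) = _
    rw [map_mul, hbinv, hJL]
    show algebraMap F L ((b : F) * u j) * _ = _
    rw [map_mul, mul_comm (algebraMap F L (b : F)), mul_assoc, mul_inv_cancel₀ hbL, mul_one]
  set φO : MvPolynomial (Fin q) ℤ →+* O :=
    (MvPolynomial.aeval uO : MvPolynomial (Fin q) ℤ →ₐ[ℤ] O).toRingHom with hφO
  set φF : MvPolynomial (Fin q) ℤ →+* F :=
    (MvPolynomial.aeval u : MvPolynomial (Fin q) ℤ →ₐ[ℤ] F).toRingHom with hφF
  have hφL : (algebraMap O L).comp φO = (algebraMap F L).comp φF := by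
    refine MvPolynomial.ringHom_ext ?_ ?_
    · intro r
      rw [RingHom.comp_apply, RingHom.comp_apply]
      show algebraMap O L (MvPolynomial.aeval uO (MvPolynomial.C r)) =
        algebraMap F L (MvPolynomial.aeval u (MvPolynomial.C r))
      rw [MvPolynomial.aeval_C, MvPolynomial.aeval_C]
      simp
    · intro j
      rw [RingHom.comp_apply, RingHom.comp_apply]
      show algebraMap O L (MvPolynomial.aeval uO (MvPolynomial.X j)) =
        algebraMap F L (MvPolynomial.aeval u (MvPolynomial.X j))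
      rw [MvPolynomial.aeval_X, MvPolynomial.aeval_X, huL]
  set uk : Fin q → (𝓞 F ⧸ RingHom.ker τ) := fun j =>
    Ideal.Quotient.mk _ (z j) * ((b : 𝓞 F ⧸ RingHom.ker τ))⁻¹ with huk
  set φk : MvPolynomial (Fin q) ℤ →+* (𝓞 F ⧸ RingHom.ker τ) :=
    (MvPolynomial.aeval uk : MvPolynomial (Fin q) ℤ →ₐ[ℤ] (𝓞 F ⧸ RingHom.ker τ)).toRingHom with hφk
  have hρb : ρ ((bu⁻¹ : Oˣ) : O) = (b : IsLocalRing.ResidueField O)⁻¹ := by
    have h1 : ρ (bu : O) = (b : IsLocalRing.ResidueField O) := by
      rw [hbu', map_intCast, Int.cast_natCast]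
    rw [← h1]
    apply eq_inv_of_mul_eq_one_left
    rw [← map_mul, Units.inv_mul, map_one]
  have huκ : ∀ j, ρ (uO j) = ι (uk j) := by
    intro j
    show ρ (J (z j) * ((bu⁻¹ : Oˣ) : O)) =
      ι (Ideal.Quotient.mk _ (z j) * ((b : 𝓞 F ⧸ RingHom.ker τ))⁻¹)
    rw [map_mul, map_mul, hρb, hιmk, map_inv₀, map_natCast]
    rfl
  have hφκ : ρ.comp φO = ι.comp φk := by
    refine MvPolynomial.ringHom_ext ?_ ?_
    · intro r
      rw [RingHom.comp_apply, RingHom.comp_apply]
      show ρ (MvPolynomial.aeval uO (MvPolynomial.C r)) = ι (MvPolynomial.aeval uk (MvPolynomial.C r))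
      rw [MvPolynomial.aeval_C, MvPolynomial.aeval_C]
      simp
    · intro j
      rw [RingHom.comp_apply, RingHom.comp_apply]
      show ρ (MvPolynomial.aeval uO (MvPolynomial.X j)) = ι (MvPolynomial.aeval uk (MvPolynomial.X j))
      rw [MvPolynomial.aeval_X, MvPolynomial.aeval_X, huκ]
  -- the good reduction
  have hw : ρ (φO (PowerSeries.constantCoeff SA * PowerSeries.coeff k0 SA)) ≠ 0 := by
    have h1 : IsUnit (J α) := by
      obtain ⟨y, hy⟩ := hαN
      have h2 : IsUnit (J (N0 : 𝓞 F)) := by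
        rw [map_intCast]
        exact (hO N0).2 hlN
      rw [hy, map_mul] at h2
      exact isUnit_of_mul_isUnit_left h2
    have h2 : J α = (bu : O) ^ c *
        φO (PowerSeries.constantCoeff SA * PowerSeries.coeff k0 SA) := by
      apply hOinj
      rw [hJL, hα, RingHom.map_mul (algebraMap F L), RingHom.map_pow (algebraMap F L),
        RingHom.map_mul (algebraMap O L), RingHom.map_pow (algebraMap O L)]
      congr 1
      · rw [hbu', map_natCast, map_intCast, Int.cast_natCast]
      · exact (RingHom.congr_fun hφL _).symm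
    rw [h2] at h1
    exact (hunit _).2 (isUnit_of_mul_isUnit_right h1)
  rw [map_mul, map_mul] at hw
  have hw1 := left_ne_zero_of_mul hw
  have hw2 := right_ne_zero_of_mul hw
  have hl2' : (2 : IsLocalRing.ResidueField O) ≠ 0 := by
    intro h1
    have h2 : ((2 : ℕ) : IsLocalRing.ResidueField O) = 0 := by exact_mod_cast h1
    rw [CharP.cast_eq_zero_iff (IsLocalRing.ResidueField O) l] at h2
    exact hl2 ((Nat.prime_dvd_prime_iff_eq hl Nat.prime_two).1 h2)
  have hRO : RootR m (DA.map φO) (PowerSeries.map φO SA) := h.map φO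
  have hK : Root m ((DA.map φO).map ρ) (PowerSeries.map ρ (PowerSeries.map φO SA)) := by
    refine (hRO.map ρ).toRoot ?_ ⟨k0, hk0, ?_⟩ hl2'
    · rw [constantCoeff_map, constantCoeff_map]
      exact hw1
    · rw [PowerSeries.coeff_map, PowerSeries.coeff_map]
      exact hw2
  have hkR : Root m (DA.map φk) (PowerSeries.map φk SA) := by
    refine (h.map φk).toRoot ?_ ⟨k0, hk0, ?_⟩ ?_
    · intro h1
      apply hw1
      rw [constantCoeff_map] at h1
      have h2 := RingHom.congr_fun hφκ (PowerSeries.constantCoeff SA)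
      rw [RingHom.comp_apply, RingHom.comp_apply, h1, map_zero] at h2
      exact h2
    · intro h1
      apply hw2
      rw [PowerSeries.coeff_map] at h1
      have h2 := RingHom.congr_fun hφκ (PowerSeries.coeff k0 SA)
      rw [RingHom.comp_apply, RingHom.comp_apply, h1, map_zero] at h2
      exact h2
    · intro h1
      apply hl2'
      have h2 : ι 2 = 2 := map_ofNat ι 2
      rw [← h2, h1, map_zero]
  obtain ⟨e0, he0, he1, he2⟩ := exists_unit hkR
  have he0κ : e0 ∈ Lam m (PowerSeries.map ρ (PowerSeries.map φO SA)) := by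
    obtain ⟨x, y, hxy⟩ := he0
    have h1 := hxy.toR.map ι
    rw [PowerSeries_map_map, ← hφκ, ← PowerSeries_map_map] at h1
    refine ⟨x.map ι, y.map ι, h1.toA ?_⟩
    rcases hxy.ne with h2 | h2
    · exact Or.inl ((Polynomial.map_ne_zero_iff hιinj).2 h2)
    · exact Or.inr ((Polynomial.map_ne_zero_iff hιinj).2 h2)
  have hcardle : Fintype.card (𝓞 F ⧸ RingHom.ker τ) ≤ l ^ (Module.finrank ℚ F) := by
    rw [← Nat.card_eq_fintype_card]
    exact card_quot_le _ l hl hlker
  rw [← hφL, ← PowerSeries_map_map] at hnm hmin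
  obtain ⟨n1, j, hn11, hn12, hn13⟩ := local_order hRO hK hl hn hnm hmin he0κ he1
  refine ⟨n1, j, hn11, hn12.trans (he2.trans ?_), hn13⟩
  gcongr

end Pool.Agent.X295.Pe
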