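import Mathlib
import Pool.Agent.X295.PeE

/-!
# A bound for the degree of the fundamental unit in terms of the height
-/

set_option autoImplicit false

namespace Pool.Agent.X295.Pe

open Polynomial NumberField

theorem isIntegral_aeval {q : ℕ} {F : Type*} [Field F] (u : Fin q → F) (b : ℕ)
    (hb : ∀ j, IsIntegral ℤ ((b : F) * u j)) (p : MvPolynomial (Fin q) ℤ) {c : ℕ}
    (hc : p.totalDegree ≤ c) : IsIntegral ℤ ((b : F) ^ c * MvPolynomial.aeval u p) := by
  rw [MvPolynomial.aeval_def, MvPolynomial.eval₂_eq', Finset.mul_sum]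
  refine IsIntegral.sum _ fun s hs => ?_
  have hs1 : ∑ i, s i ≤ c := by
    have h1 := MvPolynomial.le_totalDegree hs
    rw [Finsupp.sum_fintype _ _ (fun _ => rfl)] at h1
    exact h1.trans hc
  have h2 : (b : F) ^ c * (algebraMap ℤ F (MvPolynomial.coeff s p) * ∏ i, u i ^ s i) =
      algebraMap ℤ F (MvPolynomial.coeff s p) * ((b : F) ^ (c - ∑ i, s i) *
        ∏ i, ((b : F) * u i) ^ s i) := by
    have h3 : ∏ i, ((b : F) * u i) ^ s i = (b : F) ^ (∑ i, s i) * ∏ i, u i ^ s i := by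
      rw [← Finset.prod_pow_eq_pow_sum, ← Finset.prod_mul_distrib]
      exact Finset.prod_congr rfl fun i _ => mul_pow _ _ _
    rw [h3, show (b : F) ^ c = (b : F) ^ (c - ∑ i, s i) * (b : F) ^ (∑ i, s i) by
      rw [← pow_add, Nat.sub_add_cancel hs1]]
    ring
  rw [h2]
  refine isIntegral_algebraMap.mul (IsIntegral.mul ?_ ?_)
  · exact (isIntegral_natCast (R := ℤ) b).pow _
  · exact IsIntegral.prod _ fun i _ => (hb i).pow _

theorem norm_aeval_le {q : ℕ} (v : Fin q → ℂ) {H : ℝ} (hH : 1 ≤ H) (hv : ∀ j, ‖v j‖ ≤ H)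
    (p : MvPolynomial (Fin q) ℤ) {c : ℕ} (hc : p.totalDegree ≤ c) :
    ‖MvPolynomial.aeval v p‖ ≤ (∑ s ∈ p.support, |((p.coeff s : ℤ) : ℝ)|) * H ^ c := by
  rw [MvPolynomial.aeval_def, MvPolynomial.eval₂_eq', Finset.sum_mul]
  refine (norm_sum_le _ _).trans (Finset.sum_le_sum fun s hs => ?_)
  have hs1 : ∑ i, s i ≤ c := by
    have h1 := MvPolynomial.le_totalDegree hs
    rw [Finsupp.sum_fintype _ _ (fun _ => rfl)] at h1
    exact h1.trans hc
  rw [norm_mul, norm_prod]
  have h2 : ‖algebraMap ℤ ℂ (MvPolynomial.coeff s p)‖ = |((MvPolynomial.coeff s p : ℤ) : ℝ)| := by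
    rw [eq_intCast, Complex.norm_intCast]
  rw [h2]
  refine mul_le_mul_of_nonneg_left ?_ (abs_nonneg _)
  calc ∏ i, ‖v i ^ s i‖ ≤ ∏ i, H ^ s i := by
        refine Finset.prod_le_prod (fun i _ => norm_nonneg _) fun i _ => ?_
        rw [norm_pow]
        exact pow_le_pow_left₀ (norm_nonneg _) (hv i) _
    _ = H ^ (∑ i, s i) := Finset.prod_pow_eq_pow_sum _ _ _
    _ ≤ H ^ c := pow_le_pow_right₀ hH hs1

theorem absNorm_le {F : Type*} [Field F] [NumberField F] (α : 𝓞 F) {B : ℝ}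
    (hα : ∀ σ : F →+* ℂ, ‖σ (α : F)‖ ≤ B) :
    (Ideal.absNorm (Ideal.span {α}) : ℝ) ≤ B ^ (Module.finrank ℚ F) := by
  rw [Ideal.absNorm_span_singleton]
  have h1 : ((Algebra.norm ℤ α : ℤ) : ℚ) = Algebra.norm ℚ (α : F) := Algebra.coe_norm_int α
  have h2 := Algebra.norm_eq_prod_embeddings ℚ ℂ (α : F)
  have h3 : (((Algebra.norm ℤ α).natAbs : ℕ) : ℝ) = ‖(algebraMap ℚ ℂ) (Algebra.norm ℚ (α : F))‖ := by
    rw [← h1, Nat.cast_natAbs]
    simp
  rw [h3, h2, norm_prod, ← AlgHom.card ℚ F ℂ, ← Finset.card_univ, ← Finset.prod_const]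
  refine Finset.prod_le_prod (fun i _ => norm_nonneg _) fun σ _ => ?_
  exact hα σ.toRingHom

theorem theta_big {X : ℝ} (hX : 390625 ≤ X) :
    X / 4 ≤ Chebyshev.theta X - Real.log X := by
  have hX0 : 0 < X := by linarith
  set y := X ^ (1 / 4 : ℝ) with hy
  have hy0 : 0 < y := Real.rpow_pos_of_pos hX0 _
  have hy4 : y ^ 4 = X := by
    rw [hy, ← Real.rpow_natCast, ← Real.rpow_mul hX0.le]
    norm_num
  have hy25 : 25 ≤ y := by
    by_contra hc
    have h1 : y < 25 := not_le.1 hc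
    have h2 : y ^ 4 < 25 ^ 4 := pow_lt_pow_left₀ h1 hy0.le (by norm_num)
    rw [hy4] at h2
    norm_num at h2
    linarith
  have hlog : Real.log X ≤ 4 * y := by
    rw [← hy4, Real.log_pow]
    have := Real.log_le_sub_one_of_pos hy0
    push_cast
    linarith
  have hlog0 : 0 ≤ Real.log X := Real.log_nonneg (by linarith)
  have hsqrt : Real.sqrt X = y ^ 2 := by
    rw [← hy4, show y ^ 4 = (y ^ 2) ^ 2 by ring, Real.sqrt_sq (by positivity)]
  have hlog2 : Real.log (X + 2) ≤ 8 * y := by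
    have h1 : Real.log (X + 2) ≤ Real.log (X ^ 2) := by
      apply Real.log_le_log (by linarith)
      nlinarith
    rw [Real.log_pow] at h1
    push_cast at h1
    linarith
  have h1 := Chebyshev.theta_ge' (x := X) (by linarith)
  rw [hsqrt] at h1
  have h2 : 2 * y ^ 2 * Real.log X ≤ 8 * y ^ 3 := by
    have h3 : 2 * y ^ 2 * Real.log X ≤ 2 * y ^ 2 * (4 * y) :=
      mul_le_mul_of_nonneg_left hlog (by positivity)
    linarith [h3]
  have h3 := Real.log_two_gt_d9
  have h4 : (X - 1) * 0.69 ≤ (X - 1) * Real.log 2 :=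
    mul_le_mul_of_nonneg_left (by linarith) (by linarith)
  have h5 : 8 * y ^ 3 + 12 * y + 1 ≤ 0.44 * y ^ 4 := by
    have h6 : 0 ≤ y ^ 3 * (y - 25) := by
      apply mul_nonneg (by positivity)
      linarith
    have h7 : 625 * y ≤ y ^ 3 := by
      have h8 : 0 ≤ y * (y ^ 2 - 625) := by
        apply mul_nonneg hy0.le
        nlinarith
      nlinarith
    nlinarith
  rw [hy4] at h5
  linarith

/-- two small primes not dividing a given integer -/
theorem exists_two_primes (M : ℕ) (hM : M ≠ 0) :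
    ∃ l1 l2 : ℕ, l1.Prime ∧ l2.Prime ∧ l1 ≠ l2 ∧ ¬ l1 ∣ M ∧ ¬ l2 ∣ M ∧
      (l1 : ℝ) ≤ 390627 * (1 + Real.log M) ∧ (l2 : ℝ) ≤ 390627 * (1 + Real.log M) := by
  classical
  have hM1 : (1 : ℝ) ≤ M := by exact_mod_cast Nat.one_le_iff_ne_zero.2 hM
  have hlM : 0 ≤ Real.log M := Real.log_nonneg hM1
  set X : ℝ := 390625 + 4 * Real.log M + 1 with hX
  have hXle : X ≤ 390627 * (1 + Real.log M) := by
    rw [hX]
    nlinarith
  set N := ⌊X⌋₊ with hN
  set T : Finset ℕ := (Finset.range (N + 1)).filter Nat.Prime with hT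
  have htheta : Chebyshev.theta X = ∑ p ∈ T, Real.log p := by
    rw [Chebyshev.theta_eq_sum_Icc]
    apply Finset.sum_congr _ (fun _ _ => rfl)
    ext p
    simp only [Finset.mem_filter, Finset.mem_Icc, hT, Finset.mem_range]
    constructor
    · rintro ⟨⟨_, h2⟩, h3⟩
      exact ⟨by omega, h3⟩
    · rintro ⟨h2, h3⟩
      exact ⟨⟨by omega, by omega⟩, h3⟩
  set G := T.filter (fun p => ¬ p ∣ M) with hG
  have hmemG : ∀ p ∈ G, p.Prime ∧ ¬ p ∣ M ∧ (p : ℝ) ≤ X := by
    intro p hp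
    rw [hG, Finset.mem_filter, hT, Finset.mem_filter, Finset.mem_range] at hp
    refine ⟨hp.1.2, hp.2, ?_⟩
    have h1 : p ≤ N := by omega
    exact (Nat.cast_le.2 h1).trans (Nat.floor_le (by linarith))
  by_cases hcard : 1 < G.card
  · obtain ⟨l1, h1, l2, h2, hne⟩ := Finset.one_lt_card.1 hcard
    obtain ⟨a1, a2, a3⟩ := hmemG l1 h1
    obtain ⟨b1, b2, b3⟩ := hmemG l2 h2
    exact ⟨l1, l2, a1, b1, hne, a2, b2, a3.trans hXle, b3.trans hXle⟩
  · exfalso
    have h1 : ∑ p ∈ G, Real.log p ≤ Real.log X := by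
      rcases Finset.eq_empty_or_nonempty G with h0 | ⟨p, hp⟩
      · rw [h0, Finset.sum_empty]
        exact Real.log_nonneg (by linarith)
      · have h2 : G = {p} := by
          apply Finset.eq_singleton_iff_unique_mem.2
          refine ⟨hp, fun x hx => ?_⟩
          by_contra hne
          exact hcard (Finset.one_lt_card.2 ⟨x, hx, p, hp, hne⟩)
        rw [h2, Finset.sum_singleton]
        obtain ⟨a1, _, a3⟩ := hmemG p hp
        exact Real.log_le_log (by exact_mod_cast a1.pos) a3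
    have h2 : ∑ p ∈ T.filter (fun p => ¬ ¬ p ∣ M), Real.log p ≤ Real.log M := by
      calc ∑ p ∈ T.filter (fun p => ¬ ¬ p ∣ M), Real.log p
          ≤ ∑ p ∈ M.primeFactors, Real.log p := by
            apply Finset.sum_le_sum_of_subset_of_nonneg
            · intro p hp
              rw [Finset.mem_filter, hT, Finset.mem_filter] at hp
              exact Nat.mem_primeFactors.2 ⟨hp.1.2, not_not.1 hp.2, hM⟩
            · intro p hp _
              exact Real.log_nonneg (by exact_mod_cast (Nat.prime_of_mem_primeFactors hp).one_lt.le)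
        _ = Real.log ((∏ p ∈ M.primeFactors, p : ℕ) : ℝ) := by
            rw [Nat.cast_prod, Real.log_prod]
            intro p hp
            exact_mod_cast (Nat.prime_of_mem_primeFactors hp).ne_zero
        _ ≤ Real.log M := by
            apply Real.log_le_log
            · exact_mod_cast Finset.prod_pos fun p hp => (Nat.prime_of_mem_primeFactors hp).pos
            · exact_mod_cast Nat.le_of_dvd (Nat.pos_of_ne_zero hM) (Nat.prod_primeFactors_dvd M)
    have h3 := theta_big (X := X) (by linarith)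
    rw [htheta, ← Finset.sum_filter_add_sum_filter_not T (fun p => ¬ p ∣ M)] at h3
    have h4 : X / 4 ≤ Real.log M := by linarith
    rw [hX] at h4
    linarith

/-- the degree of the fundamental unit is at most a power of the logarithm of the height -/
theorem order_bound {q m : ℕ} {DA : (MvPolynomial (Fin q) ℤ)[X]}
    {SA : PowerSeries (MvPolynomial (Fin q) ℤ)} (h : RootR m DA SA) {k0 : ℕ} (hk0 : m < k0)
    (d : ℕ) : ∃ (C : ℝ) (c' : ℕ), 1 ≤ C ∧ ∀ (H : ℝ), 2 ≤ H →
      ∀ (F : Type) [Field F] [NumberField F], Module.finrank ℚ F ≤ d →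
      ∀ (u : Fin q → F) (b : ℕ), 1 ≤ b → (b : ℝ) ≤ H → (∀ j, IsIntegral ℤ ((b : F) * u j)) →
      (∀ (σ : F →+* ℂ) j, ‖σ (u j)‖ ≤ H) →
      MvPolynomial.aeval u (PowerSeries.constantCoeff SA * PowerSeries.coeff k0 SA) ≠ 0 →
      ∀ (L : Type) [Field L] [CharZero L] [Algebra F L] (n : ℕ), 1 ≤ n →
      n ∈ Lam m (PowerSeries.map ((algebraMap F L).comp
        (MvPolynomial.aeval u : MvPolynomial (Fin q) ℤ →ₐ[ℤ] F).toRingHom) SA) →
      (∀ j ∈ Lam m (PowerSeries.map ((algebraMap F L).comp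
        (MvPolynomial.aeval u : MvPolynomial (Fin q) ℤ →ₐ[ℤ] F).toRingHom) SA), 1 ≤ j → n ≤ j) →
      (n : ℝ) ≤ C * (Real.log H) ^ c' := by
  classical
  set w := PowerSeries.constantCoeff SA * PowerSeries.coeff k0 SA with hw
  set c := w.totalDegree with hc
  set W : ℝ := (∑ s ∈ w.support, |((w.coeff s : ℤ) : ℝ)|) + 1 with hW
  have hW1 : 1 ≤ W := by
    rw [hW]
    have : 0 ≤ ∑ s ∈ w.support, |((w.coeff s : ℤ) : ℝ)| := Finset.sum_nonneg fun _ _ => abs_nonneg _
    linarith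
  have hlW : 0 ≤ Real.log W := Real.log_nonneg hW1
  set C1 : ℝ := 4 + 2 * d * Real.log W + 2 * c * d with hC1
  have hC1' : 4 ≤ C1 := by
    rw [hC1]
    have h1 : 0 ≤ 2 * (d : ℝ) * Real.log W := by positivity
    have h2 : 0 ≤ 2 * (c : ℝ) * d := by positivity
    linarith
  set C2 : ℝ := 390627 * (2 + C1) with hC2
  have hC2' : 1 ≤ C2 := by rw [hC2]; linarith
  refine ⟨16 * m ^ 2 * C2 ^ (6 * m * d) , 6 * m * d, ?_, ?_⟩
  · have hm : (1 : ℝ) ≤ m := by exact_mod_cast h.pos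
    have h1 : (1 : ℝ) ≤ C2 ^ (6 * m * d) := one_le_pow₀ hC2'
    have h2 : (1 : ℝ) ≤ (m : ℝ) ^ 2 := one_le_pow₀ hm
    nlinarith
  intro H hH F _ _ hd u b hb1 hbH hint hsize hne L _ _ _ n hn hnm hmin
  have hH1 : 1 ≤ H := by linarith
  have hlogH : (1 : ℝ) / 2 ≤ Real.log H := by
    have h1 := Real.log_two_gt_d9
    have h2 := Real.log_le_log (by norm_num) hH
    linarith
  set α : 𝓞 F := ⟨(b : F) ^ c * MvPolynomial.aeval u w, isIntegral_aeval u b hint w le_rfl⟩ with hα
  have hbF : (b : F) ≠ 0 := by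
    have : b ≠ 0 := by omega
    exact_mod_cast this
  have hα0 : α ≠ 0 := by
    intro h0
    have h1 : (α : F) = 0 := by rw [h0]; rfl
    exact mul_ne_zero (pow_ne_zero c hbF) hne h1
  set N := Ideal.absNorm (Ideal.span {α}) with hN
  have hN0 : N ≠ 0 := by
    rw [hN, Ne, Ideal.absNorm_eq_zero_iff, Ideal.span_singleton_eq_bot]
    exact hα0
  have hαN : α ∣ ((N : ℤ) : 𝓞 F) := by
    rw [Int.cast_natCast, ← Ideal.mem_span_singleton, hN]
    exact Ideal.absNorm_mem _
  have hNle : (N : ℝ) ≤ (W * H ^ (2 * c)) ^ d := by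
    have h1 : (N : ℝ) ≤ (W * H ^ (2 * c)) ^ (Module.finrank ℚ F) := by
      apply absNorm_le
      intro σ
      have h2 : σ (α : F) = (b : ℂ) ^ c * MvPolynomial.aeval (fun j => σ (u j)) w := by
        show σ ((b : F) ^ c * MvPolynomial.aeval u w) = _
        rw [map_mul, map_pow, map_natCast]
        congr 1
        have h3 := MvPolynomial.map_aeval u σ w
        have h4 : σ.comp (algebraMap ℤ F) = algebraMap ℤ ℂ := Subsingleton.elim _ _
        rw [h3, h4, MvPolynomial.aeval_def]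
        rfl
      rw [h2, norm_mul, norm_pow, Complex.norm_natCast]
      have h3 := norm_aeval_le (fun j => σ (u j)) hH1 (fun j => hsize σ j) w (c := c) le_rfl
      have h4 : (b : ℝ) ^ c ≤ H ^ c := pow_le_pow_left₀ (by positivity) hbH c
      calc (b : ℝ) ^ c * ‖MvPolynomial.aeval (fun j => σ (u j)) w‖
          ≤ H ^ c * ((∑ s ∈ w.support, |((w.coeff s : ℤ) : ℝ)|) * H ^ c) :=
            mul_le_mul h4 h3 (norm_nonneg _) (by positivity)
        _ ≤ H ^ c * (W * H ^ c) := by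
            apply mul_le_mul_of_nonneg_left _ (by positivity)
            apply mul_le_mul_of_nonneg_right _ (by positivity)
            rw [hW]
            linarith
        _ = W * H ^ (2 * c) := by rw [two_mul, pow_add]; ring
    refine h1.trans (pow_le_pow_right₀ ?_ hd)
    have h2 : (1 : ℝ) ≤ H ^ (2 * c) := one_le_pow₀ hH1
    nlinarith
  set M := 2 * b * N with hM
  have hM0 : M ≠ 0 := by
    rw [hM]
    have : b ≠ 0 := by omega
    positivity
  obtain ⟨l1, l2, hp1, hp2, hne12, hd1, hd2, hl1, hl2⟩ := exists_two_primes M hM0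
  have hlogM : Real.log M ≤ C1 * Real.log H := by
    have hbpos : (0 : ℝ) < b := by exact_mod_cast hb1
    have hNpos : (0 : ℝ) < N := by exact_mod_cast Nat.pos_of_ne_zero hN0
    have h1 : Real.log M = Real.log 2 + Real.log b + Real.log N := by
      rw [hM]
      push_cast
      rw [Real.log_mul (by positivity) hNpos.ne', Real.log_mul (by norm_num) hbpos.ne']
    have h2 : Real.log b ≤ Real.log H := Real.log_le_log hbpos hbH
    have h3 : Real.log 2 ≤ Real.log H := Real.log_le_log (by norm_num) hH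
    have h4 : Real.log N ≤ d * (Real.log W + 2 * c * Real.log H) := by
      have h5 := Real.log_le_log hNpos hNle
      rw [Real.log_pow, Real.log_mul (by positivity) (by positivity), Real.log_pow] at h5
      push_cast at h5
      exact h5
    have h5 : (d : ℝ) * Real.log W ≤ 2 * d * Real.log W * Real.log H := by
      have h6 : 0 ≤ (d : ℝ) * Real.log W := by positivity
      nlinarith
    rw [h1, hC1]
    nlinarith
  have hle : ∀ l : ℕ, (l : ℝ) ≤ 390627 * (1 + Real.log M) → (l : ℝ) ≤ C2 * Real.log H := by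
    intro l hl
    rw [hC2]
    nlinarith
  have hpl : ∀ l : ℕ, l.Prime → ¬ l ∣ M → (l : ℝ) ≤ C2 * Real.log H →
      ∃ n1 j : ℕ, 1 ≤ n1 ∧ (n1 : ℝ) ≤ 4 * m * (C2 * Real.log H) ^ (3 * m * d) ∧ n = n1 * l ^ j := by
    intro l hl hlM hlle
    have e1 : l ≠ 2 := by
      rintro rfl
      exact hlM (by rw [hM, mul_assoc]; exact Dvd.intro _ rfl)
    have e2 : ¬ l ∣ b := fun hc => hlM (by
      rw [hM]; exact (hc.mul_left 2).mul_right N)
    have e3 : ¬ (l : ℤ) ∣ (N : ℤ) := fun hc => hlM (by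
      rw [hM]
      exact (by exact_mod_cast hc : l ∣ N).mul_left _)
    obtain ⟨n1, j, h1, h2, h3⟩ := place_bound h hk0 u b hint (α := α) rfl hαN hl e1 e2 e3 hn hnm hmin
    refine ⟨n1, j, h1, ?_, h3⟩
    have h4 : n1 ≤ 4 * m * l ^ (3 * m * d) := by
      refine h2.trans ?_
      have h5 : (l ^ (Module.finrank ℚ F)) ^ (3 * m) ≤ l ^ (3 * m * d) := by
        rw [← pow_mul]
        apply Nat.pow_le_pow_right hl.pos
        calc Module.finrank ℚ F * (3 * m) ≤ d * (3 * m) := Nat.mul_le_mul_right _ hd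
          _ = 3 * m * d := by ring
      have h6 : 1 ≤ l ^ (3 * m * d) := Nat.one_le_pow _ _ hl.pos
      calc 2 * (m * ((l ^ (Module.finrank ℚ F)) ^ (3 * m) + 1))
          ≤ 2 * (m * (l ^ (3 * m * d) + l ^ (3 * m * d))) := by gcongr
        _ = 4 * m * l ^ (3 * m * d) := by ring
    calc (n1 : ℝ) ≤ ((4 * m * l ^ (3 * m * d) : ℕ) : ℝ) := by exact_mod_cast h4
      _ = 4 * m * (l : ℝ) ^ (3 * m * d) := by push_cast; ring
      _ ≤ 4 * m * (C2 * Real.log H) ^ (3 * m * d) := by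
        apply mul_le_mul_of_nonneg_left _ (by positivity)
        exact pow_le_pow_left₀ (by positivity) hlle _
  obtain ⟨n1, j1, h11, h12, h13⟩ := hpl l1 hp1 hd1 (hle l1 hl1)
  obtain ⟨n2, j2, h21, h22, h23⟩ := hpl l2 hp2 hd2 (hle l2 hl2)
  have hnle : n ≤ n1 * n2 := by
    have h1 : l1 ^ j1 ∣ n2 * l2 ^ j2 := by
      rw [← h23, h13]
      exact Dvd.intro_left _ rfl
    have h2 : Nat.Coprime (l1 ^ j1) (l2 ^ j2) :=
      Nat.Coprime.pow _ _ ((Nat.coprime_primes hp1 hp2).2 hne12)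
    have h3 : l1 ^ j1 ∣ n2 := h2.dvd_of_dvd_mul_right h1
    calc n = n1 * l1 ^ j1 := h13
      _ ≤ n1 * n2 := Nat.mul_le_mul_left _ (Nat.le_of_dvd h21 h3)
  have hpow : (0 : ℝ) ≤ 4 * m * (C2 * Real.log H) ^ (3 * m * d) := by
    have : 0 ≤ C2 * Real.log H := by
      apply mul_nonneg <;> linarith
    positivity
  calc (n : ℝ) ≤ ((n1 * n2 : ℕ) : ℝ) := by exact_mod_cast hnle
    _ = (n1 : ℝ) * n2 := by push_cast; ring
    _ ≤ (4 * m * (C2 * Real.log H) ^ (3 * m * d)) * (4 * m * (C2 * Real.log H) ^ (3 * m * d)) :=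
        mul_le_mul h12 h22 (by positivity) hpow
    _ = 16 * m ^ 2 * C2 ^ (6 * m * d) * (Real.log H) ^ (6 * m * d) := by
        rw [mul_pow, show 6 * m * d = 3 * m * d + 3 * m * d by ring, pow_add, pow_add]
        ring

end Pool.Agent.X295.Pe
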