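import Mathlib
import Pool.Agent.X295.PeF

/-!
# The hypersurface containing the members of a family with a unit
-/

set_option autoImplicit false

namespace Pool.Agent.X295.Pe

open Polynomial NumberField

/-- an injective matrix has a nonsingular maximal square submatrix -/
theorem exists_minor {K : Type*} [Field K] {p n : ℕ} (M : Matrix (Fin p) (Fin n) K)
    (hM : ∀ v, M.mulVec v = 0 → v = 0) : ∃ r : Fin n → Fin p, (M.submatrix r id).det ≠ 0 := by
  classical
  have hrank : M.rank = n := by
    rw [Matrix.rank, LinearMap.finrank_range_of_inj]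
    · exact Module.finrank_fin_fun K
    · rw [← LinearMap.ker_eq_bot, LinearMap.ker_eq_bot']
      intro v hv
      exact hM v hv
  have h1 := Submodule.exists_fun_fin_finrank_span_eq K (Set.range M.row)
  rw [← Matrix.rank_eq_finrank_span_row, hrank] at h1
  obtain ⟨f, hf, _, hli⟩ := h1
  choose r hr using hf
  refine ⟨r, ?_⟩
  have h2 : (M.submatrix r id).row = f := by
    funext i
    rw [← hr i]
    rfl
  have h3 : IsUnit (M.submatrix r id) := by
    rw [← Matrix.linearIndependent_rows_iff_isUnit, h2]
    exact hli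
  exact ((Matrix.isUnit_iff_isUnit_det _).1 h3).ne_zero

/-- the matrix of the coefficients of `b S` between the degrees `e` and `2 e` -/
noncomputable def mat {R : Type*} [CommRing R] (m : ℕ) (S : PowerSeries R) (e : ℕ) :
    Matrix (Fin (e - 1)) (Fin (e - m + 1)) R :=
  fun i j => PowerSeries.coeff (e + 1 + i - j) S

theorem mat_map {R A : Type*} [CommRing R] [CommRing A] (φ : R →+* A) (m : ℕ) (S : PowerSeries R)
    (e : ℕ) : mat m (PowerSeries.map φ S) e = (mat m S e).map φ := by
  ext i j
  rw [Matrix.map_apply, mat, mat, PowerSeries.coeff_map]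

section field

variable {k : Type*} [Field k] {m : ℕ} {D : k[X]} {S : PowerSeries k}

theorem coeff_bS (S : PowerSeries k) {e : ℕ} (hme : m ≤ e) (b : k[X])
    (hb : ∀ i, e < i + m → b.coeff i = 0) (l : ℕ) (hl : e ≤ l) :
    PowerSeries.coeff l ((b : PowerSeries k) * S) =
      ∑ j : Fin (e - m + 1), PowerSeries.coeff (l - j) S * b.coeff j := by
  rw [PowerSeries.coeff_mul, Finset.Nat.sum_antidiagonal_eq_sum_range_succ
    (fun i j => PowerSeries.coeff i (b : PowerSeries k) * PowerSeries.coeff j S)]
  rw [Fin.sum_univ_eq_sum_range (fun j => PowerSeries.coeff (l - j) S * b.coeff j) (e - m + 1)]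
  symm
  have h1 : Finset.range (e - m + 1) ⊆ Finset.range l.succ := by
    intro x hx
    rw [Finset.mem_range] at hx ⊢
    omega
  rw [Finset.sum_congr rfl (fun j _ => mul_comm (PowerSeries.coeff (l - j) S) (b.coeff j))]
  rw [Finset.sum_subset h1]
  · refine Finset.sum_congr rfl fun j _ => ?_
    rw [Polynomial.coeff_coe]
  · intro j _ hj
    rw [Finset.mem_range] at hj
    rw [hb j (by omega), zero_mul]

theorem ker_of_mem {e : ℕ} (he : 1 ≤ e) (h1 : e ∈ Lam m S) :
    ∃ v, v ≠ 0 ∧ (mat m S e).mulVec v = 0 := by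
  obtain ⟨a, b, hab⟩ := h1
  obtain ⟨hb0, hme⟩ := hab.ge he
  refine ⟨fun j => b.coeff j, ?_, ?_⟩
  · intro h0
    apply hb0
    ext i
    rw [coeff_zero]
    by_cases hi : i < e - m + 1
    · exact congrFun h0 ⟨i, hi⟩
    · exact hab.db i (by omega)
  · funext i
    have h2 := coeff_bS (m := m) S hme b hab.db (e + 1 + i) (by omega)
    have h3 := PowerSeries.X_pow_dvd_iff.1 hab.dvd (e + 1 + i) (by omega)
    rw [map_sub, Polynomial.coeff_coe, hab.da _ (by omega), zero_sub, neg_eq_zero, h2] at h3
    exact h3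

theorem mem_of_ker {e : ℕ} (hme : m ≤ e) {v : Fin (e - m + 1) → k} (hv : v ≠ 0)
    (h1 : (mat m S e).mulVec v = 0) : e ∈ Lam m S := by
  classical
  set b : k[X] := ∑ j : Fin (e - m + 1), C (v j) * X ^ (j : ℕ) with hb
  have hbc : ∀ i, b.coeff i = if h : i < e - m + 1 then v ⟨i, h⟩ else 0 := by
    intro i
    rw [hb, finsetSum_coeff]
    simp only [coeff_C_mul, coeff_X_pow]
    by_cases hi : i < e - m + 1
    · rw [dif_pos hi, Finset.sum_eq_single ⟨i, hi⟩]
      · rw [if_pos rfl, mul_one]
      · intro j _ hj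
        rw [if_neg, mul_zero]
        intro h
        exact hj (Fin.ext h.symm)
      · intro h
        exact absurd (Finset.mem_univ _) h
    · rw [dif_neg hi]
      refine Finset.sum_eq_zero fun j _ => ?_
      rw [if_neg, mul_zero]
      omega
  have hdb : ∀ i, e < i + m → b.coeff i = 0 := by
    intro i hi
    rw [hbc, dif_neg (by omega)]
  set a : k[X] := PowerSeries.trunc (e + 1) ((b : PowerSeries k) * S) with ha
  have hac : ∀ i, a.coeff i = if i < e + 1 then PowerSeries.coeff i ((b : PowerSeries k) * S)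
      else 0 := fun i => PowerSeries.coeff_trunc _ _ _
  refine ⟨a, b, ?_, hdb, Or.inr ?_, ?_⟩
  · intro i hi
    rw [hac, if_neg (by omega)]
  · intro h0
    apply hv
    funext j
    have h2 := hbc j
    rw [h0, coeff_zero, dif_pos j.2] at h2
    exact h2.symm
  · rw [PowerSeries.X_pow_dvd_iff]
    intro i hi
    rw [map_sub, Polynomial.coeff_coe, hac]
    by_cases hi2 : i < e + 1
    · rw [if_pos hi2, sub_self]
    · rw [if_neg hi2, zero_sub, neg_eq_zero, coeff_bS (m := m) S hme b hdb i (by omega)]
      have h2 := congrFun h1 ⟨i - (e + 1), by omega⟩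
      rw [Pi.zero_apply] at h2
      rw [← h2, Matrix.mulVec, dotProduct]
      refine Finset.sum_congr rfl fun j _ => ?_
      rw [hbc, dif_pos j.2, mat]
      congr 3
      show i - (j : ℕ) = e + 1 + (i - (e + 1)) - j
      omega

end field

theorem totalDegree_det_le {q n B : ℕ} (N : Matrix (Fin n) (Fin n) (MvPolynomial (Fin q) ℤ))
    (hN : ∀ i j, (N i j).totalDegree ≤ B) : N.det.totalDegree ≤ n * B := by
  rw [Matrix.det_apply]
  apply MvPolynomial.totalDegree_finsetSum_le
  intro σ _
  refine (MvPolynomial.totalDegree_smul_le _ _).trans ?_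
  refine (MvPolynomial.totalDegree_finsetProd _ _).trans ?_
  refine (Finset.sum_le_sum fun i _ => hN (σ i) i).trans ?_
  rw [Finset.sum_const, Finset.card_univ, Fintype.card_fin, smul_eq_mul]

end Pool.Agent.X295.Pe
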