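import Mathlib
import Pool.Agent.X295.PeG

/-!
# Members of a family with a unit lie on a hypersurface of small degree
-/

set_option autoImplicit false

namespace Pool.Agent.X295.Pe

open Polynomial NumberField

/-- the equation satisfied by the members with a unit of degree `e` -/
theorem exists_eqn {q m : ℕ} {SA : PowerSeries (MvPolynomial (Fin q) ℤ)} {δ : ℕ}
    (hδ : ∀ k, (PowerSeries.coeff k SA).totalDegree ≤ δ * (k + 1)) {K : Type*} [Field K]
    (φ0 : MvPolynomial (Fin q) ℤ →+* K) (hno : ∀ e, 1 ≤ e → e ∉ Lam m (PowerSeries.map φ0 SA))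
    (e : ℕ) : ∃ Ψ : MvPolynomial (Fin q) ℤ, φ0 Ψ ≠ 0 ∧ Ψ.totalDegree ≤ (e + 1) * (δ * (2 * e + 2)) ∧
      ∀ (k : Type) [Field k] (φ : MvPolynomial (Fin q) ℤ →+* k), 1 ≤ e →
        e ∈ Lam m (PowerSeries.map φ SA) → φ Ψ = 0 := by
  classical
  by_cases hem : 1 ≤ e ∧ m ≤ e
  · obtain ⟨he, hme⟩ := hem
    obtain ⟨r, hr⟩ := exists_minor (mat m (PowerSeries.map φ0 SA) e) (by
      intro v hv
      by_contra hv0
      exact hno e he (mem_of_ker hme hv0 hv))
    refine ⟨((mat m SA e).submatrix r id).det, ?_, ?_, ?_⟩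
    · intro h0
      apply hr
      rw [mat_map, Matrix.submatrix_map, ← RingHom.mapMatrix_apply, ← RingHom.map_det, h0]
    · refine (totalDegree_det_le (B := δ * (2 * e + 2)) _ ?_).trans ?_
      · intro i j
        show (PowerSeries.coeff (e + 1 + (r i : ℕ) - (j : ℕ)) SA).totalDegree ≤ _
        refine (hδ _).trans (Nat.mul_le_mul_left _ ?_)
        have := (r i).2
        omega
      · exact Nat.mul_le_mul_right _ (by omega)
    · intro k _ φ _ hmem
      obtain ⟨v, hv0, hv⟩ := ker_of_mem he hmem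
      rw [RingHom.map_det, RingHom.mapMatrix_apply, ← Matrix.submatrix_map, ← mat_map]
      apply Matrix.exists_mulVec_eq_zero_iff.1
      refine ⟨v, hv0, ?_⟩
      funext i
      exact congrFun hv (r i)
  · refine ⟨1, by rw [map_one]; exact one_ne_zero, ?_, ?_⟩
    · rw [MvPolynomial.totalDegree_one]
      exact Nat.zero_le _
    · intro k _ φ he hmem
      exfalso
      apply hem
      obtain ⟨a, b, hab⟩ := hmem
      exact ⟨he, (hab.ge he).2⟩

theorem core {q m : ℕ} {DA : (MvPolynomial (Fin q) ℤ)[X]}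
    {SA : PowerSeries (MvPolynomial (Fin q) ℤ)} (h : RootR m DA SA) {δ : ℕ}
    (hδ : ∀ k, (PowerSeries.coeff k SA).totalDegree ≤ δ * (k + 1)) {K : Type*} [Field K]
    (φ0 : MvPolynomial (Fin q) ℤ →+* K) (hR0 : Root m (DA.map φ0) (PowerSeries.map φ0 SA))
    (hno : ∀ e, 1 ≤ e → e ∉ Lam m (PowerSeries.map φ0 SA)) (d : ℕ) :
    ∃ (C : ℝ) (c : ℕ), 0 < C ∧ ∀ (H : ℝ), 2 ≤ H → ∃ Φ : MvPolynomial (Fin q) ℤ, φ0 Φ ≠ 0 ∧
      (Φ.totalDegree : ℝ) ≤ C * (Real.log H) ^ c ∧
      ∀ (F : Type) [Field F] [NumberField F], Module.finrank ℚ F ≤ d →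
      ∀ (u : Fin q → F) (b : ℕ), 1 ≤ b → (b : ℝ) ≤ H → (∀ j, IsIntegral ℤ ((b : F) * u j)) →
      (∀ (σ : F →+* ℂ) j, ‖σ (u j)‖ ≤ H) →
      ∀ (L : Type) [Field L] [CharZero L] [Algebra F L] (e : ℕ), 1 ≤ e →
      e ∈ Lam m (PowerSeries.map ((algebraMap F L).comp
        (MvPolynomial.aeval u : MvPolynomial (Fin q) ℤ →ₐ[ℤ] F).toRingHom) SA) →
      MvPolynomial.aeval u Φ = 0 := by
  classical
  obtain ⟨k0, hk0, hk0ne⟩ := hR0.big
  obtain ⟨C1, c1, hC1, hord⟩ := order_bound h hk0 d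
  choose Ψ hΨ0 hΨd hΨv using exists_eqn hδ φ0 hno
  set w := PowerSeries.constantCoeff SA * PowerSeries.coeff k0 SA with hw
  have hw0 : φ0 w ≠ 0 := by
    rw [hw, map_mul]
    refine mul_ne_zero ?_ ?_
    · intro h0
      apply hR0.c0
      rw [constantCoeff_map, h0]
    · intro h0
      apply hk0ne
      rw [PowerSeries.coeff_map, h0]
  set C : ℝ := (w.totalDegree + 16 * δ + 1) * C1 ^ 3 * 2 ^ (3 * c1) with hC
  have hCpos : 0 < C := by positivity
  refine ⟨C, 3 * c1, hCpos, ?_⟩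
  intro H hH
  have hlogH : (1 : ℝ) / 2 ≤ Real.log H := by
    have h1 := Real.log_two_gt_d9
    have h2 := Real.log_le_log (by norm_num) hH
    linarith
  set N0 := ⌊C1 * Real.log H ^ c1⌋₊ with hN0
  have hY0 : 0 ≤ C1 * Real.log H ^ c1 := by positivity
  refine ⟨w * ∏ e ∈ Finset.range (N0 + 1), Ψ e, ?_, ?_, ?_⟩
  · rw [map_mul, map_prod]
    exact mul_ne_zero hw0 (Finset.prod_ne_zero_iff.2 fun e _ => hΨ0 e)
  · have h1 : (w * ∏ e ∈ Finset.range (N0 + 1), Ψ e).totalDegree ≤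
        w.totalDegree + (N0 + 1) * ((N0 + 1) * (δ * (2 * (N0 + 1)))) := by
      refine (MvPolynomial.totalDegree_mul _ _).trans (Nat.add_le_add_left ?_ _)
      refine (MvPolynomial.totalDegree_finsetProd _ _).trans ?_
      calc ∑ e ∈ Finset.range (N0 + 1), (Ψ e).totalDegree
          ≤ ∑ _e ∈ Finset.range (N0 + 1), (N0 + 1) * (δ * (2 * (N0 + 1))) := by
            refine Finset.sum_le_sum fun e he => (hΨd e).trans ?_
            rw [Finset.mem_range] at he
            have h2 : e + 1 ≤ N0 + 1 := he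
            have h3 : 2 * e + 2 ≤ 2 * (N0 + 1) := by omega
            gcongr
        _ = (N0 + 1) * ((N0 + 1) * (δ * (2 * (N0 + 1)))) := by
            rw [Finset.sum_const, Finset.card_range, smul_eq_mul]
    set T : ℝ := C1 * (2 * Real.log H) ^ c1 with hT
    have hT1 : 1 ≤ T := by
      rw [hT]
      have h2 : (1 : ℝ) ≤ (2 * Real.log H) ^ c1 := one_le_pow₀ (by linarith)
      nlinarith
    have hNT : (N0 : ℝ) ≤ T := by
      refine (Nat.floor_le hY0).trans ?_
      rw [hT]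
      apply mul_le_mul_of_nonneg_left _ (by linarith)
      exact pow_le_pow_left₀ (by linarith) (by linarith) _
    have hN1T : (N0 : ℝ) + 1 ≤ 2 * T := by linarith
    calc ((w * ∏ e ∈ Finset.range (N0 + 1), Ψ e).totalDegree : ℝ)
        ≤ ((w.totalDegree + (N0 + 1) * ((N0 + 1) * (δ * (2 * (N0 + 1)))) : ℕ) : ℝ) := by
          exact_mod_cast h1
      _ = w.totalDegree + 2 * δ * ((N0 : ℝ) + 1) ^ 3 := by push_cast; ring
      _ ≤ w.totalDegree * T ^ 3 + 2 * δ * (2 * T) ^ 3 := by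
          have h2 : (1 : ℝ) ≤ T ^ 3 := one_le_pow₀ hT1
          have h3 : (w.totalDegree : ℝ) ≤ w.totalDegree * T ^ 3 := by
            have : (0 : ℝ) ≤ w.totalDegree := Nat.cast_nonneg _
            nlinarith
          have h4 : 2 * (δ : ℝ) * ((N0 : ℝ) + 1) ^ 3 ≤ 2 * δ * (2 * T) ^ 3 := by
            apply mul_le_mul_of_nonneg_left _ (by positivity)
            exact pow_le_pow_left₀ (by positivity) hN1T 3
          linarith
      _ = (w.totalDegree + 16 * δ) * T ^ 3 := by ring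
      _ ≤ (w.totalDegree + 16 * δ + 1) * T ^ 3 := by
          apply mul_le_mul_of_nonneg_right _ (by positivity)
          linarith
      _ = C * Real.log H ^ (3 * c1) := by
          rw [hC, hT]
          ring
  · intro F _ _ hd u b hb1 hbH hint hsize L _ _ _ e he hmem
    rw [map_mul, map_prod]
    by_cases hwu : MvPolynomial.aeval u w = 0
    · rw [hwu, zero_mul]
    have hex : ∃ j, j ∈ Lam m (PowerSeries.map ((algebraMap F L).comp
        (MvPolynomial.aeval u : MvPolynomial (Fin q) ℤ →ₐ[ℤ] F).toRingHom) SA) ∧ 1 ≤ j :=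
      ⟨e, hmem, he⟩
    obtain ⟨hnm, hn1⟩ := Nat.find_spec hex
    set n := Nat.find hex with hn
    have hmin : ∀ j ∈ Lam m (PowerSeries.map ((algebraMap F L).comp
        (MvPolynomial.aeval u : MvPolynomial (Fin q) ℤ →ₐ[ℤ] F).toRingHom) SA), 1 ≤ j → n ≤ j :=
      fun j hj hj1 => Nat.find_min' hex ⟨hj, hj1⟩
    have hle := hord H hH F hd u b hb1 hbH hint hsize hwu L n hn1 hnm hmin
    have hnN : n ∈ Finset.range (N0 + 1) := by
      rw [Finset.mem_range, Nat.lt_succ_iff]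
      exact Nat.le_floor hle
    have h1 := hΨv n L _ hn1 hnm
    have h2 : MvPolynomial.aeval u (Ψ n) = 0 := by
      have h3 : (algebraMap F L) (MvPolynomial.aeval u (Ψ n)) = 0 := h1
      exact (map_eq_zero_iff _ (algebraMap F L).injective).1 h3
    rw [Finset.prod_eq_zero hnN h2, mul_zero]

end Pool.Agent.X295.Pe
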