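import Mathlib
import Pool.Agent.X295.PeH

/-!
# Square roots of families of polynomials and the Pell equation
-/

set_option autoImplicit false

namespace Pool.Agent.X295.Pe

open Polynomial NumberField

/-- the coefficients of the square root, up to scaling -/
noncomputable def tt {R : Type*} [CommRing R] (s : R) (g : ℕ → R) : ℕ → R
  | 0 => 0
  | (k + 1) => (2 * s) ^ (2 * k) * g (k + 1) -
      ∑ i : Fin k, tt s g ((i : ℕ) + 1) * tt s g (k - (i : ℕ))
termination_by n => n
decreasing_by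
  · have := i.2; omega
  · have := i.2; omega

/-- the square root -/
noncomputable def rt {R : Type*} [CommRing R] (s : R) (g : ℕ → R) : PowerSeries R :=
  PowerSeries.mk fun k => if k = 0 then s else 2 * s * tt s g k

theorem rt_zero {R : Type*} [CommRing R] (s : R) (g : ℕ → R) :
    PowerSeries.coeff 0 (rt s g) = s := by
  rw [rt, PowerSeries.coeff_mk, if_pos rfl]

theorem rt_succ {R : Type*} [CommRing R] (s : R) (g : ℕ → R) (k : ℕ) :
    PowerSeries.coeff (k + 1) (rt s g) = 2 * s * tt s g (k + 1) := by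
  rw [rt, PowerSeries.coeff_mk, if_neg (Nat.succ_ne_zero k)]

theorem rt_sq {R : Type*} [CommRing R] (s : R) (g : ℕ → R) (h0 : g 0 = s * s) :
    rt s g * rt s g = PowerSeries.mk fun k => (2 * s) ^ (2 * k) * g k := by
  ext n
  rw [PowerSeries.coeff_mul, PowerSeries.coeff_mk, Finset.Nat.sum_antidiagonal_eq_sum_range_succ
    (fun i j => PowerSeries.coeff i (rt s g) * PowerSeries.coeff j (rt s g))]
  cases n with
  | zero =>
    rw [Finset.sum_range_one, Nat.sub_zero, rt_zero, h0, mul_zero, pow_zero, one_mul]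
  | succ k =>
    rw [Finset.sum_range_succ, Nat.sub_self, rt_zero, rt_succ, Finset.sum_range_succ',
      Nat.sub_zero, rt_zero, rt_succ]
    have h1 : ∑ i ∈ Finset.range k, PowerSeries.coeff (i + 1) (rt s g) *
        PowerSeries.coeff (k + 1 - (i + 1)) (rt s g) =
        (2 * s) ^ 2 * ∑ i : Fin k, tt s g ((i : ℕ) + 1) * tt s g (k - (i : ℕ)) := by
      rw [Fin.sum_univ_eq_sum_range (fun i => tt s g (i + 1) * tt s g (k - i)) k, Finset.mul_sum]
      refine Finset.sum_congr rfl fun i hi => ?_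
      rw [Finset.mem_range] at hi
      obtain ⟨j, hj⟩ : ∃ j, k - i = j + 1 := ⟨k - i - 1, by omega⟩
      rw [show k + 1 - (i + 1) = k - i by omega, hj, rt_succ, rt_succ]
      ring
    have h2 : tt s g (k + 1) = (2 * s) ^ (2 * k) * g (k + 1) -
        ∑ i : Fin k, tt s g ((i : ℕ) + 1) * tt s g (k - (i : ℕ)) := by
      rw [tt]
    rw [h1]
    have h3 : ∑ i : Fin k, tt s g ((i : ℕ) + 1) * tt s g (k - (i : ℕ)) =
        (2 * s) ^ (2 * k) * g (k + 1) - tt s g (k + 1) := by rw [h2]; ring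
    rw [h3]
    ring

theorem totalDegree_tt {q : ℕ} {s : MvPolynomial (Fin q) ℤ} {g : ℕ → MvPolynomial (Fin q) ℤ}
    {a : ℕ} (hs : s.totalDegree ≤ a) (hg : ∀ k, (g k).totalDegree ≤ 2 * a) (n : ℕ) :
    (tt s g n).totalDegree ≤ 2 * a * n := by
  induction n using Nat.strong_induction_on with
  | _ n ih =>
    cases n with
    | zero =>
      rw [tt, MvPolynomial.totalDegree_zero]
      exact Nat.zero_le _
    | succ k =>
      rw [tt]
      have h2s : (2 * s).totalDegree ≤ a := by
        refine (MvPolynomial.totalDegree_mul _ _).trans ?_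
        have h1 : (2 : MvPolynomial (Fin q) ℤ).totalDegree = 0 := by
          rw [show (2 : MvPolynomial (Fin q) ℤ) = MvPolynomial.C 2 from rfl,
            MvPolynomial.totalDegree_C]
        omega
      refine (MvPolynomial.totalDegree_sub _ _).trans (max_le ?_ ?_)
      · refine (MvPolynomial.totalDegree_mul _ _).trans ?_
        have h1 := MvPolynomial.totalDegree_pow (2 * s) (2 * k)
        have h2 : 2 * k * (2 * s).totalDegree ≤ 2 * k * a := Nat.mul_le_mul_left _ h2s
        have h3 := hg (k + 1)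
        calc ((2 * s) ^ (2 * k)).totalDegree + (g (k + 1)).totalDegree ≤ 2 * k * a + 2 * a := by
              omega
          _ = 2 * a * (k + 1) := by ring
      · apply MvPolynomial.totalDegree_finsetSum_le
        intro i _
        have hi := i.2
        refine (MvPolynomial.totalDegree_mul _ _).trans ?_
        have h1 := ih ((i : ℕ) + 1) (by omega)
        have h2 := ih (k - (i : ℕ)) (by omega)
        calc (tt s g ((i : ℕ) + 1)).totalDegree + (tt s g (k - (i : ℕ))).totalDegree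
            ≤ 2 * a * ((i : ℕ) + 1) + 2 * a * (k - (i : ℕ)) := by omega
          _ = 2 * a * (((i : ℕ) + 1) + (k - (i : ℕ))) := by ring
          _ = 2 * a * (k + 1) := by congr 1; omega

theorem totalDegree_rt {q : ℕ} {s : MvPolynomial (Fin q) ℤ} {g : ℕ → MvPolynomial (Fin q) ℤ}
    {a : ℕ} (hs : s.totalDegree ≤ a) (hg : ∀ k, (g k).totalDegree ≤ 2 * a) (n : ℕ) :
    (PowerSeries.coeff n (rt s g)).totalDegree ≤ 2 * a * (n + 1) := by
  cases n with
  | zero =>
    rw [rt_zero]
    omega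
  | succ k =>
    rw [rt_succ]
    have h2s : (2 * s).totalDegree ≤ a := by
      refine (MvPolynomial.totalDegree_mul _ _).trans ?_
      have h1 : (2 : MvPolynomial (Fin q) ℤ).totalDegree = 0 := by
        rw [show (2 : MvPolynomial (Fin q) ℤ) = MvPolynomial.C 2 from rfl,
          MvPolynomial.totalDegree_C]
      omega
    refine (MvPolynomial.totalDegree_mul _ _).trans ?_
    have h1 := totalDegree_tt hs hg (k + 1)
    calc (2 * s).totalDegree + (tt s g (k + 1)).totalDegree ≤ a + 2 * a * (k + 1) := by omega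
      _ ≤ 2 * a * (k + 1 + 1) := by nlinarith

/-- the scaled family -/
noncomputable def sc {R : Type*} [CommRing R] (m : ℕ) (s : R) (D : R[X]) : R[X] :=
  ∑ k ∈ Finset.range (2 * m + 1), C ((2 * s) ^ (2 * k) * (s * D.coeff (2 * m - k))) * X ^ k

theorem sc_coeff {R : Type*} [CommRing R] (m : ℕ) (s : R) (D : R[X]) (i : ℕ) :
    (sc m s D).coeff i =
      if i < 2 * m + 1 then (2 * s) ^ (2 * i) * (s * D.coeff (2 * m - i)) else 0 := by
  rw [sc, finsetSum_coeff]
  simp only [coeff_C_mul, coeff_X_pow]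
  by_cases hi : i < 2 * m + 1
  · rw [if_pos hi, Finset.sum_eq_single i]
    · rw [if_pos rfl, mul_one]
    · intro j _ hj
      rw [if_neg (Ne.symm hj), mul_zero]
    · intro h
      exact absurd (Finset.mem_range.2 hi) h
  · rw [if_neg hi]
    refine Finset.sum_eq_zero fun j hj => ?_
    rw [Finset.mem_range] at hj
    rw [if_neg (by omega), mul_zero]

theorem sc_map {R A : Type*} [CommRing R] [CommRing A] (φ : R →+* A) (m : ℕ) (s : R) (D : R[X]) :
    (sc m s D).map φ = sc m (φ s) (D.map φ) := by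
  ext i
  rw [coeff_map, sc_coeff, sc_coeff]
  by_cases hi : i < 2 * m + 1
  · rw [if_pos hi, if_pos hi, map_mul, map_mul, map_pow, map_mul, map_ofNat, coeff_map]
  · rw [if_neg hi, if_neg hi, map_zero]

/-- the coefficients whose generating function is a square -/
noncomputable def gg {R : Type*} [CommRing R] (m : ℕ) (s : R) (D : R[X]) : ℕ → R := fun k =>
  if k < 2 * m + 1 then s * D.coeff (2 * m - k) else 0

theorem rootR_sc {R : Type*} [CommRing R] {m : ℕ} (hm : 1 ≤ m) (D : R[X]) :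
    RootR m (sc m (D.coeff (2 * m)) D) (rt (D.coeff (2 * m)) (gg m (D.coeff (2 * m)) D)) where
  sq := by
    rw [rt_sq]
    · ext i
      rw [Polynomial.coeff_coe, PowerSeries.coeff_mk, sc_coeff, gg]
      by_cases hi : i < 2 * m + 1
      · rw [if_pos hi, if_pos hi]
      · rw [if_neg hi, if_neg hi, mul_zero]
    · rw [gg, if_pos (by omega), Nat.sub_zero]
  deg i hi := by rw [sc_coeff, if_neg (by omega)]
  pos := hm

section field

variable {k : Type*} [Field k] {m : ℕ}

theorem comp_scale {D : k[X]} (hD : D.natDegree ≤ 2 * m) {s : k} :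
    (reflect (2 * m) (sc m s D)).comp (C (4 * s ^ 2) * X) = C (s * (4 * s ^ 2) ^ (2 * m)) * D := by
  ext i
  rw [comp_C_mul_X_coeff, coeff_reflect, coeff_C_mul, sc_coeff]
  by_cases hi : i ≤ 2 * m
  · rw [revAt_le hi, if_pos (by omega), show 2 * m - (2 * m - i) = i by omega,
      show (2 * s) ^ (2 * (2 * m - i)) = (4 * s ^ 2) ^ (2 * m - i) by rw [pow_mul]; congr 1; ring]
    have h1 : (4 * s ^ 2) ^ (2 * m) = (4 * s ^ 2) ^ (2 * m - i) * (4 * s ^ 2) ^ i := by
      rw [← pow_add, Nat.sub_add_cancel hi]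
    rw [h1]
    ring
  · rw [revAt_eq_self_of_lt (by omega), if_neg (by omega), zero_mul,
      coeff_eq_zero_of_natDegree_lt (by omega), mul_zero]

theorem comp_ne_zero {c : k} (hc : c ≠ 0) {p : k[X]} (hp : p ≠ 0) : p.comp (C c * X) ≠ 0 := by
  intro h0
  apply hp
  ext i
  have h1 := congrArg (fun z => Polynomial.coeff z i) h0
  simp only [comp_C_mul_X_coeff, coeff_zero] at h1
  rw [coeff_zero]
  exact (mul_eq_zero.1 h1).resolve_right (pow_ne_zero _ hc)

theorem comp_comp_scale {c : k} (hc : c ≠ 0) (p : k[X]) :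
    (p.comp (C c * X)).comp (C c⁻¹ * X) = p := by
  ext i
  rw [comp_C_mul_X_coeff, comp_C_mul_X_coeff, mul_assoc, ← mul_pow, mul_inv_cancel₀ hc, one_pow,
    mul_one]

/-- the Pell equation is solvable -/
def Solvable (D : k[X]) : Prop := ∃ A B : k[X], B ≠ 0 ∧ A ^ 2 - D * B ^ 2 = 1

theorem solvable_comp {D : k[X]} {c : k} (hc : c ≠ 0) (h : Solvable D) :
    Solvable (D.comp (C c * X)) := by
  obtain ⟨A, B, hB, hAB⟩ := h
  refine ⟨A.comp (C c * X), B.comp (C c * X), comp_ne_zero hc hB, ?_⟩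
  have h1 := congrArg (fun p => Polynomial.comp p (C c * X)) hAB
  simp only [sub_comp, mul_comp, pow_comp, one_comp] at h1
  exact h1

theorem solvable_smul {D : k[X]} {c : k} (hc : c ≠ 0) (h : Solvable (C (c ^ 2) * D)) :
    Solvable D := by
  obtain ⟨A, B, hB, hAB⟩ := h
  refine ⟨A, C c * B, mul_ne_zero (C_ne_zero.2 hc) hB, ?_⟩
  rw [← hAB, C_pow]
  ring

theorem solvable_smul' {D : k[X]} {c : k} (hc : c ≠ 0) (h : Solvable D) :
    Solvable (C (c ^ 2) * D) := by
  apply solvable_smul (c := c⁻¹) (inv_ne_zero hc)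
  rw [← mul_assoc, ← C_mul, ← mul_pow, inv_mul_cancel₀ hc, one_pow, C_1, one_mul]
  exact h

variable [IsAlgClosed k]

theorem exists_const {s : k} (hs : s ≠ 0) (h2 : (2 : k) ≠ 0) (m : ℕ) : ∃ c : k, c ≠ 0 ∧
    c ^ 2 = s * (4 * s ^ 2) ^ (2 * m) := by
  obtain ⟨r, hr⟩ := IsAlgClosed.exists_pow_nat_eq s (n := 2) (by norm_num)
  have hr0 : r ≠ 0 := by
    rintro rfl
    apply hs
    rw [← hr]
    norm_num
  have h4 : (4 : k) ≠ 0 := by
    rw [show (4 : k) = 2 * 2 by norm_num]
    exact mul_ne_zero h2 h2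
  refine ⟨r * (4 * s ^ 2) ^ m, mul_ne_zero hr0 (pow_ne_zero _ (mul_ne_zero h4
    (pow_ne_zero _ hs))), ?_⟩
  rw [mul_pow, hr, ← pow_mul, mul_comm m 2]

theorem solvable_iff {D : k[X]} (hD : D.natDegree ≤ 2 * m) {s : k} (hs : s ≠ 0)
    (h2 : (2 : k) ≠ 0) : Solvable D ↔ Solvable (reflect (2 * m) (sc m s D)) := by
  obtain ⟨c, hc, hc2⟩ := exists_const hs h2 m
  have h4 : (4 : k) * s ^ 2 ≠ 0 := by
    rw [show (4 : k) = 2 * 2 by norm_num]
    exact mul_ne_zero (mul_ne_zero h2 h2) (pow_ne_zero _ hs)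
  have h1 := comp_scale hD (s := s)
  rw [← hc2] at h1
  constructor
  · intro h
    have h3 := solvable_smul' hc h
    rw [← h1] at h3
    have h5 := solvable_comp (inv_ne_zero h4) h3
    rwa [comp_comp_scale h4] at h5
  · intro h
    have h3 := solvable_comp h4 h
    rw [h1] at h3
    exact solvable_smul hc h3

theorem isSquare_of {D : k[X]} (hD : D.natDegree ≤ 2 * m) {s : k} (hs : s ≠ 0)
    (h2 : (2 : k) ≠ 0) (h : IsSquare (reflect (2 * m) (sc m s D))) : IsSquare D := by
  obtain ⟨c, hc, hc2⟩ := exists_const hs h2 m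
  have h1 := comp_scale hD (s := s)
  rw [← hc2] at h1
  obtain ⟨G, hG⟩ := h
  rw [hG, mul_comp] at h1
  refine ⟨C c⁻¹ * G.comp (C (4 * s ^ 2) * X), ?_⟩
  have h3 : C c⁻¹ * C c = (1 : k[X]) := by rw [← C_mul, inv_mul_cancel₀ hc, C_1]
  calc D = (C c⁻¹ * C c) ^ 2 * D := by rw [h3, one_pow, one_mul]
    _ = C c⁻¹ * C c⁻¹ * (C (c ^ 2) * D) := by rw [C_pow]; ring
    _ = C c⁻¹ * G.comp (C (4 * s ^ 2) * X) * (C c⁻¹ * G.comp (C (4 * s ^ 2) * X)) := by
      rw [← h1]; ring

end field

end Pool.Agent.X295.Pe
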