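import Mathlib
import Pool.Agent.X295.PeI

/-!
# The polynomial Pell equation in families
-/

set_option autoImplicit false

namespace Pool.Agent.X295.Pe

open Polynomial NumberField

theorem solvable_map {k k' : Type*} [Field k] [Field k'] (φ : k →+* k') {D : k[X]}
    (h : Solvable D) : Solvable (D.map φ) := by
  obtain ⟨A, B, hB, hAB⟩ := h
  refine ⟨A.map φ, B.map φ, (Polynomial.map_ne_zero_iff φ.injective).2 hB, ?_⟩
  rw [← Polynomial.map_pow, ← Polynomial.map_pow, ← Polynomial.map_mul, ← Polynomial.map_sub, hAB,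
    Polynomial.map_one]

/-- the general statement, for one family over the integers and a good member -/
theorem pell_core {q m : ℕ} (hm : 1 ≤ m) (D : (MvPolynomial (Fin q) ℤ)[X])
    (hD : D.natDegree ≤ 2 * m) {K : Type*} [Field K] [IsAlgClosed K] [CharZero K]
    (φ0 : MvPolynomial (Fin q) ℤ →+* K) (h0 : φ0 (D.coeff (2 * m)) ≠ 0)
    (hsq : ¬ IsSquare (D.map φ0)) (hns : ¬ Solvable (D.map φ0)) (d : ℕ) :
    ∃ (C : ℝ) (c : ℕ), 0 < C ∧ ∀ (H : ℝ), 2 ≤ H → ∃ Φ : MvPolynomial (Fin q) ℤ, φ0 Φ ≠ 0 ∧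
      (Φ.totalDegree : ℝ) ≤ C * (Real.log H) ^ c ∧
      ∀ (F : Type) [Field F] [NumberField F], Module.finrank ℚ F ≤ d →
      ∀ (u : Fin q → F) (b : ℕ), 1 ≤ b → (b : ℝ) ≤ H → (∀ j, IsIntegral ℤ ((b : F) * u j)) →
      (∀ (σ : F →+* ℂ) j, ‖σ (u j)‖ ≤ H) →
      ∀ (E : Type) [Field E] [Algebra F E],
      Solvable ((D.map (MvPolynomial.aeval u : MvPolynomial (Fin q) ℤ →ₐ[ℤ] F).toRingHom).map
        (algebraMap F E)) →
      MvPolynomial.aeval u Φ = 0 := by
  classical
  set s := D.coeff (2 * m) with hs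
  set SA := rt s (gg m s D) with hSA
  set DA := sc m s D with hDA
  have hR : RootR m DA SA := rootR_sc hm D
  set a := (Finset.range (2 * m + 1)).sup (fun i => (D.coeff i).totalDegree) with ha
  have hcoef : ∀ i, i < 2 * m + 1 → (D.coeff i).totalDegree ≤ a := fun i hi =>
    Finset.le_sup (f := fun i => (D.coeff i).totalDegree) (Finset.mem_range.2 hi)
  have hsa : s.totalDegree ≤ a := hcoef _ (by omega)
  have hga : ∀ k, (gg m s D k).totalDegree ≤ 2 * a := by
    intro k
    rw [gg]
    by_cases hk : k < 2 * m + 1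
    · rw [if_pos hk]
      refine (MvPolynomial.totalDegree_mul _ _).trans ?_
      have h1 := hcoef (2 * m - k) (by omega)
      omega
    · rw [if_neg hk, MvPolynomial.totalDegree_zero]
      exact Nat.zero_le _
  have hδ : ∀ k, (PowerSeries.coeff k SA).totalDegree ≤ 2 * a * (k + 1) :=
    fun k => totalDegree_rt hsa hga k
  have hS0 : PowerSeries.constantCoeff SA = s := by
    rw [← PowerSeries.coeff_zero_eq_constantCoeff_apply]
    exact rt_zero _ _
  have h2K : (2 : K) ≠ 0 := two_ne_zero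
  have hDK : (D.map φ0).natDegree ≤ 2 * m := natDegree_map_le.trans hD
  have hDAK : DA.map φ0 = sc m (φ0 s) (D.map φ0) := sc_map φ0 m s D
  have hbig : ∃ i, m < i ∧ PowerSeries.coeff i (PowerSeries.map φ0 SA) ≠ 0 := by
    by_contra hc
    apply hsq
    apply isSquare_of hDK h0 h2K
    rw [← hDAK]
    set G := PowerSeries.trunc (m + 1) (PowerSeries.map φ0 SA) with hG
    have hGc : (G : PowerSeries K) = PowerSeries.map φ0 SA := by
      ext i
      rw [Polynomial.coeff_coe, hG, PowerSeries.coeff_trunc]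
      by_cases hi : i < m + 1
      · rw [if_pos hi]
      · rw [if_neg hi]
        by_contra h1
        exact hc ⟨i, by omega, fun h2 => h1 h2.symm⟩
    have hGd : G.natDegree ≤ m := by
      rw [natDegree_le_iff_coeff_eq_zero]
      intro i hi
      rw [hG, PowerSeries.coeff_trunc, if_neg (by omega)]
    have hGG : DA.map φ0 = G * G := by
      apply Polynomial.coe_injective
      rw [(hR.map φ0).sq, ← hGc]
      push_cast
      rfl
    rw [hGG, two_mul, reflect_mul G G hGd hGd]
    exact ⟨_, rfl⟩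
  have hR0 : Root m (DA.map φ0) (PowerSeries.map φ0 SA) := by
    refine (hR.map φ0).toRoot ?_ hbig h2K
    rw [constantCoeff_map, hS0]
    exact h0
  have hno : ∀ e, 1 ≤ e → e ∉ Lam m (PowerSeries.map φ0 SA) := by
    intro e he hmem
    obtain ⟨A, B, hB, hAB⟩ := pell_of_mem hR0 he hmem
    apply hns
    rw [solvable_iff hDK h0 h2K, ← hDAK]
    exact ⟨A, B, hB, by rw [sq, sq]; exact hAB⟩
  obtain ⟨k0, hk0, hk0ne⟩ := hbig
  obtain ⟨C, c, hC, hcore⟩ := core hR hδ φ0 hR0 hno d
  set w := s * PowerSeries.coeff k0 SA with hw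
  refine ⟨w.totalDegree * 2 ^ c + C, c, by positivity, ?_⟩
  intro H hH
  have hlogH : (1 : ℝ) / 2 ≤ Real.log H := by
    have h1 := Real.log_two_gt_d9
    have h2 := Real.log_le_log (by norm_num) hH
    linarith
  obtain ⟨Φ, hΦ0, hΦd, hΦ⟩ := hcore H hH
  refine ⟨w * Φ, ?_, ?_, ?_⟩
  · rw [map_mul, hw, map_mul]
    refine mul_ne_zero (mul_ne_zero h0 ?_) hΦ0
    rw [PowerSeries.coeff_map] at hk0ne
    exact hk0ne
  · have h1 : ((w * Φ).totalDegree : ℝ) ≤ w.totalDegree + Φ.totalDegree := by
      exact_mod_cast MvPolynomial.totalDegree_mul w Φ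
    have h2 : (1 : ℝ) ≤ (2 * Real.log H) ^ c := one_le_pow₀ (by linarith)
    have h3 : (w.totalDegree : ℝ) ≤ w.totalDegree * (2 * Real.log H) ^ c := by
      have : (0 : ℝ) ≤ w.totalDegree := Nat.cast_nonneg _
      nlinarith
    rw [mul_pow] at h3
    calc ((w * Φ).totalDegree : ℝ) ≤ w.totalDegree + Φ.totalDegree := h1
      _ ≤ w.totalDegree * (2 ^ c * Real.log H ^ c) + C * Real.log H ^ c := by linarith
      _ = (w.totalDegree * 2 ^ c + C) * Real.log H ^ c := by ring
  · intro F _ _ hd u b hb1 hbH hint hsize E _ _ hsol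
    rw [map_mul]
    by_cases hwu : MvPolynomial.aeval u w = 0
    · rw [hwu, zero_mul]
    set φF : MvPolynomial (Fin q) ℤ →+* F :=
      (MvPolynomial.aeval u : MvPolynomial (Fin q) ℤ →ₐ[ℤ] F).toRingHom with hφF
    set L := AlgebraicClosure E
    let _ : Algebra F L := ((algebraMap E L).comp (algebraMap F E)).toAlgebra
    have hLF : algebraMap F L = (algebraMap E L).comp (algebraMap F E) := rfl
    have : CharZero L := charZero_of_injective_algebraMap (algebraMap F L).injective
    set φL := (algebraMap F L).comp φF with hφL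
    have h2L : (2 : L) ≠ 0 := two_ne_zero
    have hsolL : Solvable (D.map φL) := by
      have h1 := solvable_map (algebraMap E L) hsol
      rw [Polynomial.map_map, Polynomial.map_map] at h1
      exact h1
    have hDL : (D.map φL).natDegree ≤ 2 * m := natDegree_map_le.trans hD
    have hwF : φF w ≠ 0 := hwu
    have hwL : φL w ≠ 0 := by
      rw [hφL, RingHom.comp_apply, Ne, map_eq_zero_iff _ (algebraMap F L).injective]
      exact hwF
    rw [hw, map_mul] at hwL
    have hsL := left_ne_zero_of_mul hwL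
    have hkL := right_ne_zero_of_mul hwL
    have hRL : Root m (DA.map φL) (PowerSeries.map φL SA) := by
      refine (hR.map φL).toRoot ?_ ⟨k0, hk0, ?_⟩ h2L
      · rw [constantCoeff_map, hS0]
        exact hsL
      · rw [PowerSeries.coeff_map]
        exact hkL
    rw [solvable_iff hDL hsL h2L, ← sc_map, ← hDA] at hsolL
    obtain ⟨A, B, hB, hAB⟩ := hsolL
    rw [sq, sq] at hAB
    obtain ⟨h3, h4⟩ := mem_of_pell hRL hB hAB
    rw [hΦ F hd u b hb1 hbH hint hsize L _ h4 h3, mul_zero]

end Pool.Agent.X295.Pe
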