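import Mathlib
import Pool.Agent.X295.PeJ

/-!
# The polynomial Pell equation in families over a number field
-/

set_option autoImplicit false

namespace Pool.Agent.X295.Pe

open Polynomial NumberField

/-- substituting polynomials of degree at most one does not increase the degree -/
theorem totalDegree_subst {N q : ℕ} {K : Type*} [Field K] (w : Fin N → MvPolynomial (Fin q) K)
    (hw : ∀ j, (w j).totalDegree ≤ 1) (p : MvPolynomial (Fin N) ℤ) :
    (MvPolynomial.aeval w p).totalDegree ≤ p.totalDegree := by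
  rw [MvPolynomial.aeval_def, MvPolynomial.eval₂_eq']
  apply MvPolynomial.totalDegree_finsetSum_le
  intro s hs
  have hs1 : ∑ i, s i ≤ p.totalDegree := by
    have h1 := MvPolynomial.le_totalDegree hs
    rwa [Finsupp.sum_fintype _ _ (fun _ => rfl)] at h1
  refine (MvPolynomial.totalDegree_mul _ _).trans ?_
  have h1 : (algebraMap ℤ (MvPolynomial (Fin q) K) (MvPolynomial.coeff s p)).totalDegree = 0 := by
    rw [eq_intCast, ← map_intCast (MvPolynomial.C : K →+* MvPolynomial (Fin q) K)]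
    exact MvPolynomial.totalDegree_C _
  rw [h1, zero_add]
  refine (MvPolynomial.totalDegree_finsetProd _ _).trans ?_
  refine (Finset.sum_le_sum fun i _ => ?_).trans hs1
  refine (MvPolynomial.totalDegree_pow _ _).trans ?_
  calc s i * (w i).totalDegree ≤ s i * 1 := Nat.mul_le_mul_left _ (hw i)
    _ = s i := mul_one _

/-- a common denominator and a common bound for the conjugates -/
theorem exists_bounds {K : Type} [Field K] [NumberField K] {T : Type*} [Fintype T] (c : T → K) :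
    ∃ (b : ℕ) (B : ℝ), 1 ≤ b ∧ 1 ≤ B ∧ (∀ t, IsIntegral ℤ ((b : K) * c t)) ∧
      ∀ (σ : K →+* ℂ) t, ‖σ (c t)‖ ≤ B := by
  classical
  have h1 : ∀ t, ∃ y : ℤ, y ≠ 0 ∧ IsIntegral ℤ ((y : K) * c t) := by
    intro t
    have h2 : IsAlgebraic ℤ (c t) := by
      have h3 : IsAlgebraic ℚ (c t) := Algebra.IsAlgebraic.isAlgebraic _
      exact (IsFractionRing.isAlgebraic_iff ℤ ℚ K).2 h3
    obtain ⟨y, hy, hyi⟩ := h2.exists_integral_multiple
    refine ⟨y, hy, ?_⟩
    rwa [zsmul_eq_mul] at hyi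
  choose y hy0 hyi using h1
  refine ⟨∏ t, (y t).natAbs, 1 + ∑ σ : K →+* ℂ, ∑ t, ‖σ (c t)‖, ?_, ?_, ?_, ?_⟩
  · exact Finset.one_le_prod' fun t _ => Nat.one_le_iff_ne_zero.2 (Int.natAbs_ne_zero.2 (hy0 t))
  · have : 0 ≤ ∑ σ : K →+* ℂ, ∑ t, ‖σ (c t)‖ :=
      Finset.sum_nonneg fun _ _ => Finset.sum_nonneg fun _ _ => norm_nonneg _
    linarith
  · intro t
    have h2 : y t ∣ ((∏ t, (y t).natAbs : ℕ) : ℤ) := by
      rw [← Int.natAbs_dvd]
      exact_mod_cast Finset.dvd_prod_of_mem (fun t => (y t).natAbs) (Finset.mem_univ t)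
    obtain ⟨k, hk⟩ := h2
    have h3 : (((∏ t, (y t).natAbs : ℕ) : ℕ) : K) * c t = (k : K) * ((y t : K) * c t) := by
      have h4 : (((∏ t, (y t).natAbs : ℕ) : ℕ) : K) = (y t : K) * (k : K) := by
        rw [← Int.cast_mul, ← hk, Int.cast_natCast]
      rw [h4]
      ring
    rw [h3]
    exact (isIntegral_intCast (R := ℤ) k).mul (hyi t)
  · intro σ t
    have h2 : ‖σ (c t)‖ ≤ ∑ t, ‖σ (c t)‖ :=
      Finset.single_le_sum (f := fun t => ‖σ (c t)‖) (fun _ _ => norm_nonneg _) (Finset.mem_univ t)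
    have h3 : ∑ t, ‖σ (c t)‖ ≤ ∑ σ : K →+* ℂ, ∑ t, ‖σ (c t)‖ :=
      Finset.single_le_sum (f := fun σ : K →+* ℂ => ∑ t, ‖σ (c t)‖)
        (fun _ _ => Finset.sum_nonneg fun _ _ => norm_nonneg _) (Finset.mem_univ σ)
    linarith

/-- the common denominator and the conjugates of `u` are at most `H` -/
def SizeLe {F : Type} [Field F] {q : ℕ} (H : ℝ) (u : Fin q → F) : Prop :=
  ∃ b : ℕ, 1 ≤ b ∧ (b : ℝ) ≤ H ∧ (∀ j, IsIntegral ℤ ((b : F) * u j)) ∧
    ∀ (σ : F →+* ℂ) j, ‖σ (u j)‖ ≤ H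

/-- the coefficients of the family as additional parameters -/
abbrev TT {K : Type} [Field K] {q : ℕ} (m : ℕ) (D : (MvPolynomial (Fin q) K)[X]) : Type :=
  Σ i : Fin (2 * m + 1), {s // s ∈ (D.coeff i).support}

/-- the values of the additional parameters -/
noncomputable def cf {K : Type} [Field K] {q : ℕ} (m : ℕ) (D : (MvPolynomial (Fin q) K)[X]) :
    TT m D → K := fun t => (D.coeff t.1).coeff t.2.1

/-- all parameters -/
noncomputable def vv {q N : ℕ} {T : Type} {A : Type*} (e : (Fin q ⊕ T) ≃ Fin N) (u : Fin q → A)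
    (c : T → A) : Fin N → A := fun j => Sum.elim u c (e.symm j)

theorem vv_inl {q N : ℕ} {T : Type} {A : Type*} (e : (Fin q ⊕ T) ≃ Fin N) (u : Fin q → A)
    (c : T → A) (j : Fin q) : vv e u c (e (Sum.inl j)) = u j := by
  rw [vv, Equiv.symm_apply_apply]
  rfl

theorem vv_inr {q N : ℕ} {T : Type} {A : Type*} (e : (Fin q ⊕ T) ≃ Fin N) (u : Fin q → A)
    (c : T → A) (t : T) : vv e u c (e (Sum.inr t)) = c t := by
  rw [vv, Equiv.symm_apply_apply]
  rfl

/-- the universal coefficients -/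
noncomputable def lf {K : Type} [Field K] {q : ℕ} (m : ℕ) (D : (MvPolynomial (Fin q) K)[X])
    {N : ℕ} (e : (Fin q ⊕ TT m D) ≃ Fin N) (i : Fin (2 * m + 1)) : MvPolynomial (Fin N) ℤ :=
  ∑ s : {s // s ∈ (D.coeff i).support}, MvPolynomial.X (e (Sum.inr ⟨i, s⟩)) *
    ∏ j, MvPolynomial.X (e (Sum.inl j)) ^ (s.1 j)

theorem aeval_lf {K : Type} [Field K] {q : ℕ} (m : ℕ) (D : (MvPolynomial (Fin q) K)[X])
    {N : ℕ} (e : (Fin q ⊕ TT m D) ≃ Fin N) (i : Fin (2 * m + 1)) {A : Type*} [Field A]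
    [Algebra K A] (u : Fin q → A) :
    MvPolynomial.aeval (vv e u (fun t => algebraMap K A (cf m D t))) (lf m D e i) =
      MvPolynomial.aeval u (D.coeff i) := by
  rw [MvPolynomial.aeval_def (R := K), MvPolynomial.eval₂_eq', lf, map_sum, ← Finset.sum_coe_sort
    (D.coeff i).support]
  refine Finset.sum_congr rfl fun s _ => ?_
  rw [map_mul, MvPolynomial.aeval_X, vv_inr, map_prod]
  congr 1
  refine Finset.prod_congr rfl fun j _ => ?_
  rw [map_pow, MvPolynomial.aeval_X, vv_inl]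

/-- the universal family -/
noncomputable def DD {K : Type} [Field K] {q : ℕ} (m : ℕ) (D : (MvPolynomial (Fin q) K)[X])
    {N : ℕ} (e : (Fin q ⊕ TT m D) ≃ Fin N) : (MvPolynomial (Fin N) ℤ)[X] :=
  ∑ i : Fin (2 * m + 1), C (lf m D e i) * X ^ (i : ℕ)

theorem DD_coeff {K : Type} [Field K] {q : ℕ} (m : ℕ) (D : (MvPolynomial (Fin q) K)[X])
    {N : ℕ} (e : (Fin q ⊕ TT m D) ≃ Fin N) (i : ℕ) :
    (DD m D e).coeff i = if h : i < 2 * m + 1 then lf m D e ⟨i, h⟩ else 0 := by
  rw [DD, finsetSum_coeff]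
  simp only [coeff_C_mul, coeff_X_pow]
  by_cases hi : i < 2 * m + 1
  · rw [dif_pos hi, Finset.sum_eq_single ⟨i, hi⟩]
    · rw [if_pos rfl, mul_one]
    · intro j _ hj
      rw [if_neg, mul_zero]
      intro h
      exact hj (Fin.ext h.symm)
    · intro h
      exact absurd (Finset.mem_univ _) h
  · rw [dif_neg hi]
    refine Finset.sum_eq_zero fun j _ => ?_
    rw [if_neg, mul_zero]
    have := j.2
    omega

theorem DD_map {K : Type} [Field K] {q : ℕ} {m : ℕ} {D : (MvPolynomial (Fin q) K)[X]}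
    (hD : D.natDegree ≤ 2 * m) {N : ℕ} (e : (Fin q ⊕ TT m D) ≃ Fin N) {A : Type*} [Field A]
    [Algebra K A] (u : Fin q → A) :
    (DD m D e).map (MvPolynomial.aeval (vv e u (fun t => algebraMap K A (cf m D t))) :
      MvPolynomial (Fin N) ℤ →ₐ[ℤ] A).toRingHom =
      D.map (MvPolynomial.aeval u : MvPolynomial (Fin q) K →ₐ[K] A).toRingHom := by
  ext i
  rw [coeff_map, coeff_map, DD_coeff]
  by_cases hi : i < 2 * m + 1
  · rw [dif_pos hi]
    exact aeval_lf m D e ⟨i, hi⟩ u
  · rw [dif_neg hi, coeff_eq_zero_of_natDegree_lt (by omega), map_zero, map_zero]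

theorem aeval_back {K : Type} [Field K] {q : ℕ} {m : ℕ} {D : (MvPolynomial (Fin q) K)[X]}
    {N : ℕ} (e : (Fin q ⊕ TT m D) ≃ Fin N) {A : Type*} [Field A] [Algebra K A] (u : Fin q → A)
    (Φ : MvPolynomial (Fin N) ℤ) :
    MvPolynomial.aeval u (MvPolynomial.aeval (vv e (MvPolynomial.X : Fin q → MvPolynomial (Fin q) K)
      (fun t => MvPolynomial.C (cf m D t))) Φ) =
      MvPolynomial.aeval (vv e u (fun t => algebraMap K A (cf m D t))) Φ := by
  have h : ((MvPolynomial.aeval u : MvPolynomial (Fin q) K →ₐ[K] A).toRingHom).comp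
      (MvPolynomial.aeval (vv e (MvPolynomial.X : Fin q → MvPolynomial (Fin q) K)
      (fun t => MvPolynomial.C (cf m D t))) : MvPolynomial (Fin N) ℤ →ₐ[ℤ] _).toRingHom =
      (MvPolynomial.aeval (vv e u (fun t => algebraMap K A (cf m D t))) :
        MvPolynomial (Fin N) ℤ →ₐ[ℤ] A).toRingHom := by
    refine MvPolynomial.ringHom_ext ?_ ?_
    · intro r
      show MvPolynomial.aeval u (MvPolynomial.aeval _ (MvPolynomial.C r)) =
        MvPolynomial.aeval _ (MvPolynomial.C r)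
      rw [MvPolynomial.aeval_C, MvPolynomial.aeval_C]
      simp
    · intro j
      show MvPolynomial.aeval u (MvPolynomial.aeval _ (MvPolynomial.X j)) =
        MvPolynomial.aeval _ (MvPolynomial.X j)
      rw [MvPolynomial.aeval_X, MvPolynomial.aeval_X]
      obtain ⟨x, rfl⟩ := e.surjective j
      rcases x with x | x
      · rw [vv_inl, vv_inl, MvPolynomial.aeval_X]
      · rw [vv_inr, vv_inr, MvPolynomial.aeval_C]
  exact RingHom.congr_fun h Φ

/-- the main theorem over a number field -/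
theorem pell_nf {K : Type} [Field K] [NumberField K] {q m : ℕ} (hm : 1 ≤ m)
    (D : (MvPolynomial (Fin q) K)[X]) (hD : D.natDegree ≤ 2 * m)
    {A : Type*} [Field A] [IsAlgClosed A] [Algebra K A] (u₀ : Fin q → A)
    (h0 : MvPolynomial.aeval u₀ (D.coeff (2 * m)) ≠ 0)
    (hsq : ¬ IsSquare (D.map (MvPolynomial.aeval u₀ : MvPolynomial (Fin q) K →ₐ[K] A).toRingHom))
    (hns : ¬ Solvable (D.map (MvPolynomial.aeval u₀ : MvPolynomial (Fin q) K →ₐ[K] A).toRingHom))
    (d : ℕ) :
    ∃ (C : ℝ) (c : ℕ), 0 < C ∧ ∀ (H : ℝ), 2 ≤ H → ∃ Φ : MvPolynomial (Fin q) K,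
      MvPolynomial.aeval u₀ Φ ≠ 0 ∧ (Φ.totalDegree : ℝ) ≤ C * (Real.log H) ^ c ∧
      ∀ (F : Type) [Field F] [NumberField F] [Algebra K F], Module.finrank ℚ F ≤ d →
      ∀ (u : Fin q → F), SizeLe H u → ∀ (E : Type) [Field E] [Algebra F E],
      Solvable ((D.map (MvPolynomial.aeval u : MvPolynomial (Fin q) K →ₐ[K] F).toRingHom).map
        (algebraMap F E)) → MvPolynomial.aeval u Φ = 0 := by
  classical
  have : CharZero A := charZero_of_injective_algebraMap (algebraMap K A).injective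
  obtain ⟨b0, B0, hb0, hB0, hint0, hsize0⟩ := exists_bounds (cf m D)
  let e : (Fin q ⊕ TT m D) ≃ Fin (Fintype.card (Fin q ⊕ TT m D)) := Fintype.equivFin _
  set N := Fintype.card (Fin q ⊕ TT m D) with hN
  have hD' : (DD m D e).natDegree ≤ 2 * m := by
    rw [natDegree_le_iff_coeff_eq_zero]
    intro i hi
    rw [DD_coeff, dif_neg (by omega)]
  have hmap0 := DD_map hD e u₀
  have h0' : (MvPolynomial.aeval (vv e u₀ (fun t => algebraMap K A (cf m D t))) :
      MvPolynomial (Fin N) ℤ →ₐ[ℤ] A).toRingHom ((DD m D e).coeff (2 * m)) ≠ 0 := by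
    rw [← coeff_map, hmap0, coeff_map]
    exact h0
  obtain ⟨C, c, hC, hcore⟩ := pell_core hm (DD m D e) hD' _ h0' (by rw [hmap0]; exact hsq)
    (by rw [hmap0]; exact hns) d
  set B : ℝ := B0 + b0 with hB
  have hB1 : 1 ≤ B := by
    have : (0 : ℝ) ≤ b0 := Nat.cast_nonneg _
    linarith
  have hlB : 0 ≤ Real.log B := Real.log_nonneg hB1
  refine ⟨C * (1 + 2 * Real.log B) ^ c, c, by positivity, ?_⟩
  intro H hH
  have hlogH : (1 : ℝ) / 2 ≤ Real.log H := by
    have h1 := Real.log_two_gt_d9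
    have h2 := Real.log_le_log (by norm_num) hH
    linarith
  have hHB : 2 ≤ H * B := by nlinarith
  obtain ⟨Φ, hΦ0, hΦd, hΦ⟩ := hcore (H * B) hHB
  set w := vv e (MvPolynomial.X : Fin q → MvPolynomial (Fin q) K)
    (fun t => MvPolynomial.C (cf m D t)) with hw
  refine ⟨MvPolynomial.aeval w Φ, ?_, ?_, ?_⟩
  · rw [hw, aeval_back]
    exact hΦ0
  · have h1 : (MvPolynomial.aeval w Φ).totalDegree ≤ Φ.totalDegree := by
      apply totalDegree_subst
      intro j
      obtain ⟨x, rfl⟩ := e.surjective j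
      rcases x with x | x
      · rw [hw, vv_inl, MvPolynomial.totalDegree_X]
      · rw [hw, vv_inr, MvPolynomial.totalDegree_C]
        exact Nat.zero_le _
    have h2 : Real.log (H * B) ≤ (1 + 2 * Real.log B) * Real.log H := by
      rw [Real.log_mul (by linarith) (by linarith)]
      nlinarith
    have h3 : 0 ≤ Real.log (H * B) := Real.log_nonneg (by linarith)
    calc ((MvPolynomial.aeval w Φ).totalDegree : ℝ) ≤ Φ.totalDegree := by exact_mod_cast h1
      _ ≤ C * Real.log (H * B) ^ c := hΦd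
      _ ≤ C * ((1 + 2 * Real.log B) * Real.log H) ^ c :=
          mul_le_mul_of_nonneg_left (pow_le_pow_left₀ h3 h2 c) hC.le
      _ = C * (1 + 2 * Real.log B) ^ c * Real.log H ^ c := by rw [mul_pow]; ring
  · intro F _ _ _ hd u hu E _ _ hsol
    obtain ⟨b, hb1, hbH, hint, hsize⟩ := hu
    rw [hw, aeval_back]
    have hH0 : 0 ≤ H := by linarith
    have hb0r : (1 : ℝ) ≤ b0 := by exact_mod_cast hb0
    refine hΦ F hd (vv e u (fun t => algebraMap K F (cf m D t))) (b * b0)
      (Nat.mul_pos hb1 hb0) ?_ ?_ ?_ E ?_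
    · push_cast
      have h1 : (b0 : ℝ) ≤ B := by linarith
      exact mul_le_mul hbH h1 (by positivity) hH0
    · intro j
      obtain ⟨x, rfl⟩ := e.surjective j
      rcases x with x | x
      · rw [vv_inl]
        push_cast
        rw [show (b : F) * b0 * u x = b0 * (b * u x) by ring]
        exact (isIntegral_natCast (R := ℤ) b0).mul (hint x)
      · rw [vv_inr]
        push_cast
        rw [show (b : F) * b0 * algebraMap K F (cf m D x) =
          b * algebraMap K F ((b0 : K) * cf m D x) by rw [map_mul, map_natCast]; ring]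
        exact (isIntegral_natCast (R := ℤ) b).mul (map_isIntegral_int (algebraMap K F) (hint0 x))
    · intro σ j
      obtain ⟨x, rfl⟩ := e.surjective j
      rcases x with x | x
      · rw [vv_inl]
        refine (hsize σ x).trans ?_
        nlinarith
      · rw [vv_inr]
        refine (hsize0 (σ.comp (algebraMap K F)) x).trans ?_
        nlinarith
    · rw [DD_map hD e u]
      exact hsol

end Pool.Agent.X295.Pe
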