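import Pool.Agent.X295.LsA
import Pool.Agent.Y725.LS.Final

/-!
The Szpiro-type bound for the members of families with several parameters (helper file).
-/

set_option autoImplicit false

namespace Pool.Agent.X295.Gal

open MvPolynomial NumberField IsDedekindDomain Height TH951 Pool.Agent.Y673.Loc
open TH951.LS (GoodRed)
open Pool.Agent.TH942 (sw sw_ell)
open Pool.Agent.TH910.LS Pool.Agent.Y725.LS

/-- good reduction implies that the invariant is integral -/
theorem good_jinv {L : Type} [Field L] [NumberField L] (w : FinitePlace L)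
    (W : WeierstrassCurve L) [W.IsElliptic] (h : GoodRed w.val W) : w.val W.j ≤ 1 := by
  obtain ⟨C, h1, h2, h3, h4, h6, hΔ⟩ := h
  have hna := TH951.LS.na_val w
  have hnat : ∀ n : ℕ, w.val (n : L) ≤ 1 := fun n => NF.natCast_le_one w n
  have n4 : w.val (4 : L) ≤ 1 := by exact_mod_cast hnat 4
  have n2 : w.val (2 : L) ≤ 1 := by exact_mod_cast hnat 2
  have n24 : w.val (24 : L) ≤ 1 := by exact_mod_cast hnat 24
  have hb2 : w.val (C • W).b₂ ≤ 1 := by
    rw [WeierstrassCurve.b₂]
    refine (hna _ _).trans (max_le ?_ ?_)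
    · rw [map_pow]
      exact pow_le_one₀ (w.val.nonneg _) h1
    · rw [map_mul]
      exact mul_le_one₀ n4 (w.val.nonneg _) h2
  have hb4 : w.val (C • W).b₄ ≤ 1 := by
    rw [WeierstrassCurve.b₄]
    refine (hna _ _).trans (max_le ?_ ?_)
    · rw [map_mul]
      exact mul_le_one₀ n2 (w.val.nonneg _) h4
    · rw [map_mul]
      exact mul_le_one₀ h1 (w.val.nonneg _) h3
  have hc4 : w.val (C • W).c₄ ≤ 1 := by
    rw [WeierstrassCurve.c₄, sub_eq_add_neg]
    refine (hna _ _).trans (max_le ?_ ?_)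
    · rw [map_pow]
      exact pow_le_one₀ (w.val.nonneg _) hb2
    · rw [AbsoluteValue.map_neg, map_mul]
      exact mul_le_one₀ n24 (w.val.nonneg _) hb4
  have hjj : (C • W).j * (C • W).Δ = (C • W).c₄ ^ 3 := by
    rw [WeierstrassCurve.j, ← (C • W).coe_Δ', mul_comm, ← mul_assoc, Units.mul_inv, one_mul]
  rw [← WeierstrassCurve.variableChange_j W C]
  have e1 : w.val (C • W).j = w.val (C • W).c₄ ^ 3 := by
    rw [← map_pow, ← hjj, map_mul, hΔ, mul_one]
  rw [e1]
  exact pow_le_one₀ (w.val.nonneg _) hc4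

theorem one_lt_val {K : Type} [Field K] [NumberField K] (v : FinitePlace K) (y : K) :
    1 < v.val y ↔ (adv K v.maximalIdeal).v y < 0 := by
  have h1 : 1 < v.val y ↔ 1 < v.maximalIdeal.valuation K y := by
    rw [val_eq]
    have hmono : StrictMono (WithZeroMulInt.toNNReal
        (HeightOneSpectrum.absNorm_ne_zero v.maximalIdeal)) :=
      WithZeroMulInt.toNNReal_strictMono
        (HeightOneSpectrum.one_lt_absNorm_nnreal v.maximalIdeal)
    rw [← hmono.lt_iff_lt, map_one]
    norm_cast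
  rw [h1]
  show _ ↔ -WithZero.log (v.maximalIdeal.valuation K y) < 0
  by_cases h0 : y = 0
  · subst h0
    simp
  have h2 : v.maximalIdeal.valuation K y ≠ 0 := (Valuation.ne_zero_iff _).2 h0
  rw [← WithZero.log_lt_log one_ne_zero h2, WithZero.log_one]
  omega

theorem prime_mem_unique {K : Type} [Field K] [NumberField K] (v : HeightOneSpectrum (𝓞 K))
    {p p' : ℕ} (hp : p.Prime) (hp' : p'.Prime) (h : (p : 𝓞 K) ∈ v.asIdeal)
    (h' : (p' : 𝓞 K) ∈ v.asIdeal) : p = p' := by
  by_contra hne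
  have h1 : ¬ p ∣ p' := fun hd => hne ((Nat.prime_dvd_prime_iff_eq hp hp').1 hd)
  exact Pool.Agent.Y673.CB.v_pos_of_mem v hp'.ne_zero h' (nat_zero v hp h h1)

theorem le_norm {K : Type} [Field K] [NumberField K] (v : HeightOneSpectrum (𝓞 K))
    {p : ℕ} (hp : p.Prime) (h : (p : 𝓞 K) ∈ v.asIdeal) : p ≤ Ideal.absNorm v.asIdeal := by
  have h0 : Ideal.absNorm v.asIdeal ≠ 0 := by
    rw [Ne, Ideal.absNorm_eq_zero_iff]
    exact v.ne_bot
  have h1 : p ∣ Ideal.absNorm v.asIdeal := by
    by_contra hcon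
    exact Pool.Agent.Y673.CB.v_pos_of_mem v h0 (Ideal.absNorm_mem _) (nat_zero v hp h hcon)
  exact Nat.le_of_dvd (Nat.pos_of_ne_zero h0) h1

theorem up_mem {K L : Type} [Field K] [NumberField K] [Field L] [NumberField L] [Algebra K L]
    (w : FinitePlace L) {p : ℕ} (h : (p : 𝓞 K) ∈ (below K w).maximalIdeal.asIdeal) :
    (p : 𝓞 L) ∈ w.maximalIdeal.asIdeal := by
  rw [below_ideal] at h
  have h1 : algebraMap (𝓞 K) (𝓞 L) (p : 𝓞 K) ∈ w.maximalIdeal.asIdeal := h
  rwa [map_natCast] at h1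

/-- **the truncated Szpiro-type bound** -/
theorem szp {K₀ : Type} [Field K₀] [NumberField K₀] {j : K₀} {σ : ℝ} (hσ : 0 ≤ σ)
    (hj : ManyPoles σ j) (D : ℕ) (K : Type) [Field K] [NumberField K] [Algebra K₀ K]
    (hD : Module.finrank ℚ K ≤ D) {a b : 𝓞 K} (hab : 4 * (a : K) ^ 3 + 27 * (b : K) ^ 2 ≠ 0)
    (hjab : jinv (a : K) b = algebraMap K₀ K j)
    (L : Type) [Field L] [NumberField L] [Algebra K L] {δ : ℝ} (hδ : 0 ≤ δ) :
    SzpiroLe (D * σ) δ 0 1 a b L := by
  classical
  have hpos : 0 ≤ δ * logHeight₁ (jinv (a : K) b) := mul_nonneg hδ (zero_le_logHeight₁ _)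
  rcases hj with hj | hj
  · refine ⟨∅, ∅, by simp, by simp, fun S hS => ?_⟩
    have hSe : S = ∅ := by
      rw [Finset.eq_empty_iff_forall_notMem]
      intro v hv
      obtain ⟨-, -, h3⟩ := hS v hv
      rw [hjab, ext_apply (K := K₀),
        one_lt_pow_iff_of_nonneg ((below K₀ v).val.nonneg _) (ldeg_pos K₀ v).ne',
        one_lt_val] at h3
      obtain ⟨p, hp, hpv⟩ := res_prime (below K₀ v).maximalIdeal
      have h4 : p ∈ polePrimes j := ⟨hp, _, hpv, h3⟩
      rw [hj] at h4
      exact h4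
    rw [hSe, Finset.sum_empty, Finset.sum_empty, mul_zero, zero_add]
    exact hpos
  have hex : ∀ p : ℕ, p ∈ polePrimes j → ∃ w : FinitePlace L,
      (p : 𝓞 L) ∈ w.maximalIdeal.asIdeal ∧ 1 < w.val (algebraMap K L (algebraMap K₀ K j)) := by
    rintro p ⟨hp, v, hpv, hv⟩
    obtain ⟨v', hv'⟩ := exists_above (K := K₀) (L := K) (FinitePlace.mk v)
    obtain ⟨w, hw⟩ := exists_above (K := K) (L := L) v'
    refine ⟨w, ?_, ?_⟩
    · apply up_mem (K := K)
      rw [hw]
      apply up_mem (K := K₀)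
      rw [hv', FinitePlace.maximalIdeal_mk]
      exact hpv
    · rw [ext_apply (K := K), hw, ext_apply (K := K₀), hv']
      have h1 : 1 < (FinitePlace.mk v).val j := by
        rw [one_lt_val, FinitePlace.maximalIdeal_mk]
        exact hv
      refine one_lt_pow₀ (one_lt_pow₀ h1 ?_) ?_
      · exact (ldeg_pos K₀ v').ne'
      · exact (ldeg_pos K w).ne'
  obtain ⟨w₀, -⟩ : ∃ w : FinitePlace L, True := by
    obtain ⟨v, -⟩ : ∃ v : HeightOneSpectrum (𝓞 ℚ), True := by
      obtain ⟨P, hP, -⟩ := Ideal.exists_le_maximal (Ideal.span {(2 : 𝓞 ℚ)}) (by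
        intro h
        rw [Ideal.span_singleton_eq_top] at h
        have h2 : IsUnit (Rat.ringOfIntegersEquiv (2 : 𝓞 ℚ)) := h.map _
        rw [map_ofNat] at h2
        rw [Int.isUnit_iff] at h2
        omega)
      exact ⟨⟨P, hP.isPrime, Ring.ne_bot_of_isMaximal_of_not_isField hP
        (RingOfIntegers.not_isField ℚ)⟩, trivial⟩
    exact ⟨(exists_above (K := ℚ) (L := L) (FinitePlace.mk v)).choose, trivial⟩
  have hex' : ∀ p : ℕ, ∃ w : FinitePlace L, p ∈ polePrimes j →
      (p : 𝓞 L) ∈ w.maximalIdeal.asIdeal ∧ 1 < w.val (algebraMap K L (algebraMap K₀ K j)) := by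
    intro p
    by_cases hp : p ∈ polePrimes j
    · obtain ⟨w, hw⟩ := hex p hp
      exact ⟨w, fun _ => hw⟩
    · exact ⟨w₀, fun h => absurd h hp⟩
  choose up hup using hex'
  have hmem : ∀ p, p ∈ (polePrimes_finite j).toFinset ↔ p ∈ polePrimes j := fun p =>
    Set.Finite.mem_toFinset _
  refine ⟨∅, (polePrimes_finite j).toFinset.image up, by simp, ?_, ?_⟩
  · intro w hw
    obtain ⟨p, hp, rfl⟩ := Finset.mem_image.1 hw
    rw [hmem] at hp
    left
    intro hgood
    have hab' : 4 * (algebraMap K L a) ^ 3 + 27 * (algebraMap K L b) ^ 2 ≠ 0 := by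
      have h1 : algebraMap K L (4 * (a : K) ^ 3 + 27 * (b : K) ^ 2) ≠ 0 := by
        rw [ne_eq, map_eq_zero]
        exact hab
      rw [map_add, map_mul, map_mul, map_pow, map_pow, map_ofNat, map_ofNat] at h1
      exact h1
    haveI hell := sw_ell hab'
    have h2 := good_jinv (up p) _ hgood
    rw [jinv_eq _ _ hell] at h2
    have e1 : jinv (algebraMap K L (a : K)) (algebraMap K L (b : K)) =
        algebraMap K L (algebraMap K₀ K j) := by
      rw [← hjab]
      unfold jinv
      rw [map_div₀, map_add, map_mul, map_mul, map_mul, map_pow, map_pow, map_ofNat, map_ofNat,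
        map_ofNat]
    rw [e1] at h2
    have h3 := (hup p hp).2
    linarith
  · intro S hS
    rw [hjab] at hpos hS ⊢
    have hinj : Set.InjOn up ((polePrimes_finite j).toFinset : Set ℕ) := by
      intro p hp p' hp' h
      rw [Finset.mem_coe, hmem] at hp hp'
      have h1 := (hup p hp).1
      rw [h] at h1
      exact prime_mem_unique _ hp.1 hp'.1 h1 (hup p' hp').1
    rw [Finset.sum_image hinj]
    have h1 : poleSum j ≤ ∑ p ∈ (polePrimes_finite j).toFinset,
        Real.log (Ideal.absNorm (up p).maximalIdeal.asIdeal) := by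
      refine Finset.sum_le_sum fun p hp => ?_
      rw [hmem] at hp
      exact Real.log_le_log (by exact_mod_cast hp.1.pos)
        (by exact_mod_cast le_norm _ hp.1 (hup p hp).1)
    have h2 : ∑ v ∈ S, Real.log (v.val (algebraMap K₀ K j)) ≤ logHeight₁ (algebraMap K₀ K j) := by
      have h3 := FE.posLog_sum_le (algebraMap K₀ K j) S
      have h4 : (0 : ℝ) ≤ ∑ v : InfinitePlace K,
          (v.mult : ℝ) * Real.posLog (v.val (algebraMap K₀ K j)) :=
        Finset.sum_nonneg fun v _ => mul_nonneg (Nat.cast_nonneg _) Real.posLog_nonneg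
      have h5 : ∑ v ∈ S, Real.log (v.val (algebraMap K₀ K j)) ≤
          ∑ v ∈ S, Real.posLog (v.val (algebraMap K₀ K j)) :=
        Finset.sum_le_sum fun v _ => by
          rw [Real.posLog]
          exact le_max_right _ _
      linarith
    rw [ht_ext] at h2
    have h3 : (Module.finrank K₀ K : ℝ) ≤ D := by
      have h4 : Module.finrank K₀ K ≤ Module.finrank ℚ K := by
        rw [← Module.finrank_mul_finrank ℚ K₀ K]
        exact Nat.le_mul_of_pos_left _ Module.finrank_pos
      exact_mod_cast h4.trans hD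
    have h4 := zero_le_logHeight₁ j
    have h5 : (Module.finrank K₀ K : ℝ) * logHeight₁ j ≤ D * (σ * poleSum j) :=
      mul_le_mul h3 hj h4 (Nat.cast_nonneg _)
    have h6 : (D : ℝ) * (σ * poleSum j) ≤ D * σ * ∑ p ∈ (polePrimes_finite j).toFinset,
        Real.log (Ideal.absNorm (up p).maximalIdeal.asIdeal) := by
      rw [mul_assoc]
      exact mul_le_mul_of_nonneg_left (mul_le_mul_of_nonneg_left h1 hσ) (Nat.cast_nonneg _)
    rw [mul_comm (Module.finrank K₀ K : ℝ)] at h5
    linarith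

end Pool.Agent.X295.Gal
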