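import Pool.Agent.X295.GalI

/-!
Families of elliptic curves with several algebraic integers as parameters (helper file).
-/

set_option autoImplicit false

namespace Pool.Agent.X295.Gal

open MvPolynomial NumberField IsDedekindDomain Pool.Agent.Y673.Loc Pool.Agent.Y673.FM
  Pool.Agent.Y673.DK Pool.Agent.Y673.CB Pool.Agent.W275.FMK
open Pool.Agent.Y673.Loc.ZV

variable {K : Type} [Field K] [NumberField K] {m s : ℕ} {ι : Type} [Fintype ι]

/-- substitution of linear forms -/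
noncomputable def sub (ω : Module.Basis ι ℤ (𝓞 K)) (e : Fin m × ι ≃ Fin s) :
    MvPolynomial (Fin m) K →ₐ[K] MvPolynomial (Fin s) K :=
  aeval fun i => ∑ k, C ((ω k : 𝓞 K) : K) * X (e (i, k))

theorem sub_not_dvd (ω : Module.Basis ι ℤ (𝓞 K)) (e : Fin m × ι ≃ Fin s)
    {F G : MvPolynomial (Fin m) K} (h : ¬ G ∣ F) : ¬ sub ω e G ∣ sub ω e F := by
  classical
  obtain ⟨k₀⟩ : Nonempty ι := ω.index_nonempty
  have hω : ((ω k₀ : 𝓞 K) : K) ≠ 0 := by
    have h1 := ω.ne_zero k₀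
    exact_mod_cast h1
  let r : MvPolynomial (Fin s) K →ₐ[K] MvPolynomial (Fin m) K :=
    aeval fun l => if (e.symm l).2 = k₀ then C (((ω k₀ : 𝓞 K) : K)⁻¹) * X (e.symm l).1 else 0
  have hr : r.comp (sub ω e) = AlgHom.id K _ := by
    apply MvPolynomial.algHom_ext
    intro i
    rw [AlgHom.comp_apply, sub, aeval_X, map_sum, AlgHom.id_apply]
    rw [Finset.sum_eq_single k₀]
    · rw [map_mul]
      show r (C _) * r (X _) = _
      rw [show r (X (e (i, k₀))) = C (((ω k₀ : 𝓞 K) : K)⁻¹) * X i by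
        simp [r]]
      rw [show r (C ((ω k₀ : 𝓞 K) : K)) = C ((ω k₀ : 𝓞 K) : K) by
        simp [r, MvPolynomial.algebraMap_eq]]
      rw [← mul_assoc, ← C_mul, mul_inv_cancel₀ hω, C_1, one_mul]
    · intro k _ hk
      rw [map_mul]
      rw [show r (X (e (i, k))) = 0 by simp [r, hk]]
      rw [mul_zero]
    · intro h1
      exact absurd (Finset.mem_univ _) h1
  intro hd
  apply h
  have h1 := map_dvd r hd
  have h2 : ∀ f, r (sub ω e f) = f := fun f => by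
    have := congrArg (fun g : MvPolynomial (Fin m) K →ₐ[K] MvPolynomial (Fin m) K => g f) hr
    exact this
  rwa [h2, h2] at h1

theorem sub_ne_zero (ω : Module.Basis ι ℤ (𝓞 K)) (e : Fin m × ι ≃ Fin s)
    {G : MvPolynomial (Fin m) K} (hG : G ≠ 0) : sub ω e G ≠ 0 := by
  intro h0
  by_cases h1 : (0 : MvPolynomial (Fin m) K) ∣ G
  · exact hG (zero_dvd_iff.1 h1)
  · exact sub_not_dvd ω e h1 (by rw [h0, map_zero])

theorem totalDegree_sub (ω : Module.Basis ι ℤ (𝓞 K)) (e : Fin m × ι ≃ Fin s)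
    (G : MvPolynomial (Fin m) K) : (sub ω e G).totalDegree ≤ G.totalDegree := by
  classical
  unfold sub
  rw [aeval_def, eval₂_eq]
  refine totalDegree_finsetSum_le fun w hw => ?_
  have h1 : (algebraMap K (MvPolynomial (Fin s) K) (coeff w G)).totalDegree = 0 := by
    rw [MvPolynomial.algebraMap_eq, totalDegree_C]
  refine (totalDegree_mul _ _).trans ?_
  rw [h1, zero_add]
  refine (totalDegree_finsetProd _ _).trans ?_
  refine le_trans (Finset.sum_le_sum (g := fun i => w i) fun i _ => ?_) (le_totalDegree hw)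
  refine (totalDegree_pow _ _).trans ?_
  have h2 : (∑ k, C ((ω k : 𝓞 K) : K) * X (e (i, k)) : MvPolynomial (Fin s) K).totalDegree ≤ 1 := by
    refine totalDegree_finsetSum_le fun k _ => ?_
    refine (totalDegree_mul _ _).trans ?_
    rw [totalDegree_C, zero_add, totalDegree_X]
  calc w i * _ ≤ w i * 1 := Nat.mul_le_mul_left _ h2
    _ = w i := mul_one _

/-- the coordinates -/
noncomputable def crds (ω : Module.Basis ι ℤ (𝓞 K)) (e : Fin m × ι ≃ Fin s) (x : Fin m → 𝓞 K) :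
    Fin s → ℤ := fun l => ω.repr (x (e.symm l).1) (e.symm l).2

theorem val_sub (ω : Module.Basis ι ℤ (𝓞 K)) (e : Fin m × ι ≃ Fin s) (x : Fin m → 𝓞 K)
    (F : MvPolynomial (Fin m) K) :
    val (crds ω e x) (sub ω e F) = eval (fun i => ((x i : 𝓞 K) : K)) F := by
  unfold val sub
  rw [aeval_def, ← coe_eval₂Hom, ← RingHom.comp_apply]
  have h1 : (eval fun j => ((crds ω e x j : ℤ) : K)).comp
      (eval₂Hom (algebraMap K (MvPolynomial (Fin s) K))
        fun i => ∑ k, C ((ω k : 𝓞 K) : K) * X (e (i, k))) =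
      eval (fun i => ((x i : 𝓞 K) : K)) := by
    refine MvPolynomial.ringHom_ext (fun r => ?_) (fun i => ?_)
    · rw [RingHom.comp_apply, coe_eval₂Hom, eval₂_C, MvPolynomial.algebraMap_eq, eval_C, eval_C]
    · rw [RingHom.comp_apply, coe_eval₂Hom, eval₂_X, map_sum, eval_X]
      have h2 := congrArg (fun z : 𝓞 K => (z : K)) (ω.sum_repr (x i))
      have h3 : ((∑ k, ω.repr (x i) k • ω k : 𝓞 K) : K) =
          ∑ k, ((ω k : 𝓞 K) : K) * ((ω.repr (x i) k : ℤ) : K) := by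
        rw [show ((∑ k, ω.repr (x i) k • ω k : 𝓞 K) : K) =
          algebraMap (𝓞 K) K (∑ k, ω.repr (x i) k • ω k) from rfl, map_sum]
        refine Finset.sum_congr rfl fun k _ => ?_
        rw [map_zsmul, zsmul_eq_mul, mul_comm]
      refine Eq.trans ?_ (h3.symm.trans h2)
      refine Finset.sum_congr rfl fun k _ => ?_
      rw [map_mul, eval_C, eval_X]
      unfold crds
      rw [Equiv.symm_apply_apply]
  rw [h1]

theorem crds_inj (ω : Module.Basis ι ℤ (𝓞 K)) (e : Fin m × ι ≃ Fin s) :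
    Function.Injective (crds ω e) := by
  intro x y hxy
  funext i
  apply ω.repr.injective
  ext k
  have h1 := congrFun hxy (e (i, k))
  unfold crds at h1
  rwa [Equiv.symm_apply_apply] at h1

/-- a general transfer -/
theorem transfer (ω : Module.Basis ι ℤ (𝓞 K)) (P : K → Prop) (Δ N : ℕ) (hN : 0 < N) (ε : ℝ)
    (H : ℕ) (hH : 1 ≤ H) (F G : MvPolynomial (Fin m) K) (hΔ : G.totalDegree ≤ Δ) (C₀ : ℝ)
    (hC₀ : 0 ≤ C₀) (e : Fin m × ι ≃ Fin (m * Module.finrank ℚ K))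
    (h : ∀ S : Set (Fin (m * Module.finrank ℚ K) → ℤ),
      (∀ u ∈ S, (∀ j, |u j| ≤ H) ∧ val u (sub ω e G) ≠ 0 ∧
        P (val u (sub ω e F) / val u (sub ω e G))) →
      S.Finite ∧ (S.ncard : ℝ) ≤ C₀ * (H : ℝ) ^ (((m * Module.finrank ℚ K : ℕ) : ℝ) - 1 +
        (Module.finrank ℚ K * (sub ω e G).totalDegree : ℕ) / N + ε)) :
    ∀ S : Set (Fin m → 𝓞 K), (∀ x ∈ S, (∀ i k, |ω.repr (x i) k| ≤ H) ∧
      eval (fun i => ((x i : 𝓞 K) : K)) G ≠ 0 ∧ P (eval (fun i => ((x i : 𝓞 K) : K)) F /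
        eval (fun i => ((x i : 𝓞 K) : K)) G)) →
      S.Finite ∧ (S.ncard : ℝ) ≤ C₀ * (H : ℝ) ^ ((m : ℝ) * Module.finrank ℚ K - 1 +
        (Module.finrank ℚ K * Δ : ℕ) / N + ε) := by
  intro S hS
  obtain ⟨h1, h2⟩ := h (crds ω e '' S) (by
    rintro _ ⟨x, hx, rfl⟩
    obtain ⟨h1, h2, h3⟩ := hS x hx
    refine ⟨fun j => h1 _ _, ?_, ?_⟩
    · rw [val_sub]; exact h2
    · rw [val_sub, val_sub]; exact h3)
  refine ⟨h1.of_finite_image (crds_inj ω e).injOn, ?_⟩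
  rw [Set.ncard_image_of_injective S (crds_inj ω e)] at h2
  refine h2.trans (mul_le_mul_of_nonneg_left ?_ hC₀)
  have hH1 : (1 : ℝ) ≤ H := by exact_mod_cast hH
  have hN' : (0 : ℝ) < N := by exact_mod_cast hN
  refine Real.rpow_le_rpow_of_exponent_le hH1 ?_
  have h3 : ((Module.finrank ℚ K * (sub ω e G).totalDegree : ℕ) : ℝ) ≤
      ((Module.finrank ℚ K * Δ : ℕ) : ℝ) := by
    exact_mod_cast Nat.mul_le_mul_left _ ((totalDegree_sub ω e G).trans hΔ)
  push_cast at h3 ⊢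
  have h4 := div_le_div_of_nonneg_right h3 hN'.le
  linarith

theorem exists_equiv (ω : Module.Basis ι ℤ (𝓞 K)) (m : ℕ) :
    Nonempty (Fin m × ι ≃ Fin (m * Module.finrank ℚ K)) := by
  classical
  refine ⟨Fintype.equivOfCardEq ?_⟩
  rw [Fintype.card_prod, Fintype.card_fin, Fintype.card_fin, ← RingOfIntegers.rank K,
    Module.finrank_eq_card_basis ω]

/-- algebraic integers as parameters -/
theorem mainA_OK (ω : Module.Basis ι ℤ (𝓞 K)) (F G : MvPolynomial (Fin m) K) (hG : G ≠ 0)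
    (hFG : ¬ G ∣ F) (n N : ℕ) (hN5 : 5 ≤ N)
    (hnN : n < N) (h8 : 8 * n < N ^ 2 - 1) (ε : ℝ) (hε : 0 < ε) :
    ∃ C : ℝ, 0 ≤ C ∧ ∀ H : ℕ, 1 ≤ H → ∀ S : Set (Fin m → 𝓞 K),
      (∀ x ∈ S, (∀ i k, |ω.repr (x i) k| ≤ H) ∧ eval (fun i => ((x i : 𝓞 K) : K)) G ≠ 0 ∧
        ∃ (L : Type) (_ : Field L) (_ : NumberField L)
        (_ : Algebra K L), Module.finrank ℚ L ≤ n ∧
          EJ L N (algebraMap K L (eval (fun i => ((x i : 𝓞 K) : K)) F /
            eval (fun i => ((x i : 𝓞 K) : K)) G))) →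
      S.Finite ∧ (S.ncard : ℝ) ≤ C * (H : ℝ) ^ ((m : ℝ) * Module.finrank ℚ K - 1 +
        (Module.finrank ℚ K * G.totalDegree : ℕ) / N + ε) := by
  obtain ⟨e⟩ := exists_equiv ω m
  obtain ⟨C, hC⟩ := mainA (sub ω e F) (sub ω e G) (sub_ne_zero ω e hG) (sub_not_dvd ω e hFG) n N
    hN5 hnN h8 ε hε
  refine ⟨|C|, abs_nonneg _, fun H hH S hS => ?_⟩
  refine transfer ω (fun j => ∃ (L : Type) (_ : Field L) (_ : NumberField L)
        (_ : Algebra K L), Module.finrank ℚ L ≤ n ∧ EJ L N (algebraMap K L j)) G.totalDegree N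
        (by omega) ε H hH F G le_rfl |C| (abs_nonneg _) e (fun S' hS' => ?_) S hS
  obtain ⟨h1, h2⟩ := hC H hH S' hS'
  exact ⟨h1, h2.trans (mul_le_mul_of_nonneg_right (le_abs_self _) (by positivity))⟩

/-- elements of `K` as parameters -/
theorem mainA_K (ω : Module.Basis ι ℤ (𝓞 K)) (F G : MvPolynomial (Fin m) K) (hG : G ≠ 0)
    (hFG : ∀ c : K, F ≠ C c * G) (n N : ℕ) (hN5 : 5 ≤ N)
    (hnN : n < N) (h8 : 8 * n < N ^ 2 - 1) (ε : ℝ) (hε : 0 < ε) :
    ∃ C : ℝ, 0 ≤ C ∧ ∀ H : ℕ, 1 ≤ H → ∀ S : Set (Fin m → K),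
      (∀ t ∈ S, (∃ x : Fin (m + 1) → 𝓞 K, x 0 ≠ 0 ∧ (∀ i k, |ω.repr (x i) k| ≤ H) ∧
          ∀ j, t j = (x j.succ : K) / (x 0 : K)) ∧ eval t G ≠ 0 ∧
        ∃ (L : Type) (_ : Field L) (_ : NumberField L)
        (_ : Algebra K L), Module.finrank ℚ L ≤ n ∧
          EJ L N (algebraMap K L (eval t F / eval t G))) →
      S.Finite ∧ (S.ncard : ℝ) ≤ C * (H : ℝ) ^ (((m : ℝ) + 1) * Module.finrank ℚ K - 1 +
        (Module.finrank ℚ K * max F.totalDegree G.totalDegree : ℕ) / N + ε) := by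
  classical
  set D := max F.totalDegree G.totalDegree with hD
  have hFD : F.totalDegree ≤ D := le_max_left _ _
  have hGD : G.totalDegree ≤ D := le_max_right _ _
  obtain ⟨C, hC0, hC⟩ := mainA_OK ω (hmg D F) (hmg D G) (hmg_ne_zero hGD hG)
    (hmg_not_dvd hFD hGD hG hFG) n N hN5 hnN h8 ε hε
  rw [deg_hmg hGD hG] at hC
  refine ⟨C, hC0, fun H hH S hS => ?_⟩
  have hx : ∀ t ∈ S, ∃ x : Fin (m + 1) → 𝓞 K, x 0 ≠ 0 ∧ (∀ i k, |ω.repr (x i) k| ≤ H) ∧
          ∀ j, t j = (x j.succ : K) / (x 0 : K) := fun t ht => (hS t ht).1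
  choose! f hf using hx
  obtain ⟨h1, h2⟩ := hC H hH (f '' S) (by
    rintro _ ⟨t, ht, rfl⟩
    obtain ⟨-, g1, L, iF, iN, iA, g2, g3⟩ := hS t ht
    obtain ⟨g4, g5, g6⟩ := hf t ht
    have g7 : ((f t 0 : 𝓞 K) : K) ≠ 0 := by exact_mod_cast g4
    have g8 : (fun j : Fin m => ((f t j.succ : 𝓞 K) : K) / ((f t 0 : 𝓞 K) : K)) = t := by
      funext j
      exact (g6 j).symm
    have g9 : ∀ {P : MvPolynomial (Fin m) K}, P.totalDegree ≤ D →
        eval (fun i => ((f t i : 𝓞 K) : K)) (hmg D P) = ((f t 0 : 𝓞 K) : K) ^ D * eval t P := by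
      intro P hP
      rw [hmg_eval hP _ g7, g8]
    have g10 : ((f t 0 : 𝓞 K) : K) ^ D ≠ 0 := pow_ne_zero _ g7
    refine ⟨g5, ?_, L, iF, iN, iA, g2, ?_⟩
    · rw [g9 hGD]
      exact mul_ne_zero g10 g1
    · rw [g9 hFD, g9 hGD, mul_div_mul_left _ _ g10]
      exact g3)
  have hinj : Set.InjOn f S := by
    intro t ht t' ht' he
    funext j
    rw [(hf t ht).2.2 j, (hf t' ht').2.2 j, he]
  refine ⟨h1.of_finite_image hinj, ?_⟩
  rw [Set.ncard_image_of_injOn hinj] at h2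
  push_cast at h2 ⊢
  exact h2

end Pool.Agent.X295.Gal
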