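import Pool.Agent.X295.LsA
import Pool.Agent.X295.GalK

/-!
The poles of the members of families with several parameters in a number field (helper file).
-/

set_option autoImplicit false

namespace Pool.Agent.X295.Gal

open MvPolynomial NumberField IsDedekindDomain

variable {K : Type} [Field K] [NumberField K] {m s : ℕ} {ι : Type} [Fintype ι]

/-- algebraic integers as parameters -/
theorem many_poles_OK (ω : Module.Basis ι ℤ (𝓞 K)) (F G : MvPolynomial (Fin m) K) (hG : G ≠ 0)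
    (hFG : ¬ G ∣ F) {δ : ℝ} (hδ : 0 < δ) : ∃ σ C : ℝ, 0 ≤ σ ∧ 0 ≤ C ∧ ∀ H : ℕ, 1 ≤ H →
    ∀ S : Set (Fin m → 𝓞 K), (∀ x ∈ S, (∀ i k, |ω.repr (x i) k| ≤ H) ∧
        eval (fun i => ((x i : 𝓞 K) : K)) G ≠ 0 ∧
        ¬ ManyPoles σ (eval (fun i => ((x i : 𝓞 K) : K)) F /
          eval (fun i => ((x i : 𝓞 K) : K)) G)) →
      S.Finite ∧ (S.ncard : ℝ) ≤ C * (H : ℝ) ^ ((m : ℝ) * Module.finrank ℚ K - 1 + δ) := by
  obtain ⟨e⟩ := exists_equiv ω m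
  obtain ⟨σ, C, hσ, hC0, hC⟩ := many_poles (sub ω e F) (sub ω e G) (sub_ne_zero ω e hG)
    (sub_not_dvd ω e hFG) hδ
  refine ⟨σ, C, hσ, hC0, fun H hH S hS => ?_⟩
  obtain ⟨h1, h2⟩ := hC H hH (crds ω e '' S) (by
    rintro _ ⟨x, hx, rfl⟩
    obtain ⟨h1, h2, h3⟩ := hS x hx
    refine ⟨fun j => h1 _ _, ?_, ?_⟩
    · rw [val_sub]; exact h2
    · rw [val_sub, val_sub]; exact h3)
  refine ⟨h1.of_finite_image (crds_inj ω e).injOn, ?_⟩
  rw [Set.ncard_image_of_injective S (crds_inj ω e)] at h2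
  push_cast at h2
  exact h2

/-- elements of `K` as parameters -/
theorem many_poles_K (ω : Module.Basis ι ℤ (𝓞 K)) (F G : MvPolynomial (Fin m) K) (hG : G ≠ 0)
    (hFG : ∀ c : K, F ≠ C c * G) {δ : ℝ} (hδ : 0 < δ) :
    ∃ σ C : ℝ, 0 ≤ σ ∧ 0 ≤ C ∧ ∀ H : ℕ, 1 ≤ H → ∀ S : Set (Fin m → K),
      (∀ t ∈ S, (∃ x : Fin (m + 1) → 𝓞 K, x 0 ≠ 0 ∧ (∀ i k, |ω.repr (x i) k| ≤ H) ∧
          ∀ j, t j = (x j.succ : K) / (x 0 : K)) ∧ eval t G ≠ 0 ∧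
        ¬ ManyPoles σ (eval t F / eval t G)) →
      S.Finite ∧ (S.ncard : ℝ) ≤
        C * (H : ℝ) ^ (((m : ℝ) + 1) * Module.finrank ℚ K - 1 + δ) := by
  classical
  set D := max F.totalDegree G.totalDegree with hD
  have hFD : F.totalDegree ≤ D := le_max_left _ _
  have hGD : G.totalDegree ≤ D := le_max_right _ _
  obtain ⟨σ, C, hσ, hC0, hC⟩ := many_poles_OK ω (hmg D F) (hmg D G) (hmg_ne_zero hGD hG)
    (hmg_not_dvd hFD hGD hG hFG) hδ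
  refine ⟨σ, C, hσ, hC0, fun H hH S hS => ?_⟩
  have hx : ∀ t ∈ S, ∃ x : Fin (m + 1) → 𝓞 K, x 0 ≠ 0 ∧ (∀ i k, |ω.repr (x i) k| ≤ H) ∧
          ∀ j, t j = (x j.succ : K) / (x 0 : K) := fun t ht => (hS t ht).1
  choose! f hf using hx
  obtain ⟨h1, h2⟩ := hC H hH (f '' S) (by
    rintro _ ⟨t, ht, rfl⟩
    obtain ⟨-, g1, g3⟩ := hS t ht
    obtain ⟨g4, g5, g6⟩ := hf t ht
    have g7 : ((f t 0 : 𝓞 K) : K) ≠ 0 := by exact_mod_cast g4
    have g8 : (fun j : Fin m => ((f t j.succ : 𝓞 K) : K) / ((f t 0 : 𝓞 K) : K)) = t := by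
      funext j
      exact (g6 j).symm
    have g9 : ∀ {P : MvPolynomial (Fin m) K}, P.totalDegree ≤ D →
        eval (fun i => ((f t i : 𝓞 K) : K)) (hmg D P) = ((f t 0 : 𝓞 K) : K) ^ D * eval t P := by
      intro P hP
      rw [hmg_eval hP _ g7, g8]
    have g10 : ((f t 0 : 𝓞 K) : K) ^ D ≠ 0 := pow_ne_zero _ g7
    refine ⟨g5, ?_, ?_⟩
    · rw [g9 hGD]
      exact mul_ne_zero g10 g1
    · rw [g9 hFD, g9 hGD, mul_div_mul_left _ _ g10]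
      exact g3)
  have hinj : Set.InjOn f S := by
    intro t ht t' ht' he
    funext j
    rw [(hf t ht).2.2 j, (hf t' ht').2.2 j, he]
  refine ⟨h1.of_finite_image hinj, ?_⟩
  rw [Set.ncard_image_of_injOn hinj] at h2
  push_cast at h2 ⊢
  exact h2

end Pool.Agent.X295.Gal
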