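import Pool.Agent.X295.GenMain

/-!
The generic point of a hypersurface of the space of parameters (helper file).
-/

set_option autoImplicit false
set_option linter.unusedSectionVars false

open Polynomial

namespace Pool.Agent.X295

open Pool.Agent.Y226

/-- The generic point of a prime divisor. -/
theorem exists_Omega' {k₀ R : Type} [Field k₀] [CharZero k₀] [CommRing R] [IsDomain R]
    (f : k₀ →+* R) (h : R) (hp : Prime h) :
    ∃ (Ω : Type) (_ : Field Ω) (_ : IsAlgClosed Ω) (_ : CharZero Ω)
      (e : R →+* Ω), (∀ P, e P = 0 ↔ h ∣ P) ∧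
      ∀ s : Ω, ∃ P : Polynomial R, (P.map e).eval s = 0 ∧ e P.leadingCoeff ≠ 0 := by
  classical
  have hI : (Ideal.span {h}).IsPrime := (Ideal.span_singleton_prime hp.ne_zero).2 hp
  let e : R →+* AlgebraicClosure (FractionRing (R ⧸ Ideal.span {h})) :=
    (algebraMap (FractionRing (R ⧸ Ideal.span {h}))
      (AlgebraicClosure (FractionRing (R ⧸ Ideal.span {h})))).comp
      ((algebraMap (R ⧸ Ideal.span {h}) (FractionRing (R ⧸ Ideal.span {h}))).comp
        (Ideal.Quotient.mk (Ideal.span {h})))
  have he : ∀ P, e P = 0 ↔ h ∣ P := by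
    intro P
    have h1 : e P = 0 ↔ algebraMap (R ⧸ Ideal.span {h}) (FractionRing (R ⧸ Ideal.span {h}))
        (Ideal.Quotient.mk (Ideal.span {h}) P) = 0 :=
      map_eq_zero (algebraMap (FractionRing (R ⧸ Ideal.span {h}))
        (AlgebraicClosure (FractionRing (R ⧸ Ideal.span {h}))))
    rw [h1, IsFractionRing.to_map_eq_zero_iff, Ideal.Quotient.eq_zero_iff_mem,
      Ideal.mem_span_singleton]
  have hch : CharZero (AlgebraicClosure (FractionRing (R ⧸ Ideal.span {h}))) :=
    charZero_of_injective_ringHom (f := e.comp f) (RingHom.injective _)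
  refine ⟨AlgebraicClosure (FractionRing (R ⧸ Ideal.span {h})), inferInstance, inferInstance,
    hch, e, he, ?_⟩
  intro s
  have h1 : IsAlgebraic (FractionRing (R ⧸ Ideal.span {h})) s :=
    Algebra.IsAlgebraic.isAlgebraic s
  have h2 : IsAlgebraic (R ⧸ Ideal.span {h}) s := by
    rwa [IsFractionRing.isAlgebraic_iff (R ⧸ Ideal.span {h}) (FractionRing (R ⧸ Ideal.span {h}))]
  obtain ⟨P, hP, hPs⟩ := h2
  have hsurj : Function.Surjective (Ideal.Quotient.mk (Ideal.span {h})) :=
    Ideal.Quotient.mk_surjective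
  choose c hc using fun n => hsurj (P.coeff n)
  let P' : Polynomial R := ∑ n ∈ Finset.range (P.natDegree + 1), C (c n) * X ^ n
  have hco : ∀ n, n ≤ P.natDegree → P'.coeff n = c n := by
    intro n hn
    simp only [P', Polynomial.finsetSum_coeff, Polynomial.coeff_C_mul, Polynomial.coeff_X_pow]
    rw [Finset.sum_eq_single n]
    · simp
    · intro m _ hmn
      rw [if_neg hmn.symm, mul_zero]
    · intro hn'
      exact absurd (Finset.mem_range.2 (by omega)) hn'
  have hmap : P'.map (Ideal.Quotient.mk (Ideal.span {h})) = P := by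
    show (∑ n ∈ Finset.range (P.natDegree + 1), C (c n) * X ^ n).map _ = P
    rw [Polynomial.map_sum]
    conv_rhs => rw [P.as_sum_range_C_mul_X_pow]
    refine Finset.sum_congr rfl fun n _ => ?_
    rw [Polynomial.map_mul, Polynomial.map_C, Polynomial.map_pow, Polynomial.map_X, hc]
  have hdeg : P'.natDegree = P.natDegree := by
    refine le_antisymm ?_ ?_
    · refine Polynomial.natDegree_sum_le_of_forall_le _ _ fun n hn => ?_
      rw [Finset.mem_range] at hn
      exact (Polynomial.natDegree_C_mul_X_pow_le _ _).trans (by omega)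
    · rw [← hmap]
      exact (Polynomial.natDegree_map_le).trans le_rfl
  have hlc : Ideal.Quotient.mk (Ideal.span {h}) P'.leadingCoeff = P.leadingCoeff := by
    rw [Polynomial.leadingCoeff, hdeg, hco _ le_rfl, hc]
    rfl
  refine ⟨P', ?_, ?_⟩
  · have h3 : P'.map e = (P.map (algebraMap (R ⧸ Ideal.span {h})
        (FractionRing (R ⧸ Ideal.span {h})))).map (algebraMap _ _) := by
      rw [← hmap, Polynomial.map_map, Polynomial.map_map]
      rfl
    rw [h3, Polynomial.map_map, Polynomial.eval_map]
    exact hPs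
  · rw [Ne, he, ← Ideal.mem_span_singleton, ← Ideal.Quotient.eq_zero_iff_mem, hlc,
      Polynomial.leadingCoeff_eq_zero]
    exact hP

/-- The generic point of the hypersurface `h = 0`. -/
theorem exists_Omega {q : ℕ} (h : MvPolynomial (Fin q) QA) (hp : Prime h) :
    ∃ (Ω : Type) (_ : Field Ω) (_ : IsAlgClosed Ω) (_ : CharZero Ω)
      (e : MvPolynomial (Fin q) QA →+* Ω), (∀ P, e P = 0 ↔ h ∣ P) ∧
      ∀ s : Ω, ∃ P : Polynomial (MvPolynomial (Fin q) QA), (P.map e).eval s = 0 ∧
        e P.leadingCoeff ≠ 0 :=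
  exists_Omega' (k₀ := QA) MvPolynomial.C h hp

end Pool.Agent.X295
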