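import Pool.Agent.X295.GenMain

/-!
Projections of special subvarieties of codimension at least `c` of `Y(1)^n` to at most `2 c`
coordinates (helper file).
-/

set_option autoImplicit false

open UpperHalfPlane H294ZP

namespace Pool.Agent.X295

open Pool.Agent.Y226.ZM

/-- At most `2 c` coordinates witness that the codimension is at least `c`. -/
theorem exists_witness {n r c : ℕ} (cls : Fin n → Option (Fin r)) (hrc : r + c ≤ n) :
    ∃ s : Finset (Fin n), s.card ≤ 2 * c ∧ ∀ (m : ℕ) (σ : Fin m → Fin n),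
      Function.Injective σ → (∀ i ∈ s, ∃ t, σ t = i) →
      (Finset.univ.filter fun l => ∃ t, cls (σ t) = some l).card + c ≤ m := by
  classical
  -- a section
  have hsec : ∀ l : Fin r, ∃ i : Option (Fin n), (∃ i', cls i' = some l) →
      ∃ i', i = some i' ∧ cls i' = some l := by
    intro l
    by_cases h : ∃ i', cls i' = some l
    · exact ⟨some h.choose, fun _ => ⟨_, rfl, h.choose_spec⟩⟩
    · exact ⟨none, fun h' => absurd h' h⟩
  choose g hg using hsec
  let G : Finset (Fin n) := Finset.univ.filter fun i => ∃ l, g l = some i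
  have hG : G.card ≤ r := by
    have h1 : G.image (fun i => (some i : Option (Fin n))) ⊆ Finset.univ.image g := by
      intro x hx
      obtain ⟨i, hi, rfl⟩ := Finset.mem_image.1 hx
      obtain ⟨l, hl⟩ := (Finset.mem_filter.1 hi).2
      exact Finset.mem_image.2 ⟨l, Finset.mem_univ l, hl⟩
    have h2 := Finset.card_le_card h1
    rw [Finset.card_image_of_injective _ (Option.some_injective _)] at h2
    exact h2.trans (Finset.card_image_le.trans (by rw [Finset.card_univ, Fintype.card_fin]))
  have hGc : c ≤ Gᶜ.card := by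
    rw [Finset.card_compl, Fintype.card_fin]
    omega
  obtain ⟨E, hE, hEc⟩ := Finset.exists_subset_card_eq hGc
  let f : Fin n → Fin n := fun i => ((cls i).bind g).getD i
  refine ⟨E ∪ E.image f, ?_, ?_⟩
  · refine (Finset.card_union_le _ _).trans ?_
    have := Finset.card_image_le (s := E) (f := f)
    omega
  intro m σ hσ hs
  let R : Finset (Fin r) := Finset.univ.filter fun l => ∃ t, cls (σ t) = some l
  let T : Finset (Fin m) := Finset.univ.filter fun t => σ t ∈ E
  have hT : T.card = c := by
    rw [← hEc, ← Finset.card_image_of_injective T hσ]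
    congr 1
    ext i
    constructor
    · intro hi
      obtain ⟨t, ht, rfl⟩ := Finset.mem_image.1 hi
      exact (Finset.mem_filter.1 ht).2
    · intro hi
      obtain ⟨t, rfl⟩ := hs i (Finset.mem_union_left _ hi)
      exact Finset.mem_image.2 ⟨t, Finset.mem_filter.2 ⟨Finset.mem_univ _, hi⟩, rfl⟩
  have hsec2 : ∀ l ∈ R, ∃ t : Fin m, cls (σ t) = some l ∧ (∀ i, g l = some i →
      (∃ t', σ t' = i) → σ t = i) := by
    intro l hl
    obtain ⟨t₀, ht₀⟩ := (Finset.mem_filter.1 hl).2
    obtain ⟨i, hi, hci⟩ := hg l ⟨σ t₀, ht₀⟩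
    by_cases h : ∃ t', σ t' = i
    · obtain ⟨t', ht'⟩ := h
      refine ⟨t', by rw [ht', hci], fun i' hi' _ => ?_⟩
      rw [hi] at hi'
      rw [ht']
      exact Option.some_injective _ hi'
    · refine ⟨t₀, ht₀, fun i' hi' h' => ?_⟩
      rw [hi] at hi'
      rw [Option.some_injective _ hi'] at h
      exact absurd h' h
  choose g' hg' using fun l : R => hsec2 l.1 l.2
  have hinj : Function.Injective g' := by
    intro l l' hll
    have h1 := (hg' l).1
    rw [hll, (hg' l').1] at h1
    exact Subtype.ext (Option.some_injective _ h1).symm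
  have hdisj : Disjoint (Finset.univ.image g') T := by
    rw [Finset.disjoint_left]
    intro t ht htT
    obtain ⟨l, -, rfl⟩ := Finset.mem_image.1 ht
    obtain ⟨h1, h2⟩ := hg' l
    have h3 : σ (g' l) ∈ E := (Finset.mem_filter.1 htT).2
    obtain ⟨i, hi, hci⟩ := hg l ⟨σ (g' l), h1⟩
    have h4 : f (σ (g' l)) = i := by
      show ((cls (σ (g' l))).bind g).getD _ = i
      rw [h1, Option.bind_some, hi, Option.getD_some]
    obtain ⟨t', ht'⟩ := hs i (Finset.mem_union_right _ (Finset.mem_image.2 ⟨_, h3, h4⟩))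
    have h5 := h2 i hi ⟨t', ht'⟩
    have h6 := hE h3
    rw [Finset.mem_compl] at h6
    exact h6 (Finset.mem_filter.2 ⟨Finset.mem_univ _, l, by rw [h5, hi]⟩)
  have h1 : (Finset.univ.image g' ∪ T).card ≤ m :=
    (Finset.card_le_univ _).trans (by rw [Fintype.card_fin])
  rw [Finset.card_union_of_disjoint hdisj, Finset.card_image_of_injective _ hinj, hT,
    Finset.card_univ, Fintype.card_coe] at h1
  exact h1

/-- The projection of a special subvariety. -/
theorem SV_proj {Γ : Set ℂ} {n r m c : ℕ} (Z : SV Γ n r) (σ : Fin m → Fin n)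
    (hm : (Finset.univ.filter fun l => ∃ t, Z.cls (σ t) = some l).card + c ≤ m) :
    ∃ (r' : ℕ) (Z' : SV Γ m r'), r' + c ≤ m ∧ ∀ x ∈ Z.locus, (fun t => x (σ t)) ∈ Z'.locus := by
  classical
  let R : Finset (Fin r) := Finset.univ.filter fun l => ∃ t, Z.cls (σ t) = some l
  let F : Fin r → Option (Fin R.card) := fun l => if h : l ∈ R then some (R.equivFin ⟨l, h⟩) else none
  refine ⟨R.card, ⟨fun t => (Z.cls (σ t)).bind F, fun t => Z.mat (σ t), fun t => Z.det_pos _,
    fun t => Z.const (σ t), fun t => Z.int _⟩, hm, ?_⟩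
  rintro x ⟨z, hz⟩
  refine ⟨fun l' => z (R.equivFin.symm l').1, fun t => ⟨fun h => ?_, fun l' h => ?_⟩⟩
  · refine (hz (σ t)).1 ?_
    rcases hc : Z.cls (σ t) with _ | l
    · rfl
    · exfalso
      have hl : l ∈ R := Finset.mem_filter.2 ⟨Finset.mem_univ _, t, hc⟩
      have h' : (Z.cls (σ t)).bind F = none := h
      rw [hc, Option.bind_some] at h'
      simp only [F, dif_pos hl] at h'
      exact absurd h' (by simp)
  · have h' : (Z.cls (σ t)).bind F = some l' := h
    rcases hc : Z.cls (σ t) with _ | l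
    · rw [hc] at h'
      exact absurd h' (by simp)
    · have hl : l ∈ R := Finset.mem_filter.2 ⟨Finset.mem_univ _, t, hc⟩
      rw [hc, Option.bind_some] at h'
      simp only [F, dif_pos hl] at h'
      have h2 := Option.some_injective _ h'
      have h3 : z (R.equivFin.symm l').1 = z l := by
        rw [← h2, Equiv.symm_apply_apply]
      have h4 := (hz (σ t)).2 l hc
      rw [← h3] at h4
      exact h4

/-- A special subvariety of codimension at least `c`, and its projections. -/
theorem SV_witness {Γ : Set ℂ} {n r c : ℕ} (Z : SV Γ n r) (hrc : r + c ≤ n) :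
    ∃ s : Finset (Fin n), s.card ≤ 2 * c ∧ ∀ (m : ℕ) (σ : Fin m → Fin n),
      Function.Injective σ → (∀ i ∈ s, ∃ t, σ t = i) →
      ∃ (r' : ℕ) (Z' : SV Γ m r'), r' + c ≤ m ∧
        ∀ x ∈ Z.locus, (fun t => x (σ t)) ∈ Z'.locus := by
  obtain ⟨s, hs, h⟩ := exists_witness Z.cls hrc
  exact ⟨s, hs, fun m σ hσ h1 => SV_proj Z σ (h m σ hσ h1)⟩

end Pool.Agent.X295
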