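import Mathlib

/-!
Elimination of one variable (helper file).
-/

set_option autoImplicit false

namespace Pool.Agent.X295

open MvPolynomial

/-- A polynomial as a polynomial in the variable `j0`. -/
noncomputable def asPoly {q : ℕ} (j0 : Fin q) (h : MvPolynomial (Fin q) ℤ) :
    Polynomial (MvPolynomial {j : Fin q // j ≠ j0} ℤ) :=
  optionEquivLeft ℤ {j : Fin q // j ≠ j0} (rename (Equiv.optionSubtypeNe j0).symm h)

theorem asPoly_ne_zero {q : ℕ} (j0 : Fin q) {h : MvPolynomial (Fin q) ℤ} (hh : h ≠ 0) :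
    asPoly j0 h ≠ 0 := by
  intro h0
  apply hh
  have h1 := (optionEquivLeft ℤ {j : Fin q // j ≠ j0}).injective (h0.trans (map_zero _).symm)
  exact rename_injective _ (Equiv.injective _) (h1.trans (map_zero _).symm)

/-- the value -/
theorem eval_asPoly {q : ℕ} (j0 : Fin q) (h : MvPolynomial (Fin q) ℤ) {R : Type} [CommRing R]
    (φ : MvPolynomial {j : Fin q // j ≠ j0} ℤ →+* R) (u : Fin q → R)
    (hφ : ∀ j : {j : Fin q // j ≠ j0}, φ (X j) = u j) :
    Polynomial.eval₂ φ (u j0) (asPoly j0 h) = aeval u h := by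
  have h1 : (Polynomial.eval₂RingHom φ (u j0)).comp
      ((optionEquivLeft ℤ {j : Fin q // j ≠ j0}).toRingEquiv.toRingHom.comp
        (rename (Equiv.optionSubtypeNe j0).symm : MvPolynomial (Fin q) ℤ →ₐ[ℤ] _).toRingHom) =
      (aeval u : MvPolynomial (Fin q) ℤ →ₐ[ℤ] R).toRingHom := by
    refine MvPolynomial.ringHom_ext (fun r => ?_) (fun j => ?_)
    · simp
    · by_cases hj : j = j0
      · subst hj
        simp [optionEquivLeft_X_none]
      · simp [Equiv.optionSubtypeNe_symm_of_ne hj, optionEquivLeft_X_some, hφ ⟨j, hj⟩]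
  exact congrArg (fun f : MvPolynomial (Fin q) ℤ →+* R => f h) h1

theorem alg_all {k : Type} [Field k] [CharZero k] [Algebra.IsAlgebraic ℚ k] {q : ℕ}
    (h : MvPolynomial (Fin q) ℤ) (hh0 : h ≠ 0) {R : Type} [CommRing R] [IsDomain R]
    (π : MvPolynomial (Fin q) k →+* R) (hπ : π (MvPolynomial.map (Int.castRingHom k) h) = 0)
    (j0 : Fin q) (φ : MvPolynomial {j : Fin q // j ≠ j0} ℤ →+* R)
    (hφ : ∀ j : {j : Fin q // j ≠ j0}, φ (X j) = π (X j)) (P : MvPolynomial (Fin q) k) :
    ∃ p : Polynomial (MvPolynomial {j : Fin q // j ≠ j0} ℤ), p ≠ 0 ∧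
      Polynomial.eval₂ φ (π P) p = 0 := by
  classical
  let B := MvPolynomial {j : Fin q // j ≠ j0} ℤ
  letI : Algebra B R := φ.toAlgebra
  let S : Subalgebra B R := Subalgebra.algebraicClosure B R
  have hC : ∀ a : k, π (C a) ∈ S := by
    intro a
    obtain ⟨p, hp0, hp⟩ := (IsFractionRing.isAlgebraic_iff ℤ ℚ k).2
      (Algebra.IsAlgebraic.isAlgebraic a)
    refine ⟨p.map (Int.castRingHom B), ?_, ?_⟩
    · rw [Ne, Polynomial.map_eq_zero_iff (RingHom.injective_int (Int.castRingHom B))]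
      exact hp0
    · rw [Polynomial.aeval_def, Polynomial.eval₂_map]
      have h1 : (algebraMap B R).comp (Int.castRingHom B) = (π.comp C).comp (algebraMap ℤ k) :=
        RingHom.ext_int _ _
      rw [h1]
      have h2 := Polynomial.hom_eval₂ p (algebraMap ℤ k) (π.comp C) a
      rw [Polynomial.aeval_def] at hp
      rw [hp, map_zero] at h2
      exact h2.symm
  have hX : ∀ j, π (X j) ∈ S := by
    intro j
    by_cases hj : j = j0
    · subst hj
      refine ⟨asPoly j h, asPoly_ne_zero j hh0, ?_⟩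
      have h1 := eval_asPoly j h φ (fun j => π (X j)) hφ
      rw [Polynomial.aeval_def]
      refine h1.trans ?_
      have h3 : (aeval (fun j => π (X j)) : MvPolynomial (Fin q) ℤ →ₐ[ℤ] R).toRingHom =
          π.comp (MvPolynomial.map (Int.castRingHom k)) := by
        refine MvPolynomial.ringHom_ext (fun r => ?_) (fun j => ?_)
        · simp
        · simp
      exact (congrArg (fun f : MvPolynomial (Fin q) ℤ →+* R => f h) h3).trans hπ
    · have h1 : π (X j) = algebraMap B R (X ⟨j, hj⟩) := (hφ ⟨j, hj⟩).symm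
      rw [h1]
      exact isAlgebraic_algebraMap _
  have hall : ∀ P : MvPolynomial (Fin q) k, π P ∈ S := by
    intro P
    induction P using MvPolynomial.induction_on with
    | C a => exact hC a
    | add P Q hP hQ => rw [map_add]; exact S.add_mem hP hQ
    | mul_X P j hP => rw [map_mul]; exact S.mul_mem hP (hX j)
  obtain ⟨p, hp0, hp⟩ := hall P
  exact ⟨p, hp0, hp⟩

theorem elim {k : Type} [Field k] [CharZero k] [Algebra.IsAlgebraic ℚ k] {q : ℕ}
    (h : MvPolynomial (Fin q) ℤ) (hp : Prime (MvPolynomial.map (Int.castRingHom k) h))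
    (Δ : MvPolynomial (Fin q) k) (hΔ : ¬ MvPolynomial.map (Int.castRingHom k) h ∣ Δ)
    (j0 : Fin q) :
    ∃ ρ : MvPolynomial {j : Fin q // j ≠ j0} ℤ, ρ ≠ 0 ∧ ∃ α β : MvPolynomial (Fin q) k,
      MvPolynomial.map (Int.castRingHom k) (rename Subtype.val ρ) =
        α * MvPolynomial.map (Int.castRingHom k) h + β * Δ := by
  classical
  set hk := MvPolynomial.map (Int.castRingHom k) h with hhk
  let I : Ideal (MvPolynomial (Fin q) k) := Ideal.span {hk}
  have hI : I.IsPrime := (Ideal.span_singleton_prime hp.ne_zero).2 hp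
  let R := MvPolynomial (Fin q) k ⧸ I
  let B := MvPolynomial {j : Fin q // j ≠ j0} ℤ
  let π : MvPolynomial (Fin q) k →+* R := Ideal.Quotient.mk I
  let φ : B →+* R := (π.comp (MvPolynomial.map (Int.castRingHom k))).comp
    (rename Subtype.val : B →ₐ[ℤ] MvPolynomial (Fin q) ℤ).toRingHom
  let _ : Algebra B R := φ.toAlgebra
  have hφdef : ∀ P : B, φ P = π (MvPolynomial.map (Int.castRingHom k) (rename Subtype.val P)) :=
    fun P => rfl
  have hh0 : h ≠ 0 := by
    intro h0
    apply hp.ne_zero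
    rw [hhk, h0, map_zero]
  obtain ⟨p, hp0, hpe⟩ := alg_all h hh0 π
    (Ideal.Quotient.eq_zero_iff_mem.2 (Ideal.mem_span_singleton_self hk)) j0 φ
    (fun j => by rw [hφdef, rename_X, MvPolynomial.map_X]) Δ
  have h1 : IsAlgebraic B (π Δ) := ⟨p, hp0, hpe⟩
  have h2 : π Δ ≠ 0 := by
    intro h0
    apply hΔ
    exact Ideal.mem_span_singleton.1 (Ideal.Quotient.eq_zero_iff_mem.1 h0)
  obtain ⟨ρ, hρ, w, hw⟩ := h1.exists_nonzero_dvd (mem_nonZeroDivisors_of_ne_zero h2)
  obtain ⟨β, rfl⟩ := Ideal.Quotient.mk_surjective w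
  refine ⟨ρ, hρ, ?_⟩
  have h3 : π (MvPolynomial.map (Int.castRingHom k) (rename Subtype.val ρ) - β * Δ) = 0 := by
    rw [map_sub, map_mul, mul_comm (π β)]
    have h4 : π (MvPolynomial.map (Int.castRingHom k) (rename Subtype.val ρ)) =
        π Δ * π β := hw
    rw [h4, sub_self]
  obtain ⟨α, hα⟩ := Ideal.mem_span_singleton.1 (Ideal.Quotient.eq_zero_iff_mem.1 h3)
  refine ⟨α, β, ?_⟩
  rw [mul_comm α, ← hα]
  ring

end Pool.Agent.X295
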