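import Pool.Agent.X295.Cnt
import Pool.Agent.X295.Elim

/-!
Counting integral vectors at which a polynomial has no suitable prime factor (helper file).
-/

set_option autoImplicit false

namespace Pool.Agent.X295

open MvPolynomial

theorem poly_bound {σ : Type} (P : MvPolynomial σ ℤ) : ∃ A a : ℕ, ∀ H : ℕ, 1 ≤ H →
    ∀ u : σ → ℤ, (∀ i, |u i| ≤ H) → |eval u P| ≤ A * (H : ℤ) ^ a := by
  induction P using MvPolynomial.induction_on with
  | C c =>
    refine ⟨c.natAbs, 0, fun H _ u _ => ?_⟩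
    rw [eval_C, pow_zero, mul_one, Int.natCast_natAbs]
  | add P Q hP hQ =>
    obtain ⟨A, a, h1⟩ := hP
    obtain ⟨B, b, h2⟩ := hQ
    refine ⟨A + B, a + b, fun H hH u hu => ?_⟩
    have hH' : (1 : ℤ) ≤ H := by exact_mod_cast hH
    rw [map_add]
    calc |eval u P + eval u Q| ≤ |eval u P| + |eval u Q| := abs_add_le _ _
      _ ≤ A * (H : ℤ) ^ a + B * (H : ℤ) ^ b := add_le_add (h1 H hH u hu) (h2 H hH u hu)
      _ ≤ A * (H : ℤ) ^ (a + b) + B * (H : ℤ) ^ (a + b) := by
        refine add_le_add (mul_le_mul_of_nonneg_left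
          (pow_le_pow_right₀ hH' (Nat.le_add_right _ _)) (by positivity))
          (mul_le_mul_of_nonneg_left
          (pow_le_pow_right₀ hH' (Nat.le_add_left _ _)) (by positivity))
      _ = ((A + B : ℕ) : ℤ) * (H : ℤ) ^ (a + b) := by push_cast; ring
  | mul_X P i hP =>
    obtain ⟨A, a, h1⟩ := hP
    refine ⟨A, a + 1, fun H hH u hu => ?_⟩
    rw [map_mul, eval_X, abs_mul, pow_succ, ← mul_assoc]
    exact mul_le_mul (h1 H hH u hu) (hu i) (abs_nonneg _) (by positivity)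

/-- the box -/
noncomputable def box (q : ℕ) (H : ℕ) : Finset (Fin q → ℤ) :=
  Fintype.piFinset fun _ => Finset.Icc (-(H : ℤ)) H

theorem mem_box {q H : ℕ} {u : Fin q → ℤ} : u ∈ box q H ↔ ∀ i, |u i| ≤ H := by
  simp [box, abs_le]

theorem card_Icc (H : ℕ) : (Finset.Icc (-(H : ℤ)) H).card = 2 * H + 1 := by
  rw [Int.card_Icc]
  omega

open Classical in
/-- zeros in the box -/
theorem zeros {q : ℕ} (hq : 0 < q) {P : MvPolynomial (Fin q) ℤ} (hP : P ≠ 0) (H : ℕ) :
    ((box q H).filter fun u => eval u P = 0).card ≤ P.totalDegree * (2 * H + 1) ^ (q - 1) := by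
  have h := schwartz_zippel_totalDegree hP (Finset.Icc (-(H : ℤ)) H)
  rw [card_Icc] at h
  have hpos : (0 : NNRat) < ((2 * H + 1 : ℕ) : NNRat) := by positivity
  have hq' : q = q - 1 + 1 := by omega
  have h2 : (((box q H).filter fun u => eval u P = 0).card : NNRat) ≤
      P.totalDegree * ((2 * H + 1 : ℕ) : NNRat) ^ (q - 1) := by
    rw [div_le_div_iff₀ (by positivity) hpos] at h
    have h3 : (((box q H).filter fun u => eval u P = 0).card : NNRat) *
        ((2 * H + 1 : ℕ) : NNRat) ≤ (P.totalDegree * ((2 * H + 1 : ℕ) : NNRat) ^ (q - 1)) *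
        ((2 * H + 1 : ℕ) : NNRat) := by
      have h5 : ((2 * H + 1 : ℕ) : NNRat) ^ q = ((2 * H + 1 : ℕ) : NNRat) ^ (q - 1) *
          ((2 * H + 1 : ℕ) : NNRat) := by
        rw [← pow_succ, Nat.sub_add_cancel hq]
      rw [h5, ← mul_assoc] at h
      refine le_trans (le_of_eq ?_) h
      congr 2
    exact le_of_mul_le_mul_right h3 hpos
  exact_mod_cast h2

/-- `h` has a large prime factor at `u` which is not a divisor of `ρ` -/
def Good {q : ℕ} (h ρ : MvPolynomial (Fin q) ℤ) (D : ℕ) (u : Fin q → ℤ) : Prop :=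
  eval u h ≠ 0 ∧ ∃ p : ℕ, p.Prime ∧ D < p ∧ (p : ℤ) ∣ eval u h ∧ ¬ (p : ℤ) ∣ eval u ρ

/-- the values of the polynomial on lines parallel to the axis `j0` -/
theorem eval_line {q : ℕ} (j0 : Fin q) (h : MvPolynomial (Fin q) ℤ) (u : Fin q → ℤ) :
    ((asPoly j0 h).map (eval fun j : {j : Fin q // j ≠ j0} => u j)).eval (u j0) = eval u h := by
  rw [Polynomial.eval_map]
  have h1 := eval_asPoly j0 h (eval fun j : {j : Fin q // j ≠ j0} => u j) u (fun j => by simp)
  rw [h1, MvPolynomial.aeval_eq_eval]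

open Classical in
/-- vectors on one line -/
theorem line_count {q : ℕ} (j0 : Fin q) (h : MvPolynomial (Fin q) ℤ)
    (hd : 0 < (asPoly j0 h).natDegree) (w : {j : Fin q // j ≠ j0} → ℤ)
    (hw : eval w (asPoly j0 h).leadingCoeff ≠ 0) (N X : ℕ)
    (T : Finset (Fin q → ℤ)) (hT : ∀ u ∈ T, (∀ j : {j : Fin q // j ≠ j0}, u j = w j) ∧
      (eval u h = 0 ∨ (|eval u h| ≤ X ∧ ∀ p : ℕ, p.Prime → (p : ℤ) ∣ eval u h → p ∣ N))) :
    T.card ≤ (asPoly j0 h).natDegree *
      (1 + 2 * ((Finset.Icc 1 X).filter fun v => ∀ p : ℕ, p.Prime → p ∣ v → p ∣ N).card) := by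
  set d := (asPoly j0 h).natDegree with hdd
  set Vs := (Finset.Icc 1 X).filter fun v => ∀ p : ℕ, p.Prime → p ∣ v → p ∣ N with hVs
  let f : (Fin q → ℤ) → ℤ := fun u => eval u h
  let P : Polynomial ℤ := (asPoly j0 h).map (eval w)
  have hPd : P.natDegree = d := by
    refine Polynomial.natDegree_map_of_leadingCoeff_ne_zero _ hw
  have hline : ∀ u ∈ T, P.eval (u j0) = eval u h := by
    intro u hu
    have h1 := (hT u hu).1
    have h2 : (fun j : {j : Fin q // j ≠ j0} => u j) = w := funext h1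
    rw [← eval_line j0 h u, h2]
  have hfib : ∀ a ∈ T.image f, (T.filter fun u => f u = a).card ≤ d := by
    intro a ha
    let Q : Polynomial ℤ := P - Polynomial.C a
    have hQd : Q.natDegree = d := by
      rw [Polynomial.natDegree_sub_C, hPd]
    have hQ0 : Q ≠ 0 := by
      intro h0
      rw [h0, Polynomial.natDegree_zero] at hQd
      omega
    have h1 : (T.filter fun u => f u = a).card ≤ Q.roots.toFinset.card := by
      refine Finset.card_le_card_of_injOn (fun u => u j0) (fun u hu => ?_) ?_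
      · have hu' := Finset.mem_filter.1 (Finset.mem_coe.1 hu)
        rw [Finset.mem_coe, Multiset.mem_toFinset, Polynomial.mem_roots hQ0, Polynomial.IsRoot.def,
          Polynomial.eval_sub, Polynomial.eval_C, hline u hu'.1]
        have : eval u h = a := hu'.2
        rw [this, sub_self]
      · intro u hu v hv huv
        have hu' := Finset.mem_filter.1 (Finset.mem_coe.1 hu)
        have hv' := Finset.mem_filter.1 (Finset.mem_coe.1 hv)
        funext j
        by_cases hj : j = j0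
        · rw [hj]; exact huv
        · exact ((hT u hu'.1).1 ⟨j, hj⟩).trans ((hT v hv'.1).1 ⟨j, hj⟩).symm
    calc _ ≤ Q.roots.toFinset.card := h1
      _ ≤ Multiset.card Q.roots := Multiset.toFinset_card_le _
      _ ≤ Q.natDegree := Polynomial.card_roots' Q
      _ = d := hQd
  refine (Finset.card_le_mul_card_image T d hfib).trans ?_
  refine Nat.mul_le_mul_left d ?_
  have hsub : T.image f ⊆ insert 0 ((Vs.image fun v : ℕ => (v : ℤ)) ∪ (Vs.image fun v : ℕ => -(v : ℤ))) := by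
    intro a ha
    obtain ⟨u, hu, rfl⟩ := Finset.mem_image.1 ha
    rcases (hT u hu).2 with h0 | ⟨h1, h2⟩
    · exact Finset.mem_insert.2 (Or.inl h0)
    by_cases h0 : eval u h = 0
    · exact Finset.mem_insert.2 (Or.inl h0)
    have hmem : (eval u h).natAbs ∈ Vs := by
      rw [hVs, Finset.mem_filter, Finset.mem_Icc]
      refine ⟨⟨Int.natAbs_pos.2 h0, ?_⟩, fun p hp hpd => h2 p hp (Int.natCast_dvd.2 hpd)⟩
      have : ((eval u h).natAbs : ℤ) ≤ X := by
        rw [Int.natCast_natAbs]; exact h1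
      exact_mod_cast this
    rw [Finset.mem_insert, Finset.mem_union]
    right
    rcases Int.natAbs_eq (eval u h) with h4 | h4
    · left
      exact Finset.mem_image.2 ⟨_, hmem, h4.symm⟩
    · right
      exact Finset.mem_image.2 ⟨_, hmem, h4.symm⟩
  calc (T.image f).card ≤ _ := Finset.card_le_card hsub
    _ ≤ _ := Finset.card_insert_le _ _
    _ ≤ (Vs.card + Vs.card) + 1 := by
      gcongr
      refine (Finset.card_union_le _ _).trans ?_
      gcongr <;> exact Finset.card_image_le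
    _ = 1 + 2 * Vs.card := by ring

theorem good_or {q : ℕ} {h ρ : MvPolynomial (Fin q) ℤ} {D : ℕ} {u : Fin q → ℤ}
    (hu : ¬ Good h ρ D u) (h0 : eval u h ≠ 0) (p : ℕ) (hp : p.Prime) (hpd : (p : ℤ) ∣ eval u h) :
    p ∣ D.factorial * (eval u ρ).natAbs := by
  by_cases hD : p ≤ D
  · exact Dvd.dvd.mul_right ((Nat.dvd_factorial hp.pos hD)) _
  · by_contra hcon
    refine hu ⟨h0, p, hp, not_le.1 hD, hpd, fun h1 => hcon ?_⟩
    exact Dvd.dvd.mul_left (Int.natCast_dvd.1 h1) _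

open Classical in
/-- The number of vectors in the box which are not good. -/
theorem bad_count {q : ℕ} (h : MvPolynomial (Fin q) ℤ) (j0 : Fin q)
    (hd : 0 < (asPoly j0 h).natDegree) (ρ : MvPolynomial {j : Fin q // j ≠ j0} ℤ) (hρ : ρ ≠ 0)
    (D : ℕ) {ε : ℝ} (hε : 0 < ε) :
    ∃ C : ℝ, ∀ H : ℕ, 1 ≤ H →
      (((box q H).filter fun u => ¬ Good h (rename Subtype.val ρ) D u).card : ℝ) ≤
        C * (H : ℝ) ^ ((q : ℝ) - 1 + ε) := by
  obtain ⟨A, a, hA⟩ := poly_bound h
  obtain ⟨B, b, hB⟩ := poly_bound ρ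
  set ε' : ℝ := ε / (a + b + 1) with hε'
  have hε'0 : 0 < ε' := by positivity
  obtain ⟨C1, hC1, hcount⟩ := count_rad hε'0
  set d := (asPoly j0 h).natDegree with hdd
  set P : MvPolynomial (Fin q) ℤ := rename Subtype.val (ρ * (asPoly j0 h).leadingCoeff) with hP
  have hlc : (asPoly j0 h).leadingCoeff ≠ 0 := by
    rw [Ne, Polynomial.leadingCoeff_eq_zero]
    intro h0
    rw [hdd, h0, Polynomial.natDegree_zero] at hd
    omega
  have hP0 : P ≠ 0 := by
    intro h0
    exact mul_ne_zero hρ hlc (rename_injective _ Subtype.val_injective (h0.trans (map_zero _).symm))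
  have hq : 0 < q := j0.pos
  set c2 : ℝ := 1 + 2 * (C1 * ((D.factorial * B : ℝ) ^ ε' * (A : ℝ) ^ ε')) with hc2
  have hc20 : 0 ≤ c2 := by positivity
  refine ⟨3 ^ (q - 1) * (P.totalDegree + d * c2), fun H hH => ?_⟩
  have hH1 : (1 : ℝ) ≤ H := by exact_mod_cast hH
  have hH0 : (0 : ℝ) < H := by linarith
  set F := (box q H).filter fun u => ¬ Good h (rename Subtype.val ρ) D u with hF
  set Z1 := (box q H).filter fun u => eval u P = 0 with hZ1
  set Z2 := (box q H).filter fun u => eval u P ≠ 0 ∧ ¬ Good h (rename Subtype.val ρ) D u with hZ2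
  have hsub : F ⊆ Z1 ∪ Z2 := by
    intro u hu
    rw [hF, Finset.mem_filter] at hu
    rw [Finset.mem_union, hZ1, hZ2, Finset.mem_filter, Finset.mem_filter]
    by_cases h0 : eval u P = 0
    · exact Or.inl ⟨hu.1, h0⟩
    · exact Or.inr ⟨hu.1, h0, hu.2⟩
  have h1 : (Z1.card : ℝ) ≤ P.totalDegree * (2 * H + 1 : ℝ) ^ (q - 1) := by
    exact_mod_cast zeros hq hP0 H
  -- the second set
  let g : (Fin q → ℤ) → ({j : Fin q // j ≠ j0} → ℤ) := fun u j => u j
  have himg : (Z2.image g).card ≤ (2 * H + 1) ^ (q - 1) := by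
    calc (Z2.image g).card ≤ (Fintype.piFinset fun _ : {j : Fin q // j ≠ j0} =>
          Finset.Icc (-(H : ℤ)) H).card := by
          refine Finset.card_le_card fun w hw => ?_
          obtain ⟨u, hu, rfl⟩ := Finset.mem_image.1 hw
          rw [Fintype.mem_piFinset]
          intro j
          exact Fintype.mem_piFinset.1 (Finset.mem_filter.1 hu).1 j
      _ = (2 * H + 1) ^ (q - 1) := by
          rw [Fintype.card_piFinset, Finset.prod_const, card_Icc, Finset.card_univ,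
            Fintype.card_subtype_compl, Fintype.card_fin, Fintype.card_unique]
  have hfib : ∀ w ∈ Z2.image g, ((Z2.filter fun u => g u = w).card : ℝ) ≤
      d * (c2 * (H : ℝ) ^ ε) := by
    intro w hw
    obtain ⟨u0, hu0, hu0w⟩ := Finset.mem_image.1 hw
    have hu0' := Finset.mem_filter.1 hu0
    have hevP : ∀ u : Fin q → ℤ, g u = w → eval u P = eval w ρ * eval w (asPoly j0 h).leadingCoeff := by
      intro u hu
      rw [hP, eval_rename, map_mul]
      have : (u ∘ Subtype.val : {j : Fin q // j ≠ j0} → ℤ) = w := hu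
      rw [this]
    have hne := hu0'.2.1
    rw [hevP u0 hu0w] at hne
    have hρw : eval w ρ ≠ 0 := left_ne_zero_of_mul hne
    have hlw : eval w (asPoly j0 h).leadingCoeff ≠ 0 := right_ne_zero_of_mul hne
    have hwH : ∀ j, |w j| ≤ H := by
      intro j
      rw [← hu0w]
      exact mem_box.1 hu0'.1 j
    set N := D.factorial * (eval w ρ).natAbs with hN
    have hN0 : N ≠ 0 := Nat.mul_ne_zero (Nat.factorial_ne_zero D) (Int.natAbs_ne_zero.2 hρw)
    have hl := line_count j0 h hd w hlw N (A * H ^ a) (Z2.filter fun u => g u = w) (by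
      intro u hu
      obtain ⟨hu1, hu2⟩ := Finset.mem_filter.1 hu
      obtain ⟨hu3, hu4, hu5⟩ := Finset.mem_filter.1 hu1
      refine ⟨fun j => congrFun hu2 j, ?_⟩
      by_cases h0 : eval u h = 0
      · exact Or.inl h0
      refine Or.inr ⟨?_, fun p hp hpd => ?_⟩
      · have := hA H hH u (mem_box.1 hu3)
        push_cast
        exact this
      · have h7 := good_or hu5 h0 p hp hpd
        rw [eval_rename] at h7
        have h8 : (u ∘ Subtype.val : {j : Fin q // j ≠ j0} → ℤ) = w := hu2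
        rw [h8] at h7
        exact h7)
    have h9 := hcount N (A * H ^ a) hN0
    have hNle : (N : ℝ) ≤ (D.factorial * B : ℝ) * (H : ℝ) ^ b := by
      have h10 := hB H hH w hwH
      have h11 : ((eval w ρ).natAbs : ℝ) ≤ B * (H : ℝ) ^ b := by
        have h12 : (((eval w ρ).natAbs : ℤ) : ℤ) ≤ B * (H : ℤ) ^ b := by
          rw [Int.natCast_natAbs]; exact h10
        exact_mod_cast h12
      rw [hN]
      push_cast
      rw [mul_assoc]
      exact mul_le_mul_of_nonneg_left h11 (by positivity)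
    have hpow : (N : ℝ) ^ ε' * ((A * H ^ a : ℕ) : ℝ) ^ ε' ≤
        (D.factorial * B : ℝ) ^ ε' * (A : ℝ) ^ ε' * (H : ℝ) ^ ε := by
      have e1 : (N : ℝ) ^ ε' ≤ (D.factorial * B : ℝ) ^ ε' * ((H : ℝ) ^ b) ^ ε' := by
        rw [← Real.mul_rpow (by positivity) (by positivity)]
        exact Real.rpow_le_rpow (by positivity) hNle hε'0.le
      have e2 : ((A * H ^ a : ℕ) : ℝ) ^ ε' = (A : ℝ) ^ ε' * ((H : ℝ) ^ a) ^ ε' := by
        push_cast
        rw [Real.mul_rpow (by positivity) (by positivity)]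
      have e3 : ((H : ℝ) ^ b) ^ ε' * ((H : ℝ) ^ a) ^ ε' ≤ (H : ℝ) ^ ε := by
        rw [← Real.rpow_natCast, ← Real.rpow_natCast, ← Real.rpow_mul hH0.le,
          ← Real.rpow_mul hH0.le, ← Real.rpow_add hH0]
        refine Real.rpow_le_rpow_of_exponent_le hH1 ?_
        rw [hε']
        rw [← add_mul, mul_div_assoc', div_le_iff₀ (by positivity)]
        nlinarith
      rw [e2]
      calc _ ≤ ((D.factorial * B : ℝ) ^ ε' * ((H : ℝ) ^ b) ^ ε') *
            ((A : ℝ) ^ ε' * ((H : ℝ) ^ a) ^ ε') :=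
            mul_le_mul_of_nonneg_right e1 (by positivity)
        _ = (D.factorial * B : ℝ) ^ ε' * (A : ℝ) ^ ε' *
            (((H : ℝ) ^ b) ^ ε' * ((H : ℝ) ^ a) ^ ε') := by ring
        _ ≤ _ := mul_le_mul_of_nonneg_left e3 (by positivity)
    have hHε : (1 : ℝ) ≤ (H : ℝ) ^ ε := Real.one_le_rpow hH1 hε.le
    have hl' : ((Z2.filter fun u => g u = w).card : ℝ) ≤ d *
        (1 + 2 * (((Finset.Icc 1 (A * H ^ a)).filter fun v =>
          ∀ p : ℕ, p.Prime → p ∣ v → p ∣ N).card : ℝ)) := by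
      exact_mod_cast hl
    refine hl'.trans (mul_le_mul_of_nonneg_left ?_ (Nat.cast_nonneg _))
    calc _ ≤ 1 + 2 * (C1 * ((N : ℝ) ^ ε' * ((A * H ^ a : ℕ) : ℝ) ^ ε')) := by gcongr
      _ ≤ 1 + 2 * (C1 * ((D.factorial * B : ℝ) ^ ε' * (A : ℝ) ^ ε' * (H : ℝ) ^ ε)) := by gcongr
      _ ≤ (H : ℝ) ^ ε + 2 * (C1 * ((D.factorial * B : ℝ) ^ ε' * (A : ℝ) ^ ε' * (H : ℝ) ^ ε)) := by
          gcongr
      _ = c2 * (H : ℝ) ^ ε := by rw [hc2]; ring
  have h2 : (Z2.card : ℝ) ≤ (d * (c2 * (H : ℝ) ^ ε)) * ((2 * H + 1 : ℝ) ^ (q - 1)) := by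
    have e1 : (Z2.card : ℝ) = ∑ w ∈ Z2.image g, ((Z2.filter fun u => g u = w).card : ℝ) := by
      have := Finset.card_eq_sum_card_image g Z2
      exact_mod_cast this
    rw [e1]
    calc _ ≤ ∑ w ∈ Z2.image g, (d * (c2 * (H : ℝ) ^ ε)) := Finset.sum_le_sum hfib
      _ = (Z2.image g).card * (d * (c2 * (H : ℝ) ^ ε)) := by
          rw [Finset.sum_const, nsmul_eq_mul]
      _ ≤ ((2 * H + 1 : ℝ) ^ (q - 1)) * (d * (c2 * (H : ℝ) ^ ε)) := by
          refine mul_le_mul_of_nonneg_right ?_ (by positivity)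
          exact_mod_cast himg
      _ = _ := by ring
  have hHε : (1 : ℝ) ≤ (H : ℝ) ^ ε := Real.one_le_rpow hH1 hε.le
  have h3 : (2 * H + 1 : ℝ) ^ (q - 1) ≤ 3 ^ (q - 1) * (H : ℝ) ^ (q - 1) := by
    rw [← mul_pow]
    exact pow_le_pow_left₀ (by positivity) (by linarith) _
  have h4 : (H : ℝ) ^ ((q : ℝ) - 1 + ε) = (H : ℝ) ^ (q - 1) * (H : ℝ) ^ ε := by
    rw [Real.rpow_add hH0, ← Real.rpow_natCast, Nat.cast_sub hq, Nat.cast_one]
  calc (F.card : ℝ) ≤ ((Z1 ∪ Z2).card : ℝ) := by exact_mod_cast Finset.card_le_card hsub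
    _ ≤ (Z1.card : ℝ) + Z2.card := by exact_mod_cast Finset.card_union_le _ _
    _ ≤ P.totalDegree * (2 * H + 1 : ℝ) ^ (q - 1) +
        (d * (c2 * (H : ℝ) ^ ε)) * ((2 * H + 1 : ℝ) ^ (q - 1)) := add_le_add h1 h2
    _ ≤ P.totalDegree * (3 ^ (q - 1) * (H : ℝ) ^ (q - 1)) +
        (d * (c2 * (H : ℝ) ^ ε)) * (3 ^ (q - 1) * (H : ℝ) ^ (q - 1)) := by gcongr
    _ ≤ P.totalDegree * (3 ^ (q - 1) * (H : ℝ) ^ (q - 1)) * (H : ℝ) ^ ε +
        (d * (c2 * (H : ℝ) ^ ε)) * (3 ^ (q - 1) * (H : ℝ) ^ (q - 1)) := by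
        exact add_le_add (le_mul_of_one_le_right (by positivity) hHε) le_rfl
    _ = 3 ^ (q - 1) * (P.totalDegree + d * c2) * (H : ℝ) ^ ((q : ℝ) - 1 + ε) := by
        rw [h4]; ring

end Pool.Agent.X295
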