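import Mathlib

/-!
Elimination theory: forms with coefficients in a polynomial ring without nontrivial common zero at
one value of the parameters (helper file).
-/

set_option autoImplicit false

namespace Pool.Agent.X295

open MvPolynomial

theorem hc_mul {R σ : Type*} [CommRing R] (W F : MvPolynomial σ R) {e D : ℕ}
    (hF : F.IsHomogeneous e) (h : e ≤ D) :
    homogeneousComponent D (W * F) = homogeneousComponent (D - e) W * F := by
  classical
  conv_lhs => rw [← sum_homogeneousComponent (φ := W), Finset.sum_mul, map_sum]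
  have h1 : ∀ i, homogeneousComponent D (homogeneousComponent i W * F) =
      if D = i + e then homogeneousComponent i W * F else 0 := fun i =>
    homogeneousComponent_of_mem ((homogeneousComponent_isHomogeneous i W).mul hF)
  simp only [h1]
  have h2 : ∀ i, (D = i + e) ↔ (i = D - e) := fun i => by omega
  simp only [h2]
  rw [Finset.sum_ite_eq']
  split_ifs with h3
  · rfl
  · rw [homogeneousComponent_eq_zero, zero_mul]
    rw [Finset.mem_range] at h3
    omega

variable {k : Type} [Field k] {σ : Type} [Fintype σ] {q : ℕ}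

/-- The specialization of the parameters. -/
noncomputable def specM {σ : Type} (a : Fin q → k) :
    MvPolynomial σ (MvPolynomial (Fin q) k) →+* MvPolynomial σ k :=
  MvPolynomial.map (eval a)

/-- Common zeros at one value of the parameter, in terms of ideals. -/
theorem cert0 [Algebra k ℂ] [IsAlgClosed k] {β : Type} [Finite β] (F : β → MvPolynomial σ k)
    (hs : ∀ y : σ → ℂ, (∀ b, aeval y (F b) = 0) → y = 0) :
    ∃ M : ℕ, ∀ j, (X j : MvPolynomial σ k) ^ M ∈ Ideal.span (Set.range F) := by
  classical
  let J1 : Ideal (MvPolynomial σ k) := Ideal.span (Set.range F)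
  have hrad : ∀ j, X j ∈ J1.radical := by
    intro j
    rw [← vanishingIdeal_zeroLocus_eq_radical (K := k), mem_vanishingIdeal_iff]
    intro y hy
    rw [mem_zeroLocus_iff] at hy
    have hmap : ∀ P : MvPolynomial σ k, aeval (fun j => algebraMap k ℂ (y j)) P =
        algebraMap k ℂ (aeval y P) := by
      intro P
      exact MvPolynomial.aeval_algebraMap_apply ℂ y P
    have hy0 : (fun j => algebraMap k ℂ (y j)) = 0 := by
      apply hs
      intro b
      rw [hmap, hy _ (Ideal.subset_span ⟨b, rfl⟩), map_zero]
    rw [aeval_X]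
    have h1 := congrFun hy0 j
    rw [Pi.zero_apply] at h1
    exact (map_eq_zero _).1 h1
  choose Mj hMj using hrad
  refine ⟨∑ j, Mj j, fun j => ?_⟩
  have h2 : ∑ j, Mj j = Mj j + (∑ j, Mj j - Mj j) :=
    (Nat.add_sub_cancel' (Finset.single_le_sum (f := Mj) (fun i _ => Nat.zero_le _)
      (Finset.mem_univ j))).symm
  rw [h2, pow_add]
  exact Ideal.mul_mem_right _ _ (hMj j)

/-- The certificate with parameters. -/
theorem certM {β : Type} [Finite β] (F : β → MvPolynomial σ (MvPolynomial (Fin q) k))
    (e : β → ℕ) (hF : ∀ b, (F b).IsHomogeneous (e b)) (a : Fin q → k) {M : ℕ}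
    (hM : ∀ j, (X j : MvPolynomial σ k) ^ M ∈ Ideal.span (Set.range fun b => specM a (F b))) :
    ∃ (D : ℕ) (δ : MvPolynomial (Fin q) k), eval a δ ≠ 0 ∧
      ∀ j, C δ * (X j : MvPolynomial σ (MvPolynomial (Fin q) k)) ^ D ∈
        Ideal.span (Set.range F) := by
  classical
  have := Fintype.ofFinite β
  let A := MvPolynomial (Fin q) k
  let D : ℕ := Fintype.card σ * M + ∑ b, e b + 1
  let 𝔪 : Ideal A := RingHom.ker (eval a : MvPolynomial (Fin q) k →+* k)
  let J : Ideal (MvPolynomial σ A) := Ideal.span (Set.range F)
  let Q := MvPolynomial σ A ⧸ J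
  let π : MvPolynomial σ A →ₐ[A] Q := Ideal.Quotient.mkₐ A J
  let T : Set (σ →₀ ℕ) := {μ | μ.degree = D}
  have hT : T.Finite := Finsupp.finite_of_degree_eq D
  let N : Submodule A Q := Submodule.span A ((fun μ => π (monomial μ 1)) '' T)
  have hN : N.FG := Submodule.fg_span (hT.image _)
  have hle : N ≤ 𝔪 • N := by
    refine Submodule.span_le.2 ?_
    rintro _ ⟨μ, hμ, rfl⟩
    have hμ' : μ.degree = D := hμ
    -- a large exponent
    obtain ⟨j, hj⟩ : ∃ j, M ≤ μ j := by
      by_contra hcon
      push Not at hcon
      have h1 : μ.degree ≤ Fintype.card σ * M := by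
        rw [Finsupp.degree_eq_sum]
        calc ∑ i, μ i ≤ ∑ _i : σ, M := Finset.sum_le_sum fun i _ => (hcon i).le
          _ = Fintype.card σ * M := by rw [Finset.sum_const, Finset.card_univ, smul_eq_mul]
      have h2 : Fintype.card σ * M < D := by
        show Fintype.card σ * M < Fintype.card σ * M + ∑ b, e b + 1
        omega
      omega
    have hmem : (monomial μ (1 : k) : MvPolynomial σ k) ∈
        Ideal.span (Set.range fun b => specM a (F b)) := by
      have h1 : (monomial μ (1 : k) : MvPolynomial σ k) =
          monomial (μ - Finsupp.single j M) 1 * X j ^ M := by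
        rw [X_pow_eq_monomial, monomial_mul, one_mul, tsub_add_cancel_of_le]
        rw [Finsupp.single_le_iff]
        exact hj
      rw [h1]
      exact Ideal.mul_mem_left _ _ (hM j)
    obtain ⟨W, hW⟩ := (Ideal.mem_span_range_iff_exists_fun).1 hmem
    have heD : ∀ b, e b ≤ D := by
      intro b
      have : e b ≤ ∑ b, e b := Finset.single_le_sum (f := e) (fun _ _ => Nat.zero_le _)
        (Finset.mem_univ b)
      show e b ≤ Fintype.card σ * M + ∑ b, e b + 1
      omega
    let P : MvPolynomial σ A := ∑ b, MvPolynomial.map C (homogeneousComponent (D - e b) (W b)) * F b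
    have hspecC : ∀ R : MvPolynomial σ k, specM (q := q) a (MvPolynomial.map C R) = R := by
      intro R
      rw [specM, MvPolynomial.map_map]
      have : (eval a).comp (C : k →+* MvPolynomial (Fin q) k) = RingHom.id k := by
        ext x; simp
      rw [this, MvPolynomial.map_id]
    have hPspec : specM a P = monomial μ 1 := by
      have h1 : specM a P = ∑ b, homogeneousComponent (D - e b) (W b) * specM a (F b) := by
        simp only [P, map_sum, map_mul, hspecC]
      have h2 : homogeneousComponent D (monomial μ (1 : k)) = monomial μ 1 :=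
        homogeneousComponent_eq_self (isHomogeneous_monomial _ hμ')
      rw [h1, ← h2, ← hW, map_sum]
      refine Finset.sum_congr rfl fun b _ => ?_
      exact (hc_mul _ _ ((hF b).map _) (heD b)).symm
    have hPhom : P.IsHomogeneous D := by
      refine IsHomogeneous.sum _ _ _ fun b _ => ?_
      have h1 := ((homogeneousComponent_isHomogeneous (D - e b) (W b)).map
        (C : k →+* A)).mul (hF b)
      rwa [Nat.sub_add_cancel (heD b)] at h1
    have hPJ : P ∈ J := Ideal.sum_mem _ fun b _ => Ideal.mul_mem_left _ _
      (Ideal.subset_span ⟨b, rfl⟩)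
    let Z : MvPolynomial σ A := monomial μ 1 - P
    have hZhom : Z.IsHomogeneous D := (isHomogeneous_monomial _ hμ').sub hPhom
    have hZspec : specM a Z = 0 := by
      rw [map_sub, hPspec, specM, map_monomial, map_one, sub_self]
    have hZm : ∀ ν, coeff ν Z ∈ 𝔪 := by
      intro ν
      rw [RingHom.mem_ker]
      have h1 := congrArg (coeff ν) hZspec
      rw [specM, coeff_map, coeff_zero] at h1
      exact h1
    have hπ : π (monomial μ 1) = π Z := by
      rw [map_sub]
      have : π P = 0 := Ideal.Quotient.eq_zero_iff_mem.2 hPJ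
      rw [this, sub_zero]
    show π (monomial μ 1) ∈ 𝔪 • N
    rw [hπ, Z.as_sum, map_sum]
    refine Submodule.sum_mem _ fun ν hν => ?_
    have h1 : (monomial ν (coeff ν Z) : MvPolynomial σ A) = coeff ν Z • monomial ν 1 := by
      rw [smul_monomial, smul_eq_mul, mul_one]
    rw [h1, map_smul]
    refine Submodule.smul_mem_smul (hZm ν) (Submodule.subset_span ⟨ν, ?_, rfl⟩)
    have h2 := hZhom (mem_support_iff.1 hν)
    have h3 : Finsupp.degree ν = Finsupp.weight (1 : σ → ℕ) ν := by
      rw [Finsupp.degree_eq_weight_one]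
      rfl
    exact h3.trans h2
  obtain ⟨r, hr1, hr2⟩ := Submodule.exists_sub_one_mem_and_smul_eq_zero_of_fg_of_le_smul 𝔪 N hN hle
  refine ⟨D, r, ?_, fun j => ?_⟩
  · rw [RingHom.mem_ker, map_sub, map_one, sub_eq_zero] at hr1
    rw [hr1]
    exact one_ne_zero
  · have h1 : π (X j ^ D) ∈ N := by
      rw [X_pow_eq_monomial]
      refine Submodule.subset_span ⟨_, ?_, rfl⟩
      show (Finsupp.single j D).degree = D
      rw [Finsupp.degree_single]
    have h2 := hr2 _ h1
    rw [← map_smul] at h2
    have h3 := Ideal.Quotient.eq_zero_iff_mem.1 h2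
    rwa [smul_eq_C_mul] at h3

end Pool.Agent.X295
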