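import Mathlib

/-!
Counting the integers whose prime factors divide a given integer (helper file).
-/

set_option autoImplicit false

namespace Pool.Agent.X295

open Finset

/-- the multiplicative function `m ^ (-ε)` -/
noncomputable def powHom (ε : ℝ) : ℕ →* ℝ where
  toFun m := (m : ℝ) ^ (-ε)
  map_one' := by simp
  map_mul' a b := by
    rw [Nat.cast_mul, Real.mul_rpow (Nat.cast_nonneg _) (Nat.cast_nonneg _)]

theorem pow_lt {ε : ℝ} (hε : 0 < ε) {p : ℕ} (hp : p.Prime) : (p : ℝ) ^ (-ε) < 1 :=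
  Real.rpow_lt_one_of_one_lt_of_neg (by exact_mod_cast hp.one_lt) (by linarith)

open Classical in
/-- Rankin's bound. -/
theorem rankin {ε : ℝ} (hε : 0 < ε) (s : Finset ℕ) (hs : ∀ p ∈ s, p.Prime) (X : ℕ) :
    ((((Icc 1 X).filter fun v => ∀ p : ℕ, p.Prime → p ∣ v → p ∈ s).card : ℕ) : ℝ) ≤
      (X : ℝ) ^ ε * ∏ p ∈ s, (1 - (p : ℝ) ^ (-ε))⁻¹ := by
  classical
  obtain ⟨-, h2⟩ := EulerProduct.summable_and_hasSum_factoredNumbers_prod_filter_prime_geometric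
    (f := powHom ε) (fun {p} hp => by
      change ‖(p : ℝ) ^ (-ε)‖ < 1
      rw [Real.norm_of_nonneg (Real.rpow_nonneg (Nat.cast_nonneg _) _)]
      exact pow_lt hε hp) s
  have hfil : (s.filter fun p => p.Prime) = s := Finset.filter_true_of_mem hs
  rw [hfil] at h2
  set T := (Icc 1 X).filter fun v => ∀ p : ℕ, p.Prime → p ∣ v → p ∈ s with hT
  have hTf : ∀ v ∈ T, v ∈ Nat.factoredNumbers s := by
    intro v hv
    rw [Nat.mem_factoredNumbers']
    exact (Finset.mem_filter.1 hv).2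
  have h3 : ∑ v ∈ T, (v : ℝ) ^ (-ε) ≤ ∏ p ∈ s, (1 - (p : ℝ) ^ (-ε))⁻¹ := by
    have h4 := sum_le_hasSum (T.subtype (fun v => v ∈ Nat.factoredNumbers s))
      (fun i _ => Real.rpow_nonneg (Nat.cast_nonneg (i : ℕ)) (-ε)) h2
    have h5 : ∑ i ∈ T.subtype (fun v => v ∈ Nat.factoredNumbers s), ((i : ℕ) : ℝ) ^ (-ε) =
        ∑ v ∈ T, (v : ℝ) ^ (-ε) :=
      Finset.sum_subtype_of_mem (fun v : ℕ => (v : ℝ) ^ (-ε)) hTf
    rw [← h5]
    exact h4
  have h6 : ((T.card : ℕ) : ℝ) ≤ (X : ℝ) ^ ε * ∑ v ∈ T, (v : ℝ) ^ (-ε) := by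
    rw [Finset.mul_sum, Finset.card_eq_sum_ones]
    push_cast
    refine Finset.sum_le_sum fun v hv => ?_
    have hv1 := Finset.mem_Icc.1 (Finset.mem_filter.1 hv).1
    have hv0 : (0 : ℝ) < v := by exact_mod_cast hv1.1
    rw [Real.rpow_neg hv0.le, ← div_eq_mul_inv, le_div_iff₀ (Real.rpow_pos_of_pos hv0 _), one_mul]
    exact Real.rpow_le_rpow hv0.le (by exact_mod_cast hv1.2) hε.le
  refine h6.trans (mul_le_mul_of_nonneg_left h3 (Real.rpow_nonneg (Nat.cast_nonneg _) _))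

/-- The product over the prime factors is small. -/
theorem prod_small {ε : ℝ} (hε : 0 < ε) : ∃ C : ℝ, 1 ≤ C ∧ ∀ N : ℕ, N ≠ 0 →
    ∏ p ∈ N.primeFactors, (1 - (p : ℝ) ^ (-ε))⁻¹ ≤ C * (N : ℝ) ^ ε := by
  obtain ⟨P, hP⟩ : ∃ P : ℕ, ∀ p : ℕ, P ≤ p → (2 : ℝ) ≤ (p : ℝ) ^ ε := by
    have h := (tendsto_rpow_atTop hε).comp (tendsto_natCast_atTop_atTop (R := ℝ))
    obtain ⟨P, hP⟩ := Filter.eventually_atTop.1 (h.eventually_ge_atTop 2)
    exact ⟨P, fun p hp => hP p hp⟩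
  set c : ℝ := (1 - (2 : ℝ) ^ (-ε))⁻¹ with hc
  have h2lt : (2 : ℝ) ^ (-ε) < 1 := by
    have := pow_lt hε Nat.prime_two
    simpa using this
  have h2pos : (0 : ℝ) < (2 : ℝ) ^ (-ε) := Real.rpow_pos_of_pos (by norm_num) _
  have hc1 : 1 ≤ c := by
    rw [hc, one_le_inv₀ (by linarith)]
    linarith
  refine ⟨c ^ P, one_le_pow₀ hc1, fun N hN => ?_⟩
  have hfac : ∀ p ∈ N.primeFactors, (1 - (p : ℝ) ^ (-ε))⁻¹ ≤
      (if p < P then c else 1) * (p : ℝ) ^ ε := by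
    intro p hp
    have hpp := Nat.prime_of_mem_primeFactors hp
    have hp0 : (0 : ℝ) < p := by exact_mod_cast hpp.pos
    have hp1 : (1 : ℝ) ≤ p := by exact_mod_cast hpp.one_lt.le
    have hlt := pow_lt hε hpp
    have hge : (1 : ℝ) ≤ (p : ℝ) ^ ε := Real.one_le_rpow hp1 hε.le
    split_ifs with h
    · have h1 : (1 - (p : ℝ) ^ (-ε))⁻¹ ≤ c := by
        rw [hc]
        refine inv_anti₀ (by linarith) ?_
        have : (p : ℝ) ^ (-ε) ≤ (2 : ℝ) ^ (-ε) :=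
          Real.rpow_le_rpow_of_nonpos (by norm_num) (by exact_mod_cast hpp.two_le) (by linarith)
        linarith
      calc _ ≤ c := h1
        _ ≤ c * (p : ℝ) ^ ε := le_mul_of_one_le_right (by linarith) hge
    · rw [one_mul]
      have h1 : (2 : ℝ) ≤ (p : ℝ) ^ ε := hP p (not_lt.1 h)
      rw [inv_le_comm₀ (by linarith) (by linarith)]
      rw [Real.rpow_neg hp0.le]
      have h3 : ((p : ℝ) ^ ε)⁻¹ ≤ 1 / 2 := by
        rw [inv_le_comm₀ (by linarith) (by norm_num)]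
        norm_num
        exact h1
      linarith
  have hnn : ∀ p ∈ N.primeFactors, 0 ≤ (1 - (p : ℝ) ^ (-ε))⁻¹ := by
    intro p hp
    have := pow_lt hε (Nat.prime_of_mem_primeFactors hp)
    rw [inv_nonneg]
    linarith
  refine (Finset.prod_le_prod hnn hfac).trans ?_
  rw [Finset.prod_mul_distrib]
  have h1 : ∏ p ∈ N.primeFactors, (if p < P then c else (1 : ℝ)) ≤ c ^ P := by
    rw [Finset.prod_ite, Finset.prod_const, Finset.prod_const_one, mul_one]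
    refine pow_le_pow_right₀ hc1 ?_
    calc _ ≤ (Finset.range P).card := Finset.card_le_card fun p hp =>
          Finset.mem_range.2 (Finset.mem_filter.1 hp).2
      _ = P := Finset.card_range P
  have h2 : ∏ p ∈ N.primeFactors, (p : ℝ) ^ ε ≤ (N : ℝ) ^ ε := by
    rw [Real.finsetProd_rpow _ _ (fun p _ => Nat.cast_nonneg p)]
    refine Real.rpow_le_rpow (Finset.prod_nonneg fun p _ => Nat.cast_nonneg p) ?_ hε.le
    rw [← Nat.cast_prod]
    exact_mod_cast Nat.le_of_dvd (Nat.pos_of_ne_zero hN) (Nat.prod_primeFactors_dvd N)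
  exact mul_le_mul h1 h2 (Finset.prod_nonneg fun p _ => Real.rpow_nonneg (Nat.cast_nonneg p) _)
    (by positivity)

open Classical in
/-- The number of positive integers up to `X` all of whose prime factors divide `N`. -/
theorem count_rad {ε : ℝ} (hε : 0 < ε) : ∃ C : ℝ, 1 ≤ C ∧ ∀ N X : ℕ, N ≠ 0 →
    ((((Icc 1 X).filter fun v => ∀ p : ℕ, p.Prime → p ∣ v → p ∣ N).card : ℕ) : ℝ) ≤
      C * ((N : ℝ) ^ ε * (X : ℝ) ^ ε) := by
  classical
  obtain ⟨C, hC, h⟩ := prod_small hε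
  refine ⟨C, hC, fun N X hN => ?_⟩
  have h1 := rankin hε N.primeFactors (fun p hp => Nat.prime_of_mem_primeFactors hp) X
  have h2 : ((Icc 1 X).filter fun v => ∀ p : ℕ, p.Prime → p ∣ v → p ∣ N) =
      (Icc 1 X).filter fun v => ∀ p : ℕ, p.Prime → p ∣ v → p ∈ N.primeFactors := by
    refine Finset.filter_congr fun v _ => ?_
    refine forall_congr' fun p => forall_congr' fun hp => forall_congr' fun _ => ?_
    rw [Nat.mem_primeFactors]
    exact ⟨fun h => ⟨hp, h, hN⟩, fun h => h.2.1⟩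
  rw [h2]
  calc _ ≤ (X : ℝ) ^ ε * ∏ p ∈ N.primeFactors, (1 - (p : ℝ) ^ (-ε))⁻¹ := h1
    _ ≤ (X : ℝ) ^ ε * (C * (N : ℝ) ^ ε) :=
      mul_le_mul_of_nonneg_left (h N hN) (Real.rpow_nonneg (Nat.cast_nonneg _) _)
    _ = _ := by ring

end Pool.Agent.X295
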