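import Pool.Agent.TH526.ZL.K

/-!
The combinatorial core of the local criteria, with a number of places which does not depend on the
number of the coordinates (helper file).
-/

set_option autoImplicit false

open Function UpperHalfPlane H294ZP MvPolynomial Pool.Agent.W466.ZC

namespace Pool.Agent.X295

/-- The combinatorial lemma: `n` elements with classes in `Fr`, and `L` sets `E l` of at most `m`
elements such that no pair of elements of the same class is outside of two of them. -/
theorem comb {α : Type*} [DecidableEq α] {n m L : ℕ} (c : Fin n → α) (Fr : Finset α)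
    (E : Fin L → Finset (Fin n)) (hE : ∀ l, (E l).card ≤ m) (hfree : ∀ l, ∀ i, i ∉ E l → c i ∈ Fr)
    (hdisj : ∀ l l', l ≠ l' → ∀ i j, i ≠ j → c i = c j → i ∉ E l → j ∉ E l → i ∉ E l' →
      j ∉ E l' → False) (hcard : Fr.card + m < n) : L ≤ (min (m + 2) n).choose 2 := by
  classical
  rcases Nat.eq_zero_or_pos L with h0 | hLpos
  · rw [h0]; exact Nat.zero_le _
  let F0 : Finset (Fin n) := Finset.univ.filter fun i => c i ∈ Fr
  have hF0c : ∀ l, F0ᶜ ⊆ E l := by
    intro l i hi
    by_contra h
    exact Finset.mem_compl.1 hi (Finset.mem_filter.2 ⟨Finset.mem_univ i, hfree l i h⟩)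
  have hF0n : F0ᶜ.card + F0.card = n := by
    have := Finset.card_compl_add_card F0
    rwa [Fintype.card_fin] at this
  have hcm : F0ᶜ.card ≤ m := (Finset.card_le_card (hF0c ⟨0, hLpos⟩)).trans (hE _)
  set m' := m - F0ᶜ.card with hm'
  have hE' : ∀ l, (E l ∩ F0).card ≤ m' := by
    intro l
    have h1 : (E l ∩ F0).card + F0ᶜ.card ≤ (E l).card := by
      rw [← Finset.card_union_of_disjoint]
      · refine Finset.card_le_card (Finset.union_subset Finset.inter_subset_left (hF0c l))
      · rw [Finset.disjoint_left]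
        intro i hi hi'
        exact Finset.mem_compl.1 hi' (Finset.mem_inter.1 hi).2
    have := hE l
    omega
  have hrep : ∀ γ : α, ∃ i : Fin n, γ ∈ F0.image c → (i ∈ F0 ∧ c i = γ) := by
    intro γ
    by_cases h : γ ∈ F0.image c
    · obtain ⟨i, hi, hc⟩ := Finset.mem_image.1 h
      exact ⟨i, fun _ => ⟨hi, hc⟩⟩
    · have hn : 0 < n := by omega
      exact ⟨⟨0, hn⟩, fun h' => absurd h' h⟩
  choose rep hrep using hrep
  let T : Finset (Fin n) := (F0.image c).image rep
  have hTF : T ⊆ F0 := by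
    intro i hi
    obtain ⟨γ, hγ, rfl⟩ := Finset.mem_image.1 hi
    exact (hrep γ hγ).1
  have hTrep : ∀ t ∈ T, rep (c t) = t := by
    intro t ht
    obtain ⟨γ, hγ, rfl⟩ := Finset.mem_image.1 ht
    rw [(hrep γ hγ).2]
  have hTcard : T.card = (F0.image c).card := by
    refine Finset.card_image_of_injOn fun γ hγ γ' hγ' h => ?_
    have h1 := (hrep γ hγ).2
    have h2 := (hrep γ' hγ').2
    rw [h] at h1
    exact h1.symm.trans h2
  have hρ : (F0.image c).card ≤ Fr.card := by
    refine Finset.card_le_card fun γ hγ => ?_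
    obtain ⟨i, hi, rfl⟩ := Finset.mem_image.1 hγ
    exact (Finset.mem_filter.1 hi).2
  have hX : m' + 1 ≤ (F0 \ T).card := by
    rw [Finset.card_sdiff_of_subset hTF, hTcard]
    omega
  obtain ⟨X, hXs, hXc⟩ := Finset.exists_subset_card_eq hX
  have hXF : X ⊆ F0 := hXs.trans Finset.sdiff_subset
  have hXT : Disjoint T X := by
    rw [Finset.disjoint_left]
    intro i hi hi'
    exact (Finset.mem_sdiff.1 (hXs hi')).2 hi
  let U := T ∪ X
  have hUc : U.card = (F0.image c).card + m' + 1 := by
    rw [Finset.card_union_of_disjoint hXT, hTcard, hXc]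
    ring
  have hUF : U ⊆ F0 := Finset.union_subset hTF hXF
  -- the pairs
  have hpair : ∀ l, ∃ i j, i ∈ U ∧ j ∈ U ∧ i ∉ E l ∧ j ∉ E l ∧ i ≠ j ∧ c i = c j := by
    intro l
    have h1 : (F0.image c).card < (U \ E l).card := by
      have h2 : (U \ E l).card + (U ∩ E l).card = U.card := Finset.card_sdiff_add_card_inter U (E l)
      have h3 : (U ∩ E l).card ≤ (E l ∩ F0).card := by
        refine Finset.card_le_card fun i hi => ?_
        obtain ⟨h4, h5⟩ := Finset.mem_inter.1 hi
        exact Finset.mem_inter.2 ⟨h5, hUF h4⟩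
      have := hE' l
      omega
    obtain ⟨i, hi, j, hj, hij, hc⟩ := Finset.exists_ne_map_eq_of_card_lt_of_maps_to h1 (f := c)
      (fun i hi => Finset.mem_image_of_mem c (hUF (Finset.mem_sdiff.1 hi).1))
    exact ⟨i, j, (Finset.mem_sdiff.1 hi).1, (Finset.mem_sdiff.1 hj).1, (Finset.mem_sdiff.1 hi).2,
      (Finset.mem_sdiff.1 hj).2, hij, hc⟩
  choose i j hiU hjU hiE hjE hij hcij using hpair
  let ψ : Fin n → Option X := fun u => if h : u ∈ X then some ⟨u, h⟩ else none
  have hψ : ∀ u u', u ∈ U → u' ∈ U → c u = c u' → ψ u = ψ u' → u = u' := by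
    intro u u' hu hu' hc hψu
    by_cases h : u ∈ X
    · by_cases h' : u' ∈ X
      · simp only [ψ, dif_pos h, dif_pos h', Option.some.injEq, Subtype.mk.injEq] at hψu
        exact hψu
      · simp only [ψ, dif_pos h, dif_neg h'] at hψu
        exact absurd hψu (by simp)
    · by_cases h' : u' ∈ X
      · simp only [ψ, dif_neg h, dif_pos h'] at hψu
        exact absurd hψu (by simp)
      · have h1 : u ∈ T := (Finset.mem_union.1 hu).resolve_right h
        have h2 : u' ∈ T := (Finset.mem_union.1 hu').resolve_right h'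
        rw [← hTrep u h1, ← hTrep u' h2, hc]
  have hne : ∀ l, ψ (i l) ≠ ψ (j l) := fun l h =>
    hij l (hψ _ _ (hiU l) (hjU l) (hcij l) h)
  -- elements with the same image, in different classes, are both representatives
  have hψ2 : ∀ u u', ψ u = ψ u' → u ≠ u' → u ∉ X ∧ u' ∉ X := by
    intro u u' hψu hne'
    by_cases h : u ∈ X
    · by_cases h' : u' ∈ X
      · simp only [ψ, dif_pos h, dif_pos h', Option.some.injEq, Subtype.mk.injEq] at hψu
        exact absurd hψu hne'
      · simp only [ψ, dif_pos h, dif_neg h'] at hψu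
        exact absurd hψu (by simp)
    · by_cases h' : u' ∈ X
      · simp only [ψ, dif_neg h, dif_pos h'] at hψu
        exact absurd hψu (by simp)
      · exact ⟨h, h'⟩
  have hpairs : ∀ u v u' v', u ∈ U → v ∈ U → u' ∈ U → v' ∈ U → c u = c v → c u' = c v' →
      ψ u ≠ ψ v → ψ u = ψ u' → ψ v = ψ v' → u = u' ∧ v = v' := by
    intro u v u' v' hu hv hu' hv' hc hc' hne1 h1 h2
    by_cases e1 : u = u'
    · subst e1
      exact ⟨rfl, hψ v v' hv hv' (hc.symm.trans hc') h2⟩
    · by_cases e2 : v = v'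
      · subst e2
        exact absurd (hψ u u' hu hu' (hc.trans hc'.symm) h1) e1
      · obtain ⟨g1, -⟩ := hψ2 u u' h1 e1
        obtain ⟨g2, -⟩ := hψ2 v v' h2 e2
        exfalso
        apply hne1
        simp only [ψ, dif_neg g1, dif_neg g2]
  let F : Fin L → {s : Finset (Option X) // s.card = 2} := fun l =>
    ⟨{ψ (i l), ψ (j l)}, Finset.card_pair (hne l)⟩
  have hFinj : Function.Injective F := by
    intro l l' hll
    by_contra hne'
    have hset : ({ψ (i l), ψ (j l)} : Finset (Option X)) = {ψ (i l'), ψ (j l')} :=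
      congrArg Subtype.val hll
    have h1 : ψ (i l) ∈ ({ψ (i l'), ψ (j l')} : Finset (Option X)) :=
      hset ▸ Finset.mem_insert_self _ _
    have h2 : ψ (j l) ∈ ({ψ (i l'), ψ (j l')} : Finset (Option X)) :=
      hset ▸ Finset.mem_insert_of_mem (Finset.mem_singleton_self _)
    rw [Finset.mem_insert, Finset.mem_singleton] at h1 h2
    rcases h1 with h1 | h1 <;> rcases h2 with h2 | h2
    · exact hne l (h1.trans h2.symm)
    · obtain ⟨e1, e2⟩ := hpairs _ _ _ _ (hiU l) (hjU l) (hiU l') (hjU l') (hcij l) (hcij l')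
        (hne l) h1 h2
      exact hdisj l l' hne' (i l) (j l) (hij l) (hcij l) (hiE l) (hjE l) (e1 ▸ hiE l')
        (e2 ▸ hjE l')
    · obtain ⟨e1, e2⟩ := hpairs _ _ _ _ (hiU l) (hjU l) (hjU l') (hiU l') (hcij l) (hcij l').symm
        (hne l) h1 h2
      exact hdisj l l' hne' (i l) (j l) (hij l) (hcij l) (hiE l) (hjE l) (e1 ▸ hjE l')
        (e2 ▸ hiE l')
    · exact hne l (h1.trans h2.symm)
  have hcardF := Fintype.card_le_of_injective F hFinj
  rw [Fintype.card_fin, Fintype.card_finset_len, Fintype.card_option, Fintype.card_coe, hXc]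
    at hcardF
  refine hcardF.trans (Nat.choose_le_choose 2 ?_)
  rw [le_min_iff]
  refine ⟨by omega, ?_⟩
  -- at least one class
  have hpos : 0 < (F0.image c).card :=
    Finset.card_pos.2 ⟨_, Finset.mem_image_of_mem c (hUF (hiU ⟨0, hLpos⟩))⟩
  have := Finset.card_le_univ U
  rw [Fintype.card_fin, hUc] at this
  omega

/-- The combinatorial core, with `C(min(m + 2, n), 2) + 1` places. -/
theorem coreW {Λ : Type} [CommRing Λ] [IsDomain Λ] [Algebra Λ ℂ] {n m T L : ℕ}
    (hL : (min (m + 2) n).choose 2 + 1 ≤ L)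
    (R : Fin n → Polynomial (Polynomial Λ)) (hR : ∀ i, (R i).Monic)
    (hT : ∀ i u w, ((R i).coeff u).coeff w ≠ 0 → u ≤ T ∧ w ≤ T)
    (e : Fin L → Fin n → ℕ) (he : ∀ l i, 0 < e l i)
    (hsq : ∀ l l', l ≠ l' → ∀ i j, i ≠ j → ∀ q, 0 < q → q ≤ T ^ 8 →
      ¬ IsSquare (q * (e l i * e l j * (e l' i * e l' j))))
    {r : ℕ} (cls : Fin n → Option (Fin r)) (Q : Fin n → Fin n → ℕ) (x s : Fin n → ℂ)
    (hQ : ∀ i j, 0 < Q i j)
    (hconst : ∀ i, cls i = none → IsAlgebraic Λ (x i))
    (hrel : ∀ i j l, cls i = some l → cls j = some l →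
        IsIntegral (Algebra.adjoin ℤ {x i}) (x j) ∧
        Polynomial.eval₂ (Polynomial.aeval (x i) : Polynomial ℂ →ₐ[ℂ] ℂ).toRingHom (x j)
          (W282.ZP.Psi (Q i j)) = 0)
    (hRs : ∀ i, Polynomial.eval₂ (Polynomial.aeval (x i) : Polynomial Λ →ₐ[Λ] ℂ).toRingHom (s i)
      (R i) = 0)
    (S : Finset (Fin n)) (hS : AlgebraicIndependent Λ (fun i : S => x i))
    (V : Fin L → ValuationSubring ℂ) (g : ∀ l, (V l).ValueGroup)
    (hg : ∀ l, g l < 1)
    (hVc : ∀ l i, cls i = none → (V l).valuation (x i) ≤ 1)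
    (hVR : ∀ l i u w, ((R i).coeff u).coeff w ≠ 0 →
      (V l).valuation (algebraMap Λ ℂ (((R i).coeff u).coeff w)) = 1)
    (hVx : ∀ l (i : S), x i ∈ V l)
    (hgood : ∀ l, ∃ E : Finset (Fin n), E.card ≤ m ∧ ∀ i, i ∉ E →
      (V l).valuation (s i) * g l ^ e l i = 1) :
    S.card + n ≤ r + m := by
  classical
  have hV1 : ∀ l i j k, cls i = some k → cls j = some k → (V l).valuation (x i) ≤ 1 →
      (V l).valuation (x j) ≤ 1 := by
    intro l i j k hi hj h1
    exact ((W282.ZP.Psi_spec (hQ i j)).2.2 ℂ (V l) (x i) (x j) (hrel i j k hi hj).2).1 h1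
  have hSsome : ∀ t : S, ∃ k, cls t = some k := by
    intro t
    cases hc : cls t with
    | none => exact ((hS.transcendental t) (hconst t hc)).elim
    | some k => exact ⟨k, rfl⟩
  choose cl hcl using hSsome
  have hclinj : Function.Injective cl := by
    intro t t' htt
    by_contra hne
    exact TH526.ZL.not_algInd' hS hne (hrel t t' (cl t) (hcl t) (by rw [htt]; exact hcl t')).1
  by_contra hcon
  push Not at hcon
  choose E hE hEg using hgood
  have hone_lt : ∀ l i, i ∉ E l → 1 < (V l).valuation (s i) := by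
    intro l i hi
    by_contra hle
    push Not at hle
    have h1 : (V l).valuation (s i) * g l ^ e l i < 1 :=
      (mul_le_of_le_one_left' hle).trans_lt (pow_lt_one₀ zero_le (hg l) (he l i).ne')
    rw [hEg l i hi] at h1
    exact lt_irrefl _ h1
  have htie := fun l i (hi : i ∉ E l) => TH526.ZL.tie (V l) (R i) (hR i) (hVR l i) (hT i) (hRs i)
    (hone_lt l i hi)
  have hgt : ∀ l i, i ∉ E l → 1 < (V l).valuation (x i) := fun l i hi => (htie l i hi).1
  let Fr : Finset (Option (Fin r)) := (Finset.univ.filter fun k : Fin r =>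
    k ∉ Finset.univ.image cl).image some
  have hFr : Fr.card + S.card = r := by
    have h1 : Fr.card = (Finset.univ.filter fun k : Fin r =>
        k ∉ Finset.univ.image cl).card :=
      Finset.card_image_of_injective _ (Option.some_injective _)
    have h2 : (Finset.univ.filter fun k : Fin r => k ∈ Finset.univ.image cl).card = S.card := by
      have h3 : (Finset.univ.filter fun k : Fin r => k ∈ Finset.univ.image cl) =
          Finset.univ.image cl := by
        ext k; simp
      rw [h3, Finset.card_image_of_injective _ hclinj, Finset.card_univ, Fintype.card_coe]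
    have := Finset.card_filter_add_card_filter_not (s := (Finset.univ : Finset (Fin r)))
      (fun k => k ∈ Finset.univ.image cl)
    rw [Finset.card_univ, Fintype.card_fin] at this
    rw [h1]
    omega
  have hmaps : ∀ l, ∀ i, i ∉ E l → cls i ∈ Fr := by
    intro l i hi
    have h1 := hgt l i hi
    cases hc : cls i with
    | none => exact absurd h1 (not_lt.2 (hVc l i hc))
    | some k =>
      refine Finset.mem_image_of_mem _ (Finset.mem_filter.2 ⟨Finset.mem_univ _, ?_⟩)
      intro hk
      obtain ⟨t, -, ht⟩ := Finset.mem_image.1 hk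
      have h3 := hV1 l t i k (ht ▸ hcl t) hc
        ((ValuationSubring.valuation_le_one_iff _ _).2 (hVx l t))
      exact absurd h1 (not_lt.2 h3)
  have key : ∀ l, ∀ i j : Fin n, i ∉ E l → j ∉ E l → cls i = cls j →
      ∃ q : ℕ, 0 < q ∧ q ≤ T ^ 4 ∧ IsSquare (Q i j * (e l i * e l j) * q) := by
    intro l i j hi hj hcls
    obtain ⟨k, -, hk⟩ := Finset.mem_image.1 (hmaps l i hi)
    obtain ⟨h1, u, w, hu0, huT, hw0, hwT, huw⟩ := htie l i hi
    obtain ⟨-, u', w', hu0', huT', hw0', hwT', huw'⟩ := htie l j hj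
    refine ⟨u * w * (u' * w'), Nat.mul_pos (Nat.mul_pos hu0 hw0)
      (Nat.mul_pos hu0' hw0'), ?_, ?_⟩
    · calc u * w * (u' * w') ≤ T * T * (T * T) := by gcongr
        _ = T ^ 4 := by ring
    · exact TH526.ZL.sq_tie' (hQ i j) (hrel i j k hk.symm (hcls ▸ hk.symm)).2 (V l) (hg l)
        (hEg l i hi) (hEg l j hj) h1 huw huw'
  have hLle := comb cls Fr E hE hmaps (fun l l' hll i j hij hcls hi hj hi' hj' => by
    obtain ⟨q, hq0, hqT, f, hf⟩ := key l i j hi hj hcls
    obtain ⟨q', hq0', hqT', f', hf'⟩ := key l' i j hi' hj' hcls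
    refine hsq l l' hll i j hij (q * q') (Nat.mul_pos hq0 hq0') ?_ ?_
    · calc q * q' ≤ T ^ 4 * T ^ 4 := Nat.mul_le_mul hqT hqT'
        _ = T ^ 8 := by ring
    · refine isSquare_of_mul_sq (m := Q i j) (hQ _ _) ⟨f * f', ?_⟩
      calc _ = (Q i j * (e l i * e l j) * q) *
            (Q i j * (e l' i * e l' j) * q') := by ring
        _ = (f * f) * (f' * f') := by rw [hf, hf']
        _ = f * f' * (f * f') := by ring) (by omega)
  omega

end Pool.Agent.X295
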