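import Mathlib

/-!
Points of an irreducible hypersurface which avoid countably many proper closed subsets (helper file).
-/

set_option autoImplicit false

namespace Pool.Agent.X295.Dyn

open MvPolynomial

/-- A polynomial as a polynomial in the variable `j0`. -/
noncomputable def asP {q : ℕ} (j0 : Fin q) (h : MvPolynomial (Fin q) ℂ) :
    Polynomial (MvPolynomial {j : Fin q // j ≠ j0} ℂ) :=
  optionEquivLeft ℂ {j : Fin q // j ≠ j0} (rename (Equiv.optionSubtypeNe j0).symm h)

theorem asP_ne_zero {q : ℕ} (j0 : Fin q) {h : MvPolynomial (Fin q) ℂ} (hh : h ≠ 0) :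
    asP j0 h ≠ 0 := by
  intro h0
  apply hh
  have h1 := (optionEquivLeft ℂ {j : Fin q // j ≠ j0}).injective (h0.trans (map_zero _).symm)
  exact rename_injective _ (Equiv.injective _) (h1.trans (map_zero _).symm)

/-- the value -/
theorem eval_asP {q : ℕ} (j0 : Fin q) (h : MvPolynomial (Fin q) ℂ) {R : Type} [CommRing R]
    (ψ : MvPolynomial (Fin q) ℂ →+* R) (φ : MvPolynomial {j : Fin q // j ≠ j0} ℂ →+* R)
    (hφ : ∀ j : {j : Fin q // j ≠ j0}, φ (X j) = ψ (X j)) (hC : ∀ c, φ (C c) = ψ (C c)) :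
    Polynomial.eval₂ φ (ψ (X j0)) (asP j0 h) = ψ h := by
  have h1 : (Polynomial.eval₂RingHom φ (ψ (X j0))).comp
      ((optionEquivLeft ℂ {j : Fin q // j ≠ j0}).toRingEquiv.toRingHom.comp
        (rename (Equiv.optionSubtypeNe j0).symm : MvPolynomial (Fin q) ℂ →ₐ[ℂ] _).toRingHom) =
      ψ := by
    refine MvPolynomial.ringHom_ext (fun r => ?_) (fun j => ?_)
    · simp [hC]
    · by_cases hj : j = j0
      · subst hj
        simp [optionEquivLeft_X_none]
      · simp [Equiv.optionSubtypeNe_symm_of_ne hj, optionEquivLeft_X_some, hφ ⟨j, hj⟩]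
  exact congrArg (fun f : MvPolynomial (Fin q) ℂ →+* R => f h) h1

/-- Elimination of a variable. -/
theorem elimC {q : ℕ} (j0 : Fin q) (h : MvPolynomial (Fin q) ℂ) (hp : Prime h)
    (M : MvPolynomial (Fin q) ℂ) (hM : ¬ h ∣ M) :
    ∃ r : MvPolynomial {j : Fin q // j ≠ j0} ℂ, r ≠ 0 ∧ ∃ A B : MvPolynomial (Fin q) ℂ,
      rename Subtype.val r = A * h + B * M := by
  have hI : (Ideal.span {h}).IsPrime := (Ideal.span_singleton_prime hp.ne_zero).2 hp
  let R := MvPolynomial (Fin q) ℂ ⧸ Ideal.span {h}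
  let B := MvPolynomial {j : Fin q // j ≠ j0} ℂ
  let π : MvPolynomial (Fin q) ℂ →+* R := Ideal.Quotient.mk _
  let φ : B →+* R := π.comp (rename Subtype.val : B →ₐ[ℂ] MvPolynomial (Fin q) ℂ).toRingHom
  let _ : Algebra B R := φ.toAlgebra
  have hφX : ∀ j : {j : Fin q // j ≠ j0}, φ (X j) = π (X j) := fun j => by
    show π (rename Subtype.val (X j)) = _
    rw [rename_X]
  have hφC : ∀ c, φ (C c) = π (C c) := fun c => by
    show π (rename Subtype.val (C c)) = _
    rw [rename_C]
  let S : Subalgebra B R := Subalgebra.algebraicClosure B R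
  have hall : ∀ P, π P ∈ S := by
    intro P
    induction P using MvPolynomial.induction_on with
    | C c =>
      rw [← hφC]
      exact S.algebraMap_mem (C c)
    | add P Q hP hQ =>
      rw [map_add]
      exact S.add_mem hP hQ
    | mul_X P j hP =>
      rw [map_mul]
      refine S.mul_mem hP ?_
      by_cases hj : j = j0
      · subst hj
        refine ⟨asP j h, asP_ne_zero j hp.ne_zero, ?_⟩
        rw [Polynomial.aeval_def]
        have h1 := eval_asP j h π φ hφX hφC
        have h2 : π h = 0 := Ideal.Quotient.eq_zero_iff_mem.2 (Ideal.mem_span_singleton_self h)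
        exact h1.trans h2
      · rw [← hφX ⟨j, hj⟩]
        exact S.algebraMap_mem (X ⟨j, hj⟩)
  have hM0 : π M ≠ 0 := fun h0 => hM (Ideal.mem_span_singleton.1
    (Ideal.Quotient.eq_zero_iff_mem.1 h0))
  have halg : IsAlgebraic B (π M) := hall M
  obtain ⟨r, hr0, b, hb⟩ := halg.exists_nonzero_dvd (mem_nonZeroDivisors_of_ne_zero hM0)
  obtain ⟨b', rfl⟩ := Ideal.Quotient.mk_surjective b
  refine ⟨r, hr0, ?_⟩
  have h1 : π (rename Subtype.val r) = π (M * b') := by
    rw [map_mul]
    exact hb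
  have h2 := Ideal.Quotient.eq.1 h1
  obtain ⟨A, hA⟩ := Ideal.mem_span_singleton.1 h2
  refine ⟨A, b', ?_⟩
  rw [sub_eq_iff_eq_add] at hA
  rw [hA]
  ring

/-- A point which avoids countably many hypersurfaces. -/
theorem exists_avoid (n : ℕ) (P : ℕ → MvPolynomial (Fin n) ℂ) (hP : ∀ i, P i ≠ 0) :
    ∃ v : Fin n → ℂ, ∀ i, eval v (P i) ≠ 0 := by
  induction n with
  | zero =>
    refine ⟨fun i => i.elim0, fun i h => hP i ?_⟩
    rw [MvPolynomial.eq_C_of_isEmpty (P i)] at h ⊢
    rw [eval_C] at h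
    rw [h, C_0]
  | succ n ih =>
    have h1 : ∀ i, finSuccEquiv ℂ n (P i) ≠ 0 := fun i h =>
      hP i ((finSuccEquiv ℂ n).injective (h.trans (map_zero _).symm))
    obtain ⟨v, hv⟩ := ih (fun i => (finSuccEquiv ℂ n (P i)).leadingCoeff) fun i =>
      Polynomial.leadingCoeff_ne_zero.2 (h1 i)
    have h2 : ∀ i, (finSuccEquiv ℂ n (P i)).map (eval v) ≠ 0 := fun i h => by
      have h3 := congrArg (fun p : Polynomial ℂ => p.coeff (finSuccEquiv ℂ n (P i)).natDegree) h
      simp only [Polynomial.coeff_map, Polynomial.coeff_zero] at h3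
      exact hv i h3
    have h3 : (⋃ i, {t : ℂ | ((finSuccEquiv ℂ n (P i)).map (eval v)).IsRoot t}).Countable :=
      Set.countable_iUnion fun i => (Polynomial.finite_setOfPred_isRoot (h2 i)).countable
    obtain ⟨t, ht⟩ : ∃ t : ℂ, t ∉ ⋃ i, {t : ℂ |
        ((finSuccEquiv ℂ n (P i)).map (eval v)).IsRoot t} := by
      by_contra hcon
      push Not at hcon
      have h4 : (Set.univ : Set ℂ).Countable := h3.mono fun t _ => hcon t
      exact not_countable_complex h4
    refine ⟨Fin.cons t v, fun i h => ht (Set.mem_iUnion.2 ⟨i, ?_⟩)⟩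
    rw [Set.mem_ofPred_eq, Polynomial.IsRoot.def]
    rw [eval_eq_eval_mv_eval'] at h
    exact h

/-- Points of an irreducible hypersurface. -/
theorem exists_generic {q : ℕ} (h : MvPolynomial (Fin q) ℂ) (hirr : Irreducible h)
    (M : ℕ → MvPolynomial (Fin q) ℂ) (hM : ∀ i, ¬ h ∣ M i) :
    ∃ u : Fin q → ℂ, eval u h = 0 ∧ ∀ i, eval u (M i) ≠ 0 := by
  classical
  obtain ⟨j0, hj0⟩ : ∃ j0 : Fin q, 0 < (asP j0 h).natDegree := by
    by_contra hcon
    push Not at hcon
    have h1 : h.vars = ∅ := by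
      rw [Finset.eq_empty_iff_forall_notMem]
      intro j hj
      rw [mem_vars_iff_degreeOf_ne_zero] at hj
      apply hj
      have h2 := hcon j
      rw [asP, natDegree_optionEquivLeft] at h2
      have h3 := degreeOf_rename_of_injective (p := h) (Equiv.optionSubtypeNe j).symm.injective j
      rw [Equiv.optionSubtypeNe_symm_self] at h3
      omega
    rw [vars_eq_empty_iff_eq_C] at h1
    apply hirr.not_isUnit
    rw [h1]
    refine IsUnit.map _ (isUnit_iff_ne_zero.2 fun h0 => ?_)
    rw [h0, map_zero] at h1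
    exact hirr.ne_zero h1
  choose r hr A B hAB using fun i => elimC j0 h hirr.prime (M i) (hM i)
  have hlc : (asP j0 h).leadingCoeff ≠ 0 := by
    rw [Polynomial.leadingCoeff_ne_zero]
    exact asP_ne_zero j0 hirr.ne_zero
  let e := Fintype.equivFin {j : Fin q // j ≠ j0}
  let P : ℕ → MvPolynomial {j : Fin q // j ≠ j0} ℂ := fun i =>
    Nat.casesOn i (asP j0 h).leadingCoeff r
  have hP : ∀ i, P i ≠ 0 := fun i => by
    cases i with
    | zero => exact hlc
    | succ i => exact hr i
  obtain ⟨v, hv⟩ := exists_avoid _ (fun i => rename e (P i)) fun i h0 =>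
    hP i (rename_injective _ e.injective (h0.trans (map_zero _).symm))
  set v' : {j : Fin q // j ≠ j0} → ℂ := v ∘ e with hv'
  have hv1 : ∀ i, eval v' (P i) ≠ 0 := fun i => by
    rw [hv', ← eval_rename]
    exact hv i
  have hv2 : eval v' (asP j0 h).leadingCoeff ≠ 0 := hv1 0
  have hv3 : ∀ i, eval v' (r i) ≠ 0 := fun i => hv1 (i + 1)
  obtain ⟨t, ht⟩ : ∃ t, ((asP j0 h).map (eval v')).IsRoot t := by
    apply IsAlgClosed.exists_root
    rw [Polynomial.degree_map_eq_of_leadingCoeff_ne_zero _ hv2]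
    intro h0
    rw [Polynomial.natDegree_eq_zero_iff_degree_le_zero.2 h0.le] at hj0
    exact lt_irrefl _ hj0
  let u : Fin q → ℂ := fun j => if hj : j = j0 then t else v' ⟨j, hj⟩
  have hu0 : u j0 = t := dif_pos rfl
  have hu1 : ∀ j : {j : Fin q // j ≠ j0}, u j = v' j := fun j => dif_neg j.2
  have hh : eval u h = 0 := by
    rw [← eval_asP j0 h (eval u) (eval v') (fun j => by simp [hu1]) (fun c => by simp)]
    rw [eval_X, hu0, ← Polynomial.eval_map]
    exact ht
  refine ⟨u, hh, fun i h0 => hv3 i ?_⟩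
  have h1 := congrArg (eval u) (hAB i)
  rw [map_add, map_mul, map_mul, hh, h0, mul_zero, mul_zero, add_zero, eval_rename] at h1
  have h2 : u ∘ Subtype.val = v' := _root_.funext hu1
  rwa [h2] at h1

end Pool.Agent.X295.Dyn
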