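import Pool.Agent.X295.DynH
import Pool.Agent.X295.DynB

/-!
Families with several parameters of orbits which are preperiodic along divisors: the number of the
exceptional integral parameters (helper file).
-/

set_option autoImplicit false

namespace Pool.Agent.X295.Dyn

open MvPolynomial Pool.Agent.H936R2 Pool.Agent.Y199.DM

/-- Two iterates of `P` are proportional: the orbit of the point of the projective space is finite, or
it is not defined. -/
def FiniteOrbit {N : ℕ} (F : Fin (N + 1) → MvPolynomial (Fin (N + 1)) ℂ)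
    (P : Fin (N + 1) → ℂ) : Prop :=
  ∃ n₀ m : ℕ, 0 < m ∧ ∃ c : ℂ, (pt F)^[n₀ + m] P = c • (pt F)^[n₀] P

theorem uniform {q N : ℕ}
    (F : Fin (N + 1) → MvPolynomial (Fin (N + 1)) (MvPolynomial (Fin q) ℂ))
    (x : Fin (N + 1) → MvPolynomial (Fin q) ℂ) (h : MvPolynomial (Fin q) ℂ) (hirr : Irreducible h)
    (hper : ∀ u, eval u h = 0 → FiniteOrbit (member F u) (start x u)) :
    ∃ n₀ m : ℕ, 0 < m ∧ ∀ u, eval u h = 0 → ∀ i j,
      (pt (member F u))^[n₀ + m] (start x u) i * (pt (member F u))^[n₀] (start x u) j =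
      (pt (member F u))^[n₀ + m] (start x u) j * (pt (member F u))^[n₀] (start x u) i := by
  by_contra hcon
  push Not at hcon
  have h1 : ∀ k : ℕ, ∃ i j, ¬ h ∣ (pt F)^[k.unpair.1 + (k.unpair.2 + 1)] x i *
      (pt F)^[k.unpair.1] x j - (pt F)^[k.unpair.1 + (k.unpair.2 + 1)] x j *
      (pt F)^[k.unpair.1] x i := by
    intro k
    obtain ⟨u, hu, i, j, hij⟩ := hcon k.unpair.1 (k.unpair.2 + 1) (Nat.succ_pos _)
    refine ⟨i, j, ?_⟩
    rintro ⟨w, hw⟩
    apply hij
    simp only [orb_eval]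
    rw [← sub_eq_zero, ← map_mul, ← map_mul, ← map_sub, hw, map_mul, hu, zero_mul]
  choose i j hij using h1
  obtain ⟨u, hu, hne⟩ := exists_generic h hirr _ hij
  obtain ⟨n₀, m, hm, c, hc⟩ := hper u hu
  apply hne (Nat.pair n₀ (m - 1))
  have e1 : (Nat.pair n₀ (m - 1)).unpair.1 = n₀ := by rw [Nat.unpair_pair]
  have e2 : (Nat.pair n₀ (m - 1)).unpair.2 + 1 = m := by
    rw [Nat.unpair_pair]
    omega
  rw [e1, e2, map_sub, map_mul, map_mul, ← orb_eval, ← orb_eval, ← orb_eval, ← orb_eval, hc]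
  simp only [Pi.smul_apply, smul_eq_mul]
  ring

/-- The number of the exceptional parameters. -/
theorem count_near {q N d M : ℕ} {κ : Type} [Finite κ]
    (F : Fin (N + 1) → MvPolynomial (Fin (N + 1)) (MvPolynomial (Fin q) ℂ))
    (hF : ∀ i, (F i).IsHomogeneous d) (x : Fin (N + 1) → MvPolynomial (Fin q) ℂ)
    (G : κ → MvPolynomial (Fin (N + 1)) (MvPolynomial (Fin q) ℂ)) (e : κ → ℕ)
    (hG : ∀ k, (G k).IsHomogeneous (e k))
    (h : Fin M → MvPolynomial (Fin q) ℂ) (hirr : ∀ l, Irreducible (h l))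
    (halg : ∀ l μ, IsAlgebraic ℚ ((h l).coeff μ))
    (hper : ∀ l u, eval u (h l) = 0 → FiniteOrbit (member F u) (start x u))
    (a : Fin M → Fin q → ℂ) (ha : ∀ l, eval (a l) (h l) = 0)
    (hne : ∀ l n, (pt (member F (a l)))^[n] (start x (a l)) ≠ 0) {ε : ℝ} (hε : 0 < ε)
    (S : Set (Fin q → ℤ)) (hS : ∀ u ∈ S, ¬ ∀ l : Fin M,
      (∀ n, (pt (member F fun j => (u j : ℂ)))^[n] (start x fun j => (u j : ℂ)) ≠ 0) ∧
        returnSet (member F fun j => (u j : ℂ)) (start x fun j => (u j : ℂ))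
          (member G fun j => (u j : ℂ)) ⊆
            returnSet (member F (a l)) (start x (a l)) (member G (a l)) ∧
        (EventuallyEtale (member F (a l)) (start x (a l)) →
          DMLAt (member F fun j => (u j : ℂ)) (start x fun j => (u j : ℂ)))) :
    ∃ C : ℝ, ∀ H : ℕ, 1 ≤ H → ((S ∩ {u | ∀ j, |u j| ≤ H}).ncard : ℝ) ≤
      C * (H : ℝ) ^ ((q : ℝ) - 1 + ε) := by
  choose n₀ m hm hmin using fun l => uniform F x (h l) (hirr l) (hper l)
  choose h' j0 ρ D hj0 hρ hD using fun l => near_div F hF x G e hG (h l) (hirr l) (halg l) (n₀ l)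
    (m l) (hm l) (hmin l) (a l) (ha l) (hne l)
  refine count_union h' j0 hj0 ρ hρ (∑ l, D l) hε S fun u hu => ?_
  by_contra hcon
  push Not at hcon
  refine hS u hu fun l => hD l u ?_
  obtain ⟨h1, p, hp, hpD, hpN, hpρ⟩ := hcon l
  refine ⟨h1, p, hp, lt_of_le_of_lt ?_ hpD, hpN, hpρ⟩
  exact Finset.single_le_sum (f := D) (fun _ _ => Nat.zero_le _) (Finset.mem_univ l)

/-- The Dynamical Mordell-Lang property along one divisor. -/
theorem dml_family {q N d : ℕ}
    (F : Fin (N + 1) → MvPolynomial (Fin (N + 1)) (MvPolynomial (Fin q) ℂ))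
    (hF : ∀ i, (F i).IsHomogeneous d) (x : Fin (N + 1) → MvPolynomial (Fin q) ℂ)
    (h : MvPolynomial (Fin q) ℂ) (hirr : Irreducible h) (halg : ∀ μ, IsAlgebraic ℚ (h.coeff μ))
    (hper : ∀ u, eval u h = 0 → FiniteOrbit (member F u) (start x u))
    (a : Fin q → ℂ) (ha : eval a h = 0) (het : EtalePreperiodic (member F a) (start x a))
    {ε : ℝ} (hε : 0 < ε) :
    ∃ C : ℝ, ∀ H : ℕ, 1 ≤ H → (({u : Fin q → ℤ | (∀ j, |u j| ≤ H) ∧
      ¬ DMLAt (member F fun j => (u j : ℂ)) (start x fun j => (u j : ℂ))}).ncard : ℝ) ≤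
      C * (H : ℝ) ^ ((q : ℝ) - 1 + ε) := by
  obtain ⟨hne, n₀, m, hm, -, hdet⟩ := het
  obtain ⟨C, hC⟩ := count_near (M := 1) (κ := Empty) F hF x (fun k => k.elim) (fun k => k.elim)
    (fun k => k.elim) (fun _ => h) (fun _ => hirr) (fun _ => halg) (fun _ => hper) (fun _ => a)
    (fun _ => ha) (fun _ => hne) hε
    {u | ¬ DMLAt (member F fun j => (u j : ℂ)) (start x fun j => (u j : ℂ))}
    (fun u hu h1 => hu ((h1 0).2.2 ⟨n₀, hdet⟩))
  refine ⟨C, fun H hH => ?_⟩
  refine le_trans (le_of_eq ?_) (hC H hH)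
  congr 2
  exact Set.ext fun u => and_comm

/-- The return sets of families with several preperiodic divisors. -/
theorem returns_family {q N d M : ℕ} {κ : Type} [Finite κ]
    (F : Fin (N + 1) → MvPolynomial (Fin (N + 1)) (MvPolynomial (Fin q) ℂ))
    (hF : ∀ i, (F i).IsHomogeneous d) (x : Fin (N + 1) → MvPolynomial (Fin q) ℂ)
    (G : κ → MvPolynomial (Fin (N + 1)) (MvPolynomial (Fin q) ℂ)) (e : κ → ℕ)
    (hG : ∀ k, (G k).IsHomogeneous (e k))
    (h : Fin M → MvPolynomial (Fin q) ℂ) (hirr : ∀ l, Irreducible (h l))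
    (halg : ∀ l μ, IsAlgebraic ℚ ((h l).coeff μ))
    (hper : ∀ l u, eval u (h l) = 0 → FiniteOrbit (member F u) (start x u))
    (a : Fin M → Fin q → ℂ) (ha : ∀ l, eval (a l) (h l) = 0)
    (hne : ∀ l n, (pt (member F (a l)))^[n] (start x (a l)) ≠ 0)
    (hfin : (⋂ l, returnSet (member F (a l)) (start x (a l)) (member G (a l))).Finite ∨
      ∃ l, EventuallyEtale (member F (a l)) (start x (a l))) {ε : ℝ} (hε : 0 < ε) :
    ∃ C : ℝ, ∀ H : ℕ, 1 ≤ H → (({u : Fin q → ℤ | (∀ j, |u j| ≤ H) ∧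
      ¬ ((∀ n, (pt (member F fun j => (u j : ℂ)))^[n] (start x fun j => (u j : ℂ)) ≠ 0) ∧
        IsFiniteUnionOfAP (returnSet (member F fun j => (u j : ℂ)) (start x fun j => (u j : ℂ))
          (member G fun j => (u j : ℂ))) ∧
        ∀ l, returnSet (member F fun j => (u j : ℂ)) (start x fun j => (u j : ℂ))
          (member G fun j => (u j : ℂ)) ⊆
            returnSet (member F (a l)) (start x (a l)) (member G (a l)))}).ncard : ℝ) ≤
      C * (H : ℝ) ^ ((q : ℝ) - 1 + ε) := by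
  have hM : Nonempty (Fin M) := by
    rcases hfin with h1 | ⟨l, -⟩
    · by_contra hcon
      rw [not_nonempty_iff] at hcon
      rw [Set.iInter_of_empty] at h1
      exact Set.infinite_univ h1
    · exact ⟨l⟩
  obtain ⟨C, hC⟩ := count_near F hF x G e hG h hirr halg hper a ha hne hε
    {u | ¬ ((∀ n, (pt (member F fun j => (u j : ℂ)))^[n] (start x fun j => (u j : ℂ)) ≠ 0) ∧
        IsFiniteUnionOfAP (returnSet (member F fun j => (u j : ℂ)) (start x fun j => (u j : ℂ))
          (member G fun j => (u j : ℂ))) ∧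
        ∀ l, returnSet (member F fun j => (u j : ℂ)) (start x fun j => (u j : ℂ))
          (member G fun j => (u j : ℂ)) ⊆
            returnSet (member F (a l)) (start x (a l)) (member G (a l)))} (by
      intro u hu hall
      apply hu
      refine ⟨(hall (Classical.choice hM)).1, ?_, fun l => (hall l).2.1⟩
      rcases hfin with h1 | ⟨l, hl⟩
      · exact isFiniteUnionOfAP_of_finite (h1.subset (Set.subset_iInter fun l => (hall l).2.1))
      · obtain ⟨T, hT⟩ := ((hall l).2.2 hl).2 (Set.range (member G fun j => (u j : ℂ)))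
        refine ⟨T, ?_⟩
        rw [← hT]
        ext n
        constructor
        · rintro hn g ⟨k, rfl⟩
          exact hn k
        · intro hn k
          exact hn _ ⟨k, rfl⟩)
  refine ⟨C, fun H hH => ?_⟩
  refine le_trans (le_of_eq ?_) (hC H hH)
  congr 2
  exact Set.ext fun u => and_comm

end Pool.Agent.X295.Dyn
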