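import Pool.Agent.Y152.RP.Fam
import Pool.Agent.X295.NearM2

/-!
Families of subsets of `Y(1)^n` with several parameters: definitions and main theorems
(helper file). The special subvarieties and the property `NoAtypical` are those of the helper file
`Pool.Agent.Y152.RP.Fam`.
-/

set_option autoImplicit false

namespace Pool.Agent.X295

open H294ZP UpperHalfPlane MvPolynomial Pool.Agent.W282.ZP Pool.Agent.Y152.RP.Fam
  Pool.Agent.Y152.BD

/-- The value at `u` of a polynomial in the parameters with coefficients in `K`. -/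
noncomputable def evalAt (K : Subfield ℂ) {q : ℕ} (u : Fin q → ℂ) :
    MvPolynomial (Fin q) K →+* ℂ :=
  (MvPolynomial.aeval u : MvPolynomial (Fin q) K →ₐ[K] ℂ).toRingHom

/-- `y` is a vector of homogeneous coordinates of a point of the member `B_u` of the family of
projective algebraic sets defined by the forms `G k`. -/
def OnB {K : Subfield ℂ} {q : ℕ} (u : Fin q → ℂ) {N : ℕ} {κ : Type}
    (G : κ → MvPolynomial (Fin (N + 1)) (MvPolynomial (Fin q) K)) (y : Fin (N + 1) → ℂ) : Prop :=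
  y ≠ 0 ∧ ∀ k, eval₂ (evalAt K u) y (G k) = 0

/-- The divisors of the `A i / B i` are in general position at `u`: no point of `B_u` lies on
`m + 1` of them. -/
def InGeneralPosition {K : Subfield ℂ} {q : ℕ} (u : Fin q → ℂ) {N n : ℕ} {κ : Type} (m : ℕ)
    (G : κ → MvPolynomial (Fin (N + 1)) (MvPolynomial (Fin q) K))
    (A B : Fin n → MvPolynomial (Fin (N + 1)) (MvPolynomial (Fin q) K)) : Prop :=
  ∀ I : Finset (Fin n), I.card = m + 1 → ∀ y : Fin (N + 1) → ℂ, OnB u G y →
    ∃ i ∈ I, eval₂ (evalAt K u) y (A i) * eval₂ (evalAt K u) y (B i) ≠ 0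

/-- The member `X_u` of the family of subsets of `Y(1)^n`: the points `x` over which there are
values `s_i` of the functions on the factors of the product of modular curves, with
`c_i (u) s_i = A_i (y) / B_i (y)` for a point `y` of `B_u`. -/
def scaledImage {K : Subfield ℂ} {q : ℕ} (u : Fin q → ℂ) {N n : ℕ} {κ : Type}
    (G : κ → MvPolynomial (Fin (N + 1)) (MvPolynomial (Fin q) K))
    (A B : Fin n → MvPolynomial (Fin (N + 1)) (MvPolynomial (Fin q) K))
    (R : Fin n → Polynomial (Polynomial K)) (c : Fin n → MvPolynomial (Fin q) K) :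
    Set (Fin n → ℂ) :=
  {x | ∃ y, OnB u G y ∧ ∃ s : Fin n → ℂ, ∀ i, valueAt (R i) (s i) (x i) = 0 ∧
    evalAt K u (c i) * eval₂ (evalAt K u) y (B i) * s i = eval₂ (evalAt K u) y (A i)}

/-- The family degenerates along the irreducible hypersurface `h = 0` of the space of parameters:
`c_i` vanishes along it exactly to the order `e_i`, and at one of its points (with algebraic
coordinates) the divisors of the `A_i / B_i` are in general position. -/
def DegeneratesAlong {K : Subfield ℂ} {q N n : ℕ} {κ : Type} (m : ℕ)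
    (G : κ → MvPolynomial (Fin (N + 1)) (MvPolynomial (Fin q) K))
    (A B : Fin n → MvPolynomial (Fin (N + 1)) (MvPolynomial (Fin q) K))
    (c : Fin n → MvPolynomial (Fin q) K) (h : MvPolynomial (Fin q) ℤ) (e : Fin n → ℕ) : Prop :=
  Irreducible (MvPolynomial.map (Int.castRingHom ℂ) h) ∧
  (∀ i, ∃ g : MvPolynomial (Fin q) K, c i = MvPolynomial.map (Int.castRingHom K) h ^ e i * g ∧
    ∃ u : Fin q → ℂ, aeval u h = 0 ∧ evalAt K u g ≠ 0) ∧
  ∃ u : Fin q → ℂ, (∀ j, IsAlgebraic ℚ (u j)) ∧ aeval u h = 0 ∧ InGeneralPosition u m G A B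

/-- irreducibility over a subfield -/
theorem irr_of {k : Type} [Field k] [Algebra k ℂ] {q : ℕ} {h : MvPolynomial (Fin q) ℤ}
    (hirr : Irreducible (MvPolynomial.map (Int.castRingHom ℂ) h)) :
    Irreducible (MvPolynomial.map (Int.castRingHom k) h) := by
  have hmap : MvPolynomial.map (Int.castRingHom ℂ) h =
      MvPolynomial.map (algebraMap k ℂ) (MvPolynomial.map (Int.castRingHom k) h) := by
    rw [MvPolynomial.map_map, RingHom.ext_int ((algebraMap k ℂ).comp (Int.castRingHom k))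
      (Int.castRingHom ℂ)]
  rw [hmap] at hirr
  have hunit : ∀ a : MvPolynomial (Fin q) k, IsUnit (MvPolynomial.map (algebraMap k ℂ) a) →
      IsUnit a := by
    intro a ha
    obtain ⟨r, hr, hr'⟩ := isUnit_iff_eq_C_of_isReduced.1 ha
    have h1 : algebraMap k ℂ (coeff 0 a) = r := by
      have h2 := congrArg (coeff 0) hr'
      rwa [coeff_map, coeff_zero_C] at h2
    have h2 : a = C (coeff 0 a) := by
      apply MvPolynomial.map_injective (algebraMap k ℂ) (algebraMap k ℂ).injective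
      rw [hr', MvPolynomial.map_C, h1]
    rw [h2]
    refine IsUnit.map _ (isUnit_iff_ne_zero.2 fun h0 => ?_)
    rw [h0, map_zero] at h1
    rw [← h1] at hr
    exact not_isUnit_zero hr
  refine ⟨fun hu => hirr.not_isUnit (hu.map _), fun a b hab => ?_⟩
  rw [hab, map_mul] at hirr
  rcases hirr.isUnit_or_isUnit rfl with h1 | h1
  · exact Or.inl (hunit a h1)
  · exact Or.inr (hunit b h1)

/-- an irreducible polynomial contains one of the variables -/
theorem exists_var {q : ℕ} {h : MvPolynomial (Fin q) ℤ}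
    (hirr : Irreducible (MvPolynomial.map (Int.castRingHom ℂ) h)) :
    ∃ j0 : Fin q, 0 < (asPoly j0 h).natDegree := by
  by_contra hcon
  push Not at hcon
  have h1 : h.vars = ∅ := by
    rw [Finset.eq_empty_iff_forall_notMem]
    intro j hj
    rw [mem_vars_iff_degreeOf_ne_zero] at hj
    apply hj
    have h2 := hcon j
    rw [asPoly, natDegree_optionEquivLeft] at h2
    have h3 : (rename (Equiv.optionSubtypeNe j).symm h).degreeOf
        ((Equiv.optionSubtypeNe j).symm j) = h.degreeOf j :=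
      degreeOf_rename_of_injective (Equiv.injective _) j
    rw [Equiv.optionSubtypeNe_symm_self] at h3
    omega
  rw [vars_eq_empty_iff_eq_C] at h1
  rw [h1, MvPolynomial.map_C] at hirr
  by_cases h0 : (Int.castRingHom ℂ) (coeff 0 h) = 0
  · rw [h0, map_zero] at hirr
    exact hirr.ne_zero rfl
  · exact hirr.not_isUnit ((isUnit_iff_ne_zero.2 h0).map _)

theorem v_int_lt (V : ValuationSubring ℂ) {p : ℕ} (hp : V.valuation (p : ℂ) < 1) {z : ℤ}
    (h : (p : ℤ) ∣ z) : V.valuation (z : ℂ) < 1 := by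
  obtain ⟨t, rfl⟩ := h
  push_cast
  rw [map_mul]
  exact (mul_le_of_le_one_right' (TH526.ZL.v_int_le V t)).trans_lt hp

theorem v_int_one (V : ValuationSubring ℂ) {p : ℕ} (hpp : p.Prime)
    (hp : V.valuation (p : ℂ) < 1) {z : ℤ} (h : ¬ (p : ℤ) ∣ z) : V.valuation (z : ℂ) = 1 := by
  refine le_antisymm (TH526.ZL.v_int_le V z) ?_
  by_contra hlt
  push Not at hlt
  obtain ⟨a, b, hab⟩ := ((Nat.prime_iff_prime_int.1 hpp).coprime_iff_not_dvd.2 h)
  have h1 : V.valuation ((a : ℂ) * p + (b : ℂ) * z) < 1 := by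
    refine Valuation.map_add_lt _ ?_ ?_
    · rw [map_mul]
      exact (mul_le_of_le_one_left' (TH526.ZL.v_int_le V a)).trans_lt hp
    · rw [map_mul]
      exact (mul_le_of_le_one_left' (TH526.ZL.v_int_le V b)).trans_lt hlt
  have h2 : (a : ℂ) * p + (b : ℂ) * z = 1 := by exact_mod_cast congrArg (fun t : ℤ => (t : ℂ)) hab
  rw [h2, map_one] at h1
  exact lt_irrefl _ h1

/-- The places for an integral vector of parameters. -/
theorem exists_placesM {k : Type} [Field k] [Algebra k ℂ] [CharZero k] {q : ℕ} (W : Set k)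
    (hW : W.Finite) : ∃ D : ℕ, ∀ (h ρ : MvPolynomial (Fin q) ℤ) (τ : Fin q → ℤ), Good h ρ D τ →
      ∀ (ι : Type) (x : ι → ℂ), AlgebraicIndependent k x → ∃ V : ValuationSubring ℂ,
        V.valuation ((eval τ h : ℤ) : ℂ) < 1 ∧ V.valuation ((eval τ ρ : ℤ) : ℂ) = 1 ∧
        (∀ z ∈ W, algebraMap k ℂ z ∈ V) ∧ ∀ j, x j ∈ V := by
  have := hW.to_subtype
  obtain ⟨D, hD⟩ := W466.ZC.exists_val' (fun z : W => (z : k))
  refine ⟨D, fun h ρ τ hgood ι x hx => ?_⟩
  obtain ⟨-, p, hp, hpD, h1, h2⟩ := hgood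
  obtain ⟨V, hV, hVt, hVx⟩ := hD p hp hpD ι x hx
  rw [ValuationSubring.mem_nonunits_iff] at hV
  exact ⟨V, v_int_lt V hV h1, v_int_one V hp hV h2, fun z hz => hVt ⟨z, hz⟩, hVx⟩

open Classical in
/-- The number of parameters at which one of finitely many polynomials is not good. -/
theorem count_union {q M : ℕ} (h : Fin M → MvPolynomial (Fin q) ℤ) (j0 : Fin M → Fin q)
    (hd : ∀ l, 0 < (asPoly (j0 l) (h l)).natDegree)
    (ρ : ∀ l, MvPolynomial {j : Fin q // j ≠ j0 l} ℤ) (hρ : ∀ l, ρ l ≠ 0) (D : ℕ) {ε : ℝ}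
    (hε : 0 < ε) (S : Set (Fin q → ℤ))
    (hS : ∀ u ∈ S, ∃ l, ¬ Good (h l) (rename Subtype.val (ρ l)) D u) :
    ∃ C : ℝ, ∀ H : ℕ, 1 ≤ H → ((S ∩ {u | ∀ j, |u j| ≤ H}).ncard : ℝ) ≤
      C * (H : ℝ) ^ ((q : ℝ) - 1 + ε) := by
  choose C hC using fun l => bad_count (h l) (j0 l) (hd l) (ρ l) (hρ l) D hε
  refine ⟨∑ l, C l, fun H hH => ?_⟩
  have hsub : S ∩ {u | ∀ j, |u j| ≤ H} ⊆ ((Finset.univ.biUnion fun l : Fin M =>
      (box q H).filter fun u => ¬ Good (h l) (rename Subtype.val (ρ l)) D u : Finset _) :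
        Set (Fin q → ℤ)) := by
    rintro u ⟨hu, hub⟩
    obtain ⟨l, hl⟩ := hS u hu
    rw [Finset.mem_coe, Finset.mem_biUnion]
    exact ⟨l, Finset.mem_univ l, Finset.mem_filter.2 ⟨mem_box.2 hub, hl⟩⟩
  have h1 := Set.ncard_le_ncard hsub (Finset.finite_toSet _)
  rw [Set.ncard_coe_finset] at h1
  calc ((S ∩ {u | ∀ j, |u j| ≤ H}).ncard : ℝ) ≤ ((Finset.univ.biUnion fun l : Fin M =>
        (box q H).filter fun u => ¬ Good (h l) (rename Subtype.val (ρ l)) D u).card : ℝ) := by
        exact_mod_cast h1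
    _ ≤ ∑ l, (((box q H).filter fun u => ¬ Good (h l) (rename Subtype.val (ρ l)) D u).card : ℝ) := by
        exact_mod_cast Finset.card_biUnion_le
    _ ≤ ∑ l, C l * (H : ℝ) ^ ((q : ℝ) - 1 + ε) := Finset.sum_le_sum fun l _ => hC l H hH
    _ = (∑ l, C l) * (H : ℝ) ^ ((q : ℝ) - 1 + ε) := by rw [Finset.sum_mul]

end Pool.Agent.X295
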