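import Mathlib

/-!
The norm of a polynomial with algebraic coefficients (helper file).
-/

set_option autoImplicit false

namespace Pool.Agent.X295

open MvPolynomial

variable {k : Type} [Field k] [Algebra ℚ k] {ι : Type}

/-- The set of the conjugates of a polynomial is finite. -/
theorem conj_finite [Algebra.IsAlgebraic ℚ k] (h : MvPolynomial ι k) :
    (Set.range fun σ : k ≃ₐ[ℚ] k => MvPolynomial.map (σ : k →+* k) h).Finite := by
  classical
  let F : MvPolynomial ι k → (h.support → k) := fun P w => coeff w.1 P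
  refine Set.Finite.of_finite_image (f := F) ?_ ?_
  · refine (Set.Finite.pi' (t := fun w : h.support => (minpoly ℚ (coeff w.1 h)).rootSet k)
      fun w => (minpoly ℚ (coeff w.1 h)).rootSet_finite k).subset ?_
    rintro _ ⟨_, ⟨σ, rfl⟩, rfl⟩ w
    show coeff w.1 (MvPolynomial.map (σ : k →+* k) h) ∈ _
    rw [coeff_map]
    have hint : IsIntegral ℚ (coeff w.1 h) := Algebra.IsIntegral.isIntegral _
    refine (Polynomial.mem_rootSet_of_ne (minpoly.ne_zero hint)).2 ?_
    have h1 := congrArg σ (minpoly.aeval ℚ (coeff w.1 h))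
    rw [map_zero] at h1
    have h2 := Polynomial.aeval_algHom_apply (σ : k →ₐ[ℚ] k) (coeff w.1 h)
      (minpoly ℚ (coeff w.1 h))
    exact h2.trans h1
  · rintro _ ⟨σ, rfl⟩ _ ⟨τ, rfl⟩ hst
    ext w
    by_cases hw : w ∈ h.support
    · exact congrFun hst ⟨w, hw⟩
    · rw [coeff_map, coeff_map, notMem_support_iff.1 hw, map_zero, map_zero]

/-- clearing denominators -/
theorem clear_den (P : MvPolynomial ι ℚ) : ∃ (N : MvPolynomial ι ℤ) (D : ℕ), D ≠ 0 ∧
    MvPolynomial.map (Int.castRingHom ℚ) N = C (D : ℚ) * P := by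
  classical
  let D : ℕ := ∏ w ∈ P.support, (coeff w P).den
  have hD : D ≠ 0 := Finset.prod_ne_zero_iff.2 fun w _ => (coeff w P).den_nz
  refine ⟨∑ w ∈ P.support, monomial w ((D : ℚ) * coeff w P).num, D, hD, ?_⟩
  ext w
  rw [coeff_map, coeff_C_mul, coeff_sum]
  simp only [coeff_monomial]
  by_cases hw : w ∈ P.support
  · rw [Finset.sum_ite_eq' P.support w, if_pos hw]
    obtain ⟨e, he⟩ : (coeff w P).den ∣ D := Finset.dvd_prod_of_mem _ hw
    have h1 : (D : ℚ) * coeff w P = ((e * (coeff w P).num : ℤ) : ℚ) := by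
      have h2 := Rat.mul_den_eq_num (coeff w P)
      rw [he]
      push_cast
      rw [← h2]
      ring
    rw [h1, Rat.num_intCast]
    rfl
  · rw [Finset.sum_ite_eq' P.support w, if_neg hw, notMem_support_iff.1 hw, mul_zero, map_zero]

/-- The norm. -/
theorem exists_norm [IsGalois ℚ k] (h : MvPolynomial ι k) :
    ∃ (N : MvPolynomial ι ℤ) (D : ℕ) (O : Finset (k ≃ₐ[ℚ] k)), D ≠ 0 ∧
      (∃ σ ∈ O, MvPolynomial.map (σ : k →+* k) h = h) ∧
      MvPolynomial.map (Int.castRingHom k) N =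
        C (D : k) * ∏ σ ∈ O, MvPolynomial.map (σ : k →+* k) h := by
  classical
  have : Algebra.IsAlgebraic ℚ k := Algebra.IsIntegral.isAlgebraic
  have hfin := conj_finite h
  let R : Finset (MvPolynomial ι k) := hfin.toFinset
  have hR : ∀ P, P ∈ R ↔ ∃ σ : k ≃ₐ[ℚ] k, MvPolynomial.map (σ : k →+* k) h = P := fun P => by
    rw [Set.Finite.mem_toFinset]
    rfl
  have hcomp : ∀ (τ σ : k ≃ₐ[ℚ] k) (P : MvPolynomial ι k), MvPolynomial.map (τ : k →+* k)
      (MvPolynomial.map (σ : k →+* k) P) = MvPolynomial.map ((τ * σ : k ≃ₐ[ℚ] k) : k →+* k) P := by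
    intro τ σ P
    rw [MvPolynomial.map_map]
    rfl
  have hperm : ∀ τ : k ≃ₐ[ℚ] k, R.image (MvPolynomial.map (τ : k →+* k)) = R := by
    intro τ
    refine Finset.eq_of_subset_of_card_le ?_ ?_
    · intro P hP
      obtain ⟨Q, hQ, rfl⟩ := Finset.mem_image.1 hP
      obtain ⟨σ, rfl⟩ := (hR Q).1 hQ
      rw [hcomp]
      exact (hR _).2 ⟨_, rfl⟩
    · rw [Finset.card_image_of_injective _ (MvPolynomial.map_injective _ τ.injective)]
  have hfix : ∀ τ : k ≃ₐ[ℚ] k, MvPolynomial.map (τ : k →+* k) (∏ P ∈ R, P) = ∏ P ∈ R, P := by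
    intro τ
    rw [map_prod]
    conv_rhs => rw [← hperm τ]
    rw [Finset.prod_image fun P _ Q _ hPQ => MvPolynomial.map_injective _ τ.injective hPQ]
  have hcoef : ∀ w, ∃ c : ℚ, algebraMap ℚ k c = coeff w (∏ P ∈ R, P) := by
    intro w
    have h1 : coeff w (∏ P ∈ R, P) ∈ (⊥ : IntermediateField ℚ k) := by
      rw [InfiniteGalois.mem_bot_iff_fixed]
      intro τ
      have h2 := congrArg (coeff w) (hfix τ)
      rw [coeff_map] at h2
      exact h2
    exact IntermediateField.mem_bot.1 h1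
  choose c hc using hcoef
  let P0 : MvPolynomial ι ℚ := ∑ w ∈ (∏ P ∈ R, P).support, monomial w (c w)
  have hP0 : MvPolynomial.map (algebraMap ℚ k) P0 = ∏ P ∈ R, P := by
    conv_rhs => rw [(∏ P ∈ R, P).as_sum]
    rw [map_sum]
    refine Finset.sum_congr rfl fun w _ => ?_
    rw [map_monomial, hc]
  obtain ⟨N, D, hD, hN⟩ := clear_den P0
  -- representatives
  have hch : ∀ P : R, ∃ σ : k ≃ₐ[ℚ] k, MvPolynomial.map (σ : k →+* k) h = P.1 := fun P =>
    (hR P.1).1 P.2
  choose s hs using hch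
  have hsinj : Function.Injective s := fun P Q hPQ => Subtype.ext (by rw [← hs P, ← hs Q, hPQ])
  refine ⟨N, D, Finset.univ.image s, hD, ?_, ?_⟩
  · have h1 : h ∈ R := (hR h).2 ⟨AlgEquiv.refl, by
      have : ((AlgEquiv.refl : k ≃ₐ[ℚ] k) : k →+* k) = RingHom.id k := rfl
      rw [this, MvPolynomial.map_id]⟩
    exact ⟨s ⟨h, h1⟩, Finset.mem_image.2 ⟨_, Finset.mem_univ _, rfl⟩, hs ⟨h, h1⟩⟩
  · rw [Finset.prod_image fun P _ Q _ hPQ => hsinj hPQ]
    have h1 : ∏ P : R, MvPolynomial.map ((s P : k ≃ₐ[ℚ] k) : k →+* k) h = ∏ P ∈ R, P := by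
      rw [← Finset.prod_coe_sort R fun P => P]
      exact Finset.prod_congr rfl fun P _ => hs P
    rw [h1, ← hP0]
    have h2 := congrArg (MvPolynomial.map (algebraMap ℚ k)) hN
    rw [MvPolynomial.map_map, map_mul, MvPolynomial.map_C, map_natCast] at h2
    rw [← h2, RingHom.ext_int ((algebraMap ℚ k).comp (Int.castRingHom ℚ)) (Int.castRingHom k)]

end Pool.Agent.X295
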