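import Pool.Agent.X295.Endo
import Pool.Agent.X295.NormP
import Pool.Agent.X295.Fam

/-!
Places of Gauss type over prime numbers, and places at which conjugates of the values of a polynomial
with algebraic coefficients are small (helper file).
-/

set_option autoImplicit false

namespace Pool.Agent.X295

open MvPolynomial Pool.Agent.W466

/-- The place `V` lies over `p`, and the residues of the elements `b` are algebraically independent
over the field with `p` elements. -/
structure GaussAt (V : ValuationSubring ℂ) (p : ℕ) {s : Type} (b : s → ℂ) : Prop where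
  lt : V.valuation (p : ℂ) < 1
  gauss : ∀ f : MvPolynomial s ℤ, ¬ (C (p : ℤ) ∣ f) → V.valuation (aeval b f) = 1

theorem GaussAt.unit {V : ValuationSubring ℂ} {p : ℕ} (hp : p.Prime) {s : Type} {b : s → ℂ}
    (h : GaussAt V p b) (j : s) : V.valuation (b j) = 1 := by
  have h1 := h.gauss (X j) (by
    intro hd
    rw [C_dvd_iff_dvd_coeff] at hd
    have h2 := hd (Finsupp.single j 1)
    have h3 : coeff (Finsupp.single j 1) (X j : MvPolynomial s ℤ) = 1 := by simp
    rw [h3] at h2
    exact hp.one_lt.ne' (Nat.dvd_one.1 (by exact_mod_cast h2)))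
  rwa [aeval_X] at h1

theorem GaussAt.inl {V : ValuationSubring ℂ} {p : ℕ} {s t : Type} {b : s ⊕ t → ℂ}
    (h : GaussAt V p b) : GaussAt V p (fun i => b (Sum.inl i)) := by
  refine ⟨h.lt, fun f hf => ?_⟩
  have h1 := h.gauss (rename Sum.inl f) (by
    intro hd
    apply hf
    rw [C_dvd_iff_dvd_coeff] at hd ⊢
    intro m
    have h2 := hd (m.mapDomain Sum.inl)
    rwa [coeff_rename_mapDomain _ Sum.inl_injective] at h2)
  rw [aeval_rename] at h1
  exact h1

/-- Existence. -/
theorem exists_gaussAt {s : Type} (b : s → ℂ) (hb : AlgebraicIndependent ℚ b) {p : ℕ}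
    (hp : p.Prime) : ∃ V : ValuationSubring ℂ, GaussAt V p b := by
  obtain ⟨V, hV1, -, hV3⟩ := ZP.exists_gauss b hb hp
  exact ⟨V, (ValuationSubring.mem_nonunits_iff V).1 hV1, hV3⟩

theorem mem_comap' (V : ValuationSubring ℂ) (τ : ℂ →+* ℂ) (z : ℂ) :
    z ∈ V.comap τ ↔ τ z ∈ V := Iff.rfl

theorem val_lt_iff (V : ValuationSubring ℂ) {z : ℂ} (hz : z ≠ 0) :
    V.valuation z < 1 ↔ z⁻¹ ∉ V := by
  rw [← ValuationSubring.valuation_le_one_iff, map_inv₀]
  have h1 : V.valuation z ≠ 0 := (Valuation.ne_zero_iff _).2 hz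
  rw [inv_le_one₀ (zero_lt_iff.2 h1), not_le]

theorem comap_lt (V : ValuationSubring ℂ) (τ : ℂ →+* ℂ) (z : ℂ) :
    (V.comap τ).valuation z < 1 ↔ V.valuation (τ z) < 1 := by
  by_cases hz : z = 0
  · subst hz
    simp
  · rw [val_lt_iff _ hz, val_lt_iff _ ((map_ne_zero τ).2 hz), mem_comap', map_inv₀]

theorem comap_one (V : ValuationSubring ℂ) (τ : ℂ →+* ℂ) (z : ℂ) :
    (V.comap τ).valuation z = 1 ↔ V.valuation (τ z) = 1 := by
  have h1 : (V.comap τ).valuation z ≤ 1 ↔ V.valuation (τ z) ≤ 1 := by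
    rw [ValuationSubring.valuation_le_one_iff, ValuationSubring.valuation_le_one_iff, mem_comap']
  have h2 := comap_lt V τ z
  constructor
  · intro h
    refine le_antisymm (h1.1 h.le) ?_
    by_contra hlt
    push Not at hlt
    exact (h2.2 hlt).ne h
  · intro h
    refine le_antisymm (h1.2 h.le) ?_
    by_contra hlt
    push Not at hlt
    exact (h2.1 hlt).ne h

theorem GaussAt.comap {V : ValuationSubring ℂ} {p : ℕ} {s : Type} {b : s → ℂ}
    (h : GaussAt V p b) (τ : ℂ →+* ℂ) (hτ : ∀ j, τ (b j) = b j) : GaussAt (V.comap τ) p b := by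
  have h1 : ∀ f : MvPolynomial s ℤ, τ (aeval b f) = aeval b f := by
    intro f
    have h2 : τ.comp (aeval b : MvPolynomial s ℤ →ₐ[ℤ] ℂ).toRingHom =
        (aeval b : MvPolynomial s ℤ →ₐ[ℤ] ℂ).toRingHom := by
      refine MvPolynomial.ringHom_ext (fun r => ?_) (fun j => ?_)
      · simp
      · simp [hτ]
    exact congrArg (fun φ : MvPolynomial s ℤ →+* ℂ => φ f) h2
  refine ⟨?_, fun f hf => ?_⟩
  · rw [comap_lt, map_natCast]
    exact h.lt
  · rw [comap_one, h1]
    exact h.gauss f hf

/-- At the places of Gauss type over all large prime numbers given elements of `k` are integral. -/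
theorem mem_of_gauss {k : Type} [Field k] [Algebra k ℂ] [CharZero k] (s : Set k)
    (hs : IsTranscendenceBasis ℤ ((↑) : s → k)) {ι : Type*} [Finite ι] (t : ι → k) :
    ∃ D : ℕ, ∀ p : ℕ, p.Prime → D < p → ∀ V : ValuationSubring ℂ,
      GaussAt V p (fun a : s => algebraMap k ℂ a) → ∀ i, algebraMap k ℂ (t i) ∈ V := by
  classical
  have := Fintype.ofFinite ι
  have halg : Algebra.IsAlgebraic (Algebra.adjoin ℤ (Set.range ((↑) : s → k))) k := hs.isAlgebraic
  have h1 : ∀ i, ∃ f : MvPolynomial s ℤ, f ≠ 0 ∧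
      IsIntegral (Algebra.adjoin ℤ (Set.range ((↑) : s → k)))
        (aeval ((↑) : s → k) f * t i) := by
    intro i
    obtain ⟨a, ha, hint⟩ := (halg.1 (t i)).exists_integral_multiple
    have h2 : (a : k) ∈ (aeval ((↑) : s → k) : MvPolynomial s ℤ →ₐ[ℤ] k).range := by
      rw [← Algebra.adjoin_range_eq_range_aeval]
      exact a.2
    obtain ⟨f, hf⟩ := h2
    refine ⟨f, ?_, ?_⟩
    · rintro rfl
      apply ha
      apply Subtype.ext
      rw [← hf]
      simp
    · have h3 : aeval ((↑) : s → k) f = (a : k) := hf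
      rw [h3]
      exact hint
  choose f hf hint using h1
  have h2 : ∀ i, ∃ m, (f i).coeff m ≠ 0 := fun i => by
    by_contra h
    push Not at h
    exact hf i (MvPolynomial.ext _ _ fun m => by rw [h m, coeff_zero])
  choose m hm using h2
  refine ⟨∑ i, ((f i).coeff (m i)).natAbs, fun p hp hpD V hV i => ?_⟩
  have hnd : ¬ (C (p : ℤ) ∣ f i) := by
    intro h
    rw [C_dvd_iff_dvd_coeff] at h
    have h3 : p ∣ ((f i).coeff (m i)).natAbs := Int.natCast_dvd.1 (h (m i))
    have h4 := Nat.le_of_dvd (Int.natAbs_pos.2 (hm i)) h3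
    have h5 : ((f i).coeff (m i)).natAbs ≤ ∑ i, ((f i).coeff (m i)).natAbs :=
      Finset.single_le_sum (f := fun i => ((f i).coeff (m i)).natAbs)
        (fun _ _ => Nat.zero_le _) (Finset.mem_univ i)
    omega
  have h3 := hV.gauss _ hnd
  have h7 : aeval (fun a : s => algebraMap k ℂ a) (f i) =
      algebraMap k ℂ (aeval ((↑) : s → k) (f i)) := by
    have h8 := MvPolynomial.map_aeval (R := ℤ) ((↑) : s → k) (algebraMap k ℂ) (f i)
    rw [h8, aeval_def, coe_eval₂Hom]
    congr 1
    exact RingHom.ext_int _ _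
  rw [h7] at h3
  have hVs : ∀ a : s, algebraMap k ℂ a ∈ V := fun a =>
    (ValuationSubring.valuation_le_one_iff _ _).1 (hV.unit hp a).le
  have h4 : algebraMap k ℂ (aeval ((↑) : s → k) (f i) * t i) ∈ V := by
    obtain ⟨P, hP, hPe⟩ := hint i
    have hle : ∀ z ∈ Algebra.adjoin ℤ (Set.range ((↑) : s → k)), algebraMap k ℂ z ∈ V := by
      intro z hz
      have h9 : Algebra.adjoin ℤ (Set.range ((↑) : s → k)) ≤
          (subalgebraOfSubring V.toSubring).comap ((algebraMap k ℂ).toIntAlgHom) := by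
        refine Algebra.adjoin_le ?_
        rintro _ ⟨a, rfl⟩
        exact hVs a
      exact h9 hz
    let φ : Algebra.adjoin ℤ (Set.range ((↑) : s → k)) →+* V :=
      { toFun := fun a => ⟨algebraMap k ℂ a, hle a a.2⟩
        map_one' := Subtype.ext (map_one _)
        map_mul' := fun _ _ => Subtype.ext (map_mul (algebraMap k ℂ) _ _)
        map_zero' := Subtype.ext (map_zero _)
        map_add' := fun _ _ => Subtype.ext (map_add (algebraMap k ℂ) _ _) }
    have h1 : IsIntegral V (algebraMap k ℂ (aeval ((↑) : s → k) (f i) * t i)) := by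
      refine ⟨P.map φ, hP.map φ, ?_⟩
      rw [Polynomial.eval₂_map]
      have h10 := congrArg (algebraMap k ℂ) hPe
      rw [Polynomial.hom_eval₂, map_zero] at h10
      exact h10
    obtain ⟨y, hy⟩ := IsIntegrallyClosed.isIntegral_iff.1 h1
    rw [← hy]
    exact y.2
  rw [← ValuationSubring.valuation_le_one_iff, map_mul, map_mul, h3, one_mul] at h4
  exact (ValuationSubring.valuation_le_one_iff _ _).1 h4

/-- The field of the algebraic numbers. -/
abbrev QB : Type := algebraicClosure ℚ ℂ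

instance : IsAlgClosure ℚ QB := algebraicClosure.isAlgClosure ℚ ℂ

theorem galQB : IsGalois ℚ QB := IsAlgClosure.isGalois ℚ QB

/-- The places at which a polynomial with algebraic coefficients is small. -/
theorem places_norm {q : ℕ} (h : MvPolynomial (Fin q) QB) :
    ∃ (N : MvPolynomial (Fin q) ℤ) (D : ℕ), (h ≠ 0 → N ≠ 0) ∧
      h ∣ MvPolynomial.map (Int.castRingHom QB) N ∧
      ∀ (s : Type) (b : s → ℂ), AlgebraicIndependent ℚ b → ∀ (p : ℕ), p.Prime → D < p →
      ∀ u : Fin q → ℤ, (p : ℤ) ∣ eval u N → ∃ V : ValuationSubring ℂ, GaussAt V p b ∧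
        V.valuation (algebraMap QB ℂ (eval (fun j => ((u j : ℤ) : QB)) h)) < 1 := by
  classical
  have := galQB
  obtain ⟨N, D, O, hD, ⟨σ0, hσ0, hσ0h⟩, hN⟩ := exists_norm h
  refine ⟨N, D, fun hh hN0 => ?_, ?_, ?_⟩
  · rw [hN0, map_zero] at hN
    rcases mul_eq_zero.1 hN.symm with h1 | h1
    · have h2 : (D : QB) = 0 := (C_eq_zero).1 h1
      exact hD (by exact_mod_cast h2)
    · obtain ⟨σ, -, hσ⟩ := Finset.prod_eq_zero_iff.1 h1
      apply hh
      exact MvPolynomial.map_injective _ σ.injective (hσ.trans (map_zero _).symm)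
  · rw [hN]
    have h1 := Finset.dvd_prod_of_mem (fun σ : QB ≃ₐ[ℚ] QB => MvPolynomial.map (σ : QB →+* QB) h) hσ0
    simp only [hσ0h] at h1
    exact h1.mul_left _
  · intro s b hb p hp hpD u hu
    obtain ⟨V, hV⟩ := exists_gaussAt b hb hp
    have hVD : V.valuation (D : ℂ) = 1 := by
      have h1 := v_int_one V hp hV.lt (z := (D : ℤ)) (by
        intro hd
        have h2 := Nat.le_of_dvd (Nat.pos_of_ne_zero hD) (Int.natCast_dvd_natCast.1 hd)
        omega)
      rw [Int.cast_natCast] at h1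
      exact h1
    have h1 : V.valuation ((eval u N : ℤ) : ℂ) < 1 := v_int_lt V hV.lt hu
    have h2 := congrArg (fun P => algebraMap QB ℂ (eval (fun j => ((u j : ℤ) : QB)) P)) hN
    simp only [eval_cast, map_intCast, map_mul, map_natCast, map_prod] at h2
    rw [h2, map_mul, hVD, one_mul, map_prod] at h1
    obtain ⟨σ, hσ, h3⟩ : ∃ σ ∈ O, V.valuation (algebraMap QB ℂ
        (eval (fun j => ((u j : ℤ) : QB)) (MvPolynomial.map (σ : QB →+* QB) h))) < 1 := by
      by_contra hcon
      push Not at hcon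
      exact absurd h1 (not_lt.2 (Finset.one_le_prod' fun σ hσ => hcon σ hσ))
    have hbQ : AlgebraicIndependent QB b := hb.extendScalars QB
    obtain ⟨τ, hτ1, hτ2⟩ := exists_endo (L := ℂ) (σ : QB →+* QB) b hbQ
    refine ⟨V.comap τ, hV.comap τ hτ2, ?_⟩
    rw [comap_lt, hτ1]
    have h4 : (σ : QB →+* QB) (eval (fun j => ((u j : ℤ) : QB)) h) =
        eval (fun j => ((u j : ℤ) : QB)) (MvPolynomial.map (σ : QB →+* QB) h) := by
      rw [eval_map, eval, coe_eval₂Hom, hom_eval₂]
      congr 1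
      funext j
      exact map_intCast _ _
    rw [h4]
    exact h3

end Pool.Agent.X295
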