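import Pool.Agent.X295.Elim
import Pool.Agent.X295.PlaceK

/-!
Elimination of one variable over an arbitrary field of characteristic zero (helper file).
-/

set_option autoImplicit false

namespace Pool.Agent.X295

open MvPolynomial

variable {k : Type} [Field k] [CharZero k] (s : Set k)
  (hs : IsTranscendenceBasis ℤ ((↑) : s → k)) {q : ℕ}

include hs

theorem alg_allK (N : MvPolynomial (Fin q) ℤ) (hN0 : N ≠ 0) {R : Type} [CommRing R] [IsDomain R]
    (π : MvPolynomial (Fin q) k →+* R) (hπ : π (MvPolynomial.map (Int.castRingHom k) N) = 0)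
    (j0 : Fin q) (φ : MvPolynomial {j : Fin q // j ≠ j0} (MvPolynomial s ℤ) →+* R)
    (hφ : ∀ j : {j : Fin q // j ≠ j0}, φ (X j) = π (X j))
    (hφC : ∀ f : MvPolynomial s ℤ, φ (C f) = π (C (aeval ((↑) : s → k) f)))
    (P : MvPolynomial (Fin q) k) :
    ∃ p : Polynomial (MvPolynomial {j : Fin q // j ≠ j0} (MvPolynomial s ℤ)), p ≠ 0 ∧
      Polynomial.eval₂ φ (π P) p = 0 := by
  classical
  let B := MvPolynomial {j : Fin q // j ≠ j0} (MvPolynomial s ℤ)
  let _ : Algebra B R := φ.toAlgebra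
  let S : Subalgebra B R := Subalgebra.algebraicClosure B R
  have hC : ∀ a : k, π (C a) ∈ S := by
    intro a
    obtain ⟨p, hp0, hp⟩ := hs.isAlgebraic.1 a
    let e := hs.1.aevalEquiv
    have hinj : Function.Injective ((C : MvPolynomial s ℤ →+* B).comp
        (e.symm : _ →+* MvPolynomial s ℤ)) := fun a b hab =>
      e.symm.injective (C_injective _ _ hab)
    refine ⟨p.map ((C : MvPolynomial s ℤ →+* B).comp (e.symm : _ →+* MvPolynomial s ℤ)), ?_, ?_⟩
    · rw [Ne, Polynomial.map_eq_zero_iff hinj]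
      exact hp0
    · rw [Polynomial.aeval_def, Polynomial.eval₂_map]
      have h1 : (algebraMap B R).comp ((C : MvPolynomial s ℤ →+* B).comp
          (e.symm : _ →+* MvPolynomial s ℤ)) = (π.comp C).comp
          (algebraMap (Algebra.adjoin ℤ (Set.range ((↑) : s → k))) k) := by
        refine RingHom.ext fun x => ?_
        have h2 : ((e (e.symm x) : Algebra.adjoin ℤ (Set.range ((↑) : s → k))) : k) =
            aeval ((↑) : s → k) (e.symm x) := hs.1.algebraMap_aevalEquiv (e.symm x)
        rw [AlgEquiv.apply_symm_apply] at h2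
        show φ (C (e.symm x)) = π (C (x : k))
        rw [hφC, ← h2]
      rw [h1]
      have h2 := Polynomial.hom_eval₂ p
        (algebraMap (Algebra.adjoin ℤ (Set.range ((↑) : s → k))) k) (π.comp C) a
      rw [Polynomial.aeval_def] at hp
      rw [hp, map_zero] at h2
      exact h2.symm
  have hX : ∀ j, π (X j) ∈ S := by
    intro j
    by_cases hj : j = j0
    · subst hj
      have hinj : Function.Injective (MvPolynomial.map (σ := {j' : Fin q // j' ≠ j})
          (C : ℤ →+* MvPolynomial s ℤ)) := MvPolynomial.map_injective _ (C_injective _ _)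
      refine ⟨(asPoly j N).map (MvPolynomial.map (C : ℤ →+* MvPolynomial s ℤ)), ?_, ?_⟩
      · rw [Ne, Polynomial.map_eq_zero_iff hinj]
        exact asPoly_ne_zero j hN0
      have h1 := eval_asPoly j N (φ.comp (MvPolynomial.map (C : ℤ →+* MvPolynomial s ℤ)))
        (fun j => π (X j)) (fun i => by rw [RingHom.comp_apply, MvPolynomial.map_X, hφ])
      rw [Polynomial.aeval_def, Polynomial.eval₂_map]
      refine h1.trans ?_
      have h3 : (aeval (fun j => π (X j)) : MvPolynomial (Fin q) ℤ →ₐ[ℤ] R).toRingHom =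
          π.comp (MvPolynomial.map (Int.castRingHom k)) := by
        refine MvPolynomial.ringHom_ext (fun r => ?_) (fun j => ?_)
        · simp
        · simp
      exact (congrArg (fun f : MvPolynomial (Fin q) ℤ →+* R => f N) h3).trans hπ
    · have h1 : π (X j) = algebraMap B R (X ⟨j, hj⟩) := (hφ ⟨j, hj⟩).symm
      rw [h1]
      exact isAlgebraic_algebraMap _
  have hall : ∀ P : MvPolynomial (Fin q) k, π P ∈ S := by
    intro P
    induction P using MvPolynomial.induction_on with
    | C a => exact hC a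
    | add P Q hP hQ => rw [map_add]; exact S.add_mem hP hQ
    | mul_X P j hP => rw [map_mul]; exact S.mul_mem hP (hX j)
  obtain ⟨p, hp0, hp⟩ := hall P
  exact ⟨p, hp0, hp⟩

/-- Elimination of one variable. -/
theorem elimK (N : MvPolynomial (Fin q) ℤ) (hN0 : N ≠ 0) (h : MvPolynomial (Fin q) k)
    (hp : Prime h) (hN : h ∣ MvPolynomial.map (Int.castRingHom k) N)
    (Δ : MvPolynomial (Fin q) k) (hΔ : ¬ h ∣ Δ) (j0 : Fin q) :
    ∃ ρ : MvPolynomial {j : Fin q // j ≠ j0} ℤ, ρ ≠ 0 ∧ ∃ α β : MvPolynomial (Fin q) k,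
      ∀ (u : Fin q → ℤ), ∃ f : MvPolynomial s ℤ,
        (∀ p : ℕ, ¬ (p : ℤ) ∣ eval u (rename Subtype.val ρ) → ¬ C (p : ℤ) ∣ f) ∧
        aeval ((↑) : s → k) f = eval (fun j => ((u j : ℤ) : k)) (α * h + β * Δ) := by
  classical
  let I : Ideal (MvPolynomial (Fin q) k) := Ideal.span {h}
  have hI : I.IsPrime := (Ideal.span_singleton_prime hp.ne_zero).2 hp
  let R := MvPolynomial (Fin q) k ⧸ I
  let B := MvPolynomial {j : Fin q // j ≠ j0} (MvPolynomial s ℤ)
  let π : MvPolynomial (Fin q) k →+* R := Ideal.Quotient.mk I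
  let Θ : B →+* MvPolynomial (Fin q) k := (rename Subtype.val :
      MvPolynomial {j : Fin q // j ≠ j0} k →ₐ[k] MvPolynomial (Fin q) k).toRingHom.comp
    (MvPolynomial.map (aeval ((↑) : s → k) : MvPolynomial s ℤ →ₐ[ℤ] k).toRingHom)
  have hΘX : ∀ j, Θ (X j) = X j.1 := fun j => by
    show rename Subtype.val (MvPolynomial.map _ (X j)) = _
    rw [MvPolynomial.map_X, rename_X]
  have hΘC : ∀ f, Θ (C f) = C (aeval ((↑) : s → k) f) := fun f => by
    show rename Subtype.val (MvPolynomial.map _ (C f)) = _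
    rw [MvPolynomial.map_C, rename_C]
    rfl
  let φ : B →+* R := π.comp Θ
  let _ : Algebra B R := φ.toAlgebra
  obtain ⟨p, hp0, hpe⟩ := alg_allK s hs N hN0 π
    (Ideal.Quotient.eq_zero_iff_mem.2 (Ideal.mem_span_singleton.2 hN)) j0 φ
    (fun j => by show π (Θ (X j)) = _; rw [hΘX]) (fun f => by show π (Θ (C f)) = _; rw [hΘC]) Δ
  have h1 : IsAlgebraic B (π Δ) := ⟨p, hp0, hpe⟩
  have h2 : π Δ ≠ 0 := by
    intro h0
    apply hΔ
    exact Ideal.mem_span_singleton.1 (Ideal.Quotient.eq_zero_iff_mem.1 h0)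
  obtain ⟨P, hP, w, hw⟩ := h1.exists_nonzero_dvd (mem_nonZeroDivisors_of_ne_zero h2)
  obtain ⟨β, rfl⟩ := Ideal.Quotient.mk_surjective w
  have h3 : π (Θ P - β * Δ) = 0 := by
    rw [map_sub, map_mul, mul_comm (π β)]
    have h4 : π (Θ P) = π Δ * π β := hw
    rw [h4, sub_self]
  obtain ⟨α, hα⟩ := Ideal.mem_span_singleton.1 (Ideal.Quotient.eq_zero_iff_mem.1 h3)
  have hid : Θ P = α * h + β * Δ := by
    rw [mul_comm α, ← hα]
    ring
  -- a coefficient of `P`
  obtain ⟨w, hw0⟩ : ∃ w, coeff w P ≠ 0 := by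
    by_contra hcon
    push Not at hcon
    exact hP (MvPolynomial.ext _ _ fun w => by rw [hcon w, coeff_zero])
  obtain ⟨m, hm0⟩ : ∃ m, coeff m (coeff w P) ≠ 0 := by
    by_contra hcon
    push Not at hcon
    exact hw0 (MvPolynomial.ext _ _ fun m => by rw [hcon m, coeff_zero])
  let ρ : MvPolynomial {j : Fin q // j ≠ j0} ℤ :=
    ∑ w ∈ P.support, monomial w (coeff m (coeff w P))
  have hρw : coeff w ρ = coeff m (coeff w P) := by
    show coeff w (∑ w ∈ P.support, monomial w (coeff m (coeff w P))) = _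
    rw [coeff_sum]
    simp only [coeff_monomial]
    rw [Finset.sum_ite_eq' P.support w, if_pos (mem_support_iff.2 hw0)]
  refine ⟨ρ, fun h0 => hm0 (by rw [← hρw, h0, coeff_zero]), α, β, fun u => ?_⟩
  let u' : {j : Fin q // j ≠ j0} → MvPolynomial s ℤ := fun j => C (u j.1)
  refine ⟨eval u' P, fun p hpρ hd => hpρ ?_, ?_⟩
  · have h5 : coeff m (eval u' P) = eval u (rename Subtype.val ρ) := by
      rw [eval_rename]
      show coeff m (eval u' P) = eval (u ∘ Subtype.val) (∑ w ∈ P.support,
        monomial w (coeff m (coeff w P)))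
      rw [eval_eq', coeff_sum, map_sum]
      refine Finset.sum_congr rfl fun w _ => ?_
      rw [eval_monomial]
      have h6 : (∏ i, u' i ^ w i) = C (∏ i, u i.1 ^ w i) := by
        rw [map_prod]
        exact Finset.prod_congr rfl fun i _ => (map_pow C _ _).symm
      rw [h6, mul_comm, coeff_C_mul, mul_comm]
      congr 1
      rw [Finsupp.prod_fintype _ _ (fun i => pow_zero _)]
      rfl
    rw [← h5]
    rw [C_dvd_iff_dvd_coeff] at hd
    exact hd m
  · rw [← hid]
    have h6 : ((aeval ((↑) : s → k) : MvPolynomial s ℤ →ₐ[ℤ] k).toRingHom).comp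
        (eval u') = (eval (fun j => ((u j : ℤ) : k))).comp Θ := by
      refine MvPolynomial.ringHom_ext (fun f => ?_) (fun j => ?_)
      · rw [RingHom.comp_apply, RingHom.comp_apply, hΘC, eval_C, eval_C]
        rfl
      · rw [RingHom.comp_apply, RingHom.comp_apply, hΘX, eval_X, eval_X]
        show aeval ((↑) : s → k) (C (u j.1)) = _
        rw [aeval_C]
        simp
    exact congrArg (fun g : B →+* k => g P) h6

end Pool.Agent.X295
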