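import Pool.Agent.X295.Fam

/-!
Counting integral vectors at which all large prime factors of a polynomial have exponents divisible
by a given number (helper file).
-/

set_option autoImplicit false

namespace Pool.Agent.X295

open MvPolynomial

theorem poly_boundT {σ : Type} (P : MvPolynomial σ ℤ) : ∃ A : ℕ, ∀ H : ℕ, 1 ≤ H →
    ∀ u : σ → ℤ, (∀ i, |u i| ≤ H) → |eval u P| ≤ A * (H : ℤ) ^ P.totalDegree := by
  classical
  refine ⟨∑ w ∈ P.support, (P.coeff w).natAbs, fun H hH u hu => ?_⟩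
  have hH' : (1 : ℤ) ≤ H := by exact_mod_cast hH
  rw [eval_eq]
  push_cast
  rw [Finset.sum_mul]
  refine (Finset.abs_sum_le_sum_abs _ _).trans (Finset.sum_le_sum fun w hw => ?_)
  rw [abs_mul]
  refine mul_le_mul_of_nonneg_left ?_ (abs_nonneg _)
  rw [Finset.abs_prod]
  have h1 : ∏ i ∈ w.support, |u i ^ w i| ≤ ∏ i ∈ w.support, (H : ℤ) ^ w i := by
    refine Finset.prod_le_prod (fun i _ => abs_nonneg _) fun i _ => ?_
    rw [abs_pow]
    exact pow_le_pow_left₀ (abs_nonneg _) (hu i) _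
  refine h1.trans ?_
  rw [Finset.prod_pow_eq_pow_sum]
  exact pow_le_pow_right₀ hH' (le_totalDegree hw)

/-- `h` has at `u` a large prime factor which is not a divisor of `ρ`, with an exponent which is not
divisible by `β`. -/
def GoodB {q : ℕ} (β : ℕ) (h ρ : MvPolynomial (Fin q) ℤ) (D : ℕ) (u : Fin q → ℤ) : Prop :=
  eval u h ≠ 0 ∧ ∃ p : ℕ, p.Prime ∧ D < p ∧ ¬ (p : ℤ) ∣ eval u ρ ∧
    ¬ β ∣ (eval u h).natAbs.factorization p

open Classical in
/-- vectors on one line -/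
theorem line_countV {q : ℕ} (j0 : Fin q) (h : MvPolynomial (Fin q) ℤ)
    (hd : 0 < (asPoly j0 h).natDegree) (w : {j : Fin q // j ≠ j0} → ℤ)
    (hw : eval w (asPoly j0 h).leadingCoeff ≠ 0) (Vs : Finset ℕ)
    (T : Finset (Fin q → ℤ)) (hT : ∀ u ∈ T, (∀ j : {j : Fin q // j ≠ j0}, u j = w j) ∧
      (eval u h = 0 ∨ (eval u h).natAbs ∈ Vs)) :
    T.card ≤ (asPoly j0 h).natDegree * (1 + 2 * Vs.card) := by
  set d := (asPoly j0 h).natDegree with hdd
  let f : (Fin q → ℤ) → ℤ := fun u => eval u h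
  let P : Polynomial ℤ := (asPoly j0 h).map (eval w)
  have hPd : P.natDegree = d := by
    refine Polynomial.natDegree_map_of_leadingCoeff_ne_zero _ hw
  have hline : ∀ u ∈ T, P.eval (u j0) = eval u h := by
    intro u hu
    have h1 := (hT u hu).1
    have h2 : (fun j : {j : Fin q // j ≠ j0} => u j) = w := funext h1
    rw [← eval_line j0 h u, h2]
  have hfib : ∀ a ∈ T.image f, (T.filter fun u => f u = a).card ≤ d := by
    intro a ha
    let Q : Polynomial ℤ := P - Polynomial.C a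
    have hQd : Q.natDegree = d := by
      rw [Polynomial.natDegree_sub_C, hPd]
    have hQ0 : Q ≠ 0 := by
      intro h0
      rw [h0, Polynomial.natDegree_zero] at hQd
      omega
    have h1 : (T.filter fun u => f u = a).card ≤ Q.roots.toFinset.card := by
      refine Finset.card_le_card_of_injOn (fun u => u j0) (fun u hu => ?_) ?_
      · have hu' := Finset.mem_filter.1 (Finset.mem_coe.1 hu)
        rw [Finset.mem_coe, Multiset.mem_toFinset, Polynomial.mem_roots hQ0, Polynomial.IsRoot.def,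
          Polynomial.eval_sub, Polynomial.eval_C, hline u hu'.1]
        have : eval u h = a := hu'.2
        rw [this, sub_self]
      · intro u hu v hv huv
        have hu' := Finset.mem_filter.1 (Finset.mem_coe.1 hu)
        have hv' := Finset.mem_filter.1 (Finset.mem_coe.1 hv)
        funext j
        by_cases hj : j = j0
        · rw [hj]; exact huv
        · exact ((hT u hu'.1).1 ⟨j, hj⟩).trans ((hT v hv'.1).1 ⟨j, hj⟩).symm
    calc _ ≤ Q.roots.toFinset.card := h1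
      _ ≤ Multiset.card Q.roots := Multiset.toFinset_card_le _
      _ ≤ Q.natDegree := Polynomial.card_roots' Q
      _ = d := hQd
  refine (Finset.card_le_mul_card_image T d hfib).trans ?_
  refine Nat.mul_le_mul_left d ?_
  have hsub : T.image f ⊆ insert 0 ((Vs.image fun v : ℕ => (v : ℤ)) ∪ (Vs.image fun v : ℕ => -(v : ℤ))) := by
    intro a ha
    obtain ⟨u, hu, rfl⟩ := Finset.mem_image.1 ha
    rcases (hT u hu).2 with h0 | hmem
    · exact Finset.mem_insert.2 (Or.inl h0)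
    rw [Finset.mem_insert, Finset.mem_union]
    right
    rcases Int.natAbs_eq (eval u h) with h4 | h4
    · left
      exact Finset.mem_image.2 ⟨_, hmem, h4.symm⟩
    · right
      exact Finset.mem_image.2 ⟨_, hmem, h4.symm⟩
  calc (T.image f).card ≤ _ := Finset.card_le_card hsub
    _ ≤ _ := Finset.card_insert_le _ _
    _ ≤ (Vs.card + Vs.card) + 1 := by
      gcongr
      refine (Finset.card_union_le _ _).trans ?_
      gcongr <;> exact Finset.card_image_le
    _ = 1 + 2 * Vs.card := by ring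

/-- A positive integer such that all its prime factors not dividing `N` have exponents divisible
by `β` is the product of an integer with prime factors dividing `N` and of a `β`-th power. -/
theorem split_pow {β N n : ℕ} (hn : n ≠ 0)
    (h : ∀ p : ℕ, p.Prime → ¬ p ∣ N → β ∣ n.factorization p) :
    ∃ s w : ℕ, n = s * w ^ β ∧ ∀ p : ℕ, p.Prime → p ∣ s → p ∣ N := by
  classical
  refine ⟨∏ p ∈ n.primeFactors.filter fun p => p ∣ N, p ^ n.factorization p,
    ∏ p ∈ n.primeFactors.filter fun p => ¬ p ∣ N, p ^ (n.factorization p / β), ?_, ?_⟩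
  · conv_lhs => rw [← Nat.prod_factorization_pow_eq_self hn]
    rw [Finsupp.prod, Nat.support_factorization, ← Finset.prod_filter_mul_prod_filter_not
      n.primeFactors (fun p => p ∣ N)]
    congr 1
    rw [← Finset.prod_pow]
    refine Finset.prod_congr rfl fun p hp => ?_
    obtain ⟨hp1, hp2⟩ := Finset.mem_filter.1 hp
    rw [← pow_mul, Nat.div_mul_cancel (h p (Nat.prime_of_mem_primeFactors hp1) hp2)]
  · intro p hp hpd
    rw [Prime.dvd_finsetProd_iff hp.prime] at hpd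
    obtain ⟨p', hp', hd⟩ := hpd
    obtain ⟨hp1, hp2⟩ := Finset.mem_filter.1 hp'
    have h1 := (Nat.prime_dvd_prime_iff_eq hp (Nat.prime_of_mem_primeFactors hp1)).1
      (hp.dvd_of_dvd_pow hd)
    rw [h1]
    exact hp2

open Classical in
/-- The number of such integers. -/
theorem count_pow {ε : ℝ} (hε : 0 < ε) : ∃ C : ℝ, 1 ≤ C ∧ ∀ β N X : ℕ, 0 < β → N ≠ 0 →
    ((((Finset.Icc 1 X).filter fun v => ∀ p : ℕ, p.Prime → ¬ p ∣ N →
      β ∣ v.factorization p).card : ℕ) : ℝ) ≤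
      C * ((N : ℝ) ^ ε * (X : ℝ) ^ ε) * (X : ℝ) ^ (1 / (β : ℝ)) := by
  obtain ⟨C, hC, h⟩ := count_rad hε
  refine ⟨C, hC, fun β N X hβ hN => ?_⟩
  have hβ' : (0 : ℝ) < β := by exact_mod_cast hβ
  set T := (Finset.Icc 1 X).filter fun v => ∀ p : ℕ, p.Prime → ¬ p ∣ N →
      β ∣ v.factorization p with hT
  set T1 := (Finset.Icc 1 X).filter fun v => ∀ p : ℕ, p.Prime → p ∣ v → p ∣ N with hT1
  set R := ⌊(X : ℝ) ^ (1 / (β : ℝ))⌋₊ with hR
  have hsub : T ⊆ (T1 ×ˢ Finset.Icc 1 R).image fun t => t.1 * t.2 ^ β := by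
    intro n hn
    obtain ⟨hn1, hn2⟩ := Finset.mem_filter.1 hn
    rw [Finset.mem_Icc] at hn1
    obtain ⟨s, w, hsw, hs⟩ := split_pow (by omega) hn2
    have hs0 : s ≠ 0 := by
      rintro rfl
      rw [zero_mul] at hsw
      omega
    have hw0 : w ≠ 0 := by
      rintro rfl
      rw [zero_pow hβ.ne', mul_zero] at hsw
      omega
    have h1 : s ≤ n := by
      rw [hsw]
      exact Nat.le_mul_of_pos_right _ (pow_pos (Nat.pos_of_ne_zero hw0) β)
    have h2 : w ^ β ≤ n := by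
      rw [hsw]
      exact Nat.le_mul_of_pos_left _ (Nat.pos_of_ne_zero hs0)
    rw [Finset.mem_image]
    refine ⟨(s, w), ?_, hsw.symm⟩
    rw [Finset.mem_product, hT1, Finset.mem_filter, Finset.mem_Icc, Finset.mem_Icc]
    refine ⟨⟨⟨Nat.pos_of_ne_zero hs0, h1.trans hn1.2⟩, hs⟩, Nat.pos_of_ne_zero hw0, ?_⟩
    rw [hR]
    refine Nat.le_floor ?_
    have h3 : ((w : ℝ) ^ (β : ℝ)) ≤ X := by
      rw [Real.rpow_natCast]
      exact_mod_cast h2.trans hn1.2
    have h4 : (w : ℝ) = ((w : ℝ) ^ (β : ℝ)) ^ (1 / (β : ℝ)) := by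
      rw [← Real.rpow_mul (Nat.cast_nonneg _), mul_one_div_cancel hβ'.ne', Real.rpow_one]
    rw [h4]
    exact Real.rpow_le_rpow (Real.rpow_nonneg (Nat.cast_nonneg _) _) h3 (by positivity)
  have h1 : T.card ≤ T1.card * R := by
    calc T.card ≤ _ := Finset.card_le_card hsub
      _ ≤ _ := Finset.card_image_le
      _ = T1.card * R := by
        rw [Finset.card_product, Nat.card_Icc, Nat.add_sub_cancel]
  calc (T.card : ℝ) ≤ T1.card * R := by exact_mod_cast h1
    _ ≤ (C * ((N : ℝ) ^ ε * (X : ℝ) ^ ε)) * (X : ℝ) ^ (1 / (β : ℝ)) := by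
      refine mul_le_mul (h N X hN) ?_ (Nat.cast_nonneg _) (by positivity)
      exact Nat.floor_le (Real.rpow_nonneg (Nat.cast_nonneg _) _)

theorem goodB_or {q : ℕ} {β : ℕ} {h ρ : MvPolynomial (Fin q) ℤ} {D : ℕ} {u : Fin q → ℤ}
    (hu : ¬ GoodB β h ρ D u) (h0 : eval u h ≠ 0) (p : ℕ) (hp : p.Prime)
    (hpd : ¬ p ∣ D.factorial * (eval u ρ).natAbs) :
    β ∣ (eval u h).natAbs.factorization p := by
  by_contra hcon
  refine hu ⟨h0, p, hp, ?_, ?_, hcon⟩
  · by_contra hD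
    push Not at hD
    exact hpd (Dvd.dvd.mul_right ((Nat.dvd_factorial hp.pos hD)) _)
  · intro h1
    exact hpd (Dvd.dvd.mul_left (Int.natCast_dvd.1 h1) _)

open Classical in
/-- The number of vectors in the box which are not good. -/
theorem bad_countB {q : ℕ} (β : ℕ) (hβ : 0 < β) (h : MvPolynomial (Fin q) ℤ) (j0 : Fin q)
    (hd : 0 < (asPoly j0 h).natDegree) (ρ : MvPolynomial {j : Fin q // j ≠ j0} ℤ) (hρ : ρ ≠ 0)
    (D : ℕ) {ε : ℝ} (hε : 0 < ε) :
    ∃ C : ℝ, ∀ H : ℕ, 1 ≤ H →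
      (((box q H).filter fun u => ¬ GoodB β h (rename Subtype.val ρ) D u).card : ℝ) ≤
        C * (H : ℝ) ^ ((q : ℝ) - 1 + h.totalDegree / β + ε) := by
  obtain ⟨A, hA⟩ := poly_boundT h
  obtain ⟨B, b, hB⟩ := poly_bound ρ
  set a := h.totalDegree with ha
  set ε' : ℝ := ε / (a + b + 1) with hε'
  have hε'0 : 0 < ε' := by positivity
  have hβ' : (0 : ℝ) < β := by exact_mod_cast hβ
  obtain ⟨C1, hC1, hcount⟩ := count_pow hε'0
  set d := (asPoly j0 h).natDegree with hdd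
  set P : MvPolynomial (Fin q) ℤ := rename Subtype.val (ρ * (asPoly j0 h).leadingCoeff) with hP
  have hlc : (asPoly j0 h).leadingCoeff ≠ 0 := by
    rw [Ne, Polynomial.leadingCoeff_eq_zero]
    intro h0
    rw [hdd, h0, Polynomial.natDegree_zero] at hd
    omega
  have hP0 : P ≠ 0 := by
    intro h0
    exact mul_ne_zero hρ hlc (rename_injective _ Subtype.val_injective (h0.trans (map_zero _).symm))
  have hq : 0 < q := j0.pos
  set κ : ℝ := a / β + ε with hκ
  have hκ0 : 0 < κ := by positivity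
  set c2 : ℝ := 1 + 2 * (C1 * ((D.factorial * B : ℝ) ^ ε' * (A : ℝ) ^ ε') * (A : ℝ) ^ (1 / (β : ℝ)))
    with hc2
  have hc20 : 0 ≤ c2 := by positivity
  refine ⟨3 ^ (q - 1) * (P.totalDegree + d * c2), fun H hH => ?_⟩
  have hH1 : (1 : ℝ) ≤ H := by exact_mod_cast hH
  have hH0 : (0 : ℝ) < H := by linarith
  set F := (box q H).filter fun u => ¬ GoodB β h (rename Subtype.val ρ) D u with hF
  set Z1 := (box q H).filter fun u => eval u P = 0 with hZ1
  set Z2 := (box q H).filter fun u => eval u P ≠ 0 ∧ ¬ GoodB β h (rename Subtype.val ρ) D u with hZ2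
  have hsub : F ⊆ Z1 ∪ Z2 := by
    intro u hu
    rw [hF, Finset.mem_filter] at hu
    rw [Finset.mem_union, hZ1, hZ2, Finset.mem_filter, Finset.mem_filter]
    by_cases h0 : eval u P = 0
    · exact Or.inl ⟨hu.1, h0⟩
    · exact Or.inr ⟨hu.1, h0, hu.2⟩
  have h1 : (Z1.card : ℝ) ≤ P.totalDegree * (2 * H + 1 : ℝ) ^ (q - 1) := by
    exact_mod_cast zeros hq hP0 H
  -- the second set
  let g : (Fin q → ℤ) → ({j : Fin q // j ≠ j0} → ℤ) := fun u j => u j
  have himg : (Z2.image g).card ≤ (2 * H + 1) ^ (q - 1) := by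
    calc (Z2.image g).card ≤ (Fintype.piFinset fun _ : {j : Fin q // j ≠ j0} =>
          Finset.Icc (-(H : ℤ)) H).card := by
          refine Finset.card_le_card fun w hw => ?_
          obtain ⟨u, hu, rfl⟩ := Finset.mem_image.1 hw
          rw [Fintype.mem_piFinset]
          intro j
          exact Fintype.mem_piFinset.1 (Finset.mem_filter.1 hu).1 j
      _ = (2 * H + 1) ^ (q - 1) := by
          rw [Fintype.card_piFinset, Finset.prod_const, card_Icc, Finset.card_univ,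
            Fintype.card_subtype_compl, Fintype.card_fin, Fintype.card_unique]
  have hfib : ∀ w ∈ Z2.image g, ((Z2.filter fun u => g u = w).card : ℝ) ≤
      d * (c2 * (H : ℝ) ^ κ) := by
    intro w hw
    obtain ⟨u0, hu0, hu0w⟩ := Finset.mem_image.1 hw
    have hu0' := Finset.mem_filter.1 hu0
    have hevP : ∀ u : Fin q → ℤ, g u = w → eval u P = eval w ρ * eval w (asPoly j0 h).leadingCoeff := by
      intro u hu
      rw [hP, eval_rename, map_mul]
      have : (u ∘ Subtype.val : {j : Fin q // j ≠ j0} → ℤ) = w := hu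
      rw [this]
    have hne := hu0'.2.1
    rw [hevP u0 hu0w] at hne
    have hρw : eval w ρ ≠ 0 := left_ne_zero_of_mul hne
    have hlw : eval w (asPoly j0 h).leadingCoeff ≠ 0 := right_ne_zero_of_mul hne
    have hwH : ∀ j, |w j| ≤ H := by
      intro j
      rw [← hu0w]
      exact mem_box.1 hu0'.1 j
    set N := D.factorial * (eval w ρ).natAbs with hN
    have hN0 : N ≠ 0 := Nat.mul_ne_zero (Nat.factorial_ne_zero D) (Int.natAbs_ne_zero.2 hρw)
    have hl := line_countV j0 h hd w hlw ((Finset.Icc 1 (A * H ^ a)).filter fun v =>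
      ∀ p : ℕ, p.Prime → ¬ p ∣ N → β ∣ v.factorization p) (Z2.filter fun u => g u = w) (by
      intro u hu
      obtain ⟨hu1, hu2⟩ := Finset.mem_filter.1 hu
      obtain ⟨hu3, hu4, hu5⟩ := Finset.mem_filter.1 hu1
      refine ⟨fun j => congrFun hu2 j, ?_⟩
      by_cases h0 : eval u h = 0
      · exact Or.inl h0
      refine Or.inr ?_
      rw [Finset.mem_filter, Finset.mem_Icc]
      refine ⟨⟨Int.natAbs_pos.2 h0, ?_⟩, fun p hp hpd => ?_⟩
      · have h6 := hA H hH u (mem_box.1 hu3)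
        have h7 : ((eval u h).natAbs : ℤ) ≤ ((A * H ^ a : ℕ) : ℤ) := by
          rw [Int.natCast_natAbs]
          push_cast
          exact h6
        exact_mod_cast h7
      · refine goodB_or hu5 h0 p hp ?_
        rw [eval_rename]
        have h8 : (u ∘ Subtype.val : {j : Fin q // j ≠ j0} → ℤ) = w := hu2
        rw [h8]
        exact hpd)
    have h9 := hcount β N (A * H ^ a) hβ hN0
    have hNle : (N : ℝ) ≤ (D.factorial * B : ℝ) * (H : ℝ) ^ b := by
      have h10 := hB H hH w hwH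
      have h11 : ((eval w ρ).natAbs : ℝ) ≤ B * (H : ℝ) ^ b := by
        have h12 : (((eval w ρ).natAbs : ℤ) : ℤ) ≤ B * (H : ℤ) ^ b := by
          rw [Int.natCast_natAbs]; exact h10
        exact_mod_cast h12
      rw [hN]
      push_cast
      rw [mul_assoc]
      exact mul_le_mul_of_nonneg_left h11 (by positivity)
    have hpow : (N : ℝ) ^ ε' * ((A * H ^ a : ℕ) : ℝ) ^ ε' ≤
        (D.factorial * B : ℝ) ^ ε' * (A : ℝ) ^ ε' * (H : ℝ) ^ ε := by
      have e1 : (N : ℝ) ^ ε' ≤ (D.factorial * B : ℝ) ^ ε' * ((H : ℝ) ^ b) ^ ε' := by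
        rw [← Real.mul_rpow (by positivity) (by positivity)]
        exact Real.rpow_le_rpow (by positivity) hNle hε'0.le
      have e2 : ((A * H ^ a : ℕ) : ℝ) ^ ε' = (A : ℝ) ^ ε' * ((H : ℝ) ^ a) ^ ε' := by
        push_cast
        rw [Real.mul_rpow (by positivity) (by positivity)]
      have e3 : ((H : ℝ) ^ b) ^ ε' * ((H : ℝ) ^ a) ^ ε' ≤ (H : ℝ) ^ ε := by
        rw [← Real.rpow_natCast, ← Real.rpow_natCast, ← Real.rpow_mul hH0.le,
          ← Real.rpow_mul hH0.le, ← Real.rpow_add hH0]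
        refine Real.rpow_le_rpow_of_exponent_le hH1 ?_
        rw [hε']
        rw [← add_mul, mul_div_assoc', div_le_iff₀ (by positivity)]
        nlinarith
      rw [e2]
      calc _ ≤ ((D.factorial * B : ℝ) ^ ε' * ((H : ℝ) ^ b) ^ ε') *
            ((A : ℝ) ^ ε' * ((H : ℝ) ^ a) ^ ε') :=
            mul_le_mul_of_nonneg_right e1 (by positivity)
        _ = (D.factorial * B : ℝ) ^ ε' * (A : ℝ) ^ ε' *
            (((H : ℝ) ^ b) ^ ε' * ((H : ℝ) ^ a) ^ ε') := by ring
        _ ≤ _ := mul_le_mul_of_nonneg_left e3 (by positivity)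
    have hpow2 : ((A * H ^ a : ℕ) : ℝ) ^ (1 / (β : ℝ)) =
        (A : ℝ) ^ (1 / (β : ℝ)) * (H : ℝ) ^ ((a : ℝ) / β) := by
      push_cast
      rw [Real.mul_rpow (by positivity) (by positivity), ← Real.rpow_natCast,
        ← Real.rpow_mul hH0.le]
      congr 2
      rw [mul_one_div]
    have hHκ : (1 : ℝ) ≤ (H : ℝ) ^ κ := Real.one_le_rpow hH1 hκ0.le
    have hl' : ((Z2.filter fun u => g u = w).card : ℝ) ≤ d *
        (1 + 2 * (((Finset.Icc 1 (A * H ^ a)).filter fun v =>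
          ∀ p : ℕ, p.Prime → ¬ p ∣ N → β ∣ v.factorization p).card : ℝ)) := by
      exact_mod_cast hl
    refine hl'.trans (mul_le_mul_of_nonneg_left ?_ (Nat.cast_nonneg _))
    calc _ ≤ 1 + 2 * (C1 * ((N : ℝ) ^ ε' * ((A * H ^ a : ℕ) : ℝ) ^ ε') *
          ((A * H ^ a : ℕ) : ℝ) ^ (1 / (β : ℝ))) := by gcongr
      _ ≤ 1 + 2 * (C1 * ((D.factorial * B : ℝ) ^ ε' * (A : ℝ) ^ ε' * (H : ℝ) ^ ε) *
          ((A : ℝ) ^ (1 / (β : ℝ)) * (H : ℝ) ^ ((a : ℝ) / β))) := by
          rw [hpow2]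
          gcongr
      _ = 1 + 2 * (C1 * ((D.factorial * B : ℝ) ^ ε' * (A : ℝ) ^ ε') *
          (A : ℝ) ^ (1 / (β : ℝ))) * (H : ℝ) ^ κ := by
          rw [hκ, Real.rpow_add hH0]
          ring
      _ ≤ (H : ℝ) ^ κ + 2 * (C1 * ((D.factorial * B : ℝ) ^ ε' * (A : ℝ) ^ ε') *
          (A : ℝ) ^ (1 / (β : ℝ))) * (H : ℝ) ^ κ := by
          gcongr
      _ = c2 * (H : ℝ) ^ κ := by rw [hc2]; ring
  have h2 : (Z2.card : ℝ) ≤ (d * (c2 * (H : ℝ) ^ κ)) * ((2 * H + 1 : ℝ) ^ (q - 1)) := by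
    have e1 : (Z2.card : ℝ) = ∑ w ∈ Z2.image g, ((Z2.filter fun u => g u = w).card : ℝ) := by
      have := Finset.card_eq_sum_card_image g Z2
      exact_mod_cast this
    rw [e1]
    calc _ ≤ ∑ w ∈ Z2.image g, (d * (c2 * (H : ℝ) ^ κ)) := Finset.sum_le_sum hfib
      _ = (Z2.image g).card * (d * (c2 * (H : ℝ) ^ κ)) := by
          rw [Finset.sum_const, nsmul_eq_mul]
      _ ≤ ((2 * H + 1 : ℝ) ^ (q - 1)) * (d * (c2 * (H : ℝ) ^ κ)) := by
          refine mul_le_mul_of_nonneg_right ?_ (by positivity)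
          exact_mod_cast himg
      _ = _ := by ring
  have hHκ : (1 : ℝ) ≤ (H : ℝ) ^ κ := Real.one_le_rpow hH1 hκ0.le
  have h3 : (2 * H + 1 : ℝ) ^ (q - 1) ≤ 3 ^ (q - 1) * (H : ℝ) ^ (q - 1) := by
    rw [← mul_pow]
    exact pow_le_pow_left₀ (by positivity) (by linarith) _
  have h4 : (H : ℝ) ^ ((q : ℝ) - 1 + a / β + ε) = (H : ℝ) ^ (q - 1) * (H : ℝ) ^ κ := by
    rw [add_assoc, ← hκ, Real.rpow_add hH0, ← Real.rpow_natCast, Nat.cast_sub hq, Nat.cast_one]
  calc (F.card : ℝ) ≤ ((Z1 ∪ Z2).card : ℝ) := by exact_mod_cast Finset.card_le_card hsub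
    _ ≤ (Z1.card : ℝ) + Z2.card := by exact_mod_cast Finset.card_union_le _ _
    _ ≤ P.totalDegree * (2 * H + 1 : ℝ) ^ (q - 1) +
        (d * (c2 * (H : ℝ) ^ κ)) * ((2 * H + 1 : ℝ) ^ (q - 1)) := add_le_add h1 h2
    _ ≤ P.totalDegree * (3 ^ (q - 1) * (H : ℝ) ^ (q - 1)) +
        (d * (c2 * (H : ℝ) ^ κ)) * (3 ^ (q - 1) * (H : ℝ) ^ (q - 1)) := by gcongr
    _ ≤ P.totalDegree * (3 ^ (q - 1) * (H : ℝ) ^ (q - 1)) * (H : ℝ) ^ κ +
        (d * (c2 * (H : ℝ) ^ κ)) * (3 ^ (q - 1) * (H : ℝ) ^ (q - 1)) := by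
        exact add_le_add (le_mul_of_one_le_right (by positivity) hHκ) le_rfl
    _ = 3 ^ (q - 1) * (P.totalDegree + d * c2) *
        (H : ℝ) ^ ((q : ℝ) - 1 + a / β + ε) := by
        rw [h4]; ring

open Classical in
/-- The number of parameters at which one of finitely many polynomials is not good. -/
theorem count_unionB {q M : ℕ} (β : ℕ) (hβ : 0 < β) (h : Fin M → MvPolynomial (Fin q) ℤ)
    (j0 : Fin M → Fin q)
    (hd : ∀ l, 0 < (asPoly (j0 l) (h l)).natDegree)
    (ρ : ∀ l, MvPolynomial {j : Fin q // j ≠ j0 l} ℤ) (hρ : ∀ l, ρ l ≠ 0) (D : ℕ) {ε : ℝ}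
    (hε : 0 < ε) (Δ : ℕ) (hΔ : ∀ l, (h l).totalDegree ≤ Δ) (S : Set (Fin q → ℤ))
    (hS : ∀ u ∈ S, ∃ l, ¬ GoodB β (h l) (rename Subtype.val (ρ l)) D u) :
    ∃ C : ℝ, ∀ H : ℕ, 1 ≤ H → ((S ∩ {u | ∀ j, |u j| ≤ H}).ncard : ℝ) ≤
      C * (H : ℝ) ^ ((q : ℝ) - 1 + Δ / β + ε) := by
  choose C hC using fun l => bad_countB β hβ (h l) (j0 l) (hd l) (ρ l) (hρ l) D hε
  refine ⟨∑ l, |C l|, fun H hH => ?_⟩
  have hH1 : (1 : ℝ) ≤ H := by exact_mod_cast hH
  have hsub : S ∩ {u | ∀ j, |u j| ≤ H} ⊆ ((Finset.univ.biUnion fun l : Fin M =>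
      (box q H).filter fun u => ¬ GoodB β (h l) (rename Subtype.val (ρ l)) D u : Finset _) :
        Set (Fin q → ℤ)) := by
    rintro u ⟨hu, hub⟩
    obtain ⟨l, hl⟩ := hS u hu
    rw [Finset.mem_coe, Finset.mem_biUnion]
    exact ⟨l, Finset.mem_univ l, Finset.mem_filter.2 ⟨mem_box.2 hub, hl⟩⟩
  have h1 := Set.ncard_le_ncard hsub (Finset.finite_toSet _)
  rw [Set.ncard_coe_finset] at h1
  calc ((S ∩ {u | ∀ j, |u j| ≤ H}).ncard : ℝ) ≤ ((Finset.univ.biUnion fun l : Fin M =>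
        (box q H).filter fun u => ¬ GoodB β (h l) (rename Subtype.val (ρ l)) D u).card : ℝ) := by
        exact_mod_cast h1
    _ ≤ ∑ l, (((box q H).filter fun u =>
        ¬ GoodB β (h l) (rename Subtype.val (ρ l)) D u).card : ℝ) := by
        exact_mod_cast Finset.card_biUnion_le
    _ ≤ ∑ l, |C l| * (H : ℝ) ^ ((q : ℝ) - 1 + Δ / β + ε) := by
        refine Finset.sum_le_sum fun l _ => (hC l H hH).trans ?_
        have h2 : (H : ℝ) ^ ((q : ℝ) - 1 + (h l).totalDegree / β + ε) ≤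
            (H : ℝ) ^ ((q : ℝ) - 1 + Δ / β + ε) := by
          refine Real.rpow_le_rpow_of_exponent_le hH1 ?_
          have h3 : ((h l).totalDegree : ℝ) ≤ Δ := by exact_mod_cast hΔ l
          have hβ' : (0 : ℝ) < β := by exact_mod_cast hβ
          gcongr
        calc _ ≤ |C l| * (H : ℝ) ^ ((q : ℝ) - 1 + (h l).totalDegree / β + ε) :=
              mul_le_mul_of_nonneg_right (le_abs_self _) (by positivity)
          _ ≤ _ := mul_le_mul_of_nonneg_left h2 (abs_nonneg _)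
    _ = (∑ l, |C l|) * (H : ℝ) ^ ((q : ℝ) - 1 + Δ / β + ε) := by rw [Finset.sum_mul]

end Pool.Agent.X295
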