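import Pool.Agent.Y199.DM.Ret
import Pool.Agent.Y199.DM.Emb
import Pool.Agent.X295.ElimK
import Pool.Agent.X295.EllB

/-!
Embeddings of `ℂ` into the algebraic closure of `ℚ_p` which map given numbers to integral elements and
the value of a given polynomial at a transcendence basis to a unit (helper file).
-/

set_option autoImplicit false

namespace Pool.Agent.X295.Dyn

open MvPolynomial Pool.Agent.H936R2 Pool.Agent.H905R3.DML Pool.Agent.H905R3.DML.Core
  Pool.Agent.TH838.PR Pool.Agent.TH838.PS Pool.Agent.TH838.DS Pool.Agent.Y199.DM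

theorem indep_scale' {ι M : Type} [Field M] [Algebra ℚ M] {x : ι → M}
    (hx : AlgebraicIndependent ℚ x) (c : ι → ℚ) (hc : ∀ i, c i ≠ 0) :
    AlgebraicIndependent ℚ (fun i => algebraMap ℚ M (c i) * x i) := by
  rw [algebraicIndependent_iff_injective_aeval] at hx ⊢
  have h1 : (MvPolynomial.aeval (fun i => algebraMap ℚ M (c i) * x i) :
      MvPolynomial ι ℚ →ₐ[ℚ] M) = (MvPolynomial.aeval x).comp
        (MvPolynomial.aeval (fun i => MvPolynomial.C (c i) * MvPolynomial.X i)) := by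
    apply MvPolynomial.algHom_ext
    intro i
    simp [MvPolynomial.algebraMap_eq]
  rw [h1, AlgHom.coe_comp]
  refine hx.comp ?_
  apply Function.LeftInverse.injective
    (g := (MvPolynomial.aeval (fun i => MvPolynomial.C (c i)⁻¹ * MvPolynomial.X i) :
      MvPolynomial ι ℚ →ₐ[ℚ] MvPolynomial ι ℚ))
  intro f
  have h2 : ((MvPolynomial.aeval (fun i => MvPolynomial.C (c i)⁻¹ * MvPolynomial.X i)).comp
      (MvPolynomial.aeval (fun i => MvPolynomial.C (c i) * MvPolynomial.X i)) :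
        MvPolynomial ι ℚ →ₐ[ℚ] MvPolynomial ι ℚ) = AlgHom.id ℚ _ := by
    apply MvPolynomial.algHom_ext
    intro i
    simp only [AlgHom.comp_apply, MvPolynomial.aeval_X, map_mul, MvPolynomial.aeval_C,
      AlgHom.id_apply, MvPolynomial.algebraMap_eq]
    rw [← mul_assoc, ← MvPolynomial.C_mul, mul_inv_cancel₀ (hc i), MvPolynomial.C_1, one_mul]
  exact DFunLike.congr_fun h2 f

/-- Embeddings with prescribed approximate values on a transcendence basis. -/
theorem embS (p : ℕ) [hp : Fact p.Prime] (s : Set ℂ)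
    (hs : IsTranscendenceBasis ℤ ((↑) : s → ℂ))
    (ω : s → PadicAlgCl p) (hω : ∀ b, IsAlgebraic ℚ (ω b)) :
    ∃ τ : ℂ →+* PadicAlgCl p, ∀ b : s, ‖τ b - ω b‖ < 1 := by
  classical
  have : Algebra.IsAlgebraic ℤ ℚ := IsLocalization.isAlgebraic ℚ (nonZeroDivisors ℤ)
  have hsQ1 : AlgebraicIndependent ℚ ((↑) : s → ℂ) := hs.1.extendScalars ℚ
  have hsQ : IsTranscendenceBasis ℚ ((↑) : s → ℂ) := by
    rw [hsQ1.isTranscendenceBasis_iff_isAlgebraic]
    have h1 : Algebra.IsAlgebraic (Algebra.adjoin ℤ (Set.range ((↑) : s → ℂ))) ℂ := hs.isAlgebraic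
    have hmem : ∀ x ∈ Algebra.adjoin ℤ (Set.range ((↑) : s → ℂ)),
        x ∈ Algebra.adjoin ℚ (Set.range ((↑) : s → ℂ)) := by
      intro x hx
      have h2 : Algebra.adjoin ℤ (Set.range ((↑) : s → ℂ)) ≤
          (Algebra.adjoin ℚ (Set.range ((↑) : s → ℂ))).restrictScalars ℤ :=
        Algebra.adjoin_le fun y hy => Algebra.subset_adjoin hy
      exact h2 hx
    let ι0 : Algebra.adjoin ℤ (Set.range ((↑) : s → ℂ)) →+*
        Algebra.adjoin ℚ (Set.range ((↑) : s → ℂ)) :=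
      { toFun := fun b => ⟨b, hmem b b.2⟩
        map_one' := rfl
        map_mul' := fun _ _ => rfl
        map_zero' := rfl
        map_add' := fun _ _ => rfl }
    have hι : Function.Injective ι0 := fun a b h =>
      Subtype.ext (congrArg (fun z : Algebra.adjoin ℚ (Set.range ((↑) : s → ℂ)) => (z : ℂ)) h)
    refine ⟨fun z => ?_⟩
    obtain ⟨P, hP0, hP⟩ := h1.1 z
    refine ⟨P.map ι0, (Polynomial.map_ne_zero_iff hι).2 hP0, ?_⟩
    rw [Polynomial.aeval_def, Polynomial.eval₂_map]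
    exact hP
  obtain ⟨τ₀⟩ := exists_embedding p
  let σ₀ : ℂ →ₐ[ℚ] PadicAlgCl p := τ₀.toRatAlgHom
  have hw0 : AlgebraicIndependent ℚ (fun b : s => σ₀ (b : ℂ)) :=
    hsQ1.map' (f := σ₀) σ₀.toRingHom.injective
  have hp1 : ‖((p : ℕ) : PadicAlgCl p)‖ < 1 := norm_natCast_p_lt
  have hN : ∀ b : s, ∃ N : ℕ, ‖((p : ℕ) : PadicAlgCl p) ^ N * τ₀ b‖ < 1 := by
    intro b
    obtain ⟨N, hN⟩ := exists_pow_lt_of_lt_one (show (0 : ℝ) < 1 / (1 + ‖τ₀ b‖) by positivity) hp1
    refine ⟨N, ?_⟩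
    rw [norm_mul, norm_pow]
    calc ‖((p : ℕ) : PadicAlgCl p)‖ ^ N * ‖τ₀ b‖ ≤
          ‖((p : ℕ) : PadicAlgCl p)‖ ^ N * (1 + ‖τ₀ b‖) :=
          mul_le_mul_of_nonneg_left (by linarith [norm_nonneg (τ₀ b)]) (by positivity)
      _ < 1 / (1 + ‖τ₀ b‖) * (1 + ‖τ₀ b‖) := mul_lt_mul_of_pos_right hN (by positivity)
      _ = 1 := by field_simp
  choose N hN using hN
  have hw1 := indep_scale' hw0 (fun b => (p : ℚ) ^ N b) (fun b =>
    pow_ne_zero _ (by exact_mod_cast hp.out.ne_zero))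
  have hw := indep_shift hw1 ω hω
  obtain ⟨τ, -, hτ⟩ := exists_extension' (Q := ℚ) (E := ℚ) (C := ℂ)
    (Algebra.IsAlgebraic.of_finite ℚ ℚ)
    (Algebra.ofId ℚ (PadicAlgCl p)) hsQ _ hw
  refine ⟨τ, fun b => ?_⟩
  rw [hτ b, add_sub_cancel_left, map_pow, map_natCast]
  exact hN b

theorem coeff_dvd_of_map {p : ℕ} [hp : Fact p.Prime] {σ : Type} (g : MvPolynomial σ ℤ)
    (h : MvPolynomial.map (Int.castRingHom (ResF (PadicAlgCl p))) g = 0) : C (p : ℤ) ∣ g := by
  have := charP_resF p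
  rw [C_dvd_iff_dvd_coeff]
  intro m
  have h1 := congrArg (coeff m) h
  rw [coeff_map, coeff_zero] at h1
  exact (CharP.intCast_eq_zero_iff _ p _).1 h1

theorem not_C_dvd_mul {p : ℕ} (hp : p.Prime) {σ : Type} {f g : MvPolynomial σ ℤ}
    (hf : ¬ C (p : ℤ) ∣ f) (hg : ¬ C (p : ℤ) ∣ g) : ¬ C (p : ℤ) ∣ f * g := by
  intro h
  have h1 : Prime (C (p : ℤ) : MvPolynomial σ ℤ) :=
    (MvPolynomial.prime_C_iff σ).2 (Nat.prime_iff_prime_int.1 hp)
  rcases h1.dvd_or_dvd h with h2 | h2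
  · exact hf h2
  · exact hg h2

/-- Embeddings which map the elements of a finite set to integral elements and the value of a
polynomial to a unit. -/
theorem emb_generic (s : Set ℂ) (hs : IsTranscendenceBasis ℤ ((↑) : s → ℂ)) (W : Set ℂ)
    (hW : W.Finite) :
    ∃ D : ℕ, ∀ (p : ℕ) [Fact p.Prime], D < p → ∀ f : MvPolynomial s ℤ, ¬ C (p : ℤ) ∣ f →
      ∃ τ : ℂ →+* PadicAlgCl p, (∀ w ∈ W, ‖τ w‖ ≤ 1) ∧
        ‖τ (aeval ((↑) : s → ℂ) f)‖ = 1 := by
  classical
  have := hW.to_subtype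
  have := Fintype.ofFinite W
  have halg : Algebra.IsAlgebraic (Algebra.adjoin ℤ (Set.range ((↑) : s → ℂ))) ℂ := hs.isAlgebraic
  have h1 : ∀ w : W, ∃ f : MvPolynomial s ℤ, f ≠ 0 ∧
      IsIntegral (Algebra.adjoin ℤ (Set.range ((↑) : s → ℂ)))
        (aeval ((↑) : s → ℂ) f * (w : ℂ)) := by
    intro w
    obtain ⟨a, ha, hint⟩ := (halg.1 (w : ℂ)).exists_integral_multiple
    have h2 : (a : ℂ) ∈ (aeval ((↑) : s → ℂ) : MvPolynomial s ℤ →ₐ[ℤ] ℂ).range := by
      rw [← Algebra.adjoin_range_eq_range_aeval]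
      exact a.2
    obtain ⟨f, hf⟩ := h2
    refine ⟨f, ?_, ?_⟩
    · rintro rfl
      apply ha
      apply Subtype.ext
      rw [← hf]
      simp
    · have h3 : aeval ((↑) : s → ℂ) f = (a : ℂ) := hf
      rw [h3]
      exact hint
  choose g hg hint using h1
  have h2 : ∀ w, ∃ m, (g w).coeff m ≠ 0 := fun i => by
    by_contra h
    push Not at h
    exact hg i (MvPolynomial.ext _ _ fun m => by rw [h m, coeff_zero])
  choose m hm using h2
  refine ⟨∑ i, ((g i).coeff (m i)).natAbs, fun p hp hpD f hf => ?_⟩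
  have hnd : ∀ i, ¬ (C (p : ℤ) ∣ g i) := by
    intro i h
    rw [C_dvd_iff_dvd_coeff] at h
    have h3 : p ∣ ((g i).coeff (m i)).natAbs := Int.natCast_dvd.1 (h (m i))
    have h4 := Nat.le_of_dvd (Int.natAbs_pos.2 (hm i)) h3
    have h5 : ((g i).coeff (m i)).natAbs ≤ ∑ i, ((g i).coeff (m i)).natAbs :=
      Finset.single_le_sum (f := fun i => ((g i).coeff (m i)).natAbs)
        (fun _ _ => Nat.zero_le _) (Finset.mem_univ i)
    omega
  have hndp : ∀ E : Finset W, ¬ C (p : ℤ) ∣ f * ∏ i ∈ E, g i := by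
    intro E
    induction E using Finset.induction_on with
    | empty => rwa [Finset.prod_empty, mul_one]
    | insert a E ha ih =>
      rw [Finset.prod_insert ha, mul_left_comm]
      exact not_C_dvd_mul hp.out (hnd a) ih
  set P : MvPolynomial s ℤ := f * ∏ i, g i with hP
  have hPres : MvPolynomial.map (Int.castRingHom (ResF (PadicAlgCl p))) P ≠ 0 := fun h =>
    hndp Finset.univ (coeff_dvd_of_map _ h)
  set S : Set (ResF (PadicAlgCl p)) :=
    Set.range (fun ω : {ω : unitBall (PadicAlgCl p) // IsIntegral ℤ (ω : PadicAlgCl p)} =>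
      res (PadicAlgCl p) ω.1) with hS
  obtain ⟨v, hvS, hv⟩ : ∃ v : s → ResF (PadicAlgCl p), (∀ b, v b ∈ S) ∧
      eval v (MvPolynomial.map (Int.castRingHom (ResF (PadicAlgCl p))) P) ≠ 0 := by
    by_contra hcon
    push Not at hcon
    apply hPres
    apply MvPolynomial.funext_set (fun _ => S) (fun _ => infinite_res p)
    intro u hu
    rw [map_zero]
    exact hcon u fun j => hu j (Set.mem_univ _)
  choose ω hω using hvS
  obtain ⟨τ, hτ⟩ := embS p s hs (fun j => ((ω j).1 : PadicAlgCl p)) (fun j => by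
    have h2 : IsAlgebraic ℤ ((ω j).1 : PadicAlgCl p) := (ω j).2.isAlgebraic
    exact h2.extendScalars Int.cast_injective)
  have hτ1 : ∀ b : s, ‖τ b‖ ≤ 1 := by
    intro j
    have h2 : τ (j : ℂ) = (τ (j : ℂ) - ((ω j).1 : PadicAlgCl p)) +
      ((ω j).1 : PadicAlgCl p) := by ring
    rw [h2]
    exact (IsUltrametricDist.norm_add_le_max _ _).trans (max_le (hτ j).le (ω j).1.2)
  -- values of polynomials
  let τs : s → unitBall (PadicAlgCl p) := fun b => ⟨τ b, hτ1 b⟩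
  have hres : ∀ b, res (PadicAlgCl p) (τs b) = v b := by
    intro b
    rw [← hω b, ← sub_eq_zero, ← map_sub, res_eq_zero_iff]
    exact hτ b
  have hval : ∀ Q : MvPolynomial s ℤ, τ (aeval ((↑) : s → ℂ) Q) =
      ((aeval τs Q : unitBall (PadicAlgCl p)) : PadicAlgCl p) := by
    intro Q
    have h3 : (τ.comp (aeval ((↑) : s → ℂ) : MvPolynomial s ℤ →ₐ[ℤ] ℂ).toRingHom) =
        (unitBall (PadicAlgCl p)).subtype.comp
          (aeval τs : MvPolynomial s ℤ →ₐ[ℤ] unitBall (PadicAlgCl p)).toRingHom := by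
      refine MvPolynomial.ringHom_ext (fun r => ?_) (fun j => ?_)
      · simp
      · simp [τs]
    exact congrArg (fun φ : MvPolynomial s ℤ →+* PadicAlgCl p => φ Q) h3
  have hval2 : ∀ Q : MvPolynomial s ℤ, res (PadicAlgCl p) (aeval τs Q) =
      eval v (MvPolynomial.map (Int.castRingHom (ResF (PadicAlgCl p))) Q) := by
    intro Q
    have h3 : ((res (PadicAlgCl p)).comp
        (aeval τs : MvPolynomial s ℤ →ₐ[ℤ] unitBall (PadicAlgCl p)).toRingHom) =
        (eval v).comp (MvPolynomial.map (Int.castRingHom (ResF (PadicAlgCl p)))) := by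
      refine MvPolynomial.ringHom_ext (fun r => ?_) (fun j => ?_)
      · simp
      · have h4 := hres j
        simpa using h4
    exact congrArg (fun φ : MvPolynomial s ℤ →+* ResF (PadicAlgCl p) => φ Q) h3
  have hle : ∀ Q : MvPolynomial s ℤ, ‖τ (aeval ((↑) : s → ℂ) Q)‖ ≤ 1 := fun Q => by
    rw [hval]
    exact (aeval τs Q).2
  have hone : ‖τ (aeval ((↑) : s → ℂ) P)‖ = 1 := by
    refine le_antisymm (hle P) ?_
    by_contra hlt
    push Not at hlt
    apply hv
    rw [← hval2, res_eq_zero_iff, ← hval]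
    exact hlt
  have hfac : ‖τ (aeval ((↑) : s → ℂ) f)‖ * ∏ i, ‖τ (aeval ((↑) : s → ℂ) (g i))‖ = 1 := by
    rw [← hone, hP, map_mul, map_mul, norm_mul, map_prod, map_prod, norm_prod]
  have hf1 : ‖τ (aeval ((↑) : s → ℂ) f)‖ = 1 := by
    refine le_antisymm (hle f) ?_
    rw [← hfac]
    exact mul_le_of_le_one_right (norm_nonneg _)
      (Finset.prod_le_one (fun _ _ => norm_nonneg _) fun i _ => hle (g i))
  refine ⟨τ, fun w hw => ?_, hf1⟩
  have hg1 : ‖τ (aeval ((↑) : s → ℂ) (g ⟨w, hw⟩))‖ = 1 := by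
    refine le_antisymm (hle _) ?_
    have h3 : ∏ i, ‖τ (aeval ((↑) : s → ℂ) (g i))‖ = 1 := by rwa [hf1, one_mul] at hfac
    rw [← h3, ← Finset.mul_prod_erase _ _ (Finset.mem_univ (⟨w, hw⟩ : W))]
    exact mul_le_of_le_one_right (norm_nonneg _)
      (Finset.prod_le_one (fun _ _ => norm_nonneg _) fun i _ => hle (g i))
  have hint1 : ‖τ (aeval ((↑) : s → ℂ) (g ⟨w, hw⟩) * w)‖ ≤ 1 := by
    obtain ⟨Q, hQ, hQe⟩ := hint ⟨w, hw⟩
    refine norm_le_one_of_monic (Q.map (τ.comp (algebraMap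
      (Algebra.adjoin ℤ (Set.range ((↑) : s → ℂ))) ℂ))) (hQ.map _) (fun i => ?_) ?_
    · rw [Polynomial.coeff_map]
      have h3 : ((Q.coeff i : Algebra.adjoin ℤ (Set.range ((↑) : s → ℂ))) : ℂ) ∈
          (aeval ((↑) : s → ℂ) : MvPolynomial s ℤ →ₐ[ℤ] ℂ).range := by
        rw [← Algebra.adjoin_range_eq_range_aeval]
        exact (Q.coeff i).2
      obtain ⟨c, hc⟩ := h3
      have h4 : (τ.comp (algebraMap (Algebra.adjoin ℤ (Set.range ((↑) : s → ℂ))) ℂ))
          (Q.coeff i) = τ (aeval ((↑) : s → ℂ) c) := by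
        rw [RingHom.comp_apply]
        exact congrArg τ hc.symm
      rw [h4]
      exact hle c
    · rw [Polynomial.eval_map]
      have h3 := Polynomial.hom_eval₂ Q (algebraMap
        (Algebra.adjoin ℤ (Set.range ((↑) : s → ℂ))) ℂ) τ (aeval ((↑) : s → ℂ) (g ⟨w, hw⟩) * w)
      rw [hQe, map_zero] at h3
      exact h3.symm
  rwa [map_mul, norm_mul, hg1, one_mul] at hint1

end Pool.Agent.X295.Dyn
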