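import Pool.Agent.X295.DynE

/-!
Orbits whose reductions are preperiodic (helper file).
-/

set_option autoImplicit false

namespace Pool.Agent.X295.Dyn

open MvPolynomial Pool.Agent.H936R2 Pool.Agent.H905R3.DML Pool.Agent.H905R3.DML.Core
  Pool.Agent.TH838.PR Pool.Agent.TH838.PS Pool.Agent.TH838.DS Pool.Agent.Y199.DM

section Orb

variable {k : Type} [Field k] {N d : ℕ}

theorem pt_smulK (F : Fin (N + 1) → MvPolynomial (Fin (N + 1)) k)
    (hF : ∀ i, (F i).IsHomogeneous d) (c : k) (x : Fin (N + 1) → k) :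
    pt F (c • x) = c ^ d • pt F x := by
  funext i
  have := eval_scale (F i) d (hF i) c x
  simp only [pt, Pi.smul_apply, smul_eq_mul]
  rw [← this]
  rfl

theorem jac_smulK (F : Fin (N + 1) → MvPolynomial (Fin (N + 1)) k)
    (hF : ∀ i, (F i).IsHomogeneous d) (c : k) (x : Fin (N + 1) → k) :
    (jac F (c • x)).det = (c ^ (d - 1)) ^ (N + 1) * (jac F x).det := by
  have h1 : jac F (c • x) = c ^ (d - 1) • jac F x := by
    ext i j
    simp only [jac, Matrix.smul_apply, smul_eq_mul]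
    have := eval_scale (pderiv j (F i)) (d - 1) (hF i).pderiv c x
    rw [← this]
    rfl
  rw [h1, Matrix.det_smul, Fintype.card_fin]

/-- The index in the first part of the orbit. -/
def idx (n₀ m n : ℕ) : ℕ := if n < n₀ then n else n₀ + (n - n₀) % m

theorem idx_lt {n₀ m : ℕ} (hm : 0 < m) (n : ℕ) : idx n₀ m n < n₀ + m := by
  rw [idx]
  split_ifs with h
  · omega
  · have := Nat.mod_lt (n - n₀) hm
    omega

theorem le_idx {n₀ m n : ℕ} (hn : n₀ ≤ n) : n₀ ≤ idx n₀ m n := by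
  rw [idx, if_neg (by omega)]
  omega

theorem iter_idx (F : Fin (N + 1) → MvPolynomial (Fin (N + 1)) k)
    (hF : ∀ i, (F i).IsHomogeneous d) (P : Fin (N + 1) → k) (n₀ m : ℕ) (hm : 0 < m) (c : k)
    (hc : (pt F)^[n₀ + m] P = c • (pt F)^[n₀] P) (n : ℕ) :
    ∃ e : ℕ, (pt F)^[n] P = c ^ e • (pt F)^[idx n₀ m n] P := by
  by_cases hn : n < n₀
  · exact ⟨0, by simp [idx, hn]⟩
  · obtain ⟨l, rfl⟩ := Nat.exists_eq_add_of_le (not_lt.1 hn)
    have h0 : idx n₀ m (n₀ + l) = n₀ + l % m := by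
      rw [idx, if_neg hn, Nat.add_sub_cancel_left]
    rw [h0]
    clear h0 hn
    induction l with
    | zero => exact ⟨0, by simp⟩
    | succ l ih =>
      obtain ⟨e, h⟩ := ih
      have h1 : (pt F)^[n₀ + (l + 1)] P = (c ^ e) ^ d • (pt F)^[n₀ + (l % m + 1)] P := by
        rw [← Nat.add_assoc, ← Nat.add_assoc, Function.iterate_succ_apply',
          Function.iterate_succ_apply', h, pt_smulK F hF]
      have h2 : (l + 1) % m = (l % m + 1) % m := (Nat.mod_add_mod l m 1).symm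
      by_cases hj : l % m + 1 < m
      · exact ⟨e * d, by rw [h2, Nat.mod_eq_of_lt hj, h1, pow_mul]⟩
      · have h3 : l % m + 1 = m := by
          have := Nat.mod_lt l hm
          omega
        refine ⟨e * d + 1, ?_⟩
        rw [h2, h3, Nat.mod_self, h1, h3, hc, smul_smul, pow_succ, pow_mul]
        rfl

theorem exists_factor (x y : Fin (N + 1) → k) (hx : x ≠ 0) (hy : y ≠ 0)
    (h : ∀ i j, y i * x j = y j * x i) : ∃ c : k, c ≠ 0 ∧ y = c • x := by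
  obtain ⟨i, hi⟩ : ∃ i, x i ≠ 0 := by
    by_contra hcon
    push Not at hcon
    exact hx (_root_.funext hcon)
  have h1 : y = (y i / x i) • x := by
    funext j
    rw [Pi.smul_apply, smul_eq_mul, div_mul_eq_mul_div, h i j, mul_div_assoc, div_self hi, mul_one]
  refine ⟨y i / x i, fun h0 => ?_, h1⟩
  rw [h0, zero_smul] at h1
  exact hy h1

theorem orbK (F : Fin (N + 1) → MvPolynomial (Fin (N + 1)) k)
    (hF : ∀ i, (F i).IsHomogeneous d) (P : Fin (N + 1) → k) (n₀ m : ℕ) (hm : 0 < m)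
    (hne : ∀ n ≤ n₀ + m, (pt F)^[n] P ≠ 0)
    (hpr : ∀ i j, (pt F)^[n₀ + m] P i * (pt F)^[n₀] P j =
      (pt F)^[n₀ + m] P j * (pt F)^[n₀] P i) :
    (∀ n, (pt F)^[n] P ≠ 0) ∧
    ((∀ n, n₀ ≤ n → n < n₀ + m → (jac F ((pt F)^[n] P)).det ≠ 0) →
      ∀ n, n₀ ≤ n → (jac F ((pt F)^[n] P)).det ≠ 0) ∧
    ∀ (e : ℕ) (g : MvPolynomial (Fin (N + 1)) k), g.IsHomogeneous e → ∀ n,
      (eval ((pt F)^[n] P) g = 0 ↔ eval ((pt F)^[idx n₀ m n] P) g = 0) := by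
  obtain ⟨c, hc0, hc⟩ := exists_factor _ _ (hne n₀ (by omega)) (hne (n₀ + m) le_rfl) hpr
  refine ⟨fun n => ?_, fun hdet n hn => ?_, fun e g hg n => ?_⟩
  · obtain ⟨e, he⟩ := iter_idx F hF P n₀ m hm c hc n
    rw [he]
    exact smul_ne_zero (pow_ne_zero _ hc0) (hne _ (idx_lt hm n).le)
  · obtain ⟨e, he⟩ := iter_idx F hF P n₀ m hm c hc n
    rw [he, jac_smulK F hF]
    exact mul_ne_zero (pow_ne_zero _ (pow_ne_zero _ (pow_ne_zero _ hc0)))
      (hdet _ (le_idx hn) (idx_lt hm n))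
  · obtain ⟨e', he⟩ := iter_idx F hF P n₀ m hm c hc n
    rw [he]
    have h1 := eval_scale g e hg (c ^ e') ((pt F)^[idx n₀ m n] P)
    have h2 : (c ^ e' • (pt F)^[idx n₀ m n] P) = fun i => c ^ e' * (pt F)^[idx n₀ m n] P i := rfl
    rw [h2, h1, mul_eq_zero]
    exact or_iff_right (pow_ne_zero _ (pow_ne_zero _ hc0))

end Orb

section Red

variable {p : ℕ} [hp : Fact p.Prime] (τ : ℂ →+* PadicAlgCl p)

/-- The numbers which are integral at `τ`. -/
noncomputable def SO : Subring ℂ := (unitBall (PadicAlgCl p)).comap τ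

theorem mem_SO {z : ℂ} : z ∈ SO τ ↔ ‖τ z‖ ≤ 1 := Iff.rfl

/-- The reduction at `τ`. -/
noncomputable def rd : SO τ →+* ResF (PadicAlgCl p) :=
  (res (PadicAlgCl p)).comp (τ.restrict (SO τ) (unitBall (PadicAlgCl p)) fun _ h => h)

theorem rd_eq_zero_iff {z : SO τ} : rd τ z = 0 ↔ ‖τ z‖ < 1 := by
  rw [rd, RingHom.comp_apply, res_eq_zero_iff]
  rfl

theorem rd_ne_zero_iff {z : SO τ} : rd τ z ≠ 0 ↔ ‖τ z‖ = 1 := by
  rw [Ne, rd_eq_zero_iff, not_lt]
  exact ⟨fun h => le_antisymm z.2 h, fun h => h.ge⟩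

theorem liftS {ι : Type} (f : MvPolynomial ι ℂ) (hf : ∀ κ, ‖τ (f.coeff κ)‖ ≤ 1) :
    ∃ g : MvPolynomial ι (SO τ), map (SO τ).subtype g = f := by
  have h : f ∈ Set.range (map (σ := ι) (SO τ).subtype) := by
    rw [mem_range_map_iff_coeffs_subset]
    intro c hc
    rw [Finset.mem_coe, mem_coeffs_iff] at hc
    obtain ⟨κ, -, rfl⟩ := hc
    exact ⟨⟨f.coeff κ, hf κ⟩, rfl⟩
  exact h

theorem eval_mapS {R R' : Type} [CommRing R] [CommRing R'] {ι : Type} (φ : R →+* R')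
    (g : MvPolynomial ι R) (z : ι → R) :
    eval (fun i => φ (z i)) (map φ g) = φ (eval z g) := by
  rw [eval_map]
  have h := eval₂_comp_left φ (RingHom.id _) z g
  rw [RingHom.comp_id] at h
  exact h.symm

/-- Orbits whose reduction is preperiodic. -/
theorem redOrb {N d : ℕ} (f : Fin (N + 1) → MvPolynomial (Fin (N + 1)) ℂ)
    (hfd : ∀ i, (f i).IsHomogeneous d) (x : Fin (N + 1) → ℂ)
    (hf : ∀ i κ, ‖τ ((f i).coeff κ)‖ ≤ 1) (hx : ∀ i, ‖τ (x i)‖ ≤ 1) (n₀ m : ℕ) (hm : 0 < m)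
    (hne : ∀ n ≤ n₀ + m, ∃ i, ‖τ ((pt f)^[n] x i)‖ = 1)
    (hpr : ∀ i j, ‖τ ((pt f)^[n₀ + m] x i * (pt f)^[n₀] x j -
      (pt f)^[n₀ + m] x j * (pt f)^[n₀] x i)‖ < 1) :
    (∀ n, ∃ i, ‖τ ((pt f)^[n] x i)‖ = 1) ∧
    ((∀ n, n₀ ≤ n → n < n₀ + m → ‖τ ((jac f ((pt f)^[n] x)).det)‖ = 1) →
      ∀ n, n₀ ≤ n → ‖τ ((jac f ((pt f)^[n] x)).det)‖ = 1) ∧
    ∀ (e : ℕ) (g : MvPolynomial (Fin (N + 1)) ℂ), g.IsHomogeneous e →
      (∀ κ, ‖τ (g.coeff κ)‖ ≤ 1) → ∀ n,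
      (‖τ (eval ((pt f)^[n] x) g)‖ < 1 ↔ ‖τ (eval ((pt f)^[idx n₀ m n] x) g)‖ < 1) := by
  choose FO hFO using fun i => liftS τ (f i) (hf i)
  let b : Fin (N + 1) → SO τ := fun i => ⟨x i, hx i⟩
  have hinj : Function.Injective (SO τ).subtype := Subtype.coe_injective
  have e3 : (fun i => map (SO τ).subtype (FO i)) = f := _root_.funext hFO
  have e4 : (fun i => (SO τ).subtype (b i)) = x := rfl
  have hit : ∀ n, (fun i => (((pt FO)^[n] b i : SO τ) : ℂ)) = (pt f)^[n] x := by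
    intro n
    have e1 := pt_map (SO τ).subtype FO b n
    rw [e3, e4] at e1
    exact e1.symm
  have hit' : ∀ n i, (((pt FO)^[n] b i : SO τ) : ℂ) = (pt f)^[n] x i := fun n i =>
    congrFun (hit n) i
  set FR : Fin (N + 1) → MvPolynomial (Fin (N + 1)) (ResF (PadicAlgCl p)) :=
    fun i => map (rd τ) (FO i) with hFR
  set xR : Fin (N + 1) → ResF (PadicAlgCl p) := fun i => rd τ (b i) with hxR
  have hFOd : ∀ i, (FO i).IsHomogeneous d := fun i => by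
    have h := hfd i
    rw [← hFO i] at h
    exact h.of_map hinj
  have hFRd : ∀ i, (FR i).IsHomogeneous d := fun i => (hFOd i).map _
  have hR : ∀ n, (pt FR)^[n] xR = fun i => rd τ ((pt FO)^[n] b i) := fun n =>
    pt_map (rd τ) FO b n
  have hne' : ∀ n, (pt FR)^[n] xR ≠ 0 ↔ ∃ i, ‖τ ((pt f)^[n] x i)‖ = 1 := by
    intro n
    rw [hR n, Function.ne_iff]
    refine exists_congr fun i => ?_
    rw [Pi.zero_apply, rd_ne_zero_iff, hit' n i]
  have hdet : ∀ n, (jac FR ((pt FR)^[n] xR)).det ≠ 0 ↔ ‖τ ((jac f ((pt f)^[n] x)).det)‖ = 1 := by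
    intro n
    have e1 : (jac FR ((pt FR)^[n] xR)).det = rd τ ((jac FO ((pt FO)^[n] b)).det) := by
      rw [hR n, hFR, jac_map, RingHom.map_det]
    have e2 : (jac f ((pt f)^[n] x)).det = (SO τ).subtype ((jac FO ((pt FO)^[n] b)).det) := by
      rw [RingHom.map_det, ← jac_map, e3, ← hit n]
      rfl
    rw [e1, rd_ne_zero_iff, e2]
    rfl
  obtain ⟨h1, h2, h3⟩ := orbK FR hFRd xR n₀ m hm (fun n hn => (hne' n).2 (hne n hn)) (by
    intro i j
    rw [hR, hR, ← sub_eq_zero, ← map_mul, ← map_mul, ← map_sub, rd_eq_zero_iff]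
    have := hpr i j
    rw [← hit' (n₀ + m) i, ← hit' n₀ j, ← hit' (n₀ + m) j, ← hit' n₀ i] at this
    exact this)
  refine ⟨fun n => (hne' n).1 (h1 n), fun h n hn => (hdet n).1 (h2 (fun n hn hn' =>
    (hdet n).2 (h n hn hn')) n hn), fun e g hg hgc n => ?_⟩
  obtain ⟨gO, hgO⟩ := liftS τ g hgc
  have hgOd : gO.IsHomogeneous e := by
    rw [← hgO] at hg
    exact hg.of_map hinj
  have key : ∀ n, ‖τ (eval ((pt f)^[n] x) g)‖ < 1 ↔
      eval ((pt FR)^[n] xR) (map (rd τ) gO) = 0 := by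
    intro n
    rw [hR n, eval_mapS, rd_eq_zero_iff]
    have e5 : eval ((pt f)^[n] x) g = (SO τ).subtype (eval ((pt FO)^[n] b) gO) := by
      rw [← eval_mapS, hgO, ← hit n]
      rfl
    rw [e5]
    rfl
  rw [key, key]
  exact h3 e _ (hgOd.map _) n

/-- The Dynamical Mordell-Lang property of orbits whose reduction is preperiodic and étale. -/
theorem dml_of_red {N d : ℕ} (f : Fin (N + 1) → MvPolynomial (Fin (N + 1)) ℂ)
    (hfd : ∀ i, (f i).IsHomogeneous d) (x : Fin (N + 1) → ℂ)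
    (hf : ∀ i κ, ‖τ ((f i).coeff κ)‖ ≤ 1) (hx : ∀ i, ‖τ (x i)‖ ≤ 1) (n₀ m : ℕ) (hm : 0 < m)
    (hne : ∀ n ≤ n₀ + m, ∃ i, ‖τ ((pt f)^[n] x i)‖ = 1)
    (hpr : ∀ i j, ‖τ ((pt f)^[n₀ + m] x i * (pt f)^[n₀] x j -
      (pt f)^[n₀ + m] x j * (pt f)^[n₀] x i)‖ < 1)
    (hdet : ∀ n, n₀ ≤ n → n < n₀ + m → ‖τ ((jac f ((pt f)^[n] x)).det)‖ = 1) :
    DMLAt f x := by
  obtain ⟨h1, h2, -⟩ := redOrb τ f hfd x hf hx n₀ m hm hne hpr
  exact orbit_core τ f f x x hf hf (fun i κ => by rw [sub_self, norm_zero]; exact one_pos) hx hx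
    (fun i => by rw [sub_self, norm_zero]; exact one_pos) n₀ (h2 hdet) h1

end Red

end Pool.Agent.X295.Dyn
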