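import Pool.Agent.X295.NearMI
import Pool.Agent.X295.ElimK

/-!
Families with several parameters of subsets of products of modular curves and tori over arbitrary
fields, with divisors over the algebraic numbers: the data at the places near to the degenerate divisors
(helper file).
-/

set_option autoImplicit false

open Function UpperHalfPlane H294ZP MvPolynomial Pool.Agent.W466.ZC Pool.Agent.TH526.ZL

namespace Pool.Agent.X295

variable {k : Type} [Field k] [Algebra k ℂ] {q : ℕ}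

/-- The data at the places near to the degenerate divisors. -/
theorem nearK [IsAlgClosed k] [CharZero k] (𝓈 : Set k)
    (h𝓈 : IsTranscendenceBasis ℤ ((↑) : 𝓈 → k)) {κ : Type} [Finite κ]
    {ι : Type} [Fintype ι] [DecidableEq ι] {N n m M : ℕ} (G : κ → MvPolynomial (Fin (N + 1)) (MvPolynomial (Fin q) k))
    (hG : ∀ i, ∃ e, (G i).IsHomogeneous e)
    (A B : ι → MvPolynomial (Fin (N + 1)) (MvPolynomial (Fin q) k)) (d : ι → ℕ)
    (hA : ∀ i, (A i).IsHomogeneous (d i)) (hB : ∀ i, (B i).IsHomogeneous (d i))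
    (R : Fin n → Polynomial (Polynomial k)) (h : Fin M → MvPolynomial (Fin q) k)
    (hp : ∀ l, Prime (h l)) (Nm : Fin M → MvPolynomial (Fin q) ℤ) (hN0 : ∀ l, Nm l ≠ 0)
    (hN : ∀ l, h l ∣ MvPolynomial.map (Int.castRingHom k) (Nm l))
    (c : ι → MvPolynomial (Fin q) k) (e : Fin M → ι → ℕ)
    (g : Fin M → ι → MvPolynomial (Fin q) k)
    (hc : ∀ l i, c i = h l ^ e l i * g l i)
    (hg : ∀ l i, ¬ h l ∣ g l i)
    (a : Fin M → Fin q → k)
    (ha : ∀ l, eval (a l) (h l) = 0)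
    (hdis : ∀ l, ∀ I : Finset ι, I.card = m + 1 → ∀ y : Fin (N + 1) → ℂ,
      (∀ i, aeval y (specM (a l) (G i)) = 0) →
      (∀ i ∈ I, aeval y (specM (a l) (A i)) * aeval y (specM (a l) (B i)) = 0) → y = 0)
    (Γ : Set k) (hΓ : Γ.Finite) (j0 : Fin M → Fin q) :
    ∃ ρ : ∀ l, MvPolynomial {j : Fin q // j ≠ j0 l} ℤ, (∀ l, ρ l ≠ 0) ∧
      ∃ W : Set k, W.Finite ∧ Γ ⊆ W ∧ ∀ V : ValuationSubring ℂ,
      (∀ z ∈ W, algebraMap k ℂ z ∈ V) →
      (∀ i u w, ((R i).coeff u).coeff w ≠ 0 →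
        V.valuation (algebraMap k ℂ (((R i).coeff u).coeff w)) = 1) ∧
      ∀ (l : Fin M) (τ : Fin q → ℤ) (p : ℕ), GaussAt V p (fun a : 𝓈 => algebraMap k ℂ a) →
      ¬ (p : ℤ) ∣ eval τ (rename Subtype.val (ρ l)) →
      V.valuation (algebraMap k ℂ (eval (fun j => ((τ j : ℤ) : k)) (h l))) < 1 →
      ∀ (s : ι → ℂ) (y : Fin (N + 1) → ℂ), y ≠ 0 →
      (∀ i, aeval y (specM (fun j => ((τ j : ℤ) : k)) (G i)) = 0) →
      (∀ i, algebraMap k ℂ (eval (fun j => ((τ j : ℤ) : k)) (c i)) *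
        aeval y (specM (fun j => ((τ j : ℤ) : k)) (B i)) * s i =
          aeval y (specM (fun j => ((τ j : ℤ) : k)) (A i))) →
      ∃ E : Finset ι, E.card ≤ m ∧ ∀ i, i ∉ E → V.valuation (s i) *
        V.valuation (algebraMap k ℂ (eval (fun j => ((τ j : ℤ) : k)) (h l))) ^ e l i = 1 := by
  classical
  choose δ hδ W0 hW0 hgood using fun l => goodVMI (m := m) G hG A B d hA hB (a l) (hdis l)
  let Δ : Fin M → MvPolynomial (Fin q) k := fun l => (∏ I, δ l I) * ∏ i, g l i
  have hΔ : ∀ l, ¬ h l ∣ Δ l := by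
    intro l hdvd
    rcases (hp l).dvd_or_dvd hdvd with h1 | h1
    · obtain ⟨I, -, hI⟩ := ((hp l).dvd_finsetProd_iff _).1 h1
      apply hδ l I
      obtain ⟨w, hw⟩ := hI
      rw [hw, map_mul, ha l, zero_mul]
    · obtain ⟨i, -, hi⟩ := ((hp l).dvd_finsetProd_iff _).1 h1
      exact hg l i hi
  choose ρ hρ α β hαβ using fun l =>
    elimK 𝓈 h𝓈 (Nm l) (hN0 l) (h l) (hp l) (hN l) (Δ l) (hΔ l) (j0 l)
  refine ⟨ρ, hρ, ?_⟩
  let W1 : Set k := ⋃ i, ⋃ u ∈ ((R i).support : Set ℕ), coefs1 ((R i).coeff u)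
  have hW1 : W1.Finite := Set.finite_iUnion fun i =>
      (R i).support.finite_toSet.biUnion fun u _ => coefs1_finite _
  let W2 : Set k := (⋃ l, W0 l) ∪ ((⋃ l, coefsP (α l)) ∪ ((⋃ l, coefsP (β l)) ∪
    ((⋃ l, ⋃ i, coefsP (g l i)) ∪ (⋃ l, ⋃ I, coefsP (δ l I)))))
  have hW2 : W2.Finite := by
    refine (Set.finite_iUnion hW0).union ((Set.finite_iUnion fun l => coefsP_finite _).union
      ((Set.finite_iUnion fun l => coefsP_finite _).union
      ((Set.finite_iUnion fun l => Set.finite_iUnion fun i => coefsP_finite _).union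
      (Set.finite_iUnion fun l => Set.finite_iUnion fun i => coefsP_finite _))))
  let W : Set k := W1 ∪ ((fun z => z⁻¹) '' W1 ∪ (Γ ∪ W2))
  refine ⟨W, hW1.union ((hW1.image _).union (hΓ.union hW2)),
    fun z hz => Or.inr (Or.inr (Or.inl hz)), fun V hV => ?_⟩
  have hW1V : ∀ z ∈ W1, algebraMap k ℂ z ∈ V := fun z hz => hV z (Or.inl hz)
  have hW1V' : ∀ z ∈ W1, algebraMap k ℂ z⁻¹ ∈ V := fun z hz =>
    hV _ (Or.inr (Or.inl ⟨z, hz, rfl⟩))
  have hW2V : ∀ z ∈ W2, algebraMap k ℂ z ∈ V := fun z hz => hV z (Or.inr (Or.inr (Or.inr hz)))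
  refine ⟨fun i u w h0 => ?_, fun l τ p hVp hpρ hτ1 s y hy0 hyG hxy => ?_⟩
  · refine v_unit V hW1V hW1V' (Set.mem_iUnion.2 ⟨i, ?_⟩) h0
    refine Set.mem_biUnion (x := u) ?_ ⟨w, Polynomial.mem_support_iff.2 h0, rfl⟩
    rw [Finset.mem_coe, Polynomial.mem_support_iff]
    intro h1
    rw [h1, Polynomial.coeff_zero] at h0
    exact h0 rfl
  set τ' : Fin q → k := fun j => ((τ j : ℤ) : k) with hτ'
  have hτV : ∀ i, algebraMap k ℂ (τ' i) ∈ V := by
    intro i
    rw [hτ', map_intCast]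
    exact intCast_mem V _
  have hle : ∀ P : MvPolynomial (Fin q) k, (∀ z ∈ coefsP P, algebraMap k ℂ z ∈ V) →
      V.valuation (algebraMap k ℂ (eval τ' P)) ≤ 1 := fun P hP =>
    (ValuationSubring.valuation_le_one_iff _ _).2 (evalM_mem V P (coefsP_mem V hP) hτV)
  have hαV := hle (α l) fun z hz => hW2V z (Or.inr (Or.inl (Set.mem_iUnion.2 ⟨l, hz⟩)))
  have hβV := hle (β l) fun z hz => hW2V z (Or.inr (Or.inr (Or.inl (Set.mem_iUnion.2 ⟨l, hz⟩))))
  have hgV := fun i => hle (g l i) fun z hz => hW2V z (Or.inr (Or.inr (Or.inr (Or.inl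
    (Set.mem_iUnion.2 ⟨l, Set.mem_iUnion.2 ⟨i, hz⟩⟩)))))
  have hδV := fun I => hle (δ l I) fun z hz => hW2V z (Or.inr (Or.inr (Or.inr (Or.inr
    (Set.mem_iUnion.2 ⟨l, Set.mem_iUnion.2 ⟨I, hz⟩⟩)))))
  have hΔle : V.valuation (algebraMap k ℂ (eval τ' (Δ l))) ≤ 1 := by
    show V.valuation (algebraMap k ℂ (eval τ' ((∏ I, δ l I) * ∏ i, g l i))) ≤ 1
    rw [ValuationSubring.valuation_le_one_iff, map_mul, map_prod, map_prod, map_mul, map_prod,
      map_prod]
    exact mul_mem (prod_mem fun I _ => (ValuationSubring.valuation_le_one_iff _ _).1 (hδV I))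
      (prod_mem fun i _ => (ValuationSubring.valuation_le_one_iff _ _).1 (hgV i))
  obtain ⟨f, hf1, hf2⟩ := hαβ l τ
  have hf3 := hVp.gauss f (hf1 p hpρ)
  have hf4 : aeval (fun a : 𝓈 => algebraMap k ℂ a) f = algebraMap k ℂ (aeval ((↑) : 𝓈 → k) f) := by
    have h8 := MvPolynomial.map_aeval (R := ℤ) ((↑) : 𝓈 → k) (algebraMap k ℂ) f
    rw [h8, aeval_def, coe_eval₂Hom]
    congr 1
    exact RingHom.ext_int _ _
  rw [hf4, hf2, map_add, map_mul, map_mul, map_add, map_mul, map_mul] at hf3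
  have hβΔ : V.valuation (algebraMap k ℂ (eval τ' (β l)) * algebraMap k ℂ (eval τ' (Δ l))) = 1 := by
    refine le_antisymm ?_ ?_
    · rw [map_mul]
      exact mul_le_one' hβV hΔle
    · by_contra hlt
      push Not at hlt
      have h1 : V.valuation (algebraMap k ℂ (eval τ' (α l)) *
          algebraMap k ℂ (eval τ' (h l))) < 1 := by
        rw [map_mul]
        exact (mul_le_of_le_one_left' hαV).trans_lt hτ1
      have h2 := Valuation.map_add_lt _ h1 hlt
      exact h2.ne hf3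
  have hΔ1 := (v_mul_one V hβV hΔle hβΔ).2
  have hΔ2 : V.valuation (algebraMap k ℂ (eval τ' (∏ I, δ l I)) *
      algebraMap k ℂ (eval τ' (∏ i, g l i))) = 1 := by
    rw [← hΔ1]
    show _ = V.valuation (algebraMap k ℂ (eval τ' ((∏ I, δ l I) * ∏ i, g l i)))
    rw [map_mul (MvPolynomial.eval τ'), map_mul (algebraMap k ℂ)]
  have hδle : V.valuation (algebraMap k ℂ (eval τ' (∏ I, δ l I))) ≤ 1 := by
    rw [ValuationSubring.valuation_le_one_iff, map_prod, map_prod]
    exact prod_mem fun I _ => (ValuationSubring.valuation_le_one_iff _ _).1 (hδV I)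
  have hgle : V.valuation (algebraMap k ℂ (eval τ' (∏ i, g l i))) ≤ 1 := by
    rw [ValuationSubring.valuation_le_one_iff, map_prod, map_prod]
    exact prod_mem fun I _ => (ValuationSubring.valuation_le_one_iff _ _).1 (hgV I)
  obtain ⟨h3, h4⟩ := v_mul_one V hδle hgle hΔ2
  rw [map_prod, map_prod] at h3 h4
  have hδ1 : ∀ I, V.valuation (algebraMap k ℂ (eval τ' (δ l I))) = 1 := fun I =>
    v_prod_one V Finset.univ _ (fun I _ => hδV I) h3 I (Finset.mem_univ I)
  have hg1 : ∀ i, V.valuation (algebraMap k ℂ (eval τ' (g l i))) = 1 := fun i =>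
    v_prod_one V Finset.univ _ (fun i _ => hgV i) h4 i (Finset.mem_univ i)
  have hcv : ∀ i, V.valuation (algebraMap k ℂ (eval τ' (c i))) =
      V.valuation (algebraMap k ℂ (eval τ' (h l))) ^ e l i := by
    intro i
    rw [hc l i, map_mul, map_mul, map_mul, hg1 i, mul_one, map_pow, map_pow, map_pow]
  obtain ⟨t, ht0, hAB, hI⟩ := hgood l V (fun z hz => hW2V z (Or.inl (Set.mem_iUnion.2 ⟨l, hz⟩)))
    τ' hτV hδ1 y hy0 hyG
  refine ⟨Finset.univ.filter fun i => ¬ V.valuation (aeval (t • y)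
    (specM τ' (A i)) * aeval (t • y) (specM τ' (B i))) = 1, ?_, ?_⟩
  · by_contra h
    push Not at h
    obtain ⟨I, hIE, hIc⟩ := Finset.exists_subset_card_eq (Nat.succ_le_of_lt h)
    obtain ⟨i, hi, h1⟩ := hI I hIc
    exact (Finset.mem_filter.1 (hIE hi)).2 h1
  · intro i hi
    rw [Finset.mem_filter] at hi
    push Not at hi
    have h1 := hi (Finset.mem_univ i)
    have hA1 := (ValuationSubring.valuation_le_one_iff _ _).2 (hAB i).1
    have hB1 := (ValuationSubring.valuation_le_one_iff _ _).2 (hAB i).2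
    obtain ⟨hA2, hB2⟩ := v_mul_one V hA1 hB1 h1
    have h3 : algebraMap k ℂ (eval τ' (c i)) *
        aeval (t • y) (specM τ' (B i)) * s i =
          aeval (t • y) (specM τ' (A i)) := by
      rw [specM_smul (hA i), specM_smul (hB i), ← hxy i]
      ring
    have h4 := congrArg V.valuation h3
    rw [map_mul, map_mul, hA2, hB2, mul_one, hcv] at h4
    rw [mul_comm]
    exact h4


/-- irreducibility over a subfield -/
theorem irr_of_map {k L : Type} [Field k] [Field L] (f : k →+* L) {q : ℕ}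
    {h : MvPolynomial (Fin q) k} (hirr : Irreducible (MvPolynomial.map f h)) : Irreducible h := by
  have hunit : ∀ a : MvPolynomial (Fin q) k, IsUnit (MvPolynomial.map f a) → IsUnit a := by
    intro a ha
    obtain ⟨r, hr, hr'⟩ := isUnit_iff_eq_C_of_isReduced.1 ha
    have h1 : f (coeff 0 a) = r := by
      have h2 := congrArg (coeff 0) hr'
      rwa [coeff_map, coeff_zero_C] at h2
    have h2 : a = C (coeff 0 a) := by
      apply MvPolynomial.map_injective f f.injective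
      rw [hr', MvPolynomial.map_C, h1]
    rw [h2]
    refine IsUnit.map _ (isUnit_iff_ne_zero.2 fun h0 => ?_)
    rw [h0, map_zero] at h1
    rw [← h1] at hr
    exact not_isUnit_zero hr
  refine ⟨fun hu => hirr.not_isUnit (hu.map _), fun a b hab => ?_⟩
  rw [hab, map_mul] at hirr
  rcases hirr.isUnit_or_isUnit rfl with h1 | h1
  · exact Or.inl (hunit a h1)
  · exact Or.inr (hunit b h1)

/-- a polynomial which is divisible by a nonconstant one contains one of the variables -/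
theorem exists_varN {k : Type} [Field k] [CharZero k] {q : ℕ} {h : MvPolynomial (Fin q) k}
    (hirr : Irreducible h) {N : MvPolynomial (Fin q) ℤ} (hN0 : N ≠ 0)
    (hN : h ∣ MvPolynomial.map (Int.castRingHom k) N) :
    ∃ j0 : Fin q, 0 < (asPoly j0 N).natDegree := by
  by_contra hcon
  push Not at hcon
  have h1 : N.vars = ∅ := by
    rw [Finset.eq_empty_iff_forall_notMem]
    intro j hj
    rw [mem_vars_iff_degreeOf_ne_zero] at hj
    apply hj
    have h2 := hcon j
    rw [asPoly, natDegree_optionEquivLeft] at h2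
    have h3 : (rename (Equiv.optionSubtypeNe j).symm N).degreeOf
        ((Equiv.optionSubtypeNe j).symm j) = N.degreeOf j :=
      degreeOf_rename_of_injective (Equiv.injective _) j
    rw [Equiv.optionSubtypeNe_symm_self] at h3
    omega
  rw [vars_eq_empty_iff_eq_C] at h1
  have h2 : IsUnit (MvPolynomial.map (σ := Fin q) (Int.castRingHom k) N) := by
    rw [h1, MvPolynomial.map_C]
    refine IsUnit.map _ (isUnit_iff_ne_zero.2 fun h0 => ?_)
    rw [eq_intCast, Int.cast_eq_zero] at h0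
    exact hN0 (by rw [h1, h0, map_zero])
  exact hirr.not_isUnit (isUnit_of_dvd_unit hN h2)

end Pool.Agent.X295
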