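import Pool.Agent.X295.DynF
import Pool.Agent.X295.NearK

/-!
Families with several parameters of orbits which are preperiodic along a divisor (helper file).
-/

set_option autoImplicit false

namespace Pool.Agent.X295.Dyn

open MvPolynomial Pool.Agent.H936R2 Pool.Agent.H905R3.DML Pool.Agent.H905R3.DML.Core
  Pool.Agent.TH838.PR Pool.Agent.TH838.PS Pool.Agent.TH838.DS Pool.Agent.Y199.DM

/-- Embeddings near to a divisor over the algebraic numbers. -/
theorem emb_near {q : ℕ} (h : MvPolynomial (Fin q) QB) (s : Set ℂ)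
    (hs : IsTranscendenceBasis ℤ ((↑) : s → ℂ)) :
    ∃ N : MvPolynomial (Fin q) ℤ, (h ≠ 0 → N ≠ 0) ∧
      h ∣ MvPolynomial.map (Int.castRingHom QB) N ∧
      ∀ W : Set ℂ, W.Finite → ∃ D : ℕ, ∀ (p : ℕ) [Fact p.Prime], D < p →
      ∀ u : Fin q → ℤ, (p : ℤ) ∣ eval u N → ∀ f : MvPolynomial s ℤ, ¬ C (p : ℤ) ∣ f →
        ∃ τ : ℂ →+* PadicAlgCl p, (∀ w ∈ W, ‖τ w‖ ≤ 1) ∧ ‖τ (aeval ((↑) : s → ℂ) f)‖ = 1 ∧
          ‖τ (algebraMap QB ℂ (eval (fun j => ((u j : ℤ) : QB)) h))‖ < 1 := by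
  classical
  have := galQB
  obtain ⟨N, D, O, hD, ⟨σ0, hσ0, hσ0h⟩, hN⟩ := exists_norm h
  have hQ : AlgebraicIndependent QB ((↑) : s → ℂ) := by
    have : Algebra.IsAlgebraic ℤ ℚ := IsLocalization.isAlgebraic ℚ (nonZeroDivisors ℤ)
    exact (hs.1.extendScalars ℚ).extendScalars QB
  choose θ hθ1 hθ2 using fun σ : QB ≃ₐ[ℚ] QB =>
    exists_endo (L := ℂ) (σ : QB →+* QB) ((↑) : s → ℂ) hQ
  refine ⟨N, fun hh hN0 => ?_, ?_, fun W hW => ?_⟩
  · rw [hN0, map_zero] at hN
    rcases mul_eq_zero.1 hN.symm with h1 | h1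
    · have h2 : (D : QB) = 0 := (C_eq_zero).1 h1
      exact hD (by exact_mod_cast h2)
    · obtain ⟨σ, -, hσ⟩ := Finset.prod_eq_zero_iff.1 h1
      apply hh
      exact MvPolynomial.map_injective _ σ.injective (hσ.trans (map_zero _).symm)
  · rw [hN]
    have h1 := Finset.dvd_prod_of_mem (fun σ : QB ≃ₐ[ℚ] QB => MvPolynomial.map (σ : QB →+* QB) h) hσ0
    simp only [hσ0h] at h1
    exact h1.mul_left _
  · let W' : Set ℂ := ⋃ σ ∈ (O : Set (QB ≃ₐ[ℚ] QB)), θ σ '' W
    have hW' : W'.Finite := O.finite_toSet.biUnion fun σ _ => hW.image _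
    obtain ⟨D', hD'⟩ := emb_generic s hs W' hW'
    refine ⟨max D' D, fun p hp hpD u hu f hf => ?_⟩
    obtain ⟨τ, hτW, hτf⟩ := hD' p (lt_of_le_of_lt (le_max_left _ _) hpD) f hf
    have hpint : ∀ z : ℤ, ‖τ ((z : ℤ) : ℂ)‖ ≤ 1 := fun z => by
      rw [map_intCast]
      have h1 : ((z : ℤ) : PadicAlgCl p) ∈ unitBall (PadicAlgCl p) := intCast_mem _ z
      exact h1
    have hpD1 : ‖((D : ℕ) : PadicAlgCl p)‖ = 1 := by
      by_contra hlt
      have h1 : ‖((D : ℕ) : PadicAlgCl p)‖ ≤ 1 := by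
        have := hpint (D : ℤ)
        rwa [map_intCast, Int.cast_natCast] at this
      have h2 : ‖((D : ℕ) : PadicAlgCl p)‖ < 1 := lt_of_le_of_ne h1 hlt
      have h3 : p ∣ D := by
        have := charP_resF p
        have h4 : res (PadicAlgCl p) ((D : ℕ) : unitBall (PadicAlgCl p)) = 0 := by
          rw [res_eq_zero_iff]
          simpa using h2
        rw [map_natCast] at h4
        exact (CharP.cast_eq_zero_iff _ p _).1 h4
      have h5 := Nat.le_of_dvd (Nat.pos_of_ne_zero hD) h3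
      have := le_max_right D' D
      omega
    have h1 : ‖τ ((eval u N : ℤ) : ℂ)‖ < 1 := by
      obtain ⟨c, hc⟩ := hu
      rw [hc, Int.cast_mul, map_mul, norm_mul, map_intCast, Int.cast_natCast]
      have hp1 : ‖((p : ℕ) : PadicAlgCl p)‖ < 1 := norm_natCast_p_lt
      calc ‖((p : ℕ) : PadicAlgCl p)‖ * ‖τ (c : ℂ)‖ ≤ ‖((p : ℕ) : PadicAlgCl p)‖ * 1 :=
            mul_le_mul_of_nonneg_left (hpint c) (norm_nonneg _)
        _ < 1 := by rwa [mul_one]
    have h2 := congrArg (fun P => algebraMap QB ℂ (eval (fun j => ((u j : ℤ) : QB)) P)) hN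
    simp only [eval_cast, map_intCast, map_mul, map_natCast, map_prod] at h2
    rw [h2, map_mul, norm_mul, map_natCast, hpD1, one_mul, map_prod, norm_prod] at h1
    obtain ⟨σ, hσ, h3⟩ : ∃ σ ∈ O, ‖τ (algebraMap QB ℂ
        (eval (fun j => ((u j : ℤ) : QB)) (MvPolynomial.map (σ : QB →+* QB) h)))‖ < 1 := by
      by_contra hcon
      push Not at hcon
      refine absurd h1 (not_lt.2 ?_)
      calc (1 : ℝ) = ∏ _σ ∈ O, (1 : ℝ) := by rw [Finset.prod_const_one]
        _ ≤ _ := Finset.prod_le_prod (fun _ _ => zero_le_one) fun σ hσ => hcon σ hσ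
    refine ⟨τ.comp (θ σ), fun w hw => ?_, ?_, ?_⟩
    · exact hτW _ (Set.mem_biUnion (Finset.mem_coe.2 hσ) ⟨w, hw, rfl⟩)
    · rw [RingHom.comp_apply]
      have h4 : θ σ (aeval ((↑) : s → ℂ) f) = aeval ((↑) : s → ℂ) f := by
        have h5 : (θ σ).comp (aeval ((↑) : s → ℂ) : MvPolynomial s ℤ →ₐ[ℤ] ℂ).toRingHom =
            (aeval ((↑) : s → ℂ) : MvPolynomial s ℤ →ₐ[ℤ] ℂ).toRingHom := by
          refine MvPolynomial.ringHom_ext (fun r => ?_) (fun j => ?_)
          · simp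
          · simpa using hθ2 σ j
        exact congrArg (fun φ : MvPolynomial s ℤ →+* ℂ => φ f) h5
      rw [h4]
      exact hτf
    · rw [RingHom.comp_apply, hθ1]
      have h4 : (σ : QB →+* QB) (eval (fun j => ((u j : ℤ) : QB)) h) =
          eval (fun j => ((u j : ℤ) : QB)) (MvPolynomial.map (σ : QB →+* QB) h) := by
        rw [eval_map, eval, coe_eval₂Hom, hom_eval₂]
        congr 1
        funext j
        exact map_intCast _ _
      rw [h4]
      exact h3

/-- The member at `u` of a family of systems of polynomials. -/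
noncomputable def member {q N : ℕ} {ι : Type}
    (F : ι → MvPolynomial (Fin (N + 1)) (MvPolynomial (Fin q) ℂ)) (u : Fin q → ℂ) :
    ι → MvPolynomial (Fin (N + 1)) ℂ :=
  fun i => MvPolynomial.map (eval u) (F i)

/-- The starting point at `u`. -/
noncomputable def start {q N : ℕ} (x : Fin (N + 1) → MvPolynomial (Fin q) ℂ) (u : Fin q → ℂ) :
    Fin (N + 1) → ℂ :=
  fun i => eval u (x i)

theorem orb_eval {q N : ℕ} (F : Fin (N + 1) → MvPolynomial (Fin (N + 1)) (MvPolynomial (Fin q) ℂ))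
    (x : Fin (N + 1) → MvPolynomial (Fin q) ℂ) (u : Fin q → ℂ) (n : ℕ) (i : Fin (N + 1)) :
    (pt (member F u))^[n] (start x u) i = eval u ((pt F)^[n] x i) :=
  congrFun (pt_map (eval u) F x n) i

theorem det_eval {q N : ℕ} (F : Fin (N + 1) → MvPolynomial (Fin (N + 1)) (MvPolynomial (Fin q) ℂ))
    (x : Fin (N + 1) → MvPolynomial (Fin q) ℂ) (u : Fin q → ℂ) (n : ℕ) :
    (jac (member F u) ((pt (member F u))^[n] (start x u))).det =
      eval u ((jac F ((pt F)^[n] x)).det) := by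
  have h1 : (pt (member F u))^[n] (start x u) = fun i => eval u ((pt F)^[n] x i) :=
    _root_.funext (orb_eval F x u n)
  rw [h1, RingHom.map_det, ← jac_map]
  rfl

theorem form_eval {q N : ℕ} {κ : Type}
    (F : Fin (N + 1) → MvPolynomial (Fin (N + 1)) (MvPolynomial (Fin q) ℂ))
    (x : Fin (N + 1) → MvPolynomial (Fin q) ℂ)
    (G : κ → MvPolynomial (Fin (N + 1)) (MvPolynomial (Fin q) ℂ)) (u : Fin q → ℂ) (n : ℕ) (k : κ) :
    eval ((pt (member F u))^[n] (start x u)) (member G u k) = eval u (eval ((pt F)^[n] x) (G k)) := by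
  have h1 : (pt (member F u))^[n] (start x u) = fun i => eval u ((pt F)^[n] x i) :=
    _root_.funext (orb_eval F x u n)
  rw [h1]
  exact eval_mapS (eval u) (G k) _

/-- Proportional vectors have proportional images. -/
theorem prop_step {k : Type} [Field k] {N d : ℕ} (F : Fin (N + 1) → MvPolynomial (Fin (N + 1)) k)
    (hF : ∀ i, (F i).IsHomogeneous d) (x y : Fin (N + 1) → k)
    (h : ∀ i j, y i * x j = y j * x i) (i j : Fin (N + 1)) :
    pt F y i * pt F x j = pt F y j * pt F x i := by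
  by_cases hx : x = 0
  · have h1 : pt F x = (0 : k) ^ d • pt F y := by
      rw [← pt_smulK F hF, zero_smul, hx]
    rw [h1]
    simp only [Pi.smul_apply, smul_eq_mul]
    ring
  · obtain ⟨l, hl⟩ : ∃ i, x i ≠ 0 := by
      by_contra hcon
      push Not at hcon
      exact hx (_root_.funext hcon)
    have h1 : y = (y l / x l) • x := by
      funext j
      rw [Pi.smul_apply, smul_eq_mul, div_mul_eq_mul_div, h l j, mul_div_assoc, div_self hl,
        mul_one]
    rw [h1, pt_smulK F hF]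
    simp only [Pi.smul_apply, smul_eq_mul]
    ring

theorem prop_iter {k : Type} [Field k] {N d : ℕ} (F : Fin (N + 1) → MvPolynomial (Fin (N + 1)) k)
    (hF : ∀ i, (F i).IsHomogeneous d) (P : Fin (N + 1) → k) (n₀ m : ℕ)
    (h : ∀ i j, (pt F)^[n₀ + m] P i * (pt F)^[n₀] P j = (pt F)^[n₀ + m] P j * (pt F)^[n₀] P i)
    (n₁ : ℕ) (i j : Fin (N + 1)) :
    (pt F)^[n₁ + n₀ + m] P i * (pt F)^[n₁ + n₀] P j =
      (pt F)^[n₁ + n₀ + m] P j * (pt F)^[n₁ + n₀] P i := by
  induction n₁ generalizing i j with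
  | zero => simpa using h i j
  | succ n₁ ih =>
    have e1 : n₁ + 1 + n₀ + m = (n₁ + n₀ + m) + 1 := by omega
    have e2 : n₁ + 1 + n₀ = (n₁ + n₀) + 1 := by omega
    rw [e1, e2, Function.iterate_succ_apply', Function.iterate_succ_apply']
    exact prop_step F hF _ _ ih i j

/-- A polynomial which vanishes on an irreducible hypersurface. -/
theorem dvd_of_vanish {q : ℕ} (h : MvPolynomial (Fin q) ℂ) (hp : Prime h)
    (P : MvPolynomial (Fin q) ℂ) (hv : ∀ u, eval u h = 0 → eval u P = 0) : h ∣ P := by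
  have hI : (Ideal.span {h}).IsPrime := (Ideal.span_singleton_prime hp.ne_zero).2 hp
  rw [← Ideal.mem_span_singleton, ← hI.isRadical.radical,
    ← vanishingIdeal_zeroLocus_eq_radical (K := ℂ), mem_vanishingIdeal_iff]
  intro u hu
  rw [mem_zeroLocus_iff] at hu
  have h1 := hu h (Ideal.mem_span_singleton_self h)
  rw [MvPolynomial.aeval_eq_eval] at h1 ⊢
  exact hv u h1

end Pool.Agent.X295.Dyn
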