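import Pool.Agent.X295.DynG

/-!
Families with several parameters of orbits which are preperiodic along a divisor: the criterion
(helper file).
-/

set_option autoImplicit false

namespace Pool.Agent.X295.Dyn

open MvPolynomial Pool.Agent.H936R2 Pool.Agent.H905R3.DML Pool.Agent.H905R3.DML.Core
  Pool.Agent.TH838.PR Pool.Agent.TH838.PS Pool.Agent.TH838.DS Pool.Agent.Y199.DM

/-- The coefficients of a polynomial. -/
def cf {q : ℕ} (P : MvPolynomial (Fin q) ℂ) : Set ℂ := (fun μ => coeff μ P) '' (P.support : Set _)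

theorem cf_finite {q : ℕ} (P : MvPolynomial (Fin q) ℂ) : (cf P).Finite :=
  P.support.finite_toSet.image _

theorem eval_le {p : ℕ} [hp : Fact p.Prime] (τ : ℂ →+* PadicAlgCl p) {q : ℕ}
    (P : MvPolynomial (Fin q) ℂ) (hP : ∀ z ∈ cf P, ‖τ z‖ ≤ 1) (u : Fin q → ℤ) :
    ‖τ (eval (fun j => ((u j : ℤ) : ℂ)) P)‖ ≤ 1 := by
  refine eval_mem_subring (SO τ) _ (fun i => intCast_mem _ _) P fun μ => ?_
  by_cases h : P.coeff μ = 0
  · rw [h]
    exact (SO τ).zero_mem
  · exact hP _ ⟨μ, mem_support_iff.2 h, rfl⟩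

theorem norm_one_of_add {p : ℕ} [hp : Fact p.Prime] {a b : PadicAlgCl p} (ha : ‖a‖ < 1)
    (hb : ‖b‖ ≤ 1) (h : ‖a + b‖ = 1) : ‖b‖ = 1 := by
  refine le_antisymm hb ?_
  by_contra hlt
  push Not at hlt
  have h1 := IsUltrametricDist.norm_add_le_max a b
  rw [h] at h1
  exact absurd h1 (not_le.2 (max_lt ha hlt))

theorem mul_one_of {a b : ℝ} (ha0 : 0 ≤ a) (hb0 : 0 ≤ b) (ha : a ≤ 1) (hb : b ≤ 1)
    (h : a * b = 1) : a = 1 ∧ b = 1 := by
  constructor
  · refine le_antisymm ha ?_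
    rw [← h]
    exact mul_le_of_le_one_right ha0 hb
  · refine le_antisymm hb ?_
    rw [← h]
    exact mul_le_of_le_one_left hb0 ha

theorem prod_one_of {ι : Type} (s : Finset ι) (r : ι → ℝ) (h0 : ∀ i, 0 ≤ r i)
    (h1 : ∀ i ∈ s, r i ≤ 1) (h : ∏ i ∈ s, r i = 1) : ∀ i ∈ s, r i = 1 := by
  classical
  intro i hi
  rw [← Finset.mul_prod_erase _ _ hi] at h
  exact (mul_one_of (h0 i) (Finset.prod_nonneg fun _ _ => h0 _) (h1 i hi)
    (Finset.prod_le_one (fun _ _ => h0 _) fun j hj => h1 j (Finset.mem_of_mem_erase hj)) h).1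

/-- The orbits at the places near to a divisor along which the orbits are preperiodic. -/
theorem near_div {q N d : ℕ} {κ : Type} [Finite κ]
    (F : Fin (N + 1) → MvPolynomial (Fin (N + 1)) (MvPolynomial (Fin q) ℂ))
    (hF : ∀ i, (F i).IsHomogeneous d) (x : Fin (N + 1) → MvPolynomial (Fin q) ℂ)
    (G : κ → MvPolynomial (Fin (N + 1)) (MvPolynomial (Fin q) ℂ)) (e : κ → ℕ)
    (hG : ∀ k, (G k).IsHomogeneous (e k))
    (h : MvPolynomial (Fin q) ℂ) (hirr : Irreducible h) (halg : ∀ μ, IsAlgebraic ℚ (h.coeff μ))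
    (n₀ m : ℕ) (hm : 0 < m)
    (hper : ∀ u, eval u h = 0 → ∀ i j,
      (pt (member F u))^[n₀ + m] (start x u) i * (pt (member F u))^[n₀] (start x u) j =
      (pt (member F u))^[n₀ + m] (start x u) j * (pt (member F u))^[n₀] (start x u) i)
    (a : Fin q → ℂ) (ha : eval a h = 0) (hne : ∀ n, (pt (member F a))^[n] (start x a) ≠ 0) :
    ∃ (h' : MvPolynomial (Fin q) ℤ) (j0 : Fin q) (ρ : MvPolynomial {j : Fin q // j ≠ j0} ℤ)
      (D : ℕ), 0 < (asPoly j0 h').natDegree ∧ ρ ≠ 0 ∧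
      ∀ u : Fin q → ℤ, Good h' (rename Subtype.val ρ) D u →
        (∀ n, (pt (member F fun j => (u j : ℂ)))^[n] (start x fun j => (u j : ℂ)) ≠ 0) ∧
        returnSet (member F fun j => (u j : ℂ)) (start x fun j => (u j : ℂ))
          (member G fun j => (u j : ℂ)) ⊆ returnSet (member F a) (start x a) (member G a) ∧
        (EventuallyEtale (member F a) (start x a) →
          DMLAt (member F fun j => (u j : ℂ)) (start x fun j => (u j : ℂ))) := by
  classical
  have hprime : Prime h := hirr.prime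
  obtain ⟨n₁, hn₁⟩ : ∃ n₁, EventuallyEtale (member F a) (start x a) → ∀ n, n₁ ≤ n →
      (jac (member F a) ((pt (member F a))^[n] (start x a))).det ≠ 0 := by
    by_cases het : EventuallyEtale (member F a) (start x a)
    · obtain ⟨n₁, hn₁⟩ := het
      exact ⟨n₁, fun _ => hn₁⟩
    · exact ⟨0, fun h => absurd h het⟩
  set n₂ := n₁ + n₀ with hn₂
  set X' : ℕ → Fin (N + 1) → MvPolynomial (Fin q) ℂ := fun n => (pt F)^[n] x with hX'
  have hmin : ∀ u, eval u h = 0 → ∀ i j,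
      (pt (member F u))^[n₂ + m] (start x u) i * (pt (member F u))^[n₂] (start x u) j =
      (pt (member F u))^[n₂ + m] (start x u) j * (pt (member F u))^[n₂] (start x u) i :=
    fun u hu => prop_iter (member F u) (fun i => (hF i).map _) (start x u) n₀ m (hper u hu) n₁
  have hdvd : ∀ i j, h ∣ X' (n₂ + m) i * X' n₂ j - X' (n₂ + m) j * X' n₂ i := by
    intro i j
    refine dvd_of_vanish h hprime _ fun u hu => ?_
    have h1 := hmin u hu i j
    simp only [orb_eval] at h1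
    rw [map_sub, map_mul, map_mul, h1, sub_self]
  choose Q hQ using hdvd
  have hi : ∀ n, ∃ i, eval a (X' n i) ≠ 0 := fun n => by
    by_contra hcon
    push Not at hcon
    refine hne n (_root_.funext fun i => ?_)
    rw [orb_eval]
    exact hcon i
  choose i hi using hi
  have hg : ∀ n, ∃ g : MvPolynomial (Fin q) ℂ, eval a g ≠ 0 ∧
      (n ∉ returnSet (member F a) (start x a) (member G a) → ∃ k, g = eval (X' n) (G k)) := by
    intro n
    by_cases hn : n ∈ returnSet (member F a) (start x a) (member G a)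
    · exact ⟨1, by rw [map_one]; exact one_ne_zero, fun h => absurd hn h⟩
    · have h1 : ¬ ∀ k, eval ((pt (member F a))^[n] (start x a)) (member G a k) = 0 := hn
      push Not at h1
      obtain ⟨k, hk⟩ := h1
      rw [form_eval] at hk
      exact ⟨eval (X' n) (G k), hk, fun _ => ⟨k, rfl⟩⟩
  choose g hg0 hg using hg
  have hδ : ∀ n, ∃ δ : MvPolynomial (Fin q) ℂ, eval a δ ≠ 0 ∧
      (EventuallyEtale (member F a) (start x a) → n₂ ≤ n → δ = (jac F (X' n)).det) := by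
    intro n
    by_cases hn : EventuallyEtale (member F a) (start x a) ∧ n₂ ≤ n
    · have h1 := hn₁ hn.1 n (by omega)
      rw [det_eval] at h1
      exact ⟨_, h1, fun _ _ => rfl⟩
    · exact ⟨1, by rw [map_one]; exact one_ne_zero, fun h1 h2 => absurd ⟨h1, h2⟩ hn⟩
  choose δ hδ0 hδ using hδ
  set T := n₂ + m with hT
  set Δ : MvPolynomial (Fin q) ℂ := (∏ n ∈ Finset.range (T + 1), X' n (i n)) *
    ((∏ n ∈ Finset.range T, g n) * ∏ n ∈ Finset.range T, δ n) with hΔ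
  have hΔ0 : ¬ h ∣ Δ := by
    rintro ⟨w, hw⟩
    have h1 : eval a Δ = 0 := by rw [hw, map_mul, ha, zero_mul]
    rw [hΔ, map_mul, map_mul, map_prod, map_prod, map_prod] at h1
    refine mul_ne_zero (Finset.prod_ne_zero_iff.2 fun n _ => hi n) (mul_ne_zero
      (Finset.prod_ne_zero_iff.2 fun n _ => hg0 n) (Finset.prod_ne_zero_iff.2 fun n _ => hδ0 n)) h1
  -- the norm
  obtain ⟨hQB, hhQ⟩ : ∃ hQB : MvPolynomial (Fin q) QB,
      MvPolynomial.map (algebraMap QB ℂ) hQB = h := by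
    have h1 : h ∈ Set.range (map (σ := Fin q) (algebraMap QB ℂ)) := by
      rw [mem_range_map_iff_coeffs_subset]
      intro c hc
      rw [Finset.mem_coe, mem_coeffs_iff] at hc
      obtain ⟨μ, -, rfl⟩ := hc
      exact ⟨⟨h.coeff μ, mem_algebraicClosure_iff'.2 ((halg μ).isIntegral)⟩, rfl⟩
    exact h1
  have hQirr : Irreducible hQB := irr_of_map (algebraMap QB ℂ) (by rw [hhQ]; exact hirr)
  obtain ⟨s, hs⟩ := exists_isTranscendenceBasis ℤ ℂ
  obtain ⟨Nm, hNm0, hdvdQ, hemb⟩ := emb_near hQB s hs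
  have hNm0' : Nm ≠ 0 := hNm0 hQirr.ne_zero
  obtain ⟨j0, hj0⟩ := exists_varN hQirr hNm0' hdvdQ
  have hdvdC : h ∣ MvPolynomial.map (Int.castRingHom ℂ) Nm := by
    have h1 := map_dvd (MvPolynomial.map (algebraMap QB ℂ)) hdvdQ
    rw [hhQ, MvPolynomial.map_map] at h1
    have h2 : (algebraMap QB ℂ).comp (Int.castRingHom QB) = Int.castRingHom ℂ :=
      RingHom.ext_int _ _
    rwa [h2] at h1
  obtain ⟨ρ, hρ, α, β, hαβ⟩ := elimK s hs Nm hNm0' h hprime hdvdC Δ hΔ0 j0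
  -- the coefficients
  let W1 : Set ℂ := ⋃ i, ⋃ μ ∈ ((F i).support : Set (Fin (N + 1) →₀ ℕ)), cf ((F i).coeff μ)
  let W2 : Set ℂ := ⋃ k, ⋃ μ ∈ ((G k).support : Set (Fin (N + 1) →₀ ℕ)), cf ((G k).coeff μ)
  let W3 : Set ℂ := ⋃ i, cf (x i)
  let W4 : Set ℂ := ⋃ i, ⋃ j, cf (Q i j)
  let W5 : Set ℂ := ⋃ n ∈ (Finset.range (T + 1) : Set ℕ), (cf (X' n (i n)) ∪ (cf (g n) ∪ cf (δ n)))
  have hW1 : W1.Finite := Set.finite_iUnion fun i =>
    (F i).support.finite_toSet.biUnion fun μ _ => cf_finite _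
  have hW2 : W2.Finite := Set.finite_iUnion fun k =>
    (G k).support.finite_toSet.biUnion fun μ _ => cf_finite _
  have hW3 : W3.Finite := Set.finite_iUnion fun i => cf_finite _
  have hW4 : W4.Finite := Set.finite_iUnion fun i => Set.finite_iUnion fun j => cf_finite _
  have hW5 : W5.Finite := (Finset.range (T + 1)).finite_toSet.biUnion fun n _ =>
    (cf_finite _).union ((cf_finite _).union (cf_finite _))
  obtain ⟨D, hD⟩ := hemb (W1 ∪ (W2 ∪ (W3 ∪ (W4 ∪ (W5 ∪ (cf α ∪ cf β)))))) (hW1.union (hW2.union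
    (hW3.union (hW4.union (hW5.union ((cf_finite _).union (cf_finite _)))))))
  refine ⟨Nm, j0, ρ, D, hj0, hρ, fun u hu => ?_⟩
  obtain ⟨-, p, hp, hpD, hpN, hpρ⟩ := hu
  have : Fact p.Prime := ⟨hp⟩
  obtain ⟨f, hf1, hf2⟩ := hαβ u
  obtain ⟨τ, hτW, hτf, hτh⟩ := hD p hpD u hpN f (hf1 p hpρ)
  set u' : Fin q → ℂ := fun j => (u j : ℂ) with hu'
  have hWc : ∀ P : MvPolynomial (Fin q) ℂ, (cf P ⊆ W1 ∪ (W2 ∪ (W3 ∪ (W4 ∪ (W5 ∪
      (cf α ∪ cf β)))))) → ‖τ (eval u' P)‖ ≤ 1 := fun P hP =>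
    eval_le τ P (fun z hz => hτW z (hP hz)) u
  have hα1 : ‖τ (eval u' α)‖ ≤ 1 := hWc α fun z hz =>
    Or.inr (Or.inr (Or.inr (Or.inr (Or.inr (Or.inl hz)))))
  have hβ1 : ‖τ (eval u' β)‖ ≤ 1 := hWc β fun z hz =>
    Or.inr (Or.inr (Or.inr (Or.inr (Or.inr (Or.inr hz)))))
  have h5 : ∀ n ∈ Finset.range (T + 1), ∀ z, z ∈ cf (X' n (i n)) ∪ (cf (g n) ∪ cf (δ n)) →
      z ∈ W1 ∪ (W2 ∪ (W3 ∪ (W4 ∪ (W5 ∪ (cf α ∪ cf β))))) := fun n hn z hz =>
    Or.inr (Or.inr (Or.inr (Or.inr (Or.inl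
      (Set.mem_biUnion (Finset.mem_coe.2 hn) hz)))))
  have hX1 : ∀ n ∈ Finset.range (T + 1), ‖τ (eval u' (X' n (i n)))‖ ≤ 1 := fun n hn =>
    hWc _ fun z hz => h5 n hn z (Or.inl hz)
  have hg1 : ∀ n ∈ Finset.range T, ‖τ (eval u' (g n))‖ ≤ 1 := fun n hn =>
    hWc _ fun z hz => h5 n (Finset.range_subset_range.2 (Nat.le_succ T) hn) z (Or.inr (Or.inl hz))
  have hδ1 : ∀ n ∈ Finset.range T, ‖τ (eval u' (δ n))‖ ≤ 1 := fun n hn =>
    hWc _ fun z hz => h5 n (Finset.range_subset_range.2 (Nat.le_succ T) hn) z (Or.inr (Or.inr hz))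
  have hh1 : ‖τ (eval u' h)‖ < 1 := by
    have h1 : algebraMap QB ℂ (eval (fun j => ((u j : ℤ) : QB)) hQB) = eval u' h := by
      have h2 : (fun j => algebraMap QB ℂ ((u j : ℤ) : QB)) = u' :=
        _root_.funext fun j => map_intCast _ _
      rw [← eval_mapS (algebraMap QB ℂ), hhQ, h2]
    rwa [h1] at hτh
  -- the value of `Δ`
  have hprodX : ‖τ (eval u' (∏ n ∈ Finset.range (T + 1), X' n (i n)))‖ =
      ∏ n ∈ Finset.range (T + 1), ‖τ (eval u' (X' n (i n)))‖ := by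
    rw [map_prod, map_prod, norm_prod]
  have hprodg : ‖τ (eval u' (∏ n ∈ Finset.range T, g n))‖ =
      ∏ n ∈ Finset.range T, ‖τ (eval u' (g n))‖ := by
    rw [map_prod, map_prod, norm_prod]
  have hprodδ : ‖τ (eval u' (∏ n ∈ Finset.range T, δ n))‖ =
      ∏ n ∈ Finset.range T, ‖τ (eval u' (δ n))‖ := by
    rw [map_prod, map_prod, norm_prod]
  have hlX := Finset.prod_le_one (s := Finset.range (T + 1)) (fun _ _ => norm_nonneg _) hX1
  have hlg := Finset.prod_le_one (s := Finset.range T) (fun _ _ => norm_nonneg _) hg1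
  have hlδ := Finset.prod_le_one (s := Finset.range T) (fun _ _ => norm_nonneg _) hδ1
  rw [← hprodX] at hlX
  rw [← hprodg] at hlg
  rw [← hprodδ] at hlδ
  have hnΔ : ‖τ (eval u' Δ)‖ = ‖τ (eval u' (∏ n ∈ Finset.range (T + 1), X' n (i n)))‖ *
      (‖τ (eval u' (∏ n ∈ Finset.range T, g n))‖ *
        ‖τ (eval u' (∏ n ∈ Finset.range T, δ n))‖) := by
    rw [hΔ, map_mul, map_mul, map_mul, map_mul, norm_mul, norm_mul]
  have hΔle : ‖τ (eval u' Δ)‖ ≤ 1 := by
    rw [hnΔ]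
    exact mul_le_one₀ hlX (mul_nonneg (norm_nonneg _) (norm_nonneg _))
      (mul_le_one₀ hlg (norm_nonneg _) hlδ)
  have hsum : ‖τ (eval u' α) * τ (eval u' h) + τ (eval u' β) * τ (eval u' Δ)‖ = 1 := by
    have h1 : aeval ((↑) : s → ℂ) f = eval u' α * eval u' h + eval u' β * eval u' Δ := by
      rw [hf2, map_add, map_mul, map_mul]
    have h2 : τ (aeval ((↑) : s → ℂ) f) =
        τ (eval u' α) * τ (eval u' h) + τ (eval u' β) * τ (eval u' Δ) := by
      rw [h1, map_add, map_mul, map_mul]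
    rw [← h2, hτf]
  have hβΔ := norm_one_of_add (by
    rw [norm_mul]
    exact (mul_le_of_le_one_left (norm_nonneg _) hα1).trans_lt hh1) (by
    rw [norm_mul]
    exact mul_le_one₀ hβ1 (norm_nonneg _) hΔle) hsum
  rw [norm_mul] at hβΔ
  have hΔ1 := (mul_one_of (norm_nonneg _) (norm_nonneg _) hβ1 hΔle hβΔ).2
  rw [hnΔ] at hΔ1
  obtain ⟨hA, hB⟩ := mul_one_of (norm_nonneg _) (mul_nonneg (norm_nonneg _) (norm_nonneg _)) hlX
    (mul_le_one₀ hlg (norm_nonneg _) hlδ) hΔ1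
  obtain ⟨hB, hC⟩ := mul_one_of (norm_nonneg _) (norm_nonneg _) hlg hlδ hB
  rw [hprodX] at hA
  rw [hprodg] at hB
  rw [hprodδ] at hC
  have hXn := prod_one_of _ _ (fun _ => norm_nonneg _) hX1 hA
  have hgn := prod_one_of _ _ (fun _ => norm_nonneg _) hg1 hB
  have hδn := prod_one_of _ _ (fun _ => norm_nonneg _) hδ1 hC
  -- the orbit
  have hcF : ∀ i μ, ‖τ ((member F u' i).coeff μ)‖ ≤ 1 := by
    intro i μ
    rw [member, coeff_map]
    by_cases h0 : (F i).coeff μ = 0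
    · rw [h0, map_zero, map_zero, norm_zero]
      exact zero_le_one
    · exact hWc _ fun z hz => Or.inl (Set.mem_iUnion.2 ⟨i, Set.mem_biUnion
        (Finset.mem_coe.2 (mem_support_iff.2 h0)) hz⟩)
  have hcG : ∀ k μ, ‖τ ((member G u' k).coeff μ)‖ ≤ 1 := by
    intro k μ
    rw [member, coeff_map]
    by_cases h0 : (G k).coeff μ = 0
    · rw [h0, map_zero, map_zero, norm_zero]
      exact zero_le_one
    · exact hWc _ fun z hz => Or.inr (Or.inl (Set.mem_iUnion.2 ⟨k, Set.mem_biUnion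
        (Finset.mem_coe.2 (mem_support_iff.2 h0)) hz⟩))
  have hcx : ∀ i, ‖τ (start x u' i)‖ ≤ 1 := fun i =>
    hWc _ fun z hz => Or.inr (Or.inr (Or.inl (Set.mem_iUnion.2 ⟨i, hz⟩)))
  have hFd : ∀ i, (member F u' i).IsHomogeneous d := fun i => (hF i).map _
  have hne' : ∀ n ≤ n₂ + m, ∃ i, ‖τ ((pt (member F u'))^[n] (start x u') i)‖ = 1 := by
    intro n hn
    refine ⟨i n, ?_⟩
    rw [orb_eval]
    exact hXn n (Finset.mem_range.2 (Nat.lt_succ_of_le hn))
  have hpr' : ∀ i j, ‖τ ((pt (member F u'))^[n₂ + m] (start x u') i *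
      (pt (member F u'))^[n₂] (start x u') j - (pt (member F u'))^[n₂ + m] (start x u') j *
      (pt (member F u'))^[n₂] (start x u') i)‖ < 1 := by
    intro i j
    have h1 : (pt (member F u'))^[n₂ + m] (start x u') i *
      (pt (member F u'))^[n₂] (start x u') j - (pt (member F u'))^[n₂ + m] (start x u') j *
      (pt (member F u'))^[n₂] (start x u') i = eval u' h * eval u' (Q i j) := by
      simp only [orb_eval]
      rw [← map_mul, ← map_mul, ← map_mul, ← map_sub]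
      exact congrArg (eval u') (hQ i j)
    rw [h1, map_mul, norm_mul]
    have h2 : ‖τ (eval u' (Q i j))‖ ≤ 1 := hWc _ fun z hz => Or.inr (Or.inr (Or.inr (Or.inl
      (Set.mem_iUnion.2 ⟨i, Set.mem_iUnion.2 ⟨j, hz⟩⟩))))
    exact (mul_le_of_le_one_right (norm_nonneg _) h2).trans_lt hh1
  obtain ⟨r1, -, r3⟩ := redOrb τ (member F u') hFd (start x u') hcF hcx n₂ m hm hne' hpr'
  refine ⟨fun n h0 => ?_, fun n hn => ?_, fun het => ?_⟩
  · obtain ⟨i, hi⟩ := r1 n
    rw [h0, Pi.zero_apply, map_zero, norm_zero] at hi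
    exact zero_ne_one hi
  · obtain ⟨-, -, c3⟩ := orbK (member F a) (fun i => (hF i).map _) (start x a) n₂ m hm
      (fun n _ => hne n) (hmin a ha)
    have hiff : ∀ n, n ∈ returnSet (member F a) (start x a) (member G a) ↔
        idx n₂ m n ∈ returnSet (member F a) (start x a) (member G a) := fun n =>
      forall_congr' fun k => c3 (e k) (member G a k) ((hG k).map _) n
    rw [hiff]
    by_contra hcon
    obtain ⟨k, hk⟩ := hg _ hcon
    have h1 := (r3 (e k) (member G u' k) ((hG k).map _) (hcG k) n).1 (by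
      have h2 : eval ((pt (member F u'))^[n] (start x u')) (member G u' k) = 0 := hn k
      rw [h2, map_zero, norm_zero]
      exact one_pos)
    rw [form_eval, ← hk, hgn _ (Finset.mem_range.2 (idx_lt hm n))] at h1
    exact lt_irrefl _ h1
  · refine dml_of_red τ (member F u') hFd (start x u') hcF hcx n₂ m hm hne' hpr' fun n hn hn' => ?_
    rw [det_eval, ← hδ n het hn]
    exact hδn n (Finset.mem_range.2 hn')

end Pool.Agent.X295.Dyn
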