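import Pool.Agent.X295.EllF
import Pool.Agent.W282.LF.Top

/-!
Families with several parameters of subsets of products of powers of elliptic curves and tori:
definitions and main theorem (helper file).
-/

set_option autoImplicit false

namespace Pool.Agent.X295.Ell

open WeierstrassCurve WeierstrassCurve.Affine Pool.Agent.W466.EP Pool.Agent.W282.LF
open H294ZP MvPolynomial Pool.Agent.W282.ZP Pool.Agent.Y152.BD Pool.Agent.Y152.RP
open Pool.Agent.Y152.RP.FamM (coset)

/-- The complex points of `∏_g E_g^(n_g) × G_m^k`, where `E_g` is the curve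
`y² = x³ + a_g x + b_g`. -/
structure Amb {r : ℕ} (a b : Fin r → ℂ) (n : Fin r → ℕ) (k : ℕ) where
  P : ∀ g, Fin (n g) → (crv (a g) (b g)).Point
  t : Fin k → ℂˣ

/-- The index set of the coordinates: `(g, i)` for the points `P_{g,i}`, and `j` for the `t_j`. -/
abbrev Ind {r : ℕ} (n : Fin r → ℕ) (k : ℕ) : Type := ((g : Fin r) × Fin (n g)) ⊕ Fin k

variable {r k : ℕ} {a b : Fin r → ℂ} {n : Fin r → ℕ}

/-- The coordinates `x (P_{g,i})` (which is `0` by definition if `P_{g,i}` is the origin) and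
`t_j`. -/
noncomputable def coords (z : Amb a b n k) : Ind n k → ℂ :=
  Sum.elim (fun i => xx (z.P i.1 i.2)) (fun j => (z.t j : ℂ))

/-- The member `X_u` of the family: the points `(P, t)` such that for some point `y` of `B_u`,
`c_i (u) f_i (P_i) = A_i (y) / B_i (y)` for the elliptic and `c_j (u) t_j = A_j (y) / B_j (y)` for the
torus coordinates, `f_i = F₁ i (x) + F₂ i (x) y`; the equations are written without denominators, and
if `P_i` is the origin, where `f_i` has its pole, the equation is `B_i (y) = 0`. -/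
def member {K : Subfield ℂ} {q N : ℕ} {κ : Type} (u : Fin q → ℂ)
    (G : κ → MvPolynomial (Fin (N + 1)) (MvPolynomial (Fin q) K))
    (A B : Ind n k → MvPolynomial (Fin (N + 1)) (MvPolynomial (Fin q) K))
    (F₁ F₂ : ((g : Fin r) × Fin (n g)) → Polynomial K) (c : Ind n k → MvPolynomial (Fin q) K) :
    Set (Amb a b n k) :=
  {z | ∃ y : Fin (N + 1) → ℂ, OnB u G y ∧
    (∀ i : (g : Fin r) × Fin (n g),
      (z.P i.1 i.2 = 0 ∧ eval₂ (evalAt K u) y (B (Sum.inl i)) = 0) ∨
      (z.P i.1 i.2 ≠ 0 ∧ evalAt K u (c (Sum.inl i)) * eval₂ (evalAt K u) y (B (Sum.inl i)) *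
        fval (F₁ i) (F₂ i) (z.P i.1 i.2) = eval₂ (evalAt K u) y (A (Sum.inl i)))) ∧
    ∀ j, evalAt K u (c (Sum.inr j)) * eval₂ (evalAt K u) y (B (Sum.inr j)) * (z.t j : ℂ) =
      eval₂ (evalAt K u) y (A (Sum.inr j))}

/-- Relations between `n` points of the curve `y² = x³ + A x + B`: with integral coefficients, or with
coefficients in the order generated by a complex multiplication. -/
inductive SpecialE (A B : ℂ) (n : ℕ)
  | int (M : Submodule ℤ (Fin n → ℤ))
  | cm (φ : CMEnd A B) (M : Submodule ℤ (Fin n → ℤ × ℤ))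

/-- The codimension. If `M` is a module over the order generated by `φ` then its rank over `ℤ` is
twice its rank over the order; in general the order generates a submodule with a rank at least half
the rank of `M`. -/
noncomputable def SpecialE.codim {A B : ℂ} {n : ℕ} : SpecialE A B n → ℕ
  | .int M => Module.finrank ℤ M
  | .cm _ M => (Module.finrank ℤ M + 1) / 2

/-- The points `P_1, …, P_n` satisfy the relations up to torsion of order `T`. -/
def SpecialE.Has {A B : ℂ} {n : ℕ} (T : ℕ) : SpecialE A B n → (Fin n → (crv A B).Point) → Prop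
  | .int M, P => ∀ r ∈ M, T • ∑ i, r i • P i = 0
  | .cm φ M, P => ∀ r ∈ M, T • ∑ i, ((r i).1 • P i + (r i).2 • φ.φ (P i)) = 0

/-- A special subvariety of `∏_g E_g^(n_g) × G_m^k`, and more generally: the `P_{g,i}` satisfy the
relations `E g`, up to torsion of order `T`, and the `t_j` are on the coset of the algebraic subgroup
defined by `relm` by the point `pt`, where the `pt j` and their inverses are integral over `ℤ[Γ]`. -/
structure Special (a b : Fin r → ℂ) (n : Fin r → ℕ) (k : ℕ) (Γ : Finset ℂ) where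
  E : ∀ g, SpecialE (a g) (b g) (n g)
  T : ℕ
  T0 : 0 < T
  relm : Submodule ℤ (Fin k → ℤ)
  pt : Fin k → ℂˣ
  int : ∀ j, IsIntegral (Algebra.adjoin ℤ (Γ : Set ℂ)) (pt j : ℂ) ∧
    IsIntegral (Algebra.adjoin ℤ (Γ : Set ℂ)) ((pt j : ℂ)⁻¹)

/-- The points of `Z`. -/
def Special.locus {Γ : Finset ℂ} (Z : Special a b n k Γ) : Set (Amb a b n k) :=
  {z | (∀ g, (Z.E g).Has Z.T (z.P g)) ∧ ∀ β ∈ Z.relm, ∏ j, z.t j ^ β j = ∏ j, Z.pt j ^ β j}

/-- The codimension of `Z`. -/
noncomputable def Special.codim {Γ : Finset ℂ} (Z : Special a b n k Γ) : ℕ :=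
  ∑ g, (Z.E g).codim + Module.finrank ℤ Z.relm

/-- `V` has no intersection of dimension larger than `m - codim Z` with the sets `Z`: every point
of `V ∩ Z` has transcendence degree at most `m - codim Z` over `K`, and every irreducible closed
set `W` of vectors, such that those outside of some hypersurface `f = 0`, which does not contain
`W`, are vectors of coordinates (numbered in any way) of points of `V ∩ Z`, has dimension at most
`m - codim Z`. -/
def NoAtypical (K : Subfield ℂ) (Γ : Finset ℂ) (m : ℕ) (V : Set (Amb a b n k)) : Prop :=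
  ∀ Z : Special a b n k Γ,
    (∀ z ∈ V ∩ Z.locus, ∀ S : Finset (Ind n k),
      AlgebraicIndependent K (fun s : S => coords z s) → S.card + Z.codim ≤ m) ∧
    ∀ (s : ℕ) (ε : Fin s ≃ Ind n k) (W : Set (Fin s → ℂ)) (f : MvPolynomial (Fin s) ℂ),
      (∀ w ∈ W, eval w f ≠ 0 → ∃ z ∈ V ∩ Z.locus, ∀ i, w i = coords z (ε i)) →
      zcl W ⊆ W → (idealOf W).IsPrime → f ∉ idealOf W →
      zdim W + (Z.codim : Cardinal) ≤ (m : Cardinal)

/-- The main theorem. -/
theorem mainEll (K : Subfield ℂ) [Countable K] (κ : Type) [Finite κ] (q N r k m M : ℕ)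
    (a b : Fin r → ℂ) (ha : ∀ g, a g ∈ K) (hb : ∀ g, b g ∈ K) (n : Fin r → ℕ)
    (G : κ → MvPolynomial (Fin (N + 1)) (MvPolynomial (Fin q) K))
    (hG : ∀ k, ∃ e, (G k).IsHomogeneous e)
    (A B : Ind n k → MvPolynomial (Fin (N + 1)) (MvPolynomial (Fin q) K))
    (w : Ind n k → ℕ)
    (hA : ∀ i, (A i).IsHomogeneous (w i)) (hB : ∀ i, (B i).IsHomogeneous (w i))
    (F₁ F₂ : ((g : Fin r) × Fin (n g)) → Polynomial K) (hd : ∀ i, 0 < pord (F₁ i) (F₂ i))
    (c : Ind n k → MvPolynomial (Fin q) K)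
    (h : Fin M → MvPolynomial (Fin q) ℤ)
    (e : Fin M → Ind n k → ℕ)
    (hdeg : ∀ l, DegeneratesAlongK m G A B c (MvPolynomial.map (Int.castRingHom K) (h l)) (e l))
    (β : ℕ) (hβ : 0 < β) (hind : IndepE β (fun i => pord (F₁ i) (F₂ i)) e)
    (hM : torusPlaces k m + 1 ≤ M) (Γ : Finset ℂ) (hΓ : ∀ γ ∈ Γ, γ ∈ K)
    (Δ : ℕ) (hΔ : ∀ l, (h l).totalDegree ≤ Δ) (ε : ℝ) (hε : 0 < ε) :
    ∃ C : ℝ, ∀ H : ℕ, 1 ≤ H →
      ({u : Fin q → ℤ | (∀ j, |u j| ≤ H) ∧
        ¬ NoAtypical K Γ m (member (a := a) (b := b) (fun j => (u j : ℂ)) G A B F₁ F₂ c)}.ncard : ℝ) ≤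
          C * (H : ℝ) ^ ((q : ℝ) - 1 + Δ / β + ε) := by
  classical
  obtain ⟨bad, ⟨C, hC⟩, hbad⟩ := familyE K κ q N r k m M a b ha hb n G hG A B w hA hB F₁ F₂ hd c h e
    hdeg β hβ hind hM Γ hΓ Δ hΔ ε hε
  refine ⟨C, fun H hH => ?_⟩
  refine le_trans ?_ (hC H hH)
  have hfin : (bad ∩ {u : Fin q → ℤ | ∀ j, |u j| ≤ H}).Finite := by
    refine (Set.Finite.subset (box q H).finite_toSet ?_)
    rintro u ⟨-, hu⟩
    exact Finset.mem_coe.2 (mem_box.2 hu)
  have hsub : {u : Fin q → ℤ | (∀ j, |u j| ≤ H) ∧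
      ¬ NoAtypical K Γ m (member (a := a) (b := b) (fun j => (u j : ℂ)) G A B F₁ F₂ c)} ⊆
      bad ∩ {u : Fin q → ℤ | ∀ j, |u j| ≤ H} := by
    rintro u ⟨huH, hu⟩
    refine ⟨?_, huH⟩
    by_contra hub
    apply hu
    intro Z
    have hpt : ∀ z ∈ member (a := a) (b := b) (fun j => (u j : ℂ)) G A B F₁ F₂ c ∩ Z.locus,
        ∀ S : Finset (Ind n k),
        AlgebraicIndependent K (fun s : S => coords z s) → S.card + Z.codim ≤ m := by
      rintro z ⟨⟨y, hy, hz1, hz2⟩, hzZ1, hzZ2⟩ S hS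
      have h2 := hbad u hub z.P (fun j => (z.t j : ℂ)) y hy hz1 hz2 (fun g => (Z.E g).codim)
        (fun g => by
          have h3 := hzZ1 g
          generalize Z.E g = Eg at h3
          cases Eg with
          | int M' => exact ERel.int M' fun r hr => ⟨Z.T, Z.T0, h3 r hr⟩
          | cm φ M' => exact ERel.cm φ M' fun r hr => ⟨Z.T, Z.T0, h3 r hr⟩)
        Z.relm (fun j => (Z.pt j : ℂ)) (fun j => ⟨(Z.pt j).ne_zero, (Z.int j).1, (Z.int j).2⟩)
        ⟨fun j => (z.t j).ne_zero, fun β hβ => by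
          have h3 := congrArg (Units.val : ℂˣ → ℂ) (hzZ2 β hβ)
          rw [Units.coe_prod, Units.coe_prod] at h3
          simpa only [Units.val_zpow_eq_zpow_val] using h3⟩ S hS
      rw [add_assoc] at h2
      exact h2
    refine ⟨hpt, ?_⟩
    intro s ε W f hW hcl hprime hf
    obtain ⟨w, hwW, hfw, T, hT, hdim⟩ := generic_dim_open K W hprime hcl f hf
    obtain ⟨z, hz, hwz⟩ := hW w hwW hfw
    let S : Finset (Ind n k) := T.map ε.toEmbedding
    have hS : AlgebraicIndependent K (fun s : S => coords z s) := by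
      let f : S → T := fun s => ⟨ε.symm s, by
        obtain ⟨t, ht, hts⟩ := Finset.mem_map.1 s.2
        have h2 : ε.symm (s : Ind n k) = t := by
          rw [← hts]
          exact ε.symm_apply_apply t
        rw [h2]
        exact ht⟩
      have hf : Function.Injective f := by
        intro s s' hss
        have h2 := congrArg (Subtype.val : T → Fin _) hss
        exact Subtype.ext (ε.symm.injective h2)
      have h2 := hT.comp f hf
      convert h2 using 1
      funext s
      change coords z s = w (ε.symm s)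
      rw [hwz, ε.apply_symm_apply]
    have h2 := hpt z hz S hS
    rw [Finset.card_map] at h2
    calc zdim W + (Z.codim : Cardinal) ≤ (T.card : Cardinal) + (Z.codim : Cardinal) := by gcongr
      _ = ((T.card + Z.codim : ℕ) : Cardinal) := by push_cast; rfl
      _ ≤ (m : Cardinal) := by exact_mod_cast h2
  exact_mod_cast Set.ncard_le_ncard hsub hfin

end Pool.Agent.X295.Ell
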