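import Pool.Agent.X295.NearK

/-!
The data at the places near to the degenerate divisors, for coordinates which can have poles
(helper file).
-/

set_option autoImplicit false

open Function UpperHalfPlane H294ZP MvPolynomial Pool.Agent.W466.ZC Pool.Agent.TH526.ZL

namespace Pool.Agent.X295

variable {k : Type} [Field k] [Algebra k ℂ] {q : ℕ}

/-- The data at the places near to the degenerate divisors. -/
theorem nearE [IsAlgClosed k] [CharZero k] (𝓈 : Set k)
    (h𝓈 : IsTranscendenceBasis ℤ ((↑) : 𝓈 → k)) {κ : Type} [Finite κ]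
    {ι : Type} [Fintype ι] [DecidableEq ι] {N m M : ℕ} (G : κ → MvPolynomial (Fin (N + 1)) (MvPolynomial (Fin q) k))
    (hG : ∀ i, ∃ e, (G i).IsHomogeneous e)
    (A B : ι → MvPolynomial (Fin (N + 1)) (MvPolynomial (Fin q) k)) (d : ι → ℕ)
    (hA : ∀ i, (A i).IsHomogeneous (d i)) (hB : ∀ i, (B i).IsHomogeneous (d i))
    (h : Fin M → MvPolynomial (Fin q) k)
    (hp : ∀ l, Prime (h l)) (Nm : Fin M → MvPolynomial (Fin q) ℤ) (hN0 : ∀ l, Nm l ≠ 0)
    (hN : ∀ l, h l ∣ MvPolynomial.map (Int.castRingHom k) (Nm l))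
    (c : ι → MvPolynomial (Fin q) k) (e : Fin M → ι → ℕ)
    (g : Fin M → ι → MvPolynomial (Fin q) k)
    (hc : ∀ l i, c i = h l ^ e l i * g l i)
    (hg : ∀ l i, ¬ h l ∣ g l i)
    (a : Fin M → Fin q → k)
    (ha : ∀ l, eval (a l) (h l) = 0)
    (hdis : ∀ l, ∀ I : Finset ι, I.card = m + 1 → ∀ y : Fin (N + 1) → ℂ,
      (∀ i, aeval y (specM (a l) (G i)) = 0) →
      (∀ i ∈ I, aeval y (specM (a l) (A i)) * aeval y (specM (a l) (B i)) = 0) → y = 0)
    (Γ : Set k) (hΓ : Γ.Finite) (j0 : Fin M → Fin q) :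
    ∃ ρ : ∀ l, MvPolynomial {j : Fin q // j ≠ j0 l} ℤ, (∀ l, ρ l ≠ 0) ∧
      ∃ W : Set k, W.Finite ∧ Γ ⊆ W ∧ ∀ V : ValuationSubring ℂ,
      (∀ z ∈ W, algebraMap k ℂ z ∈ V) →
      ∀ (l : Fin M) (τ : Fin q → ℤ) (p : ℕ), GaussAt V p (fun a : 𝓈 => algebraMap k ℂ a) →
      ¬ (p : ℤ) ∣ eval τ (rename Subtype.val (ρ l)) →
      V.valuation (algebraMap k ℂ (eval (fun j => ((τ j : ℤ) : k)) (h l))) < 1 →
      ∀ (s : ι → ℂ) (y : Fin (N + 1) → ℂ), y ≠ 0 →
      (∀ i, aeval y (specM (fun j => ((τ j : ℤ) : k)) (G i)) = 0) →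
      (∀ i, aeval y (specM (fun j => ((τ j : ℤ) : k)) (B i)) ≠ 0 →
        algebraMap k ℂ (eval (fun j => ((τ j : ℤ) : k)) (c i)) *
        aeval y (specM (fun j => ((τ j : ℤ) : k)) (B i)) * s i =
          aeval y (specM (fun j => ((τ j : ℤ) : k)) (A i))) →
      ∃ E : Finset ι, E.card ≤ m ∧ ∀ i, i ∉ E →
        aeval y (specM (fun j => ((τ j : ℤ) : k)) (B i)) ≠ 0 ∧ V.valuation (s i) *
        V.valuation (algebraMap k ℂ (eval (fun j => ((τ j : ℤ) : k)) (h l))) ^ e l i = 1 := by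
  classical
  choose δ hδ W0 hW0 hgood using fun l => goodVMI (m := m) G hG A B d hA hB (a l) (hdis l)
  let Δ : Fin M → MvPolynomial (Fin q) k := fun l => (∏ I, δ l I) * ∏ i, g l i
  have hΔ : ∀ l, ¬ h l ∣ Δ l := by
    intro l hdvd
    rcases (hp l).dvd_or_dvd hdvd with h1 | h1
    · obtain ⟨I, -, hI⟩ := ((hp l).dvd_finsetProd_iff _).1 h1
      apply hδ l I
      obtain ⟨w, hw⟩ := hI
      rw [hw, map_mul, ha l, zero_mul]
    · obtain ⟨i, -, hi⟩ := ((hp l).dvd_finsetProd_iff _).1 h1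
      exact hg l i hi
  choose ρ hρ α β hαβ using fun l =>
    elimK 𝓈 h𝓈 (Nm l) (hN0 l) (h l) (hp l) (hN l) (Δ l) (hΔ l) (j0 l)
  refine ⟨ρ, hρ, ?_⟩
  let W2 : Set k := (⋃ l, W0 l) ∪ ((⋃ l, coefsP (α l)) ∪ ((⋃ l, coefsP (β l)) ∪
    ((⋃ l, ⋃ i, coefsP (g l i)) ∪ (⋃ l, ⋃ I, coefsP (δ l I)))))
  have hW2 : W2.Finite := by
    refine (Set.finite_iUnion hW0).union ((Set.finite_iUnion fun l => coefsP_finite _).union
      ((Set.finite_iUnion fun l => coefsP_finite _).union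
      ((Set.finite_iUnion fun l => Set.finite_iUnion fun i => coefsP_finite _).union
      (Set.finite_iUnion fun l => Set.finite_iUnion fun i => coefsP_finite _))))
  let W : Set k := Γ ∪ W2
  refine ⟨W, hΓ.union hW2, fun z hz => Or.inl hz, fun V hV => ?_⟩
  have hW2V : ∀ z ∈ W2, algebraMap k ℂ z ∈ V := fun z hz => hV z (Or.inr hz)
  intro l τ p hVp hpρ hτ1 s y hy0 hyG hxy
  set τ' : Fin q → k := fun j => ((τ j : ℤ) : k) with hτ'
  have hτV : ∀ i, algebraMap k ℂ (τ' i) ∈ V := by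
    intro i
    rw [hτ', map_intCast]
    exact intCast_mem V _
  have hle : ∀ P : MvPolynomial (Fin q) k, (∀ z ∈ coefsP P, algebraMap k ℂ z ∈ V) →
      V.valuation (algebraMap k ℂ (eval τ' P)) ≤ 1 := fun P hP =>
    (ValuationSubring.valuation_le_one_iff _ _).2 (evalM_mem V P (coefsP_mem V hP) hτV)
  have hαV := hle (α l) fun z hz => hW2V z (Or.inr (Or.inl (Set.mem_iUnion.2 ⟨l, hz⟩)))
  have hβV := hle (β l) fun z hz => hW2V z (Or.inr (Or.inr (Or.inl (Set.mem_iUnion.2 ⟨l, hz⟩))))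
  have hgV := fun i => hle (g l i) fun z hz => hW2V z (Or.inr (Or.inr (Or.inr (Or.inl
    (Set.mem_iUnion.2 ⟨l, Set.mem_iUnion.2 ⟨i, hz⟩⟩)))))
  have hδV := fun I => hle (δ l I) fun z hz => hW2V z (Or.inr (Or.inr (Or.inr (Or.inr
    (Set.mem_iUnion.2 ⟨l, Set.mem_iUnion.2 ⟨I, hz⟩⟩)))))
  have hΔle : V.valuation (algebraMap k ℂ (eval τ' (Δ l))) ≤ 1 := by
    show V.valuation (algebraMap k ℂ (eval τ' ((∏ I, δ l I) * ∏ i, g l i))) ≤ 1
    rw [ValuationSubring.valuation_le_one_iff, map_mul, map_prod, map_prod, map_mul, map_prod,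
      map_prod]
    exact mul_mem (prod_mem fun I _ => (ValuationSubring.valuation_le_one_iff _ _).1 (hδV I))
      (prod_mem fun i _ => (ValuationSubring.valuation_le_one_iff _ _).1 (hgV i))
  obtain ⟨f, hf1, hf2⟩ := hαβ l τ
  have hf3 := hVp.gauss f (hf1 p hpρ)
  have hf4 : aeval (fun a : 𝓈 => algebraMap k ℂ a) f = algebraMap k ℂ (aeval ((↑) : 𝓈 → k) f) := by
    have h8 := MvPolynomial.map_aeval (R := ℤ) ((↑) : 𝓈 → k) (algebraMap k ℂ) f
    rw [h8, aeval_def, coe_eval₂Hom]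
    congr 1
    exact RingHom.ext_int _ _
  rw [hf4, hf2, map_add, map_mul, map_mul, map_add, map_mul, map_mul] at hf3
  have hβΔ : V.valuation (algebraMap k ℂ (eval τ' (β l)) * algebraMap k ℂ (eval τ' (Δ l))) = 1 := by
    refine le_antisymm ?_ ?_
    · rw [map_mul]
      exact mul_le_one' hβV hΔle
    · by_contra hlt
      push Not at hlt
      have h1 : V.valuation (algebraMap k ℂ (eval τ' (α l)) *
          algebraMap k ℂ (eval τ' (h l))) < 1 := by
        rw [map_mul]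
        exact (mul_le_of_le_one_left' hαV).trans_lt hτ1
      have h2 := Valuation.map_add_lt _ h1 hlt
      exact h2.ne hf3
  have hΔ1 := (v_mul_one V hβV hΔle hβΔ).2
  have hΔ2 : V.valuation (algebraMap k ℂ (eval τ' (∏ I, δ l I)) *
      algebraMap k ℂ (eval τ' (∏ i, g l i))) = 1 := by
    rw [← hΔ1]
    show _ = V.valuation (algebraMap k ℂ (eval τ' ((∏ I, δ l I) * ∏ i, g l i)))
    rw [map_mul (MvPolynomial.eval τ'), map_mul (algebraMap k ℂ)]
  have hδle : V.valuation (algebraMap k ℂ (eval τ' (∏ I, δ l I))) ≤ 1 := by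
    rw [ValuationSubring.valuation_le_one_iff, map_prod, map_prod]
    exact prod_mem fun I _ => (ValuationSubring.valuation_le_one_iff _ _).1 (hδV I)
  have hgle : V.valuation (algebraMap k ℂ (eval τ' (∏ i, g l i))) ≤ 1 := by
    rw [ValuationSubring.valuation_le_one_iff, map_prod, map_prod]
    exact prod_mem fun I _ => (ValuationSubring.valuation_le_one_iff _ _).1 (hgV I)
  obtain ⟨h3, h4⟩ := v_mul_one V hδle hgle hΔ2
  rw [map_prod, map_prod] at h3 h4
  have hδ1 : ∀ I, V.valuation (algebraMap k ℂ (eval τ' (δ l I))) = 1 := fun I =>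
    v_prod_one V Finset.univ _ (fun I _ => hδV I) h3 I (Finset.mem_univ I)
  have hg1 : ∀ i, V.valuation (algebraMap k ℂ (eval τ' (g l i))) = 1 := fun i =>
    v_prod_one V Finset.univ _ (fun i _ => hgV i) h4 i (Finset.mem_univ i)
  have hcv : ∀ i, V.valuation (algebraMap k ℂ (eval τ' (c i))) =
      V.valuation (algebraMap k ℂ (eval τ' (h l))) ^ e l i := by
    intro i
    rw [hc l i, map_mul, map_mul, map_mul, hg1 i, mul_one, map_pow, map_pow, map_pow]
  obtain ⟨t, ht0, hAB, hI⟩ := hgood l V (fun z hz => hW2V z (Or.inl (Set.mem_iUnion.2 ⟨l, hz⟩)))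
    τ' hτV hδ1 y hy0 hyG
  refine ⟨Finset.univ.filter fun i => ¬ V.valuation (aeval (t • y)
    (specM τ' (A i)) * aeval (t • y) (specM τ' (B i))) = 1, ?_, ?_⟩
  · by_contra h
    push Not at h
    obtain ⟨I, hIE, hIc⟩ := Finset.exists_subset_card_eq (Nat.succ_le_of_lt h)
    obtain ⟨i, hi, h1⟩ := hI I hIc
    exact (Finset.mem_filter.1 (hIE hi)).2 h1
  · intro i hi
    rw [Finset.mem_filter] at hi
    push Not at hi
    have h1 := hi (Finset.mem_univ i)
    have hA1 := (ValuationSubring.valuation_le_one_iff _ _).2 (hAB i).1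
    have hB1 := (ValuationSubring.valuation_le_one_iff _ _).2 (hAB i).2
    obtain ⟨hA2, hB2⟩ := v_mul_one V hA1 hB1 h1
    have hB0 : aeval y (specM τ' (B i)) ≠ 0 := by
      intro h0
      rw [specM_smul (hB i), h0, mul_zero, map_zero] at hB2
      exact zero_ne_one hB2
    have h3 : algebraMap k ℂ (eval τ' (c i)) *
        aeval (t • y) (specM τ' (B i)) * s i =
          aeval (t • y) (specM τ' (A i)) := by
      rw [specM_smul (hA i), specM_smul (hB i), ← hxy i hB0]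
      ring
    have h4 := congrArg V.valuation h3
    rw [map_mul, map_mul, hA2, hB2, mul_one, hcv] at h4
    rw [mul_comm]
    exact ⟨hB0, h4⟩

end Pool.Agent.X295
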