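import Pool.Agent.X295.Core

/-!
The core of the local criteria for strongly independent exponents: `m + 2` places suffice
(helper file).
-/

set_option autoImplicit false

open Function UpperHalfPlane H294ZP MvPolynomial Pool.Agent.W466.ZC

namespace Pool.Agent.X295

/-- An even set of incidences. -/
theorem even_set {α : Type*} [DecidableEq α] {n m L : ℕ} (c : Fin n → α) (Fr : Finset α)
    (E : Fin L → Finset (Fin n)) (hE : ∀ l, (E l).card ≤ m) (hfree : ∀ l, ∀ i, i ∉ E l → c i ∈ Fr)
    (hcard : Fr.card + m < n) (hL : m + 2 ≤ L) :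
    ∃ P : Finset (Fin L × Fin n), P.Nonempty ∧ (∀ p ∈ P, p.2 ∉ E p.1) ∧
      (∀ i, Even (P.filter fun p => p.2 = i).card) ∧
      ∀ b : Fin L × α, Even (P.filter fun p => (p.1, c p.2) = b).card := by
  classical
  let F0 : Finset (Fin n) := Finset.univ.filter fun i => c i ∈ Fr
  have hF0 : ∀ l i, i ∉ F0 → i ∈ E l := by
    intro l i hi
    by_contra h
    exact hi (Finset.mem_filter.2 ⟨Finset.mem_univ i, hfree l i h⟩)
  have hn : 0 < n := by omega
  have hrep : ∀ γ : α, ∃ i : Fin n, γ ∈ F0.image c → (i ∈ F0 ∧ c i = γ) := by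
    intro γ
    by_cases h : γ ∈ F0.image c
    · obtain ⟨i, hi, hc⟩ := Finset.mem_image.1 h
      exact ⟨i, fun _ => ⟨hi, hc⟩⟩
    · exact ⟨⟨0, hn⟩, fun h' => absurd h' h⟩
  choose rep hrep using hrep
  let T : Finset (Fin n) := (F0.image c).image rep
  have hTF : T ⊆ F0 := by
    intro i hi
    obtain ⟨γ, hγ, rfl⟩ := Finset.mem_image.1 hi
    exact (hrep γ hγ).1
  have hTrep : ∀ t ∈ T, rep (c t) = t := by
    intro t ht
    obtain ⟨γ, hγ, rfl⟩ := Finset.mem_image.1 ht
    rw [(hrep γ hγ).2]
  have hTcard : T.card = (F0.image c).card := by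
    refine Finset.card_image_of_injOn fun γ hγ γ' hγ' h => ?_
    have h1 := (hrep γ hγ).2
    have h2 := (hrep γ' hγ').2
    rw [h] at h1
    exact h1.symm.trans h2
  have hρ : (F0.image c).card ≤ Fr.card := by
    refine Finset.card_le_card fun γ hγ => ?_
    obtain ⟨i, hi, rfl⟩ := Finset.mem_image.1 hγ
    exact (Finset.mem_filter.1 hi).2
  let Ct := {i : Fin n // i ∈ F0 \ T} ⊕ ((Fin L × {γ : α // γ ∈ F0.image c}) ⊕ (Σ l : Fin L, E l))
  let Ψ : (Fin L × Fin n → ZMod 2) →ₗ[ZMod 2] (Ct → ZMod 2) :=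
    { toFun := fun p ct => match ct with
        | Sum.inl i => ∑ l, p (l, i)
        | Sum.inr (Sum.inl b) => ∑ i, if c i = b.2 then p (b.1, i) else 0
        | Sum.inr (Sum.inr x) => p (x.1, x.2)
      map_add' := by
        intro p p'
        funext ct
        rcases ct with i | b | x
        · simp [Finset.sum_add_distrib]
        · simp only [Pi.add_apply, ← Finset.sum_add_distrib]
          refine Finset.sum_congr rfl fun i _ => ?_
          split_ifs <;> simp
        · simp
      map_smul' := by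
        intro a p
        funext ct
        rcases ct with i | b | x
        · simp [Finset.mul_sum]
        · simp only [Pi.smul_apply, smul_eq_mul, RingHom.id_apply, Finset.mul_sum]
          refine Finset.sum_congr rfl fun i _ => ?_
          split_ifs <;> simp
        · simp }
  have hlt : Module.finrank (ZMod 2) (Ct → ZMod 2) < Module.finrank (ZMod 2)
      (Fin L × Fin n → ZMod 2) := by
    rw [Module.finrank_fintype_fun_eq_card, Module.finrank_fintype_fun_eq_card]
    rw [Fintype.card_sum, Fintype.card_sum, Fintype.card_prod, Fintype.card_prod,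
      Fintype.card_coe, Fintype.card_coe, Fintype.card_fin, Fintype.card_fin, Fintype.card_sigma,
      Finset.card_sdiff_of_subset hTF, hTcard]
    have h1 : ∑ l : Fin L, Fintype.card (E l) ≤ L * m := by
      calc ∑ l : Fin L, Fintype.card (E l) ≤ ∑ _l : Fin L, m :=
            Finset.sum_le_sum fun l _ => by rw [Fintype.card_coe]; exact hE l
        _ = L * m := by rw [Finset.sum_const, Finset.card_univ, Fintype.card_fin, smul_eq_mul]
    have h2 : F0.card ≤ n := by
      have := Finset.card_le_univ F0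
      rwa [Fintype.card_fin] at this
    set ρ := (F0.image c).card with hρdef
    obtain ⟨t, ht⟩ : ∃ t, n = ρ + m + 1 + t := ⟨n - (ρ + m + 1), by omega⟩
    obtain ⟨s, hs⟩ : ∃ s, L = m + 2 + s := ⟨L - (m + 2), by omega⟩
    have h3 : F0.card - ρ ≤ m + 1 + t := by omega
    have h4 : L * n = L * ρ + L * m + L * (1 + t) := by rw [ht]; ring
    have h5 : m + 1 + t < L * (1 + t) := by
      rw [hs]
      nlinarith [Nat.zero_le (s * (1 + t)), Nat.zero_le (m * t), Nat.zero_le t]
    omega
  obtain ⟨p, hpker, hp0⟩ := (Submodule.ne_bot_iff _).1 (LinearMap.ker_ne_bot_of_finrank_lt hlt)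
  have hpΨ : Ψ p = 0 := hpker
  have h1 : ∀ i, i ∈ F0 \ T → ∑ l, p (l, i) = 0 := fun i hi =>
    congrFun hpΨ (Sum.inl ⟨i, hi⟩)
  have h2 : ∀ l γ, γ ∈ F0.image c → ∑ i, (if c i = γ then p (l, i) else 0) = 0 := fun l γ hγ =>
    congrFun hpΨ (Sum.inr (Sum.inl (l, ⟨γ, hγ⟩)))
  have h3 : ∀ l i, i ∈ E l → p (l, i) = 0 := fun l i hi =>
    congrFun hpΨ (Sum.inr (Sum.inr ⟨l, ⟨i, hi⟩⟩))
  have h4 : ∀ l γ, ∑ i, (if c i = γ then p (l, i) else 0) = 0 := by
    intro l γ
    by_cases hγ : γ ∈ F0.image c
    · exact h2 l γ hγ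
    · refine Finset.sum_eq_zero fun i _ => ?_
      split_ifs with hc
      · refine h3 l i (hF0 l i fun hi => hγ ?_)
        rw [← hc]
        exact Finset.mem_image_of_mem c hi
      · rfl
  have h5 : ∀ i, ∑ l, p (l, i) = 0 := by
    intro i
    by_cases hi : i ∈ F0
    · by_cases hiT : i ∈ T
      · have e1 : ∑ i', (if c i' = c i then ∑ l, p (l, i') else 0) = 0 := by
          have e2 : ∀ i', (if c i' = c i then ∑ l, p (l, i') else 0) =
              ∑ l, (if c i' = c i then p (l, i') else 0) := by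
            intro i'
            split_ifs <;> simp
          simp only [e2]
          rw [Finset.sum_comm]
          exact Finset.sum_eq_zero fun l _ => h4 l (c i)
        rw [Finset.sum_eq_single i] at e1
        · rwa [if_pos rfl] at e1
        · intro i' _ hne
          split_ifs with hc
          · refine h1 i' (Finset.mem_sdiff.2 ⟨?_, fun hT' => hne ?_⟩)
            · refine Finset.mem_filter.2 ⟨Finset.mem_univ _, ?_⟩
              rw [hc]
              exact (Finset.mem_filter.1 hi).2
            · rw [← hTrep i' hT', hc, hTrep i hiT]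
          · rfl
        · intro h; exact absurd (Finset.mem_univ i) h
      · exact h1 i (Finset.mem_sdiff.2 ⟨hi, hiT⟩)
    · exact Finset.sum_eq_zero fun l _ => h3 l i (hF0 l i hi)
  let P : Finset (Fin L × Fin n) := Finset.univ.filter fun e => p e ≠ 0
  have hpP : ∀ e, p e = if e ∈ P then 1 else 0 := by
    intro e
    have h6 : p e = 0 ∨ p e = 1 := by
      generalize p e = z
      revert z
      decide
    rcases h6 with h6 | h6
    · rw [if_neg, h6]
      intro h7
      exact (Finset.mem_filter.1 h7).2 h6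
    · rw [if_pos, h6]
      refine Finset.mem_filter.2 ⟨Finset.mem_univ _, ?_⟩
      rw [h6]
      exact one_ne_zero
  refine ⟨P, ?_, ?_, ?_, ?_⟩
  · obtain ⟨e, he⟩ := Function.ne_iff.1 hp0
    exact ⟨e, Finset.mem_filter.2 ⟨Finset.mem_univ _, he⟩⟩
  · intro e he hE'
    exact (Finset.mem_filter.1 he).2 (h3 e.1 e.2 hE')
  · intro i
    rw [← ZMod.natCast_eq_zero_iff_even]
    have e1 : ((P.filter fun e => e.2 = i).card : ZMod 2) = ∑ l, p (l, i) := by
      rw [Finset.card_eq_sum_ones, Finset.sum_filter]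
      push_cast
      have e2 : ∀ l, p (l, i) = if (l, i) ∈ P then 1 else 0 := fun l => hpP (l, i)
      simp only [e2]
      rw [← Finset.sum_filter, ← Finset.sum_filter]
      rw [Finset.sum_const, Finset.sum_const]
      congr 1
      refine Finset.card_bij' (fun e _ => e.1) (fun l _ => (l, i)) ?_ ?_ ?_ ?_
      · intro e he
        obtain ⟨g1, g2⟩ := Finset.mem_filter.1 he
        refine Finset.mem_filter.2 ⟨Finset.mem_univ _, ?_⟩
        rw [← g2]
        exact g1
      · intro l hl
        exact Finset.mem_filter.2 ⟨(Finset.mem_filter.1 hl).2, rfl⟩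
      · intro e he
        obtain ⟨g1, g2⟩ := Finset.mem_filter.1 he
        rw [← g2]
      · intro l hl
        rfl
    rw [e1, h5]
  · intro b
    rw [← ZMod.natCast_eq_zero_iff_even]
    have e1 : ((P.filter fun e => (e.1, c e.2) = b).card : ZMod 2) =
        ∑ i, (if c i = b.2 then p (b.1, i) else 0) := by
      rw [Finset.card_eq_sum_ones, Finset.sum_filter]
      push_cast
      have e2 : ∀ i, p (b.1, i) = if (b.1, i) ∈ P then 1 else 0 := fun i => hpP (b.1, i)
      simp only [e2]
      rw [← Finset.sum_filter, ← Finset.sum_filter, ← Finset.sum_filter]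
      rw [Finset.sum_const, Finset.sum_const]
      congr 1
      refine Finset.card_bij' (fun e _ => e.2) (fun i _ => (b.1, i)) ?_ ?_ ?_ ?_
      · intro e he
        obtain ⟨g1, g2⟩ := Finset.mem_filter.1 he
        have g3 : e.1 = b.1 := congrArg Prod.fst g2
        have g4 : c e.2 = b.2 := congrArg Prod.snd g2
        refine Finset.mem_filter.2 ⟨Finset.mem_filter.2 ⟨Finset.mem_univ _, g4⟩, ?_⟩
        rw [← g3]
        exact g1
      · intro i hi
        obtain ⟨g1, g2⟩ := Finset.mem_filter.1 hi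
        refine Finset.mem_filter.2 ⟨g2, ?_⟩
        rw [(Finset.mem_filter.1 g1).2]
      · intro e he
        obtain ⟨g1, g2⟩ := Finset.mem_filter.1 he
        have g3 : e.1 = b.1 := congrArg Prod.fst g2
        rw [← g3]
      · intro l hl
        rfl
    rw [e1, h4]

theorem isSq_left {a b : ℕ} (hb : 0 < b) (h1 : IsSquare b) (h2 : IsSquare (a * b)) :
    IsSquare a := by
  obtain ⟨c, rfl⟩ := h1
  have hc : 0 < c := Nat.pos_of_ne_zero fun h => by
    rw [h] at hb
    exact lt_irrefl _ hb
  refine isSquare_of_mul_sq (m := c) hc ?_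
  rw [show c ^ 2 * a = a * (c * c) by ring]
  exact h2

/-- A family is strongly independent. -/
def StrongQ {n L : ℕ} (T : ℕ) (e : Fin L → Fin n → ℕ) : Prop :=
  ∀ P : Finset (Fin L × Fin n), P.Nonempty → ∀ q, 0 < q → q ≤ T ^ (2 * (L * n)) →
    ¬ IsSquare (q * ∏ p ∈ P, e p.1 p.2)

/-- The combinatorial core for strongly independent exponents, with `m + 2` places. -/
theorem coreS {Λ : Type} [CommRing Λ] [IsDomain Λ] [Algebra Λ ℂ] {n m T L : ℕ}
    (hL : m + 2 ≤ L)
    (R : Fin n → Polynomial (Polynomial Λ)) (hR : ∀ i, (R i).Monic)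
    (hT : ∀ i u w, ((R i).coeff u).coeff w ≠ 0 → u ≤ T ∧ w ≤ T)
    (e : Fin L → Fin n → ℕ) (he : ∀ l i, 0 < e l i) (hsq : StrongQ T e)
    {r : ℕ} (cls : Fin n → Option (Fin r)) (Dt : Fin n → ℕ) (x s : Fin n → ℂ)
    (hQ : ∀ i, 0 < Dt i)
    (hconst : ∀ i, cls i = none → IsAlgebraic Λ (x i))
    (hrel : ∀ i j l, cls i = some l → cls j = some l →
        IsIntegral (Algebra.adjoin ℤ {x i}) (x j) ∧
        Polynomial.eval₂ (Polynomial.aeval (x i) : Polynomial ℂ →ₐ[ℂ] ℂ).toRingHom (x j)
          (W282.ZP.Psi (Dt i * Dt j)) = 0)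
    (hRs : ∀ i, Polynomial.eval₂ (Polynomial.aeval (x i) : Polynomial Λ →ₐ[Λ] ℂ).toRingHom (s i)
      (R i) = 0)
    (S : Finset (Fin n)) (hS : AlgebraicIndependent Λ (fun i : S => x i))
    (V : Fin L → ValuationSubring ℂ) (g : ∀ l, (V l).ValueGroup)
    (hg : ∀ l, g l < 1)
    (hVc : ∀ l i, cls i = none → (V l).valuation (x i) ≤ 1)
    (hVR : ∀ l i u w, ((R i).coeff u).coeff w ≠ 0 →
      (V l).valuation (algebraMap Λ ℂ (((R i).coeff u).coeff w)) = 1)
    (hVx : ∀ l (i : S), x i ∈ V l)
    (hgood : ∀ l, ∃ E : Finset (Fin n), E.card ≤ m ∧ ∀ i, i ∉ E →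
      (V l).valuation (s i) * g l ^ e l i = 1) :
    S.card + n ≤ r + m := by
  classical
  have hQ' : ∀ i j, 0 < Dt i * Dt j := fun i j => Nat.mul_pos (hQ i) (hQ j)
  have hV1 : ∀ l i j k, cls i = some k → cls j = some k → (V l).valuation (x i) ≤ 1 →
      (V l).valuation (x j) ≤ 1 := by
    intro l i j k hi hj h1
    exact ((W282.ZP.Psi_spec (hQ' i j)).2.2 ℂ (V l) (x i) (x j) (hrel i j k hi hj).2).1 h1
  have hSsome : ∀ t : S, ∃ k, cls t = some k := by
    intro t
    cases hc : cls t with
    | none => exact ((hS.transcendental t) (hconst t hc)).elim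
    | some k => exact ⟨k, rfl⟩
  choose cl hcl using hSsome
  have hclinj : Function.Injective cl := by
    intro t t' htt
    by_contra hne
    exact TH526.ZL.not_algInd' hS hne (hrel t t' (cl t) (hcl t) (by rw [htt]; exact hcl t')).1
  by_contra hcon
  push Not at hcon
  choose E hE hEg using hgood
  have hone_lt : ∀ l i, i ∉ E l → 1 < (V l).valuation (s i) := by
    intro l i hi
    by_contra hle
    push Not at hle
    have h1 : (V l).valuation (s i) * g l ^ e l i < 1 :=
      (mul_le_of_le_one_left' hle).trans_lt (pow_lt_one₀ zero_le (hg l) (he l i).ne')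
    rw [hEg l i hi] at h1
    exact lt_irrefl _ h1
  have htie := fun l i (hi : i ∉ E l) => TH526.ZL.tie (V l) (R i) (hR i) (hVR l i) (hT i) (hRs i)
    (hone_lt l i hi)
  have hgt : ∀ l i, i ∉ E l → 1 < (V l).valuation (x i) := fun l i hi => (htie l i hi).1
  let Fr : Finset (Option (Fin r)) := (Finset.univ.filter fun k : Fin r =>
    k ∉ Finset.univ.image cl).image some
  have hFr : Fr.card + S.card = r := by
    have h1 : Fr.card = (Finset.univ.filter fun k : Fin r =>
        k ∉ Finset.univ.image cl).card :=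
      Finset.card_image_of_injective _ (Option.some_injective _)
    have h2 : (Finset.univ.filter fun k : Fin r => k ∈ Finset.univ.image cl).card = S.card := by
      have h3 : (Finset.univ.filter fun k : Fin r => k ∈ Finset.univ.image cl) =
          Finset.univ.image cl := by
        ext k; simp
      rw [h3, Finset.card_image_of_injective _ hclinj, Finset.card_univ, Fintype.card_coe]
    have := Finset.card_filter_add_card_filter_not (s := (Finset.univ : Finset (Fin r)))
      (fun k => k ∈ Finset.univ.image cl)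
    rw [Finset.card_univ, Fintype.card_fin] at this
    rw [h1]
    omega
  have hmaps : ∀ l, ∀ i, i ∉ E l → cls i ∈ Fr := by
    intro l i hi
    have h1 := hgt l i hi
    cases hc : cls i with
    | none => exact absurd h1 (not_lt.2 (hVc l i hc))
    | some k =>
      refine Finset.mem_image_of_mem _ (Finset.mem_filter.2 ⟨Finset.mem_univ _, ?_⟩)
      intro hk
      obtain ⟨t, -, ht⟩ := Finset.mem_image.1 hk
      have h3 := hV1 l t i k (ht ▸ hcl t) hc
        ((ValuationSubring.valuation_le_one_iff _ _).2 (hVx l t))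
      exact absurd h1 (not_lt.2 h3)
  obtain ⟨P, hPne, hPE, hPi, hPb⟩ := even_set cls Fr E hE hmaps (by omega) hL
  -- the factors from the level
  have hw : ∀ p : Fin L × Fin n, ∃ q : ℕ, 0 < q ∧ (p.2 ∉ E p.1 → q ≤ T ^ 2 ∧
      ∃ u w, q = u * w ∧ 0 < u ∧ 0 < w ∧
        (V p.1).valuation (s p.2) ^ u = (V p.1).valuation (x p.2) ^ w) := by
    intro p
    by_cases hp : p.2 ∈ E p.1
    · exact ⟨1, one_pos, fun h => absurd hp h⟩
    · obtain ⟨h1, u, w, hu0, huT, hw0, hwT, huw⟩ := htie p.1 p.2 hp
      refine ⟨u * w, Nat.mul_pos hu0 hw0, fun _ => ⟨?_, u, w, rfl, hu0, hw0, huw⟩⟩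
      calc u * w ≤ T * T := Nat.mul_le_mul huT hwT
        _ = T ^ 2 := by ring
  choose q hq0 hq using hw
  -- ties
  have key : ∀ l, ∀ i j : Fin n, i ∉ E l → j ∉ E l → cls i = cls j →
      IsSquare ((Dt i * (e l i * q (l, i))) * (Dt j * (e l j * q (l, j)))) := by
    intro l i j hi hj hcls
    obtain ⟨k, -, hk⟩ := Finset.mem_image.1 (hmaps l i hi)
    obtain ⟨-, u, w, hqe, hu0, hw0, huw⟩ := hq (l, i) hi
    obtain ⟨-, u', w', hqe', hu0', hw0', huw'⟩ := hq (l, j) hj
    have h1 := TH526.ZL.sq_tie' (hQ' i j) (hrel i j k hk.symm (hcls ▸ hk.symm)).2 (V l) (hg l)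
        (hEg l i hi) (hEg l j hj) (hgt l i hi) huw huw'
    rw [hqe, hqe']
    have h2 : Dt i * (e l i * (u * w)) * (Dt j * (e l j * (u' * w'))) =
        Dt i * Dt j * (e l i * e l j) * (u * w * (u' * w')) := by ring
    rw [h2]
    exact h1
  -- a base element for each block
  have hbase : ∀ b : Fin L × Option (Fin r), ∃ i : Fin n,
      (∃ i', i' ∉ E b.1 ∧ cls i' = b.2) → (i ∉ E b.1 ∧ cls i = b.2) := by
    intro b
    by_cases h : ∃ i', i' ∉ E b.1 ∧ cls i' = b.2
    · obtain ⟨i', hi'⟩ := h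
      exact ⟨i', fun _ => hi'⟩
    · have hn : 0 < n := by
        obtain ⟨p, -⟩ := hPne
        exact p.2.pos
      exact ⟨⟨0, hn⟩, fun h' => absurd h' h⟩
  choose base hbase using hbase
  let f : Fin L × Fin n → ℕ := fun p => Dt p.2 * (e p.1 p.2 * q p)
  have hf0 : ∀ p, 0 < f p := fun p => Nat.mul_pos (hQ p.2) (Nat.mul_pos (he p.1 p.2) (hq0 p))
  have hprod : IsSquare (∏ p ∈ P, f p) := by
    have h1 : IsSquare (∏ p ∈ P, f (p.1, base (p.1, cls p.2))) := by
      have h2 : ∏ p ∈ P, f (p.1, base (p.1, cls p.2)) =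
          ∏ b ∈ P.image (fun p => (p.1, cls p.2)), f (b.1, base b) ^
            (P.filter fun p => (p.1, cls p.2) = b).card :=
        Finset.prod_comp (fun b : Fin L × Option (Fin r) => f (b.1, base b))
          (fun p : Fin L × Fin n => (p.1, cls p.2))
      rw [h2]
      refine Finset.isSquare_prod _ fun b _ => (hPb b).isSquare_pow _
    refine isSq_left (Finset.prod_pos fun p _ => hf0 _) h1 ?_
    rw [← Finset.prod_mul_distrib]
    refine Finset.isSquare_prod _ fun p hp => ?_
    obtain ⟨h3, h4⟩ := hbase (p.1, cls p.2) ⟨p.2, hPE p hp, rfl⟩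
    exact key p.1 p.2 _ (hPE p hp) h3 h4.symm
  have hDt : IsSquare (∏ p ∈ P, Dt p.2) := by
    have h2 : ∏ p ∈ P, Dt p.2 = ∏ i ∈ P.image (fun p => p.2), Dt i ^
        (P.filter fun p => p.2 = i).card :=
      Finset.prod_comp (fun i : Fin n => Dt i) (fun p : Fin L × Fin n => p.2)
    rw [h2]
    exact Finset.isSquare_prod _ fun i _ => (hPi i).isSquare_pow _
  have hfin : IsSquare ((∏ p ∈ P, q p) * ∏ p ∈ P, e p.1 p.2) := by
    refine isSq_left (Finset.prod_pos fun p _ => hQ p.2) hDt ?_
    have h3 : (∏ p ∈ P, q p) * (∏ p ∈ P, e p.1 p.2) * ∏ p ∈ P, Dt p.2 = ∏ p ∈ P, f p := by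
      rw [← Finset.prod_mul_distrib, ← Finset.prod_mul_distrib]
      refine Finset.prod_congr rfl fun p _ => ?_
      simp only [f]
      ring
    rw [h3]
    exact hprod
  refine hsq P hPne (∏ p ∈ P, q p) (Finset.prod_pos fun p _ => hq0 p) ?_ hfin
  have hT0 : 0 < T := by
    obtain ⟨p, hp⟩ := hPne
    have h4 := (hq p (hPE p hp)).1
    have h5 := hq0 p
    rcases Nat.eq_zero_or_pos T with h6 | h6
    · rw [h6] at h4
      simp at h4
      omega
    · exact h6
  calc ∏ p ∈ P, q p ≤ ∏ _p ∈ P, T ^ 2 := Finset.prod_le_prod' fun p hp => (hq p (hPE p hp)).1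
    _ = (T ^ 2) ^ P.card := Finset.prod_const _
    _ ≤ (T ^ 2) ^ (L * n) := by
        refine Nat.pow_le_pow_right (by positivity) ?_
        have := Finset.card_le_univ P
        rwa [Fintype.card_prod, Fintype.card_fin, Fintype.card_fin] at this
    _ = T ^ (2 * (L * n)) := by rw [← pow_mul]

end Pool.Agent.X295
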