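import Pool.Agent.Y152.RP.Main
import Pool.Agent.Y152.RP.Fam
import Pool.Agent.X295.Strong

/-!
One-parameter families of subvarieties of `Y(1)^n` and sets `P` of algebraic parameters, with numbers of
degenerate members which do not depend on `n` (helper file; the proof is that of
`Pool.Agent.Y152.RP.Fam.family`, with the combinatorial theorems `coreW` and `coreS`).
-/

set_option autoImplicit false

namespace Pool.Agent.X295

open H294ZP UpperHalfPlane MvPolynomial Pool.Agent.W282.ZP Pool.Agent.Y152.BD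
open Pool.Agent.Y152.RP.Fam

/-- Strong independence of a part of the family. -/
theorem StrongQ.comp {n L M T : ℕ} {e : Fin M → Fin n → ℕ} (h : StrongQ T e) (f : Fin L → Fin M)
    (hf : Function.Injective f) : StrongQ T fun l => e (f l) := by
  classical
  intro P hP q hq hqT
  obtain ⟨⟨l, i⟩, hli⟩ := hP
  have hn : 0 < n := Fin.pos i
  have hL : 0 < L := Fin.pos l
  have hLM : L ≤ M := by
    have := Fintype.card_le_of_injective f hf
    simpa using this
  have hT : 0 < T := by
    rcases Nat.eq_zero_or_pos T with h0 | h0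
    · rw [h0, zero_pow (by positivity)] at hqT
      omega
    · exact h0
  have h1 := h (P.image fun x => (f x.1, x.2)) ⟨_, Finset.mem_image_of_mem _ hli⟩ q hq
    (hqT.trans (Nat.pow_le_pow_right hT (by gcongr)))
  rw [Finset.prod_image] at h1
  · exact h1
  · rintro ⟨l1, i1⟩ _ ⟨l2, i2⟩ _ h2
    simp only [Prod.mk.injEq] at h2
    rw [hf h2.1, h2.2]

/-- One-parameter families which degenerate at sufficiently many rational parameters, and the members
with parameter in `P`. -/
theorem familyT (K : Subfield ℂ) [Countable K] (κ : Type) [Finite κ] (N n m M T : ℕ)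
    (G : κ → MvPolynomial (Fin (N + 1)) (Polynomial K)) (hG : ∀ k, ∃ e, (G k).IsHomogeneous e)
    (A B : Fin n → MvPolynomial (Fin (N + 1)) (Polynomial K)) (δ : Fin n → ℕ)
    (hA : ∀ i, (A i).IsHomogeneous (δ i)) (hB : ∀ i, (B i).IsHomogeneous (δ i))
    (R : Fin n → Polynomial (Polynomial K)) (hR : ∀ i, (R i).Monic)
    (hT : ∀ i u w, ((R i).coeff u).coeff w ≠ 0 → u ≤ T ∧ w ≤ T)
    (c : Fin n → Polynomial K) (α : Fin M → ℚ)
    (hce : ∀ l i, 0 < (c i).rootMultiplicity ((α l : ℚ) : K))
    (hpos : ∀ l, InGeneralPosition ((α l : ℚ) : ℂ) m G A B) (Γ : Finset ℂ)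
    (hΓ : ∀ γ ∈ Γ, γ ∈ K) (P : Set ℂ) (hP : ∀ t ∈ P, IsAlgebraic ℤ t) :
    ((min (m + 2) n).choose 2 + 1 ≤ M →
      IndependentExponents T (fun l i => (c i).rootMultiplicity ((α l : ℚ) : K)) →
      ManyPrimes P ((min (m + 2) n).choose 2 + 1) α →
      {t : ℂ | t ∈ P ∧ ¬ NoAtypical (algebraMap (Algebra.adjoin ℤ (Γ : Set ℂ)) ℂ) K m
        (scaledImage t G A B R c)}.Finite) ∧
    (m + 2 ≤ M → StrongQ T (fun l i => (c i).rootMultiplicity ((α l : ℚ) : K)) →
      ManyPrimes P (m + 2) α →
      {t : ℂ | t ∈ P ∧ ¬ NoAtypical (algebraMap (Algebra.adjoin ℤ (Γ : Set ℂ)) ℂ) K m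
        (scaledImage t G A B R c)}.Finite) := by
  classical
  let k := algebraicClosure K ℂ
  have hcl : IsAlgClosure K k := inferInstance
  have hac : IsAlgClosed k := hcl.isAlgClosed
  let φ : Polynomial K →+* Polynomial k := Polynomial.mapRingHom (algebraMap K k)
  have hcast : ∀ t : ℚ, algebraMap k ℂ ((t : ℚ) : k) = (t : ℂ) := fun t => map_ratCast _ t
  have hev : ∀ (t : k), (algebraMap k ℂ).comp ((Polynomial.evalRingHom t).comp φ) =
      evalAt K (algebraMap k ℂ t) := by
    intro t
    refine Polynomial.ringHom_ext (fun a => ?_) ?_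
    · simp only [φ, evalAt, RingHom.comp_apply, Polynomial.coe_mapRingHom, Polynomial.map_C,
        Polynomial.coe_evalRingHom, Polynomial.eval_C, AlgHom.toRingHom_eq_coe, RingHom.coe_coe,
        Polynomial.aeval_C]
      rfl
    · simp only [φ, evalAt, RingHom.comp_apply, Polynomial.coe_mapRingHom, Polynomial.map_X,
        Polynomial.coe_evalRingHom, Polynomial.eval_X, AlgHom.toRingHom_eq_coe, RingHom.coe_coe,
        Polynomial.aeval_X]
  have hspec : ∀ (t : k) (P : MvPolynomial (Fin (N + 1)) (Polynomial K)) (y : Fin (N + 1) → ℂ),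
      aeval y (TH526.ZL.spec t (MvPolynomial.map φ P)) =
        eval₂ (evalAt K (algebraMap k ℂ t)) y P := by
    intro t P y
    rw [TH526.ZL.spec, MvPolynomial.map_map, aeval_def, eval₂_map, hev]
  have hmult : ∀ (l : Fin M) (i : Fin n), (φ (c i)).rootMultiplicity ((α l : ℚ) : k) =
      (c i).rootMultiplicity ((α l : ℚ) : K) := by
    intro l i
    have h1 := Polynomial.eq_rootMultiplicity_map (p := c i) (f := algebraMap K k)
      (algebraMap K k).injective ((α l : ℚ) : K)
    rw [map_ratCast] at h1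
    exact h1.symm
  let Γ' : Set k := (fun γ : Γ => algebraMap K k ⟨γ, hΓ γ γ.2⟩) '' Set.univ
  have hΓ' : algebraMap k ℂ '' Γ' = (Γ : Set ℂ) := by
    ext z
    constructor
    · rintro ⟨_, ⟨g, -, rfl⟩, rfl⟩
      exact g.2
    · intro hz
      exact ⟨_, ⟨⟨z, hz⟩, trivial, rfl⟩, rfl⟩
  by_cases hn : M = 0
  · subst hn
    refine ⟨fun h => by omega, fun h => by omega⟩
  have hM0 : 0 < M := Nat.pos_of_ne_zero hn
  have hc0 : ∀ i, φ (c i) ≠ 0 := by
    intro i h0
    have h1 : 0 < (c i).rootMultiplicity ((α ⟨0, hM0⟩ : ℚ) : K) := hce ⟨0, hM0⟩ i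
    rw [← hmult, h0, Polynomial.rootMultiplicity_zero] at h1
    exact lt_irrefl _ h1
  obtain ⟨W, hW, hΓW, hnear⟩ := nearV (k := k) (m := m) (M := M)
    (fun i => MvPolynomial.map φ (G i))
    (fun i => by
      obtain ⟨e, he⟩ := hG i
      exact ⟨e, he.map _⟩)
    (fun i => MvPolynomial.map φ (A i)) (fun i => MvPolynomial.map φ (B i)) δ
    (fun i => (hA i).map _) (fun i => (hB i).map _)
    (fun i => (R i).map φ) (fun i => φ (c i)) (fun l => ((α l : ℚ) : k)) hc0
    (fun l I hI y h1 h2 => by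
      by_contra h0
      obtain ⟨i, hi, h3⟩ := hpos l I hI y ⟨h0, fun i => by
        have h4 := h1 i
        rw [hspec, hcast] at h4
        exact h4⟩
      apply h3
      have h4 := h2 i hi
      rw [hspec, hspec, hcast] at h4
      exact h4)
    Γ' (Set.toFinite _)
  have hRk : ∀ i, ((R i).map φ).Monic := fun i => (hR i).map _
  have hTk : ∀ i u w, (((R i).map φ).coeff u).coeff w ≠ 0 → u ≤ T ∧ w ≤ T := by
    intro i u w h0
    rw [Polynomial.coeff_map] at h0
    change ((Polynomial.mapRingHom (algebraMap K k)) ((R i).coeff u)).coeff w ≠ 0 at h0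
    rw [Polynomial.coe_mapRingHom, Polynomial.coeff_map] at h0
    exact hT i u w fun h1 => h0 (by rw [h1, map_zero])
  -- the parameter as an element of `k`
  have hk : ∀ t : ℂ, t ∈ P → ∃ t' : k, algebraMap k ℂ t' = t := by
    intro t ht
    have h1 : IsAlgebraic ℤ t := hP t ht
    have h2 : IsAlgebraic K t := h1.extendScalars (Int.cast_injective (α := K))
    exact ⟨⟨t, mem_algebraicClosure_iff.2 h2⟩, rfl⟩
  -- the relations at a point
  have hdata : ∀ (t' : k) (r : ℕ)
      (Z : SpecialVariety (algebraMap (Algebra.adjoin ℤ (Γ : Set ℂ)) ℂ) n r) (x s : Fin n → ℂ)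
      (y : Fin (N + 1) → ℂ), x ∈ Z.locus → OnB (algebraMap k ℂ t') G y →
      (∀ i, valueAt (R i) (s i) (x i) = 0 ∧
        evalAt K (algebraMap k ℂ t') (c i) * eval₂ (evalAt K (algebraMap k ℂ t')) y (B i) * s i =
          eval₂ (evalAt K (algebraMap k ℂ t')) y (A i)) →
      (∀ i, Z.cls i = none → IsIntegral (Algebra.adjoin ℤ (algebraMap k ℂ '' Γ')) (x i)) ∧
      (∀ i, Polynomial.eval₂ (Polynomial.aeval (x i) : Polynomial k →ₐ[k] ℂ).toRingHom (s i)
        ((R i).map φ) = 0) ∧
      (∀ i, aeval y (TH526.ZL.spec t' (MvPolynomial.map φ (G i))) = 0) ∧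
      (∀ i, algebraMap k ℂ ((φ (c i)).eval t') *
        aeval y (TH526.ZL.spec t' (MvPolynomial.map φ (B i))) * s i =
        aeval y (TH526.ZL.spec t' (MvPolynomial.map φ (A i)))) := by
    intro t' r Z x s y hxZ hy hxy
    refine ⟨fun i hi => ?_, fun i => ?_, fun i => ?_, fun i => ?_⟩
    · obtain ⟨z, hz⟩ := hxZ
      rw [hΓ', (hz i).1 hi]
      rcases Z.allowed i with ⟨τ, hτ, hc⟩ | h
      · rw [hc]
        exact (singular_modulus_integral τ hτ).tower_top
      · exact h
    · rw [Polynomial.eval₂_map]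
      have h1 : ((Polynomial.aeval (x i) : Polynomial k →ₐ[k] ℂ).toRingHom).comp φ =
          (Polynomial.aeval (x i) : Polynomial K →ₐ[K] ℂ).toRingHom := by
        ext z
        · simp [φ]
        · simp [φ]
      rw [h1]
      exact (hxy i).1
    · rw [hspec]
      exact hy.2 i
    · rw [hspec, hspec]
      have h1 : algebraMap k ℂ ((φ (c i)).eval t') = evalAt K (algebraMap k ℂ t') (c i) := by
        rw [← hev t']
        rfl
      rw [h1]
      exact (hxy i).2
  have hΓV : ∀ V : ValuationSubring ℂ, (∀ z ∈ W, algebraMap k ℂ z ∈ V) →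
      ∀ z ∈ Γ', algebraMap k ℂ z ∈ V := fun V hV z hz => hV z (hΓW hz)
  refine ⟨fun hM hind hmany => ?_, fun hM hind hmany => ?_⟩
  · obtain ⟨D, hD⟩ := exists_places (k := k) (L := (min (m + 2) n).choose 2 + 1) W hW α
    refine (hmany D).subset ?_
    rintro t ⟨htd, ht⟩
    refine ⟨htd, ?_⟩
    rintro ⟨f, hf, F, hF, hFt, hp⟩
    obtain ⟨t', rfl⟩ := hk t htd
    apply ht
    intro r Z
    have hpt : ∀ x ∈ scaledImage (algebraMap k ℂ t') G A B R c ∩ Z.locus, ∀ S : Finset (Fin n),
        AlgebraicIndependent K (fun i : S => x i) → S.card + n ≤ r + m := by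
      rintro x ⟨⟨y, hy, s, hxy⟩, hxZ⟩ S hS
      have hSk : AlgebraicIndependent k (fun i : S => x i) := hS.extendScalars k
      choose V hV1 hVW hVx using hD t' f F hF hFt hp S _ hSk
      obtain ⟨h1, h2, h3, h4⟩ := hdata t' r Z x s y hxZ hy hxy
      refine coreW (m := m) (T := T) le_rfl (fun i => (R i).map φ) hRk hTk
        (fun l i => (φ (c i)).rootMultiplicity ((α (f l) : ℚ) : k))
        (fun l i => by
          rw [hmult]
          exact hce (f l) i)
        (fun l l' hll i j hij q hq hqT => by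
          rw [hmult, hmult, hmult, hmult]
          exact hind.2 (f l) (f l') (fun h => hll (hf h)) i j hij q hq hqT)
        Z.cls (fun i i' => ((Z.mat i).det * (Z.mat i').det).toNat) x s
        (fun i i' => by
          have := mul_pos (Z.det_pos i) (Z.det_pos i')
          omega)
        (fun i hi => alg_of_int Γ' (h1 i hi)) (fun i j l hi hj => rel_of_locus Z hxZ i j l hi hj)
        h2 S hSk V
        (fun l => (V l).valuation (algebraMap k ℂ (t' - ((α (f l) : ℚ) : k)))) hV1
        (fun l i hi => v_le_of_int Γ' (V l) (hΓV _ (hVW l)) (h1 i hi))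
        (fun l => (hnear (V l) (hVW l)).1) hVx
        (fun l => (hnear (V l) (hVW l)).2 (f l) t' (hV1 l) s y hy.1 h3 h4)
    refine ⟨?_, hpt⟩
    intro A' hA' hcl' hprime
    obtain ⟨x, hxW, T', hT', hdim⟩ := Pool.Agent.W466.ZC.generic_dim K A' hprime hcl'
    have h2 := hpt x (hA' hxW) T' hT'
    calc zdim A' + (n : Cardinal) ≤ (T'.card : Cardinal) + (n : Cardinal) := by gcongr
      _ = ((T'.card + n : ℕ) : Cardinal) := by push_cast; rfl
      _ ≤ ((r + m : ℕ) : Cardinal) := by exact_mod_cast h2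
      _ = (r : Cardinal) + (m : Cardinal) := by push_cast; rfl
  · obtain ⟨D, hD⟩ := exists_places (k := k) (L := m + 2) W hW α
    refine (hmany D).subset ?_
    rintro t ⟨htd, ht⟩
    refine ⟨htd, ?_⟩
    rintro ⟨f, hf, F, hF, hFt, hp⟩
    obtain ⟨t', rfl⟩ := hk t htd
    apply ht
    intro r Z
    have hpt : ∀ x ∈ scaledImage (algebraMap k ℂ t') G A B R c ∩ Z.locus, ∀ S : Finset (Fin n),
        AlgebraicIndependent K (fun i : S => x i) → S.card + n ≤ r + m := by
      rintro x ⟨⟨y, hy, s, hxy⟩, hxZ⟩ S hS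
      have hSk : AlgebraicIndependent k (fun i : S => x i) := hS.extendScalars k
      choose V hV1 hVW hVx using hD t' f F hF hFt hp S _ hSk
      obtain ⟨h1, h2, h3, h4⟩ := hdata t' r Z x s y hxZ hy hxy
      refine coreS (m := m) (T := T) le_rfl (fun i => (R i).map φ) hRk hTk
        (fun l i => (φ (c i)).rootMultiplicity ((α (f l) : ℚ) : k))
        (fun l i => by
          rw [hmult]
          exact hce (f l) i)
        (by
          simp only [hmult]
          exact hind.comp f hf)
        Z.cls (fun i => (Z.mat i).det.toNat) x s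
        (fun i => by
          have := Z.det_pos i
          omega)
        (fun i hi => alg_of_int Γ' (h1 i hi)) (fun i j l hi hj => by
          have h5 := rel_of_locus Z hxZ i j l hi hj
          have h6 : ((Z.mat i).det * (Z.mat j).det).toNat =
              (Z.mat i).det.toNat * (Z.mat j).det.toNat := by
            have h7 := Z.det_pos i
            have h8 := Z.det_pos j
            zify
            rw [Int.toNat_of_nonneg (mul_pos h7 h8).le, Int.toNat_of_nonneg h7.le,
              Int.toNat_of_nonneg h8.le]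
          rw [h6] at h5
          exact h5)
        h2 S hSk V
        (fun l => (V l).valuation (algebraMap k ℂ (t' - ((α (f l) : ℚ) : k)))) hV1
        (fun l i hi => v_le_of_int Γ' (V l) (hΓV _ (hVW l)) (h1 i hi))
        (fun l => (hnear (V l) (hVW l)).1) hVx
        (fun l => (hnear (V l) (hVW l)).2 (f l) t' (hV1 l) s y hy.1 h3 h4)
    refine ⟨?_, hpt⟩
    intro A' hA' hcl' hprime
    obtain ⟨x, hxW, T', hT', hdim⟩ := Pool.Agent.W466.ZC.generic_dim K A' hprime hcl'
    have h2 := hpt x (hA' hxW) T' hT'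
    calc zdim A' + (n : Cardinal) ≤ (T'.card : Cardinal) + (n : Cardinal) := by gcongr
      _ = ((T'.card + n : ℕ) : Cardinal) := by push_cast; rfl
      _ ≤ ((r + m : ℕ) : Cardinal) := by exact_mod_cast h2
      _ = (r : Cardinal) + (m : Cardinal) := by push_cast; rfl

end Pool.Agent.X295
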