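import Pool.Agent.Y152.RP.MixCore
import Pool.Agent.X295.Strong
import Pool.Agent.X295.FamT

/-!
The combinatorial core in products of modular curves and tori with numbers of places which do not depend
on the number of the modular curves (helper file).
-/

set_option autoImplicit false

open Function UpperHalfPlane H294ZP MvPolynomial Pool.Agent.W466.ZC Pool.Agent.TH526.ZL

namespace Pool.Agent.X295

/-- The number of the places which can be used up by the torus. -/
def torusPlaces (k m : ℕ) : ℕ := (Finset.range (m + 1)).sup fun s => (k - 1 - s) * k.choose s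

/-- All square minors of the matrix are different from zero (in the form: for each set `J` of columns
and each set `s` of at least `|J|` rows, a vector supported on `J` which is orthogonal to the rows in
`s` is zero). -/
def MinorsNonzero {L k : ℕ} (e : Fin L → Fin k → ℕ) : Prop :=
  ∀ (s : Finset (Fin L)) (J : Finset (Fin k)) (b : Fin k → ℤ), J.card ≤ s.card →
    (∀ j, j ∉ J → b j = 0) → (∀ l ∈ s, ∑ j, b j * (e l j : ℤ) = 0) → b = 0

/-- The places which see a relation in the torus. -/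
theorem torus_count {L k m : ℕ} (e : Fin L → Fin k → ℕ) (hmin : MinorsNonzero e)
    (M' : Submodule ℤ (Fin k → ℤ)) (F : Finset (Fin L)) (Y : Fin L → Finset (Fin k))
    (hY : ∀ l ∈ F, (Y l)ᶜ.card ≤ m) (hbig : ∀ l ∈ F, k < Module.finrank ℤ M' + (Y l).card)
    (horth : ∀ l ∈ F, ∀ a ∈ M', (∀ j, j ∉ Y l → a j = 0) → ∑ j, a j * (e l j : ℤ) = 0) :
    F.card ≤ torusPlaces k m := by
  classical
  by_cases hF : F = ∅
  · rw [hF, Finset.card_empty]
    exact Nat.zero_le _
  obtain ⟨l₀, hl₀⟩ := Finset.nonempty_iff_ne_empty.2 hF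
  set ρ := Module.finrank ℤ M' with hρ
  have hYc : ∀ l, (Y l).card + (Y l)ᶜ.card = k := by
    intro l
    rw [Finset.card_add_card_compl, Fintype.card_fin]
  have hρ1 : 1 ≤ ρ := by
    have h1 := hbig l₀ hl₀
    have h2 := hYc l₀
    omega
  have hρk : ρ ≤ k := by
    have h1 := Submodule.finrank_le M'
    rwa [Module.finrank_fin_fun] at h1
  set s := min m (ρ - 1) with hs
  -- enlarge the complements to sets of `s` elements
  have hZ : ∀ l, ∃ Z : Finset (Fin k), l ∈ F → (Y l)ᶜ ⊆ Z ∧ Z.card = s := by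
    intro l
    by_cases hl : l ∈ F
    · have h1 := hbig l hl
      have h2 := hYc l
      have h3 := hY l hl
      obtain ⟨Z, hZ1, hZ2⟩ := Finset.exists_superset_card_eq (s := (Y l)ᶜ) (n := s)
        (by omega) (by rw [Fintype.card_fin]; omega)
      exact ⟨Z, fun _ => ⟨hZ1, hZ2⟩⟩
    · exact ⟨∅, fun h => absurd h hl⟩
  choose Z hZ using hZ
  refine le_trans ?_ (Finset.le_sup (f := fun s => (k - 1 - s) * k.choose s)
    (Finset.mem_range.2 (Nat.lt_succ_of_le (Nat.min_le_left m (ρ - 1)))))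
  by_contra hlt
  push Not at hlt
  change (k - 1 - s) * k.choose s < F.card at hlt
  obtain ⟨Z₀, hZ₀, hcard⟩ := Finset.exists_lt_card_fiber_of_mul_lt_card_of_maps_to (s := F)
    (t := Finset.powersetCard s (Finset.univ : Finset (Fin k))) (f := Z) (n := k - 1 - s)
    (fun l hl => Finset.mem_powersetCard.2 ⟨Finset.subset_univ _, (hZ l hl).2⟩) (by
      rw [Finset.card_powersetCard, Finset.card_univ, Fintype.card_fin, mul_comm]
      exact hlt)
  have hZ₀c : Z₀.card = s := (Finset.mem_powersetCard.1 hZ₀).2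
  have hJ : Z₀ᶜ.card = k - s := by
    rw [Finset.card_compl, Fintype.card_fin, hZ₀c]
  obtain ⟨a, haM, ha0, haZ⟩ := W282.ZP.exists_supported M' Z₀ᶜ (by
    rw [hJ]
    omega)
  refine ha0 (hmin (F.filter fun l => Z l = Z₀) Z₀ᶜ a (by
    rw [hJ]
    omega) haZ fun l hl => ?_)
  rw [Finset.mem_filter] at hl
  refine horth l hl.1 a haM fun j hj => haZ j ?_
  rw [Finset.mem_compl, not_not]
  rw [← hl.2]
  exact (hZ l hl.1).1 (Finset.mem_compl.2 hj)


/-- The combinatorial core in products of modular curves and tori. -/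
theorem coreMX {Λ : Type} [CommRing Λ] [IsDomain Λ] [Algebra Λ ℂ] {F : Type} [Field F]
    [Algebra F ℂ] {n k m T L : ℕ}
    (R : Fin n → Polynomial (Polynomial Λ)) (hR : ∀ i, (R i).Monic)
    (hT : ∀ i u w, ((R i).coeff u).coeff w ≠ 0 → u ≤ T ∧ w ≤ T)
    (e : Fin L → Fin n ⊕ Fin k → ℕ) (he : ∀ l i, 0 < e l i)
    (hL : (m + 1 + max 1 (torusPlaces k m) ≤ L ∧ StrongQ T fun l i => e l (Sum.inl i)) ∨
      ((min (m + 2) n).choose 2 + torusPlaces k m + 1 ≤ L ∧
        ∀ l l', l ≠ l' → ∀ i j : Fin n, i ≠ j → ∀ q, 0 < q → q ≤ T ^ 8 →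
        ¬ IsSquare (q * (e l (Sum.inl i) * e l (Sum.inl j) *
          (e l' (Sum.inl i) * e l' (Sum.inl j))))))
    (hmin : MinorsNonzero fun l j => e l (Sum.inr j))
    {r : ℕ} (cls : Fin n → Option (Fin r)) (Dt : Fin n → ℕ) (x : Fin n ⊕ Fin k → ℂ)
    (s : Fin n → ℂ) (M : Submodule ℤ (Fin k → ℤ)) (η : Fin k → ℂ)
    (hQ : ∀ i, 0 < Dt i)
    (hconst : ∀ i, cls i = none → IsAlgebraic Λ (x (Sum.inl i)))
    (hrel : ∀ i j l, cls i = some l → cls j = some l →
        IsIntegral (Algebra.adjoin ℤ {x (Sum.inl i)}) (x (Sum.inl j)) ∧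
        Polynomial.eval₂ (Polynomial.aeval (x (Sum.inl i)) : Polynomial ℂ →ₐ[ℂ] ℂ).toRingHom
          (x (Sum.inl j)) (W282.ZP.Psi (Dt i * Dt j)) = 0)
    (hRs : ∀ i, Polynomial.eval₂
      (Polynomial.aeval (x (Sum.inl i)) : Polynomial Λ →ₐ[Λ] ℂ).toRingHom (s i) (R i) = 0)
    (hx0 : ∀ j, x (Sum.inr j) ≠ 0) (hηF : ∀ j, ∃ u : F, η j = algebraMap F ℂ u)
    (hM : ∀ a ∈ M, W282.ZP.chi (fun j => x (Sum.inr j)) a = W282.ZP.chi η a)
    (S : Finset (Fin n ⊕ Fin k)) (hS : AlgebraicIndependent Λ (fun i : S => x i))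
    (hSF : AlgebraicIndependent F (fun i : S => x i))
    (V : Fin L → ValuationSubring ℂ) (g : ∀ l, (V l).ValueGroup)
    (hg0 : ∀ l, g l ≠ 0) (hg : ∀ l, g l < 1)
    (hVc : ∀ l i, cls i = none → (V l).valuation (x (Sum.inl i)) ≤ 1)
    (hVR : ∀ l i u w, ((R i).coeff u).coeff w ≠ 0 →
      (V l).valuation (algebraMap Λ ℂ (((R i).coeff u).coeff w)) = 1)
    (hVx : ∀ l (i : S), (V l).valuation (x i) = 1)
    (hVη : ∀ l j, (V l).valuation (η j) = 1)
    (hgood : ∀ l, ∃ E : Finset (Fin n ⊕ Fin k), E.card ≤ m ∧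
      (∀ i, Sum.inl i ∉ E → (V l).valuation (s i) * g l ^ e l (Sum.inl i) = 1) ∧
      ∀ j, Sum.inr j ∉ E → (V l).valuation (x (Sum.inr j)) * g l ^ e l (Sum.inr j) = 1) :
    S.card + n + Module.finrank ℤ M ≤ r + m := by
  classical
  -- the two parts of `S`
  let U : Finset (Fin n) := S.toLeft
  let T' : Finset (Fin k) := S.toRight
  have hScard : U.card + T'.card = S.card := S.card_toLeft_add_card_toRight
  -- the lattice of relations, enlarged by the independent torus coordinates
  set xt : Fin k → ℂ := fun j => x (Sum.inr j) with hxt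
  have hT' : AlgebraicIndependent F (fun j : T' => xt j) := by
    have h1 := hSF.comp (fun j : T' => (⟨Sum.inr (j : Fin k), Finset.mem_toRight.1 j.2⟩ : S))
      (by
        intro j j' h
        have h1 := Sum.inr_injective (congrArg Subtype.val h)
        exact Subtype.ext h1)
    exact h1
  have hU' : AlgebraicIndependent Λ (fun i : U => x (Sum.inl i)) := by
    have h1 := hS.comp (fun i : U => (⟨Sum.inl (i : Fin n), Finset.mem_toLeft.1 i.2⟩ : S))
      (by
        intro j j' h
        have h1 := Sum.inl_injective (congrArg Subtype.val h)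
        exact Subtype.ext h1)
    exact h1
  let M' : Submodule ℤ (Fin k → ℤ) :=
    M ⊔ Submodule.span ℤ ((fun j => Pi.single j (1 : ℤ)) '' (T' : Set (Fin k)))
  have hfin : Module.finrank ℤ M + T'.card ≤ Module.finrank ℤ M' := by
    refine W282.ZP.finrank_add_card' xt hx0 T' hT' M ?_ M' le_sup_left ?_
    · intro a ha
      choose u hu using hηF
      refine ⟨∏ j, u j ^ a j, ?_⟩
      rw [hM a ha, W282.ZP.chi, map_prod]
      refine Finset.prod_congr rfl fun j _ => ?_
      rw [map_zpow₀, hu]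
    · intro j hj
      exact Submodule.mem_sup_right (Submodule.subset_span ⟨j, hj, rfl⟩)
  have hv0 : ∀ l i, (V l).valuation (xt i) ≠ 0 := fun l i => (Valuation.ne_zero_iff _).2 (hx0 i)
  have hle : ∀ l, M' ≤ W282.ZP.oneLat (fun i => (V l).valuation (xt i)) (hv0 l) := by
    intro l
    refine sup_le ?_ (Submodule.span_le.2 ?_)
    · intro b hb
      change W282.ZP.chi (fun i => (V l).valuation (xt i)) b = 1
      have h1 : W282.ZP.chi (fun i => (V l).valuation (xt i)) b =
          (V l).valuation (W282.ZP.chi xt b) := by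
        simp [W282.ZP.chi]
      rw [h1, hM b hb]
      simp only [W282.ZP.chi, map_prod, map_zpow₀, hVη l, one_zpow, Finset.prod_const_one]
    · rintro _ ⟨j, hj, rfl⟩
      change W282.ZP.chi (fun i => (V l).valuation (xt i)) (Pi.single j (1 : ℤ)) = 1
      rw [W282.ZP.chi_single]
      exact hVx l ⟨Sum.inr j, Finset.mem_toRight.1 hj⟩
  choose E hE hEg hEt using hgood
  set ρ := Module.finrank ℤ M' with hρ
  let Y : Fin L → Finset (Fin k) := fun l => (E l)ᶜ.toRight
  have hYm : ∀ l j, j ∈ Y l ↔ Sum.inr j ∉ E l := fun l j => by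
    rw [Finset.mem_toRight, Finset.mem_compl]
  have hYc : ∀ l, (Y l)ᶜ = (E l).toRight := by
    intro l
    ext j
    rw [Finset.mem_compl, hYm, not_not, Finset.mem_toRight]
  have hYcard : ∀ l, (Y l).card + (E l).toRight.card = k := by
    intro l
    rw [← hYc, Finset.card_add_card_compl, Fintype.card_fin]
  have hEcard : ∀ l, (E l).toLeft.card + (E l).toRight.card = (E l).card := fun l =>
    (E l).card_toLeft_add_card_toRight
  let FT : Finset (Fin L) := Finset.univ.filter fun l => k < ρ + (Y l).card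
  have hFT : FT.card ≤ torusPlaces k m := by
    refine torus_count (fun l j => e l (Sum.inr j)) hmin M' FT Y (fun l _ => ?_) (fun l hl => ?_)
      (fun l _ a ha haY => ?_)
    · rw [hYc]
      have := hE l
      have := hEcard l
      omega
    · exact (Finset.mem_filter.1 hl).2
    · exact rel_of_polar' (V l) (hg l) (hg0 l) (x := xt) (e := fun j => e l (Sum.inr j))
        (fun j hj => hEt l j ((hYm l j).1 hj)) haY (hle l ha)
  have hFM : FTᶜ.card + FT.card = L := by
    rw [Finset.card_compl_add_card, Fintype.card_fin]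
  have hρm : FTᶜ.Nonempty → ρ ≤ m := by
    rintro ⟨l, hl⟩
    have h1 : ¬ k < ρ + (Y l).card := fun h =>
      (Finset.mem_compl.1 hl) (Finset.mem_filter.2 ⟨Finset.mem_univ _, h⟩)
    have h2 := hYcard l
    have h3 := hEcard l
    have h4 := hE l
    omega
  have hFTne : FT.card ≠ 0 → 1 ≤ ρ := by
    intro h0
    obtain ⟨l, hl⟩ := Finset.card_pos.1 (Nat.pos_of_ne_zero h0)
    have h1 := (Finset.mem_filter.1 hl).2
    have h2 := hYcard l
    omega
  let f : Fin FTᶜ.card → Fin L := FTᶜ.orderEmbOfFin rfl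
  have hf : Function.Injective f := (FTᶜ.orderEmbOfFin rfl).injective
  have hfm : ∀ l, f l ∈ FTᶜ := fun l => Finset.orderEmbOfFin_mem _ _ l
  have hfl : ∀ l, (E (f l)).toLeft.card ≤ m - ρ := by
    intro l
    have h1 : ¬ k < ρ + (Y (f l)).card := fun h =>
      (Finset.mem_compl.1 (hfm l)) (Finset.mem_filter.2 ⟨Finset.mem_univ _, h⟩)
    have h2 := hYcard (f l)
    have h3 := hEcard (f l)
    have h4 := hE (f l)
    omega
  have hpos : 0 < FTᶜ.card := by
    rcases hL with ⟨hL, -⟩ | ⟨hL, -⟩ <;> omega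
  have hρm' := hρm (Finset.card_pos.1 hpos)
  have hgoodf : ∀ l, ∃ E' : Finset (Fin n), E'.card ≤ m - ρ ∧ ∀ i, i ∉ E' →
      (V (f l)).valuation (s i) * g (f l) ^ e (f l) (Sum.inl i) = 1 := fun l =>
    ⟨(E (f l)).toLeft, hfl l, fun i hi => hEg (f l) i fun h => hi (Finset.mem_toLeft.2 h)⟩
  have hmain : U.card + n ≤ r + (m - ρ) := by
    rcases hL with ⟨hL, hsq⟩ | ⟨hL, hsq⟩
    · have hL' : m - ρ + 2 ≤ FTᶜ.card := by
        by_cases h0 : FT.card = 0
        · omega
        · have := hFTne h0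
          omega
      exact coreS (L := FTᶜ.card) hL' R hR hT (fun l i => e (f l) (Sum.inl i)) (fun l i => he _ _)
        (hsq.comp f hf) cls Dt (fun i => x (Sum.inl i)) s hQ hconst hrel hRs U hU'
        (fun l => V (f l)) (fun l => g (f l)) (fun l => hg _) (fun l => hVc _) (fun l => hVR _)
        (fun l i => (ValuationSubring.valuation_le_one_iff _ _).1
          (hVx (f l) ⟨Sum.inl (i : Fin n), Finset.mem_toLeft.1 i.2⟩).le) hgoodf
    · have hmono : (min (m - ρ + 2) n).choose 2 ≤ (min (m + 2) n).choose 2 :=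
        Nat.choose_le_choose 2 (by omega)
      exact coreW (L := FTᶜ.card) (by omega) R hR hT (fun l i => e (f l) (Sum.inl i))
        (fun l i => he _ _)
        (fun l l' hll i j hij q hq hqT => hsq (f l) (f l') (fun h => hll (hf h)) i j hij q hq hqT)
        cls (fun i j => Dt i * Dt j) (fun i => x (Sum.inl i)) s
        (fun i j => Nat.mul_pos (hQ i) (hQ j)) hconst hrel hRs U hU'
        (fun l => V (f l)) (fun l => g (f l)) (fun l => hg _) (fun l => hVc _) (fun l => hVR _)
        (fun l i => (ValuationSubring.valuation_le_one_iff _ _).1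
          (hVx (f l) ⟨Sum.inl (i : Fin n), Finset.mem_toLeft.1 i.2⟩).le) hgoodf
  omega

end Pool.Agent.X295
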