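import Pool.Agent.X295.NearM2
import Pool.Agent.Y152.RP.PlaceM

/-!
Families with several parameters of subsets of products of modular curves and tori: the data at the
places near to the degenerate divisors (helper file, the version of `NearM`, `NearM2` for coordinates
indexed by an arbitrary finite type).
-/

set_option autoImplicit false

open Function UpperHalfPlane H294ZP MvPolynomial Pool.Agent.W466.ZC Pool.Agent.TH526.ZL

namespace Pool.Agent.X295

variable {k : Type} [Field k] [Algebra k ℂ] {q : ℕ}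

/-- Good valuation rings near to a divisor at one point of which the divisors of the `A i / B i` are in
general position. -/
theorem goodVMI [IsAlgClosed k] {σ : Type} [Fintype σ] {κ : Type} [Finite κ]
    {ι : Type} [Fintype ι] [DecidableEq ι] {m : ℕ} (G : κ → MvPolynomial σ (MvPolynomial (Fin q) k))
    (hhom : ∀ i, ∃ e, (G i).IsHomogeneous e)
    (A B : ι → MvPolynomial σ (MvPolynomial (Fin q) k)) (d : ι → ℕ)
    (hA : ∀ i, (A i).IsHomogeneous (d i)) (hB : ∀ i, (B i).IsHomogeneous (d i))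
    (a : Fin q → k)
    (hdis : ∀ I : Finset ι, I.card = m + 1 → ∀ y : σ → ℂ,
      (∀ i, aeval y (specM a (G i)) = 0) →
      (∀ i ∈ I, aeval y (specM a (A i)) * aeval y (specM a (B i)) = 0) → y = 0) :
    ∃ (δ : {I : Finset ι // I.card = m + 1} → MvPolynomial (Fin q) k),
      (∀ I, eval a (δ I) ≠ 0) ∧ ∃ W : Set k, W.Finite ∧ ∀ V : ValuationSubring ℂ,
      (∀ z ∈ W, algebraMap k ℂ z ∈ V) → ∀ τ : Fin q → k, (∀ i, algebraMap k ℂ (τ i) ∈ V) →
      (∀ I, V.valuation (algebraMap k ℂ (eval τ (δ I))) = 1) →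
      ∀ y : σ → ℂ, y ≠ 0 → (∀ i, aeval y (specM τ (G i)) = 0) →
        ∃ c : ℂ, c ≠ 0 ∧ (∀ i, aeval (c • y) (specM τ (A i)) ∈ V ∧
          aeval (c • y) (specM τ (B i)) ∈ V) ∧
          ∀ I : Finset ι, I.card = m + 1 → ∃ i ∈ I,
            V.valuation (aeval (c • y) (specM τ (A i)) * aeval (c • y) (specM τ (B i))) = 1 := by
  classical
  have := Fintype.ofFinite κ
  choose eG heG using hhom
  let F : ∀ I : {I : Finset ι // I.card = m + 1}, κ ⊕ I.1 →
      MvPolynomial σ (MvPolynomial (Fin q) k) :=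
    fun I b => Sum.elim (fun i => G i) (fun i : I.1 => A i * B i) b
  have hFhom : ∀ I b, (F I b).IsHomogeneous (Sum.elim eG (fun i : I.1 => d i + d i) b) := by
    intro I b
    rcases b with i | i
    · exact heG i
    · exact (hA i).mul (hB i)
  have hcert : ∀ I : {I : Finset ι // I.card = m + 1}, ∃ (D : ℕ)
      (δ : MvPolynomial (Fin q) k), eval a δ ≠ 0 ∧ ∃ U : σ → κ ⊕ I.1 →
      MvPolynomial σ (MvPolynomial (Fin q) k), ∀ j,
        C δ * (X j : MvPolynomial σ (MvPolynomial (Fin q) k)) ^ D = ∑ b, U j b * F I b := by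
    intro I
    obtain ⟨M', hM'⟩ := cert0 (k := k) (fun b => specM a (F I b)) (fun y hb =>
      hdis I.1 I.2 y (fun i => hb (Sum.inl i)) fun i hi => by
        have := hb (Sum.inr ⟨i, hi⟩)
        simp only [F, Sum.elim_inr] at this
        rwa [map_mul, map_mul] at this)
    obtain ⟨D, δ, hδ, hmem⟩ := certM (F I) _ (hFhom I) a hM'
    refine ⟨D, δ, hδ, ?_⟩
    choose U hU using fun j => (Ideal.mem_span_range_iff_exists_fun).1 (hmem j)
    exact ⟨U, fun j => (hU j).symm⟩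
  choose D δ hδ U hU using hcert
  let W : Set k := (⋃ r : {I : Finset ι // I.card = m + 1} × σ,
      ⋃ b : κ ⊕ r.1.1, coefsM (U r.1 r.2 b)) ∪
    ((⋃ i, coefsM (A i)) ∪ ((⋃ i, coefsM (B i)) ∪ (⋃ i, coefsM (G i))))
  have hWfin : W.Finite := by
    refine Set.Finite.union (Set.finite_iUnion fun q => Set.finite_iUnion fun b =>
      coefsM_finite _) (Set.Finite.union (Set.finite_iUnion fun i => coefsM_finite _)
      (Set.Finite.union (Set.finite_iUnion fun i => coefsM_finite _)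
      (Set.finite_iUnion fun i => coefsM_finite _)))
  refine ⟨δ, hδ, W, hWfin, fun V hW => ?_⟩
  intro τ hτV hδτ y hy0 hyG
  have hUV : ∀ I j b u w, algebraMap k ℂ (((U I j b).coeff u).coeff w) ∈ V := by
    intro I j b
    refine coefsM_mem V fun z hz => hW z (Or.inl (Set.mem_iUnion.2 ⟨(I, j),
      Set.mem_iUnion.2 ⟨b, hz⟩⟩))
  have hAV : ∀ i u j, algebraMap k ℂ (((A i).coeff u).coeff j) ∈ V := fun i =>
    coefsM_mem V fun z hz => hW z (Or.inr (Or.inl (Set.mem_iUnion.2 ⟨i, hz⟩)))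
  have hBV : ∀ i u j, algebraMap k ℂ (((B i).coeff u).coeff j) ∈ V := fun i =>
    coefsM_mem V fun z hz => hW z (Or.inr (Or.inr (Or.inl (Set.mem_iUnion.2 ⟨i, hz⟩))))
  set v := V.valuation with hv
  have hne : (Finset.univ : Finset σ).Nonempty := by
    by_contra h
    rw [Finset.not_nonempty_iff_eq_empty, Finset.univ_eq_empty_iff] at h
    exact hy0 (funext fun j => (h.false j).elim)
  obtain ⟨j0, -, hj0⟩ := Finset.exists_max_image Finset.univ (fun j => v (y j)) hne
  have hyj0 : y j0 ≠ 0 := by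
    intro h
    apply hy0
    funext j
    have h1 := hj0 j (Finset.mem_univ j)
    simp only [h, map_zero, le_zero_iff] at h1
    exact (map_eq_zero v).1 h1
  set z := (y j0)⁻¹ • y with hz
  have hzV : ∀ j, z j ∈ V := by
    intro j
    rw [← ValuationSubring.valuation_le_one_iff, hz, Pi.smul_apply, smul_eq_mul, map_mul, map_inv₀]
    have h1 := hj0 j (Finset.mem_univ j)
    have h2 : v (y j0) ≠ 0 := (map_ne_zero v).2 hyj0
    calc (v (y j0))⁻¹ * v (y j) ≤ (v (y j0))⁻¹ * v (y j0) := mul_le_mul_right h1 _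
      _ = 1 := inv_mul_cancel₀ h2
  have hzG : ∀ i, aeval z (specM τ (G i)) = 0 := by
    intro i
    rw [hz, specM_smul (heG i), hyG i, mul_zero]
  refine ⟨(y j0)⁻¹, inv_ne_zero hyj0, fun i => ⟨aeval_specM_mem V _ (hAV i) hτV hzV,
    aeval_specM_mem V _ (hBV i) hτV hzV⟩, ?_⟩
  intro I hI
  by_contra hcon
  push Not at hcon
  have hlt : ∀ i ∈ I, v (aeval z (specM τ (A i)) * aeval z (specM τ (B i))) < 1 := by
    intro i hi
    refine lt_of_le_of_ne ?_ (hcon i hi)
    rw [ValuationSubring.valuation_le_one_iff]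
    exact mul_mem (aeval_specM_mem V _ (hAV i) hτV hzV) (aeval_specM_mem V _ (hBV i) hτV hzV)
  have h1 := congrArg (fun P => aeval z (specM τ P)) (hU ⟨I, hI⟩ j0)
  have h2 : z j0 = 1 := by
    rw [hz, Pi.smul_apply, smul_eq_mul, inv_mul_cancel₀ hyj0]
  have hL : aeval z (specM τ (C (δ ⟨I, hI⟩) *
      (X j0 : MvPolynomial σ (MvPolynomial (Fin q) k)) ^ D ⟨I, hI⟩)) =
      algebraMap k ℂ (eval τ (δ ⟨I, hI⟩)) := by
    rw [map_mul, map_mul, map_pow, map_pow]
    have e1 : specM (σ := σ) τ (C (δ ⟨I, hI⟩)) = C (eval τ (δ ⟨I, hI⟩)) := by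
      rw [specM, MvPolynomial.map_C]
    have e2 : specM (σ := σ) τ (X j0) = X j0 := by
      rw [specM, MvPolynomial.map_X]
    rw [e1, e2, aeval_C, aeval_X, h2, one_pow, mul_one]
  simp only at h1
  rw [hL, map_sum, map_sum] at h1
  have h3 : v (∑ b, aeval z (specM τ (U ⟨I, hI⟩ j0 b * F ⟨I, hI⟩ b))) < 1 := by
    refine Valuation.map_sum_lt _ one_ne_zero fun b _ => ?_
    rw [map_mul, map_mul, map_mul]
    refine (mul_le_of_le_one_left' ((ValuationSubring.valuation_le_one_iff _ _).2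
      (aeval_specM_mem V _ (hUV ⟨I, hI⟩ j0 b) hτV hzV))).trans_lt ?_
    rcases b with i | i
    · simp only [F, Sum.elim_inl, hzG i, map_zero]
      exact zero_lt_one
    · simp only [F, Sum.elim_inr, map_mul (specM τ), map_mul (aeval z)]
      exact hlt i i.2
  rw [← h1, hδτ ⟨I, hI⟩] at h3
  exact lt_irrefl _ h3

/-- The data at the places near to the degenerate divisors. -/
theorem nearVMI [IsAlgClosed k] [CharZero k] [Algebra.IsAlgebraic ℚ k] {κ : Type} [Finite κ]
    {ι : Type} [Fintype ι] [DecidableEq ι] {N n m M : ℕ} (G : κ → MvPolynomial (Fin (N + 1)) (MvPolynomial (Fin q) k))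
    (hG : ∀ i, ∃ e, (G i).IsHomogeneous e)
    (A B : ι → MvPolynomial (Fin (N + 1)) (MvPolynomial (Fin q) k)) (d : ι → ℕ)
    (hA : ∀ i, (A i).IsHomogeneous (d i)) (hB : ∀ i, (B i).IsHomogeneous (d i))
    (R : Fin n → Polynomial (Polynomial k)) (h : Fin M → MvPolynomial (Fin q) ℤ)
    (hp : ∀ l, Prime (MvPolynomial.map (Int.castRingHom k) (h l)))
    (c : ι → MvPolynomial (Fin q) k) (e : Fin M → ι → ℕ)
    (g : Fin M → ι → MvPolynomial (Fin q) k)
    (hc : ∀ l i, c i = MvPolynomial.map (Int.castRingHom k) (h l) ^ e l i * g l i)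
    (hg : ∀ l i, ¬ MvPolynomial.map (Int.castRingHom k) (h l) ∣ g l i)
    (a : Fin M → Fin q → k)
    (ha : ∀ l, eval (a l) (MvPolynomial.map (Int.castRingHom k) (h l)) = 0)
    (hdis : ∀ l, ∀ I : Finset ι, I.card = m + 1 → ∀ y : Fin (N + 1) → ℂ,
      (∀ i, aeval y (specM (a l) (G i)) = 0) →
      (∀ i ∈ I, aeval y (specM (a l) (A i)) * aeval y (specM (a l) (B i)) = 0) → y = 0)
    (Γ : Set k) (hΓ : Γ.Finite) (j0 : Fin M → Fin q) :
    ∃ ρ : ∀ l, MvPolynomial {j : Fin q // j ≠ j0 l} ℤ, (∀ l, ρ l ≠ 0) ∧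
      ∃ W : Set k, W.Finite ∧ Γ ⊆ W ∧ ∀ V : ValuationSubring ℂ,
      (∀ z ∈ W, algebraMap k ℂ z ∈ V) →
      (∀ i u w, ((R i).coeff u).coeff w ≠ 0 →
        V.valuation (algebraMap k ℂ (((R i).coeff u).coeff w)) = 1) ∧
      ∀ (l : Fin M) (τ : Fin q → ℤ), V.valuation ((eval τ (h l) : ℤ) : ℂ) < 1 →
      V.valuation ((eval τ (rename Subtype.val (ρ l)) : ℤ) : ℂ) = 1 →
      ∀ (s : ι → ℂ) (y : Fin (N + 1) → ℂ), y ≠ 0 →
      (∀ i, aeval y (specM (fun j => ((τ j : ℤ) : k)) (G i)) = 0) →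
      (∀ i, algebraMap k ℂ (eval (fun j => ((τ j : ℤ) : k)) (c i)) *
        aeval y (specM (fun j => ((τ j : ℤ) : k)) (B i)) * s i =
          aeval y (specM (fun j => ((τ j : ℤ) : k)) (A i))) →
      ∃ E : Finset ι, E.card ≤ m ∧ ∀ i, i ∉ E → V.valuation (s i) *
        V.valuation ((eval τ (h l) : ℤ) : ℂ) ^ e l i = 1 := by
  classical
  choose δ hδ W0 hW0 hgood using fun l => goodVMI (m := m) G hG A B d hA hB (a l) (hdis l)
  let Δ : Fin M → MvPolynomial (Fin q) k := fun l => (∏ I, δ l I) * ∏ i, g l i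
  have hΔ : ∀ l, ¬ MvPolynomial.map (Int.castRingHom k) (h l) ∣ Δ l := by
    intro l hdvd
    rcases (hp l).dvd_or_dvd hdvd with h1 | h1
    · obtain ⟨I, -, hI⟩ := ((hp l).dvd_finsetProd_iff _).1 h1
      apply hδ l I
      obtain ⟨w, hw⟩ := hI
      rw [hw, map_mul, ha l, zero_mul]
    · obtain ⟨i, -, hi⟩ := ((hp l).dvd_finsetProd_iff _).1 h1
      exact hg l i hi
  choose ρ hρ α β hαβ using fun l => elim (h l) (hp l) (Δ l) (hΔ l) (j0 l)
  refine ⟨ρ, hρ, ?_⟩
  let W1 : Set k := ⋃ i, ⋃ u ∈ ((R i).support : Set ℕ), coefs1 ((R i).coeff u)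
  have hW1 : W1.Finite := Set.finite_iUnion fun i =>
      (R i).support.finite_toSet.biUnion fun u _ => coefs1_finite _
  let W2 : Set k := (⋃ l, W0 l) ∪ ((⋃ l, coefsP (α l)) ∪ ((⋃ l, coefsP (β l)) ∪
    ((⋃ l, ⋃ i, coefsP (g l i)) ∪ (⋃ l, ⋃ I, coefsP (δ l I)))))
  have hW2 : W2.Finite := by
    refine (Set.finite_iUnion hW0).union ((Set.finite_iUnion fun l => coefsP_finite _).union
      ((Set.finite_iUnion fun l => coefsP_finite _).union
      ((Set.finite_iUnion fun l => Set.finite_iUnion fun i => coefsP_finite _).union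
      (Set.finite_iUnion fun l => Set.finite_iUnion fun i => coefsP_finite _))))
  let W : Set k := W1 ∪ ((fun z => z⁻¹) '' W1 ∪ (Γ ∪ W2))
  refine ⟨W, hW1.union ((hW1.image _).union (hΓ.union hW2)),
    fun z hz => Or.inr (Or.inr (Or.inl hz)), fun V hV => ?_⟩
  have hW1V : ∀ z ∈ W1, algebraMap k ℂ z ∈ V := fun z hz => hV z (Or.inl hz)
  have hW1V' : ∀ z ∈ W1, algebraMap k ℂ z⁻¹ ∈ V := fun z hz =>
    hV _ (Or.inr (Or.inl ⟨z, hz, rfl⟩))
  have hW2V : ∀ z ∈ W2, algebraMap k ℂ z ∈ V := fun z hz => hV z (Or.inr (Or.inr (Or.inr hz)))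
  refine ⟨fun i u w h0 => ?_, fun l τ hτ1 hτ2 s y hy0 hyG hxy => ?_⟩
  · refine v_unit V hW1V hW1V' (Set.mem_iUnion.2 ⟨i, ?_⟩) h0
    refine Set.mem_biUnion (x := u) ?_ ⟨w, Polynomial.mem_support_iff.2 h0, rfl⟩
    rw [Finset.mem_coe, Polynomial.mem_support_iff]
    intro h1
    rw [h1, Polynomial.coeff_zero] at h0
    exact h0 rfl
  set τ' : Fin q → k := fun j => ((τ j : ℤ) : k) with hτ'
  have hτV : ∀ i, algebraMap k ℂ (τ' i) ∈ V := by
    intro i
    rw [hτ', map_intCast]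
    exact intCast_mem V _
  have hle : ∀ P : MvPolynomial (Fin q) k, (∀ z ∈ coefsP P, algebraMap k ℂ z ∈ V) →
      V.valuation (algebraMap k ℂ (eval τ' P)) ≤ 1 := fun P hP =>
    (ValuationSubring.valuation_le_one_iff _ _).2 (evalM_mem V P (coefsP_mem V hP) hτV)
  have hαV := hle (α l) fun z hz => hW2V z (Or.inr (Or.inl (Set.mem_iUnion.2 ⟨l, hz⟩)))
  have hβV := hle (β l) fun z hz => hW2V z (Or.inr (Or.inr (Or.inl (Set.mem_iUnion.2 ⟨l, hz⟩))))
  have hgV := fun i => hle (g l i) fun z hz => hW2V z (Or.inr (Or.inr (Or.inr (Or.inl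
    (Set.mem_iUnion.2 ⟨l, Set.mem_iUnion.2 ⟨i, hz⟩⟩)))))
  have hδV := fun I => hle (δ l I) fun z hz => hW2V z (Or.inr (Or.inr (Or.inr (Or.inr
    (Set.mem_iUnion.2 ⟨l, Set.mem_iUnion.2 ⟨I, hz⟩⟩)))))
  have hΔle : V.valuation (algebraMap k ℂ (eval τ' (Δ l))) ≤ 1 := by
    show V.valuation (algebraMap k ℂ (eval τ' ((∏ I, δ l I) * ∏ i, g l i))) ≤ 1
    rw [ValuationSubring.valuation_le_one_iff, map_mul, map_prod, map_prod, map_mul, map_prod,
      map_prod]
    exact mul_mem (prod_mem fun I _ => (ValuationSubring.valuation_le_one_iff _ _).1 (hδV I))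
      (prod_mem fun i _ => (ValuationSubring.valuation_le_one_iff _ _).1 (hgV i))
  have hid := congrArg (fun P => algebraMap k ℂ (eval τ' P)) (hαβ l)
  simp only [map_add, map_mul, eval_cast, map_intCast, hτ'] at hid
  have hβΔ : V.valuation (algebraMap k ℂ (eval τ' (β l)) * algebraMap k ℂ (eval τ' (Δ l))) = 1 := by
    refine le_antisymm ?_ ?_
    · rw [map_mul]
      exact mul_le_one' hβV hΔle
    · by_contra hlt
      push Not at hlt
      have h1 : V.valuation (algebraMap k ℂ (eval τ' (α l)) * ((eval τ (h l) : ℤ) : ℂ)) < 1 := by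
        rw [map_mul]
        exact (mul_le_of_le_one_left' hαV).trans_lt hτ1
      have h2 := Valuation.map_add_lt _ h1 hlt
      rw [← hid, hτ2] at h2
      exact lt_irrefl _ h2
  have hΔ1 := (v_mul_one V hβV hΔle hβΔ).2
  have hΔ2 : V.valuation (algebraMap k ℂ (eval τ' (∏ I, δ l I)) *
      algebraMap k ℂ (eval τ' (∏ i, g l i))) = 1 := by
    rw [← hΔ1]
    show _ = V.valuation (algebraMap k ℂ (eval τ' ((∏ I, δ l I) * ∏ i, g l i)))
    rw [map_mul (MvPolynomial.eval τ'), map_mul (algebraMap k ℂ)]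
  have hδle : V.valuation (algebraMap k ℂ (eval τ' (∏ I, δ l I))) ≤ 1 := by
    rw [ValuationSubring.valuation_le_one_iff, map_prod, map_prod]
    exact prod_mem fun I _ => (ValuationSubring.valuation_le_one_iff _ _).1 (hδV I)
  have hgle : V.valuation (algebraMap k ℂ (eval τ' (∏ i, g l i))) ≤ 1 := by
    rw [ValuationSubring.valuation_le_one_iff, map_prod, map_prod]
    exact prod_mem fun I _ => (ValuationSubring.valuation_le_one_iff _ _).1 (hgV I)
  obtain ⟨h3, h4⟩ := v_mul_one V hδle hgle hΔ2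
  rw [map_prod, map_prod] at h3 h4
  have hδ1 : ∀ I, V.valuation (algebraMap k ℂ (eval τ' (δ l I))) = 1 := fun I =>
    v_prod_one V Finset.univ _ (fun I _ => hδV I) h3 I (Finset.mem_univ I)
  have hg1 : ∀ i, V.valuation (algebraMap k ℂ (eval τ' (g l i))) = 1 := fun i =>
    v_prod_one V Finset.univ _ (fun i _ => hgV i) h4 i (Finset.mem_univ i)
  have hcv : ∀ i, V.valuation (algebraMap k ℂ (eval τ' (c i))) =
      V.valuation ((eval τ (h l) : ℤ) : ℂ) ^ e l i := by
    intro i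
    rw [hc l i, map_mul, map_mul, map_mul, hg1 i, mul_one, map_pow, map_pow, map_pow, hτ',
      eval_cast, map_intCast]
  obtain ⟨t, ht0, hAB, hI⟩ := hgood l V (fun z hz => hW2V z (Or.inl (Set.mem_iUnion.2 ⟨l, hz⟩)))
    τ' hτV hδ1 y hy0 hyG
  refine ⟨Finset.univ.filter fun i => ¬ V.valuation (aeval (t • y)
    (specM τ' (A i)) * aeval (t • y) (specM τ' (B i))) = 1, ?_, ?_⟩
  · by_contra h
    push Not at h
    obtain ⟨I, hIE, hIc⟩ := Finset.exists_subset_card_eq (Nat.succ_le_of_lt h)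
    obtain ⟨i, hi, h1⟩ := hI I hIc
    exact (Finset.mem_filter.1 (hIE hi)).2 h1
  · intro i hi
    rw [Finset.mem_filter] at hi
    push Not at hi
    have h1 := hi (Finset.mem_univ i)
    have hA1 := (ValuationSubring.valuation_le_one_iff _ _).2 (hAB i).1
    have hB1 := (ValuationSubring.valuation_le_one_iff _ _).2 (hAB i).2
    obtain ⟨hA2, hB2⟩ := v_mul_one V hA1 hB1 h1
    have h3 : algebraMap k ℂ (eval τ' (c i)) *
        aeval (t • y) (specM τ' (B i)) * s i =
          aeval (t • y) (specM τ' (A i)) := by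
      rw [specM_smul (hA i), specM_smul (hB i), ← hxy i]
      ring
    have h4 := congrArg V.valuation h3
    rw [map_mul, map_mul, hA2, hB2, mul_one, hcv] at h4
    rw [mul_comm]
    exact h4

/-- The places for an integral vector of parameters at which given algebraically independent numbers
are units. -/
theorem exists_val_unit {k : Type} [Field k] [Algebra k ℂ] [CharZero k] {ι : Type*} [Finite ι]
    (t : ι → k) : ∃ D : ℕ, ∀ p : ℕ, p.Prime → D < p →
      ∀ (ρ : Type) (x : ρ → ℂ), AlgebraicIndependent k x → ∃ V : ValuationSubring ℂ,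
        V.valuation (p : ℂ) < 1 ∧ (∀ i, algebraMap k ℂ (t i) ∈ V) ∧
        ∀ j, V.valuation (x j) = 1 := by
  obtain ⟨D, hD⟩ := Pool.Agent.Y152.RP.exists_valU t
  refine ⟨D, fun p hp hpD ρ x hx => ?_⟩
  obtain ⟨V, hV1, hV2, hV3⟩ := hD p hp hpD 0 Polynomial.X Polynomial.irreducible_X (by simp)
    (p : ℚ) (by
      intro h
      rw [Rat.den_natCast] at h
      exact hp.one_lt.ne' (Nat.dvd_one.1 h)) (by
      rw [Pool.Agent.Y152.BD.Nv]
      refine Finset.dvd_sum fun i hi => ?_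
      rw [Polynomial.coeff_X]
      split_ifs with h1
      · rw [← h1, Rat.num_natCast]
        simp
      · simp) ρ x hx
  refine ⟨V, ?_, hV2, hV3⟩
  rw [zero_sub, Valuation.map_neg, Rat.cast_natCast] at hV1
  exact hV1

end Pool.Agent.X295
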