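import Pool.Agent.X295.FamK
import Pool.Agent.X295.FamMM

/-!
Families of subsets of `Y(1)^n × G_m^k` with several parameters over arbitrary countable fields, with
degenerate divisors over the algebraic numbers: main theorem (helper file).
-/

set_option autoImplicit false

namespace Pool.Agent.X295

open H294ZP UpperHalfPlane MvPolynomial Pool.Agent.W282.ZP Pool.Agent.Y152.BD Pool.Agent.Y152.RP
open Pool.Agent.Y152.RP.FamM (SpecialVariety NoAtypical coset valueAt rel_of_locus)

/-- Families with several parameters which degenerate along sufficiently many hypersurfaces. -/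
theorem familyMMK (K : Subfield ℂ) [Countable K] (κ : Type) [Finite κ]
    (q N n k₀ m M T : ℕ)
    (G : κ → MvPolynomial (Fin (N + 1)) (MvPolynomial (Fin q) K))
    (hG : ∀ k, ∃ e, (G k).IsHomogeneous e)
    (A B : Fin n ⊕ Fin k₀ → MvPolynomial (Fin (N + 1)) (MvPolynomial (Fin q) K))
    (d : Fin n ⊕ Fin k₀ → ℕ)
    (hA : ∀ i, (A i).IsHomogeneous (d i)) (hB : ∀ i, (B i).IsHomogeneous (d i))
    (R : Fin n → Polynomial (Polynomial K)) (hR : ∀ i, (R i).Monic)
    (hT : ∀ i u w, ((R i).coeff u).coeff w ≠ 0 → u ≤ T ∧ w ≤ T)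
    (c : Fin n ⊕ Fin k₀ → MvPolynomial (Fin q) K) (h : Fin M → MvPolynomial (Fin q) K)
    (e : Fin M → Fin n ⊕ Fin k₀ → ℕ) (hdeg : ∀ l, DegeneratesAlongK m G A B c (h l) (e l))
    (Γ : Finset ℂ) (hΓ : ∀ γ ∈ Γ, γ ∈ K) (ε : ℝ) (hε : 0 < ε)
    (hind : IndepMX T n k₀ m M e) :
    ∃ C : ℝ, ∀ H : ℕ, 1 ≤ H →
      (({u : Fin q → ℤ | ¬ NoAtypical (algebraMap (Algebra.adjoin ℤ (Γ : Set ℂ)) ℂ) K m
        (scaledImageX (fun j => (u j : ℂ)) G A B R c)} ∩ {u | ∀ j, |u j| ≤ H}).ncard : ℝ) ≤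
          C * (H : ℝ) ^ ((q : ℝ) - 1 + ε) := by
  classical
  let k := algebraicClosure K ℂ
  have hcl : IsAlgClosure K k := inferInstance
  have hac : IsAlgClosed k := hcl.isAlgClosed
  have halgk : Algebra.IsAlgebraic K k := hcl.isAlgebraic
  have : FaithfulSMul ℤ k := (faithfulSMul_iff_algebraMap_injective ℤ k).2 Int.cast_injective
  obtain ⟨𝓈, h𝓈⟩ := exists_isTranscendenceBasis ℤ k
  let φ : MvPolynomial (Fin q) K →+* MvPolynomial (Fin q) k := MvPolynomial.map (algebraMap K k)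
  let φ1 : Polynomial K →+* Polynomial k := Polynomial.mapRingHom (algebraMap K k)
  have hev : ∀ (t : Fin q → k), (algebraMap k ℂ).comp ((MvPolynomial.eval t).comp φ) =
      evalAt K (fun j => algebraMap k ℂ (t j)) := by
    intro t
    refine MvPolynomial.ringHom_ext (fun a => ?_) (fun j => ?_)
    · simp only [φ, evalAt, RingHom.comp_apply, MvPolynomial.map_C, MvPolynomial.eval_C,
        AlgHom.toRingHom_eq_coe, RingHom.coe_coe, MvPolynomial.aeval_C]
      rfl
    · simp only [φ, evalAt, RingHom.comp_apply, MvPolynomial.map_X, MvPolynomial.eval_X,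
        AlgHom.toRingHom_eq_coe, RingHom.coe_coe, MvPolynomial.aeval_X]
  have hevP : ∀ (t : Fin q → k) (P : MvPolynomial (Fin q) K),
      algebraMap k ℂ (MvPolynomial.eval t (φ P)) = evalAt K (fun j => algebraMap k ℂ (t j)) P :=
    fun t P => congrArg (fun f : MvPolynomial (Fin q) K →+* ℂ => f P) (hev t)
  have hspec : ∀ (t : Fin q → k) (P : MvPolynomial (Fin (N + 1)) (MvPolynomial (Fin q) K))
      (y : Fin (N + 1) → ℂ), aeval y (specM t (MvPolynomial.map φ P)) =
        eval₂ (evalAt K (fun j => algebraMap k ℂ (t j))) y P := by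
    intro t P y
    rw [specM, MvPolynomial.map_map, aeval_def, eval₂_map, hev]
  have hmapφ : ∀ P : MvPolynomial (Fin q) K, MvPolynomial.map (algebraMap k ℂ) (φ P) =
      MvPolynomial.map (algebraMap K ℂ) P := by
    intro P
    simp only [φ]
    rw [MvPolynomial.map_map]
    rfl
  have hirr : ∀ l, Irreducible (φ (h l)) := fun l =>
    irr_of_map (algebraMap k ℂ) (by rw [hmapφ]; exact (hdeg l).1)
  have hprime : ∀ l, Prime (φ (h l)) := fun l =>
    UniqueFactorizationMonoid.irreducible_iff_prime.1 (hirr l)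
  let jQ : QB →+* k :=
    { toFun := fun z => ⟨z, mem_algebraicClosure_iff.2 ((mem_algebraicClosure_iff.1 z.2).tower_top K)⟩
      map_one' := rfl
      map_mul' := fun _ _ => rfl
      map_zero' := rfl
      map_add' := fun _ _ => rfl }
  obtain ⟨Nm, D₁, hNm0, hNmd, hplace⟩ := normK 𝓈 h𝓈 jQ (fun z => rfl) (fun l => φ (h l))
    (fun l w => by
      have h1 : algebraMap k ℂ ((φ (h l)).coeff w) = (((h l).coeff w : K) : ℂ) := by
        simp only [φ]
        rw [coeff_map]
        rfl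
      rw [h1]
      exact (hdeg l).2.1 w)
  have hNm0' : ∀ l, Nm l ≠ 0 := fun l => hNm0 l (hprime l).ne_zero
  choose g hcg hgu using fun l => (hdeg l).2.2.1
  have hgk : ∀ l i, ¬ φ (h l) ∣ φ (g l i) := by
    intro l i hdvd
    obtain ⟨w, hw⟩ := hdvd
    obtain ⟨u, hu1, hu2⟩ := hgu l i
    apply hu2
    have h1 := congrArg (aeval (R := k) u) hw
    rw [map_mul] at h1
    have h2 : aeval (R := k) u (φ (h l)) = evalAt K u (h l) :=
      MvPolynomial.aeval_map_algebraMap (R := K) k u (h l)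
    have h4 : aeval (R := k) u (φ (g l i)) = evalAt K u (g l i) :=
      MvPolynomial.aeval_map_algebraMap (R := K) k u (g l i)
    rw [h2, hu1, zero_mul, h4] at h1
    exact h1
  choose a₀ haalg ha0 hapos using fun l => (hdeg l).2.2.2
  have hak : ∀ l j, ∃ t : k, algebraMap k ℂ t = a₀ l j := by
    intro l j
    exact ⟨⟨_, mem_algebraicClosure_iff.2 (haalg l j)⟩, rfl⟩
  choose a ha using hak
  have ha' : ∀ l, (fun j => algebraMap k ℂ (a l j)) = a₀ l := fun l => funext (ha l)
  choose j0 hj0 using fun l => exists_varN (hirr l) (hNm0' l) (hNmd l)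
  let Γ' : Set k := (fun γ : Γ => algebraMap K k ⟨γ, hΓ γ γ.2⟩) '' Set.univ
  have hΓ' : algebraMap k ℂ '' Γ' = (Γ : Set ℂ) := by
    ext z
    constructor
    · rintro ⟨_, ⟨g, -, rfl⟩, rfl⟩
      exact g.2
    · intro hz
      exact ⟨_, ⟨⟨z, hz⟩, trivial, rfl⟩, rfl⟩
  obtain ⟨ρ, hρ, W, hW, hΓW, hnear⟩ := nearK (k := k) 𝓈 h𝓈 (m := m) (M := M)
    (fun i => MvPolynomial.map φ (G i))
    (fun i => by
      obtain ⟨e, he⟩ := hG i
      exact ⟨e, he.map _⟩)
    (fun i => MvPolynomial.map φ (A i)) (fun i => MvPolynomial.map φ (B i)) d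
    (fun i => (hA i).map _) (fun i => (hB i).map _)
    (fun i => (R i).map φ1) (fun l => φ (h l)) hprime Nm hNm0' hNmd (fun i => φ (c i)) e
    (fun l i => φ (g l i)) (fun l i => by rw [hcg l i, map_mul, map_pow]) hgk a
    (fun l => by
      apply (algebraMap k ℂ).injective
      rw [hevP, ha', ha0, map_zero])
    (fun l I hI y h1 h2 => by
      by_contra h0
      obtain ⟨i, hi, h3⟩ := hapos l I hI y ⟨h0, fun i => by
        have h4 := h1 i
        rw [hspec, ha'] at h4
        exact h4⟩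
      apply h3
      have h4 := h2 i hi
      rw [hspec, hspec, ha'] at h4
      exact h4)
    Γ' (Set.toFinite _) j0
  have hRk : ∀ i, ((R i).map φ1).Monic := fun i => (hR i).map _
  have hTk : ∀ i u w, (((R i).map φ1).coeff u).coeff w ≠ 0 → u ≤ T ∧ w ≤ T := by
    intro i u w h0
    rw [Polynomial.coeff_map] at h0
    change ((Polynomial.mapRingHom (algebraMap K k)) ((R i).coeff u)).coeff w ≠ 0 at h0
    rw [Polynomial.coe_mapRingHom, Polynomial.coeff_map] at h0
    exact hT i u w fun h1 => h0 (by rw [h1, map_zero])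
  -- the relations at a point
  have hcastf : ∀ u : Fin q → ℤ, (fun j => algebraMap k ℂ ((u j : ℤ) : k)) =
      (fun j => (u j : ℂ)) := fun u => funext fun j => map_intCast _ _
  have hΓV : ∀ V : ValuationSubring ℂ, (∀ z ∈ W, algebraMap k ℂ z ∈ V) →
      ∀ z ∈ Γ', algebraMap k ℂ z ∈ V := fun V hV z hz => hV z (hΓW hz)
  have := hW.to_subtype
  obtain ⟨D₂, hD₂⟩ := mem_of_gauss 𝓈 h𝓈 (fun z : W => (z : k))
  refine count_union Nm j0 hj0 ρ hρ (D₁ + D₂) hε _ fun u hu => ?_
  by_contra hcon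
  push Not at hcon
  apply hu
  intro r Z Mu η hη
  have hηint : ∀ j, IsIntegral (Algebra.adjoin ℤ (algebraMap k ℂ '' Γ')) (η j) ∧
      IsIntegral (Algebra.adjoin ℤ (algebraMap k ℂ '' Γ')) (η j)⁻¹ := by
    intro j
    rw [hΓ']
    exact ⟨(hη j).2.1, (hη j).2.2⟩
  have hpt : ∀ x ∈ scaledImageX (fun j => (u j : ℂ)) G A B R c,
      (fun i => x (Sum.inl i)) ∈ Z.locus → (fun j => x (Sum.inr j)) ∈ coset Mu η →
      ∀ S : Finset (Fin n ⊕ Fin k₀), AlgebraicIndependent K (fun i : S => x i) →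
      S.card + n + Module.finrank ℤ Mu ≤ r + m := by
    rintro x ⟨hx0, y, hy, ⟨s, hxy⟩, hxy2⟩ hxZ hxC S hS
    have hSk : AlgebraicIndependent k (fun i : S => x i) := hS.extendScalars k
    have hpl : ∀ l, ∃ (p : ℕ) (V : ValuationSubring ℂ),
        GaussAt V p (fun a : 𝓈 => algebraMap k ℂ a) ∧
        ¬ (p : ℤ) ∣ eval u (rename Subtype.val (ρ l)) ∧
        V.valuation (algebraMap k ℂ (eval (fun j => ((u j : ℤ) : k)) (φ (h l)))) < 1 ∧
        (∀ z ∈ W, algebraMap k ℂ z ∈ V) ∧ (∀ i : S, V.valuation (x i) = 1) ∧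
        V.valuation (algebraMap k ℂ (eval (fun j => ((u j : ℤ) : k)) (φ (h l)))) ≠ 0 := by
      intro l
      obtain ⟨h0, p, hp, hpD, h1, h2⟩ := hcon l
      obtain ⟨V, hV1, hV2, hV3⟩ := hplace l p hp (by omega) u h1 S _ hSk
      refine ⟨p, V, hV1, h2, hV3, fun z hz => hD₂ p hp (by omega) V hV1 ⟨z, hz⟩, hV2,
        (Valuation.ne_zero_iff _).2 fun h3 => h0 ?_⟩
      have h4 : eval (fun j => ((u j : ℤ) : k)) (φ (h l)) = 0 := by
        apply (algebraMap k ℂ).injective
        rw [h3, map_zero]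
      have h5 := map_dvd (eval (fun j => ((u j : ℤ) : k))) (hNmd l)
      rw [h4, zero_dvd_iff, eval_cast] at h5
      exact_mod_cast h5
    choose p V hVG hVρ hV1 hVW hVx hV0 using hpl
    have h1 : ∀ i, Z.cls i = none →
        IsIntegral (Algebra.adjoin ℤ (algebraMap k ℂ '' Γ')) (x (Sum.inl i)) := by
      intro i hi
      obtain ⟨z, hz⟩ := hxZ
      have h2 : x (Sum.inl i) = Z.const i := (hz i).1 hi
      rw [hΓ', h2]
      rcases Z.allowed i with ⟨τ, hτ, hc⟩ | h
      · rw [hc]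
        exact (singular_modulus_integral τ hτ).tower_top
      · exact h
    have h2 : ∀ i, Polynomial.eval₂
        (Polynomial.aeval (x (Sum.inl i)) : Polynomial k →ₐ[k] ℂ).toRingHom (s i)
        ((R i).map φ1) = 0 := by
      intro i
      rw [Polynomial.eval₂_map]
      have h1 : ((Polynomial.aeval (x (Sum.inl i)) : Polynomial k →ₐ[k] ℂ).toRingHom).comp φ1 =
          (Polynomial.aeval (x (Sum.inl i)) : Polynomial K →ₐ[K] ℂ).toRingHom := by
        ext z
        · simp [φ1]
        · simp [φ1]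
      rw [h1]
      exact (hxy i).1
    -- the coordinates which are compared with the quotients
    let sx : Fin n ⊕ Fin k₀ → ℂ := Sum.elim s fun j => x (Sum.inr j)
    have h3 : ∀ i, aeval y (specM (fun j => ((u j : ℤ) : k)) (MvPolynomial.map φ (G i))) = 0 := by
      intro i
      rw [hspec, hcastf]
      exact hy.2 i
    have h4 : ∀ i, algebraMap k ℂ (MvPolynomial.eval (fun j => ((u j : ℤ) : k)) (φ (c i))) *
        aeval y (specM (fun j => ((u j : ℤ) : k)) (MvPolynomial.map φ (B i))) * sx i =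
        aeval y (specM (fun j => ((u j : ℤ) : k)) (MvPolynomial.map φ (A i))) := by
      rintro (i | j)
      · rw [hspec, hspec, hevP, hcastf]
        exact (hxy i).2
      · rw [hspec, hspec, hevP, hcastf]
        exact hxy2 j
    refine coreMX (Λ := k) (F := k) (m := m) (T := T) (fun i => (R i).map φ1) hRk hTk
      e hind.1 hind.2.1 hind.2.2
      Z.cls (fun i => (Z.mat i).det.toNat) x s Mu η
      (fun i => by
        have := Z.det_pos i
        omega)
      (fun i hi => alg_of_int Γ' (h1 i hi)) (fun i j l hi hj => by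
        have h5 := rel_of_locus Z hxZ i j l hi hj
        rw [← Int.toNat_mul (Z.det_pos i).le (Z.det_pos j).le]
        exact h5)
      h2 hx0 (fun j => ?_) hxC.2 S hSk hSk V
      (fun l => (V l).valuation
          (algebraMap k ℂ (eval (fun j => ((u j : ℤ) : k)) (φ (h l))))) hV0 hV1
      (fun l i hi => v_le_of_int Γ' (V l) (hΓV _ (hVW l)) (h1 i hi))
      (fun l => (hnear (V l) (hVW l)).1) hVx (fun l j => ?_) (fun l => ?_)
    · have h5 : IsAlgebraic k (η j) := alg_of_int Γ' (hηint j).1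
      have h6 : IsAlgebraic K (η j) := by
        have : Algebra.IsAlgebraic K k := hcl.isAlgebraic
        exact h5.restrictScalars K
      exact ⟨⟨η j, mem_algebraicClosure_iff.2 h6⟩, rfl⟩
    · refine le_antisymm (v_le_of_int Γ' (V l) (hΓV _ (hVW l)) (hηint j).1) ?_
      have h5 := v_le_of_int Γ' (V l) (hΓV _ (hVW l)) (hηint j).2
      rw [map_inv₀] at h5
      have h6 : (V l).valuation (η j) ≠ 0 := (Valuation.ne_zero_iff _).2 (hη j).1
      exact (inv_le_one₀ (zero_lt_iff.2 h6)).1 h5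
    · obtain ⟨E, hE, hE'⟩ := (hnear (V l) (hVW l)).2 l u (p l) (hVG l) (hVρ l) (hV1 l) sx y hy.1 h3 h4
      exact ⟨E, hE, fun i hi => hE' _ hi, fun j hj => hE' _ hj⟩
  refine ⟨?_, hpt⟩
  intro W' hW' hcl' hprime'
  obtain ⟨w, hw⟩ := nonempty_of_prime hprime'
  obtain ⟨x, hxW, hx0, T', hT', hdim⟩ := Pool.Agent.W282.SI.generic_dim' K W' hprime'
    (β := Fin k₀) (fun j => X (Sum.inr j)) (by
      intro j hj
      rw [mem_idealOf] at hj
      have h2 := hj w hw
      rw [eval_X] at h2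
      exact (hW' hw).1.1 j h2)
  have hxA : x ∈ W' := hcl' x hxW fun j => by
    have h2 := hx0 j
    rwa [eval_X] at h2
  have h2 := hpt x (hW' hxA).1 (hW' hxA).2.1 (hW' hxA).2.2 T' hT'
  calc zdim W' + (n : Cardinal) + (Module.finrank ℤ Mu : Cardinal) ≤
        (T'.card : Cardinal) + (n : Cardinal) + (Module.finrank ℤ Mu : Cardinal) := by gcongr
    _ = ((T'.card + n + Module.finrank ℤ Mu : ℕ) : Cardinal) := by push_cast; rfl
    _ ≤ ((r + m : ℕ) : Cardinal) := by exact_mod_cast h2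
    _ = (r : Cardinal) + (m : Cardinal) := by push_cast; rfl

end Pool.Agent.X295
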