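import Pool.Agent.X295.EllP
import Pool.Agent.X295.EllN
import Pool.Agent.X295.EllB
import Pool.Agent.X295.FamMMK

/-!
Families with several parameters of subsets of products of powers of elliptic curves and tori which
degenerate along hypersurfaces: the bound for the points (helper file).
-/

set_option autoImplicit false

namespace Pool.Agent.X295.Ell

open WeierstrassCurve WeierstrassCurve.Affine Pool.Agent.W466.EP Pool.Agent.W282.LF
open H294ZP MvPolynomial Pool.Agent.W282.ZP Pool.Agent.Y152.BD Pool.Agent.Y152.RP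
open Pool.Agent.Y152.RP.FamM (coset)

/-- Places of Gauss type at which given algebraically independent numbers are units. -/
theorem gaussS {k : Type} [Field k] [Algebra k ℂ] [CharZero k] (𝓈 : Set k)
    (h𝓈 : IsTranscendenceBasis ℤ ((↑) : 𝓈 → k)) {ι : Type} (x : ι → ℂ)
    (hx : AlgebraicIndependent k x) {p : ℕ} (hp : p.Prime) :
    ∃ V : ValuationSubring ℂ, GaussAt V p (fun a : 𝓈 => algebraMap k ℂ a) ∧
      ∀ i, V.valuation (x i) = 1 := by
  classical
  have : FaithfulSMul ℤ k := (faithfulSMul_iff_algebraMap_injective ℤ k).2 Int.cast_injective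
  let b : 𝓈 ⊕ ι → ℂ := Sum.elim (fun a => algebraMap k ℂ a) x
  have hsum : AlgebraicIndependent ℤ (Sum.elim x (algebraMap k ℂ ∘ ((↑) : 𝓈 → k))) :=
    h𝓈.1.sumElim_comp hx
  have hbZ : AlgebraicIndependent ℤ b := by
    have h5 := hsum.comp (Equiv.sumComm 𝓈 ι) (Equiv.injective _)
    have h6 : Sum.elim x (algebraMap k ℂ ∘ ((↑) : 𝓈 → k)) ∘ (Equiv.sumComm 𝓈 ι) = b := by
      funext a
      rcases a with a | a <;> rfl
    rwa [h6] at h5
  have : Algebra.IsAlgebraic ℤ ℚ := IsLocalization.isAlgebraic ℚ (nonZeroDivisors ℤ)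
  have hbQ : AlgebraicIndependent ℚ b := hbZ.extendScalars ℚ
  obtain ⟨V, hV⟩ := exists_gaussAt b hbQ hp
  exact ⟨V, hV.inl, fun i => hV.unit hp (Sum.inr i)⟩

/-- The function `F₁ (x) + F₂ (x) y`, with coefficients in `K`, at a point; `0` by definition at the
origin. -/
noncomputable def fval {K : Subfield ℂ} {A B : ℂ} (F₁ F₂ : Polynomial K) : (crv A B).Point → ℂ
  | .zero => 0
  | .some x y _ => Polynomial.aeval x F₁ + Polynomial.aeval x F₂ * y

theorem fval_eq {K : Subfield ℂ} {A B : ℂ} (F₁ F₂ : Polynomial K) (Q : (crv A B).Point) :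
    fval F₁ F₂ Q = fv (F₁.map (algebraMap K ℂ)) (F₂.map (algebraMap K ℂ)) Q := by
  rcases Q with _ | ⟨x, y, h⟩
  · rfl
  · change Polynomial.aeval x F₁ + Polynomial.aeval x F₂ * y =
      (F₁.map (algebraMap K ℂ)).eval x + (F₂.map (algebraMap K ℂ)).eval x * y
    rw [Polynomial.aeval_def, Polynomial.aeval_def, Polynomial.eval_map, Polynomial.eval_map]

theorem pord_map {R S : Type*} [Field R] [Field S] (f : R →+* S) (F₁ F₂ : Polynomial R) :
    pord (F₁.map f) (F₂.map f) = pord F₁ F₂ := by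
  unfold pord
  rw [Polynomial.natDegree_map, Polynomial.natDegree_map]
  by_cases h : F₂ = 0
  · rw [if_pos h, if_pos (by rw [h, Polynomial.map_zero])]
  · rw [if_neg h, if_neg (by rwa [Polynomial.map_eq_zero])]

/-- The orders of the poles of the coordinates along the divisors: they are positive, for the
elliptic coordinates they are large enough compared with the pole orders `d` of the functions, and
the differences of `2 e / d` are not integral after multiplication with a number not divisible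
by `β`; the square minors of the matrix of the orders of the torus coordinates are nonzero. -/
structure IndepE {r k₀ M : ℕ} {n : Fin r → ℕ} (β : ℕ) (d : ((g : Fin r) × Fin (n g)) → ℕ)
    (e : Fin M → ((g : Fin r) × Fin (n g)) ⊕ Fin k₀ → ℕ) : Prop where
  pos : ∀ l i, 0 < e l i
  large : ∀ l i, d i < 4 * e l (Sum.inl i)
  dist : ∀ l g, ∀ i j : Fin (n g), i ≠ j → ∀ μ : ℕ, ¬ β ∣ μ → ¬ ((d ⟨g, i⟩ : ℤ) * d ⟨g, j⟩ ∣
      2 * μ * (e l (Sum.inl ⟨g, i⟩) * d ⟨g, j⟩ - e l (Sum.inl ⟨g, j⟩) * d ⟨g, i⟩))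
  minors : ∀ (s : Finset (Fin M)) (J : Finset (Fin k₀)) (b : Fin k₀ → ℤ), J.card ≤ s.card →
    (∀ j, j ∉ J → b j = 0) → (∀ l ∈ s, ∑ j, b j * (e l (Sum.inr j) : ℤ) = 0) → b = 0

theorem familyE (K : Subfield ℂ) (κ : Type) [Finite κ] (q N r k₀ m M : ℕ) (a₄ a₆ : Fin r → ℂ)
    (h4 : ∀ g, a₄ g ∈ K) (h6 : ∀ g, a₆ g ∈ K) (n : Fin r → ℕ)
    (G : κ → MvPolynomial (Fin (N + 1)) (MvPolynomial (Fin q) K))
    (hG : ∀ k, ∃ e, (G k).IsHomogeneous e)
    (A B : ((g : Fin r) × Fin (n g)) ⊕ Fin k₀ →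
      MvPolynomial (Fin (N + 1)) (MvPolynomial (Fin q) K))
    (w : ((g : Fin r) × Fin (n g)) ⊕ Fin k₀ → ℕ)
    (hA : ∀ i, (A i).IsHomogeneous (w i)) (hB : ∀ i, (B i).IsHomogeneous (w i))
    (F₁ F₂ : ((g : Fin r) × Fin (n g)) → Polynomial K) (hd : ∀ i, 0 < pord (F₁ i) (F₂ i))
    (c : ((g : Fin r) × Fin (n g)) ⊕ Fin k₀ → MvPolynomial (Fin q) K)
    (h : Fin M → MvPolynomial (Fin q) ℤ)
    (e : Fin M → ((g : Fin r) × Fin (n g)) ⊕ Fin k₀ → ℕ)
    (hdeg : ∀ l, DegeneratesAlongK m G A B c (MvPolynomial.map (Int.castRingHom K) (h l)) (e l))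
    (β : ℕ) (hβ : 0 < β) (hind : IndepE β (fun i => pord (F₁ i) (F₂ i)) e)
    (hM : torusPlaces k₀ m + 1 ≤ M) (Γ : Finset ℂ) (hΓ : ∀ γ ∈ Γ, γ ∈ K)
    (Δ : ℕ) (hΔ : ∀ l, (h l).totalDegree ≤ Δ) (ε : ℝ) (hε : 0 < ε) :
    ∃ bad : Set (Fin q → ℤ), (∃ C : ℝ, ∀ H : ℕ, 1 ≤ H →
      ((bad ∩ {u | ∀ j, |u j| ≤ H}).ncard : ℝ) ≤ C * (H : ℝ) ^ ((q : ℝ) - 1 + Δ / β + ε)) ∧
      ∀ u ∉ bad, ∀ (P : ∀ g, Fin (n g) → (crv (a₄ g) (a₆ g)).Point) (t : Fin k₀ → ℂ)
        (y : Fin (N + 1) → ℂ), OnB (fun j => (u j : ℂ)) G y →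
        (∀ i : (g : Fin r) × Fin (n g),
          (P i.1 i.2 = 0 ∧ eval₂ (evalAt K (fun j => (u j : ℂ))) y (B (Sum.inl i)) = 0) ∨
          (P i.1 i.2 ≠ 0 ∧ evalAt K (fun j => (u j : ℂ)) (c (Sum.inl i)) *
            eval₂ (evalAt K (fun j => (u j : ℂ))) y (B (Sum.inl i)) *
              fval (F₁ i) (F₂ i) (P i.1 i.2) =
            eval₂ (evalAt K (fun j => (u j : ℂ))) y (A (Sum.inl i)))) →
        (∀ j, evalAt K (fun j => (u j : ℂ)) (c (Sum.inr j)) *
            eval₂ (evalAt K (fun j => (u j : ℂ))) y (B (Sum.inr j)) * t j =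
            eval₂ (evalAt K (fun j => (u j : ℂ))) y (A (Sum.inr j))) →
        ∀ (cE : Fin r → ℕ), (∀ g, ERel (P g) (cE g)) →
        ∀ (M₂ : Submodule ℤ (Fin k₀ → ℤ)) (η : Fin k₀ → ℂ),
        (∀ j, η j ≠ 0 ∧ IsIntegral (Algebra.adjoin ℤ (Γ : Set ℂ)) (η j) ∧
          IsIntegral (Algebra.adjoin ℤ (Γ : Set ℂ)) (η j)⁻¹) → t ∈ coset M₂ η →
        ∀ S : Finset (((g : Fin r) × Fin (n g)) ⊕ Fin k₀),
          AlgebraicIndependent K (fun s : S => co P t s) →
          S.card + ∑ g, cE g + Module.finrank ℤ M₂ ≤ m := by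
  classical
  let k := algebraicClosure K ℂ
  have hcl : IsAlgClosure K k := inferInstance
  have hac : IsAlgClosed k := hcl.isAlgClosed
  have halgk : Algebra.IsAlgebraic K k := hcl.isAlgebraic
  have : FaithfulSMul ℤ k := (faithfulSMul_iff_algebraMap_injective ℤ k).2 Int.cast_injective
  obtain ⟨𝓈, h𝓈⟩ := exists_isTranscendenceBasis ℤ k
  let φ : MvPolynomial (Fin q) K →+* MvPolynomial (Fin q) k := MvPolynomial.map (algebraMap K k)
  have hev : ∀ (t : Fin q → k), (algebraMap k ℂ).comp ((MvPolynomial.eval t).comp φ) =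
      evalAt K (fun j => algebraMap k ℂ (t j)) := by
    intro t
    refine MvPolynomial.ringHom_ext (fun a => ?_) (fun j => ?_)
    · simp only [φ, evalAt, RingHom.comp_apply, MvPolynomial.map_C, MvPolynomial.eval_C,
        AlgHom.toRingHom_eq_coe, RingHom.coe_coe, MvPolynomial.aeval_C]
      rfl
    · simp only [φ, evalAt, RingHom.comp_apply, MvPolynomial.map_X, MvPolynomial.eval_X,
        AlgHom.toRingHom_eq_coe, RingHom.coe_coe, MvPolynomial.aeval_X]
  have hevP : ∀ (t : Fin q → k) (P : MvPolynomial (Fin q) K),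
      algebraMap k ℂ (MvPolynomial.eval t (φ P)) = evalAt K (fun j => algebraMap k ℂ (t j)) P :=
    fun t P => congrArg (fun f : MvPolynomial (Fin q) K →+* ℂ => f P) (hev t)
  have hspec : ∀ (t : Fin q → k) (P : MvPolynomial (Fin (N + 1)) (MvPolynomial (Fin q) K))
      (y : Fin (N + 1) → ℂ), aeval y (specM t (MvPolynomial.map φ P)) =
        eval₂ (evalAt K (fun j => algebraMap k ℂ (t j))) y P := by
    intro t P y
    rw [specM, MvPolynomial.map_map, aeval_def, eval₂_map, hev]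
  have hmapφ : ∀ P : MvPolynomial (Fin q) K, MvPolynomial.map (algebraMap k ℂ) (φ P) =
      MvPolynomial.map (algebraMap K ℂ) P := by
    intro P
    simp only [φ]
    rw [MvPolynomial.map_map]
    rfl
  let hK : Fin M → MvPolynomial (Fin q) K := fun l => MvPolynomial.map (Int.castRingHom K) (h l)
  have hφK : ∀ l, φ (hK l) = MvPolynomial.map (Int.castRingHom k) (h l) := by
    intro l
    change MvPolynomial.map (algebraMap K k) (MvPolynomial.map (Int.castRingHom K) (h l)) = _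
    rw [MvPolynomial.map_map, RingHom.ext_int ((algebraMap K k).comp (Int.castRingHom K))
      (Int.castRingHom k)]
  have hirr : ∀ l, Irreducible (φ (hK l)) := fun l =>
    irr_of_map (algebraMap k ℂ) (by rw [hmapφ]; exact (hdeg l).1)
  have hprime : ∀ l, Prime (φ (hK l)) := fun l =>
    UniqueFactorizationMonoid.irreducible_iff_prime.1 (hirr l)
  have hh0 : ∀ l, h l ≠ 0 := by
    intro l h0
    apply (hprime l).ne_zero
    rw [hφK, h0, map_zero]
  have hNd : ∀ l, φ (hK l) ∣ MvPolynomial.map (Int.castRingHom k) (h l) := fun l => by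
    rw [hφK]
  choose g hcg hgu using fun l => (hdeg l).2.2.1
  have hgk : ∀ l i, ¬ φ (hK l) ∣ φ (g l i) := by
    intro l i hdvd
    obtain ⟨w, hw⟩ := hdvd
    obtain ⟨u, hu1, hu2⟩ := hgu l i
    apply hu2
    have h1 := congrArg (aeval (R := k) u) hw
    rw [map_mul] at h1
    have h2 : aeval (R := k) u (φ (hK l)) = evalAt K u (hK l) :=
      MvPolynomial.aeval_map_algebraMap (R := K) k u (hK l)
    have h4 : aeval (R := k) u (φ (g l i)) = evalAt K u (g l i) :=
      MvPolynomial.aeval_map_algebraMap (R := K) k u (g l i)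
    rw [h2, hu1, zero_mul, h4] at h1
    exact h1
  choose b₀ hbalg hb0 hbpos using fun l => (hdeg l).2.2.2
  have hbk : ∀ l j, ∃ t : k, algebraMap k ℂ t = b₀ l j := by
    intro l j
    exact ⟨⟨_, mem_algebraicClosure_iff.2 (hbalg l j)⟩, rfl⟩
  choose b hb using hbk
  have hb' : ∀ l, (fun j => algebraMap k ℂ (b l j)) = b₀ l := fun l => funext (hb l)
  choose j0 hj0 using fun l => exists_varN (hirr l) (hh0 l) (hNd l)
  -- the finite set of constants
  let Γ' : Set k := (fun γ : Γ => algebraMap K k ⟨γ, hΓ γ γ.2⟩) '' Set.univ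
  have hΓ' : algebraMap k ℂ '' Γ' = (Γ : Set ℂ) := by
    ext z
    constructor
    · rintro ⟨_, ⟨g, -, rfl⟩, rfl⟩
      exact g.2
    · intro hz
      exact ⟨_, ⟨⟨z, hz⟩, trivial, rfl⟩, rfl⟩
  let Cf : Set k := (⋃ i, ⋃ v ∈ ((F₁ i).support : Set ℕ), {algebraMap K k ((F₁ i).coeff v)}) ∪
    (⋃ i, ⋃ v ∈ ((F₂ i).support : Set ℕ), {algebraMap K k ((F₂ i).coeff v)})
  have hCf : Cf.Finite := by
    refine Set.Finite.union ?_ ?_
    · exact Set.finite_iUnion fun i => (F₁ i).support.finite_toSet.biUnion fun v _ =>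
        Set.finite_singleton _
    · exact Set.finite_iUnion fun i => (F₂ i).support.finite_toSet.biUnion fun v _ =>
        Set.finite_singleton _
  let Ce : Set k := Set.range (fun g => algebraMap K k ⟨a₄ g, h4 g⟩) ∪
    Set.range (fun g => algebraMap K k ⟨a₆ g, h6 g⟩)
  have hCe : Ce.Finite := (Set.finite_range _).union (Set.finite_range _)
  let Γ₂ : Set k := Γ' ∪ (Cf ∪ ((fun z => z⁻¹) '' Cf ∪ Ce))
  have hΓ₂ : Γ₂.Finite := (Set.toFinite _).union (hCf.union ((hCf.image _).union hCe))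
  obtain ⟨ρ, hρ, W, hW, hΓW, hnear⟩ := nearE (k := k) 𝓈 h𝓈 (m := m) (M := M)
    (fun i => MvPolynomial.map φ (G i))
    (fun i => by
      obtain ⟨e, he⟩ := hG i
      exact ⟨e, he.map _⟩)
    (fun i => MvPolynomial.map φ (A i)) (fun i => MvPolynomial.map φ (B i)) w
    (fun i => (hA i).map _) (fun i => (hB i).map _)
    (fun l => φ (hK l)) hprime h hh0 hNd (fun i => φ (c i)) e
    (fun l i => φ (g l i)) (fun l i => by rw [hcg l i, map_mul, map_pow]) hgk b
    (fun l => by
      apply (algebraMap k ℂ).injective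
      rw [hevP, hb', hb0, map_zero])
    (fun l I hI y h1 h2 => by
      by_contra h0
      obtain ⟨i, hi, h3⟩ := hbpos l I hI y ⟨h0, fun i => by
        have h4 := h1 i
        rw [hspec, hb'] at h4
        exact h4⟩
      apply h3
      have h4 := h2 i hi
      rw [hspec, hspec, hb'] at h4
      exact h4)
    Γ₂ hΓ₂ j0
  have hcastf : ∀ u : Fin q → ℤ, (fun j => algebraMap k ℂ ((u j : ℤ) : k)) =
      (fun j => (u j : ℂ)) := fun u => funext fun j => map_intCast _ _
  have := hW.to_subtype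
  obtain ⟨D₂, hD₂⟩ := mem_of_gauss 𝓈 h𝓈 (fun z : W => (z : k))
  refine ⟨{u | ∃ l, ¬ GoodB β (h l) (rename Subtype.val (ρ l)) D₂ u},
    count_unionB β hβ h j0 hj0 ρ hρ D₂ hε Δ hΔ _ (fun u hu => hu), ?_⟩
  intro u hu P t y hy hP ht cE hcE M₂ η hη htη S hS
  have hcon : ∀ l, GoodB β (h l) (rename Subtype.val (ρ l)) D₂ u := by
    intro l
    by_contra hl
    exact hu ⟨l, hl⟩
  have hSk : AlgebraicIndependent k (fun i : S => co P t i) := hS.extendScalars k
  -- the functions and their orders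
  let d : ((g : Fin r) × Fin (n g)) → ℕ := fun i => pord (F₁ i) (F₂ i)
  let D₀ : ℕ := ∏ i, d i
  have hD₀ : 0 < D₀ := Finset.prod_pos fun i _ => hd i
  have hdD : ∀ i, d i ∣ D₀ := fun i => Finset.dvd_prod_of_mem _ (Finset.mem_univ i)
  let val : ((g : Fin r) × Fin (n g)) ⊕ Fin k₀ → ℂ :=
    Sum.elim (fun i : ((g : Fin r) × Fin (n g)) => fval (F₁ i) (F₂ i) (P i.1 i.2)) t
  have hη' : ∀ j, ∃ z : k, η j = algebraMap k ℂ z := by
    intro j
    have h5 : IsAlgebraic k (η j) := alg_of_int Γ' (by rw [hΓ']; exact (hη j).2.1)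
    exact ⟨⟨η j, mem_algebraicClosure_iff.2 (h5.restrictScalars K)⟩, rfl⟩
  -- the places
  have hpl : ∀ l, ∃ (V : ValuationSubring ℂ) (E : Finset (((g : Fin r) × Fin (n g)) ⊕ Fin k₀))
      (γ : V.ValueGroup), γ < 1 ∧ γ ≠ 0 ∧ (∀ z ∈ W, algebraMap k ℂ z ∈ V) ∧ E.card ≤ m ∧
      (∀ j, Sum.inr j ∉ E → V.valuation (t j) * γ ^ e l (Sum.inr j) = 1) ∧
      (∀ j, Sum.inr j ∈ S → V.valuation (t j) = 1) ∧ S ⊆ E ∧
      ∀ g, cE g ≤ (part (E \ S) g).card := by
    intro l
    obtain ⟨h0, p, hpp, hpD, hpρ, hβp⟩ := hcon l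
    set μ := (eval u (h l)).natAbs.factorization p with hμ
    have hμ0 : 0 < μ := Nat.pos_of_ne_zero fun h1 => hβp (by rw [h1]; exact dvd_zero β)
    have hpC : (p : ℂ) ≠ 0 := Nat.cast_ne_zero.2 hpp.ne_zero
    have hN0 : 0 < D₀ * 3 := by omega
    obtain ⟨π, hπ⟩ := IsAlgClosed.exists_pow_nat_eq (p : ℂ) hN0
    have hπ0 : π ≠ 0 := by
      rintro rfl
      rw [zero_pow hN0.ne'] at hπ
      exact hpC hπ.symm
    obtain ⟨π', hπ'⟩ := exists_alg (k := k) (p : k) hN0 (by rw [map_natCast]; exact hπ)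
    have hind' := algInd_smul hSk (fun s : S => π' ^ shift D₀ 3 μ d (e l) s) (fun s =>
      pow_ne_zero _ (by
        rintro rfl
        rw [map_zero] at hπ'
        exact hπ0 hπ'.symm))
    obtain ⟨V, hVG, hVx⟩ := gaussS 𝓈 h𝓈 _ hind' hpp
    have hVW : ∀ z ∈ W, algebraMap k ℂ z ∈ V := fun z hz => hD₂ p hpp hpD V hVG ⟨z, hz⟩
    have hVΓ : ∀ z ∈ Γ₂, algebraMap k ℂ z ∈ V := fun z hz => hVW z (hΓW hz)
    have hpn : (p : ℂ) ∈ V.nonunits := (ValuationSubring.mem_nonunits_iff _).2 hVG.lt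
    have hvh : V.valuation (algebraMap k ℂ (eval (fun j => ((u j : ℤ) : k)) (φ (hK l)))) =
        V.valuation (p : ℂ) ^ μ := by
      have h1 : algebraMap k ℂ (eval (fun j => ((u j : ℤ) : k)) (φ (hK l))) =
          ((eval u (h l) : ℤ) : ℂ) := by
        rw [hφK, eval_cast, map_intCast]
      rw [h1]
      exact v_int_pow hpp hVG.lt h0
    have hvh1 : V.valuation (p : ℂ) ^ μ < 1 := pow_lt_one₀ zero_le hVG.lt hμ0.ne'
    have hP' : ∀ i : (g : Fin r) × Fin (n g),
        eval₂ (evalAt K (fun j => (u j : ℂ))) y (B (Sum.inl i)) ≠ 0 →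
        P i.1 i.2 ≠ 0 ∧ evalAt K (fun j => (u j : ℂ)) (c (Sum.inl i)) *
            eval₂ (evalAt K (fun j => (u j : ℂ))) y (B (Sum.inl i)) * val (Sum.inl i) =
            eval₂ (evalAt K (fun j => (u j : ℂ))) y (A (Sum.inl i)) := by
      intro i hi
      rcases hP i with h1 | h1
      · exact absurd h1.2 hi
      · exact h1
    obtain ⟨E, hE, hEg⟩ := hnear V hVW l u p hVG hpρ (by rw [hvh]; exact hvh1) val y hy.1
      (fun i => by
        rw [hspec, hcastf]
        exact hy.2 i)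
      (fun i hi => by
        rw [hspec, hcastf] at hi
        rw [hspec, hspec, hevP, hcastf]
        rcases i with i | j
        · exact (hP' i hi).2
        · exact ht j)
    rw [hvh] at hEg
    have hcoefs : ∀ (F : Polynomial K), (∀ v ∈ F.support, algebraMap K k (F.coeff v) ∈ Cf) →
        (∀ v, V.valuation ((F.map (algebraMap K ℂ)).coeff v) ≤ 1) ∧
        (F.map (algebraMap K ℂ) ≠ 0 →
          V.valuation (F.map (algebraMap K ℂ)).leadingCoeff = 1) := by
      intro F hF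
      have h1 : ∀ v, algebraMap k ℂ (algebraMap K k (F.coeff v)) =
          (F.map (algebraMap K ℂ)).coeff v := fun v => by
        rw [Polynomial.coeff_map]
        rfl
      have hle : ∀ v, V.valuation ((F.map (algebraMap K ℂ)).coeff v) ≤ 1 := by
        intro v
        rw [← h1, ValuationSubring.valuation_le_one_iff]
        by_cases hv : v ∈ F.support
        · exact hVΓ _ (Or.inr (Or.inl (hF v hv)))
        · rw [Polynomial.notMem_support_iff.1 hv, map_zero, map_zero]
          exact V.zero_mem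
      refine ⟨hle, fun hF0 => le_antisymm (hle _) ?_⟩
      have hF0' : F ≠ 0 := fun h => hF0 (by rw [h, Polynomial.map_zero])
      have h2 : F.natDegree ∈ F.support := Polynomial.natDegree_mem_support_of_nonzero hF0'
      have h3 : (algebraMap K k (F.coeff F.natDegree))⁻¹ ∈ Γ₂ :=
        Or.inr (Or.inr (Or.inl ⟨_, hF _ h2, rfl⟩))
      have h4 := (ValuationSubring.valuation_le_one_iff _ _).2 (hVΓ _ h3)
      rw [map_inv₀, map_inv₀, h1] at h4
      have h5 : (F.map (algebraMap K ℂ)).leadingCoeff =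
          (F.map (algebraMap K ℂ)).coeff F.natDegree := by
        rw [Polynomial.leadingCoeff, Polynomial.natDegree_map]
      rw [h5]
      have h6 : V.valuation ((F.map (algebraMap K ℂ)).coeff F.natDegree) ≠ 0 := by
        rw [← h5]
        exact (map_ne_zero _).2 (Polynomial.leadingCoeff_ne_zero.2 hF0)
      exact (inv_le_one₀ (zero_lt_iff.2 h6)).1 h4
    have hc1 : ∀ i, ∀ v ∈ (F₁ i).support, algebraMap K k ((F₁ i).coeff v) ∈ Cf := fun i v hv =>
      Or.inl (Set.mem_iUnion.2 ⟨i, Set.mem_biUnion (Finset.mem_coe.2 hv) rfl⟩)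
    have hc2 : ∀ i, ∀ v ∈ (F₂ i).support, algebraMap K k ((F₂ i).coeff v) ∈ Cf := fun i v hv =>
      Or.inr (Set.mem_iUnion.2 ⟨i, Set.mem_biUnion (Finset.mem_coe.2 hv) rfl⟩)
    obtain ⟨hSE, hcard⟩ := placeE V p hpp hpn
      (fun g => hVΓ _ (Or.inr (Or.inr (Or.inr (Or.inl ⟨g, rfl⟩)))))
      (fun g => hVΓ _ (Or.inr (Or.inr (Or.inr (Or.inr ⟨g, rfl⟩)))))
      (fun i => (F₁ i).map (algebraMap K ℂ)) (fun i => (F₂ i).map (algebraMap K ℂ))
      (fun i => (hcoefs _ (hc1 i)).1) (fun i => (hcoefs _ (hc2 i)).1)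
      (fun i => (hcoefs _ (hc1 i)).2) (fun i => (hcoefs _ (hc2 i)).2)
      d (fun i => (pord_map _ _ _).symm) (e l) (hind.pos l) (hind.large l) (L₀ := 3) hdD hD₀ le_rfl
      hμ0 (fun g i j hij => hind.dist l g i j hij μ hβp) π hπ P t E
      (fun i hi => by
        have h1 := (hEg i hi).2
        rw [← pow_mul] at h1
        rw [← h1]
        congr 2
        rcases i with i | j
        · change fv _ _ (P i.1 i.2) = fval (F₁ i) (F₂ i) (P i.1 i.2)
          rw [fval_eq]
        · rfl)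
      S (fun i hi => by
        have h1 := hVx ⟨i, hi⟩
        change V.valuation (algebraMap k ℂ (π' ^ shift D₀ 3 μ d (e l) i) * co P t i) = 1 at h1
        rw [map_pow, hπ', mul_comm] at h1
        exact h1)
    refine ⟨V, E, V.valuation (p : ℂ) ^ μ, hvh1, ?_, hVW, hE, fun j hj => ?_, fun j hj => ?_, hSE,
      fun g => hcard g _ (hcE g)⟩
    · exact pow_ne_zero _ ((map_ne_zero _).2 hpC)
    · exact (hEg _ hj).2
    · have h1 := hVx ⟨_, hj⟩
      change V.valuation (algebraMap k ℂ (π' ^ 0) * t j) = 1 at h1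
      rw [pow_zero, map_one, one_mul] at h1
      exact h1
  choose V E γ hγ1 hγ0 hVW hEm hEt hSt hSE hcard using hpl
  by_contra hlt
  push Not at hlt
  -- the lattice of the relations, enlarged by the independent torus coordinates
  let T' : Finset (Fin k₀) := S.toRight
  have hScard : S.toLeft.card + T'.card = S.card := S.card_toLeft_add_card_toRight
  have hT' : AlgebraicIndependent k (fun j : T' => t j) := by
    have h1 := hSk.comp (fun j : T' => (⟨Sum.inr (j : Fin k₀), Finset.mem_toRight.1 j.2⟩ : S))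
      (by
        intro j j' h
        have h1 := Sum.inr_injective (congrArg Subtype.val h)
        exact Subtype.ext h1)
    exact h1
  let M' : Submodule ℤ (Fin k₀ → ℤ) :=
    M₂ ⊔ Submodule.span ℤ ((fun j => Pi.single j (1 : ℤ)) '' (T' : Set (Fin k₀)))
  have hfin : Module.finrank ℤ M₂ + T'.card ≤ Module.finrank ℤ M' := by
    refine W282.ZP.finrank_add_card' t htη.1 T' hT' M₂ ?_ M' le_sup_left ?_
    · intro a ha
      choose z hz using hη'
      refine ⟨∏ j, z j ^ a j, ?_⟩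
      have h1 : W282.ZP.chi t a = ∏ j, η j ^ a j := htη.2 a ha
      rw [h1, map_prod]
      refine Finset.prod_congr rfl fun j _ => ?_
      rw [map_zpow₀, hz]
    · intro j hj
      exact Submodule.mem_sup_right (Submodule.subset_span ⟨j, hj, rfl⟩)
  have hv0 : ∀ l i, (V l).valuation (t i) ≠ 0 := fun l i => (Valuation.ne_zero_iff _).2 (htη.1 i)
  have hVη : ∀ l j, (V l).valuation (η j) = 1 := by
    intro l j
    have hΓV : ∀ z ∈ Γ', algebraMap k ℂ z ∈ V l := fun z hz => hVW l z (hΓW (Or.inl hz))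
    refine le_antisymm (v_le_of_int Γ' (V l) hΓV (by rw [hΓ']; exact (hη j).2.1)) ?_
    have h5 := v_le_of_int Γ' (V l) hΓV (z := (η j)⁻¹) (by rw [hΓ']; exact (hη j).2.2)
    rw [map_inv₀] at h5
    have h6 : (V l).valuation (η j) ≠ 0 := (Valuation.ne_zero_iff _).2 (hη j).1
    exact (inv_le_one₀ (zero_lt_iff.2 h6)).1 h5
  have hle : ∀ l, M' ≤ W282.ZP.oneLat (fun i => (V l).valuation (t i)) (hv0 l) := by
    intro l
    refine sup_le ?_ (Submodule.span_le.2 ?_)
    · intro a ha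
      change W282.ZP.chi (fun i => (V l).valuation (t i)) a = 1
      have h1 : W282.ZP.chi (fun i => (V l).valuation (t i)) a =
          (V l).valuation (∏ i, t i ^ a i) := by
        simp [W282.ZP.chi]
      rw [h1, htη.2 a ha]
      simp only [map_prod, map_zpow₀, hVη l, one_zpow, Finset.prod_const_one]
    · rintro _ ⟨j, hj, rfl⟩
      change W282.ZP.chi (fun i => (V l).valuation (t i)) (Pi.single j (1 : ℤ)) = 1
      rw [W282.ZP.chi_single]
      exact hSt l j (Finset.mem_toRight.1 hj)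
  let Y : Fin M → Finset (Fin k₀) := fun l => (E l)ᶜ.toRight
  have hYm : ∀ l j, j ∈ Y l ↔ Sum.inr j ∉ E l := fun l j => by
    rw [Finset.mem_toRight, Finset.mem_compl]
  have hYc : ∀ l, (Y l)ᶜ = (E l).toRight := by
    intro l
    ext j
    rw [Finset.mem_compl, hYm, not_not, Finset.mem_toRight]
  have hYcard : ∀ l, (Y l).card + (E l).toRight.card = k₀ := by
    intro l
    rw [← hYc, Finset.card_add_card_compl, Fintype.card_fin]
  have hEcard : ∀ l, (E l).toLeft.card + (E l).toRight.card = (E l).card := fun l =>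
    (E l).card_toLeft_add_card_toRight
  have hleft : ∀ l, S.toLeft.card + ∑ g, cE g ≤ (E l).toLeft.card := by
    intro l
    have h1 : ∑ g, cE g ≤ (E l \ S).toLeft.card := by
      rw [part_card]
      exact Finset.sum_le_sum fun g _ => hcard l g
    have h2 : (E l \ S).toLeft = (E l).toLeft \ S.toLeft := by
      ext i
      simp only [Finset.mem_toLeft, Finset.mem_sdiff]
    have h3 : S.toLeft ⊆ (E l).toLeft := fun i hi =>
      Finset.mem_toLeft.2 (hSE l (Finset.mem_toLeft.1 hi))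
    have h4 := Finset.card_sdiff_add_card_eq_card h3
    rw [← h2] at h4
    omega
  have hFT : (Finset.univ : Finset (Fin M)).card ≤ torusPlaces k₀ m := by
    refine torus_count (fun l j => e l (Sum.inr j)) hind.minors M' Finset.univ Y (fun l _ => ?_)
      (fun l _ => ?_) (fun l _ a ha haY => ?_)
    · rw [hYc]
      have := hEm l
      have := hEcard l
      omega
    · have h1 := hYcard l
      have h2 := hEcard l
      have h3 := hEm l
      have h4 := hleft l
      omega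
    · exact Pool.Agent.TH526.ZL.rel_of_polar' (V l) (hγ1 l) (hγ0 l) (x := t)
        (e := fun j => e l (Sum.inr j)) (fun j hj => hEt l j ((hYm l j).1 hj)) haY (hle l ha)
  rw [Finset.card_univ, Fintype.card_fin] at hFT
  omega

end Pool.Agent.X295.Ell
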