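import Pool.Agent.X295.EllV
import Pool.Agent.W466.EI

/-!
The coordinates of a point of a product of powers of elliptic curves and a torus at one place near
to a degenerate divisor (helper file).
-/

set_option autoImplicit false

namespace Pool.Agent.X295.Ell

open WeierstrassCurve WeierstrassCurve.Affine Pool.Agent.W466.EP Pool.Agent.W282.LF

/-- The value of the function `F₁ (x) + F₂ (x) y` at a point; `0` by definition at the origin. -/
noncomputable def fv {A B : ℂ} (F₁ F₂ : Polynomial ℂ) : (crv A B).Point → ℂ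
  | .zero => 0
  | .some x y _ => F₁.eval x + F₂.eval x * y

/-- Conditions on the exponents. -/
theorem nums {α : Type} (d e : α → ℕ) {D₀ L₀ μ : ℕ} (hdD : ∀ i, d i ∣ D₀) (hD₀ : 0 < D₀)
    (hL : 3 ≤ L₀) (hμ : 0 < μ) (δ : α → ℕ) (hδ : ∀ i, δ i ≤ 1) (he : ∀ i, d i < 4 * e i)
    (hdist : ∀ i j, i ≠ j → ¬ ((d i : ℤ) * d j ∣ 2 * μ * (e i * d j - e j * d i))) :
    (∀ i, d i * (2 * (D₀ / d i) * L₀) = 2 * (D₀ * L₀)) ∧
    (∀ i, 1 ≤ μ * e i * (2 * (D₀ / d i) * L₀)) ∧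
    (∀ i, D₀ * L₀ < 2 * (μ * e i * (2 * (D₀ / d i) * L₀) - δ i)) ∧
    ∀ i j, i ≠ j → ¬ μ * e i * (2 * (D₀ / d i) * L₀) - δ i ≡
      μ * e j * (2 * (D₀ / d j) * L₀) - δ j [MOD D₀ * L₀] := by
  have hd0 : ∀ i, 0 < d i := fun i => Nat.pos_of_dvd_of_pos (hdD i) hD₀
  have hq : ∀ i, d i * (2 * (D₀ / d i) * L₀) = 2 * (D₀ * L₀) := by
    intro i
    have h1 : d i * (D₀ / d i) = D₀ := Nat.mul_div_cancel' (hdD i)
    calc d i * (2 * (D₀ / d i) * L₀) = 2 * ((d i * (D₀ / d i)) * L₀) := by ring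
      _ = _ := by rw [h1]
  have hr : ∀ i, 1 ≤ D₀ / d i := fun i => Nat.div_pos (Nat.le_of_dvd hD₀ (hdD i)) (hd0 i)
  have hq6 : ∀ i, 6 ≤ 2 * (D₀ / d i) * L₀ := by
    intro i
    have h1 := hr i
    calc 6 = 2 * 1 * 3 := rfl
      _ ≤ _ := by gcongr
  have h1 : ∀ i, 1 ≤ μ * e i * (2 * (D₀ / d i) * L₀) := by
    intro i
    have h2 := he i
    have h3 : 1 ≤ e i := by omega
    have h4 := hq6 i
    have h5 : 1 ≤ μ * e i := Nat.mul_pos hμ h3
    calc 1 = 1 * 1 := rfl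
      _ ≤ _ := by gcongr; omega
  have hcast : ∀ i, ((μ * e i * (2 * (D₀ / d i) * L₀) - δ i : ℕ) : ℤ) =
      μ * e i * (2 * ((D₀ / d i : ℕ) : ℤ) * L₀) - δ i := by
    intro i
    rw [Nat.cast_sub ((hδ i).trans (h1 i))]
    push_cast
    rfl
  refine ⟨hq, h1, fun i => ?_, fun i j hij h => ?_⟩
  · have h2 := hq i
    have h3 := hq6 i
    have h4 := he i
    have h5 := hδ i
    set q := 2 * (D₀ / d i) * L₀ with hqq
    have h6 : (d i + 1) * q ≤ 4 * e i * q := Nat.mul_le_mul_right q h4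
    have h7 : 4 * e i * q ≤ 4 * (μ * e i * q) := by
      have h8 : 4 * e i * q ≤ μ * (4 * e i * q) := Nat.le_mul_of_pos_left _ hμ
      calc _ ≤ _ := h8
        _ = _ := by ring
    have h9 : (d i + 1) * q = 2 * (D₀ * L₀) + q := by rw [add_mul, one_mul, h2]
    omega
  · have h2 := (Nat.modEq_iff_dvd.1 h)
    rw [hcast, hcast] at h2
    have hLD : (L₀ : ℤ) ∣ (D₀ * L₀ : ℕ) := ⟨D₀, by push_cast; ring⟩
    have h3 : (L₀ : ℤ) ∣ (δ i : ℤ) - δ j := by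
      have h4 := hLD.trans h2
      have h5 : (δ i : ℤ) - δ j = (μ * e j * (2 * ((D₀ / d j : ℕ) : ℤ) * L₀) - δ j -
          (μ * e i * (2 * ((D₀ / d i : ℕ) : ℤ) * L₀) - δ i)) -
          L₀ * (μ * e j * (2 * ((D₀ / d j : ℕ) : ℤ)) - μ * e i * (2 * ((D₀ / d i : ℕ) : ℤ))) := by
        ring
      rw [h5]
      exact dvd_sub h4 (dvd_mul_right _ _)
    have h4 : (δ i : ℤ) - δ j = 0 := by
      refine Int.eq_zero_of_abs_lt_dvd h3 ?_
      have h7 := hδ i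
      have h8 := hδ j
      rw [abs_lt]
      constructor <;> omega
    have h5 : ((D₀ * L₀ : ℕ) : ℤ) ∣ μ * e j * (2 * ((D₀ / d j : ℕ) : ℤ) * L₀) -
        μ * e i * (2 * ((D₀ / d i : ℕ) : ℤ) * L₀) := by
      have h6 : (μ : ℤ) * e j * (2 * ((D₀ / d j : ℕ) : ℤ) * L₀) -
          μ * e i * (2 * ((D₀ / d i : ℕ) : ℤ) * L₀) =
          (μ * e j * (2 * ((D₀ / d j : ℕ) : ℤ) * L₀) - δ j -
          (μ * e i * (2 * ((D₀ / d i : ℕ) : ℤ) * L₀) - δ i)) - (δ i - δ j) := by ring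
      rw [h6, h4, sub_zero]
      exact h2
    obtain ⟨z, hz⟩ := h5
    apply hdist i j hij
    refine ⟨-z, ?_⟩
    have hDi : (d i : ℤ) * ((D₀ / d i : ℕ) : ℤ) = D₀ := by
      exact_mod_cast Nat.mul_div_cancel' (hdD i)
    have hDj : (d j : ℤ) * ((D₀ / d j : ℕ) : ℤ) = D₀ := by
      exact_mod_cast Nat.mul_div_cancel' (hdD j)
    have hDL : ((D₀ * L₀ : ℕ) : ℤ) ≠ 0 := by
      have : 0 < D₀ * L₀ := Nat.mul_pos hD₀ (by omega)
      exact_mod_cast this.ne'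
    refine mul_left_cancel₀ hDL ?_
    have e1 : ((D₀ * L₀ : ℕ) : ℤ) * (2 * μ * (e i * d j - e j * d i)) =
        (d i : ℤ) * d j * (μ * e i * (2 * ((D₀ / d i : ℕ) : ℤ) * L₀) -
          μ * e j * (2 * ((D₀ / d j : ℕ) : ℤ) * L₀)) := by
      rw [Nat.cast_mul]
      linear_combination (-2 * (μ : ℤ) * L₀ * e i * d j) * hDi + (2 * (μ : ℤ) * L₀ * e j * d i) * hDj
    rw [e1]
    have e2 : (μ : ℤ) * e i * (2 * ((D₀ / d i : ℕ) : ℤ) * L₀) -
          μ * e j * (2 * ((D₀ / d j : ℕ) : ℤ) * L₀) = -(((D₀ * L₀ : ℕ) : ℤ) * z) := by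
      rw [← hz]
      ring
    rw [e2]
    ring

variable {r k₀ : ℕ} {a₄ a₆ : Fin r → ℂ} {n : Fin r → ℕ}

/-- The elliptic part of a finite set of coordinates. -/
def part (F : Finset (((g : Fin r) × Fin (n g)) ⊕ Fin k₀)) (g : Fin r) : Finset (Fin (n g)) :=
  Finset.univ.filter fun i => Sum.inl ⟨g, i⟩ ∈ F

theorem part_card (F : Finset (((g : Fin r) × Fin (n g)) ⊕ Fin k₀)) :
    F.toLeft.card = ∑ g, (part F g).card := by
  classical
  rw [← Finset.card_sigma]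
  congr 1
  ext ⟨g, i⟩
  rw [Finset.mem_toLeft, Finset.mem_sigma]
  refine ⟨fun h => ⟨Finset.mem_univ _, Finset.mem_filter.2 ⟨Finset.mem_univ _, h⟩⟩,
    fun h => (Finset.mem_filter.1 h.2).2⟩

/-- The exponents used at the algebraically independent coordinates. -/
def shift (D₀ L₀ μ : ℕ) (d : ((g : Fin r) × Fin (n g)) → ℕ)
    (e : ((g : Fin r) × Fin (n g)) ⊕ Fin k₀ → ℕ) : ((g : Fin r) × Fin (n g)) ⊕ Fin k₀ → ℕ :=
  Sum.elim (fun i => μ * e (Sum.inl i) * (2 * (D₀ / d i) * L₀) - 1) (fun _ => 0)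

theorem placeE (V : ValuationSubring ℂ) (p : ℕ) (hpp : p.Prime) (hp : (p : ℂ) ∈ V.nonunits)
    (h4 : ∀ g, a₄ g ∈ V) (h6 : ∀ g, a₆ g ∈ V)
    (F₁ F₂ : ((g : Fin r) × Fin (n g)) → Polynomial ℂ)
    (hF₁ : ∀ i w, V.valuation ((F₁ i).coeff w) ≤ 1) (hF₂ : ∀ i w, V.valuation ((F₂ i).coeff w) ≤ 1)
    (hl₁ : ∀ i, F₁ i ≠ 0 → V.valuation (F₁ i).leadingCoeff = 1)
    (hl₂ : ∀ i, F₂ i ≠ 0 → V.valuation (F₂ i).leadingCoeff = 1)
    (d : ((g : Fin r) × Fin (n g)) → ℕ) (hd : ∀ i, d i = pord (F₁ i) (F₂ i))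
    (e : ((g : Fin r) × Fin (n g)) ⊕ Fin k₀ → ℕ) (he0 : ∀ i, 0 < e i)
    (he : ∀ i, d i < 4 * e (Sum.inl i)) {D₀ L₀ μ : ℕ} (hdD : ∀ i, d i ∣ D₀) (hD₀ : 0 < D₀)
    (hL : 3 ≤ L₀) (hμ : 0 < μ)
    (hdist : ∀ g, ∀ i j : Fin (n g), i ≠ j → ¬ ((d ⟨g, i⟩ : ℤ) * d ⟨g, j⟩ ∣
      2 * μ * (e (Sum.inl ⟨g, i⟩) * d ⟨g, j⟩ - e (Sum.inl ⟨g, j⟩) * d ⟨g, i⟩)))
    (π : ℂ) (hπ : π ^ (D₀ * L₀) = (p : ℂ))
    (P : ∀ g, Fin (n g) → (crv (a₄ g) (a₆ g)).Point) (t : Fin k₀ → ℂ)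
    (E : Finset (((g : Fin r) × Fin (n g)) ⊕ Fin k₀))
    (hgood : ∀ i, i ∉ E → V.valuation
      (Sum.elim (fun i : ((g : Fin r) × Fin (n g)) => fv (F₁ i) (F₂ i) (P i.1 i.2)) t i) *
        V.valuation (p : ℂ) ^ (μ * e i) = 1)
    (S : Finset (((g : Fin r) × Fin (n g)) ⊕ Fin k₀))
    (hS : ∀ i ∈ S, V.valuation (co P t i * π ^ shift D₀ L₀ μ d e i) = 1) :
    S ⊆ E ∧ ∀ g c, ERel (P g) c → c ≤ (part (E \ S) g).card := by
  classical
  set v := V.valuation with hv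
  set N := D₀ * L₀ with hN
  set ρ := v π with hρ
  have hN0 : 0 < N := Nat.mul_pos hD₀ (by omega)
  have hp1 : v (p : ℂ) < 1 := by rwa [ValuationSubring.mem_nonunits_iff] at hp
  have hpC : (p : ℂ) ≠ 0 := Nat.cast_ne_zero.2 hpp.ne_zero
  have hR : v (p : ℂ) = ρ ^ N := by rw [← hπ, map_pow]
  have hρ0 : 0 < ρ := by
    rw [zero_lt_iff]
    intro h0
    rw [h0, zero_pow hN0.ne'] at hR
    exact hpC ((map_eq_zero v).1 hR)
  have hρ1 : ρ < 1 := by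
    by_contra h
    push Not at h
    have h1 := one_le_pow₀ h (n := N)
    rw [← hR] at h1
    exact absurd hp1 (not_lt.2 h1)
  have hinj : ∀ {a b : ℕ}, ρ ^ a = ρ ^ b → a = b := fun {a b} h =>
    pow_right_injective₀ hρ0 hρ1.ne h
  have hA : ∀ g, v (a₄ g) ≤ 1 := fun g => (ValuationSubring.valuation_le_one_iff _ _).2 (h4 g)
  have hB : ∀ g, v (a₆ g) ≤ 1 := fun g => (ValuationSubring.valuation_le_one_iff _ _).2 (h6 g)
  have hd0 : ∀ i, 0 < d i := fun i => Nat.pos_of_dvd_of_pos (hdD i) hD₀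
  let q : ((g : Fin r) × Fin (n g)) → ℕ := fun i => 2 * (D₀ / d i) * L₀
  have hq : ∀ i, d i * q i = 2 * N := by
    intro i
    have h1 : d i * (D₀ / d i) = D₀ := Nat.mul_div_cancel' (hdD i)
    calc d i * (2 * (D₀ / d i) * L₀) = 2 * ((d i * (D₀ / d i)) * L₀) := by ring
      _ = _ := by rw [h1]
  -- values of the functions
  have hbig : ∀ (i : (g : Fin r) × Fin (n g)) , 1 < v (xx (P i.1 i.2)) →
      v (fv (F₁ i) (F₂ i) (P i.1 i.2)) ^ 2 = v (xx (P i.1 i.2)) ^ d i := by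
    intro i hx
    generalize P i.1 i.2 = Q at hx
    rcases Q with _ | ⟨x, y, hn⟩
    · change 1 < v (0 : ℂ) at hx
      rw [map_zero] at hx
      exact absurd hx (not_lt.2 zero_le_one)
    · rw [hd i]
      exact fv_big v (hF₁ i) (hF₂ i) (hl₁ i) (hl₂ i) (by rw [← hd i]; exact hd0 i) (hA i.1) (hB i.1)
        (eqn hn) hx
  have hsmall : ∀ (i : (g : Fin r) × Fin (n g)), 1 < v (fv (F₁ i) (F₂ i) (P i.1 i.2)) →
      1 < v (xx (P i.1 i.2)) := by
    intro i hx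
    generalize P i.1 i.2 = Q at hx
    rcases Q with _ | ⟨x, y, hn⟩
    · change 1 < v (0 : ℂ) at hx
      rw [map_zero] at hx
      exact absurd hx (not_lt.2 zero_le_one)
    · by_contra hcon
      push Not at hcon
      exact absurd hx (not_lt.2 (fv_small v (hF₁ i) (hF₂ i) (hA i.1) (hB i.1) (eqn hn) hcon))
  have hnum1 : ∀ i, 1 ≤ μ * e (Sum.inl i) * q i := by
    intro i
    have h1 : 0 < q i := by
      by_contra h0
      have h2 : q i = 0 := by omega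
      have h3 := hq i
      rw [h2, mul_zero] at h3
      omega
    exact Nat.mul_pos (Nat.mul_pos hμ (he0 _)) h1
  have hlt1 : ∀ {x f : ℕ}, 0 < f → ∀ {w : V.ValueGroup}, w * ρ ^ f = 1 → 1 < w := by
    intro _ f hf w hw
    by_contra hcon
    push Not at hcon
    have h1 : w * ρ ^ f < 1 := (mul_le_of_le_one_left' hcon).trans_lt
      (pow_lt_one₀ zero_le hρ1 hf.ne')
    exact h1.ne hw
  have hgood' : ∀ i, i ∉ E → v
      (Sum.elim (fun i : ((g : Fin r) × Fin (n g)) => fv (F₁ i) (F₂ i) (P i.1 i.2)) t i) *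
        ρ ^ (N * (μ * e i)) = 1 := by
    intro i hi
    have h1 := hgood i hi
    rwa [hR, ← pow_mul] at h1
  -- the algebraically independent coordinates are not good
  have hSE : S ⊆ E := by
    intro i hi
    by_contra hiE
    have h1 := hS i hi
    have h2 := hgood' i hiE
    rw [map_mul, map_pow] at h1
    rcases i with i | j
    · change v (xx (P i.1 i.2)) * ρ ^ (μ * e (Sum.inl i) * q i - 1) = 1 at h1
      change v (fv (F₁ i) (F₂ i) (P i.1 i.2)) * ρ ^ (N * (μ * e (Sum.inl i))) = 1 at h2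
      have h0 : 0 < N * (μ * e (Sum.inl i)) := Nat.mul_pos hN0 (Nat.mul_pos hμ (he0 _))
      have h3 := hsmall i (hlt1 (x := 0) h0 h2)
      have h5 := hbig i h3
      have h7 : v (xx (P i.1 i.2)) ^ d i * ρ ^ (2 * (N * (μ * e (Sum.inl i)))) = 1 := by
        rw [← h5, mul_comm 2, pow_mul, ← mul_pow, h2, one_pow]
      have h8 : v (xx (P i.1 i.2)) ^ d i * ρ ^ ((μ * e (Sum.inl i) * q i - 1) * d i) = 1 := by
        rw [pow_mul, ← mul_pow, h1, one_pow]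
      have h9 : v (xx (P i.1 i.2)) ^ d i ≠ 0 := pow_ne_zero _ (zero_lt_one.trans h3).ne'
      have h10 := hinj (mul_left_cancel₀ h9 (h7.trans h8.symm))
      have h11 := hq i
      have h12 := hnum1 i
      have h13 : (μ * e (Sum.inl i) * q i - 1) * d i + d i = 2 * (N * (μ * e (Sum.inl i))) := by
        have h14 : (μ * e (Sum.inl i) * q i - 1) * d i + d i = (μ * e (Sum.inl i) * q i - 1 + 1) * d i := by
          ring
        rw [h14, Nat.sub_add_cancel h12]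
        calc μ * e (Sum.inl i) * q i * d i = μ * e (Sum.inl i) * (d i * q i) := by ring
          _ = _ := by rw [h11]; ring
      have := hd0 i
      omega
    · change v (t j) * ρ ^ 0 = 1 at h1
      change v (t j) * ρ ^ (N * (μ * e (Sum.inr j))) = 1 at h2
      have h0 : 0 < N * (μ * e (Sum.inr j)) := Nat.mul_pos hN0 (Nat.mul_pos hμ (he0 _))
      have h9 : v (t j) ≠ 0 := by
        intro h0
        rw [h0, zero_mul] at h2
        exact zero_ne_one h2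
      have h10 := hinj (mul_left_cancel₀ h9 (h1.trans h2.symm))
      omega
  refine ⟨hSE, ?_⟩
  · intro g c hc
    let δ : Fin (n g) → ℕ := fun i => if Sum.inl ⟨g, i⟩ ∈ S then 1 else 0
    have hδ : ∀ i, δ i ≤ 1 := by
      intro i
      change (if _ then 1 else 0) ≤ 1
      split_ifs <;> omega
    obtain ⟨-, hn1, hn2, hn3⟩ := nums (fun i : Fin (n g) => d ⟨g, i⟩)
      (fun i => e (Sum.inl ⟨g, i⟩)) (fun i => hdD _) hD₀ hL hμ δ hδ (fun i => he ⟨g, i⟩)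
      (fun i j hij => hdist g i j hij)
    have hcoord : ∀ i, i ∈ (part (E \ S) g)ᶜ →
        ρ ^ (μ * e (Sum.inl ⟨g, i⟩) * q ⟨g, i⟩ - δ i) * v (xx (P g i)) = 1 := by
      intro i hi
      have hi' : Sum.inl ⟨g, i⟩ ∉ E \ S := fun h =>
        Finset.mem_compl.1 hi (Finset.mem_filter.2 ⟨Finset.mem_univ _, h⟩)
      change ρ ^ (_ - (if _ then 1 else 0)) * _ = 1
      split_ifs with hiS
      · have h1 := hS _ hiS
        rw [map_mul, map_pow, mul_comm] at h1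
        exact h1
      · have hiE : Sum.inl ⟨g, i⟩ ∉ E := fun h => hi' (Finset.mem_sdiff.2 ⟨h, hiS⟩)
        have h2 := hgood' _ hiE
        change v (fv (F₁ ⟨g, i⟩) (F₂ ⟨g, i⟩) (P g i)) * ρ ^ (N * (μ * e (Sum.inl ⟨g, i⟩))) = 1 at h2
        have h0 : 0 < N * (μ * e (Sum.inl ⟨g, i⟩)) := Nat.mul_pos hN0 (Nat.mul_pos hμ (he0 _))
        have h3 := hsmall ⟨g, i⟩ (hlt1 (x := 0) h0 h2)
        have h5 := hbig ⟨g, i⟩ h3
        change 1 < v (xx (P g i)) at h3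
        change v (fv (F₁ ⟨g, i⟩) (F₂ ⟨g, i⟩) (P g i)) ^ 2 = v (xx (P g i)) ^ d ⟨g, i⟩ at h5
        have h7 : v (xx (P g i)) ^ d ⟨g, i⟩ * ρ ^ (2 * (N * (μ * e (Sum.inl ⟨g, i⟩)))) = 1 := by
          rw [← h5, mul_comm 2, pow_mul, ← mul_pow, h2, one_pow]
        have h8 : 2 * (N * (μ * e (Sum.inl ⟨g, i⟩))) = μ * e (Sum.inl ⟨g, i⟩) * q ⟨g, i⟩ * d ⟨g, i⟩ := by
          calc _ = μ * e (Sum.inl ⟨g, i⟩) * (2 * N) := by ring
            _ = μ * e (Sum.inl ⟨g, i⟩) * (d ⟨g, i⟩ * q ⟨g, i⟩) := by rw [hq]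
            _ = _ := by ring
        rw [h8, pow_mul, ← mul_pow] at h7
        rw [Nat.sub_zero, mul_comm]
        exact (pow_left_inj₀ zero_le zero_le (hd0 _).ne').1 (h7.trans (one_pow _).symm)
    have h1 := boundE V p hpp hp (h4 g) (h6 g) (P g) (part (E \ S) g)ᶜ N hN0
      (fun i => μ * e (Sum.inl ⟨g, i⟩) * q ⟨g, i⟩ - δ i) 1 zero_lt_one (by
        intro i hi
        have h2 := hcoord i hi
        have h3 : N < 2 * (μ * e (Sum.inl ⟨g, i⟩) * q ⟨g, i⟩ - δ i) := hn2 i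
        have h5 : P g i ≠ 0 := by
          intro h0
          rw [h0] at h2
          change _ * v (0 : ℂ) = 1 at h2
          rw [map_zero, mul_zero] at h2
          exact zero_ne_one h2
        obtain ⟨h7, h8⟩ := near_of (hA g) (hB g) (P g i) h5
          (pow_lt_one₀ zero_le hρ1 (by omega : μ * e (Sum.inl ⟨g, i⟩) * q ⟨g, i⟩ - δ i ≠ 0)) h2
        refine ⟨h5, h7, ?_, ?_⟩
        · have h9 : v (tt (P g i)) ^ 4 = (v (tt (P g i)) ^ 2) ^ 2 := by rw [← pow_mul]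
          rw [h9, h8, ← pow_mul, hR]
          refine pow_lt_pow_right_of_lt_one₀ hρ0 hρ1 ?_
          omega
        · rw [pow_mul, h8, one_mul, hR, ← pow_mul, ← pow_mul, mul_comm])
      (fun i _ j _ hij => hn3 i j hij) hc
    rwa [compl_compl] at h1

end Pool.Agent.X295.Ell
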