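import Pool.Agent.W282.LF.Elem
import Pool.Agent.W216.LF.CMR
import Pool.Agent.W346.LF.Endo
import Pool.Agent.W578.LF.QA

/-!
Functions on elliptic curves with poles only at the origin: values near to the origin, and relations
between the points at one place (helper file).
-/

set_option autoImplicit false

namespace Pool.Agent.X295.Ell

open WeierstrassCurve WeierstrassCurve.Affine Pool.Agent.W466.EP Pool.Agent.W282.LF

section

variable {L : Type*} [Field L] {Γ₀ : Type*} [LinearOrderedCommGroupWithZero Γ₀]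
  (v : Valuation L Γ₀)

theorem v_eval_small {F : Polynomial L} (hF : ∀ i, v (F.coeff i) ≤ 1) {x : L} (hx : v x ≤ 1) :
    v (F.eval x) ≤ 1 := by
  rw [Polynomial.eval_eq_sum_range]
  refine Valuation.map_sum_le _ fun i _ => ?_
  rw [map_mul, map_pow]
  exact mul_le_one' (hF i) (pow_le_one' hx i)

theorem v_eval_big {F : Polynomial L} (hF : ∀ i, v (F.coeff i) ≤ 1)
    (hF1 : v F.leadingCoeff = 1) {x : L} (hx : 1 < v x) :
    v (F.eval x) = v x ^ F.natDegree := by
  have h1 : v (F.leadingCoeff * x ^ F.natDegree) = v x ^ F.natDegree := by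
    rw [map_mul, hF1, one_mul, map_pow]
  have hx0 : v x ≠ 0 := (zero_lt_one.trans hx).ne'
  rw [Polynomial.eval_eq_sum_range, Finset.sum_range_succ]
  change v (_ + F.leadingCoeff * x ^ F.natDegree) = _
  rw [Valuation.map_add_eq_of_lt_right, h1]
  rw [h1]
  refine Valuation.map_sum_lt _ (pow_ne_zero _ hx0) fun i hi => ?_
  rw [map_mul, map_pow]
  calc v (F.coeff i) * v x ^ i ≤ 1 * v x ^ i := by gcongr; exact hF i
    _ = v x ^ i := one_mul _
    _ < v x ^ F.natDegree := pow_lt_pow_right₀ hx (Finset.mem_range.1 hi)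

/-- The order of the pole of `F₁ (x) + F₂ (x) y` at the origin. -/
noncomputable def pord {R : Type*} [Semiring R] (F₁ F₂ : Polynomial R) : ℕ :=
  haveI := Classical.dec (F₂ = 0)
  if F₂ = 0 then 2 * F₁.natDegree else max (2 * F₁.natDegree) (2 * F₂.natDegree + 3)

variable {A B : L}

theorem v_y {x y : L} (hA : v A ≤ 1) (hB : v B ≤ 1) (h : y ^ 2 = x ^ 3 + A * x + B)
    (hx : 1 < v x) : v y ^ 2 = v x ^ 3 := by
  obtain ⟨hy0, hx0, -, h1, -⟩ := loc hA hB h hx
  have hvy : v y ≠ 0 := (map_ne_zero v).2 hy0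
  rw [map_div₀, div_pow, div_mul_eq_mul_div, div_eq_one_iff_eq (pow_ne_zero _ hvy)] at h1
  rw [← h1, ← pow_succ]

theorem fv_big {F₁ F₂ : Polynomial L} (hF₁ : ∀ i, v (F₁.coeff i) ≤ 1)
    (hF₂ : ∀ i, v (F₂.coeff i) ≤ 1) (h₁ : F₁ ≠ 0 → v F₁.leadingCoeff = 1)
    (h₂ : F₂ ≠ 0 → v F₂.leadingCoeff = 1) (hd : 0 < pord F₁ F₂) {x y : L}
    (hA : v A ≤ 1) (hB : v B ≤ 1) (h : y ^ 2 = x ^ 3 + A * x + B) (hx : 1 < v x) :
    v (F₁.eval x + F₂.eval x * y) ^ 2 = v x ^ pord F₁ F₂ := by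
  have hy := v_y v hA hB h hx
  have hvx : 0 < v x := zero_lt_one.trans hx
  by_cases h0 : F₂ = 0
  · have hp : pord F₁ F₂ = 2 * F₁.natDegree := by
      unfold pord
      rw [if_pos h0]
    rw [hp] at hd ⊢
    have hF0 : F₁ ≠ 0 := by
      rintro rfl
      rw [Polynomial.natDegree_zero] at hd
      omega
    rw [h0, Polynomial.eval_zero, zero_mul, add_zero, v_eval_big v hF₁ (h₁ hF0) hx, ← pow_mul,
      mul_comm]
  · have hp : pord F₁ F₂ = max (2 * F₁.natDegree) (2 * F₂.natDegree + 3) := by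
      unfold pord
      rw [if_neg h0]
    rw [hp]
    have e2 : v (F₂.eval x * y) ^ 2 = v x ^ (2 * F₂.natDegree + 3) := by
      rw [map_mul, mul_pow, v_eval_big v hF₂ (h₂ h0) hx, hy, ← pow_mul, ← pow_add]
      congr 1
      ring
    by_cases h0' : F₁ = 0
    · rw [h0', Polynomial.eval_zero, zero_add, e2, Polynomial.natDegree_zero, mul_zero,
        max_eq_right (Nat.zero_le _)]
    have e1 : v (F₁.eval x) ^ 2 = v x ^ (2 * F₁.natDegree) := by
      rw [v_eval_big v hF₁ (h₁ h0') hx, ← pow_mul, mul_comm]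
    have hlt : ∀ {a b : L} {m n : ℕ}, v a ^ 2 = v x ^ m → v b ^ 2 = v x ^ n → m < n → v a < v b := by
      intro a b m n ha hb hmn
      have h1 : v a ^ 2 < v b ^ 2 := by
        rw [ha, hb]
        exact pow_lt_pow_right₀ hx hmn
      exact (pow_lt_pow_iff_left₀ zero_le zero_le two_ne_zero).1 h1
    rcases lt_or_gt_of_ne (a := 2 * F₁.natDegree) (b := 2 * F₂.natDegree + 3) (by omega) with h3 | h3
    · rw [Valuation.map_add_eq_of_lt_right _ (hlt e1 e2 h3), e2, max_eq_right h3.le]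
    · rw [Valuation.map_add_eq_of_lt_left _ (hlt e2 e1 h3), e1, max_eq_left h3.le]

theorem fv_small {F₁ F₂ : Polynomial L} (hF₁ : ∀ i, v (F₁.coeff i) ≤ 1)
    (hF₂ : ∀ i, v (F₂.coeff i) ≤ 1) {x y : L}
    (hA : v A ≤ 1) (hB : v B ≤ 1) (h : y ^ 2 = x ^ 3 + A * x + B) (hx : v x ≤ 1) :
    v (F₁.eval x + F₂.eval x * y) ≤ 1 := by
  have hy : v y ≤ 1 := by
    have h1 : v y ^ 2 ≤ 1 := by
      rw [← map_pow, h]
      refine Valuation.map_add_le _ (Valuation.map_add_le _ ?_ ?_) hB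
      · rw [map_pow]
        exact pow_le_one' hx 3
      · rw [map_mul]
        exact mul_le_one' hA hx
    exact (pow_le_one_iff_of_nonneg zero_le two_ne_zero).1 h1
  refine Valuation.map_add_le _ (v_eval_small v hF₁ hx) ?_
  rw [map_mul]
  exact mul_le_one' (v_eval_small v hF₂ hx) hy

end

/-- Complex multiplication of the curve `y² = x³ + A x + B`: an endomorphism `φ`, given by
rational functions with algebraic coefficients, with `φ² = a φ + b`, `a² + 4 b < 0`. -/
structure CMEnd (A B : ℂ) where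
  φ : (crv A B).Point →+ (crv A B).Point
  a : ℤ
  b : ℤ
  sq : ∀ P, φ (φ P) = a • φ P + b • P
  neg : a ^ 2 + 4 * b < 0
  F : Polynomial ℂ
  G : Polynomial ℂ
  H : Polynomial ℂ
  K : Polynomial ℂ
  ratl : IsRatl φ F G H K
  alg : ∀ Q ∈ ({F, G, H, K} : Set (Polynomial ℂ)), ∀ i, IsAlgebraic ℚ (Q.coeff i)

/-- The points `P i` satisfy linear relations, up to torsion, with integral coefficients or with
coefficients in an order of complex multiplications; the number is the codimension. -/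
inductive ERel {A B : ℂ} {n : ℕ} (P : Fin n → (crv A B).Point) : ℕ → Prop
  | int (M : Submodule ℤ (Fin n → ℤ))
      (h : ∀ r ∈ M, ∃ T : ℕ, 0 < T ∧ T • ∑ i, r i • P i = 0) : ERel P (Module.finrank ℤ M)
  | cm (φ : CMEnd A B) (M : Submodule ℤ (Fin n → ℤ × ℤ))
      (h : ∀ r ∈ M, ∃ T : ℕ, 0 < T ∧ T • ∑ i, ((r i).1 • P i + (r i).2 • φ.φ (P i)) = 0) :
      ERel P ((Module.finrank ℤ M + 1) / 2)

theorem cmr_all : S_CMR := Pool.Agent.W216.LF.cmr Pool.Agent.W346.LF.endo Pool.Agent.W578.LF.quad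
    Pool.Agent.W578.LF.algv

/-- The relations between points near to the origin with values incongruent to each other. -/
theorem boundE (V : ValuationSubring ℂ) (p : ℕ) (hpp : p.Prime) (hp : (p : ℂ) ∈ V.nonunits)
    {A B : ℂ} (hA : A ∈ V) (hB : B ∈ V) {n : ℕ} (P : Fin n → (crv A B).Point)
    (J : Finset (Fin n)) (N : ℕ) (hN : 0 < N) (e : Fin n → ℕ)
    (s : V.ValueGroup) (hs : 0 < s) (h : ∀ i ∈ J, P i ≠ 0 ∧
      Fm V.valuation (P i) ∧ V.valuation (tt (P i)) ^ 4 < V.valuation (p : ℂ) ∧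
      V.valuation (tt (P i)) ^ (2 * N) = s * V.valuation (p : ℂ) ^ e i)
    (hdist : ∀ i ∈ J, ∀ j ∈ J, i ≠ j → ¬ e i ≡ e j [MOD N])
    {c : ℕ} (hE : ERel P c) : c ≤ Jᶜ.card := by
  classical
  cases hE with
  | int M hM =>
    by_contra hcon
    push Not at hcon
    obtain ⟨r, hr, hr0, hrF⟩ := exists_rel M Jᶜ hcon
    obtain ⟨T, hT, hrel⟩ := hM r hr
    refine relZ V p hpp hp A B ((ValuationSubring.valuation_le_one_iff _ _).2 hA)
      ((ValuationSubring.valuation_le_one_iff _ _).2 hB) n P J N hN e s hs h hdist r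
      (fun i hi => hrF i (Finset.mem_compl.2 hi)) hr0 T hT hrel
  | cm φ M hM =>
    by_contra hcon
    push Not at hcon
    obtain ⟨r, hr, hr0, hrF⟩ := exists_rel2 M Jᶜ (by omega)
    obtain ⟨T, hT, hrel⟩ := hM r hr
    refine cmr_all V p hpp hp A B hA hB φ.φ φ.F φ.G φ.H φ.K φ.ratl φ.alg φ.a φ.b φ.sq φ.neg n P J
      N hN e s hs h hdist (fun i => (r i).1) (fun i => (r i).2) ?_ ?_ T hT hrel
    · intro i hi
      have h1 := hrF i (Finset.mem_compl.2 hi)
      exact ⟨congrArg Prod.fst h1, congrArg Prod.snd h1⟩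
    · by_contra h
      push Not at h
      apply hr0
      funext i
      exact Prod.ext (h i).1 (h i).2

end Pool.Agent.X295.Ell
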