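import Mathlib

/-!
Extension of automorphisms to endomorphisms of algebraically closed fields (helper file).
-/

set_option autoImplicit false

namespace Pool.Agent.X295

open MvPolynomial

/-- A homomorphism of `k` extends to a homomorphism of a field `L` with a prescribed behaviour on a
transcendence basis. -/
theorem exists_hom {L M : Type} [Field L] [Field M] [IsAlgClosed M] (E : L ≃+* M) {k s : Type}
    [Field k] [Algebra k L] (σ : k →+* k) (B : s → L) (hB : IsTranscendenceBasis k B) :
    ∃ τ : L →+* M, (∀ a, τ (algebraMap k L a) = E (algebraMap k L (σ a))) ∧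
      ∀ j, τ (B j) = E (B j) := by
  classical
  obtain ⟨f1, hf1⟩ : ∃ f1 : MvPolynomial s k →+* L,
      f1 = (MvPolynomial.aeval B : MvPolynomial s k →ₐ[k] L).toRingHom := ⟨_, rfl⟩
  obtain ⟨f2, hf2⟩ : ∃ f2 : MvPolynomial s k →+* M, f2 = (E : L →+* M).comp
      (MvPolynomial.eval₂Hom ((algebraMap k L).comp σ) B) := ⟨_, rfl⟩
  have c1 : ∀ a, f1 (C a) = algebraMap k L a := fun a => by
    rw [hf1]
    exact MvPolynomial.aeval_C B a
  have x1 : ∀ j, f1 (X j) = B j := fun j => by
    rw [hf1]
    exact MvPolynomial.aeval_X B j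
  have c2 : ∀ a, f2 (C a) = E (algebraMap k L (σ a)) := fun a => by
    rw [hf2, RingHom.comp_apply, MvPolynomial.coe_eval₂Hom, MvPolynomial.eval₂_C]
    rfl
  have x2 : ∀ j, f2 (X j) = E (B j) := fun j => by
    rw [hf2, RingHom.comp_apply, MvPolynomial.coe_eval₂Hom, MvPolynomial.eval₂_X]
    rfl
  have hinj1 : Function.Injective f1 := by
    rw [hf1]
    exact hB.1
  have hinj2 : Function.Injective f2 := by
    have h1 : f2 = ((E : L →+* M).comp f1).comp (MvPolynomial.map σ) := by
      refine MvPolynomial.ringHom_ext (fun a => ?_) (fun j => ?_)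
      · rw [c2, RingHom.comp_apply, RingHom.comp_apply, MvPolynomial.map_C, c1]
        rfl
      · rw [x2, RingHom.comp_apply, RingHom.comp_apply, MvPolynomial.map_X, x1]
        rfl
    rw [h1]
    exact (E.injective.comp hinj1).comp (MvPolynomial.map_injective σ σ.injective)
  let _ : Algebra (MvPolynomial s k) L := f1.toAlgebra
  let _ : Algebra (MvPolynomial s k) M := f2.toAlgebra
  have : FaithfulSMul (MvPolynomial s k) L := (faithfulSMul_iff_algebraMap_injective _ L).2 hinj1
  have : FaithfulSMul (MvPolynomial s k) M := (faithfulSMul_iff_algebraMap_injective _ M).2 hinj2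
  have : Algebra.IsAlgebraic (MvPolynomial s k) L := by
    constructor
    intro x
    obtain ⟨p, hp0, hp⟩ := hB.isAlgebraic.1 x
    let e := hB.1.aevalEquiv
    refine ⟨p.map (e.symm : _ →+* MvPolynomial s k), ?_, ?_⟩
    · rw [Ne, Polynomial.map_eq_zero_iff e.symm.injective]
      exact hp0
    · rw [Polynomial.aeval_def, Polynomial.eval₂_map]
      have h1 : (algebraMap (MvPolynomial s k) L).comp (e.symm : _ →+* MvPolynomial s k) =
          algebraMap (Algebra.adjoin k (Set.range B)) L := by
        refine RingHom.ext fun a => ?_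
        have h2 : ((e (e.symm a) : Algebra.adjoin k (Set.range B)) : L) = aeval B (e.symm a) :=
          hB.1.algebraMap_aevalEquiv (e.symm a)
        rw [AlgEquiv.apply_symm_apply] at h2
        rw [RingHom.comp_apply]
        show f1 (e.symm a) = a
        rw [hf1]
        exact h2.symm
      rw [h1]
      exact hp
  let τ : L →ₐ[MvPolynomial s k] M := IsAlgClosed.lift
  refine ⟨(τ : L →+* M), fun a => ?_, fun j => ?_⟩
  · have h1 : τ (f1 (C a)) = f2 (C a) := τ.commutes (C a)
    rw [c1, c2] at h1
    exact h1
  · have h1 : τ (f1 (X j)) = f2 (X j) := τ.commutes (X j)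
    rw [x1, x2] at h1
    exact h1

/-- An automorphism of a subfield `k` extends to an endomorphism of an algebraically closed field which
fixes given elements which are algebraically independent over `k`. -/
theorem exists_endo {L : Type} [Field L] [IsAlgClosed L] {k ι : Type} [Field k] [Algebra k L]
    (σ : k →+* k) (y : ι → L) (hy : AlgebraicIndependent k y) :
    ∃ τ : L →+* L, (∀ a, τ (algebraMap k L a) = algebraMap k L (σ a)) ∧ ∀ j, τ (y j) = y j := by
  obtain ⟨t, hst, ht⟩ := exists_isTranscendenceBasis_superset hy.to_subtype_range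
  obtain ⟨τ, h1, h2⟩ := exists_hom (RingEquiv.refl L) σ ((↑) : t → L) ht
  refine ⟨τ, fun a => h1 a, fun j => ?_⟩
  exact h2 ⟨y j, hst ⟨j, rfl⟩⟩

end Pool.Agent.X295
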