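import Mathlib

/-!
Extension of homomorphisms to algebraically closed fields (helper file).
-/

set_option autoImplicit false

namespace Pool.Agent.X295

open Polynomial

theorem ext_field {F₀ κ 𝕜 : Type} [Field F₀] [Field κ] [Field 𝕜] [IsAlgClosed 𝕜]
    (a : F₀ →+* 𝕜) (b : F₀ →+* κ) : ∃ (L : Subring κ) (Φ : L →+* 𝕜) (hb : ∀ x, b x ∈ L),
      (∀ x, Φ ⟨b x, hb x⟩ = a x) ∧
      ∀ y, (∃ P : F₀[X], P ≠ 0 ∧ P.eval₂ b y = 0) → y ∈ L := by
  let _ : Algebra F₀ 𝕜 := a.toAlgebra
  let _ : Algebra F₀ κ := b.toAlgebra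
  let L := algebraicClosure F₀ κ
  let Φ : L →ₐ[F₀] 𝕜 := IsAlgClosed.lift
  refine ⟨L.toSubring, Φ.toRingHom, fun x => L.algebraMap_mem x, fun x => Φ.commutes x, ?_⟩
  rintro y ⟨P, hP, h⟩
  show y ∈ L
  rw [mem_algebraicClosure_iff]
  exact ⟨P, hP, h⟩

theorem ext_hom {Ω 𝕜 𝒜 : Type} [Field Ω] [Field 𝕜] [IsAlgClosed 𝕜] [CommRing 𝒜]
    (e : 𝒜 →+* Ω) (χ : 𝒜 →+* 𝕜) (hker : RingHom.ker e ≤ RingHom.ker χ) (S : Set Ω)
    (hS : ∀ s ∈ S, ∃ P : Polynomial 𝒜, (P.map e).eval s = 0 ∧ χ P.leadingCoeff ≠ 0) :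
    ∃ (R : Subring Ω) (f : 𝒜 →+* R) (χ' : R →+* 𝕜), (∀ a, (f a : Ω) = e a) ∧
      (∀ s ∈ S, s ∈ R) ∧ ∀ a, χ' (f a) = χ a := by
  classical
  let A : Subring Ω := e.range
  have hkr : RingHom.ker e.rangeRestrict ≤ RingHom.ker χ := by
    rw [RingHom.ker_rangeRestrict]
    exact hker
  let χ₁ : A →+* 𝕜 := RingHom.liftOfSurjective e.rangeRestrict e.rangeRestrict_surjective ⟨χ, hkr⟩
  have hχ₁ : ∀ a, χ₁ (e.rangeRestrict a) = χ a := fun a =>
    RingHom.liftOfRightInverse_comp_apply _ _ _ ⟨χ, hkr⟩ a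
  let P₁ : Ideal A := RingHom.ker χ₁
  have hP₁ : P₁.IsPrime := RingHom.ker_isPrime χ₁
  obtain ⟨V, hV⟩ := (LocalSubring.ofPrime A P₁).exists_le_valuationSubring
  have hmem : ∀ a, e a ∈ V := fun a => hV.1 (LocalSubring.le_ofPrime _ _ ⟨a, rfl⟩)
  let fV : 𝒜 →+* V := e.codRestrict V hmem
  have hunit : ∀ a, IsUnit (fV a) ↔ χ a ≠ 0 := by
    intro a
    have h1 : IsUnit (algebraMap A (LocalSubring.ofPrime A P₁).toSubring (e.rangeRestrict a)) ↔
        e.rangeRestrict a ∈ P₁.primeCompl := IsLocalization.AtPrime.isUnit_to_map_iff _ P₁ _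
    have h2 : e.rangeRestrict a ∈ P₁.primeCompl ↔ χ a ≠ 0 := by
      rw [Ideal.mem_primeCompl_iff, RingHom.mem_ker, hχ₁]
    rw [← h2, ← h1]
    have h5 : fV a = Subring.inclusion hV.1
        (algebraMap A (LocalSubring.ofPrime A P₁).toSubring (e.rangeRestrict a)) := rfl
    rw [h5]
    have := hV.2
    exact isUnit_map_iff (Subring.inclusion hV.1) _
  -- the residue field
  let r : V →+* IsLocalRing.ResidueField V := IsLocalRing.residue V
  let g : 𝒜 →+* IsLocalRing.ResidueField V := r.comp fV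
  have hg : ∀ a, g a = 0 ↔ χ a = 0 := by
    intro a
    have h1 : g a = 0 ↔ ¬ IsUnit (fV a) := by
      show IsLocalRing.residue V (fV a) = 0 ↔ _
      rw [IsLocalRing.residue_eq_zero_iff, IsLocalRing.mem_maximalIdeal, mem_nonunits_iff]
    rw [h1, hunit, not_not]
  have hkp : (RingHom.ker χ).IsPrime := RingHom.ker_isPrime χ
  let Q := 𝒜 ⧸ RingHom.ker χ
  let χb : Q →+* 𝕜 := RingHom.kerLift χ
  have hχb : Function.Injective χb := RingHom.kerLift_injective χ
  let gb : Q →+* IsLocalRing.ResidueField V := Ideal.Quotient.lift (RingHom.ker χ) g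
    fun a ha => (hg a).2 ha
  have hgb : Function.Injective gb := by
    rw [injective_iff_map_eq_zero]
    intro x hx
    obtain ⟨a, rfl⟩ := Ideal.Quotient.mk_surjective x
    have h1 : g a = 0 := hx
    exact Ideal.Quotient.eq_zero_iff_mem.2 ((hg a).1 h1)
  obtain ⟨L, Φ, hbL, hΦ, hL⟩ := ext_field (IsFractionRing.lift (A := Q) (K := FractionRing Q) hχb)
    (IsFractionRing.lift (A := Q) (K := FractionRing Q) hgb)
  have ha1 : ∀ x : Q, IsFractionRing.lift (A := Q) (K := FractionRing Q) hχb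
      (algebraMap Q (FractionRing Q) x) = χb x := fun x =>
    IsFractionRing.lift_algebraMap hχb x
  have ha2 : ∀ x : Q, IsFractionRing.lift (A := Q) (K := FractionRing Q) hgb
      (algebraMap Q (FractionRing Q) x) = gb x := fun x => IsFractionRing.lift_algebraMap hgb x
  let Rv : Subring V := Subring.comap r L
  let R : Subring Ω := Rv.map V.subtype
  let ev : Rv ≃+* R := Rv.equivMapOfInjective V.subtype Subtype.val_injective
  let q : Rv →+* L := (r.comp Rv.subtype).codRestrict L fun x => x.2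
  let χ' : R →+* 𝕜 := (Φ.comp q).comp (ev.symm : R →+* Rv)
  have hga : ∀ a, r (fV a) = IsFractionRing.lift (A := Q) (K := FractionRing Q) hgb
      (algebraMap Q (FractionRing Q) (Ideal.Quotient.mk (RingHom.ker χ) a)) := by
    intro a
    rw [ha2]
    rfl
  have hgL : ∀ a, fV a ∈ Rv := by
    intro a
    show r (fV a) ∈ L
    rw [hga]
    exact hbL _
  let f : 𝒜 →+* R := (ev : Rv →+* R).comp (fV.codRestrict Rv hgL)
  refine ⟨R, f, χ', fun a => rfl, ?_, ?_⟩
  · intro s hs
    obtain ⟨P, hP1, hP2⟩ := hS s hs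
    -- `s` is in `V`
    have hu : IsUnit (fV P.leadingCoeff) := (hunit _).2 hP2
    have hlc : fV P.leadingCoeff ≠ 0 := hu.ne_zero
    have hmapdeg : (P.map fV).leadingCoeff = fV P.leadingCoeff :=
      Polynomial.leadingCoeff_map_of_leadingCoeff_ne_zero fV hlc
    have hint : IsIntegral V s := by
      obtain ⟨w, hw⟩ := hu
      refine ⟨C ((w⁻¹ : Vˣ) : V) * P.map fV, Polynomial.monic_C_mul_of_mul_leadingCoeff_eq_one ?_, ?_⟩
      · rw [hmapdeg, ← hw]
        exact w.inv_mul
      · rw [Polynomial.eval₂_mul, Polynomial.eval₂_map]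
        have h1 : (algebraMap V Ω).comp fV = e := rfl
        rw [h1, ← Polynomial.eval_map e s, hP1, mul_zero]
    obtain ⟨y, hy⟩ := (IsIntegrallyClosed.isIntegral_iff (R := V) (K := Ω)).1 hint
    refine ⟨y, ?_, hy⟩
    show r y ∈ L
    refine hL _ ⟨P.map ((algebraMap Q (FractionRing Q)).comp
      (Ideal.Quotient.mk (RingHom.ker χ))), ?_, ?_⟩
    · intro h0
      have h1 := congrArg (fun p => Polynomial.coeff p P.natDegree) h0
      simp only [Polynomial.coeff_map, Polynomial.coeff_zero, RingHom.comp_apply] at h1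
      have h2 := (IsFractionRing.injective Q (FractionRing Q)) (h1.trans (map_zero _).symm)
      exact hP2 (Ideal.Quotient.eq_zero_iff_mem.1 h2)
    · rw [Polynomial.eval₂_map]
      have h1 : (IsFractionRing.lift (A := Q) (K := FractionRing Q) hgb).comp
          ((algebraMap Q (FractionRing Q)).comp (Ideal.Quotient.mk (RingHom.ker χ))) =
          r.comp fV := by
        refine RingHom.ext fun a => ?_
        exact (hga a).symm
      rw [h1, ← Polynomial.hom_eval₂]
      have h2 : Polynomial.eval₂ fV y P = 0 := by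
        apply Subtype.val_injective
        have h3 : ((Polynomial.eval₂ fV y P : V) : Ω) = Polynomial.eval₂ e s P := by
          have h4 := Polynomial.hom_eval₂ P fV V.subtype y
          have h5 : V.subtype y = s := hy
          rw [h5] at h4
          exact h4
        rw [h3, ← Polynomial.eval_map, hP1]
        rfl
      rw [h2, map_zero]
  · intro a
    show Φ (q (ev.symm (ev ⟨fV a, hgL a⟩))) = χ a
    rw [RingEquiv.symm_apply_apply]
    have h1 : q ⟨fV a, hgL a⟩ = ⟨_, hbL (algebraMap Q (FractionRing Q)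
        (Ideal.Quotient.mk (RingHom.ker χ) a))⟩ := by
      apply Subtype.val_injective
      exact hga a
    rw [h1, hΦ, ha1]
    rfl

end Pool.Agent.X295
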