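import Pool.Agent.X295.Fam
import Pool.Agent.X295.Strong

/-!
Families of subsets of `Y(1)^n` with several parameters: the main theorem (helper file).
-/

set_option autoImplicit false

namespace Pool.Agent.X295

open H294ZP UpperHalfPlane MvPolynomial Pool.Agent.W282.ZP Pool.Agent.Y152.RP.Fam
  Pool.Agent.Y152.BD

/-- Families with several parameters which degenerate along sufficiently many hypersurfaces. -/
theorem family (K : Subfield ℂ) (hK : ∀ z ∈ K, IsAlgebraic ℚ z) (κ : Type) [Finite κ]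
    (q N n m M T : ℕ)
    (G : κ → MvPolynomial (Fin (N + 1)) (MvPolynomial (Fin q) K))
    (hG : ∀ k, ∃ e, (G k).IsHomogeneous e)
    (A B : Fin n → MvPolynomial (Fin (N + 1)) (MvPolynomial (Fin q) K)) (d : Fin n → ℕ)
    (hA : ∀ i, (A i).IsHomogeneous (d i)) (hB : ∀ i, (B i).IsHomogeneous (d i))
    (R : Fin n → Polynomial (Polynomial K)) (hR : ∀ i, (R i).Monic)
    (hT : ∀ i u w, ((R i).coeff u).coeff w ≠ 0 → u ≤ T ∧ w ≤ T)
    (c : Fin n → MvPolynomial (Fin q) K) (h : Fin M → MvPolynomial (Fin q) ℤ)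
    (e : Fin M → Fin n → ℕ) (hdeg : ∀ l, DegeneratesAlong m G A B c (h l) (e l))
    (he : ∀ l i, 0 < e l i) (Γ : Finset ℂ) (hΓ : ∀ γ ∈ Γ, γ ∈ K) (ε : ℝ) (hε : 0 < ε)
    (hM : ((min (m + 2) n).choose 2 + 1 ≤ M ∧ ∀ l l', l ≠ l' → ∀ i j, i ≠ j → ∀ a, 0 < a →
        a ≤ T ^ 8 → ¬ IsSquare (a * (e l i * e l j * (e l' i * e l' j)))) ∨
      (m + 2 ≤ M ∧ StrongQ T e)) :
    ∃ C : ℝ, ∀ H : ℕ, 1 ≤ H →
      (({u : Fin q → ℤ | ¬ NoAtypical (algebraMap (Algebra.adjoin ℤ (Γ : Set ℂ)) ℂ) K m
        (scaledImage (fun j => (u j : ℂ)) G A B R c)} ∩ {u | ∀ j, |u j| ≤ H}).ncard : ℝ) ≤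
          C * (H : ℝ) ^ ((q : ℝ) - 1 + ε) := by
  classical
  have hcount : Countable K := by
    have h1 : ((K : Set ℂ)).Countable :=
      (Algebraic.countable ℚ ℂ).mono fun z hz => hK z hz
    exact h1.to_subtype
  have halgK : Algebra.IsAlgebraic ℚ K := ⟨fun z => by
    have h1 := hK z z.2
    exact (isAlgebraic_algebraMap_iff (algebraMap K ℂ).injective).1 h1⟩
  let k := algebraicClosure K ℂ
  have hcl : IsAlgClosure K k := inferInstance
  have hac : IsAlgClosed k := hcl.isAlgClosed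
  have halgk : Algebra.IsAlgebraic K k := hcl.isAlgebraic
  have halg : Algebra.IsAlgebraic ℚ k := Algebra.IsAlgebraic.trans ℚ K k
  let φ : MvPolynomial (Fin q) K →+* MvPolynomial (Fin q) k := MvPolynomial.map (algebraMap K k)
  let φ1 : Polynomial K →+* Polynomial k := Polynomial.mapRingHom (algebraMap K k)
  have hev : ∀ (t : Fin q → k), (algebraMap k ℂ).comp ((MvPolynomial.eval t).comp φ) =
      evalAt K (fun j => algebraMap k ℂ (t j)) := by
    intro t
    refine MvPolynomial.ringHom_ext (fun a => ?_) (fun j => ?_)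
    · simp only [φ, evalAt, RingHom.comp_apply, MvPolynomial.map_C, MvPolynomial.eval_C,
        AlgHom.toRingHom_eq_coe, RingHom.coe_coe, MvPolynomial.aeval_C]
      rfl
    · simp only [φ, evalAt, RingHom.comp_apply, MvPolynomial.map_X, MvPolynomial.eval_X,
        AlgHom.toRingHom_eq_coe, RingHom.coe_coe, MvPolynomial.aeval_X]
  have hevP : ∀ (t : Fin q → k) (P : MvPolynomial (Fin q) K),
      algebraMap k ℂ (MvPolynomial.eval t (φ P)) = evalAt K (fun j => algebraMap k ℂ (t j)) P :=
    fun t P => congrArg (fun f : MvPolynomial (Fin q) K →+* ℂ => f P) (hev t)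
  have hspec : ∀ (t : Fin q → k) (P : MvPolynomial (Fin (N + 1)) (MvPolynomial (Fin q) K))
      (y : Fin (N + 1) → ℂ), aeval y (specM t (MvPolynomial.map φ P)) =
        eval₂ (evalAt K (fun j => algebraMap k ℂ (t j))) y P := by
    intro t P y
    rw [specM, MvPolynomial.map_map, aeval_def, eval₂_map, hev]
  have hh : ∀ (l : Fin M) (t : Fin q → k), algebraMap k ℂ
      (MvPolynomial.eval t (MvPolynomial.map (Int.castRingHom k) (h l))) =
        aeval (fun j => algebraMap k ℂ (t j)) (h l) := by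
    intro l t
    have h1 : ((algebraMap k ℂ).comp ((MvPolynomial.eval t).comp
        (MvPolynomial.map (Int.castRingHom k)))) =
        (aeval (fun j => algebraMap k ℂ (t j)) : MvPolynomial (Fin q) ℤ →ₐ[ℤ] ℂ).toRingHom := by
      refine MvPolynomial.ringHom_ext (fun a => ?_) (fun j => ?_)
      · simp
      · simp
    exact congrArg (fun f : MvPolynomial (Fin q) ℤ →+* ℂ => f (h l)) h1
  have hφh : ∀ l, φ (MvPolynomial.map (Int.castRingHom K) (h l)) =
      MvPolynomial.map (Int.castRingHom k) (h l) := by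
    intro l
    simp only [φ]
    rw [MvPolynomial.map_map, RingHom.ext_int ((algebraMap K k).comp (Int.castRingHom K))
      (Int.castRingHom k)]
  have hprime : ∀ l, Prime (MvPolynomial.map (Int.castRingHom k) (h l)) := fun l =>
    UniqueFactorizationMonoid.irreducible_iff_prime.1 (irr_of (hdeg l).1)
  choose g hcg hgu using fun l => (hdeg l).2.1
  have hgk : ∀ l i, ¬ MvPolynomial.map (Int.castRingHom k) (h l) ∣ φ (g l i) := by
    intro l i hdvd
    obtain ⟨w, hw⟩ := hdvd
    obtain ⟨u, hu1, hu2⟩ := hgu l i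
    apply hu2
    have h1 := congrArg (aeval (R := k) u) hw
    rw [map_mul] at h1
    have h2 : aeval (R := k) u (MvPolynomial.map (Int.castRingHom k) (h l)) = aeval u (h l) := by
      have h3 := MvPolynomial.aeval_map_algebraMap (R := ℤ) k u (h l)
      exact h3
    have h4 : aeval (R := k) u (φ (g l i)) = evalAt K u (g l i) := by
      exact MvPolynomial.aeval_map_algebraMap (R := K) k u (g l i)
    rw [h2, hu1, zero_mul, h4] at h1
    exact h1
  choose a₀ haalg ha0 hapos using fun l => (hdeg l).2.2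
  have hak : ∀ l j, ∃ t : k, algebraMap k ℂ t = a₀ l j := by
    intro l j
    have h2 : IsAlgebraic K (a₀ l j) := (haalg l j).tower_top K
    exact ⟨⟨_, mem_algebraicClosure_iff.2 h2⟩, rfl⟩
  choose a ha using hak
  have ha' : ∀ l, (fun j => algebraMap k ℂ (a l j)) = a₀ l := fun l => funext (ha l)
  choose j0 hj0 using fun l => exists_var (hdeg l).1
  let Γ' : Set k := (fun γ : Γ => algebraMap K k ⟨γ, hΓ γ γ.2⟩) '' Set.univ
  have hΓ' : algebraMap k ℂ '' Γ' = (Γ : Set ℂ) := by
    ext z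
    constructor
    · rintro ⟨_, ⟨g, -, rfl⟩, rfl⟩
      exact g.2
    · intro hz
      exact ⟨_, ⟨⟨z, hz⟩, trivial, rfl⟩, rfl⟩
  obtain ⟨ρ, hρ, W, hW, hΓW, hnear⟩ := nearVM (k := k) (m := m) (M := M)
    (fun i => MvPolynomial.map φ (G i))
    (fun i => by
      obtain ⟨e, he⟩ := hG i
      exact ⟨e, he.map _⟩)
    (fun i => MvPolynomial.map φ (A i)) (fun i => MvPolynomial.map φ (B i)) d
    (fun i => (hA i).map _) (fun i => (hB i).map _)
    (fun i => (R i).map φ1) h hprime (fun i => φ (c i)) e (fun l i => φ (g l i))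
    (fun l i => by rw [hcg l i, map_mul, map_pow, hφh]) hgk a
    (fun l => by
      apply (algebraMap k ℂ).injective
      rw [hh, ha', ha0, map_zero])
    (fun l I hI y h1 h2 => by
      by_contra h0
      obtain ⟨i, hi, h3⟩ := hapos l I hI y ⟨h0, fun i => by
        have h4 := h1 i
        rw [hspec, ha'] at h4
        exact h4⟩
      apply h3
      have h4 := h2 i hi
      rw [hspec, hspec, ha'] at h4
      exact h4)
    Γ' (Set.toFinite _) j0
  have hRk : ∀ i, ((R i).map φ1).Monic := fun i => (hR i).map _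
  have hTk : ∀ i u w, (((R i).map φ1).coeff u).coeff w ≠ 0 → u ≤ T ∧ w ≤ T := by
    intro i u w h0
    rw [Polynomial.coeff_map] at h0
    change ((Polynomial.mapRingHom (algebraMap K k)) ((R i).coeff u)).coeff w ≠ 0 at h0
    rw [Polynomial.coe_mapRingHom, Polynomial.coeff_map] at h0
    exact hT i u w fun h1 => h0 (by rw [h1, map_zero])
  -- the relations at a point
  have hcastf : ∀ u : Fin q → ℤ, (fun j => algebraMap k ℂ ((u j : ℤ) : k)) =
      (fun j => (u j : ℂ)) := fun u => funext fun j => map_intCast _ _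
  have hdata : ∀ (u : Fin q → ℤ) (r : ℕ)
      (Z : SpecialVariety (algebraMap (Algebra.adjoin ℤ (Γ : Set ℂ)) ℂ) n r) (x s : Fin n → ℂ)
      (y : Fin (N + 1) → ℂ), x ∈ Z.locus → OnB (fun j => (u j : ℂ)) G y →
      (∀ i, valueAt (R i) (s i) (x i) = 0 ∧
        evalAt K (fun j => (u j : ℂ)) (c i) * eval₂ (evalAt K (fun j => (u j : ℂ))) y (B i) * s i =
          eval₂ (evalAt K (fun j => (u j : ℂ))) y (A i)) →
      (∀ i, Z.cls i = none → IsIntegral (Algebra.adjoin ℤ (algebraMap k ℂ '' Γ')) (x i)) ∧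
      (∀ i, Polynomial.eval₂ (Polynomial.aeval (x i) : Polynomial k →ₐ[k] ℂ).toRingHom (s i)
        ((R i).map φ1) = 0) ∧
      (∀ i, aeval y (specM (fun j => ((u j : ℤ) : k)) (MvPolynomial.map φ (G i))) = 0) ∧
      (∀ i, algebraMap k ℂ (MvPolynomial.eval (fun j => ((u j : ℤ) : k)) (φ (c i))) *
        aeval y (specM (fun j => ((u j : ℤ) : k)) (MvPolynomial.map φ (B i))) * s i =
        aeval y (specM (fun j => ((u j : ℤ) : k)) (MvPolynomial.map φ (A i)))) := by
    intro u r Z x s y hxZ hy hxy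
    refine ⟨fun i hi => ?_, fun i => ?_, fun i => ?_, fun i => ?_⟩
    · obtain ⟨z, hz⟩ := hxZ
      rw [hΓ', (hz i).1 hi]
      rcases Z.allowed i with ⟨τ, hτ, hc⟩ | h
      · rw [hc]
        exact (singular_modulus_integral τ hτ).tower_top
      · exact h
    · rw [Polynomial.eval₂_map]
      have h1 : ((Polynomial.aeval (x i) : Polynomial k →ₐ[k] ℂ).toRingHom).comp φ1 =
          (Polynomial.aeval (x i) : Polynomial K →ₐ[K] ℂ).toRingHom := by
        ext z
        · simp [φ1]
        · simp [φ1]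
      rw [h1]
      exact (hxy i).1
    · rw [hspec, hcastf]
      exact hy.2 i
    · rw [hspec, hspec, hevP, hcastf]
      exact (hxy i).2
  have hΓV : ∀ V : ValuationSubring ℂ, (∀ z ∈ W, algebraMap k ℂ z ∈ V) →
      ∀ z ∈ Γ', algebraMap k ℂ z ∈ V := fun V hV z hz => hV z (hΓW hz)
  obtain ⟨D, hD⟩ := exists_placesM (k := k) (q := q) W hW
  refine count_union h j0 hj0 ρ hρ D hε _ fun u hu => ?_
  by_contra hcon
  push Not at hcon
  apply hu
  intro r Z
  have hpt : ∀ x ∈ scaledImage (fun j => (u j : ℂ)) G A B R c ∩ Z.locus,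
      ∀ S : Finset (Fin n), AlgebraicIndependent K (fun i : S => x i) → S.card + n ≤ r + m := by
    rintro x ⟨⟨y, hy, s, hxy⟩, hxZ⟩ S hS
    have hSk : AlgebraicIndependent k (fun i : S => x i) := hS.extendScalars k
    choose V hV1 hV2 hVW hVx using fun l => hD _ _ u (hcon l) S _ hSk
    obtain ⟨h1, h2, h3, h4⟩ := hdata u r Z x s y hxZ hy hxy
    rcases hM with ⟨hM, hind⟩ | ⟨hM, hind⟩
    · exact coreW (m := m) (T := T) hM (fun i => (R i).map φ1) hRk hTk e he hind
        Z.cls (fun i i' => ((Z.mat i).det * (Z.mat i').det).toNat) x s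
        (fun i i' => by
          have := mul_pos (Z.det_pos i) (Z.det_pos i')
          omega)
        (fun i hi => alg_of_int Γ' (h1 i hi)) (fun i j l hi hj => rel_of_locus Z hxZ i j l hi hj)
        h2 S hSk V
        (fun l => (V l).valuation ((MvPolynomial.eval u (h l) : ℤ) : ℂ)) hV1
        (fun l i hi => v_le_of_int Γ' (V l) (hΓV _ (hVW l)) (h1 i hi))
        (fun l => (hnear (V l) (hVW l)).1) hVx
        (fun l => (hnear (V l) (hVW l)).2 l u (hV1 l) (hV2 l) s y hy.1 h3 h4)
    · exact coreS (m := m) (T := T) hM (fun i => (R i).map φ1) hRk hTk e he hind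
        Z.cls (fun i => ((Z.mat i).det).toNat) x s
        (fun i => by
          have := Z.det_pos i
          omega)
        (fun i hi => alg_of_int Γ' (h1 i hi))
        (fun i j l hi hj => by
          have h5 : (Z.mat i).det.toNat * (Z.mat j).det.toNat =
              ((Z.mat i).det * (Z.mat j).det).toNat := by
            rw [Int.toNat_mul (Z.det_pos i).le (Z.det_pos j).le]
          rw [h5]
          exact rel_of_locus Z hxZ i j l hi hj)
        h2 S hSk V
        (fun l => (V l).valuation ((MvPolynomial.eval u (h l) : ℤ) : ℂ)) hV1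
        (fun l i hi => v_le_of_int Γ' (V l) (hΓV _ (hVW l)) (h1 i hi))
        (fun l => (hnear (V l) (hVW l)).1) hVx
        (fun l => (hnear (V l) (hVW l)).2 l u (hV1 l) (hV2 l) s y hy.1 h3 h4)
  refine ⟨?_, hpt⟩
  intro A' hA' hcl' hprime'
  obtain ⟨x, hxW, T', hT', hdim⟩ := Pool.Agent.W466.ZC.generic_dim K A' hprime' hcl'
  have h2 := hpt x (hA' hxW) T' hT'
  calc zdim A' + (n : Cardinal) ≤ (T'.card : Cardinal) + (n : Cardinal) := by gcongr
    _ = ((T'.card + n : ℕ) : Cardinal) := by push_cast; rfl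
    _ ≤ ((r + m : ℕ) : Cardinal) := by exact_mod_cast h2
    _ = (r : Cardinal) + (m : Cardinal) := by push_cast; rfl

end Pool.Agent.X295
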