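import Pool.Agent.X295.EllB

/-!
Counting integral vectors at which all large prime factors of a polynomial have exponents divisible
by some large number (helper file).
-/

set_option autoImplicit false

namespace Pool.Agent.X295

open MvPolynomial

theorem log_bound {ε : ℝ} (hε : 0 < ε) : ∃ C : ℝ, 1 ≤ C ∧ ∀ X : ℕ, 1 ≤ X →
    ((Nat.log 2 X + 1 : ℕ) : ℝ) ≤ C * (X : ℝ) ^ ε := by
  refine ⟨2 / ε + 1, by linarith [(by positivity : (0 : ℝ) < 2 / ε)], fun X hX => ?_⟩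
  have hX1 : (1 : ℝ) ≤ X := by exact_mod_cast hX
  have h1 : ((Nat.log 2 X : ℕ) : ℝ) * Real.log 2 ≤ Real.log X := by
    rw [← Real.log_pow]
    refine Real.log_le_log (by positivity) ?_
    exact_mod_cast Nat.pow_log_le_self 2 (by omega : X ≠ 0)
  have h2 : (1 : ℝ) / 2 ≤ Real.log 2 := by
    have := Real.log_two_gt_d9
    linarith
  have h3 : Real.log X ≤ (X : ℝ) ^ ε / ε := Real.log_le_rpow_div (by positivity) hε
  have h4 : ((Nat.log 2 X : ℕ) : ℝ) ≤ 2 * ((X : ℝ) ^ ε / ε) := by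
    have h5 : (0 : ℝ) ≤ (Nat.log 2 X : ℕ) := Nat.cast_nonneg _
    nlinarith
  have h5 : (1 : ℝ) ≤ (X : ℝ) ^ ε := Real.one_le_rpow hX1 hε.le
  push_cast
  calc ((Nat.log 2 X : ℕ) : ℝ) + 1 ≤ 2 * ((X : ℝ) ^ ε / ε) + (X : ℝ) ^ ε := add_le_add h4 h5
    _ = (2 / ε + 1) * (X : ℝ) ^ ε := by ring

open Classical in
/-- The number of integers all whose prime factors not dividing a given number have exponents
divisible by some `β ≥ N`. -/
theorem count_powU {ε : ℝ} (hε : 0 < ε) : ∃ C : ℝ, 1 ≤ C ∧ ∀ N M X Z : ℕ, 0 < N → M ≠ 0 →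
    1 ≤ X → 1 ≤ Z →
    ((((Finset.Icc 1 X).filter fun v => ∃ T : ℕ, 1 ≤ T ∧ T ≤ Z ∧ ∃ β : ℕ, N ≤ β ∧
      ∀ p : ℕ, p.Prime → ¬ p ∣ T * M → β ∣ v.factorization p).card : ℕ) : ℝ) ≤
      C * Z * (((Z : ℝ) * M) ^ ε * (X : ℝ) ^ (2 * ε)) * (X : ℝ) ^ (1 / (N : ℝ)) := by
  obtain ⟨C, hC, h⟩ := count_pow hε
  obtain ⟨C', hC', h'⟩ := log_bound hε
  refine ⟨C * C', one_le_mul_of_one_le_of_one_le hC hC', fun N M X Z hN hM hX hZ => ?_⟩
  have hX1 : (1 : ℝ) ≤ X := by exact_mod_cast hX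
  have hX0 : (0 : ℝ) < X := by linarith
  have hN' : (0 : ℝ) < N := by exact_mod_cast hN
  set b := Nat.log 2 X with hb
  set S : ℕ → ℕ → Finset ℕ := fun T β => (Finset.Icc 1 X).filter fun v =>
    ∀ p : ℕ, p.Prime → ¬ p ∣ T * M → β ∣ v.factorization p with hS
  have hsub : ((Finset.Icc 1 X).filter fun v => ∃ T : ℕ, 1 ≤ T ∧ T ≤ Z ∧ ∃ β : ℕ, N ≤ β ∧
      ∀ p : ℕ, p.Prime → ¬ p ∣ T * M → β ∣ v.factorization p) ⊆
      (Finset.Icc 1 Z).biUnion fun T => (Finset.range (b + 1)).biUnion fun i => S T (N + i) := by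
    intro v hv
    obtain ⟨hv1, T, hT1, hT2, β, hβ, hp⟩ := Finset.mem_filter.1 hv
    rw [Finset.mem_biUnion]
    refine ⟨T, Finset.mem_Icc.2 ⟨hT1, hT2⟩, ?_⟩
    rw [Finset.mem_biUnion]
    by_cases hβb : β - N ≤ b
    · refine ⟨β - N, Finset.mem_range.2 (by omega), Finset.mem_filter.2 ⟨hv1, ?_⟩⟩
      rw [show N + (β - N) = β by omega]
      exact hp
    · refine ⟨0, Finset.mem_range.2 (by omega), Finset.mem_filter.2 ⟨hv1, fun p hpp hpd => ?_⟩⟩
      have h1 := hp p hpp hpd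
      rw [Finset.mem_Icc] at hv1
      have h2 : v.factorization p ≤ b := by
        rw [hb]
        refine Nat.le_log_of_pow_le (by norm_num) ?_
        calc 2 ^ v.factorization p ≤ p ^ v.factorization p := Nat.pow_le_pow_left hpp.two_le _
          _ ≤ v := Nat.ordProj_le p (by omega)
          _ ≤ X := hv1.2
      have h3 : v.factorization p = 0 := Nat.eq_zero_of_dvd_of_lt h1 (by omega)
      rw [h3]
      exact dvd_zero _
  have hone : ∀ T ∈ Finset.Icc 1 Z, ∀ i ∈ Finset.range (b + 1), ((S T (N + i)).card : ℝ) ≤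
      C * (((Z : ℝ) * M) ^ ε * (X : ℝ) ^ ε) * (X : ℝ) ^ (1 / (N : ℝ)) := by
    intro T hT i hi
    rw [Finset.mem_Icc] at hT
    have h1 := h (N + i) (T * M) X (by omega) (Nat.mul_ne_zero (by omega) hM)
    refine h1.trans ?_
    have h2 : ((T * M : ℕ) : ℝ) ^ ε ≤ ((Z : ℝ) * M) ^ ε := by
      refine Real.rpow_le_rpow (Nat.cast_nonneg _) ?_ hε.le
      push_cast
      have : (T : ℝ) ≤ Z := by exact_mod_cast hT.2
      gcongr
    have h3 : (X : ℝ) ^ (1 / ((N + i : ℕ) : ℝ)) ≤ (X : ℝ) ^ (1 / (N : ℝ)) := by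
      refine Real.rpow_le_rpow_of_exponent_le hX1 ?_
      refine one_div_le_one_div_of_le hN' ?_
      push_cast
      have : (0 : ℝ) ≤ i := Nat.cast_nonneg _
      linarith
    gcongr
  calc _ ≤ (((Finset.Icc 1 Z).biUnion fun T => (Finset.range (b + 1)).biUnion fun i =>
        S T (N + i)).card : ℝ) := by exact_mod_cast Finset.card_le_card hsub
    _ ≤ ∑ T ∈ Finset.Icc 1 Z, ∑ i ∈ Finset.range (b + 1), ((S T (N + i)).card : ℝ) := by
        have h1 : ((Finset.Icc 1 Z).biUnion fun T => (Finset.range (b + 1)).biUnion fun i =>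
            S T (N + i)).card ≤ ∑ T ∈ Finset.Icc 1 Z, ∑ i ∈ Finset.range (b + 1),
            (S T (N + i)).card := by
          refine Finset.card_biUnion_le.trans (Finset.sum_le_sum fun T _ => ?_)
          exact Finset.card_biUnion_le
        exact_mod_cast h1
    _ ≤ ∑ T ∈ Finset.Icc 1 Z, ∑ i ∈ Finset.range (b + 1),
        (C * (((Z : ℝ) * M) ^ ε * (X : ℝ) ^ ε) * (X : ℝ) ^ (1 / (N : ℝ))) :=
        Finset.sum_le_sum fun T hT => Finset.sum_le_sum fun i hi => hone T hT i hi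
    _ = Z * ((b + 1 : ℕ) * (C * (((Z : ℝ) * M) ^ ε * (X : ℝ) ^ ε) * (X : ℝ) ^ (1 / (N : ℝ)))) := by
        rw [Finset.sum_const, Finset.sum_const, Nat.card_Icc, Finset.card_range, nsmul_eq_mul,
          nsmul_eq_mul, Nat.add_sub_cancel]
    _ ≤ Z * ((C' * (X : ℝ) ^ ε) * (C * (((Z : ℝ) * M) ^ ε * (X : ℝ) ^ ε) *
        (X : ℝ) ^ (1 / (N : ℝ)))) := by
        have h1 := h' X hX
        gcongr
    _ = C * C' * Z * (((Z : ℝ) * M) ^ ε * (X : ℝ) ^ (2 * ε)) * (X : ℝ) ^ (1 / (N : ℝ)) := by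
        rw [two_mul, Real.rpow_add hX0]
        ring

/-- For all `T ≤ Z` and `β ≥ N`, `h` has at `u` a prime factor which is not a divisor of `T D ρ`, with an
exponent which is not divisible by `β`. -/
def GoodU {q : ℕ} (N Z : ℕ) (h ρ : MvPolynomial (Fin q) ℤ) (D : ℕ) (u : Fin q → ℤ) : Prop :=
  eval u h ≠ 0 ∧ eval u ρ ≠ 0 ∧ ∀ T : ℕ, 1 ≤ T → T ≤ Z → ∀ β : ℕ, N ≤ β → ∃ p : ℕ, p.Prime ∧
    ¬ p ∣ T * (D * (eval u ρ).natAbs) ∧ ¬ β ∣ (eval u h).natAbs.factorization p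

open Classical in
/-- The number of vectors in the box which are not good. -/
theorem bad_countU {q : ℕ} (N : ℕ) (hN : 0 < N) (h : MvPolynomial (Fin q) ℤ) (j0 : Fin q)
    (hd : 0 < (asPoly j0 h).natDegree) (ρ : MvPolynomial {j : Fin q // j ≠ j0} ℤ) (hρ : ρ ≠ 0)
    (D : ℕ) (hD : D ≠ 0) {ε : ℝ} (hε : 0 < ε) :
    ∃ C : ℝ, 0 ≤ C ∧ ∀ H Z : ℕ, 1 ≤ H → 1 ≤ Z →
      (((box q H).filter fun u => ¬ GoodU N Z h (rename Subtype.val ρ) D u).card : ℝ) ≤
        C * (Z : ℝ) ^ (1 + ε) * (H : ℝ) ^ ((q : ℝ) - 1 + h.totalDegree / N + ε) := by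
  obtain ⟨A0, hA0⟩ := poly_boundT h
  obtain ⟨B, b, hB⟩ := poly_bound ρ
  set a := h.totalDegree with ha
  set A : ℕ := A0 + 1 with hAdef
  have hA : ∀ H : ℕ, 1 ≤ H → ∀ u : Fin q → ℤ, (∀ i, |u i| ≤ H) →
      |eval u h| ≤ A * (H : ℤ) ^ a := by
    intro H hH u hu
    refine (hA0 H hH u hu).trans ?_
    have : (A0 : ℤ) ≤ A := by rw [hAdef]; push_cast; omega
    gcongr
  set ε' : ℝ := ε / (2 * a + b + 1) with hε'
  have hε'0 : 0 < ε' := by positivity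
  have hε'1 : ε' ≤ ε := by
    rw [hε']
    refine div_le_self hε.le ?_
    have h1 : (0 : ℝ) ≤ a := Nat.cast_nonneg _
    have h2 : (0 : ℝ) ≤ b := Nat.cast_nonneg _
    linarith
  have hN' : (0 : ℝ) < N := by exact_mod_cast hN
  obtain ⟨C1, hC1, hcount⟩ := count_powU hε'0
  set d := (asPoly j0 h).natDegree with hdd
  set P : MvPolynomial (Fin q) ℤ := rename Subtype.val (ρ * (asPoly j0 h).leadingCoeff) with hP
  have hlc : (asPoly j0 h).leadingCoeff ≠ 0 := by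
    rw [Ne, Polynomial.leadingCoeff_eq_zero]
    intro h0
    rw [hdd, h0, Polynomial.natDegree_zero] at hd
    omega
  have hP0 : P ≠ 0 := by
    intro h0
    exact mul_ne_zero hρ hlc (rename_injective _ Subtype.val_injective (h0.trans (map_zero _).symm))
  have hq : 0 < q := j0.pos
  set κ : ℝ := a / N + ε with hκ
  have hκ0 : 0 < κ := by positivity
  set c2 : ℝ := 1 + 2 * (C1 * ((D * B : ℝ) ^ ε' * (A : ℝ) ^ (2 * ε')) * (A : ℝ) ^ (1 / (N : ℝ)))
    with hc2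
  have hc20 : 0 ≤ c2 := by positivity
  refine ⟨3 ^ (q - 1) * (P.totalDegree + d * c2), by positivity, fun H Z hH hZ => ?_⟩
  have hH1 : (1 : ℝ) ≤ H := by exact_mod_cast hH
  have hH0 : (0 : ℝ) < H := by linarith
  have hZ1' : (1 : ℝ) ≤ Z := by exact_mod_cast hZ
  have hZ0 : (0 : ℝ) < Z := by linarith
  set F := (box q H).filter fun u => ¬ GoodU N Z h (rename Subtype.val ρ) D u with hF
  set Z1 := (box q H).filter fun u => eval u P = 0 with hZ1
  set Z2 := (box q H).filter fun u => eval u P ≠ 0 ∧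
    ¬ GoodU N Z h (rename Subtype.val ρ) D u with hZ2
  have hsub : F ⊆ Z1 ∪ Z2 := by
    intro u hu
    rw [hF, Finset.mem_filter] at hu
    rw [Finset.mem_union, hZ1, hZ2, Finset.mem_filter, Finset.mem_filter]
    by_cases h0 : eval u P = 0
    · exact Or.inl ⟨hu.1, h0⟩
    · exact Or.inr ⟨hu.1, h0, hu.2⟩
  have h1 : (Z1.card : ℝ) ≤ P.totalDegree * (2 * H + 1 : ℝ) ^ (q - 1) := by
    exact_mod_cast zeros hq hP0 H
  -- the second set
  let g : (Fin q → ℤ) → ({j : Fin q // j ≠ j0} → ℤ) := fun u j => u j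
  have himg : (Z2.image g).card ≤ (2 * H + 1) ^ (q - 1) := by
    calc (Z2.image g).card ≤ (Fintype.piFinset fun _ : {j : Fin q // j ≠ j0} =>
          Finset.Icc (-(H : ℤ)) H).card := by
          refine Finset.card_le_card fun w hw => ?_
          obtain ⟨u, hu, rfl⟩ := Finset.mem_image.1 hw
          rw [Fintype.mem_piFinset]
          intro j
          exact Fintype.mem_piFinset.1 (Finset.mem_filter.1 hu).1 j
      _ = (2 * H + 1) ^ (q - 1) := by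
          rw [Fintype.card_piFinset, Finset.prod_const, card_Icc, Finset.card_univ,
            Fintype.card_subtype_compl, Fintype.card_fin, Fintype.card_unique]
  have hZε : (1 : ℝ) ≤ (Z : ℝ) ^ (1 + ε) := Real.one_le_rpow hZ1' (by linarith)
  have hfib : ∀ w ∈ Z2.image g, ((Z2.filter fun u => g u = w).card : ℝ) ≤
      d * (c2 * ((Z : ℝ) ^ (1 + ε) * (H : ℝ) ^ κ)) := by
    intro w hw
    obtain ⟨u0, hu0, hu0w⟩ := Finset.mem_image.1 hw
    have hu0' := Finset.mem_filter.1 hu0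
    have hevP : ∀ u : Fin q → ℤ, g u = w → eval u P = eval w ρ * eval w (asPoly j0 h).leadingCoeff := by
      intro u hu
      rw [hP, eval_rename, map_mul]
      have : (u ∘ Subtype.val : {j : Fin q // j ≠ j0} → ℤ) = w := hu
      rw [this]
    have hne := hu0'.2.1
    rw [hevP u0 hu0w] at hne
    have hρw : eval w ρ ≠ 0 := left_ne_zero_of_mul hne
    have hlw : eval w (asPoly j0 h).leadingCoeff ≠ 0 := right_ne_zero_of_mul hne
    have hwH : ∀ j, |w j| ≤ H := by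
      intro j
      rw [← hu0w]
      exact mem_box.1 hu0'.1 j
    set M := D * (eval w ρ).natAbs with hM
    have hM0 : M ≠ 0 := Nat.mul_ne_zero hD (Int.natAbs_ne_zero.2 hρw)
    have hAX : 1 ≤ A * H ^ a := Nat.mul_pos (by omega) (pow_pos (by omega) _)
    have hl := line_countV j0 h hd w hlw ((Finset.Icc 1 (A * H ^ a)).filter fun v =>
      ∃ T : ℕ, 1 ≤ T ∧ T ≤ Z ∧ ∃ β : ℕ, N ≤ β ∧
      ∀ p : ℕ, p.Prime → ¬ p ∣ T * M → β ∣ v.factorization p) (Z2.filter fun u => g u = w) (by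
      intro u hu
      obtain ⟨hu1, hu2⟩ := Finset.mem_filter.1 hu
      obtain ⟨hu3, hu4, hu5⟩ := Finset.mem_filter.1 hu1
      refine ⟨fun j => congrFun hu2 j, ?_⟩
      by_cases h0 : eval u h = 0
      · exact Or.inl h0
      refine Or.inr ?_
      rw [Finset.mem_filter, Finset.mem_Icc]
      refine ⟨⟨Int.natAbs_pos.2 h0, ?_⟩, ?_⟩
      · have h6 := hA H hH u (mem_box.1 hu3)
        have h7 : ((eval u h).natAbs : ℤ) ≤ ((A * H ^ a : ℕ) : ℤ) := by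
          rw [Int.natCast_natAbs]
          push_cast
          exact h6
        exact_mod_cast h7
      · have h8 : (u ∘ Subtype.val : {j : Fin q // j ≠ j0} → ℤ) = w := hu2
        have h9 : eval u (rename Subtype.val ρ) = eval w ρ := by rw [eval_rename, h8]
        by_contra hcon
        push Not at hcon
        refine hu5 ⟨h0, by rw [h9]; exact hρw, fun T hT1 hT2 β hβ => ?_⟩
        obtain ⟨p, hp1, hp2, hp3⟩ := hcon T hT1 hT2 β hβ
        exact ⟨p, hp1, by rw [h9]; exact hp2, hp3⟩)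
    have h9 := hcount N M (A * H ^ a) Z hN hM0 hAX hZ
    have hMle : (M : ℝ) ≤ (D * B : ℝ) * (H : ℝ) ^ b := by
      have h10 := hB H hH w hwH
      have h11 : ((eval w ρ).natAbs : ℝ) ≤ B * (H : ℝ) ^ b := by
        have h12 : (((eval w ρ).natAbs : ℤ) : ℤ) ≤ B * (H : ℤ) ^ b := by
          rw [Int.natCast_natAbs]; exact h10
        exact_mod_cast h12
      rw [hM]
      push_cast
      rw [mul_assoc]
      exact mul_le_mul_of_nonneg_left h11 (by positivity)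
    have hpow : ((Z : ℝ) * M) ^ ε' * ((A * H ^ a : ℕ) : ℝ) ^ (2 * ε') ≤
        (Z : ℝ) ^ ε * ((D * B : ℝ) ^ ε' * (A : ℝ) ^ (2 * ε') * (H : ℝ) ^ ε) := by
      have e0 : ((Z : ℝ) * M) ^ ε' ≤ (Z : ℝ) ^ ε * (M : ℝ) ^ ε' := by
        rw [Real.mul_rpow (by positivity) (by positivity)]
        refine mul_le_mul_of_nonneg_right ?_ (by positivity)
        exact Real.rpow_le_rpow_of_exponent_le hZ1' hε'1
      have e1 : (M : ℝ) ^ ε' ≤ (D * B : ℝ) ^ ε' * ((H : ℝ) ^ b) ^ ε' := by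
        rw [← Real.mul_rpow (by positivity) (by positivity)]
        exact Real.rpow_le_rpow (by positivity) hMle hε'0.le
      have e2 : ((A * H ^ a : ℕ) : ℝ) ^ (2 * ε') = (A : ℝ) ^ (2 * ε') * ((H : ℝ) ^ a) ^ (2 * ε') := by
        push_cast
        rw [Real.mul_rpow (by positivity) (by positivity)]
      have e3 : ((H : ℝ) ^ b) ^ ε' * ((H : ℝ) ^ a) ^ (2 * ε') ≤ (H : ℝ) ^ ε := by
        rw [← Real.rpow_natCast, ← Real.rpow_natCast, ← Real.rpow_mul hH0.le,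
          ← Real.rpow_mul hH0.le, ← Real.rpow_add hH0]
        refine Real.rpow_le_rpow_of_exponent_le hH1 ?_
        rw [hε']
        have e4 : (b : ℝ) * (ε / (2 * a + b + 1)) + a * (2 * (ε / (2 * a + b + 1))) =
            (2 * a + b) * ε / (2 * a + b + 1) := by ring
        rw [e4, div_le_iff₀ (by positivity)]
        nlinarith
      rw [e2]
      calc _ ≤ ((Z : ℝ) ^ ε * ((D * B : ℝ) ^ ε' * ((H : ℝ) ^ b) ^ ε')) *
            ((A : ℝ) ^ (2 * ε') * ((H : ℝ) ^ a) ^ (2 * ε')) := by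
            refine mul_le_mul_of_nonneg_right (e0.trans ?_) (by positivity)
            exact mul_le_mul_of_nonneg_left e1 (by positivity)
        _ = (Z : ℝ) ^ ε * ((D * B : ℝ) ^ ε' * (A : ℝ) ^ (2 * ε') *
            (((H : ℝ) ^ b) ^ ε' * ((H : ℝ) ^ a) ^ (2 * ε'))) := by ring
        _ ≤ _ := by
            refine mul_le_mul_of_nonneg_left ?_ (by positivity)
            exact mul_le_mul_of_nonneg_left e3 (by positivity)
    have hpow2 : ((A * H ^ a : ℕ) : ℝ) ^ (1 / (N : ℝ)) =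
        (A : ℝ) ^ (1 / (N : ℝ)) * (H : ℝ) ^ ((a : ℝ) / N) := by
      push_cast
      rw [Real.mul_rpow (by positivity) (by positivity), ← Real.rpow_natCast,
        ← Real.rpow_mul hH0.le]
      congr 2
      rw [mul_one_div]
    have hHκ : (1 : ℝ) ≤ (H : ℝ) ^ κ := Real.one_le_rpow hH1 hκ0.le
    have hl' : ((Z2.filter fun u => g u = w).card : ℝ) ≤ d *
        (1 + 2 * (((Finset.Icc 1 (A * H ^ a)).filter fun v =>
          ∃ T : ℕ, 1 ≤ T ∧ T ≤ Z ∧ ∃ β : ℕ, N ≤ β ∧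
          ∀ p : ℕ, p.Prime → ¬ p ∣ T * M → β ∣ v.factorization p).card : ℝ)) := by
      exact_mod_cast hl
    refine hl'.trans (mul_le_mul_of_nonneg_left ?_ (Nat.cast_nonneg _))
    calc _ ≤ 1 + 2 * (C1 * Z * (((Z : ℝ) * M) ^ ε' * ((A * H ^ a : ℕ) : ℝ) ^ (2 * ε')) *
          ((A * H ^ a : ℕ) : ℝ) ^ (1 / (N : ℝ))) := by gcongr
      _ ≤ 1 + 2 * (C1 * Z * ((Z : ℝ) ^ ε * ((D * B : ℝ) ^ ε' * (A : ℝ) ^ (2 * ε') * (H : ℝ) ^ ε)) *
          ((A : ℝ) ^ (1 / (N : ℝ)) * (H : ℝ) ^ ((a : ℝ) / N))) := by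
          rw [hpow2]
          gcongr
      _ = 1 + 2 * (C1 * ((D * B : ℝ) ^ ε' * (A : ℝ) ^ (2 * ε')) *
          (A : ℝ) ^ (1 / (N : ℝ))) * ((Z : ℝ) ^ (1 + ε) * (H : ℝ) ^ κ) := by
          rw [hκ, Real.rpow_add hH0, Real.rpow_add hZ0, Real.rpow_one]
          ring
      _ ≤ ((Z : ℝ) ^ (1 + ε) * (H : ℝ) ^ κ) + 2 * (C1 * ((D * B : ℝ) ^ ε' * (A : ℝ) ^ (2 * ε')) *
          (A : ℝ) ^ (1 / (N : ℝ))) * ((Z : ℝ) ^ (1 + ε) * (H : ℝ) ^ κ) := by
          have := one_le_mul_of_one_le_of_one_le hZε hHκ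
          gcongr
      _ = c2 * ((Z : ℝ) ^ (1 + ε) * (H : ℝ) ^ κ) := by rw [hc2]; ring
  have h2 : (Z2.card : ℝ) ≤ (d * (c2 * ((Z : ℝ) ^ (1 + ε) * (H : ℝ) ^ κ))) *
      ((2 * H + 1 : ℝ) ^ (q - 1)) := by
    have e1 : (Z2.card : ℝ) = ∑ w ∈ Z2.image g, ((Z2.filter fun u => g u = w).card : ℝ) := by
      have := Finset.card_eq_sum_card_image g Z2
      exact_mod_cast this
    rw [e1]
    calc _ ≤ ∑ w ∈ Z2.image g, (d * (c2 * ((Z : ℝ) ^ (1 + ε) * (H : ℝ) ^ κ))) :=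
          Finset.sum_le_sum hfib
      _ = (Z2.image g).card * (d * (c2 * ((Z : ℝ) ^ (1 + ε) * (H : ℝ) ^ κ))) := by
          rw [Finset.sum_const, nsmul_eq_mul]
      _ ≤ ((2 * H + 1 : ℝ) ^ (q - 1)) * (d * (c2 * ((Z : ℝ) ^ (1 + ε) * (H : ℝ) ^ κ))) := by
          refine mul_le_mul_of_nonneg_right ?_ (by positivity)
          exact_mod_cast himg
      _ = _ := by ring
  have hHκ : (1 : ℝ) ≤ (H : ℝ) ^ κ := Real.one_le_rpow hH1 hκ0.le
  have hZH : (1 : ℝ) ≤ (Z : ℝ) ^ (1 + ε) * (H : ℝ) ^ κ := one_le_mul_of_one_le_of_one_le hZε hHκ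
  have h3 : (2 * H + 1 : ℝ) ^ (q - 1) ≤ 3 ^ (q - 1) * (H : ℝ) ^ (q - 1) := by
    rw [← mul_pow]
    exact pow_le_pow_left₀ (by positivity) (by linarith) _
  have h4 : (H : ℝ) ^ ((q : ℝ) - 1 + a / N + ε) = (H : ℝ) ^ (q - 1) * (H : ℝ) ^ κ := by
    rw [add_assoc, ← hκ, Real.rpow_add hH0, ← Real.rpow_natCast, Nat.cast_sub hq, Nat.cast_one]
  calc (F.card : ℝ) ≤ ((Z1 ∪ Z2).card : ℝ) := by exact_mod_cast Finset.card_le_card hsub
    _ ≤ (Z1.card : ℝ) + Z2.card := by exact_mod_cast Finset.card_union_le _ _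
    _ ≤ P.totalDegree * (2 * H + 1 : ℝ) ^ (q - 1) +
        (d * (c2 * ((Z : ℝ) ^ (1 + ε) * (H : ℝ) ^ κ))) * ((2 * H + 1 : ℝ) ^ (q - 1)) :=
        add_le_add h1 h2
    _ ≤ P.totalDegree * (3 ^ (q - 1) * (H : ℝ) ^ (q - 1)) +
        (d * (c2 * ((Z : ℝ) ^ (1 + ε) * (H : ℝ) ^ κ))) * (3 ^ (q - 1) * (H : ℝ) ^ (q - 1)) := by
        gcongr
    _ ≤ P.totalDegree * (3 ^ (q - 1) * (H : ℝ) ^ (q - 1)) * ((Z : ℝ) ^ (1 + ε) * (H : ℝ) ^ κ) +
        (d * (c2 * ((Z : ℝ) ^ (1 + ε) * (H : ℝ) ^ κ))) * (3 ^ (q - 1) * (H : ℝ) ^ (q - 1)) := by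
        exact add_le_add (le_mul_of_one_le_right (by positivity) hZH) le_rfl
    _ = 3 ^ (q - 1) * (P.totalDegree + d * c2) * (Z : ℝ) ^ (1 + ε) *
        (H : ℝ) ^ ((q : ℝ) - 1 + a / N + ε) := by
        rw [h4]; ring

end Pool.Agent.X295
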