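import Pool.Agent.X295.Elim

/-!
Norms of polynomials over a number field, and elimination (helper file).
-/

set_option autoImplicit false

namespace Pool.Agent.X295.Gal

open MvPolynomial NumberField

section coeffwise

variable {σ R : Type} [CommRing R]

/-- apply an additive functional to the coefficients -/
noncomputable def cw (φ : R →+ ℤ) (f : MvPolynomial σ R) : MvPolynomial σ ℤ :=
  ∑ m ∈ f.support, monomial m (φ (coeff m f))

theorem coeff_cw (φ : R →+ ℤ) (f : MvPolynomial σ R) (m : σ →₀ ℕ) :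
    coeff m (cw φ f) = φ (coeff m f) := by
  classical
  unfold cw
  rw [coeff_sum]
  simp only [coeff_monomial]
  rw [Finset.sum_ite_eq']
  split_ifs with h
  · rfl
  · rw [notMem_support_iff.1 h, map_zero]

theorem eval_cw (φ : R →+ ℤ) (f : MvPolynomial σ R) (u : σ → ℤ) :
    eval u (cw φ f) = φ (eval (fun j => ((u j : ℤ) : R)) f) := by
  unfold cw
  rw [map_sum, eval_eq (fun j => ((u j : ℤ) : R)) f, map_sum]
  refine Finset.sum_congr rfl fun m _ => ?_
  rw [eval_monomial]
  have h1 : (∏ i ∈ m.support, ((u i : ℤ) : R) ^ m i) = ((m.prod fun i e => u i ^ e : ℤ) : R) := by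
    rw [Finsupp.prod]
    push_cast
    rfl
  rw [h1, mul_comm (coeff m f), ← zsmul_eq_mul, map_zsmul, smul_eq_mul, mul_comm]

end coeffwise

variable {K : Type} [Field K] [NumberField K] {q : ℕ}

/-- the matrix of the multiplication by a polynomial -/
noncomputable def nMat (g : MvPolynomial (Fin q) (𝓞 K)) :
    Matrix (Module.Free.ChooseBasisIndex ℤ (𝓞 K)) (Module.Free.ChooseBasisIndex ℤ (𝓞 K))
      (MvPolynomial (Fin q) ℤ) :=
  Matrix.of fun i j => cw ((RingOfIntegers.basis K).coord i).toAddMonoidHom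
    (g * C (RingOfIntegers.basis K j))

open Classical in
/-- the norm of a polynomial -/
noncomputable def nPol (g : MvPolynomial (Fin q) (𝓞 K)) : MvPolynomial (Fin q) ℤ := (nMat g).det

theorem eval_nPol (g : MvPolynomial (Fin q) (𝓞 K)) (u : Fin q → ℤ) :
    eval u (nPol g) = Algebra.norm ℤ (eval (fun j => ((u j : ℤ) : 𝓞 K)) g) := by
  classical
  rw [Algebra.norm_eq_matrix_det (RingOfIntegers.basis K), nPol, RingHom.map_det]
  congr 1
  ext i j
  rw [RingHom.mapMatrix_apply, Matrix.map_apply, Algebra.leftMulMatrix_eq_repr_mul]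
  unfold nMat
  rw [Matrix.of_apply, eval_cw, map_mul, eval_C]
  rfl

/-- the norm is a multiple -/
theorem dvd_nPol (g : MvPolynomial (Fin q) (𝓞 K)) :
    g ∣ MvPolynomial.map (Int.castRingHom (𝓞 K)) (nPol g) := by
  classical
  set b := RingOfIntegers.basis K with hb
  let M : Matrix _ _ (MvPolynomial (Fin q) (𝓞 K)) :=
    (nMat g).map (MvPolynomial.map (Int.castRingHom (𝓞 K)))
  have hsum : ∀ f : MvPolynomial (Fin q) (𝓞 K), ∑ i, C (b i) * MvPolynomial.map (Int.castRingHom (𝓞 K))
      (cw (b.coord i).toAddMonoidHom f) = f := by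
    intro f
    apply MvPolynomial.ext
    intro m
    rw [coeff_sum]
    conv_rhs => rw [← b.sum_repr (coeff m f)]
    refine Finset.sum_congr rfl fun i _ => ?_
    rw [coeff_C_mul, coeff_map, coeff_cw, zsmul_eq_mul, mul_comm]
    rfl
  have hv : Matrix.vecMul (fun i => (C (b i) : MvPolynomial (Fin q) (𝓞 K))) (M - Matrix.scalar _ g) = 0 := by
    funext j
    rw [Matrix.vecMul_sub, Pi.sub_apply, Pi.zero_apply, sub_eq_zero]
    have h1 : Matrix.vecMul (fun i => (C (b i) : MvPolynomial (Fin q) (𝓞 K))) M j = g * C (b j) := by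
      rw [Matrix.vecMul, dotProduct]
      exact hsum (g * C (b j))
    rw [h1]
    rw [Matrix.scalar_apply, Matrix.vecMul_diagonal, mul_comm]
  have hdet : (M - Matrix.scalar _ g).det = 0 := by
    rw [← Matrix.exists_vecMul_eq_zero_iff]
    refine ⟨_, ?_, hv⟩
    intro h0
    have h1 := b.ne_zero (Classical.arbitrary _)
    apply h1
    have h2 := congrFun h0 (Classical.arbitrary _)
    rw [Pi.zero_apply, C_eq_zero] at h2
    exact h2
  have hmap : MvPolynomial.map (Int.castRingHom (𝓞 K)) (nPol g) = M.det := by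
    rw [nPol, RingHom.map_det]
    rfl
  rw [hmap, ← Ideal.mem_span_singleton, ← Ideal.Quotient.eq_zero_iff_mem, RingHom.map_det]
  have h2 := congrArg (Ideal.Quotient.mk (Ideal.span {g})) hdet
  rw [RingHom.map_det, map_zero] at h2
  rw [← h2]
  congr 1
  ext i j
  rw [RingHom.mapMatrix_apply, RingHom.mapMatrix_apply, Matrix.map_apply, Matrix.map_apply,
    Matrix.sub_apply, map_sub]
  have h3 : Ideal.Quotient.mk (Ideal.span {g}) (Matrix.scalar (Module.Free.ChooseBasisIndex ℤ (𝓞 K)) g i j) = 0 := by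
    rw [Ideal.Quotient.eq_zero_iff_mem, Ideal.mem_span_singleton, Matrix.scalar_apply,
      Matrix.diagonal_apply]
    split_ifs
    · exact dvd_refl _
    · exact dvd_zero _
  rw [h3, sub_zero]

theorem exists_ne (g : MvPolynomial (Fin q) (𝓞 K)) (hg : g ≠ 0) :
    ∃ u : Fin q → ℤ, eval (fun j => ((u j : ℤ) : 𝓞 K)) g ≠ 0 := by
  by_contra hcon
  push Not at hcon
  obtain ⟨m, hm⟩ := ne_zero_iff.1 hg
  set b := RingOfIntegers.basis K with hb
  apply hm
  apply b.repr.injective
  rw [map_zero]
  ext i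
  have h1 : cw (b.coord i).toAddMonoidHom g = 0 := by
    apply MvPolynomial.funext
    intro u
    rw [eval_cw, hcon u, map_zero, map_zero]
  have h2 := congrArg (coeff m) h1
  rw [coeff_cw, coeff_zero] at h2
  exact h2

theorem nPol_ne_zero (g : MvPolynomial (Fin q) (𝓞 K)) (hg : g ≠ 0) : nPol g ≠ 0 := by
  obtain ⟨u, hu⟩ := exists_ne g hg
  intro h0
  have h1 := eval_nPol g u
  rw [h0, map_zero] at h1
  exact hu (Algebra.norm_eq_zero_iff.1 h1.symm)

theorem natDegree_asPoly (j0 : Fin q) (h : MvPolynomial (Fin q) ℤ) :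
    (asPoly j0 h).natDegree = h.degreeOf j0 := by
  rw [asPoly, natDegree_optionEquivLeft]
  have h3 : (rename (Equiv.optionSubtypeNe j0).symm h).degreeOf
      ((Equiv.optionSubtypeNe j0).symm j0) = h.degreeOf j0 :=
    degreeOf_rename_of_injective (Equiv.injective _) j0
  rw [Equiv.optionSubtypeNe_symm_self] at h3
  exact h3

/-- the norm contains the variables of the polynomial -/
theorem deg_nPol (g : MvPolynomial (Fin q) (𝓞 K)) (j0 : Fin q) (hg : 0 < g.degreeOf j0) :
    0 < (asPoly j0 (nPol g)).natDegree := by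
  have hg0 : g ≠ 0 := by
    intro h0
    rw [h0, degreeOf_zero] at hg
    exact lt_irrefl _ hg
  rw [natDegree_asPoly]
  obtain ⟨f, hf⟩ := dvd_nPol g
  have hinj : Function.Injective (Int.castRingHom (𝓞 K)) := Int.cast_injective
  have hn0 : MvPolynomial.map (Int.castRingHom (𝓞 K)) (nPol g) ≠ 0 := by
    intro h0
    exact nPol_ne_zero g hg0 (map_injective _ hinj (h0.trans (map_zero _).symm))
  have hf0 : f ≠ 0 := by
    rintro rfl
    rw [mul_zero] at hf
    exact hn0 hf
  have h1 : (MvPolynomial.map (Int.castRingHom (𝓞 K)) (nPol g)).degreeOf j0 =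
      g.degreeOf j0 + f.degreeOf j0 := by
    rw [hf, degreeOf_mul_eq hg0 hf0]
  have h2 : (MvPolynomial.map (Int.castRingHom (𝓞 K)) (nPol g)).degreeOf j0 =
      (nPol g).degreeOf j0 := by
    rw [degreeOf, degreeOf, degrees_map_of_injective _ hinj]
  omega

theorem totalDegree_cw {σ R : Type} [CommRing R] (φ : R →+ ℤ) (f : MvPolynomial σ R) :
    (cw φ f).totalDegree ≤ f.totalDegree := by
  unfold totalDegree
  refine Finset.sup_mono fun m hm => ?_
  rw [mem_support_iff, coeff_cw] at hm
  rw [mem_support_iff]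
  intro h0
  exact hm (by rw [h0, map_zero])

/-- the degree of the norm -/
theorem totalDegree_nPol (g : MvPolynomial (Fin q) (𝓞 K)) :
    (nPol g).totalDegree ≤ Module.finrank ℚ K * g.totalDegree := by
  classical
  have h1 : ∀ i j, (nMat g i j).totalDegree ≤ g.totalDegree := by
    intro i j
    refine (totalDegree_cw _ _).trans ((totalDegree_mul _ _).trans ?_)
    rw [totalDegree_C, add_zero]
  rw [nPol, Matrix.det_apply]
  refine totalDegree_finsetSum_le fun τ _ => ?_
  refine (totalDegree_smul_le _ _).trans ((totalDegree_finsetProd _ _).trans ?_)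
  refine (Finset.sum_le_sum fun i _ => h1 (τ i) i).trans ?_
  rw [Finset.sum_const, Finset.card_univ, smul_eq_mul,
    ← Module.finrank_eq_card_chooseBasisIndex ℤ (𝓞 K), RingOfIntegers.rank]

end Pool.Agent.X295.Gal
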