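import Pool.Agent.X295.GalA
import Pool.Agent.X295.GalB
import Pool.Agent.Y673.FM.Iner
import Pool.Agent.Y673.FM.Ker
import Pool.Agent.Y673.Loc.Bound
import Pool.Agent.Y673.DK.Comp

/-!
Places of a number field and values of polynomials (helper file).
-/

set_option autoImplicit false

namespace Pool.Agent.X295.Gal

open MvPolynomial NumberField IsDedekindDomain Pool.Agent.Y673.Loc Pool.Agent.Y673.FM
open Pool.Agent.Y673.Loc.ZV

theorem elimN {k : Type} [Field k] [CharZero k] [Algebra.IsAlgebraic ℚ k] {q : ℕ}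
    (N : MvPolynomial (Fin q) ℤ) (hN0 : N ≠ 0) (h : MvPolynomial (Fin q) k) (hp : Prime h)
    (hN : h ∣ MvPolynomial.map (Int.castRingHom k) N)
    (Δ : MvPolynomial (Fin q) k) (hΔ : ¬ h ∣ Δ) (j0 : Fin q) :
    ∃ ρ : MvPolynomial {j : Fin q // j ≠ j0} ℤ, ρ ≠ 0 ∧ ∃ α β : MvPolynomial (Fin q) k,
      MvPolynomial.map (Int.castRingHom k) (rename Subtype.val ρ) = α * h + β * Δ := by
  classical
  let I : Ideal (MvPolynomial (Fin q) k) := Ideal.span {h}
  have hI : I.IsPrime := (Ideal.span_singleton_prime hp.ne_zero).2 hp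
  let R := MvPolynomial (Fin q) k ⧸ I
  let B := MvPolynomial {j : Fin q // j ≠ j0} ℤ
  let π : MvPolynomial (Fin q) k →+* R := Ideal.Quotient.mk I
  let φ : B →+* R := (π.comp (MvPolynomial.map (Int.castRingHom k))).comp
    (rename Subtype.val : B →ₐ[ℤ] MvPolynomial (Fin q) ℤ).toRingHom
  let _ : Algebra B R := φ.toAlgebra
  have hφdef : ∀ P : B, φ P = π (MvPolynomial.map (Int.castRingHom k) (rename Subtype.val P)) :=
    fun P => rfl
  obtain ⟨p, hp0, hpe⟩ := alg_all N hN0 π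
    (Ideal.Quotient.eq_zero_iff_mem.2 (Ideal.mem_span_singleton.2 hN)) j0 φ
    (fun j => by rw [hφdef, rename_X, MvPolynomial.map_X]) Δ
  have h1 : IsAlgebraic B (π Δ) := ⟨p, hp0, hpe⟩
  have h2 : π Δ ≠ 0 := by
    intro h0
    apply hΔ
    exact Ideal.mem_span_singleton.1 (Ideal.Quotient.eq_zero_iff_mem.1 h0)
  obtain ⟨ρ, hρ, w, hw⟩ := h1.exists_nonzero_dvd (mem_nonZeroDivisors_of_ne_zero h2)
  obtain ⟨β, rfl⟩ := Ideal.Quotient.mk_surjective w
  refine ⟨ρ, hρ, ?_⟩
  have h3 : π (MvPolynomial.map (Int.castRingHom k) (rename Subtype.val ρ) - β * Δ) = 0 := by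
    rw [map_sub, map_mul, mul_comm (π β)]
    have h4 : π (MvPolynomial.map (Int.castRingHom k) (rename Subtype.val ρ)) =
        π Δ * π β := hw
    rw [h4, sub_self]
  obtain ⟨α, hα⟩ := Ideal.mem_span_singleton.1 (Ideal.Quotient.eq_zero_iff_mem.1 h3)
  refine ⟨α, β, ?_⟩
  rw [mul_comm α, ← hα]
  ring

variable {K : Type} [Field K] [NumberField K] {q : ℕ}

/-- clearing of denominators -/
theorem clear (f : MvPolynomial (Fin q) K) : ∃ d : ℕ, d ≠ 0 ∧ ∃ f₀ : MvPolynomial (Fin q) (𝓞 K),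
    MvPolynomial.map (algebraMap (𝓞 K) K) f₀ = C (d : K) * f := by
  induction f using MvPolynomial.induction_on with
  | C a =>
    obtain ⟨y, hy0, hy⟩ := exists_integral_multiples ℤ ℚ ({a} : Finset K)
    have hy' := hy a (Finset.mem_singleton_self a)
    have h1 : IsIntegral ℤ ((y.natAbs : K) * a) := by
      rw [zsmul_eq_mul] at hy'
      rcases Int.natAbs_eq y with h | h
      · have e : (y : K) = (y.natAbs : K) := by
          conv_lhs => rw [h, Int.cast_natCast]
        rw [← e]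
        exact hy'
      · have e : (y.natAbs : K) = -(y : K) := by
          conv_rhs => rw [h, Int.cast_neg, Int.cast_natCast, neg_neg]
        rw [e, neg_mul]
        exact hy'.neg
    refine ⟨y.natAbs, Int.natAbs_ne_zero.2 hy0, C ⟨(y.natAbs : K) * a, h1⟩, ?_⟩
    rw [MvPolynomial.map_C, ← C_mul]
    rfl
  | add f g hf hg =>
    obtain ⟨d, hd, f₀, hf₀⟩ := hf
    obtain ⟨e, he, g₀, hg₀⟩ := hg
    refine ⟨d * e, Nat.mul_ne_zero hd he, C (e : 𝓞 K) * f₀ + C (d : 𝓞 K) * g₀, ?_⟩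
    simp only [map_add, map_mul, hf₀, hg₀, map_natCast, Nat.cast_mul]
    ring
  | mul_X f j hf =>
    obtain ⟨d, hd, f₀, hf₀⟩ := hf
    refine ⟨d, hd, f₀ * X j, ?_⟩
    rw [map_mul, hf₀, MvPolynomial.map_X]
    ring

theorem eval_int (f₀ : MvPolynomial (Fin q) (𝓞 K)) (u : Fin q → ℤ) :
    eval (fun j => ((u j : ℤ) : K)) (MvPolynomial.map (algebraMap (𝓞 K) K) f₀) =
      algebraMap (𝓞 K) K (eval (fun j => ((u j : ℤ) : 𝓞 K)) f₀) := by
  rw [eval_map, MvPolynomial.eval, coe_eval₂Hom, hom_eval₂]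
  congr 1

/-- values are integral at almost all places -/
theorem int_eval (f : MvPolynomial (Fin q) K) : ∃ D : ℕ, D ≠ 0 ∧
    ∀ v : HeightOneSpectrum (𝓞 K), (adv K v).v (D : K) = 0 → ∀ u : Fin q → ℤ,
      (adv K v).G 0 (eval (fun j => ((u j : ℤ) : K)) f) := by
  obtain ⟨d, hd, f₀, hf₀⟩ := clear f
  refine ⟨d, hd, fun v hv u => ?_⟩
  have hd' : (d : K) ≠ 0 := by exact_mod_cast hd
  have h1 := congrArg (eval (fun j => ((u j : ℤ) : K))) hf₀
  rw [eval_int, map_mul, eval_C] at h1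
  have h2 : eval (fun j => ((u j : ℤ) : K)) f =
      algebraMap (𝓞 K) K (eval (fun j => ((u j : ℤ) : 𝓞 K)) f₀) / (d : K) := by
    rw [h1]
    field_simp
  rw [h2]
  exact gdu (G_zero_int v _) ⟨hd', hv⟩

theorem adv_cnt (v : HeightOneSpectrum (𝓞 K)) {u : 𝓞 K} (hu : u ≠ 0) :
    (adv K v).v (u : K) =
      (Associates.mk v.asIdeal).count (Associates.mk (Ideal.span {u})).factors := by
  show -WithZero.log (v.valuation K (algebraMap (𝓞 K) K u)) = _
  rw [v.valuation_of_algebraMap, v.intValuation_if_neg hu, WithZero.log_exp, neg_neg]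

theorem mem_of_v (v : HeightOneSpectrum (𝓞 K)) {x : 𝓞 K} (hx : x ≠ 0)
    (h : (adv K v).v (x : K) ≠ 0) : x ∈ v.asIdeal := by
  have h1 : 0 ≤ (adv K v).v (algebraMap (𝓞 K) K x) := adv_nonneg K v x hx
  have h2 : ((1 : ℕ) : ℤ) ≤ (adv K v).v (algebraMap (𝓞 K) K x) := by
    have h3 : (adv K v).v (algebraMap (𝓞 K) K x) ≠ 0 := h
    push_cast
    omega
  have h3 := (le_adv_iff K v x hx 1).1 h2
  rwa [pow_one] at h3

theorem nat_zero (v : HeightOneSpectrum (𝓞 K)) {p : ℕ} (hp : p.Prime)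
    (hpv : (p : 𝓞 K) ∈ v.asIdeal) {n : ℕ} (hn : ¬ p ∣ n) : (adv K v).v (n : K) = 0 := by
  by_contra hcon
  have hn0 : n ≠ 0 := by
    rintro rfl
    exact hn (dvd_zero _)
  have h1 : (n : 𝓞 K) ∈ v.asIdeal := by
    apply mem_of_v v (by exact_mod_cast hn0)
    have e : ((n : 𝓞 K) : K) = (n : K) := map_natCast (algebraMap (𝓞 K) K) n
    rw [e]
    exact hcon
  obtain ⟨a, b, hab⟩ := Nat.isCoprime_iff_coprime.2 ((Nat.Prime.coprime_iff_not_dvd hp).2 hn)
  apply v.isPrime.ne_top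
  rw [Ideal.eq_top_iff_one]
  have h2 : ((a : ℤ) : 𝓞 K) * p + ((b : ℤ) : 𝓞 K) * n = 1 := by exact_mod_cast congrArg (fun z : ℤ => (z : 𝓞 K)) hab
  rw [← h2]
  exact Ideal.add_mem _ (Ideal.mul_mem_left _ _ hpv) (Ideal.mul_mem_left _ _ h1)

/-- the multiplicity of a prime in the norm -/
theorem norm_fac {x : 𝓞 K} (hx : x ≠ 0) {p β : ℕ} (hp : p.Prime)
    (h : ∀ v : HeightOneSpectrum (𝓞 K), (p : 𝓞 K) ∈ v.asIdeal → (β : ℤ) ∣ (adv K v).v (x : K)) :
    β ∣ (Algebra.norm ℤ x).natAbs.factorization p := by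
  classical
  have hI : Ideal.span {x} ≠ 0 := by
    rw [Ne, Ideal.zero_eq_bot, Ideal.span_singleton_eq_bot]
    exact hx
  rw [← Ideal.absNorm_span_singleton]
  set I := Ideal.span {x} with hIdef
  have h1 : (UniqueFactorizationMonoid.normalizedFactors I).prod = I := by
    have := UniqueFactorizationMonoid.prod_normalizedFactors hI
    exact associated_iff_eq.1 this
  have h2 : Ideal.absNorm I = ∏ P ∈ (UniqueFactorizationMonoid.normalizedFactors I).toFinset,
      Ideal.absNorm P ^ (UniqueFactorizationMonoid.normalizedFactors I).count P := by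
    conv_lhs => rw [← h1, Finset.prod_multiset_count, map_prod]
    refine Finset.prod_congr rfl fun P _ => ?_
    rw [map_pow]
  have hP : ∀ P ∈ (UniqueFactorizationMonoid.normalizedFactors I).toFinset,
      Prime P ∧ P ≠ ⊥ := by
    intro P hP
    rw [Multiset.mem_toFinset] at hP
    have h3 := UniqueFactorizationMonoid.prime_of_normalized_factor P hP
    exact ⟨h3, h3.ne_zero⟩
  rw [h2, Nat.factorization_prod_apply (fun P hP' => pow_ne_zero _ (by
    rw [Ne, Ideal.absNorm_eq_zero_iff]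
    exact (hP P hP').2))]
  refine Finset.dvd_sum fun P hP' => ?_
  obtain ⟨hPp, hP0⟩ := hP P hP'
  rw [Nat.factorization_pow, Finsupp.smul_apply, smul_eq_mul]
  have hPP : P.IsPrime := (Ideal.prime_iff_isPrime hP0).1 hPp
  let v : HeightOneSpectrum (𝓞 K) := ⟨P, hPP, hP0⟩
  by_cases hpv : (p : 𝓞 K) ∈ P
  · refine Dvd.dvd.mul_right ?_ _
    have h4 := h v hpv
    rw [adv_cnt v hx] at h4
    have h5 : (Associates.mk v.asIdeal).count (Associates.mk (Ideal.span {x})).factors =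
        (UniqueFactorizationMonoid.normalizedFactors I).count P := by
      exact Ideal.count_associates_factors_eq hI hPP hP0
    rw [h5] at h4
    exact_mod_cast h4
  · have h6 : (Ideal.absNorm P).factorization p = 0 := by
      refine Nat.factorization_eq_zero_of_not_dvd fun h7 => hpv ?_
      have : P.IsMaximal := hPP.isMaximal hP0
      obtain ⟨r, n, hn, hrP, hr, hrn⟩ := Ideal.exists_prime_and_absNorm_eq_pow P
      rw [hrn] at h7
      have h8 := (Nat.prime_dvd_prime_iff_eq hp hr).1 (hp.dvd_of_dvd_pow h7)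
      rw [h8]
      exact hrP
    rw [h6, mul_zero]
    exact dvd_zero _

end Pool.Agent.X295.Gal
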