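import Pool.Agent.X295.GalC

/-!
Places at which the value of an irreducible polynomial has a valuation which is not divisible by a
given large number (helper file).
-/

set_option autoImplicit false

namespace Pool.Agent.X295.Gal

open MvPolynomial NumberField IsDedekindDomain Pool.Agent.Y673.Loc Pool.Agent.Y673.FM
open Pool.Agent.Y673.Loc.ZV

/-- a place above -/
theorem above (K L : Type) [Field K] [NumberField K] [Field L] [NumberField L] [Algebra K L]
    (v : HeightOneSpectrum (𝓞 K)) : ∃ (w : HeightOneSpectrum (𝓞 L)) (e : ℕ), 1 ≤ e ∧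
    e ≤ Module.finrank ℚ L ∧ ∀ x : K, (adv L w).v (algebraMap K L x) = e * (adv K v).v x := by
  obtain ⟨⟨P, hP, hPv⟩⟩ := (inferInstance : Nonempty (Ideal.primesOver v.asIdeal (𝓞 L)))
  have hP0 : P ≠ ⊥ := Ideal.ne_bot_of_liesOver_of_ne_bot v.ne_bot P
  let w : HeightOneSpectrum (𝓞 L) := ⟨P, hP, hP0⟩
  have hw : w.asIdeal.LiesOver v.asIdeal := hPv
  have h1 : 1 ≤ v.asIdeal.ramificationIdx' w.asIdeal := Nat.one_le_iff_ne_zero.2
      (Ideal.IsDedekindDomain.ramificationIdx'_ne_zero_of_liesOver w.asIdeal v.ne_bot)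
  have h2 : ∀ x : K, (adv L w).v (algebraMap K L x) =
      (v.asIdeal.ramificationIdx' w.asIdeal : ℕ) * (adv K v).v x := by
    intro x
    show -WithZero.log (w.valuation L (algebraMap K L x)) = _ * (-WithZero.log (v.valuation K x))
    rw [← HeightOneSpectrum.valuation_liesOver L v w, WithZero.log_pow]
    simp
  refine ⟨w, v.asIdeal.ramificationIdx' w.asIdeal, h1, ?_, h2⟩
  have : v.asIdeal.IsMaximal := v.isPrime.isMaximal v.ne_bot
  obtain ⟨p, n, hn, hpv, hp, -⟩ := Ideal.exists_prime_and_absNorm_eq_pow v.asIdeal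
  have h3 := v_prime_le w hp
  have h4 := h2 (p : K)
  rw [map_natCast] at h4
  have h5 : 1 ≤ (adv K v).v (p : K) := by
    have h6 := (le_adv_iff K v (p : 𝓞 K) (by exact_mod_cast hp.ne_zero) 1).2 (by
      rw [pow_one]; exact hpv)
    have e : algebraMap (𝓞 K) K (p : 𝓞 K) = (p : K) := map_natCast (algebraMap (𝓞 K) K) p
    rw [e] at h6
    exact_mod_cast h6
  rw [h4] at h3
  have h6 : (v.asIdeal.ramificationIdx' w.asIdeal : ℤ) ≤ Module.finrank ℚ L := by
    have h7 : (0 : ℤ) ≤ (v.asIdeal.ramificationIdx' w.asIdeal : ℤ) := Nat.cast_nonneg _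
    nlinarith
  exact_mod_cast h6

variable {K : Type} [Field K] [NumberField K] {q : ℕ}

/-- the value at an integral vector -/
noncomputable def val (u : Fin q → ℤ) (f : MvPolynomial (Fin q) K) : K :=
  eval (fun j => ((u j : ℤ) : K)) f

/-- For all `T ≤ Z` and `β ≥ N` there is a place which does not divide `T D₀` at which the valuation of
`g (u)` is positive and not divisible by `β`, and `E (u)` is a unit. -/
def Wit (g E : MvPolynomial (Fin q) K) (D₀ N Z : ℕ) (u : Fin q → ℤ) : Prop :=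
  val u g ≠ 0 ∧ val u E ≠ 0 ∧ ∀ T : ℕ, 1 ≤ T → T ≤ Z → ∀ β : ℕ, N ≤ β →
    ∃ v : HeightOneSpectrum (𝓞 K), (adv K v).v ((T * D₀ : ℕ) : K) = 0 ∧
      0 < (adv K v).v (val u g) ∧ ¬ (β : ℤ) ∣ (adv K v).v (val u g) ∧ (adv K v).v (val u E) = 0

theorem exists_deg (g : MvPolynomial (Fin q) K) (hg : Irreducible g) :
    ∃ j0, 0 < g.degreeOf j0 := by
  by_contra hcon
  push Not at hcon
  have h1 : g.vars = ∅ := by
    rw [Finset.eq_empty_iff_forall_notMem]
    intro j hj
    rw [mem_vars_iff_degreeOf_ne_zero] at hj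
    have := hcon j
    omega
  rw [vars_eq_empty_iff_eq_C] at h1
  rw [h1] at hg
  by_cases h0 : coeff 0 g = 0
  · rw [h0, map_zero] at hg
    exact hg.ne_zero rfl
  · exact hg.not_isUnit ((isUnit_iff_ne_zero.2 h0).map _)

theorem core (g : MvPolynomial (Fin q) K) (hg : Irreducible g) (Δ : ℕ)
    (hΔ : Module.finrank ℚ K * g.totalDegree ≤ Δ)
    (E : MvPolynomial (Fin q) K) (hE : ¬ g ∣ E) (D₀ : ℕ) (hD₀ : D₀ ≠ 0) (N : ℕ) (hN : 0 < N)
    (ε : ℝ) (hε : 0 < ε) :
    ∃ C : ℝ, 0 ≤ C ∧ ∀ H Z : ℕ, 1 ≤ H → 1 ≤ Z → ∀ S : Finset (Fin q → ℤ),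
      (∀ u ∈ S, (∀ j, |u j| ≤ H) ∧ ¬ Wit g E D₀ N Z u) →
      (S.card : ℝ) ≤ C * (Z : ℝ) ^ (1 + ε) * (H : ℝ) ^ ((q : ℝ) - 1 + Δ / N + ε) := by
  classical
  obtain ⟨d, hd0, g₀, hg₀⟩ := clear g
  have hinjO : Function.Injective (algebraMap (𝓞 K) K) := FaithfulSMul.algebraMap_injective (𝓞 K) K
  have hdK : (d : K) ≠ 0 := by exact_mod_cast hd0
  have hCd : (C (d : K) : MvPolynomial (Fin q) K) ≠ 0 := by
    rw [Ne, C_eq_zero]
    exact hdK
  have hg₀0 : g₀ ≠ 0 := by
    rintro rfl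
    rw [map_zero] at hg₀
    exact mul_ne_zero hCd hg.ne_zero hg₀.symm
  obtain ⟨j0, hj0⟩ := exists_deg g hg
  have hdeg : 0 < g₀.degreeOf j0 := by
    have h1 : (MvPolynomial.map (algebraMap (𝓞 K) K) g₀).degreeOf j0 = g₀.degreeOf j0 := by
      rw [degreeOf, degreeOf, degrees_map_of_injective _ hinjO]
    rw [← h1, hg₀, degreeOf_mul_eq hCd hg.ne_zero, degreeOf_C]
    omega
  set h := nPol g₀ with hh
  have hgh : g ∣ MvPolynomial.map (Int.castRingHom K) h := by
    obtain ⟨f, hf⟩ := dvd_nPol g₀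
    have h1 := congrArg (MvPolynomial.map (algebraMap (𝓞 K) K)) hf
    rw [MvPolynomial.map_map, map_mul, hg₀, RingHom.ext_int ((algebraMap (𝓞 K) K).comp
      (Int.castRingHom (𝓞 K))) (Int.castRingHom K)] at h1
    rw [h1]
    exact (Dvd.intro_left _ rfl : g ∣ C (d : K) * g).mul_right _
  have hhΔ : h.totalDegree ≤ Δ := by
    refine (totalDegree_nPol g₀).trans (le_trans (Nat.mul_le_mul_left _ ?_) hΔ)
    have h1 : (MvPolynomial.map (algebraMap (𝓞 K) K) g₀).totalDegree = g₀.totalDegree := by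
      unfold totalDegree
      rw [support_map_of_injective _ hinjO]
    rw [← h1, hg₀]
    refine (totalDegree_mul _ _).trans ?_
    rw [totalDegree_C, zero_add]
  obtain ⟨ρ, hρ0, α, β', hρ⟩ := elimN h (nPol_ne_zero g₀ hg₀0) g hg.prime hgh E hE j0
  obtain ⟨Dg, hDg0, hDg⟩ := int_eval g
  obtain ⟨DE, hDE0, hDE⟩ := int_eval E
  obtain ⟨Dα, hDα0, hDα⟩ := int_eval α
  obtain ⟨Dβ, hDβ0, hDβ⟩ := int_eval β'
  set D := D₀ * (d * (Dg * (DE * (Dα * Dβ)))) with hD
  have hD0 : D ≠ 0 := Nat.mul_ne_zero hD₀ (Nat.mul_ne_zero hd0 (Nat.mul_ne_zero hDg0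
    (Nat.mul_ne_zero hDE0 (Nat.mul_ne_zero hDα0 hDβ0))))
  obtain ⟨C, hC0, hC⟩ := bad_countU N hN h j0 (deg_nPol g₀ j0 hdeg) ρ hρ0 D hD0 hε
  refine ⟨C, hC0, fun H Z hH hZ S hS => ?_⟩
  have hH1 : (1 : ℝ) ≤ H := by exact_mod_cast hH
  have hN' : (0 : ℝ) < N := by exact_mod_cast hN
  have hmono : C * (Z : ℝ) ^ (1 + ε) * (H : ℝ) ^ ((q : ℝ) - 1 + h.totalDegree / N + ε) ≤
      C * (Z : ℝ) ^ (1 + ε) * (H : ℝ) ^ ((q : ℝ) - 1 + Δ / N + ε) := by
    refine mul_le_mul_of_nonneg_left ?_ (by positivity)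
    refine Real.rpow_le_rpow_of_exponent_le hH1 ?_
    have : (h.totalDegree : ℝ) ≤ Δ := by exact_mod_cast hhΔ
    gcongr
  refine le_trans (le_trans ?_ (hC H Z hH hZ)) hmono
  have hsub : S ⊆ (box q H).filter fun u => ¬ GoodU N Z h (rename Subtype.val ρ) D u := by
    intro u hu
    obtain ⟨hu1, hu2⟩ := hS u hu
    rw [Finset.mem_filter, mem_box]
    refine ⟨hu1, fun hgood => hu2 ?_⟩
    obtain ⟨h1, h2, h3⟩ := hgood
    rw [hh, eval_nPol] at h1
    set x : 𝓞 K := eval (fun j => ((u j : ℤ) : 𝓞 K)) g₀ with hx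
    have hx0 : x ≠ 0 := fun h0 => h1 (by rw [h0, Algebra.norm_zero])
    have hxg : (x : K) = (d : K) * val u g := by
      have h4 := eval_int g₀ u
      rw [hg₀, map_mul, eval_C] at h4
      exact h4.symm
    have hxK : (x : K) ≠ 0 := by
      intro h0
      exact hx0 (hinjO (h0.trans (map_zero _).symm))
    have hgu : val u g ≠ 0 := fun h0 => hxK (by rw [hxg, h0, mul_zero])
    have hρu : ((eval u (rename Subtype.val ρ) : ℤ) : K) = val u α * val u g + val u β' * val u E := by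
      have h4 := congrArg (eval (fun j => ((u j : ℤ) : K))) hρ
      rw [map_add, map_mul, map_mul, eval_map] at h4
      have h5 : eval₂ (Int.castRingHom K) (fun j => ((u j : ℤ) : K)) (rename Subtype.val ρ) =
          ((eval u (rename Subtype.val ρ) : ℤ) : K) := by
        have h6 := (hom_eval₂ (rename Subtype.val ρ) (RingHom.id ℤ) (Int.castRingHom K) u)
        rw [RingHom.comp_id] at h6
        exact h6.symm
      rw [h5] at h4
      exact h4
    have key : ∀ T : ℕ, 1 ≤ T → T ≤ Z → ∀ β : ℕ, N ≤ β →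
        ∃ v : HeightOneSpectrum (𝓞 K), (adv K v).v ((T * D₀ : ℕ) : K) = 0 ∧
          0 < (adv K v).v (val u g) ∧ ¬ (β : ℤ) ∣ (adv K v).v (val u g) ∧
          (val u E ≠ 0 ∧ (adv K v).v (val u E) = 0) := by
      intro T hT1 hT2 β hβ
      obtain ⟨p, hp, hpd, hpf⟩ := h3 T hT1 hT2 β hβ
      have h4 : ∃ v : HeightOneSpectrum (𝓞 K), (p : 𝓞 K) ∈ v.asIdeal ∧
          ¬ (β : ℤ) ∣ (adv K v).v (x : K) := by
        by_contra hcon
        push Not at hcon
        apply hpf
        rw [hh, eval_nPol]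
        exact norm_fac hx0 hp hcon
      obtain ⟨v, hpv, hvx⟩ := h4
      have hnat : ∀ n : ℕ, n ∣ T * (D * (eval u (rename Subtype.val ρ)).natAbs) →
          (adv K v).v (n : K) = 0 := fun n hn => nat_zero v hp hpv fun h5 => hpd (h5.trans hn)
      have hTD : T * D₀ ∣ T * (D * (eval u (rename Subtype.val ρ)).natAbs) :=
        Nat.mul_dvd_mul_left T ((Dvd.intro _ rfl : D₀ ∣ D).mul_right _)
      have hDd : ∀ n : ℕ, n ∣ D → (adv K v).v (n : K) = 0 := fun n hn =>
        hnat n ((hn.mul_right _).mul_left T)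
      have hvd := hDd d ((Dvd.intro _ rfl : d ∣ d * (Dg * (DE * (Dα * Dβ)))).mul_left _)
      have hvg := hDg v (hDd Dg (((Dvd.intro _ rfl : Dg ∣ Dg * (DE * (Dα * Dβ))).mul_left _).mul_left
        _)) u
      have hvE := hDE v (hDd DE ((((Dvd.intro _ rfl : DE ∣ DE * (Dα * Dβ)).mul_left _).mul_left
        _).mul_left _)) u
      have hvα := hDα v (hDd Dα (((((Dvd.intro _ rfl : Dα ∣ Dα * Dβ).mul_left _).mul_left
        _).mul_left _).mul_left _)) u
      have hvβ := hDβ v (hDd Dβ (((((Dvd.intro_left _ rfl : Dβ ∣ Dα * Dβ).mul_left _).mul_left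
        _).mul_left _).mul_left _)) u
      have hvx' : (adv K v).v (x : K) = (adv K v).v (val u g) := by
        rw [hxg, (adv K v).mul' _ _ hdK hgu, hvd, zero_add]
      rw [hvx'] at hvx
      have hvg0 : 0 ≤ (adv K v).v (val u g) := hvg.resolve_left hgu
      have hvg1 : 0 < (adv K v).v (val u g) := by
        refine lt_of_le_of_ne hvg0 fun h5 => hvx ?_
        rw [← h5]
        exact dvd_zero _
      -- the value of `ρ` is a unit
      have hρ1 : (adv K v).E 0 ((eval u (rename Subtype.val ρ) : ℤ) : K) := by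
        refine ⟨by exact_mod_cast h2, ?_⟩
        have h5 := hnat (eval u (rename Subtype.val ρ)).natAbs
          ((Dvd.intro_left _ rfl : _ ∣ D * (eval u (rename Subtype.val ρ)).natAbs).mul_left T)
        rcases Int.natAbs_eq (eval u (rename Subtype.val ρ)) with h6 | h6
        · rw [h6, Int.cast_natCast]
          exact h5
        · rw [h6, Int.cast_neg, Int.cast_natCast, v_neg]
          · exact h5
          · exact_mod_cast Int.natAbs_ne_zero.2 h2
      have h7 : (adv K v).G 1 (val u α * val u g) :=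
        g01 hvα (Or.inr (by omega))
      have h8 : (adv K v).E 0 (val u β' * val u E) := by
        have h9 : val u β' * val u E = ((eval u (rename Subtype.val ρ) : ℤ) : K) +
            (-(val u α * val u g)) := by rw [hρu]; ring
        rw [h9]
        have h10 : (adv K v).G 1 (-(val u α * val u g)) := by
          rcases h7 with h7 | h7
          · left; rw [h7, neg_zero]
          · by_cases h11 : val u α * val u g = 0
            · left; rw [h11, neg_zero]
            · right; rw [v_neg _ h11]; exact h7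
        exact Pool.Agent.Y673.Loc.ZV.E.addG hρ1 h10 (by norm_num)
      have hE0 : val u E ≠ 0 := fun h0 => h8.1 (by rw [h0, mul_zero])
      have hβ0 : val u β' ≠ 0 := fun h0 => h8.1 (by rw [h0, zero_mul])
      refine ⟨v, hnat _ hTD, hvg1, hvx, hE0, ?_⟩
      have h11 := h8.2
      rw [(adv K v).mul' _ _ hβ0 hE0] at h11
      have h12 : 0 ≤ (adv K v).v (val u E) := hvE.resolve_left hE0
      have h13 : 0 ≤ (adv K v).v (val u β') := hvβ.resolve_left hβ0
      omega
    refine ⟨hgu, ?_, fun T hT1 hT2 β hβ => ?_⟩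
    · obtain ⟨v, -, -, -, h4, -⟩ := key 1 le_rfl hZ N le_rfl
      exact h4
    · obtain ⟨v, h4, h5, h6, -, h7⟩ := key T hT1 hT2 β hβ
      exact ⟨v, h4, h5, h6, h7⟩
  exact_mod_cast Finset.card_le_card hsub

end Pool.Agent.X295.Gal
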