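import Pool.Agent.X295.GalD

/-!
Rational functions with a pole along a hypersurface (helper file).
-/

set_option autoImplicit false

namespace Pool.Agent.X295.Gal

open MvPolynomial NumberField IsDedekindDomain Pool.Agent.Y673.Loc Pool.Agent.Y673.FM
open Pool.Agent.Y673.Loc.ZV

variable {K : Type} [Field K] [NumberField K] {q : ℕ}

theorem val_mul (u : Fin q → ℤ) (f g : MvPolynomial (Fin q) K) :
    val u (f * g) = val u f * val u g := map_mul _ _ _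

theorem val_pow (u : Fin q → ℤ) (f : MvPolynomial (Fin q) K) (n : ℕ) :
    val u (f ^ n) = val u f ^ n := map_pow _ _ _

/-- the rational function `F / G` has a pole along the hypersurface `g = 0` -/
def PoleAlong (g F G : MvPolynomial (Fin q) K) : Prop := ∃ m : ℕ, g ^ m ∣ G ∧ ¬ g ^ m ∣ F

theorem exists_pole {F G : MvPolynomial (Fin q) K} (hG : G ≠ 0) (h : ¬ G ∣ F) :
    ∃ g : MvPolynomial (Fin q) K, Irreducible g ∧ PoleAlong g F G := by
  obtain ⟨a, b, c, hab, hca, hcb⟩ := UniqueFactorizationMonoid.exists_reduced_factors G hG F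
  have ha0 : a ≠ 0 := by
    rintro rfl
    exact hG (by rw [← hca, mul_zero])
  have hc0 : c ≠ 0 := by
    rintro rfl
    exact hG (by rw [← hca, zero_mul])
  have hau : ¬ IsUnit a := by
    intro hu
    apply h
    rw [← hca, ← hcb]
    exact mul_dvd_mul_left c (hu.dvd)
  obtain ⟨g, hg, hga⟩ := WfDvdMonoid.exists_irreducible_factor hau ha0
  have hgb : ¬ g ∣ b := fun h1 => hg.not_isUnit (hab hga h1)
  obtain ⟨n, c', hc', hcn⟩ := WfDvdMonoid.max_power_factor hc0 hg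
  refine ⟨g, hg, n + 1, ?_, ?_⟩
  · rw [← hca, hcn, pow_succ]
    exact mul_dvd_mul (Dvd.intro _ rfl) hga
  · rw [← hcb, hcn, pow_succ, mul_assoc]
    intro h1
    have h2 := (mul_dvd_mul_iff_left (pow_ne_zero n hg.ne_zero)).1 h1
    rcases hg.prime.dvd_or_dvd h2 with h3 | h3
    · exact hc' h3
    · exact hgb h3

theorem pole_data {g F G : MvPolynomial (Fin q) K} (hg : Irreducible g) (hG : G ≠ 0)
    (h : PoleAlong g F G) : ∃ (μ : ℕ) (F' G' : MvPolynomial (Fin q) K), 0 < μ ∧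
      μ ≤ G.totalDegree ∧ ¬ g ∣ F' ∧ ¬ g ∣ G' ∧ ∀ u : Fin q → ℤ, val u G ≠ 0 →
      val u F / val u G = val u F' / (val u g ^ μ * val u G') := by
  obtain ⟨m, hm1, hm2⟩ := h
  have hF : F ≠ 0 := by
    rintro rfl
    exact hm2 (dvd_zero _)
  obtain ⟨a, F', hF', hFa⟩ := WfDvdMonoid.max_power_factor hF hg
  obtain ⟨b, G', hG', hGb⟩ := WfDvdMonoid.max_power_factor hG hg
  have hab : a < b := by
    by_contra hcon
    push Not at hcon
    have h1 : m ≤ b := by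
      by_contra hmb
      push Not at hmb
      rw [hGb] at hm1
      obtain ⟨k, hk⟩ : ∃ k, m = b + (k + 1) := ⟨m - b - 1, by omega⟩
      rw [hk, pow_add] at hm1
      have h2 := (mul_dvd_mul_iff_left (pow_ne_zero b hg.ne_zero)).1 hm1
      exact hG' ((dvd_pow_self g (Nat.succ_ne_zero k)).trans h2)
    apply hm2
    rw [hFa]
    exact (pow_dvd_pow g (h1.trans hcon)).mul_right _
  have hG'0 : G' ≠ 0 := by
    rintro rfl
    exact hG' (dvd_zero _)
  have hdeg : 1 ≤ g.totalDegree := by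
    by_contra hcon
    have h1 : g.totalDegree = 0 := by omega
    rw [totalDegree_eq_zero_iff_eq_C] at h1
    rw [h1] at hg
    by_cases h0 : coeff 0 g = 0
    · rw [h0, map_zero] at hg
      exact hg.ne_zero rfl
    · exact hg.not_isUnit ((isUnit_iff_ne_zero.2 h0).map _)
  refine ⟨b - a, F', G', by omega, ?_, hF', hG', fun u hu => ?_⟩
  · have h1 : ∀ n : ℕ, n ≤ (g ^ n).totalDegree := by
      intro n
      induction n with
      | zero => exact Nat.zero_le _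
      | succ n ih =>
        rw [pow_succ, totalDegree_mul_of_isDomain (pow_ne_zero n hg.ne_zero) hg.ne_zero]
        omega
    have h2 := h1 b
    rw [hGb, totalDegree_mul_of_isDomain (pow_ne_zero b hg.ne_zero) hG'0]
    omega
  · rw [hGb, val_mul, val_pow] at hu
    have hgu : val u g ≠ 0 := by
      intro h0
      apply hu
      rw [h0, zero_pow (by omega), zero_mul]
    have hG'u : val u G' ≠ 0 := right_ne_zero_of_mul hu
    rw [hFa, hGb, val_mul, val_mul, val_pow, val_pow]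
    have h3 : val u g ^ b = val u g ^ a * val u g ^ (b - a) := by
      rw [← pow_add]
      congr 1
      omega
    rw [h3, mul_assoc, mul_div_mul_left _ _ (pow_ne_zero a hgu)]

theorem reg_data {g F G : MvPolynomial (Fin q) K} (hg : Irreducible g) (hG : G ≠ 0)
    (h : ¬ PoleAlong g F G) : ∃ (F' G' : MvPolynomial (Fin q) K), ¬ g ∣ G' ∧
      ∀ u : Fin q → ℤ, val u g ≠ 0 → val u F / val u G = val u F' / val u G' := by
  unfold PoleAlong at h
  push Not at h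
  obtain ⟨b, G', hG', hGb⟩ := WfDvdMonoid.max_power_factor hG hg
  obtain ⟨F', hF'⟩ := h b (by rw [hGb]; exact Dvd.intro _ rfl)
  refine ⟨F', G', hG', fun u hu => ?_⟩
  rw [hF', hGb, val_mul, val_mul, val_pow, mul_div_mul_left _ _ (pow_ne_zero b hu)]

/-- For all `T ≤ Z` and `β ≥ N` there is a place which does not divide `T D₀` at which `j (u)` has the
valuation `- μ k`, `k > 0` not divisible by `β`, and `j₂ (u)` is integral. -/
def WitJ (j j₂ : K) (μ D₀ N Z : ℕ) : Prop :=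
  ∀ T : ℕ, 1 ≤ T → T ≤ Z → ∀ β : ℕ, N ≤ β →
    ∃ (v : HeightOneSpectrum (𝓞 K)) (k : ℤ), (adv K v).v ((T * D₀ : ℕ) : K) = 0 ∧
      0 < k ∧ ¬ (β : ℤ) ∣ k ∧ (adv K v).v j = -(μ * k) ∧ (adv K v).G 0 j₂

/-- the general counting theorem for pairs of families -/
theorem fam {g F G F₂ G₂ : MvPolynomial (Fin q) K} (hg : Irreducible g) (hG : G ≠ 0)
    (hG₂ : G₂ ≠ 0) (h : PoleAlong g F G) (h₂ : ¬ PoleAlong g F₂ G₂) :
    ∃ μ : ℕ, 0 < μ ∧ μ ≤ G.totalDegree ∧ ∀ D₀ : ℕ, D₀ ≠ 0 → ∀ N : ℕ, 0 < N → ∀ ε : ℝ, 0 < ε →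
    ∃ C : ℝ, 0 ≤ C ∧ ∀ H Z : ℕ, 1 ≤ H → 1 ≤ Z → ∀ S : Finset (Fin q → ℤ),
      (∀ u ∈ S, (∀ j, |u j| ≤ H) ∧ val u G ≠ 0 ∧
        ¬ WitJ (val u F / val u G) (val u F₂ / val u G₂) μ D₀ N Z) →
      (S.card : ℝ) ≤ C * (Z : ℝ) ^ (1 + ε) * (H : ℝ) ^ ((q : ℝ) - 1 +
        (Module.finrank ℚ K * G.totalDegree : ℕ) / N + ε) := by
  obtain ⟨μ, F', G', hμ, hμG, hF', hG', hj⟩ := pole_data hg hG h
  obtain ⟨F₂', G₂', hG₂', hj₂⟩ := reg_data hg hG₂ h₂
  refine ⟨μ, hμ, hμG, fun D₀ hD₀ N hN ε hε => ?_⟩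
  obtain ⟨D₁, hD₁0, hD₁⟩ := int_eval F'
  obtain ⟨D₂, hD₂0, hD₂⟩ := int_eval G'
  obtain ⟨D₃, hD₃0, hD₃⟩ := int_eval F₂'
  obtain ⟨D₄, hD₄0, hD₄⟩ := int_eval G₂'
  have hgG : g.totalDegree ≤ G.totalDegree := by
    obtain ⟨m, hm1, hm2⟩ := h
    have hm0 : m ≠ 0 := by
      rintro rfl
      exact hm2 (by rw [pow_zero]; exact one_dvd _)
    obtain ⟨f, hf⟩ := (dvd_pow_self g hm0).trans hm1
    have hf0 : f ≠ 0 := by
      rintro rfl
      exact hG (by rw [hf, mul_zero])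
    rw [hf, totalDegree_mul_of_isDomain hg.ne_zero hf0]
    exact Nat.le_add_right _ _
  have hE : ¬ g ∣ F' * (G' * G₂') := by
    intro h1
    rcases hg.prime.dvd_or_dvd h1 with h1 | h1
    · exact hF' h1
    rcases hg.prime.dvd_or_dvd h1 with h1 | h1
    · exact hG' h1
    · exact hG₂' h1
  obtain ⟨C, hC0, hC⟩ := core g hg (Module.finrank ℚ K * G.totalDegree)
    (Nat.mul_le_mul_left _ hgG) (F' * (G' * G₂')) hE (D₀ * (D₁ * (D₂ * (D₃ * D₄))))
    (Nat.mul_ne_zero hD₀ (Nat.mul_ne_zero hD₁0 (Nat.mul_ne_zero hD₂0 (Nat.mul_ne_zero hD₃0 hD₄0))))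
    N hN ε hε
  refine ⟨C, hC0, fun H Z hH hZ S hS => hC H Z hH hZ S fun u hu => ?_⟩
  obtain ⟨hu1, hu2, hu3⟩ := hS u hu
  refine ⟨hu1, fun hw => hu3 ?_⟩
  obtain ⟨hw1, hw2, hw3⟩ := hw
  intro T hT1 hT2 β hβ
  obtain ⟨v, hv1, hv2, hv3, hv4⟩ := hw3 T hT1 hT2 β hβ
  rw [val_mul, val_mul] at hw2 hv4
  have hF'u : val u F' ≠ 0 := left_ne_zero_of_mul hw2
  have hG'u : val u G' ≠ 0 := left_ne_zero_of_mul (right_ne_zero_of_mul hw2)
  have hG₂'u : val u G₂' ≠ 0 := right_ne_zero_of_mul (right_ne_zero_of_mul hw2)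
  have hc0 : ((T * (D₀ * (D₁ * (D₂ * (D₃ * D₄)))) : ℕ)) ≠ 0 := by
    refine Nat.mul_ne_zero (by omega) ?_
    exact Nat.mul_ne_zero hD₀ (Nat.mul_ne_zero hD₁0 (Nat.mul_ne_zero hD₂0
      (Nat.mul_ne_zero hD₃0 hD₄0)))
  have hdv : ∀ n : ℕ, n ∣ T * (D₀ * (D₁ * (D₂ * (D₃ * D₄)))) → (adv K v).v (n : K) = 0 := by
    intro n hn
    obtain ⟨b, hb⟩ := hn
    have hn0 : n ≠ 0 := fun h0 => hc0 (by rw [hb, h0, zero_mul])
    have hb0 : b ≠ 0 := fun h0 => hc0 (by rw [hb, h0, mul_zero])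
    have h1 := v_natCast_nonneg v n hn0
    have h2 := v_natCast_nonneg v b hb0
    have hnK : (n : K) ≠ 0 := by exact_mod_cast hn0
    have hbK : (b : K) ≠ 0 := by exact_mod_cast hb0
    rw [hb, Nat.cast_mul, (adv K v).mul' _ _ hnK hbK] at hv1
    omega
  have i1 := hD₁ v (hdv D₁ (((Dvd.intro _ rfl : D₁ ∣ D₁ * (D₂ * (D₃ * D₄))).mul_left _).mul_left _)) u
  have i2 := hD₂ v (hdv D₂ ((((Dvd.intro _ rfl : D₂ ∣ D₂ * (D₃ * D₄)).mul_left _).mul_left
    _).mul_left _)) u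
  have i3 := hD₃ v (hdv D₃ (((((Dvd.intro _ rfl : D₃ ∣ D₃ * D₄).mul_left _).mul_left
    _).mul_left _).mul_left _)) u
  have i4 := hD₄ v (hdv D₄ (((((Dvd.intro_left _ rfl : D₄ ∣ D₃ * D₄).mul_left _).mul_left
    _).mul_left _).mul_left _)) u
  have j1 : 0 ≤ (adv K v).v (val u F') := i1.resolve_left hF'u
  have j2 : 0 ≤ (adv K v).v (val u G') := i2.resolve_left hG'u
  have j4 : 0 ≤ (adv K v).v (val u G₂') := i4.resolve_left hG₂'u
  rw [(adv K v).mul' _ _ hF'u (right_ne_zero_of_mul hw2), (adv K v).mul' _ _ hG'u hG₂'u] at hv4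
  have e1 : (adv K v).E 0 (val u F') := ⟨hF'u, by omega⟩
  have e2 : (adv K v).E 0 (val u G') := ⟨hG'u, by omega⟩
  have e4 : (adv K v).E 0 (val u G₂') := ⟨hG₂'u, by omega⟩
  refine ⟨v, (adv K v).v (val u g), hdv (T * D₀) (Nat.mul_dvd_mul_left T (Dvd.intro _ rfl)), hv2,
    hv3, ?_, ?_⟩
  · have e3 : (adv K v).E ((adv K v).v (val u g)) (val u g) := ⟨hw1, rfl⟩
    rw [hj u hu2, (e1.div ((e3.pow μ).mul e2)).2]
    ring
  · rw [hj₂ u hw1]
    exact gdu i3 e4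

end Pool.Agent.X295.Gal
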