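import Pool.Agent.X295.GalE
import Pool.Agent.Y673.CB.App

/-!
Families of elliptic curves with several parameters (helper file).
-/

set_option autoImplicit false

namespace Pool.Agent.X295.Gal

open MvPolynomial NumberField IsDedekindDomain Pool.Agent.Y673.Loc Pool.Agent.Y673.FM
  Pool.Agent.Y673.DK
open Pool.Agent.Y673.Loc.ZV

variable {K : Type} [Field K] [NumberField K] {q : ℕ}

theorem not_pole_zero (g : MvPolynomial (Fin q) K) : ¬ PoleAlong g 0 1 := by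
  rintro ⟨m, -, h⟩
  exact h (dvd_zero _)

/-- the counting theorem, in the form in which it is used -/
theorem count_set {g F G F₂ G₂ : MvPolynomial (Fin q) K} (hg : Irreducible g) (hG : G ≠ 0)
    (hG₂ : G₂ ≠ 0) (h : PoleAlong g F G) (h₂ : ¬ PoleAlong g F₂ G₂) (D₀ : ℕ) (hD₀ : D₀ ≠ 0)
    (N : ℕ) (hN : 0 < N) (ε : ℝ) (hε : 0 < ε) :
    ∃ C : ℝ, 0 ≤ C ∧ ∀ H Z : ℕ, 1 ≤ H → 1 ≤ Z → ∀ S : Set (Fin q → ℤ),
      (∀ u ∈ S, (∀ j, |u j| ≤ H) ∧ val u G ≠ 0 ∧ (G.totalDegree < N → ∀ μ : ℕ, 0 < μ →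
        μ ≤ G.totalDegree → ¬ WitJ (val u F / val u G) (val u F₂ / val u G₂) μ D₀ N Z)) →
      S.Finite ∧ (S.ncard : ℝ) ≤ C * (Z : ℝ) ^ (1 + ε) * (H : ℝ) ^ ((q : ℝ) - 1 +
        (Module.finrank ℚ K * G.totalDegree : ℕ) / N + ε) := by
  classical
  have hN' : (0 : ℝ) < N := by exact_mod_cast hN
  have hfin : ∀ (H : ℕ) (S : Set (Fin q → ℤ)), (∀ u ∈ S, (∀ j, |u j| ≤ H)) → S ⊆ (box q H : Set _) := by
    intro H S hS u hu
    rw [Finset.mem_coe, mem_box]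
    exact hS u hu
  by_cases hNG : G.totalDegree < N
  · obtain ⟨μ, hμ, hμG, hμ2⟩ := fam hg hG hG₂ h h₂
    obtain ⟨C, hC0, hC⟩ := hμ2 D₀ hD₀ N hN ε hε
    refine ⟨C, hC0, fun H Z hH hZ S hS => ?_⟩
    have hf : S.Finite := (Finset.finite_toSet _).subset (hfin H S fun u hu => (hS u hu).1)
    refine ⟨hf, ?_⟩
    have h1 := hC H Z hH hZ hf.toFinset (fun u hu => by
      obtain ⟨h1, h2, h3⟩ := hS u (hf.mem_toFinset.1 hu)
      exact ⟨h1, h2, h3 hNG μ hμ hμG⟩)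
    rwa [← Set.ncard_eq_toFinset_card S hf] at h1
  · push Not at hNG
    refine ⟨3 ^ q, by positivity, fun H Z hH hZ S hS => ?_⟩
    have hsub := hfin H S fun u hu => (hS u hu).1
    have hf : S.Finite := (Finset.finite_toSet _).subset hsub
    refine ⟨hf, ?_⟩
    have h1 : S.ncard ≤ (box q H).card := by
      have := Set.ncard_le_ncard hsub (Finset.finite_toSet _)
      rwa [Set.ncard_coe_finset] at this
    have h2 : (box q H).card = (2 * H + 1) ^ q := by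
      unfold box
      rw [Fintype.card_piFinset, Finset.prod_const, card_Icc, Finset.card_univ, Fintype.card_fin]
    have hH1 : (1 : ℝ) ≤ H := by exact_mod_cast hH
    have hZ1 : (1 : ℝ) ≤ Z := by exact_mod_cast hZ
    have h3 : (S.ncard : ℝ) ≤ ((2 * H + 1 : ℝ)) ^ q := by
      have : (S.ncard : ℝ) ≤ ((box q H).card : ℝ) := by exact_mod_cast h1
      rw [h2] at this
      exact_mod_cast this
    have h4 : (2 * H + 1 : ℝ) ^ q ≤ 3 ^ q * (H : ℝ) ^ q := by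
      rw [← mul_pow]
      exact pow_le_pow_left₀ (by positivity) (by linarith) _
    have h5 : (H : ℝ) ^ q ≤ (H : ℝ) ^ ((q : ℝ) - 1 +
        (Module.finrank ℚ K * G.totalDegree : ℕ) / N + ε) := by
      rw [← Real.rpow_natCast]
      refine Real.rpow_le_rpow_of_exponent_le hH1 ?_
      have h6 : (1 : ℝ) ≤ ((Module.finrank ℚ K * G.totalDegree : ℕ) : ℝ) / N := by
        rw [one_le_div hN']
        have h7 : 1 ≤ Module.finrank ℚ K := Module.finrank_pos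
        have h8 : N ≤ Module.finrank ℚ K * G.totalDegree :=
          hNG.trans (Nat.le_mul_of_pos_left _ h7)
        exact_mod_cast h8
      linarith
    have h6 : (1 : ℝ) ≤ (Z : ℝ) ^ (1 + ε) := Real.one_le_rpow hZ1 (by linarith)
    calc (S.ncard : ℝ) ≤ 3 ^ q * (H : ℝ) ^ q := h3.trans h4
      _ ≤ 3 ^ q * (Z : ℝ) ^ (1 + ε) * (H : ℝ) ^ q := by
          refine mul_le_mul_of_nonneg_right ?_ (by positivity)
          exact le_mul_of_one_le_right (by positivity) h6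
      _ ≤ _ := mul_le_mul_of_nonneg_left h5 (by positivity)

/-- from a place of `K` to a place of an extension -/
theorem WitJ.up {j j₂ : K} {μ D₀ N Z n : ℕ} (h : WitJ j j₂ μ D₀ N Z) (hμ : 0 < μ)
    (L : Type) [Field L] [NumberField L] [Algebra K L] (hL : Module.finrank ℚ L ≤ n) (T : ℕ)
    (hT1 : 1 ≤ T) (hT2 : T ≤ Z) (β : ℕ) (hβ : N ≤ β) :
    ∃ (w : HeightOneSpectrum (𝓞 L)) (e : ℕ) (k : ℤ), 1 ≤ e ∧ e ≤ n ∧
      (adv L w).v ((T * D₀ : ℕ) : L) = 0 ∧ 0 < k ∧ ¬ (β : ℤ) ∣ k ∧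
      (adv L w).v (algebraMap K L j) = -((e : ℤ) * μ * k) ∧ (adv L w).v (algebraMap K L j) < 0 ∧
      (adv L w).G 0 (algebraMap K L j₂) := by
  obtain ⟨v, k, h1, h2, h3, h4, h5⟩ := h T hT1 hT2 β hβ
  obtain ⟨w, e, he, hen, hw⟩ := above K L v
  have hwj : (adv L w).v (algebraMap K L j) = -((e : ℤ) * μ * k) := by
    rw [hw, h4]; ring
  refine ⟨w, e, k, he, hen.trans hL, ?_, h2, h3, hwj, ?_, ?_⟩
  · have h6 := hw ((T * D₀ : ℕ) : K)
    rw [h1, mul_zero, map_natCast] at h6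
    exact h6
  · rw [hwj]
    have he' : (0 : ℤ) < e := by exact_mod_cast he
    have hμ' : (0 : ℤ) < μ := by exact_mod_cast hμ
    have := mul_pos (mul_pos he' hμ') h2
    omega
  · rcases h5 with h5 | h5
    · left; rw [h5, map_zero]
    · right
      rw [hw]
      exact mul_nonneg (Nat.cast_nonneg _) h5

theorem small_not_dvd {p e : ℕ} (he : 1 ≤ e) (hep : e < p) : ¬ (p : ℤ) ∣ (e : ℤ) := by
  intro h
  have h1 := Nat.le_of_dvd (by omega) (Int.natCast_dvd_natCast.1 h)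
  omega

theorem not_dvd_prod {p : ℕ} (hp : p.Prime) {e μ n N : ℕ} {k : ℤ} (he : 1 ≤ e) (hen : e ≤ n)
    (hnN : n < N) (hμ : 0 < μ) (hμN : μ < N) (hNp : N ≤ p) (hk : ¬ (p : ℤ) ∣ k) :
    ¬ (p : ℤ) ∣ -((e : ℤ) * μ * k) := by
  rw [dvd_neg]
  intro h
  have hp' := Nat.prime_iff_prime_int.1 hp
  rcases hp'.dvd_or_dvd h with h | h
  · rcases hp'.dvd_or_dvd h with h | h
    · exact small_not_dvd he (by omega) h
    · exact small_not_dvd hμ (by omega) h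
  · exact hk h

/-- the order of the image of the Galois group -/
theorem mainA (F G : MvPolynomial (Fin q) K) (hG : G ≠ 0) (hFG : ¬ G ∣ F) (n N : ℕ) (hN5 : 5 ≤ N)
    (hnN : n < N) (h8 : 8 * n < N ^ 2 - 1) (ε : ℝ) (hε : 0 < ε) :
    ∃ C : ℝ, ∀ H : ℕ, 1 ≤ H → ∀ S : Set (Fin q → ℤ),
      (∀ u ∈ S, (∀ j, |u j| ≤ H) ∧ val u G ≠ 0 ∧ ∃ (L : Type) (_ : Field L) (_ : NumberField L)
        (_ : Algebra K L), Module.finrank ℚ L ≤ n ∧
          EJ L N (algebraMap K L (val u F / val u G))) →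
      S.Finite ∧ (S.ncard : ℝ) ≤ C * (H : ℝ) ^ ((q : ℝ) - 1 +
        (Module.finrank ℚ K * G.totalDegree : ℕ) / N + ε) := by
  obtain ⟨g, hg, hpole⟩ := exists_pole hG hFG
  obtain ⟨C, hC0, hC⟩ := count_set (F₂ := 0) (G₂ := 1) hg hG one_ne_zero hpole (not_pole_zero g) 1
    one_ne_zero N (by omega) ε hε
  refine ⟨C, fun H hH S hS => ?_⟩
  have h1 := hC H 1 hH le_rfl S (fun u hu => by
    obtain ⟨h1, h2, L, iF, iN, iA, h3, h4⟩ := hS u hu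
    refine ⟨h1, h2, fun hGN μ hμ hμG hw => ?_⟩
    obtain ⟨p, hp, hNp, hdvd⟩ := EJ_dvd h4 hN5 (by omega)
    obtain ⟨w, e, k, he, hen, -, hk, hpk, hwj, hneg, -⟩ := hw.up hμ L h3 1 le_rfl le_rfl p hNp
    have h5 := hdvd w hneg
    rw [hwj] at h5
    exact not_dvd_prod hp he hen hnN hμ (by omega) hNp hpk h5)
  rwa [Nat.cast_one, Real.one_rpow, mul_one] at h1

/-- congruences modulo primes -/
theorem no_cong {j j₂ : K} {μ D₀ N Z n : ℕ} (hw : WitJ j j₂ μ D₀ N Z) (hμ : 0 < μ) (hμN : μ < N)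
    (h6 : 6 ∣ D₀) (hD₀ : D₀ ≠ 0) (h13 : 13 ≤ N) (hnN : n < N) (h8 : 8 * n < N ^ 2 - 1) (L : Type) [Field L] [NumberField L]
    [Algebra K L] (hL : Module.finrank ℚ L ≤ n) (T : ℕ) (hT1 : 1 ≤ T) (hT2 : T ≤ Z)
    (A B A₀ B₀ : L) (hD : 4 * A ^ 3 + 27 * B ^ 2 ≠ 0) (hD' : 4 * A₀ ^ 3 + 27 * B₀ ^ 2 ≠ 0)
    (hj : jv A B = algebraMap K L j)
    (hj₀ : jv A₀ B₀ = algebraMap K L j₂ ∨ ∀ w : HeightOneSpectrum (𝓞 L),
      (adv L w).v ((T : ℕ) : L) = 0 → (adv L w).G 0 (jv A₀ B₀))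
    {p : ℕ} (hp : p.Prime) (hNp : N ≤ p) : ¬ SameF A B A₀ B₀ p := by
  intro hF
  obtain ⟨w, e, k, he, hen, hT, hk, hpk, hwj, hneg, hint⟩ := hw.up hμ L hL T hT1 hT2 p hNp
  have hTD0 : T * D₀ ≠ 0 := Nat.mul_ne_zero (by omega) hD₀
  have hw6 : (adv L w).v ((6 : ℕ) : L) = 0 :=
    Pool.Agent.Y673.CB.nat_unit w hTD0 (h6.mul_left T) hT
  have hwT : (adv L w).v ((T : ℕ) : L) = 0 :=
    Pool.Agent.Y673.CB.nat_unit w hTD0 (Dvd.intro _ rfl) hT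
  have hG₀ : (adv L w).G 0 (jv A₀ B₀) := by
    rcases hj₀ with h | h
    · rw [h]; exact hint
    · exact h w hwT
  obtain ⟨hv2, hv3⟩ := v6 w hw6
  have h1 : (p : ℤ) ∣ (adv L w).v (jv A B) := by
    refine loc A B A₀ B₀ hD hD' hp (by omega) hF w hv2 hv3 ?_ (by rw [hj]; exact hneg) hG₀
    have h1 := v_prime_le w hp
    have h2 : N ^ 2 ≤ p ^ 2 := Nat.pow_le_pow_left hNp 2
    have h3 : 8 * n + 1 < p ^ 2 := by omega
    have h4 : (8 * n + 1 : ℤ) < (p : ℤ) ^ 2 := by exact_mod_cast h3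
    have h5 : (Module.finrank ℚ L : ℤ) ≤ n := by exact_mod_cast hL
    omega
  rw [hj, hwj] at h1
  exact not_dvd_prod hp he hen hnN hμ hμN hNp hpk h1

/-- pairs of families -/
theorem mainC {g F G F₂ G₂ : MvPolynomial (Fin q) K} (hg : Irreducible g) (hG : G ≠ 0)
    (hG₂ : G₂ ≠ 0) (h : PoleAlong g F G) (h₂ : ¬ PoleAlong g F₂ G₂) (n N : ℕ)
    (h13 : 13 ≤ N) (hnN : n < N) (h8 : 8 * n < N ^ 2 - 1) (ε : ℝ) (hε : 0 < ε) :
    ∃ C : ℝ, ∀ H : ℕ, 1 ≤ H → ∀ S : Set (Fin q → ℤ),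
      (∀ u ∈ S, (∀ j, |u j| ≤ H) ∧ val u G ≠ 0 ∧ ∃ (L : Type) (_ : Field L) (_ : NumberField L)
        (_ : Algebra K L), Module.finrank ℚ L ≤ n ∧ ∃ A B A₀ B₀ : L,
          4 * A ^ 3 + 27 * B ^ 2 ≠ 0 ∧ 4 * A₀ ^ 3 + 27 * B₀ ^ 2 ≠ 0 ∧
          jv A B = algebraMap K L (val u F / val u G) ∧
          jv A₀ B₀ = algebraMap K L (val u F₂ / val u G₂) ∧
          ∃ p : ℕ, p.Prime ∧ N ≤ p ∧ SameF A B A₀ B₀ p) →
      S.Finite ∧ (S.ncard : ℝ) ≤ C * (H : ℝ) ^ ((q : ℝ) - 1 +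
        (Module.finrank ℚ K * G.totalDegree : ℕ) / N + ε) := by
  obtain ⟨C, hC0, hC⟩ := count_set hg hG hG₂ h h₂ 6 (by norm_num) N (by omega) ε hε
  refine ⟨C, fun H hH S hS => ?_⟩
  have h1 := hC H 1 hH le_rfl S (fun u hu => by
    obtain ⟨h1, h2, L, iF, iN, iA, h3, A, B, A₀, B₀, h4, h5, h6, h7, p, hp, hNp, hF⟩ := hS u hu
    refine ⟨h1, h2, fun hGN μ hμ hμG hw => ?_⟩
    exact no_cong hw hμ (by omega) (dvd_refl 6) (by norm_num) h13 hnN h8 L h3 1 le_rfl le_rfl A B A₀ B₀ h4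
      h5 h6 (Or.inl h7) hp hNp hF)
  rwa [Nat.cast_one, Real.one_rpow, mul_one] at h1

end Pool.Agent.X295.Gal
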