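import Pool.Agent.X295.GalF

/-!
Homogenization: rational parameters (helper file).
-/

set_option autoImplicit false

namespace Pool.Agent.X295.Gal

open MvPolynomial NumberField IsDedekindDomain Pool.Agent.Y673.Loc Pool.Agent.Y673.FM
  Pool.Agent.Y673.DK
open Pool.Agent.Y673.Loc.ZV

variable {K : Type} [Field K] {q : ℕ}

/-- homogenization, with a new variable with the number `0` -/
noncomputable def hmg (D : ℕ) (f : MvPolynomial (Fin q) K) : MvPolynomial (Fin (q + 1)) K :=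
  ∑ m ∈ f.support, monomial (Finsupp.cons (D - m.degree) m) (coeff m f)

theorem hmg_eval {D : ℕ} {f : MvPolynomial (Fin q) K} (hD : f.totalDegree ≤ D)
    (x : Fin (q + 1) → K) (hx : x 0 ≠ 0) :
    eval x (hmg D f) = x 0 ^ D * eval (fun j => x j.succ / x 0) f := by
  unfold hmg
  rw [map_sum, eval_eq' (fun j => x j.succ / x 0) f, Finset.mul_sum]
  refine Finset.sum_congr rfl fun m hm => ?_
  have hmD : m.degree ≤ D := (le_totalDegree hm).trans hD
  rw [eval_monomial, Finsupp.prod_fintype _ _ (fun i => pow_zero _), Fin.prod_univ_succ,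
    Finsupp.cons_zero]
  simp only [Finsupp.cons_succ, div_pow]
  rw [Finset.prod_div_distrib, Finset.prod_pow_eq_pow_sum]
  have h1 : ∑ i, m i = m.degree := by
    rw [Finsupp.degree_eq_sum]
  rw [h1]
  have h2 : x 0 ^ D = x 0 ^ (D - m.degree) * x 0 ^ m.degree := by
    rw [← pow_add]
    congr 1
    omega
  rw [h2]
  have h3 : x 0 ^ m.degree ≠ 0 := pow_ne_zero _ hx
  field_simp

theorem hmg_hom {D : ℕ} {f : MvPolynomial (Fin q) K} (hD : f.totalDegree ≤ D) :
    (hmg D f).IsHomogeneous D := by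
  unfold hmg
  refine IsHomogeneous.sum _ _ _ fun m hm => ?_
  have hmD : m.degree ≤ D := (le_totalDegree hm).trans hD
  refine isHomogeneous_monomial _ ?_
  rw [Finsupp.degree_eq_sum, Fin.sum_univ_succ, Finsupp.cons_zero]
  simp only [Finsupp.cons_succ]
  rw [← Finsupp.degree_eq_sum]
  omega

theorem eval_one {D : ℕ} {f : MvPolynomial (Fin q) K} (hD : f.totalDegree ≤ D)
    (t : Fin q → K) : eval (Fin.cons 1 t) (hmg D f) = eval t f := by
  rw [hmg_eval hD _ (by rw [Fin.cons_zero]; exact one_ne_zero)]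
  simp only [Fin.cons_zero, one_pow, one_mul, Fin.cons_succ, div_one]

theorem hmg_ne_zero [CharZero K] {D : ℕ} {f : MvPolynomial (Fin q) K} (hD : f.totalDegree ≤ D) (hf : f ≠ 0) :
    hmg D f ≠ 0 := by
  intro h0
  apply hf
  apply MvPolynomial.funext
  intro t
  rw [← eval_one hD, h0, map_zero, map_zero]

theorem hmg_not_dvd [CharZero K] {D : ℕ} {F G : MvPolynomial (Fin q) K} (hF : F.totalDegree ≤ D)
    (hG : G.totalDegree ≤ D) (hG0 : G ≠ 0) (h : ∀ c : K, F ≠ C c * G) : ¬ hmg D G ∣ hmg D F := by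
  rintro ⟨Q, hQ⟩
  have hev : ∀ t : Fin q → K, eval t F = eval t G * eval (Fin.cons 1 t) Q := by
    intro t
    rw [← eval_one hF, hQ, map_mul, eval_one hG]
  by_cases hF0 : F = 0
  · exact h 0 (by rw [hF0, map_zero, zero_mul])
  have h1 := (hmg_hom hF).totalDegree (hmg_ne_zero hF hF0)
  have h2 := (hmg_hom hG).totalDegree (hmg_ne_zero hG hG0)
  have hQ0 : Q ≠ 0 := by
    rintro rfl
    rw [mul_zero] at hQ
    exact hmg_ne_zero hF hF0 hQ
  have h3 := congrArg totalDegree hQ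
  rw [totalDegree_mul_of_isDomain (hmg_ne_zero hG hG0) hQ0, h1, h2] at h3
  have h4 : Q.totalDegree = 0 := by omega
  rw [totalDegree_eq_zero_iff_eq_C] at h4
  apply h (coeff 0 Q)
  apply MvPolynomial.funext
  intro t
  rw [hev t, h4, eval_C, coeff_C, if_pos rfl, map_mul, eval_C, mul_comm]

/-- the rational numbers `t_j = x_{j+1} / x_0`, all `|x_i| ≤ H`: the point `t` has height at most `H` -/
def Rep (H : ℕ) (t : Fin q → ℚ) (x : Fin (q + 1) → ℤ) : Prop :=
  x 0 ≠ 0 ∧ (∀ i, |x i| ≤ H) ∧ ∀ j, t j = x j.succ / x 0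

/-- from integral to rational parameters -/
theorem rat_count (P : (Fin (q + 1) → ℤ) → Prop) (B : ℝ) (H : ℕ)
    (h : ∀ S : Set (Fin (q + 1) → ℤ), (∀ x ∈ S, (∀ i, |x i| ≤ H) ∧ P x) →
      S.Finite ∧ (S.ncard : ℝ) ≤ B) (S : Set (Fin q → ℚ))
    (hS : ∀ t ∈ S, ∃ x, Rep H t x ∧ P x) : S.Finite ∧ (S.ncard : ℝ) ≤ B := by
  classical
  choose! f hf using hS
  obtain ⟨h1, h2⟩ := h (f '' S) (by
    rintro _ ⟨t, ht, rfl⟩
    exact ⟨(hf t ht).1.2.1, (hf t ht).2⟩)
  have hinj : Set.InjOn f S := by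
    intro t ht t' ht' he
    funext j
    rw [(hf t ht).1.2.2 j, (hf t' ht').1.2.2 j, he]
  refine ⟨h1.of_finite_image hinj, ?_⟩
  rwa [Set.ncard_image_of_injOn hinj] at h2

/-- the value at a rational vector -/
noncomputable def rval [CharZero K] (t : Fin q → ℚ) (f : MvPolynomial (Fin q) K) : K :=
  eval (fun j => ((t j : ℚ) : K)) f

theorem rval_eq [CharZero K] {D H : ℕ} {f : MvPolynomial (Fin q) K} (hD : f.totalDegree ≤ D)
    {t : Fin q → ℚ} {x : Fin (q + 1) → ℤ} (h : Rep H t x) :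
    eval (fun j => ((x j : ℤ) : K)) (hmg D f) = ((x 0 : ℤ) : K) ^ D * rval t f := by
  obtain ⟨h1, h2, h3⟩ := h
  rw [hmg_eval hD _ (by exact_mod_cast h1), rval]
  congr 3
  funext j
  rw [h3 j]
  push_cast
  rfl

end Pool.Agent.X295.Gal
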