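import Pool.Agent.X295.GalG

/-!
Families of elliptic curves with several parameters: congruences with curves with few bad places
(helper file).
-/

set_option autoImplicit false

namespace Pool.Agent.X295.Gal

open MvPolynomial NumberField IsDedekindDomain Pool.Agent.Y673.Loc Pool.Agent.Y673.FM
  Pool.Agent.Y673.DK Pool.Agent.Y673.CB Pool.Agent.W275.FMK
open Pool.Agent.Y673.Loc.ZV

variable {K : Type} [Field K] [NumberField K] {q : ℕ}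

theorem dvd_red {a c : ℕ} {k : ℤ} (ha : 0 < a) (h : (a : ℤ) ∣ (c : ℤ) * k) :
    ((a / Nat.gcd a c : ℕ) : ℤ) ∣ k := by
  set g := Nat.gcd a c with hg
  have hg0 : 0 < g := Nat.gcd_pos_of_pos_left _ ha
  have h5 : a ∣ c * k.natAbs := by
    have h6 := Int.natCast_dvd.1 h
    rwa [Int.natAbs_mul, Int.natAbs_natCast] at h6
  have h7 : a / g ∣ k.natAbs := by
    have hcop : Nat.Coprime (a / g) (c / g) := Nat.coprime_div_gcd_div_gcd hg0
    apply hcop.dvd_of_dvd_mul_left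
    have h8 : g ∣ a := Nat.gcd_dvd_left _ _
    have h9 : g ∣ c := Nat.gcd_dvd_right _ _
    have h10 : c / g * k.natAbs = c * k.natAbs / g := by
      rw [Nat.div_mul_right_comm h9]
    rw [h10]
    exact Nat.div_dvd_div h8 h5
  exact Int.natCast_dvd.2 h7

/-- The curve `y² = x³ + Ax + B` is related to a curve with good places outside `T`. -/
def Related (L : Type) [Field L] [NumberField L] (N n₀ T : ℕ) (A B : L) : Prop :=
  (∃ A₀ B₀ : L, 4 * A₀ ^ 3 + 27 * B₀ ^ 2 ≠ 0 ∧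
    (∀ w : HeightOneSpectrum (𝓞 L), (adv L w).v ((T : ℕ) : L) = 0 → (adv L w).G 0 (jv A₀ B₀)) ∧
    ∃ p : ℕ, p.Prime ∧ N ≤ p ∧ SameF A B A₀ B₀ p) ∨
  (∃ A₀ B₀ : 𝓞 L, 4 * A₀ ^ 3 + 27 * B₀ ^ 2 ≠ 0 ∧
    (∀ w : HeightOneSpectrum (𝓞 L), (adv L w).v ((T : ℕ) : L) = 0 →
      (adv L w).v (4 * (A₀ : L) ^ 3 + 27 * (B₀ : L) ^ 2) = 0) ∧
    ∃ m : ℕ, n₀ ≤ m ∧ ∃ f, Cong A B (A₀ : L) (B₀ : L) m f)

/-- the level from which on all congruences are excluded -/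
def lev (n δ N : ℕ) : ℕ := (60 * (n.factorial * δ.factorial) * N) ^ N + 1

theorem no_rel {j j₂ : K} {μ D₀ N Z n δ : ℕ} (hw : WitJ j j₂ μ D₀ N Z) (hμ : 0 < μ) (hμδ : μ ≤ δ)
    (hμN : μ < N) (h6 : 6 * N.factorial ∣ D₀) (hD₀ : D₀ ≠ 0) (h13 : 13 ≤ N) (hnN : n < N)
    (h8 : 8 * n < N ^ 2 - 1) (L : Type)
    [Field L] [NumberField L] [Algebra K L] (hL : Module.finrank ℚ L ≤ n) (T : ℕ) (hT1 : 1 ≤ T)
    (hT2 : T ≤ Z) (A B : L) (hD : 4 * A ^ 3 + 27 * B ^ 2 ≠ 0) (hj : jv A B = algebraMap K L j) :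
    ¬ Related L N (lev n δ N) T A B := by
  have h6' : 6 ∣ D₀ := (Dvd.intro _ rfl).trans h6
  rintro (⟨A₀, B₀, hD', hint, p, hp, hNp, hF⟩ | ⟨A₀, B₀, hD', hint, m, hm, f, hf⟩)
  · exact no_cong hw hμ hμN h6' hD₀ h13 hnN h8 L hL T hT1 hT2 A B A₀ B₀ hD hD' hj (Or.inr hint) hp hNp hF
  have hD₀' : 4 * (A₀ : L) ^ 3 + 27 * (B₀ : L) ^ 2 ≠ 0 := by
    intro h0
    apply hD'
    have h4 : ((4 * A₀ ^ 3 + 27 * B₀ ^ 2 : 𝓞 L) : L) = 0 := by push_cast; exact h0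
    exact_mod_cast h4
  set c := 60 * (n.factorial * δ.factorial) with hc
  have hc0 : 0 < c := Nat.mul_pos (by norm_num) (Nat.mul_pos (Nat.factorial_pos _)
    (Nat.factorial_pos _))
  have hlev : (c * N) ^ N < m := by
    unfold lev at hm
    rw [← hc] at hm
    omega
  rcases large_factor N (c * N) m (Nat.mul_pos hc0 (by omega)) hlev with ⟨p, hp, hNp, hpm⟩ |
    ⟨r, k, hr, hrN, hrm, hM⟩
  · have hf' := cong_dvd hf hpm
    refine no_cong hw hμ hμN h6' hD₀ h13 hnN h8 L hL T hT1 hT2 A B A₀ B₀ hD hD₀' hj (Or.inr fun w hwT => ?_)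
      hp hNp (sameF_of f hf'.bij hf'.eqv)
    have hDE : (adv L w).E 0 (4 * (A₀ : L) ^ 3 + 27 * (B₀ : L) ^ 2) := ⟨hD₀', hint w hwT⟩
    unfold jv
    refine gdu (g00 ?_ (gp (G_zero_int w A₀) 3)) hDE
    exact_mod_cast gn (w := adv L w) 6912
  · have hf' := cong_dvd hf hrm
    set β := r ^ (k + 1) / Nat.gcd (r ^ (k + 1)) c with hβ
    have hpos : 0 < r ^ (k + 1) := pow_pos hr.pos _
    have hβN : N ≤ β := by
      rw [hβ, Nat.le_div_iff_mul_le (Nat.gcd_pos_of_pos_left _ hpos)]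
      calc N * Nat.gcd (r ^ (k + 1)) c ≤ N * c :=
            Nat.mul_le_mul_left _ (Nat.gcd_le_right _ hc0)
        _ = c * N := mul_comm _ _
        _ ≤ _ := hM
    obtain ⟨w, e, κ, he, hen, hT, hk, hpk, hwj, hneg, -⟩ := hw.up hμ L hL T hT1 hT2 β hβN
    have hTD0 : T * D₀ ≠ 0 := Nat.mul_ne_zero (by omega) hD₀
    have hu : ∀ a : ℕ, a ∣ T * D₀ → (adv L w).v (a : L) = 0 := fun a ha => nat_unit w hTD0 ha hT
    have hw2 : (adv L w).v (2 : L) = 0 := by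
      have := hu 2 (((by norm_num : (2 : ℕ) ∣ 6).trans h6').mul_left T)
      exact_mod_cast this
    have hwr : (adv L w).v (r : L) = 0 :=
      hu r ((((Nat.dvd_factorial hr.pos hrN.le).mul_left 6).trans h6).mul_left T)
    have hwT : (adv L w).v ((T : ℕ) : L) = 0 := hu T (Dvd.intro _ rfl)
    have h1 := tameM A B (A₀ : L) (B₀ : L) hD hD₀' hr (sameF_of f hf'.bij hf'.eqv) w hw2 hwr
      (G_zero_int w A₀) (G_zero_int w B₀) (hint w hwT) (by rw [hj]; exact hneg)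
    rw [hj, hwj] at h1
    have h2 : ((r ^ (k + 1) : ℕ) : ℤ) ∣ (c : ℤ) * κ := by
      obtain ⟨a, ha⟩ := Nat.dvd_factorial he hen
      obtain ⟨b, hb⟩ := Nat.dvd_factorial hμ hμδ
      have h3 : (c : ℤ) * κ = (60 * -((e : ℤ) * μ * κ)) * (-(a * b)) := by
        rw [hc, ha, hb]
        push_cast
        ring
      rw [h3]
      exact h1.mul_right _
    exact hpk (dvd_red hpos h2)

/-- congruences with curves with few bad places -/
theorem mainB (F G : MvPolynomial (Fin q) K) (hG : G ≠ 0) (hFG : ¬ G ∣ F) (n N : ℕ)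
    (h13 : 13 ≤ N) (hnN : n < N) (h8 : 8 * n < N ^ 2 - 1) (ε : ℝ) (hε : 0 < ε) :
    ∃ C : ℝ, 0 ≤ C ∧ ∀ H Z : ℕ, 1 ≤ H → 1 ≤ Z → ∀ S : Set (Fin q → ℤ),
      (∀ u ∈ S, (∀ j, |u j| ≤ H) ∧ val u G ≠ 0 ∧ ∃ (L : Type) (_ : Field L) (_ : NumberField L)
        (_ : Algebra K L), Module.finrank ℚ L ≤ n ∧ ∃ A B : L, 4 * A ^ 3 + 27 * B ^ 2 ≠ 0 ∧
          jv A B = algebraMap K L (val u F / val u G) ∧ ∃ T : ℕ, 1 ≤ T ∧ T ≤ Z ∧
            Related L N (lev n G.totalDegree N) T A B) →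
      S.Finite ∧ (S.ncard : ℝ) ≤ C * (Z : ℝ) ^ (1 + ε) * (H : ℝ) ^ ((q : ℝ) - 1 +
        (Module.finrank ℚ K * G.totalDegree : ℕ) / N + ε) := by
  obtain ⟨g, hg, hpole⟩ := exists_pole hG hFG
  obtain ⟨C, hC0, hC⟩ := count_set (F₂ := 0) (G₂ := 1) hg hG one_ne_zero hpole (not_pole_zero g)
    (6 * N.factorial) (Nat.mul_ne_zero (by norm_num) (Nat.factorial_ne_zero _)) N (by omega) ε hε
  refine ⟨C, hC0, fun H Z hH hZ S hS => hC H Z hH hZ S fun u hu => ?_⟩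
  obtain ⟨h1, h2, L, iF, iN, iA, h3, A, B, h4, h5, T, hT1, hT2, h6⟩ := hS u hu
  refine ⟨h1, h2, fun hGN μ hμ hμG hw => ?_⟩
  exact no_rel hw hμ hμG (by omega) (dvd_refl _)
    (Nat.mul_ne_zero (by norm_num) (Nat.factorial_ne_zero _)) h13 hnN h8 L h3 T hT1 hT2 A B h4 h5 h6

end Pool.Agent.X295.Gal
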