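import Pool.Agent.X295.GalH

/-!
Families of elliptic curves with several rational parameters (helper file).
-/

set_option autoImplicit false

namespace Pool.Agent.X295.Gal

open MvPolynomial NumberField IsDedekindDomain Pool.Agent.Y673.Loc Pool.Agent.Y673.FM
  Pool.Agent.Y673.DK Pool.Agent.Y673.CB Pool.Agent.W275.FMK
open Pool.Agent.Y673.Loc.ZV

variable {K : Type} [Field K] [NumberField K] {q : ℕ}

theorem val_hmg {D H : ℕ} {F G : MvPolynomial (Fin q) K} (hF : F.totalDegree ≤ D)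
    (hG : G.totalDegree ≤ D) {t : Fin q → ℚ} {x : Fin (q + 1) → ℤ} (h : Rep H t x) :
    val x (hmg D F) / val x (hmg D G) = rval t F / rval t G ∧
      (rval t G ≠ 0 → val x (hmg D G) ≠ 0) := by
  have h1 : (((x 0 : ℤ) : K) ^ D) ≠ 0 := pow_ne_zero _ (by exact_mod_cast h.1)
  unfold val
  rw [rval_eq hF h, rval_eq hG h]
  exact ⟨mul_div_mul_left _ _ h1, fun h2 => mul_ne_zero h1 h2⟩

theorem deg_hmg {D : ℕ} {G : MvPolynomial (Fin q) K} (hG : G.totalDegree ≤ D) (hG0 : G ≠ 0) :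
    (hmg D G).totalDegree = D := (hmg_hom hG).totalDegree (hmg_ne_zero hG hG0)

/-- rational parameters: the order of the image -/
theorem mainA_rat (F G : MvPolynomial (Fin q) K) (hG : G ≠ 0) (hFG : ∀ c : K, F ≠ C c * G)
    (n N : ℕ) (hN5 : 5 ≤ N) (hnN : n < N) (h8 : 8 * n < N ^ 2 - 1) (ε : ℝ) (hε : 0 < ε) :
    ∃ C : ℝ, ∀ H : ℕ, 1 ≤ H → ∀ S : Set (Fin q → ℚ),
      (∀ t ∈ S, (∃ x, Rep H t x) ∧ rval t G ≠ 0 ∧ ∃ (L : Type) (_ : Field L) (_ : NumberField L)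
        (_ : Algebra K L), Module.finrank ℚ L ≤ n ∧
          EJ L N (algebraMap K L (rval t F / rval t G))) →
      S.Finite ∧ (S.ncard : ℝ) ≤ C * (H : ℝ) ^ ((q : ℝ) +
        (Module.finrank ℚ K * max F.totalDegree G.totalDegree : ℕ) / N + ε) := by
  set D := max F.totalDegree G.totalDegree with hD
  have hFD : F.totalDegree ≤ D := le_max_left _ _
  have hGD : G.totalDegree ≤ D := le_max_right _ _
  obtain ⟨C, hC⟩ := mainA (hmg D F) (hmg D G) (hmg_ne_zero hGD hG)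
    (hmg_not_dvd hFD hGD hG hFG) n N hN5 hnN h8 ε hε
  rw [deg_hmg hGD hG, show (((q + 1 : ℕ) : ℝ) - 1) = q by push_cast; ring] at hC
  refine ⟨C, fun H hH S hS => ?_⟩
  refine rat_count (fun x => val x (hmg D G) ≠ 0 ∧ ∃ (L : Type) (_ : Field L) (_ : NumberField L)
        (_ : Algebra K L), Module.finrank ℚ L ≤ n ∧
          EJ L N (algebraMap K L (val x (hmg D F) / val x (hmg D G)))) _ H
    (fun S' hS' => hC H hH S' hS') S fun t ht => ?_
  obtain ⟨⟨x, hx⟩, h1, L, iF, iN, iA, h2, h3⟩ := hS t ht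
  obtain ⟨e1, e2⟩ := val_hmg (D := D) hFD hGD hx
  exact ⟨x, hx, e2 h1, L, iF, iN, iA, h2, by rw [e1]; exact h3⟩

/-- rational parameters: congruences with curves with few bad places -/
theorem mainB_rat (F G : MvPolynomial (Fin q) K) (hG : G ≠ 0) (hFG : ∀ c : K, F ≠ C c * G)
    (n N : ℕ) (h13 : 13 ≤ N) (hnN : n < N) (h8 : 8 * n < N ^ 2 - 1) (ε : ℝ) (hε : 0 < ε) :
    ∃ C : ℝ, 0 ≤ C ∧ ∀ H Z : ℕ, 1 ≤ H → 1 ≤ Z → ∀ S : Set (Fin q → ℚ),
      (∀ t ∈ S, (∃ x, Rep H t x) ∧ rval t G ≠ 0 ∧ ∃ (L : Type) (_ : Field L) (_ : NumberField L)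
        (_ : Algebra K L), Module.finrank ℚ L ≤ n ∧ ∃ A B : L, 4 * A ^ 3 + 27 * B ^ 2 ≠ 0 ∧
          jv A B = algebraMap K L (rval t F / rval t G) ∧ ∃ T : ℕ, 1 ≤ T ∧ T ≤ Z ∧
            Related L N (lev n (max F.totalDegree G.totalDegree) N) T A B) →
      S.Finite ∧ (S.ncard : ℝ) ≤ C * (Z : ℝ) ^ (1 + ε) * (H : ℝ) ^ ((q : ℝ) +
        (Module.finrank ℚ K * max F.totalDegree G.totalDegree : ℕ) / N + ε) := by
  set D := max F.totalDegree G.totalDegree with hD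
  have hFD : F.totalDegree ≤ D := le_max_left _ _
  have hGD : G.totalDegree ≤ D := le_max_right _ _
  obtain ⟨C, hC0, hC⟩ := mainB (hmg D F) (hmg D G) (hmg_ne_zero hGD hG)
    (hmg_not_dvd hFD hGD hG hFG) n N h13 hnN h8 ε hε
  rw [deg_hmg hGD hG, show (((q + 1 : ℕ) : ℝ) - 1) = q by push_cast; ring] at hC
  refine ⟨C, hC0, fun H Z hH hZ S hS => ?_⟩
  refine rat_count (fun x => val x (hmg D G) ≠ 0 ∧ ∃ (L : Type) (_ : Field L) (_ : NumberField L)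
        (_ : Algebra K L), Module.finrank ℚ L ≤ n ∧ ∃ A B : L, 4 * A ^ 3 + 27 * B ^ 2 ≠ 0 ∧
          jv A B = algebraMap K L (val x (hmg D F) / val x (hmg D G)) ∧ ∃ T : ℕ, 1 ≤ T ∧ T ≤ Z ∧
            Related L N (lev n D N) T A B) _ H
    (fun S' hS' => hC H Z hH hZ S' hS') S fun t ht => ?_
  obtain ⟨⟨x, hx⟩, h1, L, iF, iN, iA, h2, A, B, h3, h4, T, h5, h6, h7⟩ := hS t ht
  obtain ⟨e1, e2⟩ := val_hmg (D := D) hFD hGD hx
  exact ⟨x, hx, e2 h1, L, iF, iN, iA, h2, A, B, h3, by rw [e1]; exact h4, T, h5, h6, h7⟩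

end Pool.Agent.X295.Gal
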