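import Pool.Agent.Y92.ZX.Uni

/-!
The lemma of Gauss at a place (helper file).
-/

set_option autoImplicit false

namespace Pool.Agent.X295

open MvPolynomial Pool.Agent.Y226 Pool.Agent.Y226.ZG Pool.Agent.Y226.ZM Pool.Agent.Y226.ZU
  Pool.Agent.Y92.ZX

theorem lift_OO {C : Type} [NormedField C] [IsUltrametricDist C] {σ : Type}
    (f : MvPolynomial σ C) (hf : ∀ m, ‖coeff m f‖ ≤ 1) :
    ∃ g : MvPolynomial σ (OO C), MvPolynomial.map (OO C).subtype g = f := by
  classical
  have h : f ∈ Set.range (MvPolynomial.map (OO C).subtype) := by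
    rw [MvPolynomial.mem_range_map_iff_coeffs_subset]
    intro c hc
    obtain ⟨m, -, rfl⟩ := MvPolynomial.mem_coeffs_iff.1 hc
    exact ⟨⟨_, hf m⟩, rfl⟩
  exact h

theorem gauss {K C k σ : Type} [Field K] [NormedField C] [IsUltrametricDist C] [Field k]
    (p : ℕ) [CharP k p] (φ : K →+* C) (red : OO C →+* k)
    (hker : ∀ x : OO C, red x = 0 ↔ ‖(x : C)‖ < 1) (h : MvPolynomial σ ℤ)
    (hm : ∃ m, ¬ (p : ℤ) ∣ coeff m h) (P Q : MvPolynomial σ K)
    (hP : P = MvPolynomial.map (Int.castRingHom K) h * Q) (hPi : ∀ m, ‖φ (coeff m P)‖ ≤ 1) :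
    ∀ m, ‖φ (coeff m Q)‖ ≤ 1 := by
  classical
  by_contra hcon
  push Not at hcon
  obtain ⟨m₁, hm₁⟩ := hcon
  have hsup : m₁ ∈ Q.support := by
    rw [mem_support_iff]
    intro h0
    rw [h0, map_zero, norm_zero] at hm₁
    exact absurd hm₁ (not_lt.2 zero_le_one)
  obtain ⟨m₀, hm₀, hmax⟩ := Q.support.exists_max_image (fun m => ‖φ (coeff m Q)‖) ⟨m₁, hsup⟩
  set a := φ (coeff m₀ Q) with ha
  have ha1 : 1 < ‖a‖ := hm₁.trans_le (hmax m₁ hsup)
  have ha0 : a ≠ 0 := norm_pos_iff.1 (zero_lt_one.trans ha1)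
  obtain ⟨Qo, hQo⟩ := lift_OO (MvPolynomial.C a⁻¹ * MvPolynomial.map φ Q) (by
    intro m
    rw [coeff_C_mul, coeff_map, norm_mul, norm_inv]
    by_cases hms : m ∈ Q.support
    · have h1 := hmax m hms
      rw [inv_mul_le_iff₀ (zero_lt_one.trans ha1), mul_one]
      exact h1
    · rw [notMem_support_iff.1 hms, map_zero, norm_zero, mul_zero]
      exact zero_le_one)
  have hPo1 : ∀ m, ‖coeff m (MvPolynomial.C a⁻¹ * MvPolynomial.map φ P)‖ < 1 := by
    intro m
    rw [coeff_C_mul, coeff_map, norm_mul, norm_inv]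
    calc ‖a‖⁻¹ * ‖φ (coeff m P)‖ ≤ ‖a‖⁻¹ * 1 := by gcongr; exact hPi m
      _ < 1 := by rw [mul_one]; exact inv_lt_one_of_one_lt₀ ha1
  obtain ⟨Po, hPo⟩ := lift_OO (MvPolynomial.C a⁻¹ * MvPolynomial.map φ P) fun m => (hPo1 m).le
  have hinj : Function.Injective (MvPolynomial.map (σ := σ) (OO C).subtype) :=
    MvPolynomial.map_injective _ Subtype.val_injective
  have hmul : MvPolynomial.map (Int.castRingHom (OO C)) h * Qo = Po := by
    apply hinj
    rw [map_mul, hQo, hPo, MvPolynomial.map_map, hP, map_mul, MvPolynomial.map_map,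
      RingHom.ext_int ((OO C).subtype.comp (Int.castRingHom (OO C))) (Int.castRingHom C),
      RingHom.ext_int (φ.comp (Int.castRingHom K)) (Int.castRingHom C)]
    ring
  have h1 := congrArg (MvPolynomial.map red) hmul
  rw [map_mul, MvPolynomial.map_map,
    RingHom.ext_int (red.comp (Int.castRingHom (OO C))) (Int.castRingHom k)] at h1
  have h2 : MvPolynomial.map red Po = 0 := by
    ext m
    rw [coeff_map, coeff_zero, hker]
    have h3 : ((coeff m Po : OO C) : C) = coeff m (MvPolynomial.map (OO C).subtype Po) := by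
      rw [coeff_map]
      rfl
    rw [h3, hPo]
    exact hPo1 m
  have h3 : MvPolynomial.map red Qo ≠ 0 := by
    intro h0
    have h4 := congrArg (coeff m₀) h0
    rw [coeff_map, coeff_zero, hker] at h4
    have h5 : ((coeff m₀ Qo : OO C) : C) = coeff m₀ (MvPolynomial.map (OO C).subtype Qo) := by
      rw [coeff_map]
      rfl
    rw [h5, hQo, coeff_C_mul, coeff_map, ← ha, inv_mul_cancel₀ ha0, norm_one] at h4
    exact lt_irrefl _ h4
  have h4 : MvPolynomial.map (Int.castRingHom k) h ≠ 0 := by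
    intro h0
    obtain ⟨m, hm⟩ := hm
    have h5 := congrArg (coeff m) h0
    rw [coeff_map, coeff_zero] at h5
    exact hm ((CharP.intCast_eq_zero_iff k p _).1 h5)
  rw [h2] at h1
  exact (mul_ne_zero h4 h3) h1

end Pool.Agent.X295
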