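import Pool.Agent.Y92.ZX.FamAll

/-!
Families of curves whose generic member over a hypersurface of the space of parameters is a curve in
general position: the data over all sufficiently large rings (helper file).
-/

set_option autoImplicit false
set_option linter.unusedSectionVars false

open UpperHalfPlane H294ZP Polynomial

namespace Pool.Agent.X295

open Pool.Agent.Y226 Pool.Agent.Y226.ZG Pool.Agent.Y226.ZM Pool.Agent.Y226.ZU Pool.Agent.Y92.ZX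
open Pool.Agent.Y108.ZX (lift1 lift2 lift3 sub_inj map_inj map2_inj map_bh bezout noCommon)

/-- The data of a family whose generic member over a hypersurface is good. -/
theorem famg (n q W : ℕ) (κ : Type) [Finite κ] (d₀ : ℕ)
    (F : κ → MvPolynomial (Fin n × Bool) (MvPolynomial (Fin q) QA))
    (Ω : Type) [Field Ω] [IsAlgClosed Ω] [CharZero Ω] (e : MvPolynomial (Fin q) QA →+* Ω)
    (hF : GM d₀ e F) :
    ∃ (N M d D B : ℕ) (S₀ : Finset Ω) (T₀ : Finset QA), 0 < N ∧ W * N + W ≤ M ∧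
      ∀ A : Subring QA, (∀ s ∈ T₀, s ∈ A) →
      ∃ FR : κ → MvPolynomial (Fin n × Bool) (MvPolynomial (Fin q) A),
        (∀ t, MvPolynomial.map (MvPolynomial.map A.subtype) (FR t) = F t) ∧
        (∀ t, MHom (FR t)) ∧
        ∀ (R : Subring Ω) (e₁ : MvPolynomial (Fin q) A →+* R),
          (∀ P, (e₁ P : Ω) = e (MvPolynomial.map A.subtype P)) → (∀ s ∈ S₀, s ∈ R) →
          (∃ 𝓡 : RD R n N W M d D, RDB 𝓡 B ∧
            MemI (fun c => Ideal.span (Set.range fun t => MvPolynomial.eval₂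
              (MvPolynomial.C.comp e₁) (chv c MvPolynomial.X) (FR t))) 𝓡) ∧
          ∀ i j, i ≠ j → ∃ (a b : ℕ) (g : ℕ → ℕ → MvPolynomial (Fin q) A),
            ∀ (𝕜 : Type) [Field 𝕜] (χ : R →+* 𝕜),
            χ (e₁ (g 0 0)) ≠ 0 ∧ χ (e₁ (g a 0)) ≠ 0 ∧ χ (e₁ (g 0 b)) ≠ 0 ∧
            χ (e₁ (g a b)) ≠ 0 ∧
            (∀ c : 𝕜, ∃ v ≤ b, ∑ u ∈ Finset.range (a + 1), χ (e₁ (g u v)) * c ^ u ≠ 0) ∧
            bh i j a b g ∈ Ideal.span (Set.range FR) := by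
  classical
  have := Fintype.ofFinite κ
  let G : Option (Fin n) → κ → MvPolynomial (Fin n) Ω := fun c t =>
    MvPolynomial.eval₂ (MvPolynomial.C.comp e) (chv c MvPolynomial.X) (F t)
  have hCC : CC d₀ (Ideal.span (Set.range (G none))) := Y945.ZX.gmcc _ _ n κ d₀ e F hF
  obtain ⟨N, M, d, D, B, S₀, hN, hM, h1⟩ := Y948.ZX.fam1_gen n W d₀ κ G hCC
    (fun N' M' d' D' 𝓡 hR => by
      have h2 := Y427.ZX.mem Y151.ZX.cht _ _ n κ d₀ e F hF N' W M' d' D' 𝓡 hR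
      exact ⟨h2.m1, h2.m2⟩)
  -- the lifts of the forms
  have hLF : Lrg QA (fun R => ∀ t, ∃ fR : MvPolynomial (Fin n × Bool) (MvPolynomial (Fin q) R),
      MvPolynomial.map (MvPolynomial.map R.subtype) fR = F t) := Lrg.all fun t => lift2 (F t)
  have hgen : ∀ x : Fin n × Fin n, ∃ (a b : ℕ) (g : ℕ → ℕ → MvPolynomial (Fin q) QA),
      x.1 ≠ x.2 → e (g 0 0) ≠ 0 ∧ e (g a 0) ≠ 0 ∧ e (g 0 b) ≠ 0 ∧ e (g a b) ≠ 0 ∧
      (∀ c : Ω, ∃ v ≤ b, ∑ u ∈ Finset.range (a + 1), e (g u v) * c ^ u ≠ 0) ∧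
      bh x.1 x.2 a b g ∈ Ideal.span (Set.range F) := by
    intro x
    by_cases hx : x.1 = x.2
    · exact ⟨0, 0, 0, fun h => absurd hx h⟩
    · obtain ⟨a, b, g, -, -, h1, h2, h3, h4, h5, h6⟩ := hF.gen x.1 x.2 hx
      exact ⟨a, b, g, fun _ => ⟨h1, h2, h3, h4, h5, h6⟩⟩
  choose a b g hg using hgen
  -- the relations over `QA`
  have hP : ∀ x : Fin n × Fin n, Lrg QA (fun R => x.1 ≠ x.2 →
      ∀ FR : κ → MvPolynomial (Fin n × Bool) (MvPolynomial (Fin q) R),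
      (∀ t, MvPolynomial.map (MvPolynomial.map R.subtype) (FR t) = F t) →
      ∃ gR : ℕ → ℕ → MvPolynomial (Fin q) R,
        (∀ u, u ≤ a x → ∀ v, v ≤ b x → MvPolynomial.map R.subtype (gR u v) = g x u v) ∧
        bh x.1 x.2 (a x) (b x) gR ∈ Ideal.span (Set.range FR)) := by
    intro x
    refine Lrg.imp fun hx => ?_
    obtain ⟨-, -, -, -, -, h6⟩ := hg x hx
    obtain ⟨c, hc⟩ := Ideal.mem_span_range_iff_exists_fun.1 h6
    have L1 : Lrg QA (fun R => ∀ u, u ≤ a x → ∀ v, v ≤ b x → ∃ gR : MvPolynomial (Fin q) R,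
        MvPolynomial.map R.subtype gR = g x u v) :=
      Lrg.nat_le (a x) fun u _ => Lrg.nat_le (b x) fun v _ => lift1 (g x u v)
    have L2 : Lrg QA (fun R => ∀ t, ∃ fR : MvPolynomial (Fin n × Bool) (MvPolynomial (Fin q) R),
      MvPolynomial.map (MvPolynomial.map R.subtype) fR = c t) := Lrg.all fun t => lift2 (c t)
    refine (L1.and L2).mono ?_
    rintro R ⟨r1, r2⟩ FR hFR
    choose g' hg' using r1
    choose c' hc' using r2
    obtain ⟨gR, hgR⟩ : ∃ gR : ℕ → ℕ → MvPolynomial (Fin q) R, ∀ u, u ≤ a x → ∀ v, v ≤ b x →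
        MvPolynomial.map R.subtype (gR u v) = g x u v := by
      refine ⟨fun u v => if hu : u ≤ a x then (if hv : v ≤ b x then g' u hu v hv else 0) else 0, ?_⟩
      intro u hu v hv
      beta_reduce
      rw [dif_pos hu, dif_pos hv]
      exact hg' u hu v hv
    refine ⟨gR, hgR, ?_⟩
    rw [Ideal.mem_span_range_iff_exists_fun]
    refine ⟨c', ?_⟩
    apply map2_inj R
    rw [map_bh (MvPolynomial.map R.subtype) x.1 x.2 (a x) (b x) gR (g x) hgR, ← hc, map_sum]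
    refine Finset.sum_congr rfl fun t _ => ?_
    rw [map_mul, hc', hFR]
  -- the non-vanishing over `Ω`
  have hQ : ∀ x : Fin n × Fin n, Lrg Ω (fun R => x.1 ≠ x.2 → ∀ y : ℕ → ℕ → R,
      (∀ u, u ≤ a x → ∀ v, v ≤ b x → (y u v : Ω) = e (g x u v)) →
      ∀ (𝕜 : Type) [Field 𝕜] (χ : R →+* 𝕜), χ (y 0 0) ≠ 0 ∧ χ (y (a x) 0) ≠ 0 ∧
        χ (y 0 (b x)) ≠ 0 ∧ χ (y (a x) (b x)) ≠ 0 ∧
        (∀ c : 𝕜, ∃ v ≤ b x, ∑ u ∈ Finset.range (a x + 1), χ (y u v) * c ^ u ≠ 0)) := by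
    intro x
    refine Lrg.imp fun hx => ?_
    obtain ⟨h1, h2, h3, h4, h5, -⟩ := hg x hx
    obtain ⟨U, hU⟩ := bezout (a x) (b x) (fun u v => e (g x u v)) h5
    have L3 : Lrg Ω (fun R => ∀ v, v ≤ b x → ∃ UR : R[X], UR.map R.subtype = U v) :=
      Lrg.nat_le (b x) fun v _ => lift3 (U v)
    have L4 : Lrg Ω (fun R => (e (g x 0 0))⁻¹ ∈ R ∧ (e (g x (a x) 0))⁻¹ ∈ R ∧
        (e (g x 0 (b x)))⁻¹ ∈ R ∧ (e (g x (a x) (b x)))⁻¹ ∈ R) :=
      (Lrg.mem _).and ((Lrg.mem _).and ((Lrg.mem _).and (Lrg.mem _)))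
    refine (L3.and L4).mono ?_
    rintro R ⟨r3, r4, r5, r6, r7⟩ y hy 𝕜 _ χ
    choose U' hU' using r3
    obtain ⟨UR, hUR⟩ : ∃ UR : ℕ → R[X], ∀ v, v ≤ b x → (UR v).map R.subtype = U v := by
      refine ⟨fun v => if hv : v ≤ b x then U' v hv else 0, ?_⟩
      intro v hv
      beta_reduce
      rw [dif_pos hv]
      exact hU' v hv
    have hu : ∀ (z : R) (w : Ω), (z : Ω) = w → w ≠ 0 → w⁻¹ ∈ R → χ z ≠ 0 := by
      intro z w hz hw hi
      have hu : IsUnit z := unit_of_inv (by rwa [hz]) (by rwa [hz])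
      exact (hu.map χ).ne_zero
    refine ⟨hu _ _ (hy _ (by omega) _ (by omega)) h1 r4, hu _ _ (hy _ le_rfl _ (by omega)) h2 r5,
      hu _ _ (hy _ (by omega) _ le_rfl) h3 r6, hu _ _ (hy _ le_rfl _ le_rfl) h4 r7, ?_⟩
    intro c
    exact noCommon χ (a x) (b x) (fun u v => e (g x u v)) y hy U UR hUR hU c
  obtain ⟨T₀, hT₀⟩ := hLF.and (Lrg.all hP)
  obtain ⟨S₁, hS₁⟩ := Lrg.all hQ
  refine ⟨N, M, d, D, B, S₀ ∪ S₁, T₀, hN, hM, fun A hA => ?_⟩
  obtain ⟨r1, r2⟩ := hT₀ A hA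
  choose FR hFR using r1
  refine ⟨FR, hFR, fun t => ?_, fun R e₁ he₁ hR => ⟨?_, fun i j hij => ?_⟩⟩
  · obtain ⟨δ, hδ⟩ := hF.hom t
    refine ⟨δ, fun s hs => hδ s ?_⟩
    rw [← hFR t, MvPolynomial.support_map_of_injective _ (map_inj A)]
    exact hs
  · refine h1 R (fun s hs => hR s (Finset.mem_union_left _ hs)) _ (fun c t => ?_)
    have h3 : R.subtype.comp e₁ = e.comp (MvPolynomial.map A.subtype) := RingHom.ext he₁
    have h4 : e.comp (MvPolynomial.map A.subtype) = R.subtype.comp e₁ := h3.symm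
    rw [chart_map e₁ e (MvPolynomial.map A.subtype) R.subtype h4, hFR]
  · obtain ⟨gR, hgR, hbh⟩ := r2 (i, j) hij FR hFR
    refine ⟨a (i, j), b (i, j), gR, fun 𝕜 _ χ => ?_⟩
    obtain ⟨k1, k2, k3, k4, k5⟩ := hS₁ R (fun s hs => hR s (Finset.mem_union_right _ hs)) (i, j)
      hij (fun u v => e₁ (gR u v)) (fun u hu v hv => by rw [he₁, hgR u hu v hv]) 𝕜 χ
    exact ⟨k1, k2, k3, k4, k5, hbh⟩

end Pool.Agent.X295
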