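import Pool.Agent.X295.GenFam
import Pool.Agent.X295.Ext
import Pool.Agent.X295.Gauss

/-!
Families of curves whose generic member over a hypersurface of the space of parameters is a curve in
general position: the local data of the members (helper file).
-/

set_option autoImplicit false
set_option linter.unusedSectionVars false

open UpperHalfPlane H294ZP Polynomial

namespace Pool.Agent.X295

open Pool.Agent.Y226 Pool.Agent.Y226.ZG Pool.Agent.Y226.ZM Pool.Agent.Y226.ZU Pool.Agent.Y92.ZX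
open Pool.Agent.Y108.ZX (lift1 lift2 lift3 sub_inj map_inj map2_inj map_bh bezout noCommon)

/-- lifts of polynomials over a polynomial ring -/
theorem lift4 {q : ℕ} (P : Polynomial (MvPolynomial (Fin q) QA)) :
    Lrg QA (fun R => ∃ PR : Polynomial (MvPolynomial (Fin q) R),
      PR.map (MvPolynomial.map R.subtype) = P) := by
  have L1 : Lrg QA (fun R => ∀ i, i ≤ P.natDegree → ∃ cR : MvPolynomial (Fin q) R,
      MvPolynomial.map R.subtype cR = P.coeff i) :=
    Lrg.nat_le P.natDegree fun i _ => lift1 (P.coeff i)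
  refine L1.mono fun R hR => ?_
  choose c hc using hR
  refine ⟨∑ i ∈ Finset.range (P.natDegree + 1),
    (if hi : i ≤ P.natDegree then C (c i hi) * X ^ i else 0), ?_⟩
  rw [Polynomial.map_sum]
  conv_rhs => rw [P.as_sum_range_C_mul_X_pow]
  refine Finset.sum_congr rfl fun i hi => ?_
  have hi' : i ≤ P.natDegree := by
    rw [Finset.mem_range] at hi
    omega
  rw [dif_pos hi', Polynomial.map_mul, Polynomial.map_C, Polynomial.map_pow, Polynomial.map_X, hc]

/-- the member of the family over the algebraic numbers -/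
noncomputable def mem' {n q : ℕ} {κ : Type}
    (F : κ → MvPolynomial (Fin n × Bool) (MvPolynomial (Fin q) QA)) (u : Fin q → QA) (t : κ) :
    MvPolynomial (Fin n × Bool) QA :=
  MvPolynomial.map (MvPolynomial.eval u) (F t)

/-- The local data of the members with a good prime divisor of `h (u)`. -/
theorem gen_LB (n q W : ℕ) (κ : Type) [Finite κ] (d₀ : ℕ)
    (F : κ → MvPolynomial (Fin n × Bool) (MvPolynomial (Fin q) QA))
    (h : MvPolynomial (Fin q) ℤ) (hh0 : h ≠ 0)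
    (Ω : Type) [Field Ω] [IsAlgClosed Ω] [CharZero Ω] (e : MvPolynomial (Fin q) QA →+* Ω)
    (he : ∀ P, e P = 0 → MvPolynomial.map (Int.castRingHom QA) h ∣ P)
    (halg : ∀ s : Ω, ∃ P : Polynomial (MvPolynomial (Fin q) QA), (P.map e).eval s = 0 ∧
      e P.leadingCoeff ≠ 0)
    (hF : GM d₀ e F) :
    ∃ (N M d D B : ℕ) (Δ : MvPolynomial (Fin q) QA) (D₀ : ℕ), e Δ ≠ 0 ∧ W * N + W ≤ M ∧
    ∀ (p : ℕ) [hpf : Fact p.Prime], D₀ < p → ∀ (C : Type) [NormedField C]
    [IsUltrametricDist C] [CompleteSpace C] [CharZero C] [IsAlgClosed C] (k : Type) [Field k]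
    [CharP k p] [IsAlgClosed k] (red : OO C →+* k) (𝕜 : Type) [Field 𝕜] [IsAlgClosed 𝕜]
    (ρ : Nr C p →+* 𝕜)
    (ι : 𝕜 →+* k) (φ : QA →+* C), 0 < ‖(p : C)‖ → ‖(p : C)‖ < 1 →
    (∀ x : OO C, red x = 0 ↔ ‖(x : C)‖ < 1) → Function.Surjective ρ →
    (∀ r : Nr C p, ι (ρ r) = red ⟨r, Nr_le r.2⟩) →
    ∀ u : Fin q → ℤ, ‖φ (MvPolynomial.eval (fun l => ((u l : ℤ) : QA))
        (MvPolynomial.map (Int.castRingHom QA) h))‖ < 1 →
    ‖φ (MvPolynomial.eval (fun l => ((u l : ℤ) : QA)) Δ)‖ = 1 →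
    ∀ (lam : Fin n → QA) (f : ℕ) (w : Fin n → ℕ), 0 < f →
    (∀ i, 0 < w i ∧ w i ≤ W ∧ ‖φ (lam i)‖ = ‖(p : C)‖ ^ (-((w i * f : ℕ) : ℤ)) ∧
      φ (lam i) * (p : C) ^ (w i * f) ∈ Nr C p) →
    (∀ i j : Fin n, i ≠ j → ∃ (a b : ℕ) (g : ℕ → ℕ → QA), g 0 0 ≠ 0 ∧ g a 0 ≠ 0 ∧
      g 0 b ≠ 0 ∧ g a b ≠ 0 ∧ (∀ c : QA, ∃ v ≤ b, ∑ u ∈ Finset.range (a + 1), g u v * c ^ u ≠ 0) ∧
      bh i j a b g ∈ Ideal.span (Set.range (mem' F fun l => ((u l : ℤ) : QA)))) ∧
    ∃ 𝓛 : LB C p k 𝕜 n N W M d D B, 𝓛.φ = φ ∧ (∀ i, (𝓛.Λ i : C) = φ (lam i)) ∧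
      ∀ s : Fin n → QA, (∀ t, MvPolynomial.eval (chv none s)
        (mem' F (fun l => ((u l : ℤ) : QA)) t) = 0) → 𝓛.Pt fun i => φ (s i) := by
  classical
  obtain ⟨N, M, d, D, B₀, S₀, T₀, hN, hM, hdata⟩ := famg n q W κ d₀ F Ω e hF
  choose Ps hPs1 hPs2 using halg
  obtain ⟨T₁, hT₁⟩ := Lrg.all (ι := S₀) fun s => lift4 (Ps s)
  obtain ⟨m₀, hm₀⟩ := MvPolynomial.ne_zero_iff.1 hh0
  choose Dn hDn using nr_large
  set B := B₀ + N + M + d + D + 1 with hBdef
  let Δ : MvPolynomial (Fin q) QA := ∏ s : S₀, (Ps s).leadingCoeff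
  obtain ⟨T₂, hT₂⟩ := Lrg.all (ι := S₀) fun s => lift1 (Ps s).leadingCoeff
  refine ⟨N, M, d, D, B, Δ, 16 * B ^ 2 * B ^ 2 + (16 * B ^ 2 + 2) + (B + 2) + W + 2 * B ^ 2 +
    (B * (B + 1) + 1) + (B ^ 2 + 1) + (T₀ ∪ (T₁ ∪ T₂)).sup Dn + (h.coeff m₀).natAbs, ?_, hM, ?_⟩
  · rw [map_prod]
    exact Finset.prod_ne_zero_iff.2 fun s _ => hPs2 s
  intro p hpf hDp C _ _ _ _ _ k _ _ _ red 𝕜 _ _ ρ ι φ hp0 hp1 hker hρs hι u hu1 hu2 lam f w hf hw
  have hρ0 : ∀ r : Nr C p, ρ r = 0 ↔ ‖(r : C)‖ < 1 := by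
    intro r
    rw [← map_eq_zero ι, hι, hker]
  -- the ring of coefficients
  let A : Subring QA := (Nr C p).comap φ
  have hAmem : ∀ x ∈ T₀ ∪ (T₁ ∪ T₂), x ∈ A := by
    intro x hx
    have h1 : Dn x ≤ (T₀ ∪ (T₁ ∪ T₂)).sup Dn := Finset.le_sup hx
    exact hDn x p (by omega) C φ hp1
  obtain ⟨FR, hFR, hHom, hdat⟩ := hdata A fun s hs => hAmem s (Finset.mem_union_left _ hs)
  let uQ : Fin q → QA := fun l => ((u l : ℤ) : QA)
  let φA : A →+* Nr C p := (φ.comp A.subtype).codRestrict (Nr C p) fun x => x.2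
  let θ : MvPolynomial (Fin q) A →+* Nr C p := MvPolynomial.eval₂Hom φA fun l => ((u l : ℤ) : Nr C p)
  let θQ : MvPolynomial (Fin q) A →+* QA := MvPolynomial.eval₂Hom A.subtype uQ
  have hθQ : ∀ x, θQ x = MvPolynomial.eval uQ (MvPolynomial.map A.subtype x) := by
    intro x
    show MvPolynomial.eval₂ A.subtype uQ x = _
    rw [MvPolynomial.eval_map]
  have hθφ : (Nr C p).subtype.comp θ = φ.comp θQ := by
    refine MvPolynomial.ringHom_ext ?_ ?_
    · intro r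
      simp only [θ, θQ, RingHom.comp_apply, MvPolynomial.eval₂Hom_C]
      rfl
    · intro l
      simp only [θ, θQ, RingHom.comp_apply, MvPolynomial.eval₂Hom_X', uQ, map_intCast]
  have hθφ' : ∀ x, ((θ x : Nr C p) : C) = φ (θQ x) := fun x => congrArg (fun f => f x) hθφ
  let eA : MvPolynomial (Fin q) A →+* Ω := e.comp (MvPolynomial.map A.subtype)
  let χ₁ : MvPolynomial (Fin q) A →+* 𝕜 := ρ.comp θ
  have hintu : ∀ z : ℤ, ‖(z : C)‖ ≤ 1 := fun z => by
    have := Nr_le (p := p) (((z : ℤ) : Nr C p)).2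
    push_cast at this
    exact this
  -- the kernel
  have hkerle : RingHom.ker eA ≤ RingHom.ker χ₁ := by
    intro P hP
    rw [RingHom.mem_ker] at hP ⊢
    obtain ⟨Q, hQ⟩ := he _ hP
    have hQi := gauss (k := k) p φ red hker h ⟨m₀, fun hd => by
      have h1 := Int.natAbs_dvd_natAbs.2 hd
      rw [Int.natAbs_natCast] at h1
      have h2 := Nat.le_of_dvd (Int.natAbs_pos.2 hm₀) h1
      omega⟩ _ Q hQ (fun m => by
        rw [MvPolynomial.coeff_map]
        exact Nr_le (P.coeff m).2)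
    show ρ (θ P) = 0
    rw [hρ0, hθφ', hθQ, hQ, map_mul, map_mul, norm_mul]
    have h3 : ‖φ (MvPolynomial.eval uQ Q)‖ ≤ 1 := by
      rw [MvPolynomial.eval_eq', map_sum]
      refine IsUltrametricDist.norm_sum_le_of_forall_le_of_nonneg zero_le_one fun m _ => ?_
      rw [map_mul, map_prod, norm_mul, norm_prod]
      refine mul_le_one₀ (hQi m) (by positivity) (Finset.prod_le_one (fun _ _ => norm_nonneg _)
        fun i _ => ?_)
      rw [map_pow, norm_pow]
      refine pow_le_one₀ (norm_nonneg _) ?_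
      show ‖φ ((u i : ℤ) : QA)‖ ≤ 1
      rw [map_intCast]
      exact hintu _
    calc _ ≤ ‖φ (MvPolynomial.eval uQ (MvPolynomial.map (Int.castRingHom QA) h))‖ * 1 := by
          gcongr
      _ < 1 := by rw [mul_one]; exact hu1
  -- the non-vanishing of the leading coefficients
  have hint : ∀ (P : MvPolynomial (Fin q) QA), (∃ PR : MvPolynomial (Fin q) A,
      MvPolynomial.map A.subtype PR = P) → ‖φ (MvPolynomial.eval uQ P)‖ ≤ 1 := by
    rintro P ⟨PR, rfl⟩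
    rw [← hθQ, ← hθφ']
    exact Nr_le (θ PR).2
  have hlcl := hT₂ A fun s hs => hAmem s (Finset.mem_union_right _ (Finset.mem_union_right _ hs))
  have hlc1 : ∀ s : S₀, ‖φ (MvPolynomial.eval uQ (Ps s).leadingCoeff)‖ = 1 := by
    intro s
    have h1 : ‖φ (MvPolynomial.eval uQ Δ)‖ = 1 := hu2
    have h2 : Δ = (Ps s).leadingCoeff * ∏ s' ∈ Finset.univ.erase s, (Ps s').leadingCoeff :=
      (Finset.mul_prod_erase Finset.univ (fun s : S₀ => (Ps s).leadingCoeff)
        (Finset.mem_univ s)).symm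
    rw [h2, map_mul, map_mul, norm_mul, map_prod, map_prod, norm_prod] at h1
    have h3 : ‖φ (MvPolynomial.eval uQ (Ps s).leadingCoeff)‖ ≤ 1 := hint _ (hlcl s)
    have h4 : ∏ s' ∈ Finset.univ.erase s, ‖φ (MvPolynomial.eval uQ (Ps s').leadingCoeff)‖ ≤ 1 :=
      Finset.prod_le_one (fun _ _ => norm_nonneg _) fun s' _ => hint _ (hlcl s')
    refine le_antisymm h3 ?_
    rw [← h1]
    exact mul_le_of_le_one_right (norm_nonneg _) h4
  have hPl := hT₁ A fun s hs => hAmem s (Finset.mem_union_right _ (Finset.mem_union_left _ hs))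
  obtain ⟨R, eR, χ', heR, hSR, hχ'⟩ := ext_hom eA χ₁ hkerle (S₀ : Set Ω) (by
    intro s hs
    obtain ⟨PR, hPR⟩ := hPl ⟨s, hs⟩
    refine ⟨PR, ?_, ?_⟩
    · show (PR.map (e.comp (MvPolynomial.map A.subtype))).eval s = 0
      rw [← Polynomial.map_map, hPR]
      exact hPs1 s
    · have hinj : Function.Injective (MvPolynomial.map (σ := Fin q) A.subtype) := map_inj A
      have h1 : MvPolynomial.map A.subtype PR.leadingCoeff = (Ps s).leadingCoeff := by
        have h2 := Polynomial.leadingCoeff_map_of_injective hinj PR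
        rw [hPR] at h2
        exact h2.symm
      show ρ (θ PR.leadingCoeff) ≠ 0
      rw [Ne, hρ0, hθφ', hθQ, h1, hlc1 ⟨s, hs⟩]
      exact lt_irrefl _)
  obtain ⟨⟨𝓡R, hRB, hMemI⟩, hCor⟩ := hdat R eR heR fun s hs => hSR s hs
  have hχθ : ρ.comp θ = χ'.comp eR := RingHom.ext fun x => (hχ' x).symm
  have hχθ' : ∀ x, ρ (θ x) = χ' (eR x) := fun x => (hχ' x).symm
  have hne1 : ∀ r : Nr C p, ρ r ≠ 0 → ‖(r : C)‖ = 1 := fun r hr =>
    le_antisymm (Nr_le r.2) (not_lt.1 fun h => hr ((hρ0 r).2 h))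
  have hsp : ∀ c : Option (Fin n), ∀ g ∈ Ideal.span (Set.range fun t =>
      MvPolynomial.eval₂ (MvPolynomial.C.comp eR) (chv c MvPolynomial.X) (FR t)),
        MvPolynomial.map χ' g ∈ chI (χ'.comp eR) FR c := by
    intro c g hg
    have h3 := Ideal.mem_map_of_mem (MvPolynomial.map χ') hg
    rw [Ideal.map_span, ← Set.range_comp] at h3
    unfold chI
    convert h3 using 4 with t
    simp only [Function.comp_apply]
    rw [chart_map eR (χ'.comp eR) (RingHom.id _) χ' (RingHom.comp_id _), MvPolynomial.map_id]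
  let 𝓡 : RD 𝕜 n N W M d D := Y448.ZX.mapRD χ' 𝓡R
  have hMem' : Mem ρ (fun t => MvPolynomial.map θ (FR t)) 𝓡 := by
    constructor
    · intro c i s' j hij h1 h2
      rw [chI_map, hχθ]
      have h5 := hsp c _ (hMemI.m1 c i s' j hij h1 h2)
      rw [Y948.ZX.E2X_map] at h5
      exact h5
    · intro c v' w' h1 h2 h3 h4
      rw [chI_map, hχθ]
      have h5 := hsp c _ (hMemI.m2 c v' w' h1 h2 h3 h4)
      rw [Y948.ZX.hpol_map] at h5
      exact h5
  have hCor' : Cor ρ (fun t => MvPolynomial.map θ (FR t)) := by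
    intro i j hij
    obtain ⟨a, b, g, hg⟩ := hCor i j hij
    obtain ⟨h3, h4, h5, h6, -, h8⟩ := hg 𝕜 χ'
    exact ⟨a, b, fun u v => θ (g u v), by rw [hχθ']; exact h3, by rw [hχθ']; exact h4,
      by rw [hχθ']; exact h5, by rw [hχθ']; exact h6, bh_span_map θ h8⟩
  obtain ⟨ht, rho, hht, hpt⟩ := (Y427.ZX.pt2 Y151.ZX.eva) C p 𝕜 ρ hρs hp0 hp1 hρ0 n κ _
    (fun t => (hHom t).map θ) hCor' N W M d D 𝓡 hMem'
  set pu : Cˣ := Units.mk0 (p : C) (norm_pos_iff.1 hp0) with hpu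
  have hΛex : ∀ i, ∃ Λ : Cˣ, (Λ : C) = φ (lam i) ∧
      Λ * pu ^ (w i * f) ∈ GG C p 0 le_rfl one_pos := by
    intro i
    exact Lam_unit2 hp0 (hw i).2.2.1 (hw i).2.2.2 rfl
  choose Λ hΛ1 hΛ2 using hΛex
  have q1 : N ≤ B := by omega
  have q2 : M ≤ B := by omega
  have q3 : d ≤ B := by omega
  have q4 : D ≤ B := by omega
  have e1 : 16 * D ^ 2 * d ^ 2 ≤ 16 * B ^ 2 * B ^ 2 := by gcongr
  have e2 : 16 * d ^ 2 + 2 ≤ 16 * B ^ 2 + 2 := by gcongr
  have e3 : 2 * M ^ 2 ≤ 2 * B ^ 2 := by gcongr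
  have e4 : B * (D + 1) + 1 ≤ B * (B + 1) + 1 := by gcongr
  let 𝓛 : LB C p k 𝕜 n N W M d D B :=
    { φ := φ, red := red, hker := hker, hp0 := hp0, hp1 := hp1, ρ := ρ, hρs := hρs, ι := ι
      hι := hι, 𝓡 := 𝓡, h𝓡 := (Y448.ZX.mapRD_RDB χ' hRB).mono (by omega), ht := ht, hht := hht
      rho := rho
      Λ := Λ, w := w, hw := fun i => ⟨(hw i).1, (hw i).2.1⟩, e := f, he := hf, pu := pu
      hpu := rfl, hΛ := hΛ2
      b1 := by omega
      b2 := by omega
      b3 := by omega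
      b4 := by omega
      b5 := by omega
      b6 := by omega
      b7 := by omega
      b8 := by omega
      hB := by omega
      hN := hN
      hM := hM }
  -- the model over `QA`
  have hF'R : ∀ t, mem' F uQ t = MvPolynomial.map θQ (FR t) := by
    intro t
    show MvPolynomial.map (MvPolynomial.eval uQ) (F t) = _
    rw [← hFR t, MvPolynomial.map_map]
    congr 1
    refine MvPolynomial.ringHom_ext ?_ ?_
    · intro r
      simp [θQ]
    · intro l
      simp [θQ]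
  refine ⟨?_, 𝓛, rfl, hΛ1, ?_⟩
  · intro i j hij
    obtain ⟨a, b, g, hg⟩ := hCor i j hij
    obtain ⟨h3, h4, h5, h6, h7, h8⟩ := hg k (ι.comp χ')
    have hn1 : ∀ x : MvPolynomial (Fin q) A, (ι.comp χ') (eR x) ≠ 0 → ‖φ (θQ x)‖ = 1 := by
      intro x hx
      rw [← hθφ']
      apply hne1
      rw [hχθ']
      intro h0
      apply hx
      rw [RingHom.comp_apply, h0, map_zero]
    have hn0 : ∀ x : MvPolynomial (Fin q) A, (ι.comp χ') (eR x) ≠ 0 → θQ x ≠ 0 :=
      fun x hx h0 => by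
        have := hn1 x hx
        rw [h0, map_zero, norm_zero] at this
        exact zero_ne_one this
    refine ⟨a, b, fun u v => θQ (g u v), hn0 _ h3, hn0 _ h4, hn0 _ h5, hn0 _ h6, ?_, ?_⟩
    · refine nonvert φ red hker (fun u v => by rw [← hθφ']; exact Nr_le (θ (g u v)).2)
        (hn1 _ h6) ?_
      intro c
      obtain ⟨v', hv', hne⟩ := h7 c
      refine ⟨v', hv', ?_⟩
      convert hne using 3 with u' hu'
      have h9 : (⟨φ (θQ (g u' v')), by rw [← hθφ']; exact Nr_le (θ (g u' v')).2⟩ : OO C) =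
          ⟨((θ (g u' v') : Nr C p) : C), Nr_le (θ (g u' v')).2⟩ := Subtype.ext (hθφ' _).symm
      rw [h9, ← hι, hχθ']
      rfl
    · have h9 : mem' F uQ = fun t => MvPolynomial.map θQ (FR t) := funext hF'R
      show _ ∈ Ideal.span (Set.range (mem' F uQ))
      rw [h9]
      exact bh_span_map θQ h8
  · intro s' hs'
    refine hpt _ fun t => ?_
    have h1 := congrArg φ (hs' t)
    have h0 : mem' F (fun l => ((u l : ℤ) : QA)) t = MvPolynomial.map θQ (FR t) := hF'R t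
    rw [map_zero, h0, MvPolynomial.eval_map] at h1
    rw [MvPolynomial.eval₂_map, chv_map φ none s', ← h1, hθφ]
    exact (MvPolynomial.eval₂_comp_left φ θQ (chv none s') (FR t)).symm

end Pool.Agent.X295
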