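import Pool.Agent.X295.GenMain

/-!
The orders at large primes of the elements of a finitely generated ring of algebraic numbers
(helper file).
-/

set_option autoImplicit false
set_option linter.unusedSectionVars false

open Polynomial

namespace Pool.Agent.X295

open Pool.Agent.Y226

/-- A separable polynomial over the field with `p` elements divides `X ^ (p ^ f) - X`. -/
theorem sep_dvd {p : ℕ} [hp : Fact p.Prime] (h : (ZMod p)[X]) (hs : h.Separable) :
    ∃ f : ℕ, 0 < f ∧ h ∣ X ^ (p ^ f) - X := by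
  let L := h.SplittingField
  have : Finite L := Module.finite_of_finite (ZMod p)
  have := Fintype.ofFinite L
  have : CharP L p := charP_of_injective_algebraMap (algebraMap (ZMod p) L).injective p
  obtain ⟨n, hn1, hn⟩ := FiniteField.card L p
  refine ⟨n, n.pos, ?_⟩
  have h1 : h.map (algebraMap (ZMod p) L) ∣ (X ^ (p ^ (n : ℕ)) - X : (ZMod p)[X]).map
      (algebraMap (ZMod p) L) := by
    rw [Polynomial.map_sub, Polynomial.map_pow, Polynomial.map_X, ← hn]
    refine (SplittingField.splits h).dvd_of_roots_le_roots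
      ((Polynomial.map_ne_zero_iff (algebraMap (ZMod p) L).injective).2 hs.ne_zero) ?_
    rw [FiniteField.roots_X_pow_card_sub_X]
    refine (Multiset.le_iff_subset (nodup_roots (hs.map))).2 fun x _ => Finset.mem_univ x
  exact (Polynomial.map_dvd_map' _).1 h1

/-- Clearing denominators. -/
theorem clear_den1 (P : ℚ[X]) : ∃ (N : ℤ) (H : ℤ[X]), N ≠ 0 ∧
    H.map (Int.castRingHom ℚ) = C (N : ℚ) * P := by
  obtain ⟨b, hb0, hb⟩ := IsLocalization.integerNormalization_spec (nonZeroDivisors ℤ) (S := ℚ) P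
  refine ⟨b, IsLocalization.integerNormalization (nonZeroDivisors ℤ) P,
    nonZeroDivisors.ne_zero hb0, ?_⟩
  have h1 : (algebraMap ℤ ℚ) = Int.castRingHom ℚ := rfl
  rw [h1] at hb
  rw [hb]
  ext n
  rw [coeff_C_mul]
  simp

/-- The Frobenius congruence in the ring generated by an algebraic number. -/
theorem frob_large (θ : QA) : ∃ D : ℕ, ∀ (p : ℕ) [Fact p.Prime], D < p → ∃ f : ℕ, 0 < f ∧
    ∃ r : ℤ[X], θ ^ (p ^ f) - θ = (p : QA) * aeval θ r := by
  have hint : IsIntegral ℚ θ := Algebra.IsIntegral.isIntegral θ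
  obtain ⟨a, b, hab⟩ : (minpoly ℚ θ).Separable := (minpoly.irreducible hint).separable
  obtain ⟨N₁, H, hN₁, hH⟩ := clear_den1 (minpoly ℚ θ)
  obtain ⟨N₂, A, hN₂, hA⟩ := clear_den1 a
  obtain ⟨N₃, B, hN₃, hB⟩ := clear_den1 b
  have hid : C N₃ * A * H + C N₂ * B * derivative H = C (N₁ * N₂ * N₃) := by
    apply Polynomial.map_injective (Int.castRingHom ℚ) Int.cast_injective
    rw [Polynomial.map_add, Polynomial.map_mul, Polynomial.map_mul, Polynomial.map_mul,
      Polynomial.map_mul, ← derivative_map, hH, hA, hB, derivative_C_mul, Polynomial.map_C,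
      Polynomial.map_C, Polynomial.map_C]
    simp only [eq_intCast, Int.cast_mul, C_mul]
    linear_combination (C (N₁ : ℚ) * C (N₂ : ℚ) * C (N₃ : ℚ)) * hab
  refine ⟨(N₁ * N₂ * N₃).natAbs, fun p hp hpD => ?_⟩
  have hN : ¬ (p : ℤ) ∣ N₁ * N₂ * N₃ := by
    intro hd
    have h1 := Nat.le_of_dvd (Int.natAbs_pos.2 (mul_ne_zero (mul_ne_zero hN₁ hN₂) hN₃))
      (Int.natCast_dvd.1 hd)
    omega
  let red := Int.castRingHom (ZMod p)
  have hNp : ((N₁ * N₂ * N₃ : ℤ) : ZMod p) ≠ 0 := fun h0 =>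
    hN ((ZMod.intCast_zmod_eq_zero_iff_dvd _ _).1 h0)
  have hsep : (H.map red).Separable := by
    have h1 := congrArg (Polynomial.map red) hid
    rw [Polynomial.map_add, Polynomial.map_mul, Polynomial.map_mul (p := C N₂ * B),
      ← derivative_map, Polynomial.map_C] at h1
    set c : ZMod p := red (N₁ * N₂ * N₃) with hc
    have hc0 : c ≠ 0 := hNp
    refine ⟨C c⁻¹ * (C N₃ * A).map red, C c⁻¹ * (C N₂ * B).map red, ?_⟩
    have h2 : (C c⁻¹ : (ZMod p)[X]) * C c = 1 := by rw [← C_mul, inv_mul_cancel₀ hc0, C_1]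
    linear_combination C c⁻¹ * h1 + h2
  obtain ⟨f, hf, g, hg⟩ := sep_dvd _ hsep
  refine ⟨f, hf, ?_⟩
  obtain ⟨G, hG⟩ := Polynomial.map_surjective red (ZMod.ringHom_surjective red) g
  have h1 : Polynomial.C (p : ℤ) ∣ X ^ (p ^ f) - X - H * G := by
    rw [C_dvd_iff_dvd_coeff]
    intro i
    rw [← ZMod.intCast_zmod_eq_zero_iff_dvd]
    have h2 : (X ^ (p ^ f) - X - H * G : ℤ[X]).map red = 0 := by
      rw [Polynomial.map_sub, Polynomial.map_sub, Polynomial.map_pow, Polynomial.map_X,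
        Polynomial.map_mul, hG, hg, sub_self]
    have h3 := congrArg (fun f => coeff f i) h2
    simp only [coeff_map, coeff_zero] at h3
    exact h3
  obtain ⟨r, hr⟩ := h1
  refine ⟨r, ?_⟩
  have h2 := congrArg (aeval θ) hr
  have h3 : aeval θ H = 0 := by
    have h4 : aeval θ (H.map (Int.castRingHom ℚ)) = aeval θ H := by
      have := aeval_map_algebraMap ℚ θ H
      exact this
    rw [← h4, hH, map_mul, minpoly.aeval, mul_zero]
  rw [map_sub, map_sub, map_pow, aeval_X, map_mul, map_mul, h3, zero_mul, sub_zero, aeval_C] at h2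
  rw [h2]
  simp

section

variable {C : Type} [NormedField C] [IsUltrametricDist C] {p : ℕ} [hpf : Fact p.Prime]

/-- The order of an element of the ring generated by an unramified element. -/
theorem order_adjoin (hp0 : 0 < ‖(p : C)‖) (hp1 : ‖(p : C)‖ < 1) (θ : C) (hθ : ‖θ‖ ≤ 1) {f : ℕ}
    (hf : 0 < f) (r : ℤ[X]) (hr : θ ^ (p ^ f) - θ = (p : C) * aeval θ r) (g : ℤ[X])
    (hg : aeval θ g ≠ 0) : ∃ (v : ℕ) (m : C), m ∈ Nr C p ∧ ‖m‖ = 1 ∧
      aeval θ g = (p : C) ^ v * m := by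
  have hpC : (p : C) ≠ 0 := norm_pos_iff.1 hp0
  let S : Subring C := (aeval θ : ℤ[X] →ₐ[ℤ] C).toRingHom.range
  let W : Subring C := S.topologicalClosure
  set Q := p ^ f with hQ
  have hQ1 : 1 < Q := Nat.one_lt_pow hf.ne' hpf.out.one_lt
  have hSW : ∀ x ∈ S, x ∈ W := fun x hx => S.le_topologicalClosure hx
  have hWc : IsClosed (W : Set C) := S.isClosed_topologicalClosure
  have hpS : (p : C) ∈ S := natCast_mem _ _
  -- the congruence in `S`
  have hmul : ∀ x y, x ∈ S → y ∈ S → (∃ w ∈ S, x ^ Q - x = p * w) → (∃ w ∈ S, y ^ Q - y = p * w) →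
      ∃ w ∈ S, (x * y) ^ Q - x * y = p * w := by
    rintro x y hx hy ⟨w, hw, h1⟩ ⟨w', hw', h2⟩
    refine ⟨w * y ^ Q + x * w', S.add_mem (S.mul_mem hw (S.pow_mem hy _)) (S.mul_mem hx hw'), ?_⟩
    rw [mul_pow]
    linear_combination y ^ Q * h1 + x * h2
  have hadd : ∀ x y, x ∈ S → y ∈ S → (∃ w ∈ S, x ^ Q - x = p * w) → (∃ w ∈ S, y ^ Q - y = p * w) →
      ∃ w ∈ S, (x + y) ^ Q - (x + y) = p * w := by
    rintro x y hx hy ⟨w, hw, h1⟩ ⟨w', hw', h2⟩
    obtain ⟨t, ht⟩ := exists_add_pow_prime_pow_eq hpf.out (⟨x, hx⟩ : S) ⟨y, hy⟩ f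
    have ht' : (x + y) ^ Q = x ^ Q + y ^ Q + p * x * y * (t : C) := by
      simpa using congrArg Subtype.val ht
    refine ⟨w + w' + x * y * t, S.add_mem (S.add_mem hw hw') (S.mul_mem (S.mul_mem hx hy) t.2), ?_⟩
    linear_combination ht' + h1 + h2
  have hint : ∀ a : ℤ, ∃ w ∈ S, (a : C) ^ Q - a = p * w := by
    intro a
    have h1 : (p : ℤ) ∣ a ^ Q - a := by
      rw [← ZMod.intCast_zmod_eq_zero_iff_dvd]
      push_cast
      rw [hQ, ZMod.pow_card_pow, sub_self]
    obtain ⟨w, hw⟩ := h1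
    refine ⟨(w : C), intCast_mem _ _, ?_⟩
    exact_mod_cast congrArg (fun t : ℤ => (t : C)) hw
  have hSall : ∀ x ∈ S, ∃ w ∈ S, x ^ Q - x = p * w := by
    rintro _ ⟨P, rfl⟩
    show ∃ w ∈ S, (aeval θ P) ^ Q - aeval θ P = p * w
    have hmemS : ∀ P : ℤ[X], aeval θ P ∈ S := fun P => ⟨P, rfl⟩
    induction P using Polynomial.induction_on' with
    | add P P' hP hP' =>
      rw [map_add]
      exact hadd _ _ (hmemS _) (hmemS _) hP hP'
    | monomial n a =>
      rw [← C_mul_X_pow_eq_monomial, map_mul]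
      refine hmul _ _ (hmemS _) (hmemS _) ?_ ?_
      · rw [aeval_C]
        simpa using hint a
      · induction n with
        | zero => rw [pow_zero, map_one]; simpa using hint 1
        | succ n ih =>
          rw [pow_succ, map_mul]
          refine hmul _ _ (hmemS _) (hmemS _) ih ?_
          rw [aeval_X]
          exact ⟨_, hmemS r, hr⟩
  -- the congruence in `W`
  have hWall : ∀ x ∈ W, (x ^ Q - x) / p ∈ W := by
    intro x hx
    have hcont : Continuous fun x : C => (x ^ Q - x) / p := by fun_prop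
    refine map_mem_closure (f := fun x : C => (x ^ Q - x) / p) (s := (S : Set C))
      (t := (S : Set C)) hcont hx ?_
    intro y hy
    obtain ⟨w, hw, h1⟩ := hSall y hy
    show (y ^ Q - y) / p ∈ S
    rw [h1, mul_div_cancel_left₀ _ hpC]
    exact hw
  have hWk : ∀ x ∈ W, ∀ k : ℕ, (x ^ Q ^ k - x) / p ∈ W := by
    intro x hx k
    induction k with
    | zero => rw [pow_zero, pow_one, sub_self, zero_div]; exact W.zero_mem
    | succ k ih =>
      have h1 := hWall _ (W.pow_mem hx (Q ^ k))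
      have h2 : (x ^ Q ^ (k + 1) - x) / p = ((x ^ Q ^ k) ^ Q - x ^ Q ^ k) / p +
          (x ^ Q ^ k - x) / p := by
        rw [pow_succ, pow_mul]
        ring
      rw [h2]
      exact W.add_mem h1 ih
  have hdiv : ∀ x ∈ W, ‖x‖ < 1 → x / p ∈ W := by
    intro x hx hx1
    have h1 : Filter.Tendsto (fun k : ℕ => -((x ^ Q ^ k - x) / p)) Filter.atTop
        (nhds (-((0 - x) / p))) := by
      refine (Filter.Tendsto.div_const (Filter.Tendsto.sub_const ?_ x) _).neg
      exact (tendsto_pow_atTop_nhds_zero_of_norm_lt_one hx1).comp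
        (tendsto_pow_atTop_atTop_of_one_lt hQ1)
    have h2 : -((0 - x) / p) = x / p := by ring
    rw [h2] at h1
    exact hWc.mem_of_tendsto h1 (Filter.Eventually.of_forall fun k => W.neg_mem (hWk x hx k))
  have hW1 : ∀ x ∈ W, ‖x‖ ≤ 1 := by
    intro x hx
    have h1 : (W : Set C) ⊆ {x | ‖x‖ ≤ 1} := by
      refine closure_minimal ?_ (isClosed_le continuous_norm continuous_const)
      rintro _ ⟨P, rfl⟩
      show ‖aeval θ P‖ ≤ 1
      rw [aeval_def, eval₂_eq_sum_range]
      refine nsum_le _ _ zero_le_one fun i _ => nmul_le ?_ (npow_le hθ _)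
      simpa using nint (C := C) (P.coeff i)
    exact h1 hx
  -- the order
  set x := aeval θ g with hx
  have hxW : x ∈ W := hSW _ ⟨g, rfl⟩
  have hxpos : 0 < ‖x‖ := norm_pos_iff.2 hg
  obtain ⟨v, hv⟩ : ∃ v : ℕ, x / p ^ v ∈ W ∧ x / p ^ (v + 1) ∉ W := by
    by_contra hcon
    push Not at hcon
    have h1 : ∀ v : ℕ, x / p ^ v ∈ W := by
      intro v
      induction v with
      | zero => rw [pow_zero, div_one]; exact hxW
      | succ v ih => exact hcon v ih
    obtain ⟨v, hv⟩ := exists_pow_lt_of_lt_one hxpos hp1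
    have h2 := hW1 _ (h1 v)
    rw [norm_div, norm_pow, div_le_one (pow_pos hp0 v)] at h2
    exact absurd hv (not_lt.2 h2)
  set m := x / p ^ v with hm
  have hm1 : ‖m‖ = 1 := by
    refine le_antisymm (hW1 _ hv.1) ?_
    by_contra hlt
    push Not at hlt
    apply hv.2
    have h2 := hdiv _ hv.1 hlt
    rw [hm, div_div, ← pow_succ] at h2
    exact h2
  refine ⟨v, m, ⟨hm1.le, f, hf, ?_⟩, hm1, ?_⟩
  · have h1 := hW1 _ (hWall _ hv.1)
    rw [norm_div, div_le_one hp0] at h1
    exact h1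
  · rw [hm, mul_div_cancel₀ _ (pow_ne_zero v hpC)]

end

/-- A common generator. -/
theorem exists_gen (T : Finset QA) : ∃ (θ : QA) (N : ℤ), N ≠ 0 ∧ ∀ t ∈ T, ∃ g : ℤ[X],
    (N : QA) * t = aeval θ g := by
  classical
  let F := IntermediateField.adjoin ℚ (T : Set QA)
  have hfd : FiniteDimensional ℚ F := by
    have := T.finite_toSet.to_subtype
    exact IntermediateField.finiteDimensional_adjoin fun x _ => Algebra.IsIntegral.isIntegral x
  obtain ⟨α, hα⟩ := Field.exists_primitive_element ℚ F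
  have hint : IsAlgebraic ℚ α := Algebra.IsAlgebraic.isAlgebraic α
  have h1 : ∀ t : T, ∃ (N : ℤ) (g : ℤ[X]), N ≠ 0 ∧ (N : QA) * t = aeval (α : QA) g := by
    intro t
    have h2 : (⟨t, IntermediateField.subset_adjoin ℚ _ t.2⟩ : F) ∈
        (IntermediateField.adjoin ℚ {α}).toSubalgebra := by
      rw [hα]
      exact IntermediateField.mem_top
    rw [IntermediateField.adjoin_simple_toSubalgebra_of_isAlgebraic hint,
      Algebra.adjoin_singleton_eq_range_aeval] at h2
    obtain ⟨P, hP⟩ := h2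
    obtain ⟨N, H, hN, hH⟩ := clear_den1 P
    refine ⟨N, H, hN, ?_⟩
    have h3 : aeval (α : QA) P = (t : QA) := by
      have h4 := congrArg (fun z : F => (z : QA)) hP
      have h5 : ((aeval α P : F) : QA) = aeval (α : QA) P :=
        (Polynomial.aeval_algebraMap_apply QA α P).symm
      rw [← h5]
      exact h4
    have h6 : aeval (α : QA) (H.map (Int.castRingHom ℚ)) = aeval (α : QA) H :=
      aeval_map_algebraMap ℚ (α : QA) H
    rw [← h6, hH, map_mul, h3, aeval_C]
    simp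
  choose N g hN hg using h1
  refine ⟨α, ∏ t, N t, Finset.prod_ne_zero_iff.2 fun t _ => hN t, fun t ht => ?_⟩
  refine ⟨C (∏ t' ∈ Finset.univ.erase ⟨t, ht⟩, N t') * g ⟨t, ht⟩, ?_⟩
  have h2 := hg ⟨t, ht⟩
  rw [← Finset.mul_prod_erase Finset.univ N (Finset.mem_univ ⟨t, ht⟩), map_mul, ← h2, aeval_C]
  simp only [eq_intCast]
  push_cast
  ring

/-- The orders of the elements of a finitely generated ring of algebraic numbers. -/
theorem order_large (T : Finset QA) : ∃ D : ℕ, ∀ (p : ℕ) [Fact p.Prime], D < p → ∀ (C : Type)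
    [NormedField C] [IsUltrametricDist C] [IsAlgClosed C] (φ : QA →+* C), 0 < ‖(p : C)‖ →
    ‖(p : C)‖ < 1 → ∀ x ∈ Subring.closure (T : Set QA), x ≠ 0 → ∃ (v : ℕ) (m : C),
      m ∈ Nr C p ∧ ‖m‖ = 1 ∧ φ x = (p : C) ^ v * m := by
  classical
  obtain ⟨θ, N, hN, hT⟩ := exists_gen T
  obtain ⟨D₁, hD₁⟩ := frob_large θ
  obtain ⟨D₂, hD₂⟩ := nr_large θ
  refine ⟨D₁ + D₂ + N.natAbs, fun p _ hpD C _ _ _ φ hp0 hp1 x hx hx0 => ?_⟩
  obtain ⟨f, hf, r, hr⟩ := hD₁ p (by omega)
  have hθ := hD₂ p (by omega) C φ hp1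
  have hcomp : ∀ g : ℤ[X], φ (aeval θ g) = aeval (φ θ) g := by
    intro g
    rw [aeval_def, aeval_def, hom_eval₂]
    congr 1
    exact RingHom.ext_int _ _
  have hr' : φ θ ^ (p ^ f) - φ θ = (p : C) * aeval (φ θ) r := by
    have h1 := congrArg φ hr
    rwa [map_sub, map_pow, map_mul, map_natCast, hcomp] at h1
  have hN1 : ‖(N : C)‖ = 1 := norm_int_one hp1 (by
    intro hd
    have h1 := Nat.le_of_dvd (Int.natAbs_pos.2 hN) (Int.natCast_dvd.1 hd)
    omega)
  -- multiples of `x`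
  have hmem : ∃ (k : ℕ) (g : ℤ[X]), (N : QA) ^ k * x = aeval θ g := by
    induction hx using Subring.closure_induction with
    | mem x hx =>
      obtain ⟨g, hg⟩ := hT x hx
      exact ⟨1, g, by rw [pow_one]; exact hg⟩
    | zero => exact ⟨0, 0, by simp⟩
    | one => exact ⟨0, 1, by simp⟩
    | add x y _ _ ihx ihy =>
      by_cases hx0' : x = 0
      · by_cases hy0' : y = 0
        · exact ⟨0, 0, by simp [hx0', hy0']⟩
        · obtain ⟨k, g, h1⟩ := ihy hy0'
          exact ⟨k, g, by rw [hx0', zero_add, h1]⟩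
      · obtain ⟨k, g, h1⟩ := ihx hx0'
        by_cases hy0' : y = 0
        · exact ⟨k, g, by rw [hy0', add_zero, h1]⟩
        · obtain ⟨k', g', h2⟩ := ihy hy0'
          refine ⟨k + k', Polynomial.C (N ^ k') * g + Polynomial.C (N ^ k) * g', ?_⟩
          rw [map_add, map_mul, map_mul, aeval_C, aeval_C, ← h1, ← h2]
          simp only [eq_intCast]
          push_cast
          ring
    | neg x _ ihx =>
      obtain ⟨k, g, h1⟩ := ihx (fun h0 => hx0 (by rw [h0, neg_zero]))
      exact ⟨k, -g, by rw [map_neg, ← h1, mul_neg]⟩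
    | mul x y _ _ ihx ihy =>
      obtain ⟨k, g, h1⟩ := ihx (left_ne_zero_of_mul hx0)
      obtain ⟨k', g', h2⟩ := ihy (right_ne_zero_of_mul hx0)
      refine ⟨k + k', g * g', ?_⟩
      rw [map_mul, ← h1, ← h2]
      ring
  obtain ⟨k, g, hg⟩ := hmem
  have hNC : (N : C) ≠ 0 := norm_pos_iff.1 (by rw [hN1]; exact one_pos)
  have h1 : (N : C) ^ k * φ x = aeval (φ θ) g := by
    have h2 := congrArg φ hg
    rwa [map_mul, map_pow, map_intCast, hcomp] at h2
  obtain ⟨v, m, hm, hm1, h2⟩ := order_adjoin hp0 hp1 (φ θ) (Nr_le hθ) hf r hr' g (by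
    rw [← h1]
    exact mul_ne_zero (pow_ne_zero _ hNC) ((map_ne_zero φ).2 hx0))
  refine ⟨v, ((N : C) ^ k)⁻¹ * m, mul_mem (Nr_inv (pow_mem (intCast_mem _ _) _)
    (by rw [norm_pow, hN1, one_pow])) hm, ?_, ?_⟩
  · rw [norm_mul, norm_inv, norm_pow, hN1, one_pow, inv_one, one_mul, hm1]
  · have h3 : φ x = ((N : C) ^ k)⁻¹ * aeval (φ θ) g := by
      rw [← h1, inv_mul_cancel_left₀ (pow_ne_zero _ hNC)]
    rw [h3, h2]
    ring

end Pool.Agent.X295
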