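import Pool.Agent.X295.GenLoc
import Pool.Agent.X295.GenOm
import Pool.Agent.X295.Ord
import Pool.Agent.X295.NearK

/-!
Families of curves whose generic member over a hypersurface of the space of parameters, defined over
the algebraic numbers, is a curve in general position: the local data (helper file).
-/

set_option autoImplicit false
set_option linter.unusedSectionVars false

open UpperHalfPlane H294ZP Polynomial

namespace Pool.Agent.X295

open Pool.Agent.Y226 Pool.Agent.Y226.ZG Pool.Agent.Y226.ZM Pool.Agent.Y226.ZU Pool.Agent.Y92.ZX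
open Pool.Agent.Y108.ZX (lift1 lift2 lift3 sub_inj map_inj map2_inj map_bh bezout noCommon)

/-- The lemma of Gauss at a place. -/
theorem gaussK {K C k σ : Type} [Field K] [NormedField C] [IsUltrametricDist C] [Field k]
    (φ : K →+* C) (red : OO C →+* k)
    (hker : ∀ x : OO C, red x = 0 ↔ ‖(x : C)‖ < 1) (h : MvPolynomial σ K)
    (hi : ∀ m, ‖φ (MvPolynomial.coeff m h)‖ ≤ 1) (hm : ∃ m, ‖φ (MvPolynomial.coeff m h)‖ = 1)
    (P Q : MvPolynomial σ K)
    (hP : P = h * Q) (hPi : ∀ m, ‖φ (MvPolynomial.coeff m P)‖ ≤ 1) :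
    ∀ m, ‖φ (MvPolynomial.coeff m Q)‖ ≤ 1 := by
  classical
  by_contra hcon
  push Not at hcon
  obtain ⟨m₁, hm₁⟩ := hcon
  have hsup : m₁ ∈ Q.support := by
    rw [MvPolynomial.mem_support_iff]
    intro h0
    rw [h0, map_zero, norm_zero] at hm₁
    exact absurd hm₁ (not_lt.2 zero_le_one)
  obtain ⟨m₀, hm₀, hmax⟩ := Q.support.exists_max_image (fun m => ‖φ (MvPolynomial.coeff m Q)‖)
    ⟨m₁, hsup⟩
  set a := φ (MvPolynomial.coeff m₀ Q) with ha
  have ha1 : 1 < ‖a‖ := hm₁.trans_le (hmax m₁ hsup)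
  have ha0 : a ≠ 0 := norm_pos_iff.1 (zero_lt_one.trans ha1)
  obtain ⟨Qo, hQo⟩ := lift_OO (MvPolynomial.C a⁻¹ * MvPolynomial.map φ Q) (by
    intro m
    rw [MvPolynomial.coeff_C_mul, MvPolynomial.coeff_map, norm_mul, norm_inv]
    by_cases hms : m ∈ Q.support
    · have h1 := hmax m hms
      rw [inv_mul_le_iff₀ (zero_lt_one.trans ha1), mul_one]
      exact h1
    · rw [MvPolynomial.notMem_support_iff.1 hms, map_zero, norm_zero, mul_zero]
      exact zero_le_one)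
  obtain ⟨ho, hho⟩ := lift_OO (MvPolynomial.map φ h) (by
    intro m
    rw [MvPolynomial.coeff_map]
    exact hi m)
  have hPo1 : ∀ m, ‖MvPolynomial.coeff m (MvPolynomial.C a⁻¹ * MvPolynomial.map φ P)‖ < 1 := by
    intro m
    rw [MvPolynomial.coeff_C_mul, MvPolynomial.coeff_map, norm_mul, norm_inv]
    calc ‖a‖⁻¹ * ‖φ (MvPolynomial.coeff m P)‖ ≤ ‖a‖⁻¹ * 1 := by gcongr; exact hPi m
      _ < 1 := by rw [mul_one]; exact inv_lt_one_of_one_lt₀ ha1
  obtain ⟨Po, hPo⟩ := lift_OO (MvPolynomial.C a⁻¹ * MvPolynomial.map φ P) fun m => (hPo1 m).le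
  have hinj : Function.Injective (MvPolynomial.map (σ := σ) (OO C).subtype) :=
    MvPolynomial.map_injective _ Subtype.val_injective
  have hmul : ho * Qo = Po := by
    apply hinj
    rw [map_mul, hQo, hPo, hho, hP, map_mul]
    ring
  have h1 := congrArg (MvPolynomial.map red) hmul
  rw [map_mul] at h1
  have h2 : MvPolynomial.map red Po = 0 := by
    ext m
    rw [MvPolynomial.coeff_map, MvPolynomial.coeff_zero, hker]
    have h3 : ((MvPolynomial.coeff m Po : OO C) : C) =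
        MvPolynomial.coeff m (MvPolynomial.map (OO C).subtype Po) := by
      rw [MvPolynomial.coeff_map]
      rfl
    rw [h3, hPo]
    exact hPo1 m
  have h3 : MvPolynomial.map red Qo ≠ 0 := by
    intro h0
    have h4 := congrArg (MvPolynomial.coeff m₀) h0
    rw [MvPolynomial.coeff_map, MvPolynomial.coeff_zero, hker] at h4
    have h5 : ((MvPolynomial.coeff m₀ Qo : OO C) : C) =
        MvPolynomial.coeff m₀ (MvPolynomial.map (OO C).subtype Qo) := by
      rw [MvPolynomial.coeff_map]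
      rfl
    rw [h5, hQo, MvPolynomial.coeff_C_mul, MvPolynomial.coeff_map, ← ha, inv_mul_cancel₀ ha0,
      norm_one] at h4
    exact lt_irrefl _ h4
  have h4 : MvPolynomial.map red ho ≠ 0 := by
    intro h0
    obtain ⟨m, hm⟩ := hm
    have h5 := congrArg (MvPolynomial.coeff m) h0
    rw [MvPolynomial.coeff_map, MvPolynomial.coeff_zero, hker] at h5
    have h6 : ((MvPolynomial.coeff m ho : OO C) : C) =
        MvPolynomial.coeff m (MvPolynomial.map (OO C).subtype ho) := by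
      rw [MvPolynomial.coeff_map]
      rfl
    rw [h6, hho, MvPolynomial.coeff_map, hm] at h5
    exact lt_irrefl _ h5
  rw [h2] at h1
  exact (mul_ne_zero h4 h3) h1

/-- The local data of the members with a good prime divisor of `h (u)`. -/
theorem gen_LBK (n q W : ℕ) (κ : Type) [Finite κ] (d₀ : ℕ)
    (F : κ → MvPolynomial (Fin n × Bool) (MvPolynomial (Fin q) QA))
    (h : MvPolynomial (Fin q) QA) (hh0 : h ≠ 0)
    (Ω : Type) [Field Ω] [IsAlgClosed Ω] [CharZero Ω] (e : MvPolynomial (Fin q) QA →+* Ω)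
    (he : ∀ P, e P = 0 → h ∣ P)
    (halg : ∀ s : Ω, ∃ P : Polynomial (MvPolynomial (Fin q) QA), (P.map e).eval s = 0 ∧
      e P.leadingCoeff ≠ 0)
    (hF : GM d₀ e F) :
    ∃ (N M d D B : ℕ) (Δ : MvPolynomial (Fin q) QA) (D₀ : ℕ), e Δ ≠ 0 ∧ W * N + W ≤ M ∧
    ∀ (p : ℕ) [hpf : Fact p.Prime], D₀ < p → ∀ (C : Type) [NormedField C]
    [IsUltrametricDist C] [CompleteSpace C] [CharZero C] [IsAlgClosed C] (k : Type) [Field k]
    [CharP k p] [IsAlgClosed k] (red : OO C →+* k) (𝕜 : Type) [Field 𝕜] [IsAlgClosed 𝕜]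
    (ρ : Nr C p →+* 𝕜)
    (ι : 𝕜 →+* k) (φ : QA →+* C), 0 < ‖(p : C)‖ → ‖(p : C)‖ < 1 →
    (∀ x : OO C, red x = 0 ↔ ‖(x : C)‖ < 1) → Function.Surjective ρ →
    (∀ r : Nr C p, ι (ρ r) = red ⟨r, Nr_le r.2⟩) →
    ∀ u : Fin q → ℤ, ‖φ (MvPolynomial.eval (fun l => ((u l : ℤ) : QA)) h)‖ < 1 →
    ‖φ (MvPolynomial.eval (fun l => ((u l : ℤ) : QA)) Δ)‖ = 1 →
    ∀ (lam : Fin n → QA) (f : ℕ) (w : Fin n → ℕ), 0 < f →
    (∀ i, 0 < w i ∧ w i ≤ W ∧ ‖φ (lam i)‖ = ‖(p : C)‖ ^ (-((w i * f : ℕ) : ℤ)) ∧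
      φ (lam i) * (p : C) ^ (w i * f) ∈ Nr C p) →
    (∀ i j : Fin n, i ≠ j → ∃ (a b : ℕ) (g : ℕ → ℕ → QA), g 0 0 ≠ 0 ∧ g a 0 ≠ 0 ∧
      g 0 b ≠ 0 ∧ g a b ≠ 0 ∧ (∀ c : QA, ∃ v ≤ b, ∑ u ∈ Finset.range (a + 1), g u v * c ^ u ≠ 0) ∧
      bh i j a b g ∈ Ideal.span (Set.range (mem' F fun l => ((u l : ℤ) : QA)))) ∧
    ∃ 𝓛 : LB C p k 𝕜 n N W M d D B, 𝓛.φ = φ ∧ (∀ i, (𝓛.Λ i : C) = φ (lam i)) ∧
      ∀ s : Fin n → QA, (∀ t, MvPolynomial.eval (chv none s)
        (mem' F (fun l => ((u l : ℤ) : QA)) t) = 0) → 𝓛.Pt fun i => φ (s i) := by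
  classical
  obtain ⟨N, M, d, D, B₀, S₀, T₀, hN, hM, hdata⟩ := famg n q W κ d₀ F Ω e hF
  choose Ps hPs1 hPs2 using halg
  obtain ⟨T₁, hT₁⟩ := Lrg.all (ι := S₀) fun s => lift4 (Ps s)
  obtain ⟨m₀, hm₀⟩ := MvPolynomial.ne_zero_iff.1 hh0
  choose Dn hDn using nr_large
  choose Di hDi using integral_large
  set B := B₀ + N + M + d + D + 1 with hBdef
  let Δ : MvPolynomial (Fin q) QA := ∏ s : S₀, (Ps s).leadingCoeff
  obtain ⟨T₂, hT₂⟩ := Lrg.all (ι := S₀) fun s => lift1 (Ps s).leadingCoeff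
  refine ⟨N, M, d, D, B, Δ, 16 * B ^ 2 * B ^ 2 + (16 * B ^ 2 + 2) + (B + 2) + W + 2 * B ^ 2 +
    (B * (B + 1) + 1) + (B ^ 2 + 1) + (T₀ ∪ (T₁ ∪ T₂)).sup Dn + (h.coeffs.sup Di + Di (h.coeff m₀)⁻¹),
    ?_, hM, ?_⟩
  · rw [map_prod]
    exact Finset.prod_ne_zero_iff.2 fun s _ => hPs2 s
  intro p hpf hDp C _ _ _ _ _ k _ _ _ red 𝕜 _ _ ρ ι φ hp0 hp1 hker hρs hι u hu1 hu2 lam f w hf hw
  have hρ0 : ∀ r : Nr C p, ρ r = 0 ↔ ‖(r : C)‖ < 1 := by
    intro r
    rw [← map_eq_zero ι, hι, hker]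
  -- the ring of coefficients
  let A : Subring QA := (Nr C p).comap φ
  have hAmem : ∀ x ∈ T₀ ∪ (T₁ ∪ T₂), x ∈ A := by
    intro x hx
    have h1 : Dn x ≤ (T₀ ∪ (T₁ ∪ T₂)).sup Dn := Finset.le_sup hx
    exact hDn x p (by omega) C φ hp1
  obtain ⟨FR, hFR, hHom, hdat⟩ := hdata A fun s hs => hAmem s (Finset.mem_union_left _ hs)
  let uQ : Fin q → QA := fun l => ((u l : ℤ) : QA)
  let φA : A →+* Nr C p := (φ.comp A.subtype).codRestrict (Nr C p) fun x => x.2
  let θ : MvPolynomial (Fin q) A →+* Nr C p := MvPolynomial.eval₂Hom φA fun l => ((u l : ℤ) : Nr C p)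
  let θQ : MvPolynomial (Fin q) A →+* QA := MvPolynomial.eval₂Hom A.subtype uQ
  have hθQ : ∀ x, θQ x = MvPolynomial.eval uQ (MvPolynomial.map A.subtype x) := by
    intro x
    show MvPolynomial.eval₂ A.subtype uQ x = _
    rw [MvPolynomial.eval_map]
  have hθφ : (Nr C p).subtype.comp θ = φ.comp θQ := by
    refine MvPolynomial.ringHom_ext ?_ ?_
    · intro r
      simp only [θ, θQ, RingHom.comp_apply, MvPolynomial.eval₂Hom_C]
      rfl
    · intro l
      simp only [θ, θQ, RingHom.comp_apply, MvPolynomial.eval₂Hom_X', uQ, map_intCast]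
  have hθφ' : ∀ x, ((θ x : Nr C p) : C) = φ (θQ x) := fun x => congrArg (fun f => f x) hθφ
  let eA : MvPolynomial (Fin q) A →+* Ω := e.comp (MvPolynomial.map A.subtype)
  let χ₁ : MvPolynomial (Fin q) A →+* 𝕜 := ρ.comp θ
  have hintu : ∀ z : ℤ, ‖(z : C)‖ ≤ 1 := fun z => by
    have := Nr_le (p := p) (((z : ℤ) : Nr C p)).2
    push_cast at this
    exact this
  -- the kernel
  have hkerle : RingHom.ker eA ≤ RingHom.ker χ₁ := by
    intro P hP
    rw [RingHom.mem_ker] at hP ⊢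
    obtain ⟨Q, hQ⟩ := he _ hP
    have hhi : ∀ m, ‖φ (MvPolynomial.coeff m h)‖ ≤ 1 := by
      intro m
      by_cases hm : m ∈ h.support
      · have h1 : Di (h.coeff m) ≤ h.coeffs.sup Di :=
          Finset.le_sup (MvPolynomial.coeff_mem_coeffs m (MvPolynomial.mem_support_iff.1 hm))
        exact hDi (h.coeff m) p (by omega) C φ hp1
      · rw [MvPolynomial.notMem_support_iff.1 hm, map_zero, norm_zero]
        exact zero_le_one
    have hh1 : ‖φ (MvPolynomial.coeff m₀ h)‖ = 1 := by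
      refine le_antisymm (hhi m₀) ?_
      have h1 := hDi (h.coeff m₀)⁻¹ p (by omega) C φ hp1
      rw [map_inv₀, norm_inv] at h1
      exact (inv_le_one₀ (norm_pos_iff.2 ((map_ne_zero φ).2 hm₀))).1 h1
    have hQi := gaussK (k := k) φ red hker h hhi ⟨m₀, hh1⟩ _ Q hQ (fun m => by
        rw [MvPolynomial.coeff_map]
        exact Nr_le (P.coeff m).2)
    show ρ (θ P) = 0
    rw [hρ0, hθφ', hθQ, hQ, map_mul, map_mul, norm_mul]
    have h3 : ‖φ (MvPolynomial.eval uQ Q)‖ ≤ 1 := by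
      rw [MvPolynomial.eval_eq', map_sum]
      refine IsUltrametricDist.norm_sum_le_of_forall_le_of_nonneg zero_le_one fun m _ => ?_
      rw [map_mul, map_prod, norm_mul, norm_prod]
      refine mul_le_one₀ (hQi m) (by positivity) (Finset.prod_le_one (fun _ _ => norm_nonneg _)
        fun i _ => ?_)
      rw [map_pow, norm_pow]
      refine pow_le_one₀ (norm_nonneg _) ?_
      show ‖φ ((u i : ℤ) : QA)‖ ≤ 1
      rw [map_intCast]
      exact hintu _
    calc _ ≤ ‖φ (MvPolynomial.eval uQ h)‖ * 1 := by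
          gcongr
      _ < 1 := by rw [mul_one]; exact hu1
  -- the non-vanishing of the leading coefficients
  have hint : ∀ (P : MvPolynomial (Fin q) QA), (∃ PR : MvPolynomial (Fin q) A,
      MvPolynomial.map A.subtype PR = P) → ‖φ (MvPolynomial.eval uQ P)‖ ≤ 1 := by
    rintro P ⟨PR, rfl⟩
    rw [← hθQ, ← hθφ']
    exact Nr_le (θ PR).2
  have hlcl := hT₂ A fun s hs => hAmem s (Finset.mem_union_right _ (Finset.mem_union_right _ hs))
  have hlc1 : ∀ s : S₀, ‖φ (MvPolynomial.eval uQ (Ps s).leadingCoeff)‖ = 1 := by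
    intro s
    have h1 : ‖φ (MvPolynomial.eval uQ Δ)‖ = 1 := hu2
    have h2 : Δ = (Ps s).leadingCoeff * ∏ s' ∈ Finset.univ.erase s, (Ps s').leadingCoeff :=
      (Finset.mul_prod_erase Finset.univ (fun s : S₀ => (Ps s).leadingCoeff)
        (Finset.mem_univ s)).symm
    rw [h2, map_mul, map_mul, norm_mul, map_prod, map_prod, norm_prod] at h1
    have h3 : ‖φ (MvPolynomial.eval uQ (Ps s).leadingCoeff)‖ ≤ 1 := hint _ (hlcl s)
    have h4 : ∏ s' ∈ Finset.univ.erase s, ‖φ (MvPolynomial.eval uQ (Ps s').leadingCoeff)‖ ≤ 1 :=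
      Finset.prod_le_one (fun _ _ => norm_nonneg _) fun s' _ => hint _ (hlcl s')
    refine le_antisymm h3 ?_
    rw [← h1]
    exact mul_le_of_le_one_right (norm_nonneg _) h4
  have hPl := hT₁ A fun s hs => hAmem s (Finset.mem_union_right _ (Finset.mem_union_left _ hs))
  obtain ⟨R, eR, χ', heR, hSR, hχ'⟩ := ext_hom eA χ₁ hkerle (S₀ : Set Ω) (by
    intro s hs
    obtain ⟨PR, hPR⟩ := hPl ⟨s, hs⟩
    refine ⟨PR, ?_, ?_⟩
    · show (PR.map (e.comp (MvPolynomial.map A.subtype))).eval s = 0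
      rw [← Polynomial.map_map, hPR]
      exact hPs1 s
    · have hinj : Function.Injective (MvPolynomial.map (σ := Fin q) A.subtype) := map_inj A
      have h1 : MvPolynomial.map A.subtype PR.leadingCoeff = (Ps s).leadingCoeff := by
        have h2 := Polynomial.leadingCoeff_map_of_injective hinj PR
        rw [hPR] at h2
        exact h2.symm
      show ρ (θ PR.leadingCoeff) ≠ 0
      rw [Ne, hρ0, hθφ', hθQ, h1, hlc1 ⟨s, hs⟩]
      exact lt_irrefl _)
  obtain ⟨⟨𝓡R, hRB, hMemI⟩, hCor⟩ := hdat R eR heR fun s hs => hSR s hs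
  have hχθ : ρ.comp θ = χ'.comp eR := RingHom.ext fun x => (hχ' x).symm
  have hχθ' : ∀ x, ρ (θ x) = χ' (eR x) := fun x => (hχ' x).symm
  have hne1 : ∀ r : Nr C p, ρ r ≠ 0 → ‖(r : C)‖ = 1 := fun r hr =>
    le_antisymm (Nr_le r.2) (not_lt.1 fun h => hr ((hρ0 r).2 h))
  have hsp : ∀ c : Option (Fin n), ∀ g ∈ Ideal.span (Set.range fun t =>
      MvPolynomial.eval₂ (MvPolynomial.C.comp eR) (chv c MvPolynomial.X) (FR t)),
        MvPolynomial.map χ' g ∈ chI (χ'.comp eR) FR c := by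
    intro c g hg
    have h3 := Ideal.mem_map_of_mem (MvPolynomial.map χ') hg
    rw [Ideal.map_span, ← Set.range_comp] at h3
    unfold chI
    convert h3 using 4 with t
    simp only [Function.comp_apply]
    rw [chart_map eR (χ'.comp eR) (RingHom.id _) χ' (RingHom.comp_id _), MvPolynomial.map_id]
  let 𝓡 : RD 𝕜 n N W M d D := Y448.ZX.mapRD χ' 𝓡R
  have hMem' : Mem ρ (fun t => MvPolynomial.map θ (FR t)) 𝓡 := by
    constructor
    · intro c i s' j hij h1 h2
      rw [chI_map, hχθ]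
      have h5 := hsp c _ (hMemI.m1 c i s' j hij h1 h2)
      rw [Y948.ZX.E2X_map] at h5
      exact h5
    · intro c v' w' h1 h2 h3 h4
      rw [chI_map, hχθ]
      have h5 := hsp c _ (hMemI.m2 c v' w' h1 h2 h3 h4)
      rw [Y948.ZX.hpol_map] at h5
      exact h5
  have hCor' : Cor ρ (fun t => MvPolynomial.map θ (FR t)) := by
    intro i j hij
    obtain ⟨a, b, g, hg⟩ := hCor i j hij
    obtain ⟨h3, h4, h5, h6, -, h8⟩ := hg 𝕜 χ'
    exact ⟨a, b, fun u v => θ (g u v), by rw [hχθ']; exact h3, by rw [hχθ']; exact h4,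
      by rw [hχθ']; exact h5, by rw [hχθ']; exact h6, bh_span_map θ h8⟩
  obtain ⟨ht, rho, hht, hpt⟩ := (Y427.ZX.pt2 Y151.ZX.eva) C p 𝕜 ρ hρs hp0 hp1 hρ0 n κ _
    (fun t => (hHom t).map θ) hCor' N W M d D 𝓡 hMem'
  set pu : Cˣ := Units.mk0 (p : C) (norm_pos_iff.1 hp0) with hpu
  have hΛex : ∀ i, ∃ Λ : Cˣ, (Λ : C) = φ (lam i) ∧
      Λ * pu ^ (w i * f) ∈ GG C p 0 le_rfl one_pos := by
    intro i
    exact Lam_unit2 hp0 (hw i).2.2.1 (hw i).2.2.2 rfl
  choose Λ hΛ1 hΛ2 using hΛex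
  have q1 : N ≤ B := by omega
  have q2 : M ≤ B := by omega
  have q3 : d ≤ B := by omega
  have q4 : D ≤ B := by omega
  have e1 : 16 * D ^ 2 * d ^ 2 ≤ 16 * B ^ 2 * B ^ 2 := by gcongr
  have e2 : 16 * d ^ 2 + 2 ≤ 16 * B ^ 2 + 2 := by gcongr
  have e3 : 2 * M ^ 2 ≤ 2 * B ^ 2 := by gcongr
  have e4 : B * (D + 1) + 1 ≤ B * (B + 1) + 1 := by gcongr
  let 𝓛 : LB C p k 𝕜 n N W M d D B :=
    { φ := φ, red := red, hker := hker, hp0 := hp0, hp1 := hp1, ρ := ρ, hρs := hρs, ι := ι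
      hι := hι, 𝓡 := 𝓡, h𝓡 := (Y448.ZX.mapRD_RDB χ' hRB).mono (by omega), ht := ht, hht := hht
      rho := rho
      Λ := Λ, w := w, hw := fun i => ⟨(hw i).1, (hw i).2.1⟩, e := f, he := hf, pu := pu
      hpu := rfl, hΛ := hΛ2
      b1 := by omega
      b2 := by omega
      b3 := by omega
      b4 := by omega
      b5 := by omega
      b6 := by omega
      b7 := by omega
      b8 := by omega
      hB := by omega
      hN := hN
      hM := hM }
  -- the model over `QA`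
  have hF'R : ∀ t, mem' F uQ t = MvPolynomial.map θQ (FR t) := by
    intro t
    show MvPolynomial.map (MvPolynomial.eval uQ) (F t) = _
    rw [← hFR t, MvPolynomial.map_map]
    congr 1
    refine MvPolynomial.ringHom_ext ?_ ?_
    · intro r
      simp [θQ]
    · intro l
      simp [θQ]
  refine ⟨?_, 𝓛, rfl, hΛ1, ?_⟩
  · intro i j hij
    obtain ⟨a, b, g, hg⟩ := hCor i j hij
    obtain ⟨h3, h4, h5, h6, h7, h8⟩ := hg k (ι.comp χ')
    have hn1 : ∀ x : MvPolynomial (Fin q) A, (ι.comp χ') (eR x) ≠ 0 → ‖φ (θQ x)‖ = 1 := by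
      intro x hx
      rw [← hθφ']
      apply hne1
      rw [hχθ']
      intro h0
      apply hx
      rw [RingHom.comp_apply, h0, map_zero]
    have hn0 : ∀ x : MvPolynomial (Fin q) A, (ι.comp χ') (eR x) ≠ 0 → θQ x ≠ 0 :=
      fun x hx h0 => by
        have := hn1 x hx
        rw [h0, map_zero, norm_zero] at this
        exact zero_ne_one this
    refine ⟨a, b, fun u v => θQ (g u v), hn0 _ h3, hn0 _ h4, hn0 _ h5, hn0 _ h6, ?_, ?_⟩
    · refine nonvert φ red hker (fun u v => by rw [← hθφ']; exact Nr_le (θ (g u v)).2)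
        (hn1 _ h6) ?_
      intro c
      obtain ⟨v', hv', hne⟩ := h7 c
      refine ⟨v', hv', ?_⟩
      convert hne using 3 with u' hu'
      have h9 : (⟨φ (θQ (g u' v')), by rw [← hθφ']; exact Nr_le (θ (g u' v')).2⟩ : OO C) =
          ⟨((θ (g u' v') : Nr C p) : C), Nr_le (θ (g u' v')).2⟩ := Subtype.ext (hθφ' _).symm
      rw [h9, ← hι, hχθ']
      rfl
    · have h9 : mem' F uQ = fun t => MvPolynomial.map θQ (FR t) := funext hF'R
      show _ ∈ Ideal.span (Set.range (mem' F uQ))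
      rw [h9]
      exact bh_span_map θQ h8
  · intro s' hs'
    refine hpt _ fun t => ?_
    have h1 := congrArg φ (hs' t)
    have h0 : mem' F (fun l => ((u l : ℤ) : QA)) t = MvPolynomial.map θQ (FR t) := hF'R t
    rw [map_zero, h0, MvPolynomial.eval_map] at h1
    rw [MvPolynomial.eval₂_map, chv_map φ none s', ← h1, hθφ]
    exact (MvPolynomial.eval₂_comp_left φ θQ (chv none s') (FR t)).symm

end Pool.Agent.X295
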