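import Pool.Agent.X295.NearG
import Pool.Agent.X295.Fam
import Pool.Agent.Y199.ZF.Fam

/-!
Families of systems of Laurent polynomials with several parameters (helper file).
-/

set_option autoImplicit false

open MvPolynomial

namespace Pool.Agent.X295

/-- an irreducible polynomial contains one of the variables -/
theorem exists_varK {k : Type} [Field k] {q : ℕ} {h : MvPolynomial (Fin q) ℤ}
    (hirr : Irreducible (MvPolynomial.map (Int.castRingHom k) h)) :
    ∃ j0 : Fin q, 0 < (asPoly j0 h).natDegree := by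
  by_contra hcon
  push Not at hcon
  have h1 : h.vars = ∅ := by
    rw [Finset.eq_empty_iff_forall_notMem]
    intro j hj
    rw [mem_vars_iff_degreeOf_ne_zero] at hj
    apply hj
    have h2 := hcon j
    rw [asPoly, natDegree_optionEquivLeft] at h2
    have h3 : (rename (Equiv.optionSubtypeNe j).symm h).degreeOf
        ((Equiv.optionSubtypeNe j).symm j) = h.degreeOf j :=
      degreeOf_rename_of_injective (Equiv.injective _) j
    rw [Equiv.optionSubtypeNe_symm_self] at h3
    omega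
  rw [vars_eq_empty_iff_eq_C] at h1
  rw [h1, MvPolynomial.map_C] at hirr
  by_cases h0 : (Int.castRingHom k) (coeff 0 h) = 0
  · rw [h0, map_zero] at hirr
    exact hirr.ne_zero rfl
  · exact hirr.not_isUnit ((isUnit_iff_ne_zero.2 h0).map _)

theorem eval_evalAt (K : Subfield ℂ) {q : ℕ} (u : Fin q → ℤ) (P : MvPolynomial (Fin q) K) :
    algebraMap K ℂ (eval (fun j => ((u j : ℤ) : K)) P) = evalAt K (fun j => (u j : ℂ)) P := by
  have h : (algebraMap K ℂ).comp (MvPolynomial.eval (fun j => ((u j : ℤ) : K))) =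
      evalAt K (fun j => (u j : ℂ)) := by
    refine MvPolynomial.ringHom_ext (fun a => ?_) (fun j => ?_)
    · simp only [evalAt, RingHom.comp_apply, MvPolynomial.eval_C,
        AlgHom.toRingHom_eq_coe, RingHom.coe_coe, MvPolynomial.aeval_C]
    · simp only [evalAt, RingHom.comp_apply, MvPolynomial.eval_X,
        AlgHom.toRingHom_eq_coe, RingHom.coe_coe, MvPolynomial.aeval_X, map_intCast]
  exact congrArg (fun f : MvPolynomial (Fin q) K →+* ℂ => f P) h

/-- The values of finitely many polynomials at the places near to several hypersurfaces. -/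
theorem values (K : Subfield ℂ) (hK : ∀ z ∈ K, IsAlgebraic ℚ z) {q M : ℕ} {ι : Type} [Finite ι]
    (h : Fin M → MvPolynomial (Fin q) ℤ)
    (hh : ∀ l, Irreducible (MvPolynomial.map (Int.castRingHom K) (h l)))
    (c : ι → MvPolynomial (Fin q) K) (e : Fin M → ι → ℕ)
    (hc : ∀ l x, ∃ g, c x = MvPolynomial.map (Int.castRingHom K) (h l) ^ e l x * g ∧
      ¬ MvPolynomial.map (Int.castRingHom K) (h l) ∣ g)
    (Γ : Set ℂ) (hΓ : Γ.Finite) (hΓK : Γ ⊆ K) {ε : ℝ} (hε : 0 < ε) (S : Set (Fin q → ℤ))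
    (hS : ∀ u : Fin q → ℤ, (∀ l, eval u (h l) ≠ 0) → ∀ V : Fin M → ValuationSubring ℂ,
      (∀ l, (V l).valuation ((eval u (h l) : ℤ) : ℂ) < 1) → (∀ l, ∀ γ ∈ Γ, γ ∈ V l) →
      (∀ l x, (V l).valuation (evalAt K (fun j => (u j : ℂ)) (c x)) =
        (V l).valuation ((eval u (h l) : ℤ) : ℂ) ^ e l x) → u ∉ S) :
    ∃ C : ℝ, ∀ H : ℕ, 1 ≤ H → ((S ∩ {u | ∀ j, |u j| ≤ H}).ncard : ℝ) ≤
      C * (H : ℝ) ^ ((q : ℝ) - 1 + ε) := by
  classical
  have halg : Algebra.IsAlgebraic ℚ K := ⟨fun z => by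
    have h1 := hK z z.2
    exact (isAlgebraic_algebraMap_iff (algebraMap K ℂ).injective).1 h1⟩
  choose j0 hj0 using fun l => exists_varK (hh l)
  choose g hg1 hg2 using hc
  choose ρ hρ W hW hnear using fun l => nearG (k := K) (h l)
    (UniqueFactorizationMonoid.irreducible_iff_prime.1 (hh l)) (g l) (hg2 l) (j0 l)
  let Γ' : Set K := {z | (z : ℂ) ∈ Γ}
  have hΓ' : Γ'.Finite := hΓ.preimage Subtype.val_injective.injOn
  obtain ⟨D, hD⟩ := exists_placesM (k := K) (q := q) ((⋃ l, W l) ∪ Γ')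
    ((Set.finite_iUnion hW).union hΓ')
  refine count_union h j0 hj0 ρ hρ D hε S fun u hu => ?_
  by_contra hcon
  push Not at hcon
  choose V hV1 hV2 hVW _ using fun l => hD _ _ u (hcon l) Empty (Empty.elim : Empty → ℂ)
    (algebraicIndependent_empty_type_iff.2 (algebraMap K ℂ).injective)
  refine hS u (fun l => (hcon l).1) V hV1 (fun l γ hγ => ?_) (fun l x => ?_) hu
  · exact hVW l ⟨γ, hΓK hγ⟩ (Or.inr hγ)
  · have h1 := hnear l (V l) (fun z hz => hVW l z (Or.inl (Set.mem_iUnion.2 ⟨l, hz⟩))) u (hV1 l)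
      (hV2 l) x
    rw [← eval_evalAt, hg1 l x, map_mul, map_mul, map_mul, h1, mul_one, map_pow, map_pow, map_pow,
      eval_cast, map_intCast]

end Pool.Agent.X295
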