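import Pool.Agent.X295.GenLoc
import Pool.Agent.X295.Tor

/-!
Families of curves whose generic member over a hypersurface of the space of parameters is a curve in
general position: the main theorem (helper file).
-/

set_option autoImplicit false
set_option linter.unusedSectionVars false

open UpperHalfPlane H294ZP Polynomial

namespace Pool.Agent.X295

open Pool.Agent.Y226 Pool.Agent.Y226.ZG Pool.Agent.Y226.ZM Pool.Agent.Y226.ZU Pool.Agent.Y92.ZX
open Pool.Agent.Y108.ZX (lift1 lift2 lift3 sub_inj map_inj map2_inj map_bh bezout noCommon)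

/-- The local fields. -/
theorem exists_local (p : ℕ) [hpf : Fact p.Prime] :
    ∃ (C : Type) (_ : NormedField C) (_ : IsUltrametricDist C) (_ : CompleteSpace C)
    (_ : CharZero C) (_ : IsAlgClosed C) (k : Type) (_ : Field k) (_ : CharP k p)
    (_ : IsAlgClosed k) (red : OO C →+* k) (𝕜 : Type) (_ : Field 𝕜) (_ : IsAlgClosed 𝕜)
    (_ : CharP 𝕜 p) (ρ : Nr C p →+* 𝕜) (ι : 𝕜 →+* k) (_ : QA →+* C),
    0 < ‖(p : C)‖ ∧ ‖(p : C)‖ < 1 ∧
    (∀ x : OO C, red x = 0 ↔ ‖(x : C)‖ < 1) ∧ Function.Surjective ρ ∧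
    (∀ r : Nr C p, ι (ρ r) = red ⟨r, Nr_le r.2⟩) := by
  obtain ⟨C, _, _, _, _, _, φ, hpn⟩ := exists_padic p
  have hpR : (1 : ℝ) < p := by exact_mod_cast hpf.out.one_lt
  have hp0 : 0 < ‖(p : C)‖ := by rw [hpn]; exact inv_pos.2 (by linarith)
  have hp1 : ‖(p : C)‖ < 1 := by rw [hpn]; exact inv_lt_one_of_one_lt₀ hpR
  obtain ⟨k, _, _, _, red, hker, hsurj⟩ := Y61.ZX.exists_residue3 (C := C) (p := p) hp1
  obtain ⟨𝕜, _, _, _, ρ, ι, hρ, hι⟩ := Y61.ZX.exists_res_Nr (C := C) (p := p) hp1 red hker hsurj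
  exact ⟨C, inferInstance, inferInstance, inferInstance, inferInstance, inferInstance, k,
    inferInstance, inferInstance, inferInstance, red, 𝕜, inferInstance, inferInstance,
    inferInstance, ρ, ι, φ, hp0, hp1, hker, hρ, hι⟩

section norm

variable {C : Type} [NormedField C] [IsUltrametricDist C] {p : ℕ} [hpf : Fact p.Prime]

theorem norm_int_le (z : ℤ) : ‖(z : C)‖ ≤ 1 := by
  have h := Nr_le (C := C) (p := 2) (((z : ℤ) : Nr C 2)).2
  push_cast at h
  exact h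

theorem norm_int_lt (hp1 : ‖(p : C)‖ < 1) {z : ℤ} (h : (p : ℤ) ∣ z) : ‖(z : C)‖ < 1 := by
  obtain ⟨t, rfl⟩ := h
  push_cast
  rw [norm_mul]
  calc ‖(p : C)‖ * ‖(t : C)‖ ≤ ‖(p : C)‖ * 1 := by
        gcongr
        exact norm_int_le t
    _ < 1 := by rw [mul_one]; exact hp1

theorem norm_int_one (hp1 : ‖(p : C)‖ < 1) {z : ℤ} (h : ¬ (p : ℤ) ∣ z) : ‖(z : C)‖ = 1 := by
  refine le_antisymm (norm_int_le z) ?_
  by_contra hlt
  push Not at hlt
  obtain ⟨a, b, hab⟩ := ((Nat.prime_iff_prime_int.1 hpf.out).coprime_iff_not_dvd.2 h)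
  have h1 : ‖(a : C) * p + (b : C) * z‖ < 1 := by
    refine (IsUltrametricDist.norm_add_le_max _ _).trans_lt (max_lt ?_ ?_)
    · rw [norm_mul]
      calc ‖(a : C)‖ * ‖(p : C)‖ ≤ 1 * ‖(p : C)‖ := by
            gcongr
            exact norm_int_le a
        _ < 1 := by rw [one_mul]; exact hp1
    · rw [norm_mul]
      calc ‖(b : C)‖ * ‖(z : C)‖ ≤ 1 * ‖(z : C)‖ := by
            gcongr
            exact norm_int_le b
        _ < 1 := by rw [one_mul]; exact hlt
  have h2 : (a : C) * p + (b : C) * z = 1 := by exact_mod_cast congrArg (fun t : ℤ => (t : C)) hab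
  rw [h2, norm_one] at h1
  exact lt_irrefl _ h1

/-- values of polynomials with integral coefficients in the ring of almost unramified elements -/
theorem eval_Nr {q : ℕ} (φ : QA →+* C) (P : MvPolynomial (Fin q) QA)
    (hP : ∀ x ∈ P.coeffs, φ x ∈ Nr C p) (u : Fin q → ℤ) :
    φ (MvPolynomial.eval (fun l => ((u l : ℤ) : QA)) P) ∈ Nr C p := by
  rw [MvPolynomial.eval_eq', map_sum]
  refine sum_mem fun m hm => ?_
  rw [map_mul, map_prod]
  refine mul_mem (hP _ (MvPolynomial.coeff_mem_coeffs m (MvPolynomial.mem_support_iff.1 hm)))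
    (prod_mem fun i _ => ?_)
  rw [map_pow, map_intCast]
  exact pow_mem (intCast_mem _ _) _

end norm

/-- The values at the places over prime divisors of `h (u)` of polynomials which are not divisible
by `h`. -/
theorem nearC {q : ℕ} {ι' : Type} [Finite ι'] (h : MvPolynomial (Fin q) ℤ)
    (hp : Prime (MvPolynomial.map (Int.castRingHom QA) h)) (g : ι' → MvPolynomial (Fin q) QA)
    (hg : ∀ x, ¬ MvPolynomial.map (Int.castRingHom QA) h ∣ g x) (j0 : Fin q) :
    ∃ ρ : MvPolynomial {j : Fin q // j ≠ j0} ℤ, ρ ≠ 0 ∧ ∃ D : ℕ, ∀ (p : ℕ) [Fact p.Prime],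
      D < p → ∀ (C : Type) [NormedField C] [IsUltrametricDist C] [IsAlgClosed C] (φ : QA →+* C),
      ‖(p : C)‖ < 1 → ∀ u : Fin q → ℤ, (p : ℤ) ∣ MvPolynomial.eval u h →
      ¬ (p : ℤ) ∣ MvPolynomial.eval u (MvPolynomial.rename Subtype.val ρ) →
      ∀ x, φ (MvPolynomial.eval (fun l => ((u l : ℤ) : QA)) (g x)) ∈ Nr C p ∧
        ‖φ (MvPolynomial.eval (fun l => ((u l : ℤ) : QA)) (g x))‖ = 1 := by
  classical
  have := Fintype.ofFinite ι'
  have hΔ : ¬ MvPolynomial.map (Int.castRingHom QA) h ∣ ∏ x, g x := by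
    intro hdvd
    obtain ⟨x, -, hx⟩ := (hp.dvd_finsetProd_iff _).1 hdvd
    exact hg x hx
  obtain ⟨ρ, hρ, α, β, hαβ⟩ := elim h hp (∏ x, g x) hΔ j0
  choose Dn hDn using nr_large
  let T : Finset QA := α.coeffs ∪ (β.coeffs ∪ Finset.univ.biUnion fun x => (g x).coeffs)
  refine ⟨ρ, hρ, T.sup Dn, ?_⟩
  intro p _ hD C _ _ _ φ hp1 u hu1 hu2
  have hT : ∀ x ∈ T, φ x ∈ Nr C p := by
    intro x hx
    have h1 : Dn x ≤ T.sup Dn := Finset.le_sup hx
    exact hDn x p (by omega) C φ hp1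
  set uQ : Fin q → QA := fun l => ((u l : ℤ) : QA) with huQ
  have hα := eval_Nr (p := p) φ α (fun x hx => hT x (Finset.mem_union_left _ hx)) u
  have hβ := eval_Nr (p := p) φ β (fun x hx => hT x (Finset.mem_union_right _
    (Finset.mem_union_left _ hx))) u
  have hgN := fun x => eval_Nr (p := p) φ (g x) (fun y hy => hT y (Finset.mem_union_right _
    (Finset.mem_union_right _ (Finset.mem_biUnion.2 ⟨x, Finset.mem_univ x, hy⟩)))) u
  have hid := congrArg (fun P => φ (MvPolynomial.eval uQ P)) hαβ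
  simp only [map_add, map_mul, huQ, eval_cast, map_intCast] at hid
  have h1 : ‖((MvPolynomial.eval u (MvPolynomial.rename Subtype.val ρ) : ℤ) : C)‖ = 1 :=
    norm_int_one hp1 hu2
  have h2 : ‖((MvPolynomial.eval u h : ℤ) : C)‖ < 1 := norm_int_lt hp1 hu1
  have h3 : ‖φ (MvPolynomial.eval uQ (∏ x, g x))‖ = 1 := by
    have h5 : ‖φ (MvPolynomial.eval uQ (∏ x, g x))‖ ≤ 1 := by
      rw [map_prod, map_prod, norm_prod]
      exact Finset.prod_le_one (fun _ _ => norm_nonneg _) fun x _ => Nr_le (hgN x)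
    refine le_antisymm h5 ?_
    by_contra hlt
    push Not at hlt
    rw [hid] at h1
    have h6 : ‖φ (MvPolynomial.eval uQ α) * ((MvPolynomial.eval u h : ℤ) : C) +
        φ (MvPolynomial.eval uQ β) * φ (MvPolynomial.eval uQ (∏ x, g x))‖ < 1 := by
      refine (IsUltrametricDist.norm_add_le_max _ _).trans_lt (max_lt ?_ ?_)
      · rw [norm_mul]
        exact (mul_le_of_le_one_left (norm_nonneg _) (Nr_le hα)).trans_lt h2
      · rw [norm_mul]
        exact (mul_le_of_le_one_left (norm_nonneg _) (Nr_le hβ)).trans_lt hlt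
    exact h6.ne h1
  intro x
  refine ⟨hgN x, ?_⟩
  rw [map_prod, map_prod, norm_prod, ← Finset.mul_prod_erase _ _ (Finset.mem_univ x)] at h3
  refine le_antisymm (Nr_le (hgN x)) ?_
  rw [← h3]
  exact mul_le_of_le_one_right (norm_nonneg _)
    (Finset.prod_le_one (fun _ _ => norm_nonneg _) fun x' _ => Nr_le (hgN x'))

/-- The member of the family after scaling: the points with the coordinates
`a_i (u) / b_i (u) * y_i`. -/
def scaled {n q : ℕ} {κ : Type} (F : κ → MvPolynomial (Fin n × Bool) (MvPolynomial (Fin q) QA))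
    (a b : Fin n → MvPolynomial (Fin q) QA) (u : Fin q → QA) : Set (Fin n → ℂ) :=
  {x | ∃ y ∈ VF (mem' F u), ∀ i, rA (MvPolynomial.eval u (b i)) * x i =
    rA (MvPolynomial.eval u (a i)) * y i}

/-- The members at the good parameters. -/
theorem gen_fin (n q : ℕ) (κ : Type) [Finite κ] (d₀ : ℕ)
    (F : κ → MvPolynomial (Fin n × Bool) (MvPolynomial (Fin q) QA))
    (h : MvPolynomial (Fin q) ℤ) (hprime : Prime (MvPolynomial.map (Int.castRingHom QA) h))
    (Ω : Type) [Field Ω] [IsAlgClosed Ω] [CharZero Ω] (e : MvPolynomial (Fin q) QA →+* Ω)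
    (he : ∀ P, e P = 0 ↔ MvPolynomial.map (Int.castRingHom QA) h ∣ P)
    (halg : ∀ s : Ω, ∃ P : Polynomial (MvPolynomial (Fin q) QA), (P.map e).eval s = 0 ∧
      e P.leadingCoeff ≠ 0)
    (hF : GM d₀ e F) (a g : Fin n → MvPolynomial (Fin q) QA) (w : Fin n → ℕ)
    (hw : ∀ i, 0 < w i) (ha : ∀ i, ¬ MvPolynomial.map (Int.castRingHom QA) h ∣ a i)
    (hg : ∀ i, ¬ MvPolynomial.map (Int.castRingHom QA) h ∣ g i)
    (Γ : Set ℂ) (hΓ : Γ.Finite) (hΓa : ∀ γ ∈ Γ, ∃ c : QA, rA c = γ) (j0 : Fin q) :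
    ∃ ρ : MvPolynomial {j : Fin q // j ≠ j0} ℤ, ρ ≠ 0 ∧ ∃ D : ℕ, ∀ u : Fin q → ℤ,
      Good h (MvPolynomial.rename Subtype.val ρ) D u →
      {x : Fin n → ℂ | x ∈ scaled F a (fun i => MvPolynomial.map (Int.castRingHom QA) h ^ w i *
        g i) (fun l => ((u l : ℤ) : QA)) ∧ ∃ (r : ℕ) (Z : SV Γ n r), r + 2 ≤ n ∧
          x ∈ Z.locus}.Finite ∧
      ∀ (r : ℕ) (Z : SV Γ n r), r < n →
        {x : Fin n → ℂ | x ∈ scaled F a (fun i => MvPolynomial.map (Int.castRingHom QA) h ^ w i *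
          g i) (fun l => ((u l : ℤ) : QA)) ∧ x ∈ Z.locus}.Finite := by
  classical
  have hh0 : h ≠ 0 := by
    rintro rfl
    exact hprime.ne_zero (map_zero _)
  set W := ∑ i, w i with hW
  obtain ⟨N, M, d, D, B, Δ, D₀, hΔ, -, hLB⟩ := gen_LB n q W κ d₀ F h hh0 Ω e
    (fun P hP => (he P).1 hP) halg hF
  obtain ⟨ρ, hρ, D₁, hnear⟩ := nearC (ι' := Option (Fin n ⊕ Fin n)) h hprime
    (fun x => x.elim Δ (Sum.elim a g)) (by
      rintro (_ | i | i)
      · exact fun hd => hΔ ((he _).2 hd)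
      · exact ha i
      · exact hg i) j0
  choose Dn hDn using nr_large
  choose! cΓ hcΓ using hΓa
  refine ⟨ρ, hρ, D₀ + D₁ + (hΓ.toFinset.image cΓ).sup Dn, ?_⟩
  rintro u ⟨hu0, p, hp, hpD, hpu, hpρ⟩
  have : Fact p.Prime := ⟨hp⟩
  obtain ⟨C, _, _, _, _, _, k, _, _, _, red, 𝕜, _, _, _, ρ', ι, φ, hp0, hp1, hker, hρs, hι⟩ :=
    exists_local p
  set uQ : Fin q → QA := fun l => ((u l : ℤ) : QA) with huQ
  have hn := hnear p (by omega) C φ hp1 u hpu hpρ
  have hΔ1 := hn none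
  have ha1 := fun i => hn (some (Sum.inl i))
  have hg1 := fun i => hn (some (Sum.inr i))
  simp only [Option.elim, Sum.elim_inl, Sum.elim_inr] at hΔ1 ha1 hg1
  have hh1 : MvPolynomial.eval uQ (MvPolynomial.map (Int.castRingHom QA) h) =
      ((MvPolynomial.eval u h : ℤ) : QA) := eval_cast u h
  -- the order of `h (u)`
  obtain ⟨f, m, hm, hfm⟩ : ∃ (f : ℕ) (m : ℤ), ¬ (p : ℤ) ∣ m ∧
      MvPolynomial.eval u h = (p : ℤ) ^ f * m := by
    have hfin : FiniteMultiplicity (p : ℤ) (MvPolynomial.eval u h) :=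
      Int.finiteMultiplicity_iff.2 ⟨by simpa using hp.one_lt.ne', hu0⟩
    obtain ⟨m, hm1, hm2⟩ := hfin.exists_eq_pow_mul_and_not_dvd
    exact ⟨_, m, hm2, hm1⟩
  have hf : 0 < f := by
    rcases Nat.eq_zero_or_pos f with h0 | h0
    · rw [h0, pow_zero, one_mul] at hfm
      rw [hfm] at hpu
      exact absurd hpu hm
    · exact h0
  have hm1 : ‖(m : C)‖ = 1 := norm_int_one hp1 hm
  have hhC : φ (MvPolynomial.eval uQ (MvPolynomial.map (Int.castRingHom QA) h)) =
      (p : C) ^ f * (m : C) := by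
    rw [hh1, map_intCast, hfm]
    push_cast
    rfl
  have hb0 : ∀ i, MvPolynomial.eval uQ (MvPolynomial.map (Int.castRingHom QA) h ^ w i * g i) ≠
      0 := by
    intro i h0
    have h1 := congrArg φ h0
    rw [map_mul, map_mul, map_pow, map_pow, hhC, map_zero] at h1
    rcases mul_eq_zero.1 h1 with h2 | h2
    · have h3 := (pow_eq_zero_iff (hw i).ne').1 h2
      rcases mul_eq_zero.1 h3 with h4 | h4
      · exact (norm_pos_iff.1 hp0) ((pow_eq_zero_iff hf.ne').1 h4)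
      · rw [h4, norm_zero] at hm1
        exact zero_ne_one hm1
    · have h3 := (hg1 i).2
      rw [h2, norm_zero] at h3
      exact zero_ne_one h3
  let lam : Fin n → QA := fun i => MvPolynomial.eval uQ (a i) /
    MvPolynomial.eval uQ (MvPolynomial.map (Int.castRingHom QA) h ^ w i * g i)
  have hlam : ∀ i, φ (lam i) * (p : C) ^ (w i * f) =
      φ (MvPolynomial.eval uQ (a i)) * ((m : C) ^ w i *
        φ (MvPolynomial.eval uQ (g i)))⁻¹ := by
    intro i
    have hpf : (p : C) ^ (w i * f) ≠ 0 := pow_ne_zero _ (norm_pos_iff.1 hp0)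
    show φ (MvPolynomial.eval uQ (a i) / MvPolynomial.eval uQ
      (MvPolynomial.map (Int.castRingHom QA) h ^ w i * g i)) * _ = _
    rw [map_div₀, map_mul (MvPolynomial.eval uQ), map_mul φ, map_pow (MvPolynomial.eval uQ),
      map_pow φ, hhC, mul_pow, ← pow_mul, mul_comm f (w i)]
    have h1 : (m : C) ^ w i ≠ 0 := pow_ne_zero _ (norm_pos_iff.1 (by rw [hm1]; exact one_pos))
    have h2 : φ (MvPolynomial.eval uQ (g i)) ≠ 0 :=
      norm_pos_iff.1 (by rw [(hg1 i).2]; exact one_pos)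
    field_simp
  have hunit : ∀ i, ‖(m : C) ^ w i * φ (MvPolynomial.eval uQ (g i))‖ = 1 := by
    intro i
    rw [norm_mul, norm_pow, hm1, one_pow, one_mul]
    exact (hg1 i).2
  have hlamN : ∀ i, φ (lam i) * (p : C) ^ (w i * f) ∈ Nr C p := by
    intro i
    rw [hlam]
    exact mul_mem (ha1 i).1 (Nr_inv (mul_mem (pow_mem (intCast_mem _ _) _) (hg1 i).1) (hunit i))
  have hlam1 : ∀ i, ‖φ (lam i)‖ = ‖(p : C)‖ ^ (-((w i * f : ℕ) : ℤ)) := by
    intro i
    have h1 := congrArg norm (hlam i)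
    rw [norm_mul, norm_mul, norm_inv, hunit, inv_one, mul_one, (ha1 i).2, norm_pow] at h1
    rw [zpow_neg, zpow_natCast]
    exact eq_inv_of_mul_eq_one_left h1
  obtain ⟨hgen, 𝓛, h𝓛φ, h𝓛Λ, hpt⟩ := hLB p (by omega) C k red 𝕜 ρ' ι φ hp0 hp1 hker hρs hι u
    (by
      rw [hh1, map_intCast]
      exact norm_int_lt hp1 hpu)
    hΔ1.2 lam f w hf (fun i => ⟨hw i, by
      rw [hW]
      exact Finset.single_le_sum (f := w) (fun _ _ => Nat.zero_le _) (Finset.mem_univ i),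
      hlam1 i, hlamN i⟩)
  have hfin := finish core_all Y219.ZX.fin 𝓛 hgen (lam := lam) (fun i => by rw [h𝓛φ, h𝓛Λ])
    (Γ := Γ) (by
      intro γ hγ
      refine ⟨cΓ γ, hcΓ γ hγ, ?_⟩
      rw [h𝓛φ]
      have h1 : Dn (cΓ γ) ≤ (hΓ.toFinset.image cΓ).sup Dn :=
        Finset.le_sup (Finset.mem_image_of_mem _ (hΓ.mem_toFinset.2 hγ))
      exact Nr_le (hDn (cΓ γ) p (by omega) C φ hp1)) (by
      intro s hs
      have := hpt s hs
      simpa only [h𝓛φ] using this)
  have hset : ∀ x : Fin n → ℂ, x ∈ scaled F a (fun i =>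
      MvPolynomial.map (Int.castRingHom QA) h ^ w i * g i) uQ ↔
      ∃ y ∈ VF (mem' F uQ), ∀ i, x i = rA (lam i) * y i := by
    intro x
    refine exists_congr fun y => and_congr_right fun hy => forall_congr' fun i => ?_
    have hb : rA (MvPolynomial.eval uQ (MvPolynomial.map (Int.castRingHom QA) h ^ w i * g i)) ≠
        0 := fun h0 => hb0 i ((map_eq_zero rA).1 h0)
    show _ ↔ x i = rA (MvPolynomial.eval uQ (a i) / MvPolynomial.eval uQ
      (MvPolynomial.map (Int.castRingHom QA) h ^ w i * g i)) * y i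
    rw [map_div₀, div_mul_eq_mul_div, eq_div_iff hb, mul_comm (x i)]
  refine ⟨hfin.1.subset ?_, fun r Z hr => (hfin.2 r Z hr).subset ?_⟩
  · rintro x ⟨hx, h1⟩
    exact ⟨(hset x).1 hx, h1⟩
  · rintro x ⟨hx, h1⟩
    exact ⟨(hset x).1 hx, h1⟩

end Pool.Agent.X295
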