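import Pool.Agent.X295.FamMMK

/-!
The substitution `u_j = Σ_b ω_b u_{j b}` (helper file).
-/

set_option autoImplicit false

namespace Pool.Agent.X295

open MvPolynomial

section

variable {F : Type} [Field F] {q d : ℕ}

/-- A linear substitution. -/
noncomputable def theta (q : ℕ) (ω : Fin (d + 1) → F) :
    MvPolynomial (Fin q × Fin (d + 1)) F →ₐ[F] MvPolynomial (Fin q × Fin (d + 1)) F :=
  aeval fun a => if a.2 = 0 then ∑ b, C (ω b) * X (a.1, b) else X a

/-- Its inverse. -/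
noncomputable def thetaInv (q : ℕ) (ω : Fin (d + 1) → F) :
    MvPolynomial (Fin q × Fin (d + 1)) F →ₐ[F] MvPolynomial (Fin q × Fin (d + 1)) F :=
  aeval fun a => if a.2 = 0 then
    C (ω 0)⁻¹ * (X (a.1, 0) - ∑ b : Fin d, C (ω b.succ) * X (a.1, b.succ)) else X a

/-- The automorphism. -/
noncomputable def thetaEquiv (q : ℕ) (ω : Fin (d + 1) → F) (h0 : ω 0 ≠ 0) :
    MvPolynomial (Fin q × Fin (d + 1)) F ≃ₐ[F] MvPolynomial (Fin q × Fin (d + 1)) F :=
  AlgEquiv.ofAlgHom (theta q ω) (thetaInv q ω)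
    (by
      refine MvPolynomial.algHom_ext fun a => ?_
      obtain ⟨j, b⟩ := a
      rw [AlgHom.comp_apply, thetaInv, aeval_X, AlgHom.id_apply]
      by_cases hb : b = 0
      · subst hb
        rw [if_pos rfl, map_mul, map_sub, map_sum, ← MvPolynomial.algebraMap_eq, AlgHom.commutes]
        have h1 : theta q ω (X (j, 0)) = C (ω 0) * X (j, 0) +
            ∑ b : Fin d, C (ω b.succ) * X (j, b.succ) := by
          rw [theta, aeval_X, if_pos rfl, Fin.sum_univ_succ]
        have h2 : ∀ b : Fin d, theta q ω (C (ω b.succ) * X (j, b.succ)) =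
            C (ω b.succ) * X (j, b.succ) := by
          intro b
          rw [map_mul, theta, aeval_X, if_neg (Fin.succ_ne_zero b), aeval_C,
            MvPolynomial.algebraMap_eq]
        rw [h1, MvPolynomial.algebraMap_eq]
        simp_rw [h2]
        rw [add_sub_cancel_right, ← mul_assoc, ← C_mul, inv_mul_cancel₀ h0, C_1, one_mul]
      · rw [if_neg hb, theta, aeval_X, if_neg hb])
    (by
      refine MvPolynomial.algHom_ext fun a => ?_
      obtain ⟨j, b⟩ := a
      rw [AlgHom.comp_apply, theta, aeval_X, AlgHom.id_apply]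
      by_cases hb : b = 0
      · subst hb
        rw [if_pos rfl, Fin.sum_univ_succ, map_add, map_mul, map_sum]
        have h1 : thetaInv q ω (X (j, 0)) = C (ω 0)⁻¹ * (X (j, 0) -
            ∑ b : Fin d, C (ω b.succ) * X (j, b.succ)) := by
          rw [thetaInv, aeval_X, if_pos rfl]
        have h2 : ∀ b : Fin d, thetaInv q ω (C (ω b.succ) * X (j, b.succ)) =
            C (ω b.succ) * X (j, b.succ) := by
          intro b
          rw [map_mul, thetaInv, aeval_X, if_neg (Fin.succ_ne_zero b), aeval_C,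
            MvPolynomial.algebraMap_eq]
        rw [h1]
        simp_rw [h2]
        rw [← MvPolynomial.algebraMap_eq, AlgHom.commutes, MvPolynomial.algebraMap_eq, ← mul_assoc,
          ← C_mul, mul_inv_cancel₀ h0, C_1, one_mul, sub_add_cancel]
      · rw [if_neg hb, thetaInv, aeval_X, if_neg hb])

/-- The substitution `u_j = Σ_b ω_b u_{j b}`. -/
noncomputable def lin (q : ℕ) (ω : Fin (d + 1) → F) :
    MvPolynomial (Fin q) F →ₐ[F] MvPolynomial (Fin (q * (d + 1))) F :=
  aeval fun j => ∑ b, C (ω b) * X (finProdFinEquiv (j, b))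

theorem lin_eq (ω : Fin (d + 1) → F) (h0 : ω 0 ≠ 0) (h : MvPolynomial (Fin q) F) :
    lin q ω h = rename finProdFinEquiv (thetaEquiv q ω h0 (rename (fun j => (j, 0)) h)) := by
  have h1 : lin q ω = ((rename (finProdFinEquiv : Fin q × Fin (d + 1) ≃ _)).comp
      (thetaEquiv q ω h0).toAlgHom).comp (rename (fun j : Fin q => (j, (0 : Fin (d + 1))))) := by
    refine MvPolynomial.algHom_ext fun j => ?_
    simp only [AlgHom.comp_apply, rename_X]
    have h2 : (thetaEquiv q ω h0).toAlgHom (X (j, 0)) = theta q ω (X (j, 0)) := rfl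
    rw [h2, theta, aeval_X, if_pos rfl, lin, aeval_X, map_sum]
    refine Finset.sum_congr rfl fun b _ => ?_
    rw [map_mul, rename_X, rename_C]
  rw [h1]
  rfl

theorem prime_rename {σ τ : Type} (f : σ → τ) (hf : Function.Injective f) {p : MvPolynomial σ F}
    (hp : Prime p) : Prime (rename f p) := by
  have h1 : rename f p = rename Subtype.val (rename (Equiv.ofInjective f hf) p) := by
    rw [rename_rename]
    rfl
  rw [h1, prime_rename_iff]
  exact (MulEquiv.prime_iff (renameEquiv F (Equiv.ofInjective f hf))).2 hp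

theorem irreducible_lin (ω : Fin (d + 1) → F) (h0 : ω 0 ≠ 0) {h : MvPolynomial (Fin q) F}
    (hh : Irreducible h) : Irreducible (lin q ω h) := by
  rw [lin_eq ω h0]
  apply Prime.irreducible
  have h1 : Prime h := UniqueFactorizationMonoid.irreducible_iff_prime.1 hh
  have h2 := prime_rename (fun j : Fin q => (j, (0 : Fin (d + 1))))
    (fun a b hab => (Prod.mk.inj hab).1) h1
  have h3 := (MulEquiv.prime_iff (thetaEquiv q ω h0)).2 h2
  exact prime_rename _ (finProdFinEquiv.injective) h3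

end

/-- The parameters after the substitution. -/
noncomputable def latt {K : Subfield ℂ} {q d : ℕ} (ω : Fin (d + 1) → K)
    (u : Fin (q * (d + 1)) → ℂ) : Fin q → ℂ :=
  fun j => ∑ b, (ω b : ℂ) * u (finProdFinEquiv (j, b))

section

variable {K : Subfield ℂ} {q d : ℕ} (ω : Fin (d + 1) → K)

theorem evalAt_lin (u : Fin (q * (d + 1)) → ℂ) (P : MvPolynomial (Fin q) K) :
    evalAt K u (lin q ω P) = evalAt K (latt ω u) P := by
  have h1 : (aeval u : MvPolynomial (Fin (q * (d + 1))) K →ₐ[K] ℂ).comp (lin q ω) =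
      aeval (latt ω u) := by
    refine MvPolynomial.algHom_ext fun j => ?_
    rw [AlgHom.comp_apply, lin, aeval_X, aeval_X, map_sum, latt]
    refine Finset.sum_congr rfl fun b _ => ?_
    rw [map_mul, aeval_C, aeval_X]
    rfl
  exact congrArg (fun f : MvPolynomial (Fin q) K →ₐ[K] ℂ => f P) h1

theorem evalAt_comp_lin (u : Fin (q * (d + 1)) → ℂ) :
    (evalAt K u).comp (lin q ω).toRingHom = evalAt K (latt ω u) :=
  RingHom.ext fun P => evalAt_lin ω u P

theorem eval₂_lin {N : ℕ} (u : Fin (q * (d + 1)) → ℂ) (y : Fin (N + 1) → ℂ)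
    (P : MvPolynomial (Fin (N + 1)) (MvPolynomial (Fin q) K)) :
    eval₂ (evalAt K u) y (MvPolynomial.map (lin q ω).toRingHom P) =
      eval₂ (evalAt K (latt ω u)) y P := by
  rw [eval₂_map, evalAt_comp_lin]

theorem onB_lin {N : ℕ} {κ : Type} (u : Fin (q * (d + 1)) → ℂ)
    (G : κ → MvPolynomial (Fin (N + 1)) (MvPolynomial (Fin q) K)) (y : Fin (N + 1) → ℂ) :
    OnB u (fun k => MvPolynomial.map (lin q ω).toRingHom (G k)) y ↔ OnB (latt ω u) G y := by
  simp only [OnB, eval₂_lin]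

theorem scaledImage_lin {N n : ℕ} {κ : Type} (u : Fin (q * (d + 1)) → ℂ)
    (G : κ → MvPolynomial (Fin (N + 1)) (MvPolynomial (Fin q) K))
    (A B : Fin n → MvPolynomial (Fin (N + 1)) (MvPolynomial (Fin q) K))
    (R : Fin n → Polynomial (Polynomial K)) (c : Fin n → MvPolynomial (Fin q) K) :
    scaledImage u (fun k => MvPolynomial.map (lin q ω).toRingHom (G k))
      (fun i => MvPolynomial.map (lin q ω).toRingHom (A i))
      (fun i => MvPolynomial.map (lin q ω).toRingHom (B i)) R (fun i => lin q ω (c i)) =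
      scaledImage (latt ω u) G A B R c := by
  ext x
  simp only [scaledImage, Set.mem_ofPred_eq, onB_lin, eval₂_lin, evalAt_lin]

theorem scaledImageX_lin {N n k₀ : ℕ} {κ : Type} (u : Fin (q * (d + 1)) → ℂ)
    (G : κ → MvPolynomial (Fin (N + 1)) (MvPolynomial (Fin q) K))
    (A B : Fin n ⊕ Fin k₀ → MvPolynomial (Fin (N + 1)) (MvPolynomial (Fin q) K))
    (R : Fin n → Polynomial (Polynomial K)) (c : Fin n ⊕ Fin k₀ → MvPolynomial (Fin q) K) :
    scaledImageX u (fun k => MvPolynomial.map (lin q ω).toRingHom (G k))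
      (fun i => MvPolynomial.map (lin q ω).toRingHom (A i))
      (fun i => MvPolynomial.map (lin q ω).toRingHom (B i)) R (fun i => lin q ω (c i)) =
      scaledImageX (latt ω u) G A B R c := by
  ext x
  simp only [scaledImageX, Set.mem_ofPred_eq, onB_lin, eval₂_lin, evalAt_lin]

theorem alg_lin (hω : ∀ b, IsAlgebraic ℚ (ω b : ℂ)) {h : MvPolynomial (Fin q) K}
    (hh : ∀ w, IsAlgebraic ℚ ((h.coeff w : K) : ℂ)) (w : Fin (q * (d + 1)) →₀ ℕ) :
    IsAlgebraic ℚ (((lin q ω h).coeff w : K) : ℂ) := by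
  classical
  let L : IntermediateField ℚ K := algebraicClosure ℚ K
  have hmem : ∀ z : K, z ∈ L ↔ IsAlgebraic ℚ (z : ℂ) := fun z => by
    rw [mem_algebraicClosure_iff]
    exact (isAlgebraic_algebraMap_iff (algebraMap K ℂ).injective).symm
  let S : Subring (MvPolynomial (Fin (q * (d + 1))) K) := (MvPolynomial.map (algebraMap L K)).range
  have hC : ∀ z : K, z ∈ L → (C z : MvPolynomial (Fin (q * (d + 1))) K) ∈ S := fun z hz =>
    ⟨C ⟨z, hz⟩, by rw [map_C]; rfl⟩
  have hX : ∀ a, (X a : MvPolynomial (Fin (q * (d + 1))) K) ∈ S := fun a => ⟨X a, by rw [map_X]⟩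
  have h1 : lin q ω h ∈ S := by
    rw [h.as_sum, map_sum]
    refine Subring.sum_mem _ fun v _ => ?_
    rw [monomial_eq, map_mul, lin, aeval_C, MvPolynomial.algebraMap_eq]
    refine Subring.mul_mem _ (hC _ ((hmem _).2 (hh v))) ?_
    rw [Finsupp.prod, map_prod]
    refine Subring.prod_mem _ fun j _ => ?_
    rw [map_pow, aeval_X]
    refine Subring.pow_mem _ (Subring.sum_mem _ fun b _ => ?_) _
    exact Subring.mul_mem _ (hC _ ((hmem _).2 (hω b))) (hX _)
  obtain ⟨P, hP⟩ := h1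
  rw [← hP, coeff_map]
  exact (hmem _).1 (P.coeff w).2

theorem DegeneratesAlongK.lin (hω0 : ω 0 ≠ 0) (hω : ∀ b, IsAlgebraic ℚ (ω b : ℂ)) {N m : ℕ}
    {κ ι : Type} {G : κ → MvPolynomial (Fin (N + 1)) (MvPolynomial (Fin q) K)}
    {A B : ι → MvPolynomial (Fin (N + 1)) (MvPolynomial (Fin q) K)}
    {c : ι → MvPolynomial (Fin q) K} {h : MvPolynomial (Fin q) K} {e : ι → ℕ}
    (hd : DegeneratesAlongK m G A B c h e) :
    DegeneratesAlongK m (fun k => MvPolynomial.map (lin q ω).toRingHom (G k))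
      (fun i => MvPolynomial.map (X295.lin q ω).toRingHom (A i))
      (fun i => MvPolynomial.map (X295.lin q ω).toRingHom (B i)) (fun i => X295.lin q ω (c i))
      (X295.lin q ω h) e := by
  classical
  have hω0' : (ω 0 : ℂ) ≠ 0 := fun h0 => hω0 (Subtype.ext h0)
  -- lifting points
  have hlift : ∀ u : Fin q → ℂ, ∃ u' : Fin (q * (d + 1)) → ℂ, latt ω u' = u ∧
      ((∀ j, IsAlgebraic K (u j)) → ∀ a, IsAlgebraic K (u' a)) := by
    intro u
    refine ⟨fun a => if (finProdFinEquiv.symm a).2 = 0 then u (finProdFinEquiv.symm a).1 / ω 0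
      else 0, ?_, ?_⟩
    · funext j
      rw [latt, Fin.sum_univ_succ]
      have h1 : ∀ b : Fin d, (ω b.succ : ℂ) * (if (finProdFinEquiv.symm
          (finProdFinEquiv (j, b.succ))).2 = 0 then
          u (finProdFinEquiv.symm (finProdFinEquiv (j, b.succ))).1 / ω 0 else 0) = 0 := by
        intro b
        rw [Equiv.symm_apply_apply, if_neg (Fin.succ_ne_zero b), mul_zero]
      rw [Finset.sum_eq_zero fun b _ => h1 b, add_zero, Equiv.symm_apply_apply, if_pos rfl,
        mul_div_cancel₀ _ hω0']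
    · intro hu a
      dsimp only
      split_ifs
      · rw [div_eq_mul_inv]
        refine (hu _).mul (IsAlgebraic.inv ?_)
        exact isAlgebraic_algebraMap (ω 0)
      · exact isAlgebraic_zero
  obtain ⟨h1, h2, h3, u, h4, h5, h6⟩ := hd
  refine ⟨?_, alg_lin ω hω h2, fun i => ?_, ?_⟩
  · have h7 : MvPolynomial.map (algebraMap K ℂ) (X295.lin q ω h) =
        X295.lin q (fun b => (ω b : ℂ)) (MvPolynomial.map (algebraMap K ℂ) h) := by
      have h8 : (MvPolynomial.map (algebraMap K ℂ)).comp (X295.lin q ω).toRingHom =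
          (X295.lin q (fun b => (ω b : ℂ))).toRingHom.comp (MvPolynomial.map (algebraMap K ℂ)) := by
        refine MvPolynomial.ringHom_ext (fun a => ?_) (fun j => ?_)
        · simp [X295.lin]
        · simp [X295.lin]
          rfl
      exact congrArg (fun f : MvPolynomial (Fin q) K →+* MvPolynomial (Fin (q * (d + 1))) ℂ => f h)
        h8
    rw [h7]
    exact irreducible_lin _ hω0' h1
  · obtain ⟨g, hg, v, hv1, hv2⟩ := h3 i
    obtain ⟨v', hv', -⟩ := hlift v
    refine ⟨X295.lin q ω g, by simp only [hg, map_mul, map_pow], v', ?_, ?_⟩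
    · rw [evalAt_lin, hv', hv1]
    · rw [evalAt_lin, hv']
      exact hv2
  · obtain ⟨u', hu', hu''⟩ := hlift u
    refine ⟨u', hu'' h4, by rw [evalAt_lin, hu', h5], ?_⟩
    intro I hI y hy
    obtain ⟨i, hi, h7⟩ := h6 I hI y (by
      have h8 := (onB_lin ω u' G y).1 hy
      rwa [hu'] at h8)
    refine ⟨i, hi, ?_⟩
    rw [eval₂_lin, eval₂_lin, hu']
    exact h7

theorem count_lin (P : (Fin q → ℂ) → Prop) (H : ℕ) :
    ({u : Fin q → Fin (d + 1) → ℤ | P fun j => ∑ b, (ω b : ℂ) * (u j b : ℂ)} ∩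
      {u | ∀ j b, |u j b| ≤ H}).ncard =
    ({u : Fin (q * (d + 1)) → ℤ | P (latt ω fun a => (u a : ℂ))} ∩ {u | ∀ a, |u a| ≤ H}).ncard := by
  let E : (Fin (q * (d + 1)) → ℤ) → (Fin q → Fin (d + 1) → ℤ) := fun u j b =>
    u (finProdFinEquiv (j, b))
  have hE : Function.Injective E := by
    intro u v huv
    funext a
    have h1 := congrFun (congrFun huv (finProdFinEquiv.symm a).1) (finProdFinEquiv.symm a).2
    have h2 : finProdFinEquiv ((finProdFinEquiv.symm a).1, (finProdFinEquiv.symm a).2) = a :=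
      finProdFinEquiv.apply_symm_apply a
    simp only [E, h2] at h1
    exact h1
  rw [← Set.ncard_image_of_injective _ hE]
  congr 1
  ext u
  constructor
  · rintro ⟨h1, h2⟩
    refine ⟨fun a => u (finProdFinEquiv.symm a).1 (finProdFinEquiv.symm a).2, ⟨?_, fun a => h2 _ _⟩,
      ?_⟩
    · have h3 : (latt ω fun a => (((fun a => u (finProdFinEquiv.symm a).1
          (finProdFinEquiv.symm a).2) a : ℤ) : ℂ)) = fun j => ∑ b, (ω b : ℂ) * (u j b : ℂ) := by
        funext j
        simp only [latt]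
        refine Finset.sum_congr rfl fun b _ => ?_
        rw [Equiv.symm_apply_apply]
      rw [Set.mem_ofPred_eq, h3]
      exact h1
    · funext j b
      simp only [E]
      rw [Equiv.symm_apply_apply]
  · rintro ⟨v, ⟨h1, h2⟩, rfl⟩
    exact ⟨h1, fun j b => h2 _⟩

end

/-- Families with several parameters, in the members of a lattice of algebraic numbers. -/
theorem familyNF (K : Subfield ℂ) [Countable K] (κ : Type) [Finite κ]
    (q N n m M T d₀ : ℕ) (ω : Fin (d₀ + 1) → K) (hω0 : ω 0 ≠ 0)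
    (hω : ∀ b, IsAlgebraic ℚ (ω b : ℂ))
    (G : κ → MvPolynomial (Fin (N + 1)) (MvPolynomial (Fin q) K))
    (hG : ∀ k, ∃ e, (G k).IsHomogeneous e)
    (A B : Fin n → MvPolynomial (Fin (N + 1)) (MvPolynomial (Fin q) K)) (d : Fin n → ℕ)
    (hA : ∀ i, (A i).IsHomogeneous (d i)) (hB : ∀ i, (B i).IsHomogeneous (d i))
    (R : Fin n → Polynomial (Polynomial K)) (hR : ∀ i, (R i).Monic)
    (hT : ∀ i u w, ((R i).coeff u).coeff w ≠ 0 → u ≤ T ∧ w ≤ T)
    (c : Fin n → MvPolynomial (Fin q) K) (h : Fin M → MvPolynomial (Fin q) K)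
    (e : Fin M → Fin n → ℕ) (hdeg : ∀ l, DegeneratesAlongK m G A B c (h l) (e l))
    (he : ∀ l i, 0 < e l i) (Γ : Finset ℂ) (hΓ : ∀ γ ∈ Γ, γ ∈ K) (ε : ℝ) (hε : 0 < ε)
    (hM : ((min (m + 2) n).choose 2 + 1 ≤ M ∧ ∀ l l', l ≠ l' → ∀ i j, i ≠ j → ∀ a, 0 < a →
        a ≤ T ^ 8 → ¬ IsSquare (a * (e l i * e l j * (e l' i * e l' j)))) ∨
      (m + 2 ≤ M ∧ StrongQ T e)) :
    ∃ C : ℝ, ∀ H : ℕ, 1 ≤ H →
      (({u : Fin q → Fin (d₀ + 1) → ℤ | ¬ Pool.Agent.Y152.RP.Fam.NoAtypical
        (algebraMap (Algebra.adjoin ℤ (Γ : Set ℂ)) ℂ) K m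
        (scaledImage (fun j => ∑ b, (ω b : ℂ) * (u j b : ℂ)) G A B R c)} ∩
          {u | ∀ j b, |u j b| ≤ H}).ncard : ℝ) ≤ C * (H : ℝ) ^ ((q : ℝ) * (d₀ + 1) - 1 + ε) := by
  obtain ⟨C, hC⟩ := familyK K κ (q * (d₀ + 1)) N n m M T
    (fun k => MvPolynomial.map (lin q ω).toRingHom (G k))
    (fun k => by
      obtain ⟨e, he⟩ := hG k
      exact ⟨e, he.map _⟩)
    (fun i => MvPolynomial.map (lin q ω).toRingHom (A i))
    (fun i => MvPolynomial.map (lin q ω).toRingHom (B i)) d (fun i => (hA i).map _)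
    (fun i => (hB i).map _) R hR hT (fun i => lin q ω (c i)) (fun l => lin q ω (h l)) e
    (fun l => (hdeg l).lin ω hω0 hω) he Γ hΓ ε hε hM
  refine ⟨C, fun H hH => ?_⟩
  have h1 := hC H hH
  simp_rw [scaledImage_lin] at h1
  rw [count_lin ω (fun t => ¬ Pool.Agent.Y152.RP.Fam.NoAtypical
    (algebraMap (Algebra.adjoin ℤ (Γ : Set ℂ)) ℂ) K m (scaledImage t G A B R c)) H]
  refine h1.trans (le_of_eq ?_)
  push_cast
  rfl

/-- Families with several parameters, in the members of a lattice of algebraic numbers; the mixed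
case. -/
theorem familyNFM (K : Subfield ℂ) [Countable K] (κ : Type) [Finite κ]
    (q N n k₀ m M T d₀ : ℕ) (ω : Fin (d₀ + 1) → K) (hω0 : ω 0 ≠ 0)
    (hω : ∀ b, IsAlgebraic ℚ (ω b : ℂ))
    (G : κ → MvPolynomial (Fin (N + 1)) (MvPolynomial (Fin q) K))
    (hG : ∀ k, ∃ e, (G k).IsHomogeneous e)
    (A B : Fin n ⊕ Fin k₀ → MvPolynomial (Fin (N + 1)) (MvPolynomial (Fin q) K))
    (d : Fin n ⊕ Fin k₀ → ℕ)
    (hA : ∀ i, (A i).IsHomogeneous (d i)) (hB : ∀ i, (B i).IsHomogeneous (d i))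
    (R : Fin n → Polynomial (Polynomial K)) (hR : ∀ i, (R i).Monic)
    (hT : ∀ i u w, ((R i).coeff u).coeff w ≠ 0 → u ≤ T ∧ w ≤ T)
    (c : Fin n ⊕ Fin k₀ → MvPolynomial (Fin q) K) (h : Fin M → MvPolynomial (Fin q) K)
    (e : Fin M → Fin n ⊕ Fin k₀ → ℕ) (hdeg : ∀ l, DegeneratesAlongK m G A B c (h l) (e l))
    (Γ : Finset ℂ) (hΓ : ∀ γ ∈ Γ, γ ∈ K) (ε : ℝ) (hε : 0 < ε)
    (hind : IndepMX T n k₀ m M e) :
    ∃ C : ℝ, ∀ H : ℕ, 1 ≤ H →
      (({u : Fin q → Fin (d₀ + 1) → ℤ | ¬ Pool.Agent.Y152.RP.FamM.NoAtypical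
        (algebraMap (Algebra.adjoin ℤ (Γ : Set ℂ)) ℂ) K m
        (scaledImageX (fun j => ∑ b, (ω b : ℂ) * (u j b : ℂ)) G A B R c)} ∩
          {u | ∀ j b, |u j b| ≤ H}).ncard : ℝ) ≤ C * (H : ℝ) ^ ((q : ℝ) * (d₀ + 1) - 1 + ε) := by
  obtain ⟨C, hC⟩ := familyMMK K κ (q * (d₀ + 1)) N n k₀ m M T
    (fun k => MvPolynomial.map (lin q ω).toRingHom (G k))
    (fun k => by
      obtain ⟨e, he⟩ := hG k
      exact ⟨e, he.map _⟩)
    (fun i => MvPolynomial.map (lin q ω).toRingHom (A i))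
    (fun i => MvPolynomial.map (lin q ω).toRingHom (B i)) d (fun i => (hA i).map _)
    (fun i => (hB i).map _) R hR hT (fun i => lin q ω (c i)) (fun l => lin q ω (h l)) e
    (fun l => (hdeg l).lin ω hω0 hω) Γ hΓ ε hε hind
  refine ⟨C, fun H hH => ?_⟩
  have h1 := hC H hH
  simp_rw [scaledImageX_lin] at h1
  rw [count_lin ω (fun t => ¬ Pool.Agent.Y152.RP.FamM.NoAtypical
    (algebraMap (Algebra.adjoin ℤ (Γ : Set ℂ)) ℂ) K m (scaledImageX t G A B R c)) H]
  refine h1.trans (le_of_eq ?_)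
  push_cast
  rfl

end Pool.Agent.X295
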