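import Pool.Agent.X295.GenLocK
import Pool.Agent.X295.Lin

/-!
Families of curves whose generic member over a hypersurface of the space of parameters, defined over
the algebraic numbers, is a curve in general position: the main theorem (helper file).
-/

set_option autoImplicit false
set_option linter.unusedSectionVars false

open UpperHalfPlane H294ZP Polynomial

namespace Pool.Agent.X295

open Pool.Agent.Y226 Pool.Agent.Y226.ZG Pool.Agent.Y226.ZM Pool.Agent.Y226.ZU Pool.Agent.Y92.ZX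
open Pool.Agent.Y108.ZX (lift1 lift2 lift3 sub_inj map_inj map2_inj map_bh bezout noCommon)

/-- Elimination over the algebraic numbers. -/
theorem elimQ {q : ℕ} (N : MvPolynomial (Fin q) ℤ) (hN0 : N ≠ 0) (h : MvPolynomial (Fin q) QA)
    (hp : Prime h) (hN : h ∣ MvPolynomial.map (Int.castRingHom QA) N)
    (Δ : MvPolynomial (Fin q) QA) (hΔ : ¬ h ∣ Δ) (j0 : Fin q) :
    ∃ ρ : MvPolynomial {j : Fin q // j ≠ j0} ℤ, ρ ≠ 0 ∧ ∃ α β : MvPolynomial (Fin q) QA,
      ∀ (u : Fin q → ℤ), ∃ z : ℤ,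
        (∀ p : ℕ, ¬ (p : ℤ) ∣ MvPolynomial.eval u (MvPolynomial.rename Subtype.val ρ) →
          ¬ (p : ℤ) ∣ z) ∧
        ((z : ℤ) : QA) = MvPolynomial.eval (fun j => ((u j : ℤ) : QA)) (α * h + β * Δ) := by
  have halg : Algebra.IsAlgebraic ℤ QA := by
    have : Algebra.IsAlgebraic ℤ ℚ := IsLocalization.isAlgebraic ℚ (nonZeroDivisors ℤ)
    have : Algebra.IsAlgebraic ℚ QA := inferInstance
    exact Algebra.IsAlgebraic.trans ℤ ℚ QA
  have : FaithfulSMul ℤ QA := (faithfulSMul_iff_algebraMap_injective ℤ QA).2 Int.cast_injective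
  obtain ⟨s, hs⟩ := exists_isTranscendenceBasis ℤ QA
  have hemp : IsEmpty s := hs.isEmpty_iff_isAlgebraic.2 halg
  obtain ⟨ρ, hρ, α, β, hαβ⟩ := elimK s hs N hN0 h hp hN Δ hΔ j0
  refine ⟨ρ, hρ, α, β, fun u => ?_⟩
  obtain ⟨f, hf1, hf2⟩ := hαβ u
  obtain ⟨z, rfl⟩ := MvPolynomial.C_surjective s f
  refine ⟨z, fun p hp hd => hf1 p hp (map_dvd MvPolynomial.C hd), ?_⟩
  rw [← hf2, MvPolynomial.aeval_C]
  rfl

/-- The values at the places at which `h (u)` is small of polynomials which are not divisible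
by `h`. -/
theorem nearQ {q : ℕ} {ι' : Type} [Finite ι'] (h : MvPolynomial (Fin q) QA)
    (hp : Prime h) (N : MvPolynomial (Fin q) ℤ) (hN0 : N ≠ 0)
    (hN : h ∣ MvPolynomial.map (Int.castRingHom QA) N) (g : ι' → MvPolynomial (Fin q) QA)
    (hg : ∀ x, ¬ h ∣ g x) (j0 : Fin q) :
    ∃ ρ : MvPolynomial {j : Fin q // j ≠ j0} ℤ, ρ ≠ 0 ∧ ∃ D : ℕ, ∀ (p : ℕ) [Fact p.Prime],
      D < p → ∀ (C : Type) [NormedField C] [IsUltrametricDist C] [IsAlgClosed C] (φ : QA →+* C),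
      ‖(p : C)‖ < 1 → ∀ u : Fin q → ℤ,
      ‖φ (MvPolynomial.eval (fun l => ((u l : ℤ) : QA)) h)‖ < 1 →
      ¬ (p : ℤ) ∣ MvPolynomial.eval u (MvPolynomial.rename Subtype.val ρ) →
      ∀ x, φ (MvPolynomial.eval (fun l => ((u l : ℤ) : QA)) (g x)) ∈ Nr C p ∧
        ‖φ (MvPolynomial.eval (fun l => ((u l : ℤ) : QA)) (g x))‖ = 1 := by
  classical
  have := Fintype.ofFinite ι'
  have hΔ : ¬ h ∣ ∏ x, g x := by
    intro hdvd
    obtain ⟨x, -, hx⟩ := (hp.dvd_finsetProd_iff _).1 hdvd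
    exact hg x hx
  obtain ⟨ρ, hρ, α, β, hαβ⟩ := elimQ N hN0 h hp hN (∏ x, g x) hΔ j0
  choose Dn hDn using nr_large
  let T : Finset QA := α.coeffs ∪ (β.coeffs ∪ Finset.univ.biUnion fun x => (g x).coeffs)
  refine ⟨ρ, hρ, T.sup Dn, ?_⟩
  intro p _ hD C _ _ _ φ hp1 u hu1 hu2
  have hT : ∀ x ∈ T, φ x ∈ Nr C p := by
    intro x hx
    have h1 : Dn x ≤ T.sup Dn := Finset.le_sup hx
    exact hDn x p (by omega) C φ hp1
  set uQ : Fin q → QA := fun l => ((u l : ℤ) : QA) with huQ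
  have hα := eval_Nr (p := p) φ α (fun x hx => hT x (Finset.mem_union_left _ hx)) u
  have hβ := eval_Nr (p := p) φ β (fun x hx => hT x (Finset.mem_union_right _
    (Finset.mem_union_left _ hx))) u
  have hgN := fun x => eval_Nr (p := p) φ (g x) (fun y hy => hT y (Finset.mem_union_right _
    (Finset.mem_union_right _ (Finset.mem_biUnion.2 ⟨x, Finset.mem_univ x, hy⟩)))) u
  obtain ⟨z, hz1, hz2⟩ := hαβ u
  have h1 : ‖(z : C)‖ = 1 := norm_int_one hp1 (hz1 p hu2)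
  have hid : (z : C) = φ (MvPolynomial.eval uQ α) * φ (MvPolynomial.eval uQ h) +
      φ (MvPolynomial.eval uQ β) * φ (MvPolynomial.eval uQ (∏ x, g x)) := by
    have h2 := congrArg φ hz2
    rw [map_intCast] at h2
    rw [h2, map_add, map_mul, map_mul, map_add, map_mul, map_mul]
  have h3 : ‖φ (MvPolynomial.eval uQ (∏ x, g x))‖ = 1 := by
    have h5 : ‖φ (MvPolynomial.eval uQ (∏ x, g x))‖ ≤ 1 := by
      rw [map_prod, map_prod, norm_prod]
      exact Finset.prod_le_one (fun _ _ => norm_nonneg _) fun x _ => Nr_le (hgN x)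
    refine le_antisymm h5 ?_
    by_contra hlt
    push Not at hlt
    rw [hid] at h1
    have h6 : ‖φ (MvPolynomial.eval uQ α) * φ (MvPolynomial.eval uQ h) +
        φ (MvPolynomial.eval uQ β) * φ (MvPolynomial.eval uQ (∏ x, g x))‖ < 1 := by
      refine (IsUltrametricDist.norm_add_le_max _ _).trans_lt (max_lt ?_ ?_)
      · rw [norm_mul]
        exact (mul_le_of_le_one_left (norm_nonneg _) (Nr_le hα)).trans_lt hu1
      · rw [norm_mul]
        exact (mul_le_of_le_one_left (norm_nonneg _) (Nr_le hβ)).trans_lt hlt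
    exact h6.ne h1
  intro x
  refine ⟨hgN x, ?_⟩
  rw [map_prod, map_prod, norm_prod, ← Finset.mul_prod_erase _ _ (Finset.mem_univ x)] at h3
  refine le_antisymm (Nr_le (hgN x)) ?_
  rw [← h3]
  exact mul_le_of_le_one_right (norm_nonneg _)
    (Finset.prod_le_one (fun _ _ => norm_nonneg _) fun x' _ => Nr_le (hgN x'))

/-- The norm and the local fields. -/
theorem normQ {q : ℕ} (h : MvPolynomial (Fin q) QA) (h0 : h ≠ 0) :
    ∃ (N : MvPolynomial (Fin q) ℤ) (D : ℕ), N ≠ 0 ∧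
      h ∣ MvPolynomial.map (Int.castRingHom QA) N ∧
      (∀ (p : ℕ) [Fact p.Prime], D < p → ∀ (C : Type) [NormedField C] [IsUltrametricDist C]
      (φ : QA →+* C), ‖(p : C)‖ < 1 → ∀ u : Fin q → ℤ, (p : ℤ) ∣ MvPolynomial.eval u N →
      ∃ σ : QA →+* QA, ‖φ (σ (MvPolynomial.eval (fun l => ((u l : ℤ) : QA)) h))‖ < 1) ∧
      ∀ P : MvPolynomial (Fin q) QA, Prime P → (∀ σ : QA ≃ₐ[ℚ] QA,
        ¬ P ∣ MvPolynomial.map (σ : QA →+* QA) h) →
        ¬ P ∣ MvPolynomial.map (Int.castRingHom QA) N := by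
  classical
  have : IsGalois ℚ QA := galQB
  obtain ⟨N, D, O, hD, ⟨σ0, hσ0, hσ0h⟩, hN⟩ := exists_norm h
  refine ⟨N, D, fun hN0 => ?_, ?_, ?_, ?_⟩
  · rw [hN0, map_zero] at hN
    rcases mul_eq_zero.1 hN.symm with h1 | h1
    · have h2 : (D : QA) = 0 := (MvPolynomial.C_eq_zero).1 h1
      exact hD (by exact_mod_cast h2)
    · obtain ⟨σ, -, hσ⟩ := Finset.prod_eq_zero_iff.1 h1
      apply h0
      exact MvPolynomial.map_injective _ σ.injective (hσ.trans (map_zero _).symm)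
  · rw [hN]
    have h1 := Finset.dvd_prod_of_mem
      (fun σ : QA ≃ₐ[ℚ] QA => MvPolynomial.map (σ : QA →+* QA) h) hσ0
    simp only [hσ0h] at h1
    exact h1.mul_left _
  · intro p _ hpD C _ _ φ hp1 u hu
    have hVD : ‖((D : ℤ) : C)‖ = 1 := norm_int_one hp1 (by
      intro hd
      have h2 := Nat.le_of_dvd (Nat.pos_of_ne_zero hD) (Int.natCast_dvd_natCast.1 hd)
      omega)
    rw [Int.cast_natCast] at hVD
    have h1 : ‖((MvPolynomial.eval u N : ℤ) : C)‖ < 1 := norm_int_lt hp1 hu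
    have h2 := congrArg (fun P => φ (MvPolynomial.eval (fun j => ((u j : ℤ) : QA)) P)) hN
    simp only [eval_cast, map_intCast, map_mul, map_natCast, map_prod] at h2
    rw [h2, norm_mul, hVD, one_mul, norm_prod] at h1
    obtain ⟨σ, hσ, h3⟩ : ∃ σ ∈ O, ‖φ (MvPolynomial.eval (fun j => ((u j : ℤ) : QA))
        (MvPolynomial.map (σ : QA →+* QA) h))‖ < 1 := by
      by_contra hcon
      push Not at hcon
      exact absurd h1 (not_lt.2 (Finset.prod_induction _ (fun x : ℝ => 1 ≤ x)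
        (fun a b ha hb => one_le_mul_of_one_le_of_one_le ha hb) le_rfl fun σ hσ => hcon σ hσ))
    refine ⟨(σ : QA →+* QA), ?_⟩
    have h4 : (σ : QA →+* QA) (MvPolynomial.eval (fun j => ((u j : ℤ) : QA)) h) =
        MvPolynomial.eval (fun j => ((u j : ℤ) : QA))
          (MvPolynomial.map (σ : QA →+* QA) h) := by
      rw [MvPolynomial.eval_map, MvPolynomial.eval, MvPolynomial.coe_eval₂Hom,
        MvPolynomial.hom_eval₂]
      congr 1
      funext j
      exact map_intCast _ _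
    rw [h4]
    exact h3
  · intro P hP hσ hd
    rw [hN] at hd
    rcases hP.dvd_or_dvd hd with h1 | h1
    · refine hP.not_isUnit (isUnit_of_dvd_unit h1 (IsUnit.map _ (isUnit_iff_ne_zero.2 fun h2 => ?_)))
      exact hD (by exact_mod_cast h2)
    · obtain ⟨σ, -, h2⟩ := (hP.dvd_finsetProd_iff _).1 h1
      exact hσ σ h2

/-- The members at the good parameters. -/
theorem gen_finK (n q : ℕ) (κ : Type) [Finite κ] (d₀ : ℕ)
    (F : κ → MvPolynomial (Fin n × Bool) (MvPolynomial (Fin q) QA))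
    (h : MvPolynomial (Fin q) QA) (hprime : Prime h)
    (Ω : Type) [Field Ω] [IsAlgClosed Ω] [CharZero Ω] (e : MvPolynomial (Fin q) QA →+* Ω)
    (he : ∀ P, e P = 0 ↔ h ∣ P)
    (halg : ∀ s : Ω, ∃ P : Polynomial (MvPolynomial (Fin q) QA), (P.map e).eval s = 0 ∧
      e P.leadingCoeff ≠ 0)
    (hF : GM d₀ e F) (a g : Fin n → MvPolynomial (Fin q) QA) (w : Fin n → ℕ)
    (hw : ∀ i, 0 < w i) (ha : ∀ i, ¬ h ∣ a i)
    (hg : ∀ i, ¬ h ∣ g i)
    (Γ : Set ℂ) (hΓ : Γ.Finite) (hΓa : ∀ γ ∈ Γ, ∃ c : QA, rA c = γ) (j0 : Fin q)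
    (Nm : MvPolynomial (Fin q) ℤ) (DN : ℕ) (hNm0 : Nm ≠ 0)
    (hNm : h ∣ MvPolynomial.map (Int.castRingHom QA) Nm)
    (hplace : ∀ (p : ℕ) [Fact p.Prime], DN < p → ∀ (C : Type) [NormedField C]
      [IsUltrametricDist C] (φ : QA →+* C), ‖(p : C)‖ < 1 → ∀ u : Fin q → ℤ,
      (p : ℤ) ∣ MvPolynomial.eval u Nm →
      ∃ σ : QA →+* QA, ‖φ (σ (MvPolynomial.eval (fun l => ((u l : ℤ) : QA)) h))‖ < 1) :
    ∃ ρ : MvPolynomial {j : Fin q // j ≠ j0} ℤ, ρ ≠ 0 ∧ ∃ D : ℕ, ∀ u : Fin q → ℤ,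
      Good Nm (MvPolynomial.rename Subtype.val ρ) D u →
      {x : Fin n → ℂ | x ∈ scaled F a (fun i => h ^ w i *
        g i) (fun l => ((u l : ℤ) : QA)) ∧ ∃ (r : ℕ) (Z : SV Γ n r), r + 2 ≤ n ∧
          x ∈ Z.locus}.Finite ∧
      ∀ (r : ℕ) (Z : SV Γ n r), r < n →
        {x : Fin n → ℂ | x ∈ scaled F a (fun i => h ^ w i *
          g i) (fun l => ((u l : ℤ) : QA)) ∧ x ∈ Z.locus}.Finite := by
  classical
  have hh0 : h ≠ 0 := hprime.ne_zero
  obtain ⟨DO, hDO⟩ := order_large h.coeffs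
  set W := ∑ i, w i with hW
  obtain ⟨N, M, d, D, B, Δ, D₀, hΔ, -, hLB⟩ := gen_LBK n q W κ d₀ F h hh0 Ω e
    (fun P hP => (he P).1 hP) halg hF
  obtain ⟨ρ, hρ, D₁, hnear⟩ := nearQ (ι' := Option (Fin n ⊕ Fin n)) h hprime Nm hNm0 hNm
    (fun x => x.elim Δ (Sum.elim a g)) (by
      rintro (_ | i | i)
      · exact fun hd => hΔ ((he _).2 hd)
      · exact ha i
      · exact hg i) j0
  choose Dn hDn using nr_large
  choose! cΓ hcΓ using hΓa
  refine ⟨ρ, hρ, DN + DO + (D₀ + D₁ + (hΓ.toFinset.image cΓ).sup Dn), ?_⟩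
  rintro u ⟨hu0, p, hp, hpD, hpu, hpρ⟩
  have : Fact p.Prime := ⟨hp⟩
  obtain ⟨C, _, _, _, _, _, k, _, _, _, red, 𝕜, _, _, _, ρ', ι, φ0, hp0, hp1, hker, hρs, hι⟩ :=
    exists_local p
  obtain ⟨σ, hσ⟩ := hplace p (by omega) C φ0 hp1 u hpu
  set φ : QA →+* C := φ0.comp σ with hφ
  set uQ : Fin q → QA := fun l => ((u l : ℤ) : QA) with huQ
  have hsmall : ‖φ (MvPolynomial.eval uQ h)‖ < 1 := hσ
  have hn := hnear p (by omega) C φ hp1 u hsmall hpρ
  have hΔ1 := hn none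
  have ha1 := fun i => hn (some (Sum.inl i))
  have hg1 := fun i => hn (some (Sum.inr i))
  simp only [Option.elim, Sum.elim_inl, Sum.elim_inr] at hΔ1 ha1 hg1
  -- the order of `h (u)`
  have hhu0 : MvPolynomial.eval uQ h ≠ 0 := by
    intro h0
    have h5 := map_dvd (MvPolynomial.eval uQ) hNm
    rw [h0, zero_dvd_iff, eval_cast] at h5
    exact hu0 (by exact_mod_cast h5)
  have hmemc : MvPolynomial.eval uQ h ∈ Subring.closure (h.coeffs : Set QA) := by
    rw [MvPolynomial.eval_eq']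
    refine Subring.sum_mem _ fun m hm => Subring.mul_mem _ (Subring.subset_closure
      (MvPolynomial.coeff_mem_coeffs m (MvPolynomial.mem_support_iff.1 hm)))
      (Subring.prod_mem _ fun i _ => Subring.pow_mem _ (intCast_mem _ _) _)
  obtain ⟨f, m, hmN, hm1, hhC⟩ := hDO p (by omega) C φ hp0 hp1 _ hmemc hhu0
  have hf : 0 < f := by
    rcases Nat.eq_zero_or_pos f with h0 | h0
    · rw [h0, pow_zero, one_mul] at hhC
      rw [hhC, hm1] at hsmall
      exact absurd hsmall (lt_irrefl _)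
    · exact h0
  have hb0 : ∀ i, MvPolynomial.eval uQ (h ^ w i * g i) ≠
      0 := by
    intro i h0
    have h1 := congrArg φ h0
    rw [map_mul, map_mul, map_pow, map_pow, hhC, map_zero] at h1
    rcases mul_eq_zero.1 h1 with h2 | h2
    · have h3 := (pow_eq_zero_iff (hw i).ne').1 h2
      rcases mul_eq_zero.1 h3 with h4 | h4
      · exact (norm_pos_iff.1 hp0) ((pow_eq_zero_iff hf.ne').1 h4)
      · rw [h4, norm_zero] at hm1
        exact zero_ne_one hm1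
    · have h3 := (hg1 i).2
      rw [h2, norm_zero] at h3
      exact zero_ne_one h3
  let lam : Fin n → QA := fun i => MvPolynomial.eval uQ (a i) /
    MvPolynomial.eval uQ (h ^ w i * g i)
  have hlam : ∀ i, φ (lam i) * (p : C) ^ (w i * f) =
      φ (MvPolynomial.eval uQ (a i)) * (m ^ w i *
        φ (MvPolynomial.eval uQ (g i)))⁻¹ := by
    intro i
    have hpf : (p : C) ^ (w i * f) ≠ 0 := pow_ne_zero _ (norm_pos_iff.1 hp0)
    show φ (MvPolynomial.eval uQ (a i) / MvPolynomial.eval uQ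
      (h ^ w i * g i)) * _ = _
    rw [map_div₀, map_mul (MvPolynomial.eval uQ), map_mul φ, map_pow (MvPolynomial.eval uQ),
      map_pow φ, hhC, mul_pow, ← pow_mul, mul_comm f (w i)]
    have h1 : m ^ w i ≠ 0 := pow_ne_zero _ (norm_pos_iff.1 (by rw [hm1]; exact one_pos))
    have h2 : φ (MvPolynomial.eval uQ (g i)) ≠ 0 :=
      norm_pos_iff.1 (by rw [(hg1 i).2]; exact one_pos)
    field_simp
  have hunit : ∀ i, ‖m ^ w i * φ (MvPolynomial.eval uQ (g i))‖ = 1 := by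
    intro i
    rw [norm_mul, norm_pow, hm1, one_pow, one_mul]
    exact (hg1 i).2
  have hlamN : ∀ i, φ (lam i) * (p : C) ^ (w i * f) ∈ Nr C p := by
    intro i
    rw [hlam]
    exact mul_mem (ha1 i).1 (Nr_inv (mul_mem (pow_mem hmN _) (hg1 i).1) (hunit i))
  have hlam1 : ∀ i, ‖φ (lam i)‖ = ‖(p : C)‖ ^ (-((w i * f : ℕ) : ℤ)) := by
    intro i
    have h1 := congrArg norm (hlam i)
    rw [norm_mul, norm_mul, norm_inv, hunit, inv_one, mul_one, (ha1 i).2, norm_pow] at h1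
    rw [zpow_neg, zpow_natCast]
    exact eq_inv_of_mul_eq_one_left h1
  obtain ⟨hgen, 𝓛, h𝓛φ, h𝓛Λ, hpt⟩ := hLB p (by omega) C k red 𝕜 ρ' ι φ hp0 hp1 hker hρs hι u
    hsmall
    hΔ1.2 lam f w hf (fun i => ⟨hw i, by
      rw [hW]
      exact Finset.single_le_sum (f := w) (fun _ _ => Nat.zero_le _) (Finset.mem_univ i),
      hlam1 i, hlamN i⟩)
  have hfin := finish core_all Y219.ZX.fin 𝓛 hgen (lam := lam) (fun i => by rw [h𝓛φ, h𝓛Λ])
    (Γ := Γ) (by
      intro γ hγ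
      refine ⟨cΓ γ, hcΓ γ hγ, ?_⟩
      rw [h𝓛φ]
      have h1 : Dn (cΓ γ) ≤ (hΓ.toFinset.image cΓ).sup Dn :=
        Finset.le_sup (Finset.mem_image_of_mem _ (hΓ.mem_toFinset.2 hγ))
      exact Nr_le (hDn (cΓ γ) p (by omega) C φ hp1)) (by
      intro s hs
      have := hpt s hs
      simpa only [h𝓛φ] using this)
  have hset : ∀ x : Fin n → ℂ, x ∈ scaled F a (fun i =>
      h ^ w i * g i) uQ ↔
      ∃ y ∈ VF (mem' F uQ), ∀ i, x i = rA (lam i) * y i := by
    intro x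
    refine exists_congr fun y => and_congr_right fun hy => forall_congr' fun i => ?_
    have hb : rA (MvPolynomial.eval uQ (h ^ w i * g i)) ≠
        0 := fun h0 => hb0 i ((map_eq_zero rA).1 h0)
    show _ ↔ x i = rA (MvPolynomial.eval uQ (a i) / MvPolynomial.eval uQ
      (h ^ w i * g i)) * y i
    rw [map_div₀, div_mul_eq_mul_div, eq_div_iff hb, mul_comm (x i)]
  refine ⟨hfin.1.subset ?_, fun r Z hr => (hfin.2 r Z hr).subset ?_⟩
  · rintro x ⟨hx, h1⟩
    exact ⟨(hset x).1 hx, h1⟩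
  · rintro x ⟨hx, h1⟩
    exact ⟨(hset x).1 hx, h1⟩

end Pool.Agent.X295
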