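import Pool.Agent.X295.GenMain
import Pool.Agent.Y92.ZX.MixAll

/-!
Families of curves in `Y(1)^n × G_m^k` whose generic members over several hypersurfaces of the space
of parameters are curves in general position: the main theorem (helper file).
-/

set_option autoImplicit false
set_option linter.unusedSectionVars false

open UpperHalfPlane H294ZP Polynomial

namespace Pool.Agent.X295

open Pool.Agent.Y226 Pool.Agent.Y226.ZG Pool.Agent.Y226.ZM Pool.Agent.Y226.ZU Pool.Agent.Y92.ZX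
open Pool.Agent.Y108.ZX (lift1 lift2 lift3 sub_inj map_inj map2_inj map_bh bezout noCommon)

section vl

variable {C : Type} [NormedField C] [IsUltrametricDist C] {p : ℕ} [hpf : Fact p.Prime]

/-- `x` has the value `m` and is almost unramified. -/
def Vl (C : Type) [NormedField C] [IsUltrametricDist C] (p : ℕ) [Fact p.Prime] (x : C) (m : ℤ) :
    Prop :=
  ‖x‖ = ‖(p : C)‖ ^ m ∧ x * (p : C) ^ (-m) ∈ Nr C p

theorem Vl.mul (hp0 : 0 < ‖(p : C)‖) {x y : C} {m m' : ℤ} (hx : Vl C p x m) (hy : Vl C p y m') :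
    Vl C p (x * y) (m + m') := by
  have hpc : (p : C) ≠ 0 := norm_pos_iff.1 hp0
  refine ⟨by rw [norm_mul, hx.1, hy.1, zpow_add₀ hp0.ne'], ?_⟩
  have h1 : x * y * (p : C) ^ (-(m + m')) = (x * (p : C) ^ (-m)) * (y * (p : C) ^ (-m')) := by
    rw [neg_add, zpow_add₀ hpc]
    ring
  rw [h1]
  exact mul_mem hx.2 hy.2

theorem Vl.inv (hp0 : 0 < ‖(p : C)‖) {x : C} {m : ℤ} (hx : Vl C p x m) : Vl C p x⁻¹ (-m) := by
  have hpc : (p : C) ≠ 0 := norm_pos_iff.1 hp0
  refine ⟨by rw [norm_inv, hx.1, zpow_neg], ?_⟩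
  have h1 : x⁻¹ * (p : C) ^ (-(-m)) = (x * (p : C) ^ (-m))⁻¹ := by
    rw [mul_inv, zpow_neg _ (-m)]
  rw [h1]
  refine Nr_inv hx.2 ?_
  rw [norm_mul, norm_zpow, hx.1, ← zpow_add₀ hp0.ne', add_neg_cancel, zpow_zero]

theorem Vl.one : Vl C p 1 0 :=
  ⟨by rw [norm_one, zpow_zero], by rw [neg_zero, zpow_zero, mul_one]; exact one_mem _⟩

theorem Vl.of_unit {x : C} (h1 : x ∈ Nr C p) (h2 : ‖x‖ = 1) : Vl C p x 0 :=
  ⟨by rw [h2, zpow_zero], by rw [neg_zero, zpow_zero, mul_one]; exact h1⟩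

theorem Vl.pow (hp0 : 0 < ‖(p : C)‖) {x : C} {m : ℤ} (hx : Vl C p x m) (n : ℕ) :
    Vl C p (x ^ n) (n * m) := by
  induction n with
  | zero =>
    rw [pow_zero, Nat.cast_zero, zero_mul]
    exact Vl.one
  | succ n ih =>
    rw [pow_succ]
    have := ih.mul hp0 hx
    rwa [show (n : ℤ) * m + m = ((n + 1 : ℕ) : ℤ) * m by push_cast; ring] at this

theorem Vl.prod (hp0 : 0 < ‖(p : C)‖) {ι : Type} (s : Finset ι) {x : ι → C} {m : ι → ℤ}
    (hx : ∀ i ∈ s, Vl C p (x i) (m i)) : Vl C p (∏ i ∈ s, x i) (∑ i ∈ s, m i) := by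
  classical
  induction s using Finset.induction_on with
  | empty =>
    rw [Finset.prod_empty, Finset.sum_empty]
    exact Vl.one
  | insert a s ha ih =>
    rw [Finset.prod_insert ha, Finset.sum_insert ha]
    exact (hx a (Finset.mem_insert_self a s)).mul hp0
      (ih fun i hi => hx i (Finset.mem_insert_of_mem hi))

theorem Vl.self (hp0 : 0 < ‖(p : C)‖) : Vl C p (p : C) 1 := by
  have hpc : (p : C) ≠ 0 := norm_pos_iff.1 hp0
  refine ⟨by rw [zpow_one], ?_⟩
  rw [zpow_neg_one, mul_inv_cancel₀ hpc]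
  exact one_mem _

theorem Vl.ne (hp0 : 0 < ‖(p : C)‖) {x : C} {m : ℤ} (hx : Vl C p x m) : x ≠ 0 :=
  norm_pos_iff.1 (by rw [hx.1]; exact zpow_pos hp0 _)

/-- integers -/
theorem Vl.int (hp0 : 0 < ‖(p : C)‖) (hp1 : ‖(p : C)‖ < 1) {z m : ℤ} {f : ℕ}
    (hm : ¬ (p : ℤ) ∣ m) (hz : z = (p : ℤ) ^ f * m) : Vl C p (z : C) f := by
  have h1 : Vl C p ((p : C) ^ f) (f * 1) := (Vl.self hp0).pow hp0 f
  have h2 : Vl C p (m : C) 0 := Vl.of_unit (intCast_mem _ _) (norm_int_one hp1 hm)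
  have h3 := h1.mul hp0 h2
  rw [mul_one, add_zero] at h3
  rw [hz]
  push_cast
  exact h3

end vl

/-- the factor `∏ h_i ^ (w_i)` -/
noncomputable def hprod {q K : ℕ} (h : Fin K → MvPolynomial (Fin q) ℤ) (w : Fin K → ℕ) :
    MvPolynomial (Fin q) QA :=
  ∏ i, MvPolynomial.map (Int.castRingHom QA) (h i) ^ w i

/-- The scaled member of the family: the points `x` with `b_j (u) x_j = a_j (u) y_j` and
`B_l (u) x_{n+l} = A_l (u) y_{n+l}`. -/
def mscaled {n k q : ℕ} {κ : Type}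
    (F : κ → MvPolynomial (Fin (n + k) × Bool) (MvPolynomial (Fin q) QA))
    (a b : Fin n → MvPolynomial (Fin q) QA) (A B : Fin k → MvPolynomial (Fin q) QA)
    (u : Fin q → QA) : Set (Fin (n + k) → ℂ) :=
  {x | ∃ y ∈ VF (mem' F u), (∀ j, rA (MvPolynomial.eval u (b j)) * x (Fin.castAdd k j) =
    rA (MvPolynomial.eval u (a j)) * y (Fin.castAdd k j)) ∧
    ∀ l, rA (MvPolynomial.eval u (B l)) * x (Fin.natAdd n l) =
      rA (MvPolynomial.eval u (A l)) * y (Fin.natAdd n l)}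

/-- The members at the good parameters. -/
theorem mix_fin (n k q K : ℕ) (κ : Type) [Finite κ] (d₀ : ℕ)
    (F : κ → MvPolynomial (Fin (n + k) × Bool) (MvPolynomial (Fin q) QA))
    (h : Fin K → MvPolynomial (Fin q) ℤ)
    (hprime : ∀ i, Prime (MvPolynomial.map (Int.castRingHom QA) (h i)))
    (hne : ∀ i j, i ≠ j → ¬ MvPolynomial.map (Int.castRingHom QA) (h i) ∣
      MvPolynomial.map (Int.castRingHom QA) (h j))
    (Ω : Fin K → Type) [∀ i, Field (Ω i)] [∀ i, IsAlgClosed (Ω i)] [∀ i, CharZero (Ω i)]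
    (e : ∀ i, MvPolynomial (Fin q) QA →+* Ω i)
    (he : ∀ i P, e i P = 0 ↔ MvPolynomial.map (Int.castRingHom QA) (h i) ∣ P)
    (halg : ∀ i, ∀ s : Ω i, ∃ P : Polynomial (MvPolynomial (Fin q) QA),
      (P.map (e i)).eval s = 0 ∧ e i P.leadingCoeff ≠ 0)
    (hF : ∀ i, GM d₀ (e i) F) (hK3 : 3 ≤ K) (hK : k * (k - 1) ≤ K)
    (a g : Fin n → MvPolynomial (Fin q) QA) (w : Fin K → Fin n → ℕ)
    (hw : ∀ i j, 0 < w i j)
    (ha : ∀ i j, ¬ MvPolynomial.map (Int.castRingHom QA) (h i) ∣ a j)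
    (hg : ∀ i j, ¬ MvPolynomial.map (Int.castRingHom QA) (h i) ∣ g j)
    (A B : Fin k → MvPolynomial (Fin q) QA)
    (hA : ∀ i l, ¬ MvPolynomial.map (Int.castRingHom QA) (h i) ∣ A l)
    (hB : ∀ i l, ¬ MvPolynomial.map (Int.castRingHom QA) (h i) ∣ B l)
    (c : Fin K → Fin k → ℤ) (hc : Indep c)
    (Γ : Set ℂ) (hΓ : Γ.Finite) (hΓa : ∀ γ ∈ Γ, ∃ c : QA, rA c = γ) (j0 : Fin K → Fin q) :
    ∃ ρ : ∀ i, MvPolynomial {j : Fin q // j ≠ j0 i} ℤ, (∀ i, ρ i ≠ 0) ∧ ∃ D : ℕ,
      ∀ u : Fin q → ℤ, (∀ i, Good (h i) (MvPolynomial.rename Subtype.val (ρ i)) D u) →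
      (∀ j, MvPolynomial.eval (fun l => ((u l : ℤ) : QA))
        (hprod h (fun i => w i j) * g j) ≠ 0) ∧
      (∀ l, MvPolynomial.eval (fun l => ((u l : ℤ) : QA))
        (hprod h (fun i => (-c i l).toNat) * B l) ≠ 0) ∧
      Concl Γ (mscaled F a (fun j => hprod h (fun i => w i j) * g j)
        (fun l => hprod h (fun i => (c i l).toNat) * A l)
        (fun l => hprod h (fun i => (-c i l).toNat) * B l) (fun l => ((u l : ℤ) : QA))) := by
  classical
  have hh0 : ∀ i, h i ≠ 0 := by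
    intro i h0
    apply (hprime i).ne_zero
    rw [h0, map_zero]
  set W : ℕ := (∑ i, ∑ j, w i j) + ∑ i, ∑ l, (c i l).natAbs with hW
  obtain ⟨W', hWW, hW1, hW'⟩ := exists_W K k W
  have hwW : ∀ i j, w i j ≤ W' := by
    intro i j
    have h1 : w i j ≤ ∑ j, w i j :=
      Finset.single_le_sum (f := fun j => w i j) (fun _ _ => Nat.zero_le _) (Finset.mem_univ j)
    have h2 : ∑ j, w i j ≤ ∑ i, ∑ j, w i j :=
      Finset.single_le_sum (f := fun i => ∑ j, w i j) (fun _ _ => Nat.zero_le _)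
        (Finset.mem_univ i)
    omega
  have hcW : ∀ i l, |c i l| ≤ W := by
    intro i l
    have h1 : (c i l).natAbs ≤ ∑ l, (c i l).natAbs :=
      Finset.single_le_sum (f := fun l => (c i l).natAbs) (fun _ _ => Nat.zero_le _)
        (Finset.mem_univ l)
    have h2 : ∑ l, (c i l).natAbs ≤ ∑ i, ∑ l, (c i l).natAbs :=
      Finset.single_le_sum (f := fun i => ∑ l, (c i l).natAbs) (fun _ _ => Nat.zero_le _)
        (Finset.mem_univ i)
    rw [Int.abs_eq_natAbs]
    exact_mod_cast (by omega : (c i l).natAbs ≤ W)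
  have hloc := fun i => gen_LB (n + k) q W' κ d₀ F (h i) (hh0 i) (Ω i) (e i)
    (fun P hP => (he i P).1 hP) (halg i) (hF i)
  choose N M d D B₁ Δ D₀ hΔ _ hLB using hloc
  have hnear := fun i => nearC (ι' := Option ((Fin n ⊕ Fin n) ⊕ (Fin k ⊕ Fin k)) ⊕
      {j : Fin K // j ≠ i}) (h i) (hprime i)
    (Sum.elim (fun x => x.elim (Δ i) (Sum.elim (Sum.elim a g) (Sum.elim A B)))
      (fun j => MvPolynomial.map (Int.castRingHom QA) (h j.1))) (by
      rintro ((_ | ((j | j) | (l | l))) | j)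
      · exact fun hd => hΔ i ((he i _).2 hd)
      · exact ha i j
      · exact hg i j
      · exact hA i l
      · exact hB i l
      · exact hne i j.1 j.2.symm) (j0 i)
  choose ρ hρ D₁ hnear using hnear
  choose Dn hDn using nr_large
  choose! cΓ hcΓ using hΓa
  refine ⟨ρ, hρ, (∑ i, (D₀ i + D₁ i)) + (hΓ.toFinset.image cΓ).sup Dn, ?_⟩
  intro u hu
  choose hu0 p hp hpD hpu hpρ using hu
  have hDi : ∀ i, D₀ i + D₁ i ≤ ∑ i, (D₀ i + D₁ i) := fun i =>
    Finset.single_le_sum (f := fun i => D₀ i + D₁ i) (fun _ _ => Nat.zero_le _)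
      (Finset.mem_univ i)
  set uQ : Fin q → QA := fun l => ((u l : ℤ) : QA) with huQ
  have hh1 : ∀ i, MvPolynomial.eval uQ (MvPolynomial.map (Int.castRingHom QA) (h i)) =
      ((MvPolynomial.eval u (h i) : ℤ) : QA) := fun i => eval_cast u (h i)
  have hfex : ∀ i, ∃ (f : ℕ) (m : ℤ), 0 < f ∧ ¬ (p i : ℤ) ∣ m ∧
      MvPolynomial.eval u (h i) = (p i : ℤ) ^ f * m := by
    intro i
    have hfin : FiniteMultiplicity (p i : ℤ) (MvPolynomial.eval u (h i)) :=
      Int.finiteMultiplicity_iff.2 ⟨by simpa using (hp i).one_lt.ne', hu0 i⟩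
    obtain ⟨m, hm1, hm2⟩ := hfin.exists_eq_pow_mul_and_not_dvd
    refine ⟨_, m, ?_, hm2, hm1⟩
    rcases Nat.eq_zero_or_pos (multiplicity (p i : ℤ) (MvPolynomial.eval u (h i))) with h0 | h0
    · rw [h0, pow_zero, one_mul] at hm1
      have h2 := hpu i
      rw [hm1] at h2
      exact absurd h2 hm2
    · exact h0
  choose f m hf hm hfm using hfex
  let lam : Fin n → QA := fun j => MvPolynomial.eval uQ (a j) /
    MvPolynomial.eval uQ (hprod h (fun i => w i j) * g j)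
  let nu : Fin k → QA := fun l => MvPolynomial.eval uQ (hprod h (fun i => (c i l).toNat) * A l) /
    MvPolynomial.eval uQ (hprod h (fun i => (-c i l).toNat) * B l)
  have key : ∀ i, (∀ j, MvPolynomial.eval uQ (a j) ≠ 0 ∧
      MvPolynomial.eval uQ (hprod h (fun i => w i j) * g j) ≠ 0) ∧
      (∀ l, MvPolynomial.eval uQ (hprod h (fun i => (c i l).toNat) * A l) ≠ 0 ∧
        MvPolynomial.eval uQ (hprod h (fun i => (-c i l).toNat) * B l) ≠ 0) ∧
      (∀ j, j ≠ i → p j ≠ p i) ∧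
      Gen (mem' F uQ) ∧ Nonempty (PK (fun P => ∀ t, MvPolynomial.eval (chv none P)
        (mem' F uQ t) = 0) Γ W' (p i)
        (Fin.append lam (fun _ => (((p i : ℕ) : QA) ^ f i)⁻¹)) (Fin.append (fun _ => 1) nu)
        (Fin.append (fun _ => 0) fun l => (f i : ℤ) * c i l)) := by
    intro i
    have : Fact (p i).Prime := ⟨hp i⟩
    obtain ⟨C, _, _, _, _, _, k', _, _, _, red, 𝕜, _, _, _, ρ', ι, φ, hp0, hp1, hker, hρs, hι⟩ :=
      exists_local (p i)
    have hD' := hDi i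
    have hpD' := hpD i
    have hn := hnear i (p i) (by omega) C φ hp1 u (hpu i) (hpρ i)
    have hΔ1 := hn (Sum.inl none)
    have ha1 := fun j => hn (Sum.inl (some (Sum.inl (Sum.inl j))))
    have hg1 := fun j => hn (Sum.inl (some (Sum.inl (Sum.inr j))))
    have hA1 := fun l => hn (Sum.inl (some (Sum.inr (Sum.inl l))))
    have hB1 := fun l => hn (Sum.inl (some (Sum.inr (Sum.inr l))))
    have hh2 := fun j : {j : Fin K // j ≠ i} => hn (Sum.inr j)
    simp only [Option.elim, Sum.elim_inl, Sum.elim_inr] at hΔ1 ha1 hg1 hA1 hB1 hh2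
    -- the values
    have va : ∀ j, Vl C (p i) (φ (MvPolynomial.eval uQ (a j))) 0 := fun j =>
      Vl.of_unit (ha1 j).1 (ha1 j).2
    have vg : ∀ j, Vl C (p i) (φ (MvPolynomial.eval uQ (g j))) 0 := fun j =>
      Vl.of_unit (hg1 j).1 (hg1 j).2
    have vA : ∀ l, Vl C (p i) (φ (MvPolynomial.eval uQ (A l))) 0 := fun l =>
      Vl.of_unit (hA1 l).1 (hA1 l).2
    have vB : ∀ l, Vl C (p i) (φ (MvPolynomial.eval uQ (B l))) 0 := fun l =>
      Vl.of_unit (hB1 l).1 (hB1 l).2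
    have vh : ∀ i', Vl C (p i) (φ (MvPolynomial.eval uQ
        (MvPolynomial.map (Int.castRingHom QA) (h i')))) (if i' = i then (f i : ℤ) else 0) := by
      intro i'
      split_ifs with hi
      · subst hi
        rw [hh1, map_intCast]
        exact Vl.int hp0 hp1 (hm _) (hfm _)
      · exact Vl.of_unit (hh2 ⟨i', hi⟩).1 (hh2 ⟨i', hi⟩).2
    have vprod : ∀ w' : Fin K → ℕ, Vl C (p i) (φ (MvPolynomial.eval uQ (hprod h w')))
        (w' i * f i) := by
      intro w'
      have h1 : φ (MvPolynomial.eval uQ (hprod h w')) = ∏ i', φ (MvPolynomial.eval uQ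
          (MvPolynomial.map (Int.castRingHom QA) (h i'))) ^ w' i' := by
        unfold hprod
        simp only [map_prod, map_pow]
      rw [h1]
      have h2 := Vl.prod hp0 Finset.univ fun i' _ => (vh i').pow hp0 (w' i')
      have h3 : ∑ i', (w' i' : ℤ) * (if i' = i then (f i : ℤ) else 0) = w' i * f i := by
        simp
      rw [h3] at h2
      exact h2
    have vlam : ∀ j, Vl C (p i) (φ (lam j)) (-((w i j * f i : ℕ) : ℤ)) := by
      intro j
      have h1 := (va j).mul hp0 (((vprod (fun i => w i j)).mul hp0 (vg j)).inv hp0)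
      have h2 : φ (lam j) = φ (MvPolynomial.eval uQ (a j)) *
          (φ (MvPolynomial.eval uQ (hprod h fun i => w i j)) *
            φ (MvPolynomial.eval uQ (g j)))⁻¹ := by
        show φ (MvPolynomial.eval uQ (a j) / MvPolynomial.eval uQ
          (hprod h (fun i => w i j) * g j)) = _
        rw [map_div₀, map_mul (MvPolynomial.eval uQ), map_mul φ, div_eq_mul_inv]
      rw [h2]
      convert h1 using 1
      push_cast
      ring
    have vnu : ∀ l, Vl C (p i) (φ (nu l)) ((f i : ℤ) * c i l) := by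
      intro l
      have h1 := ((vprod (fun i => (c i l).toNat)).mul hp0 (vA l)).mul hp0
        (((vprod (fun i => (-c i l).toNat)).mul hp0 (vB l)).inv hp0)
      have h2 : φ (nu l) = (φ (MvPolynomial.eval uQ (hprod h fun i => (c i l).toNat)) *
          φ (MvPolynomial.eval uQ (A l))) *
          (φ (MvPolynomial.eval uQ (hprod h fun i => (-c i l).toNat)) *
            φ (MvPolynomial.eval uQ (B l)))⁻¹ := by
        show φ (MvPolynomial.eval uQ (hprod h (fun i => (c i l).toNat) * A l) /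
          MvPolynomial.eval uQ (hprod h (fun i => (-c i l).toNat) * B l)) = _
        rw [map_div₀, map_mul (MvPolynomial.eval uQ), map_mul φ,
          map_mul (MvPolynomial.eval uQ) (hprod h (fun i => (-c i l).toNat)), map_mul φ,
          div_eq_mul_inv]
      rw [h2]
      convert h1 using 1
      have h3 : (((c i l).toNat : ℕ) : ℤ) - (((-c i l).toNat : ℕ) : ℤ) = c i l := by omega
      calc (f i : ℤ) * c i l = (f i : ℤ) * ((((c i l).toNat : ℕ) : ℤ) -
            (((-c i l).toNat : ℕ) : ℤ)) := by rw [h3]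
        _ = _ := by ring
    -- the local data
    have hpc : (((p i : ℕ) : C)) ≠ 0 := norm_pos_iff.1 hp0
    have vpe : Vl C (p i) (φ ((((p i : ℕ) : QA) ^ f i)⁻¹)) (-((1 * f i : ℕ) : ℤ)) := by
      have h1 := ((Vl.self hp0).pow hp0 (f i)).inv hp0
      rw [map_inv₀, map_pow, map_natCast]
      convert h1 using 1
      push_cast
      ring
    have hcond : ∀ x : C, ∀ w' : ℕ, Vl C (p i) x (-((w' * f i : ℕ) : ℤ)) →
        ‖x‖ = ‖((p i : ℕ) : C)‖ ^ (-((w' * f i : ℕ) : ℤ)) ∧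
        x * ((p i : ℕ) : C) ^ (w' * f i) ∈ Nr C (p i) := by
      intro x w' hx
      refine ⟨hx.1, ?_⟩
      have h1 := hx.2
      rw [neg_neg, zpow_natCast] at h1
      exact h1
    obtain ⟨hgen, 𝓛, h𝓛φ, h𝓛Λ, hpt⟩ := hLB i (p i) (by omega) C k' red 𝕜 ρ' ι φ hp0 hp1 hker
      hρs hι u (by
        rw [hh1, map_intCast]
        exact norm_int_lt hp1 (hpu i))
      hΔ1.2 (Fin.append lam (fun _ => (((p i : ℕ) : QA) ^ f i)⁻¹)) (f i)
      (Fin.append (w i) (fun _ => 1)) (hf i) (by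
        intro x
        refine Fin.addCases (motive := fun x => 0 < (Fin.append (w i) (fun _ => 1) :
          Fin (n + k) → ℕ) x ∧ (Fin.append (w i) (fun _ => 1) : Fin (n + k) → ℕ) x ≤ W' ∧
          ‖φ ((Fin.append lam (fun _ => (((p i : ℕ) : QA) ^ f i)⁻¹) : Fin (n + k) → QA) x)‖ =
            ‖((p i : ℕ) : C)‖ ^ (-(((Fin.append (w i) (fun _ => 1) : Fin (n + k) → ℕ) x * f i :
              ℕ) : ℤ)) ∧
          φ ((Fin.append lam (fun _ => (((p i : ℕ) : QA) ^ f i)⁻¹) : Fin (n + k) → QA) x) *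
            ((p i : ℕ) : C) ^ ((Fin.append (w i) (fun _ => 1) : Fin (n + k) → ℕ) x * f i) ∈
            Nr C (p i)) ?_ ?_ x
        · intro j
          rw [Fin.append_left, Fin.append_left]
          exact ⟨hw i j, hwW i j, hcond _ _ (vlam j)⟩
        · intro l
          rw [Fin.append_right, Fin.append_right]
          exact ⟨one_pos, hW1, hcond _ _ vpe⟩)
    refine ⟨fun j => ⟨?_, ?_⟩, fun l => ⟨?_, ?_⟩, ?_, hgen, ?_⟩
    · exact fun h0 => (va j).ne hp0 (by rw [h0, map_zero])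
    · intro h0
      apply ((vprod (fun i => w i j)).mul hp0 (vg j)).ne hp0
      rw [← map_mul, ← map_mul, h0, map_zero]
    · intro h0
      apply ((vprod (fun i => (c i l).toNat)).mul hp0 (vA l)).ne hp0
      rw [← map_mul, ← map_mul, h0, map_zero]
    · intro h0
      apply ((vprod (fun i => (-c i l).toNat)).mul hp0 (vB l)).ne hp0
      rw [← map_mul, ← map_mul, h0, map_zero]
    · intro j hj hpj
      have h1 := (hh2 ⟨j, hj⟩).2
      rw [hh1, map_intCast] at h1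
      have h2 : ‖((MvPolynomial.eval u (h j) : ℤ) : C)‖ < 1 :=
        norm_int_lt hp1 (hpj ▸ hpu j)
      exact h2.ne h1
    · refine pk_all C (p i) k' 𝕜 (n + k) (N i) W' (M i) (d i) (D i) (B₁ i) 𝓛 _ ?_ _ _ _ ?_ ?_ Γ
        ?_
      · intro s hs
        have := hpt s hs
        simpa only [h𝓛φ] using this
      · intro x
        rw [h𝓛φ, h𝓛Λ]
      · intro x
        rw [h𝓛φ]
        refine Fin.addCases (motive := fun x => ∃ u : Cˣ, (u : C) =
          φ ((Fin.append (fun _ => 1) nu : Fin (n + k) → QA) x) ∧ u * 𝓛.pu ^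
            (-(Fin.append (fun _ => 0) (fun l => (f i : ℤ) * c i l) : Fin (n + k) → ℤ) x) ∈
            GG C (p i) 0 le_rfl one_pos) ?_ ?_ x
        · intro j
          rw [Fin.append_left, Fin.append_left]
          refine nu_unit hp0 0 (by rw [map_one, norm_one, zpow_zero]) ?_ 𝓛.hpu
          rw [map_one, one_mul, neg_zero, zpow_zero]
          exact one_mem _
        · intro l
          rw [Fin.append_right, Fin.append_right]
          exact nu_unit hp0 _ (vnu l).1 (vnu l).2 𝓛.hpu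
      · intro γ hγ
        refine ⟨cΓ γ, hcΓ γ hγ, ?_⟩
        rw [h𝓛φ]
        have h1 : Dn (cΓ γ) ≤ (hΓ.toFinset.image cΓ).sup Dn :=
          Finset.le_sup (Finset.mem_image_of_mem _ (hΓ.mem_toFinset.2 hγ))
        exact Nr_le (hDn (cΓ γ) (p i) (by omega) C φ hp1)
  have hi₀ : 0 < K := by omega
  have hinj : Function.Injective p := by
    intro i j hij
    by_contra hne'
    exact (key j).2.2.1 i hne' hij
  have hfin := mixx_all n k K κ (mem' F uQ) (key ⟨0, hi₀⟩).2.2.2.1 Γ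
    (fun γ hγ => ⟨cΓ γ, hcΓ γ hγ⟩) W' p lam nu (fun i _ => (((p i : ℕ) : QA) ^ f i)⁻¹)
    (fun j => div_ne_zero ((key ⟨0, hi₀⟩).1 j).1 ((key ⟨0, hi₀⟩).1 j).2)
    (fun l => div_ne_zero ((key ⟨0, hi₀⟩).2.1 l).1 ((key ⟨0, hi₀⟩).2.1 l).2)
    (fun i _ => inv_ne_zero (pow_ne_zero _ (Nat.cast_ne_zero.2 (hp i).ne_zero))) hK3 hK c hc
    (hW' c hcW) hp hinj f hf fun i => (key i).2.2.2.2
  have hset : ∀ x : Fin (n + k) → ℂ, x ∈ mscaled F a (fun j => hprod h (fun i => w i j) * g j)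
        (fun l => hprod h (fun i => (c i l).toNat) * A l)
        (fun l => hprod h (fun i => (-c i l).toNat) * B l) uQ →
      ∃ y ∈ VF (mem' F uQ), (∀ j, x (Fin.castAdd k j) = rA (lam j) * y (Fin.castAdd k j)) ∧
        ∀ l, x (Fin.natAdd n l) = rA (nu l) * y (Fin.natAdd n l) := by
    rintro x ⟨y, hy, h1, h2⟩
    refine ⟨y, hy, fun j => ?_, fun l => ?_⟩
    · have hb : rA (MvPolynomial.eval uQ (hprod h (fun i => w i j) * g j)) ≠ 0 := fun h0 =>
        ((key ⟨0, hi₀⟩).1 j).2 ((map_eq_zero rA).1 h0)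
      show x (Fin.castAdd k j) = rA (MvPolynomial.eval uQ (a j) / MvPolynomial.eval uQ
        (hprod h (fun i => w i j) * g j)) * y (Fin.castAdd k j)
      rw [map_div₀, div_mul_eq_mul_div, eq_div_iff hb, mul_comm (x (Fin.castAdd k j))]
      exact h1 j
    · have hb : rA (MvPolynomial.eval uQ (hprod h (fun i => (-c i l).toNat) * B l)) ≠ 0 :=
        fun h0 => ((key ⟨0, hi₀⟩).2.1 l).2 ((map_eq_zero rA).1 h0)
      show x (Fin.natAdd n l) = rA (MvPolynomial.eval uQ (hprod h (fun i => (c i l).toNat) * A l) /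
        MvPolynomial.eval uQ (hprod h (fun i => (-c i l).toNat) * B l)) * y (Fin.natAdd n l)
      rw [map_div₀, div_mul_eq_mul_div, eq_div_iff hb, mul_comm (x (Fin.natAdd n l))]
      exact h2 l
  refine ⟨fun j => ((key ⟨0, hi₀⟩).1 j).2, fun l => ((key ⟨0, hi₀⟩).2.1 l).2,
    hfin.1.subset ?_, fun r Z M' η hη hr => (hfin.2 r Z M' η hη hr).subset ?_⟩
  · rintro x ⟨hx, h1⟩
    exact ⟨hset x hx, h1⟩
  · rintro x ⟨hx, h1⟩
    exact ⟨hset x hx, h1⟩

end Pool.Agent.X295
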