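import Pool.Agent.X295.GenMix
import Pool.Agent.X295.GenMainK

/-!
Families of curves in `Y(1)^n × G_m^k` whose generic members over several hypersurfaces of the space
of parameters, defined over the algebraic numbers, are curves in general position: the main theorem
(helper file).
-/

set_option autoImplicit false
set_option linter.unusedSectionVars false

open UpperHalfPlane H294ZP Polynomial

namespace Pool.Agent.X295

open Pool.Agent.Y226 Pool.Agent.Y226.ZG Pool.Agent.Y226.ZM Pool.Agent.Y226.ZU Pool.Agent.Y92.ZX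
open Pool.Agent.Y108.ZX (lift1 lift2 lift3 sub_inj map_inj map2_inj map_bh bezout noCommon)

/-- the factor `∏ h_i ^ (w_i)` -/
noncomputable def hprodK {q K : ℕ} (h : Fin K → MvPolynomial (Fin q) QA) (w : Fin K → ℕ) :
    MvPolynomial (Fin q) QA :=
  ∏ i, h i ^ w i

/-- The members at the good parameters. -/
theorem mix_finK (n k q K : ℕ) (κ : Type) [Finite κ] (d₀ : ℕ)
    (F : κ → MvPolynomial (Fin (n + k) × Bool) (MvPolynomial (Fin q) QA))
    (h : Fin K → MvPolynomial (Fin q) QA)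
    (hprime : ∀ i, Prime (h i))
    (Ω : Fin K → Type) [∀ i, Field (Ω i)] [∀ i, IsAlgClosed (Ω i)] [∀ i, CharZero (Ω i)]
    (e : ∀ i, MvPolynomial (Fin q) QA →+* Ω i)
    (he : ∀ i P, e i P = 0 ↔ h i ∣ P)
    (halg : ∀ i, ∀ s : Ω i, ∃ P : Polynomial (MvPolynomial (Fin q) QA),
      (P.map (e i)).eval s = 0 ∧ e i P.leadingCoeff ≠ 0)
    (hF : ∀ i, GM d₀ (e i) F) (hK3 : 3 ≤ K) (hK : k * (k - 1) ≤ K)
    (a g : Fin n → MvPolynomial (Fin q) QA) (w : Fin K → Fin n → ℕ)
    (hw : ∀ i j, 0 < w i j)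
    (ha : ∀ i j, ¬ h i ∣ a j)
    (hg : ∀ i j, ¬ h i ∣ g j)
    (A B : Fin k → MvPolynomial (Fin q) QA)
    (hA : ∀ i l, ¬ h i ∣ A l)
    (hB : ∀ i l, ¬ h i ∣ B l)
    (c : Fin K → Fin k → ℤ) (hc : Indep c)
    (Γ : Set ℂ) (hΓ : Γ.Finite) (hΓa : ∀ γ ∈ Γ, ∃ c : QA, rA c = γ) (j0 : Fin K → Fin q)
    (Nm : Fin K → MvPolynomial (Fin q) ℤ) (DN : Fin K → ℕ) (hNm0 : ∀ i, Nm i ≠ 0)
    (hNm : ∀ i, h i ∣ MvPolynomial.map (Int.castRingHom QA) (Nm i))
    (hplace : ∀ i, ∀ (p : ℕ) [Fact p.Prime], DN i < p → ∀ (C : Type) [NormedField C]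
      [IsUltrametricDist C] (φ : QA →+* C), ‖(p : C)‖ < 1 → ∀ u : Fin q → ℤ,
      (p : ℤ) ∣ MvPolynomial.eval u (Nm i) →
      ∃ σ : QA →+* QA, ‖φ (σ (MvPolynomial.eval (fun l => ((u l : ℤ) : QA)) (h i)))‖ < 1)
    (hne : ∀ i j, i ≠ j → ¬ h i ∣ MvPolynomial.map (Int.castRingHom QA) (Nm j)) :
    ∃ ρ : ∀ i, MvPolynomial {j : Fin q // j ≠ j0 i} ℤ, (∀ i, ρ i ≠ 0) ∧ ∃ D : ℕ,
      ∀ u : Fin q → ℤ, (∀ i, Good (Nm i) (MvPolynomial.rename Subtype.val (ρ i)) D u) →
      (∀ j, MvPolynomial.eval (fun l => ((u l : ℤ) : QA))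
        (hprodK h (fun i => w i j) * g j) ≠ 0) ∧
      (∀ l, MvPolynomial.eval (fun l => ((u l : ℤ) : QA))
        (hprodK h (fun i => (-c i l).toNat) * B l) ≠ 0) ∧
      Concl Γ (mscaled F a (fun j => hprodK h (fun i => w i j) * g j)
        (fun l => hprodK h (fun i => (c i l).toNat) * A l)
        (fun l => hprodK h (fun i => (-c i l).toNat) * B l) (fun l => ((u l : ℤ) : QA))) := by
  classical
  have hh0 : ∀ i, h i ≠ 0 := fun i => (hprime i).ne_zero
  choose DO hDO using fun i => order_large (h i).coeffs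
  set W : ℕ := (∑ i, ∑ j, w i j) + ∑ i, ∑ l, (c i l).natAbs with hW
  obtain ⟨W', hWW, hW1, hW'⟩ := exists_W K k W
  have hwW : ∀ i j, w i j ≤ W' := by
    intro i j
    have h1 : w i j ≤ ∑ j, w i j :=
      Finset.single_le_sum (f := fun j => w i j) (fun _ _ => Nat.zero_le _) (Finset.mem_univ j)
    have h2 : ∑ j, w i j ≤ ∑ i, ∑ j, w i j :=
      Finset.single_le_sum (f := fun i => ∑ j, w i j) (fun _ _ => Nat.zero_le _)
        (Finset.mem_univ i)
    omega
  have hcW : ∀ i l, |c i l| ≤ W := by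
    intro i l
    have h1 : (c i l).natAbs ≤ ∑ l, (c i l).natAbs :=
      Finset.single_le_sum (f := fun l => (c i l).natAbs) (fun _ _ => Nat.zero_le _)
        (Finset.mem_univ l)
    have h2 : ∑ l, (c i l).natAbs ≤ ∑ i, ∑ l, (c i l).natAbs :=
      Finset.single_le_sum (f := fun i => ∑ l, (c i l).natAbs) (fun _ _ => Nat.zero_le _)
        (Finset.mem_univ i)
    rw [Int.abs_eq_natAbs]
    exact_mod_cast (by omega : (c i l).natAbs ≤ W)
  have hloc := fun i => gen_LBK (n + k) q W' κ d₀ F (h i) (hh0 i) (Ω i) (e i)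
    (fun P hP => (he i P).1 hP) (halg i) (hF i)
  choose N M d D B₁ Δ D₀ hΔ _ hLB using hloc
  have hnear := fun i => nearQ (ι' := Option ((Fin n ⊕ Fin n) ⊕ (Fin k ⊕ Fin k)) ⊕
      ({j : Fin K // j ≠ i} ⊕ {j : Fin K // j ≠ i})) (h i) (hprime i) (Nm i) (hNm0 i) (hNm i)
    (Sum.elim (fun x => x.elim (Δ i) (Sum.elim (Sum.elim a g) (Sum.elim A B)))
      (Sum.elim (fun j => h j.1)
        (fun j => MvPolynomial.map (Int.castRingHom QA) (Nm j.1)))) (by
      rintro ((_ | ((j | j) | (l | l))) | (j | j))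
      · exact fun hd => hΔ i ((he i _).2 hd)
      · exact ha i j
      · exact hg i j
      · exact hA i l
      · exact hB i l
      · exact fun hd => hne i j.1 j.2.symm (hd.trans (hNm j.1))
      · exact hne i j.1 j.2.symm) (j0 i)
  choose ρ hρ D₁ hnear using hnear
  choose Dn hDn using nr_large
  choose! cΓ hcΓ using hΓa
  refine ⟨ρ, hρ, (∑ i, (D₀ i + D₁ i + DN i + DO i)) + (hΓ.toFinset.image cΓ).sup Dn, ?_⟩
  intro u hu
  choose hu0 p hp hpD hpu hpρ using hu
  have hDi : ∀ i, D₀ i + D₁ i + DN i + DO i ≤ ∑ i, (D₀ i + D₁ i + DN i + DO i) := fun i =>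
    Finset.single_le_sum (f := fun i => D₀ i + D₁ i + DN i + DO i) (fun _ _ => Nat.zero_le _)
      (Finset.mem_univ i)
  set uQ : Fin q → QA := fun l => ((u l : ℤ) : QA) with huQ
  let lam : Fin n → QA := fun j => MvPolynomial.eval uQ (a j) /
    MvPolynomial.eval uQ (hprodK h (fun i => w i j) * g j)
  let nu : Fin k → QA := fun l => MvPolynomial.eval uQ (hprodK h (fun i => (c i l).toNat) * A l) /
    MvPolynomial.eval uQ (hprodK h (fun i => (-c i l).toNat) * B l)
  have key : ∀ i, (∀ j, MvPolynomial.eval uQ (a j) ≠ 0 ∧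
      MvPolynomial.eval uQ (hprodK h (fun i => w i j) * g j) ≠ 0) ∧
      (∀ l, MvPolynomial.eval uQ (hprodK h (fun i => (c i l).toNat) * A l) ≠ 0 ∧
        MvPolynomial.eval uQ (hprodK h (fun i => (-c i l).toNat) * B l) ≠ 0) ∧
      (∀ j, j ≠ i → p j ≠ p i) ∧
      Gen (mem' F uQ) ∧ ∃ f : ℕ, 0 < f ∧ Nonempty (PK (fun P => ∀ t, MvPolynomial.eval (chv none P)
        (mem' F uQ t) = 0) Γ W' (p i)
        (Fin.append lam (fun _ => (((p i : ℕ) : QA) ^ f)⁻¹)) (Fin.append (fun _ => 1) nu)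
        (Fin.append (fun _ => 0) fun l => (f : ℤ) * c i l)) := by
    intro i
    have : Fact (p i).Prime := ⟨hp i⟩
    obtain ⟨C, _, _, _, _, _, k', _, _, _, red, 𝕜, _, _, _, ρ', ι, φ0, hp0, hp1, hker, hρs, hι⟩ :=
      exists_local (p i)
    have hD' := hDi i
    have hpD' := hpD i
    obtain ⟨σ, hσ⟩ := hplace i (p i) (by omega) C φ0 hp1 u (hpu i)
    set φ : QA →+* C := φ0.comp σ with hφ
    have hsmall : ‖φ (MvPolynomial.eval uQ (h i))‖ < 1 := hσ
    have hn := hnear i (p i) (by omega) C φ hp1 u hsmall (hpρ i)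
    -- the order of `h_i (u)`
    have hhu0 : MvPolynomial.eval uQ (h i) ≠ 0 := by
      intro h0
      have h5 := map_dvd (MvPolynomial.eval uQ) (hNm i)
      rw [h0, zero_dvd_iff, eval_cast] at h5
      exact hu0 i (by exact_mod_cast h5)
    have hmemc : MvPolynomial.eval uQ (h i) ∈ Subring.closure ((h i).coeffs : Set QA) := by
      rw [MvPolynomial.eval_eq']
      refine Subring.sum_mem _ fun m hm => Subring.mul_mem _ (Subring.subset_closure
        (MvPolynomial.coeff_mem_coeffs m (MvPolynomial.mem_support_iff.1 hm)))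
        (Subring.prod_mem _ fun i _ => Subring.pow_mem _ (intCast_mem _ _) _)
    obtain ⟨f, m, hmN, hm1, hhC⟩ := hDO i (p i) (by omega) C φ hp0 hp1 _ hmemc hhu0
    have hf : 0 < f := by
      rcases Nat.eq_zero_or_pos f with h0 | h0
      · rw [h0, pow_zero, one_mul] at hhC
        rw [hhC, hm1] at hsmall
        exact absurd hsmall (lt_irrefl _)
      · exact h0
    have hΔ1 := hn (Sum.inl none)
    have ha1 := fun j => hn (Sum.inl (some (Sum.inl (Sum.inl j))))
    have hg1 := fun j => hn (Sum.inl (some (Sum.inl (Sum.inr j))))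
    have hA1 := fun l => hn (Sum.inl (some (Sum.inr (Sum.inl l))))
    have hB1 := fun l => hn (Sum.inl (some (Sum.inr (Sum.inr l))))
    have hh2 := fun j : {j : Fin K // j ≠ i} => hn (Sum.inr (Sum.inl j))
    have hh3 := fun j : {j : Fin K // j ≠ i} => hn (Sum.inr (Sum.inr j))
    simp only [Option.elim, Sum.elim_inl, Sum.elim_inr] at hΔ1 ha1 hg1 hA1 hB1 hh2 hh3
    -- the values
    have va : ∀ j, Vl C (p i) (φ (MvPolynomial.eval uQ (a j))) 0 := fun j =>
      Vl.of_unit (ha1 j).1 (ha1 j).2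
    have vg : ∀ j, Vl C (p i) (φ (MvPolynomial.eval uQ (g j))) 0 := fun j =>
      Vl.of_unit (hg1 j).1 (hg1 j).2
    have vA : ∀ l, Vl C (p i) (φ (MvPolynomial.eval uQ (A l))) 0 := fun l =>
      Vl.of_unit (hA1 l).1 (hA1 l).2
    have vB : ∀ l, Vl C (p i) (φ (MvPolynomial.eval uQ (B l))) 0 := fun l =>
      Vl.of_unit (hB1 l).1 (hB1 l).2
    have vh : ∀ i', Vl C (p i) (φ (MvPolynomial.eval uQ (h i')))
        (if i' = i then (f : ℤ) else 0) := by
      intro i'
      split_ifs with hi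
      · subst hi
        rw [hhC]
        have h1 := ((Vl.self hp0).pow hp0 f).mul hp0 (Vl.of_unit hmN hm1)
        rwa [mul_one, add_zero] at h1
      · exact Vl.of_unit (hh2 ⟨i', hi⟩).1 (hh2 ⟨i', hi⟩).2
    have vprod : ∀ w' : Fin K → ℕ, Vl C (p i) (φ (MvPolynomial.eval uQ (hprodK h w')))
        (w' i * f) := by
      intro w'
      have h1 : φ (MvPolynomial.eval uQ (hprodK h w')) = ∏ i', φ (MvPolynomial.eval uQ (h i')) ^ w' i' := by
        unfold hprodK
        simp only [map_prod, map_pow]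
      rw [h1]
      have h2 := Vl.prod hp0 Finset.univ fun i' _ => (vh i').pow hp0 (w' i')
      have h3 : ∑ i', (w' i' : ℤ) * (if i' = i then (f : ℤ) else 0) = w' i * f := by
        simp
      rw [h3] at h2
      exact h2
    have vlam : ∀ j, Vl C (p i) (φ (lam j)) (-((w i j * f : ℕ) : ℤ)) := by
      intro j
      have h1 := (va j).mul hp0 (((vprod (fun i => w i j)).mul hp0 (vg j)).inv hp0)
      have h2 : φ (lam j) = φ (MvPolynomial.eval uQ (a j)) *
          (φ (MvPolynomial.eval uQ (hprodK h fun i => w i j)) *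
            φ (MvPolynomial.eval uQ (g j)))⁻¹ := by
        show φ (MvPolynomial.eval uQ (a j) / MvPolynomial.eval uQ
          (hprodK h (fun i => w i j) * g j)) = _
        rw [map_div₀, map_mul (MvPolynomial.eval uQ), map_mul φ, div_eq_mul_inv]
      rw [h2]
      convert h1 using 1
      push_cast
      ring
    have vnu : ∀ l, Vl C (p i) (φ (nu l)) ((f : ℤ) * c i l) := by
      intro l
      have h1 := ((vprod (fun i => (c i l).toNat)).mul hp0 (vA l)).mul hp0
        (((vprod (fun i => (-c i l).toNat)).mul hp0 (vB l)).inv hp0)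
      have h2 : φ (nu l) = (φ (MvPolynomial.eval uQ (hprodK h fun i => (c i l).toNat)) *
          φ (MvPolynomial.eval uQ (A l))) *
          (φ (MvPolynomial.eval uQ (hprodK h fun i => (-c i l).toNat)) *
            φ (MvPolynomial.eval uQ (B l)))⁻¹ := by
        show φ (MvPolynomial.eval uQ (hprodK h (fun i => (c i l).toNat) * A l) /
          MvPolynomial.eval uQ (hprodK h (fun i => (-c i l).toNat) * B l)) = _
        rw [map_div₀, map_mul (MvPolynomial.eval uQ), map_mul φ,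
          map_mul (MvPolynomial.eval uQ) (hprodK h (fun i => (-c i l).toNat)), map_mul φ,
          div_eq_mul_inv]
      rw [h2]
      convert h1 using 1
      have h3 : (((c i l).toNat : ℕ) : ℤ) - (((-c i l).toNat : ℕ) : ℤ) = c i l := by omega
      calc (f : ℤ) * c i l = (f : ℤ) * ((((c i l).toNat : ℕ) : ℤ) -
            (((-c i l).toNat : ℕ) : ℤ)) := by rw [h3]
        _ = _ := by ring
    -- the local data
    have hpc : (((p i : ℕ) : C)) ≠ 0 := norm_pos_iff.1 hp0
    have vpe : Vl C (p i) (φ ((((p i : ℕ) : QA) ^ f)⁻¹)) (-((1 * f : ℕ) : ℤ)) := by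
      have h1 := ((Vl.self hp0).pow hp0 f).inv hp0
      rw [map_inv₀, map_pow, map_natCast]
      convert h1 using 1
      push_cast
      ring
    have hcond : ∀ x : C, ∀ w' : ℕ, Vl C (p i) x (-((w' * f : ℕ) : ℤ)) →
        ‖x‖ = ‖((p i : ℕ) : C)‖ ^ (-((w' * f : ℕ) : ℤ)) ∧
        x * ((p i : ℕ) : C) ^ (w' * f) ∈ Nr C (p i) := by
      intro x w' hx
      refine ⟨hx.1, ?_⟩
      have h1 := hx.2
      rw [neg_neg, zpow_natCast] at h1
      exact h1
    obtain ⟨hgen, 𝓛, h𝓛φ, h𝓛Λ, hpt⟩ := hLB i (p i) (by omega) C k' red 𝕜 ρ' ι φ hp0 hp1 hker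
      hρs hι u hsmall
      hΔ1.2 (Fin.append lam (fun _ => (((p i : ℕ) : QA) ^ f)⁻¹)) f
      (Fin.append (w i) (fun _ => 1)) hf (by
        intro x
        refine Fin.addCases (motive := fun x => 0 < (Fin.append (w i) (fun _ => 1) :
          Fin (n + k) → ℕ) x ∧ (Fin.append (w i) (fun _ => 1) : Fin (n + k) → ℕ) x ≤ W' ∧
          ‖φ ((Fin.append lam (fun _ => (((p i : ℕ) : QA) ^ f)⁻¹) : Fin (n + k) → QA) x)‖ =
            ‖((p i : ℕ) : C)‖ ^ (-(((Fin.append (w i) (fun _ => 1) : Fin (n + k) → ℕ) x * f :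
              ℕ) : ℤ)) ∧
          φ ((Fin.append lam (fun _ => (((p i : ℕ) : QA) ^ f)⁻¹) : Fin (n + k) → QA) x) *
            ((p i : ℕ) : C) ^ ((Fin.append (w i) (fun _ => 1) : Fin (n + k) → ℕ) x * f) ∈
            Nr C (p i)) ?_ ?_ x
        · intro j
          rw [Fin.append_left, Fin.append_left]
          exact ⟨hw i j, hwW i j, hcond _ _ (vlam j)⟩
        · intro l
          rw [Fin.append_right, Fin.append_right]
          exact ⟨one_pos, hW1, hcond _ _ vpe⟩)
    refine ⟨fun j => ⟨?_, ?_⟩, fun l => ⟨?_, ?_⟩, ?_, hgen, f, hf, ?_⟩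
    · exact fun h0 => (va j).ne hp0 (by rw [h0, map_zero])
    · intro h0
      apply ((vprod (fun i => w i j)).mul hp0 (vg j)).ne hp0
      rw [← map_mul, ← map_mul, h0, map_zero]
    · intro h0
      apply ((vprod (fun i => (c i l).toNat)).mul hp0 (vA l)).ne hp0
      rw [← map_mul, ← map_mul, h0, map_zero]
    · intro h0
      apply ((vprod (fun i => (-c i l).toNat)).mul hp0 (vB l)).ne hp0
      rw [← map_mul, ← map_mul, h0, map_zero]
    · intro j hj hpj
      have h1 := (hh3 ⟨j, hj⟩).2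
      rw [eval_cast, map_intCast] at h1
      have h2 : ‖((MvPolynomial.eval u (Nm j) : ℤ) : C)‖ < 1 :=
        norm_int_lt hp1 (hpj ▸ hpu j)
      exact h2.ne h1
    · refine pk_all C (p i) k' 𝕜 (n + k) (N i) W' (M i) (d i) (D i) (B₁ i) 𝓛 _ ?_ _ _ _ ?_ ?_ Γ
        ?_
      · intro s hs
        have := hpt s hs
        simpa only [h𝓛φ] using this
      · intro x
        rw [h𝓛φ, h𝓛Λ]
      · intro x
        rw [h𝓛φ]
        refine Fin.addCases (motive := fun x => ∃ u : Cˣ, (u : C) =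
          φ ((Fin.append (fun _ => 1) nu : Fin (n + k) → QA) x) ∧ u * 𝓛.pu ^
            (-(Fin.append (fun _ => 0) (fun l => (f : ℤ) * c i l) : Fin (n + k) → ℤ) x) ∈
            GG C (p i) 0 le_rfl one_pos) ?_ ?_ x
        · intro j
          rw [Fin.append_left, Fin.append_left]
          refine nu_unit hp0 0 (by rw [map_one, norm_one, zpow_zero]) ?_ 𝓛.hpu
          rw [map_one, one_mul, neg_zero, zpow_zero]
          exact one_mem _
        · intro l
          rw [Fin.append_right, Fin.append_right]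
          exact nu_unit hp0 _ (vnu l).1 (vnu l).2 𝓛.hpu
      · intro γ hγ
        refine ⟨cΓ γ, hcΓ γ hγ, ?_⟩
        rw [h𝓛φ]
        have h1 : Dn (cΓ γ) ≤ (hΓ.toFinset.image cΓ).sup Dn :=
          Finset.le_sup (Finset.mem_image_of_mem _ (hΓ.mem_toFinset.2 hγ))
        exact Nr_le (hDn (cΓ γ) (p i) (by omega) C φ hp1)
  choose f hf hPK using fun i => (key i).2.2.2.2
  have hi₀ : 0 < K := by omega
  have hinj : Function.Injective p := by
    intro i j hij
    by_contra hne'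
    exact (key j).2.2.1 i hne' hij
  have hfin := mixx_all n k K κ (mem' F uQ) (key ⟨0, hi₀⟩).2.2.2.1 Γ
    (fun γ hγ => ⟨cΓ γ, hcΓ γ hγ⟩) W' p lam nu (fun i _ => (((p i : ℕ) : QA) ^ f i)⁻¹)
    (fun j => div_ne_zero ((key ⟨0, hi₀⟩).1 j).1 ((key ⟨0, hi₀⟩).1 j).2)
    (fun l => div_ne_zero ((key ⟨0, hi₀⟩).2.1 l).1 ((key ⟨0, hi₀⟩).2.1 l).2)
    (fun i _ => inv_ne_zero (pow_ne_zero _ (Nat.cast_ne_zero.2 (hp i).ne_zero))) hK3 hK c hc
    (hW' c hcW) hp hinj f hf hPK
  have hset : ∀ x : Fin (n + k) → ℂ, x ∈ mscaled F a (fun j => hprodK h (fun i => w i j) * g j)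
        (fun l => hprodK h (fun i => (c i l).toNat) * A l)
        (fun l => hprodK h (fun i => (-c i l).toNat) * B l) uQ →
      ∃ y ∈ VF (mem' F uQ), (∀ j, x (Fin.castAdd k j) = rA (lam j) * y (Fin.castAdd k j)) ∧
        ∀ l, x (Fin.natAdd n l) = rA (nu l) * y (Fin.natAdd n l) := by
    rintro x ⟨y, hy, h1, h2⟩
    refine ⟨y, hy, fun j => ?_, fun l => ?_⟩
    · have hb : rA (MvPolynomial.eval uQ (hprodK h (fun i => w i j) * g j)) ≠ 0 := fun h0 =>
        ((key ⟨0, hi₀⟩).1 j).2 ((map_eq_zero rA).1 h0)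
      show x (Fin.castAdd k j) = rA (MvPolynomial.eval uQ (a j) / MvPolynomial.eval uQ
        (hprodK h (fun i => w i j) * g j)) * y (Fin.castAdd k j)
      rw [map_div₀, div_mul_eq_mul_div, eq_div_iff hb, mul_comm (x (Fin.castAdd k j))]
      exact h1 j
    · have hb : rA (MvPolynomial.eval uQ (hprodK h (fun i => (-c i l).toNat) * B l)) ≠ 0 :=
        fun h0 => ((key ⟨0, hi₀⟩).2.1 l).2 ((map_eq_zero rA).1 h0)
      show x (Fin.natAdd n l) = rA (MvPolynomial.eval uQ (hprodK h (fun i => (c i l).toNat) * A l) /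
        MvPolynomial.eval uQ (hprodK h (fun i => (-c i l).toNat) * B l)) * y (Fin.natAdd n l)
      rw [map_div₀, div_mul_eq_mul_div, eq_div_iff hb, mul_comm (x (Fin.natAdd n l))]
      exact h2 l
  refine ⟨fun j => ((key ⟨0, hi₀⟩).1 j).2, fun l => ((key ⟨0, hi₀⟩).2.1 l).2,
    hfin.1.subset ?_, fun r Z M' η hη hr => (hfin.2 r Z M' η hη hr).subset ?_⟩
  · rintro x ⟨hx, h1⟩
    exact ⟨hset x hx, h1⟩
  · rintro x ⟨hx, h1⟩
    exact ⟨hset x hx, h1⟩

end Pool.Agent.X295
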