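import Pool.Agent.X295.GenMainK

/-!
Families of curves in `Y(1)^n` over the algebraic numbers with parameters in a lattice of algebraic
numbers: definitions, and the main theorem for one degenerate divisor (helper file).

`Y(1)^n` is identified with `ℂ^n` by the elliptic modular function `jj = j = E₄³ / Δ`.
-/

set_option autoImplicit false
set_option linter.unusedSectionVars false

namespace Pool.Agent.X295.NF

open H294ZP UpperHalfPlane

/-- A special subvariety of dimension `r` of `Y(1)^n`. The constant coordinates are those with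
`cls i = none`. The allowed constants are the singular moduli and the numbers which are integral
over the ring generated by `Γ`. -/
structure SpecialVariety (Γ : Set ℂ) (n r : ℕ) where
  cls : Fin n → Option (Fin r)
  surj : ∀ l : Fin r, ∃ i, cls i = some l
  mat : Fin n → Matrix (Fin 2) (Fin 2) ℤ
  det_pos : ∀ i, 0 < (mat i).det
  const : Fin n → ℂ
  allowed : ∀ i, (∃ τ : ℍ, IsCM τ ∧ const i = jj τ) ∨ IsIntegral (Algebra.adjoin ℤ Γ) (const i)

/-- The points of a special subvariety of `Y(1)^n`. -/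
def SpecialVariety.locus {Γ : Set ℂ} {n r : ℕ} (Z : SpecialVariety Γ n r) : Set (Fin n → ℂ) :=
  {x | ∃ z : Fin r → ℍ, ∀ i, (Z.cls i = none → x i = Z.const i) ∧
    ∀ l, Z.cls i = some l → ∃ w : ℍ,
      (w : ℂ) * (Z.mat i 1 0 * z l + Z.mat i 1 1) = Z.mat i 0 0 * z l + Z.mat i 0 1 ∧
      x i = jj w}

/-- The homogeneous coordinates of the point with affine coordinates `y` in the chart `c` of
`(P¹)^n`. In the chart `none` they are `X_i = y_i`, `Z_i = 1` for all `i`, in the chart `some a`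
they are `X_a = 1`, `Z_a = y_a`, and `X_i = y_i`, `Z_i = 1` for `i ≠ a`. -/
def coord {A : Type} [CommRing A] {n : ℕ} (c : Option (Fin n)) (y : Fin n → A)
    (q : Fin n × Bool) : A :=
  if c = some q.1 then (if q.2 then y q.1 else 1) else (if q.2 then 1 else y q.1)

/-- `F` is homogeneous in each pair of variables `(X_i, Z_i) = ((i, false), (i, true))`. -/
def Multihomogeneous {A : Type} [CommRing A] {n : ℕ} (F : MvPolynomial (Fin n × Bool) A) : Prop :=
  ∃ δ : Fin n → ℕ, ∀ m ∈ F.support, ∀ i, m (i, false) + m (i, true) = δ i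

/-- The form `∑ g_{uv} X_i ^ u Z_i ^ (a - u) X_j ^ v Z_j ^ (b - v)`. -/
noncomputable def pairForm {A : Type} [CommRing A] {n : ℕ} (i j : Fin n) (a b : ℕ)
    (g : ℕ → ℕ → A) : MvPolynomial (Fin n × Bool) A :=
  ∑ u ∈ Finset.range (a + 1), ∑ v ∈ Finset.range (b + 1),
    MvPolynomial.C (g u v) * MvPolynomial.X (i, false) ^ u * MvPolynomial.X (i, true) ^ (a - u) *
      MvPolynomial.X (j, false) ^ v * MvPolynomial.X (j, true) ^ (b - v)

/-- The ring of the polynomials in the parameters over the field of the algebraic numbers. -/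
abbrev Parameters (q : ℕ) : Type := MvPolynomial (Fin q) (algebraicClosure ℚ ℂ)

/-- The ideal in the chart `c` of the member of the family at the point of the space of the
parameters with values in the field `k` given by `π`. -/
noncomputable def chartIdeal {k : Type} [Field k] {n q : ℕ} {κ : Type} (π : Parameters q →+* k)
    (F : κ → MvPolynomial (Fin n × Bool) (Parameters q)) (c : Option (Fin n)) :
    Ideal (MvPolynomial (Fin n) k) :=
  Ideal.span (Set.range fun t =>
    MvPolynomial.eval₂ (MvPolynomial.C.comp π) (coord c MvPolynomial.X) (F t))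

/-- The family is given by forms, and its generic member over the hypersurface `h = 0` is integral
and in general position. -/
structure GoodAlong {n q : ℕ} {κ : Type} (h : Parameters q)
    (F : κ → MvPolynomial (Fin n × Bool) (Parameters q)) : Prop where
  form : ∀ t, Multihomogeneous (F t)
  prime : ∀ (k : Type) [Field k] [IsAlgClosed k] (π : Parameters q →+* k),
    RingHom.ker π = Ideal.span {h} → ∀ c, (chartIdeal π F c).IsPrime
  nonconstant : ∀ (k : Type) [Field k] [IsAlgClosed k] (π : Parameters q →+* k),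
    RingHom.ker π = Ideal.span {h} → ∀ (i : Fin n) (c : k),
      MvPolynomial.X i - MvPolynomial.C c ∉ chartIdeal π F none
  general : ∀ i j : Fin n, i ≠ j → ∃ (a b : ℕ) (g : ℕ → ℕ → Parameters q),
    ¬ h ∣ g 0 0 ∧ ¬ h ∣ g a 0 ∧ ¬ h ∣ g 0 b ∧ ¬ h ∣ g a b ∧
    (∀ (k : Type) [Field k] [IsAlgClosed k] (π : Parameters q →+* k),
      RingHom.ker π = Ideal.span {h} →
      ∀ c : k, ∃ v ≤ b, ∑ u ∈ Finset.range (a + 1), π (g u v) * c ^ u ≠ 0) ∧
    pairForm i j a b g ∈ Ideal.span (Set.range F)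

/-- The value at `t` of a polynomial in the parameters. -/
noncomputable def valueAt {q : ℕ} (t : Fin q → ℂ) : Parameters q →+* ℂ :=
  MvPolynomial.eval₂Hom (algebraMap (algebraicClosure ℚ ℂ) ℂ) t

/-- The set `X_t`: all `x` with `b_i (t) x_i = a_i (t) y_i` for a point `y` of `V_t ∩ ℂ^n`. -/
def scaledMember {n q : ℕ} {κ : Type} (F : κ → MvPolynomial (Fin n × Bool) (Parameters q))
    (a b : Fin n → Parameters q) (t : Fin q → ℂ) : Set (Fin n → ℂ) :=
  {x | ∃ y : Fin n → ℂ, (∀ l, MvPolynomial.eval₂ (valueAt t) (coord none y) (F l) = 0) ∧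
    ∀ i, valueAt t (b i) * x i = valueAt t (a i) * y i}

/-- The Zilber-Pink conjecture for the curve `X`: only finitely many points of `X` are on special
subvarieties of codimension at least two, and each proper special subvariety contains only finitely
many points of `X`. -/
def ZilberPink (Γ : Set ℂ) {n : ℕ} (X : Set (Fin n → ℂ)) : Prop :=
  {x | x ∈ X ∧ ∃ (r : ℕ) (Z : SpecialVariety Γ n r), r + 2 ≤ n ∧ x ∈ Z.locus}.Finite ∧
  ∀ (r : ℕ) (Z : SpecialVariety Γ n r), r < n → {x | x ∈ X ∧ x ∈ Z.locus}.Finite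

/-- Special subvarieties in the form used in the proof. -/
def SpecialVariety.toSV {Γ : Set ℂ} {n r : ℕ} (Z : SpecialVariety Γ n r) :
    Pool.Agent.Y226.ZM.SV Γ n r where
  cls := Z.cls
  mat := Z.mat
  det_pos := Z.det_pos
  const := Z.const
  int := fun i => by
    rcases Z.allowed i with ⟨τ, hτ, h⟩ | h
    · rw [h]
      exact (singular_modulus_integral τ hτ).tower_top
    · exact h

section lin

variable {q r : ℕ} (ω : Fin (r + 1) → algebraicClosure ℚ ℂ)

/-- A left inverse of the substitution. -/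
noncomputable def ret : Parameters (q * (r + 1)) →ₐ[algebraicClosure ℚ ℂ] Parameters q :=
  MvPolynomial.aeval fun a => if (finProdFinEquiv.symm a).2 = 0 then
    MvPolynomial.C (ω 0)⁻¹ * MvPolynomial.X (finProdFinEquiv.symm a).1 else 0

theorem ret_lin (hω0 : ω 0 ≠ 0) (P : Parameters q) : ret ω (lin q ω P) = P := by
  have h1 : (ret (q := q) ω).comp (lin q ω) = AlgHom.id _ _ := by
    refine MvPolynomial.algHom_ext fun j => ?_
    rw [AlgHom.comp_apply, lin, MvPolynomial.aeval_X, AlgHom.id_apply, map_sum,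
      Finset.sum_eq_single 0]
    · rw [map_mul, ret, MvPolynomial.aeval_X, Equiv.symm_apply_apply, if_pos rfl,
        MvPolynomial.aeval_C, MvPolynomial.algebraMap_eq, ← mul_assoc,
        ← MvPolynomial.C_mul, mul_inv_cancel₀ hω0, MvPolynomial.C_1, one_mul]
    · intro b _ hb
      rw [map_mul, ret, MvPolynomial.aeval_X, Equiv.symm_apply_apply, if_neg hb, mul_zero]
    · intro h0
      exact absurd (Finset.mem_univ _) h0
  exact congrArg (fun f : Parameters q →ₐ[algebraicClosure ℚ ℂ] Parameters q => f P) h1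

theorem lin_dvd (hω0 : ω 0 ≠ 0) {h P : Parameters q} : lin q ω h ∣ lin q ω P ↔ h ∣ P := by
  refine ⟨fun hd => ?_, fun hd => map_dvd _ hd⟩
  have h1 := map_dvd (ret ω) hd
  rwa [ret_lin ω hω0, ret_lin ω hω0] at h1

theorem ker_comp_lin (hω0 : ω 0 ≠ 0) {h : Parameters q} {k : Type} [Field k]
    (π : Parameters (q * (r + 1)) →+* k) (hπ : RingHom.ker π = Ideal.span {lin q ω h}) :
    RingHom.ker (π.comp (lin q ω).toRingHom) = Ideal.span {h} := by
  ext P
  rw [Ideal.mem_span_singleton, ← lin_dvd ω hω0, ← Ideal.mem_span_singleton, ← hπ, RingHom.mem_ker,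
    RingHom.mem_ker]
  rfl

theorem chartIdeal_lin {k : Type} [Field k] {n : ℕ} {κ : Type}
    (π : Parameters (q * (r + 1)) →+* k)
    (F : κ → MvPolynomial (Fin n × Bool) (Parameters q)) (c : Option (Fin n)) :
    chartIdeal π (fun t => MvPolynomial.map (lin q ω).toRingHom (F t)) c =
      chartIdeal (π.comp (lin q ω).toRingHom) F c := by
  simp only [chartIdeal]
  congr 2
  funext t
  rw [MvPolynomial.eval₂_map]
  rfl

theorem map_pairForm {A B : Type} [CommRing A] [CommRing B] (f : A →+* B) {n : ℕ} (i j : Fin n)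
    (a b : ℕ) (g : ℕ → ℕ → A) :
    MvPolynomial.map f (pairForm i j a b g) = pairForm i j a b fun u v => f (g u v) := by
  simp only [pairForm, map_sum, map_mul, map_pow, MvPolynomial.map_C, MvPolynomial.map_X]

theorem GoodAlong.lin (hω0 : ω 0 ≠ 0) {n : ℕ} {κ : Type} {h : Parameters q}
    {F : κ → MvPolynomial (Fin n × Bool) (Parameters q)} (hF : GoodAlong h F) :
    GoodAlong (X295.lin q ω h)
      (fun t => MvPolynomial.map (X295.lin q ω).toRingHom (F t)) where
  form t := by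
    obtain ⟨δ, hδ⟩ := hF.form t
    exact ⟨δ, fun m hm => hδ m (MvPolynomial.support_map_subset _ _ hm)⟩
  prime k _ _ π hπ c := by
    rw [chartIdeal_lin]
    exact hF.prime k _ (ker_comp_lin ω hω0 π hπ) c
  nonconstant k _ _ π hπ i c := by
    rw [chartIdeal_lin]
    exact hF.nonconstant k _ (ker_comp_lin ω hω0 π hπ) i c
  general i j hij := by
    obtain ⟨a, b, g, h1, h2, h3, h4, h5, h6⟩ := hF.general i j hij
    refine ⟨a, b, fun u v => X295.lin q ω (g u v), fun hd => h1 ((lin_dvd ω hω0).1 hd),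
      fun hd => h2 ((lin_dvd ω hω0).1 hd), fun hd => h3 ((lin_dvd ω hω0).1 hd),
      fun hd => h4 ((lin_dvd ω hω0).1 hd), fun k _ _ π hπ c => ?_, ?_⟩
    · exact h5 k (π.comp (X295.lin q ω).toRingHom) (ker_comp_lin ω hω0 π hπ) c
    · have h7 := Ideal.mem_map_of_mem (MvPolynomial.map (X295.lin q ω).toRingHom) h6
      rw [map_pairForm, Ideal.map_span, ← Set.range_comp] at h7
      exact h7

end lin

/-- The block data. -/
theorem GoodAlong.toGM {n q : ℕ} {κ : Type} {h : Parameters q}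
    {F : κ → MvPolynomial (Fin n × Bool) (Parameters q)} (hF : GoodAlong h F)
    {Ω : Type} [Field Ω] [IsAlgClosed Ω] (e : Parameters q →+* Ω)
    (he : ∀ P, e P = 0 ↔ h ∣ P) : ∃ d₀ : ℕ, Pool.Agent.Y92.ZX.GM d₀ e F := by
  classical
  have hker : RingHom.ker e = Ideal.span {h} := by
    ext P
    rw [RingHom.mem_ker, he, Ideal.mem_span_singleton]
  have hgen : ∀ x : Fin n × Fin n, ∃ (a b : ℕ) (g : ℕ → ℕ → Parameters q), x.1 ≠ x.2 →
      e (g 0 0) ≠ 0 ∧ e (g a 0) ≠ 0 ∧ e (g 0 b) ≠ 0 ∧ e (g a b) ≠ 0 ∧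
      (∀ c : Ω, ∃ v ≤ b, ∑ u ∈ Finset.range (a + 1), e (g u v) * c ^ u ≠ 0) ∧
      pairForm x.1 x.2 a b g ∈ Ideal.span (Set.range F) := by
    intro x
    by_cases hx : x.1 = x.2
    · exact ⟨0, 0, 0, fun h' => absurd hx h'⟩
    · obtain ⟨a, b, g, h1, h2, h3, h4, h5, h6⟩ := hF.general x.1 x.2 hx
      exact ⟨a, b, g, fun _ => ⟨fun h' => h1 ((he _).1 h'), fun h' => h2 ((he _).1 h'),
        fun h' => h3 ((he _).1 h'), fun h' => h4 ((he _).1 h'), h5 Ω e hker, h6⟩⟩
  choose a' b' g' hg' using hgen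
  exact ⟨∑ x, (a' x + b' x), ⟨hF.form, hF.prime Ω e hker, hF.nonconstant Ω e hker, fun i j hij => by
      obtain ⟨h1, h2, h3, h4, h5, h6⟩ := hg' (i, j) hij
      have h7 : a' (i, j) + b' (i, j) ≤ ∑ x, (a' x + b' x) :=
        Finset.single_le_sum (f := fun x => a' x + b' x) (fun _ _ => Nat.zero_le _)
          (Finset.mem_univ (i, j))
      exact ⟨a' (i, j), b' (i, j), g' (i, j), by omega, by omega, h1, h2, h3, h4, h5, h6⟩⟩⟩

/-- The values after the substitution. -/
theorem rA_eval_lin {q r : ℕ} (ω : Fin (r + 1) → algebraicClosure ℚ ℂ)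
    (u : Fin (q * (r + 1)) → ℤ) (P : Parameters q) :
    Pool.Agent.Y226.rA (MvPolynomial.eval (fun l => ((u l : ℤ) : Pool.Agent.Y226.QA))
      (lin q ω P)) = valueAt (fun j => ∑ b, (ω b : ℂ) * (u (finProdFinEquiv (j, b)) : ℂ)) P := by
  have h1 : ((Pool.Agent.Y226.rA).comp (MvPolynomial.eval
      (fun l => ((u l : ℤ) : Pool.Agent.Y226.QA)))).comp (lin q ω).toRingHom =
      valueAt (fun j => ∑ b, (ω b : ℂ) * (u (finProdFinEquiv (j, b)) : ℂ)) := by
    refine MvPolynomial.ringHom_ext (fun x => ?_) (fun l => ?_)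
    · simp [valueAt, Pool.Agent.Y226.rA, lin]
    · simp [valueAt, Pool.Agent.Y226.rA, lin]
  exact congrArg (fun f : Parameters q →+* ℂ => f P) h1

/-- The members after the substitution. -/
theorem scaled_lin {q r n : ℕ} {κ : Type} (ω : Fin (r + 1) → algebraicClosure ℚ ℂ)
    (F : κ → MvPolynomial (Fin n × Bool) (Parameters q)) (a b : Fin n → Parameters q)
    (u : Fin (q * (r + 1)) → ℤ) (x : Fin n → ℂ)
    (hx : x ∈ scaledMember F a b (fun j => ∑ b, (ω b : ℂ) * (u (finProdFinEquiv (j, b)) : ℂ))) :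
    x ∈ Pool.Agent.X295.scaled (fun t => MvPolynomial.map (lin q ω).toRingHom (F t))
      (fun i => lin q ω (a i)) (fun i => lin q ω (b i))
      (fun l => ((u l : ℤ) : Pool.Agent.Y226.QA)) := by
  obtain ⟨y, hy, hx⟩ := hx
  refine ⟨y, fun t => ?_, fun i => ?_⟩
  · show MvPolynomial.eval₂ Pool.Agent.Y226.rA _ (MvPolynomial.map _ (MvPolynomial.map _ (F t))) = 0
    rw [MvPolynomial.eval₂_map, MvPolynomial.eval₂_map]
    have h1 : ((Pool.Agent.Y226.rA).comp (MvPolynomial.eval
        (fun l => ((u l : ℤ) : Pool.Agent.Y226.QA)))).comp (lin q ω).toRingHom =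
        valueAt (fun j => ∑ b, (ω b : ℂ) * (u (finProdFinEquiv (j, b)) : ℂ)) :=
      RingHom.ext (rA_eval_lin ω u)
    rw [h1]
    exact hy t
  · rw [rA_eval_lin, rA_eval_lin]
    exact hx i

/-- Families of curves which degenerate along one hypersurface over a number field, and parameters in
a lattice of algebraic numbers. -/
theorem curveNF {n q r : ℕ} {κ : Type} [Finite κ] (ω : Fin (r + 1) → algebraicClosure ℚ ℂ)
    (hω0 : ω 0 ≠ 0) (h : Parameters q) (hirr : Irreducible h)
    (F : κ → MvPolynomial (Fin n × Bool) (Parameters q)) (hF : GoodAlong h F)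
    (a g : Fin n → Parameters q) (w : Fin n → ℕ) (hw : ∀ i, 0 < w i)
    (ha : ∀ i, ¬ h ∣ a i) (hg : ∀ i, ¬ h ∣ g i)
    (Γ : Set ℂ) (hΓ : Γ.Finite) (hΓa : ∀ γ ∈ Γ, IsAlgebraic ℚ γ) (ε : ℝ) (hε : 0 < ε) :
    ∃ C : ℝ, ∀ H : ℕ, 1 ≤ H →
      (({u : Fin q → Fin (r + 1) → ℤ | ¬ ZilberPink Γ (scaledMember F a (fun i => h ^ w i * g i)
        (fun j => ∑ b, (ω b : ℂ) * (u j b : ℂ)))} ∩ {u | ∀ j b, |u j b| ≤ H}).ncard : ℝ) ≤
          C * (H : ℝ) ^ ((q : ℝ) * (r + 1) - 1 + ε) := by
  classical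
  have hirr' : Irreducible (lin q ω h) := irreducible_lin ω hω0 hirr
  have hprime : Prime (lin q ω h) := UniqueFactorizationMonoid.irreducible_iff_prime.1 hirr'
  obtain ⟨Ω, _, _, _, e, he, halg⟩ := exists_Omega (lin q ω h) hprime
  obtain ⟨d₀, hGM⟩ := (hF.lin ω hω0).toGM e he
  obtain ⟨Nm, DN, hNm0, hNm, hplace, -⟩ := normQ (lin q ω h) hprime.ne_zero
  obtain ⟨j0, hj0⟩ := exists_varN hirr' hNm0 hNm
  obtain ⟨ρ, hρ, D, hD⟩ := gen_finK n (q * (r + 1)) κ d₀
    (fun t => MvPolynomial.map (lin q ω).toRingHom (F t)) (lin q ω h) hprime Ω e he halg hGM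
    (fun i => lin q ω (a i)) (fun i => lin q ω (g i)) w hw
    (fun i hd => ha i ((lin_dvd ω hω0).1 hd)) (fun i hd => hg i ((lin_dvd ω hω0).1 hd)) Γ hΓ
    (fun γ hγ => ⟨⟨γ, mem_algebraicClosure_iff.2 (hΓa γ hγ)⟩, rfl⟩) j0 Nm DN hNm0 hNm hplace
  obtain ⟨C, hC⟩ := count_union (M := 1) (fun _ => Nm) (fun _ => j0)
      (fun _ => hj0) (fun _ => ρ) (fun _ => hρ) D hε
      {u | ¬ ZilberPink Γ (scaledMember F a (fun i => h ^ w i * g i)
        (fun j => ∑ b, (ω b : ℂ) * (u (finProdFinEquiv (j, b)) : ℂ)))}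
      (fun u hu => ⟨0, fun hgood => hu (by
        obtain ⟨h1, h2⟩ := hD u hgood
        have hsub : ∀ x ∈ scaledMember F a (fun i => h ^ w i * g i)
            (fun j => ∑ b, (ω b : ℂ) * (u (finProdFinEquiv (j, b)) : ℂ)),
            x ∈ Pool.Agent.X295.scaled (fun t => MvPolynomial.map (lin q ω).toRingHom (F t))
              (fun i => lin q ω (a i)) (fun i => lin q ω h ^ w i * lin q ω (g i))
              (fun l => ((u l : ℤ) : Pool.Agent.Y226.QA)) := by
          intro x hx
          have h3 := scaled_lin ω F a _ u x hx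
          simpa only [map_mul, map_pow] using h3
        refine ⟨h1.subset ?_, fun r Z hr => (h2 r Z.toSV hr).subset ?_⟩
        · rintro x ⟨hx, r, Z, hr, hZ⟩
          exact ⟨hsub x hx, r, Z.toSV, hr, hZ⟩
        · rintro x ⟨hx, hZ⟩
          exact ⟨hsub x hx, hZ⟩)⟩)
  refine ⟨C, fun H hH => ?_⟩
  let E : (Fin (q * (r + 1)) → ℤ) → (Fin q → Fin (r + 1) → ℤ) := fun u j b =>
    u (finProdFinEquiv (j, b))
  have h1 : {u : Fin q → Fin (r + 1) → ℤ | ¬ ZilberPink Γ (scaledMember F a
        (fun i => h ^ w i * g i) (fun j => ∑ b, (ω b : ℂ) * (u j b : ℂ)))} ∩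
        {u | ∀ j b, |u j b| ≤ H} = E '' ({u | ¬ ZilberPink Γ (scaledMember F a
        (fun i => h ^ w i * g i)
        (fun j => ∑ b, (ω b : ℂ) * (u (finProdFinEquiv (j, b)) : ℂ)))} ∩ {u | ∀ a, |u a| ≤ H}) := by
    ext u
    constructor
    · rintro ⟨h1, h2⟩
      have h3 : E (fun a => u (finProdFinEquiv.symm a).1 (finProdFinEquiv.symm a).2) = u := by
        funext j b
        simp only [E]
        rw [Equiv.symm_apply_apply]
      refine ⟨fun a => u (finProdFinEquiv.symm a).1 (finProdFinEquiv.symm a).2,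
        ⟨?_, fun a => h2 _ _⟩, h3⟩
      have h4 : ∀ j b, (fun a => u (finProdFinEquiv.symm a).1 (finProdFinEquiv.symm a).2)
          (finProdFinEquiv (j, b)) = u j b := fun j b => congrFun (congrFun h3 j) b
      simp only [Set.mem_ofPred_eq] at h1 ⊢
      simp_rw [h4]
      exact h1
    · rintro ⟨v, ⟨h1, h2⟩, rfl⟩
      exact ⟨h1, fun j b => h2 _⟩
  rw [h1]
  refine le_trans ?_ ((hC H hH).trans (le_of_eq ?_))
  · have hfin : ({u : Fin (q * (r + 1)) → ℤ | ¬ ZilberPink Γ (scaledMember F a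
        (fun i => h ^ w i * g i)
        (fun j => ∑ b, (ω b : ℂ) * (u (finProdFinEquiv (j, b)) : ℂ)))} ∩
        {u | ∀ a, |u a| ≤ H}).Finite := by
      refine Set.Finite.subset (Set.Finite.pi' (t := fun _ : Fin (q * (r + 1)) =>
        {z : ℤ | |z| ≤ H}) fun _ => ?_) (fun u hu a => hu.2 a)
      exact (Set.finite_Icc (-(H : ℤ)) H).subset fun z hz => abs_le.1 hz
    exact_mod_cast Set.ncard_image_le hfin
  · push_cast
    rfl

end Pool.Agent.X295.NF
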