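import Pool.Agent.X295.LegP

/-!
Families with several parameters of subsets of fibre powers of the Legendre family times tori which
degenerate along hypersurfaces: definitions and main theorem (helper file).
-/

set_option autoImplicit false

namespace Pool.Agent.X295.Leg

open WeierstrassCurve WeierstrassCurve.Affine Pool.Agent.W466.EP Pool.Agent.W282.LF
open H294ZP MvPolynomial Pool.Agent.W282.ZP Pool.Agent.Y152.BD Pool.Agent.Y152.RP
open Pool.Agent.Y152.RP.FamM (coset)
open Pool.Agent.X295.Ell (gaussS)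

/-- The divisors of the `A i / B i` and the coordinate hyperplanes of `P^N` are in general position
at `u`: no point of `B_u` lies on `m + 1` of them. -/
def InGeneralPositionH {K : Subfield ℂ} {q : ℕ} (u : Fin q → ℂ) {N : ℕ} {κ ι : Type} (m : ℕ)
    (G : κ → MvPolynomial (Fin (N + 1)) (MvPolynomial (Fin q) K))
    (A B : ι → MvPolynomial (Fin (N + 1)) (MvPolynomial (Fin q) K)) : Prop :=
  ∀ I : Finset (ι ⊕ Fin (N + 1)), I.card = m + 1 → ∀ y : Fin (N + 1) → ℂ, OnB u G y →
    ∃ i ∈ I, Sum.elim (fun s => eval₂ (evalAt K u) y (A s) * eval₂ (evalAt K u) y (B s)) y i ≠ 0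

/-- The family degenerates along the divisor `h = 0`, which is irreducible over `ℂ`: the polynomial
`c i` vanishes along the divisor exactly to the order `e i`, and at one point of it (algebraic over
`K`) the divisors of the `A i / B i` and the coordinate hyperplanes are in general position. -/
def DegeneratesAlongH {K : Subfield ℂ} {q N : ℕ} {κ ι : Type} (m : ℕ)
    (G : κ → MvPolynomial (Fin (N + 1)) (MvPolynomial (Fin q) K))
    (A B : ι → MvPolynomial (Fin (N + 1)) (MvPolynomial (Fin q) K))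
    (c : ι → MvPolynomial (Fin q) K) (h : MvPolynomial (Fin q) K) (e : ι → ℕ) : Prop :=
  Irreducible (MvPolynomial.map (algebraMap K ℂ) h) ∧
  (∀ i, ∃ g : MvPolynomial (Fin q) K, c i = h ^ e i * g ∧
    ∃ u : Fin q → ℂ, evalAt K u h = 0 ∧ evalAt K u g ≠ 0) ∧
  ∃ u : Fin q → ℂ, (∀ j, IsAlgebraic K (u j)) ∧ evalAt K u h = 0 ∧ InGeneralPositionH u m G A B

/-- The orders of the poles of the coordinates along the divisors: `e` is positive, `s i ≤ e i` for
the elliptic coordinates, and the differences of the numbers `e i / s i` are not integral after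
multiplication with a number not divisible by `β`; the square minors of the matrix of the orders of
the torus coordinates are nonzero. -/
structure IndepL {n k₀ M : ℕ} (β : ℕ) (s : Fin n → ℕ)
    (e : Fin M → Option (Fin n) ⊕ Fin k₀ → ℕ) : Prop where
  pos : ∀ l i, 0 < e l i
  large : ∀ l i, s i ≤ e l (Sum.inl (some i))
  dist : ∀ l, ∀ i j : Fin n, i ≠ j → ∀ μ : ℕ, ¬ β ∣ μ → ¬ ((s i : ℤ) * s j ∣
      μ * (e l (Sum.inl (some i)) * s j - e l (Sum.inl (some j)) * s i))
  minors : ∀ (s : Finset (Fin M)) (J : Finset (Fin k₀)) (b : Fin k₀ → ℤ), J.card ≤ s.card →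
    (∀ j, j ∉ J → b j = 0) → (∀ l ∈ s, ∑ j, b j * (e l (Sum.inr j) : ℤ) = 0) → b = 0

/-- The equations of the member `X_u` of the family, between the point `(t, P, z)` and the point `y`
of `B_u`: `t = A_0 / (c_0 B_0)`, `x (P_i) ^ s_i = A_i / ((c_0 B_0) ^ s_i c_i B_i)` and
`z_j = A_j / (c_j B_j)`, with nonzero denominators, except for `B_i (y) = 0` if `P_i` is the
origin. -/
structure OverU {K : Subfield ℂ} {q N n k₀ : ℕ} {κ : Type} (u : Fin q → ℂ)
    (G : κ → MvPolynomial (Fin (N + 1)) (MvPolynomial (Fin q) K))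
    (A B : Option (Fin n) ⊕ Fin k₀ → MvPolynomial (Fin (N + 1)) (MvPolynomial (Fin q) K))
    (s : Fin n → ℕ) (c : Option (Fin n) ⊕ Fin k₀ → MvPolynomial (Fin q) K)
    (t : ℂ) (P : Fin n → (leg t).Point) (z : Fin k₀ → ℂ) (y : Fin (N + 1) → ℂ) : Prop where
  on : OnB u G y
  base_ne : eval₂ (evalAt K u) y (B (Sum.inl none)) ≠ 0
  base : evalAt K u (c (Sum.inl none)) * eval₂ (evalAt K u) y (B (Sum.inl none)) * t =
    eval₂ (evalAt K u) y (A (Sum.inl none))
  ell : ∀ i : Fin n, (P i = 0 ∧ eval₂ (evalAt K u) y (B (Sum.inl (some i))) = 0) ∨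
    (P i ≠ 0 ∧ eval₂ (evalAt K u) y (B (Sum.inl (some i))) ≠ 0 ∧
      (evalAt K u (c (Sum.inl none)) * eval₂ (evalAt K u) y (B (Sum.inl none))) ^ s i *
        (evalAt K u (c (Sum.inl (some i))) * eval₂ (evalAt K u) y (B (Sum.inl (some i)))) *
        lx (P i) ^ s i = eval₂ (evalAt K u) y (A (Sum.inl (some i))))
  tor : ∀ j : Fin k₀, eval₂ (evalAt K u) y (B (Sum.inr j)) ≠ 0 ∧
    evalAt K u (c (Sum.inr j)) * eval₂ (evalAt K u) y (B (Sum.inr j)) * z j =
      eval₂ (evalAt K u) y (A (Sum.inr j))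

theorem familyL (K : Subfield ℂ) (κ : Type) [Finite κ] (q N n k₀ m M : ℕ)
    (G : κ → MvPolynomial (Fin (N + 1)) (MvPolynomial (Fin q) K))
    (hG : ∀ k, ∃ e, (G k).IsHomogeneous e)
    (A B : Option (Fin n) ⊕ Fin k₀ → MvPolynomial (Fin (N + 1)) (MvPolynomial (Fin q) K))
    (s : Fin n → ℕ) (hs : ∀ i, 0 < s i) (w : Option (Fin n) ⊕ Fin k₀ → ℕ)
    (hB : ∀ i, (B i).IsHomogeneous (w i))
    (hA0 : (A (Sum.inl none)).IsHomogeneous (w (Sum.inl none)))
    (hAE : ∀ i, (A (Sum.inl (some i))).IsHomogeneous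
      (s i * w (Sum.inl none) + w (Sum.inl (some i))))
    (hAT : ∀ j, (A (Sum.inr j)).IsHomogeneous (w (Sum.inr j)))
    (c : Option (Fin n) ⊕ Fin k₀ → MvPolynomial (Fin q) K)
    (h : Fin M → MvPolynomial (Fin q) ℤ)
    (e : Fin M → Option (Fin n) ⊕ Fin k₀ → ℕ)
    (hdeg : ∀ l, DegeneratesAlongH m G A B c (MvPolynomial.map (Int.castRingHom K) (h l)) (e l))
    (β : ℕ) (hβ : 0 < β) (hind : IndepL β s e)
    (hM : torusPlaces k₀ m + 1 ≤ M) (Γ : Finset ℂ) (hΓ : ∀ γ ∈ Γ, γ ∈ K)
    (Δ : ℕ) (hΔ : ∀ l, (h l).totalDegree ≤ Δ) (ε : ℝ) (hε : 0 < ε) :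
    ∃ bad : Set (Fin q → ℤ), (∃ C : ℝ, ∀ H : ℕ, 1 ≤ H →
      ((bad ∩ {u | ∀ j, |u j| ≤ H}).ncard : ℝ) ≤ C * (H : ℝ) ^ ((q : ℝ) - 1 + Δ / β + ε)) ∧
      ∀ u ∉ bad, ∀ (t : ℂ) (_ : t ≠ 0) (_ : t ≠ 1) (P : Fin n → (leg t).Point) (z : Fin k₀ → ℂ)
        (y : Fin (N + 1) → ℂ), OverU (fun j => (u j : ℂ)) G A B s c t P z y →
        ∀ (cE : ℕ), EData t P cE →
        ∀ (M₂ : Submodule ℤ (Fin k₀ → ℤ)) (η : Fin k₀ → ℂ),
        (∀ j, η j ≠ 0 ∧ IsIntegral (Algebra.adjoin ℤ (Γ : Set ℂ)) (η j) ∧
          IsIntegral (Algebra.adjoin ℤ (Γ : Set ℂ)) (η j)⁻¹) → z ∈ coset M₂ η →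
        ∀ S : Finset (Option (Fin n) ⊕ Fin k₀),
          AlgebraicIndependent K (fun i : S => co t P z i) →
          S.card + cE + Module.finrank ℤ M₂ ≤ m := by
  classical
  let k := algebraicClosure K ℂ
  have hcl : IsAlgClosure K k := inferInstance
  have hac : IsAlgClosed k := hcl.isAlgClosed
  have halgk : Algebra.IsAlgebraic K k := hcl.isAlgebraic
  have : FaithfulSMul ℤ k := (faithfulSMul_iff_algebraMap_injective ℤ k).2 Int.cast_injective
  obtain ⟨𝓈, h𝓈⟩ := exists_isTranscendenceBasis ℤ k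
  let φ : MvPolynomial (Fin q) K →+* MvPolynomial (Fin q) k := MvPolynomial.map (algebraMap K k)
  have hev : ∀ (t : Fin q → k), (algebraMap k ℂ).comp ((MvPolynomial.eval t).comp φ) =
      evalAt K (fun j => algebraMap k ℂ (t j)) := by
    intro t
    refine MvPolynomial.ringHom_ext (fun a => ?_) (fun j => ?_)
    · simp only [φ, evalAt, RingHom.comp_apply, MvPolynomial.map_C, MvPolynomial.eval_C,
        AlgHom.toRingHom_eq_coe, RingHom.coe_coe, MvPolynomial.aeval_C]
      rfl
    · simp only [φ, evalAt, RingHom.comp_apply, MvPolynomial.map_X, MvPolynomial.eval_X,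
        AlgHom.toRingHom_eq_coe, RingHom.coe_coe, MvPolynomial.aeval_X]
  have hevP : ∀ (t : Fin q → k) (P : MvPolynomial (Fin q) K),
      algebraMap k ℂ (MvPolynomial.eval t (φ P)) = evalAt K (fun j => algebraMap k ℂ (t j)) P :=
    fun t P => congrArg (fun f : MvPolynomial (Fin q) K →+* ℂ => f P) (hev t)
  have hspec : ∀ (t : Fin q → k) (P : MvPolynomial (Fin (N + 1)) (MvPolynomial (Fin q) K))
      (y : Fin (N + 1) → ℂ), aeval y (specM t (MvPolynomial.map φ P)) =
        eval₂ (evalAt K (fun j => algebraMap k ℂ (t j))) y P := by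
    intro t P y
    rw [specM, MvPolynomial.map_map, aeval_def, eval₂_map, hev]
  have hmapφ : ∀ P : MvPolynomial (Fin q) K, MvPolynomial.map (algebraMap k ℂ) (φ P) =
      MvPolynomial.map (algebraMap K ℂ) P := by
    intro P
    simp only [φ]
    rw [MvPolynomial.map_map]
    rfl
  let hK : Fin M → MvPolynomial (Fin q) K := fun l => MvPolynomial.map (Int.castRingHom K) (h l)
  have hφK : ∀ l, φ (hK l) = MvPolynomial.map (Int.castRingHom k) (h l) := by
    intro l
    change MvPolynomial.map (algebraMap K k) (MvPolynomial.map (Int.castRingHom K) (h l)) = _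
    rw [MvPolynomial.map_map, RingHom.ext_int ((algebraMap K k).comp (Int.castRingHom K))
      (Int.castRingHom k)]
  have hirr : ∀ l, Irreducible (φ (hK l)) := fun l =>
    irr_of_map (algebraMap k ℂ) (by rw [hmapφ]; exact (hdeg l).1)
  have hprime : ∀ l, Prime (φ (hK l)) := fun l =>
    UniqueFactorizationMonoid.irreducible_iff_prime.1 (hirr l)
  have hh0 : ∀ l, h l ≠ 0 := by
    intro l h0
    apply (hprime l).ne_zero
    rw [hφK, h0, map_zero]
  have hNd : ∀ l, φ (hK l) ∣ MvPolynomial.map (Int.castRingHom k) (h l) := fun l => by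
    rw [hφK]
  choose g hcg hgu using fun l => (hdeg l).2.1
  have hgk : ∀ l i, ¬ φ (hK l) ∣ φ (g l i) := by
    intro l i hdvd
    obtain ⟨w, hw⟩ := hdvd
    obtain ⟨u, hu1, hu2⟩ := hgu l i
    apply hu2
    have h1 := congrArg (aeval (R := k) u) hw
    rw [map_mul] at h1
    have h2 : aeval (R := k) u (φ (hK l)) = evalAt K u (hK l) :=
      MvPolynomial.aeval_map_algebraMap (R := K) k u (hK l)
    have h4 : aeval (R := k) u (φ (g l i)) = evalAt K u (g l i) :=
      MvPolynomial.aeval_map_algebraMap (R := K) k u (g l i)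
    rw [h2, hu1, zero_mul, h4] at h1
    exact h1
  choose b₀ hbalg hb0 hbpos using fun l => (hdeg l).2.2
  have hbk : ∀ l j, ∃ t : k, algebraMap k ℂ t = b₀ l j := by
    intro l j
    exact ⟨⟨_, mem_algebraicClosure_iff.2 (hbalg l j)⟩, rfl⟩
  choose b hb using hbk
  have hb' : ∀ l, (fun j => algebraMap k ℂ (b l j)) = b₀ l := fun l => funext (hb l)
  choose j0 hj0 using fun l => exists_varN (hirr l) (hh0 l) (hNd l)
  -- the finite set of constants
  let Γ' : Set k := (fun γ : Γ => algebraMap K k ⟨γ, hΓ γ γ.2⟩) '' Set.univ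
  have hΓ' : algebraMap k ℂ '' Γ' = (Γ : Set ℂ) := by
    ext z
    constructor
    · rintro ⟨_, ⟨g, -, rfl⟩, rfl⟩
      exact g.2
    · intro hz
      exact ⟨_, ⟨⟨z, hz⟩, trivial, rfl⟩, rfl⟩
  -- the forms and the coordinate hyperplanes
  let A' : (Option (Fin n) ⊕ Fin k₀) ⊕ Fin (N + 1) →
      MvPolynomial (Fin (N + 1)) (MvPolynomial (Fin q) k) :=
    Sum.elim (fun i => MvPolynomial.map φ (A i)) (fun j => X j)
  let B' : (Option (Fin n) ⊕ Fin k₀) ⊕ Fin (N + 1) →
      MvPolynomial (Fin (N + 1)) (MvPolynomial (Fin q) k) :=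
    Sum.elim (fun i => MvPolynomial.map φ (B i)) (fun _ => 1)
  let dA : (Option (Fin n) ⊕ Fin k₀) ⊕ Fin (N + 1) → ℕ :=
    Sum.elim (Sum.elim (fun i => i.elim (w (Sum.inl none))
      (fun i => s i * w (Sum.inl none) + w (Sum.inl (some i)))) (fun j => w (Sum.inr j)))
      (fun _ => 1)
  let dB : (Option (Fin n) ⊕ Fin k₀) ⊕ Fin (N + 1) → ℕ := Sum.elim w (fun _ => 0)
  have hA' : ∀ i, (A' i).IsHomogeneous (dA i) := by
    rintro (((_ | i) | j) | j)
    · exact hA0.map _
    · exact (hAE i).map _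
    · exact (hAT j).map _
    · exact isHomogeneous_X _ j
  have hB' : ∀ i, (B' i).IsHomogeneous (dB i) := by
    rintro (i | j)
    · exact (hB i).map _
    · exact isHomogeneous_one _ _
  have hX : ∀ (τ : Fin q → k) (y : Fin (N + 1) → ℂ) (j : Fin (N + 1)),
      aeval y (specM τ (X j : MvPolynomial (Fin (N + 1)) (MvPolynomial (Fin q) k))) = y j := by
    intro τ y j
    rw [specM, MvPolynomial.map_X, aeval_X]
  have h1X : ∀ (τ : Fin q → k) (y : Fin (N + 1) → ℂ),
      aeval y (specM τ (1 : MvPolynomial (Fin (N + 1)) (MvPolynomial (Fin q) k))) = (1 : ℂ) := by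
    intro τ y
    rw [map_one, map_one]
  obtain ⟨ρ, hρ, W, hW, hΓW, hnear⟩ := nearX (k := k) 𝓈 h𝓈 (m := m) (M := M)
    (fun i => MvPolynomial.map φ (G i))
    (fun i => by
      obtain ⟨e, he⟩ := hG i
      exact ⟨e, he.map _⟩)
    A' B' dA dB hA' hB'
    (fun l => φ (hK l)) hprime h hh0 hNd (fun i => φ (c i)) e
    (fun l i => φ (g l i)) (fun l i => by rw [hcg l i, map_mul, map_pow]) hgk b
    (fun l => by
      apply (algebraMap k ℂ).injective
      rw [hevP, hb', hb0, map_zero])
    (fun l I hI y h1 h2 => by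
      by_contra h0
      obtain ⟨i, hi, h3⟩ := hbpos l I hI y ⟨h0, fun i => by
        have h4 := h1 i
        rw [hspec, hb'] at h4
        exact h4⟩
      apply h3
      have h4 := h2 i hi
      rcases i with i | j
      · change aeval y (specM (b l) (MvPolynomial.map φ (A i))) *
          aeval y (specM (b l) (MvPolynomial.map φ (B i))) = 0 at h4
        rw [hspec, hspec, hb'] at h4
        exact h4
      · change aeval y (specM (b l) (X j : MvPolynomial (Fin (N + 1)) (MvPolynomial (Fin q) k))) *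
          aeval y (specM (b l) (1 : MvPolynomial (Fin (N + 1)) (MvPolynomial (Fin q) k))) = 0 at h4
        rw [hX, h1X, mul_one] at h4
        exact h4)
    Γ' (Set.toFinite _) j0
  have hcastf : ∀ u : Fin q → ℤ, (fun j => algebraMap k ℂ ((u j : ℤ) : k)) =
      (fun j => (u j : ℂ)) := fun u => funext fun j => map_intCast _ _
  have := hW.to_subtype
  obtain ⟨D₂, hD₂⟩ := mem_of_gauss 𝓈 h𝓈 (fun z : W => (z : k))
  refine ⟨{u | ∃ l, ¬ GoodB β (h l) (rename Subtype.val (ρ l)) (D₂ + 3) u},
    count_unionB β hβ h j0 hj0 ρ hρ (D₂ + 3) hε Δ hΔ _ (fun u hu => hu), ?_⟩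
  intro u hu t ht0 ht1 P z y hy cE hcE M₂ η hη hzη S hS
  have hcon : ∀ l, GoodB β (h l) (rename Subtype.val (ρ l)) (D₂ + 3) u := by
    intro l
    by_contra hl
    exact hu ⟨l, hl⟩
  have hSk : AlgebraicIndependent k (fun i : S => co t P z i) := hS.extendScalars k
  have hη' : ∀ j, ∃ z : k, η j = algebraMap k ℂ z := by
    intro j
    have h5 : IsAlgebraic k (η j) := alg_of_int Γ' (by rw [hΓ']; exact (hη j).2.1)
    exact ⟨⟨η j, mem_algebraicClosure_iff.2 (h5.restrictScalars K)⟩, rfl⟩
  -- values of the forms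
  set τ : Fin q → k := fun j => ((u j : ℤ) : k) with hτ
  have hval : ∀ (Q : MvPolynomial (Fin (N + 1)) (MvPolynomial (Fin q) K)) (y : Fin (N + 1) → ℂ),
      aeval y (specM τ (MvPolynomial.map φ Q)) = eval₂ (evalAt K (fun j => (u j : ℂ))) y Q := by
    intro Q y
    rw [hspec, hτ, hcastf]
  have hcval : ∀ i, algebraMap k ℂ (eval τ (φ (c i))) = evalAt K (fun j => (u j : ℂ)) (c i) := by
    intro i
    rw [hevP, hτ, hcastf]
  -- the powers of the coordinates are rational functions of the quotients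
  obtain ⟨j₀, hj₀⟩ : ∃ j, y j ≠ 0 := by
    by_contra h
    push Not at h
    exact hy.on.1 (funext h)
  let pw : Option (Fin n) ⊕ Fin k₀ → ℕ := Sum.elim (fun i => i.elim 1 s) (fun _ => 1)
  have hpw : ∀ i, 0 < pw i := by
    rintro ((_ | i) | j)
    · exact one_pos
    · exact hs i
    · exact one_pos
  have hkmem : ∀ x : k, algebraMap k ℂ x ∈
      IntermediateField.adjoin k (Set.range fun j => y j / y j₀) := fun x =>
    IntermediateField.algebraMap_mem _ x
  have hcmem : ∀ i, evalAt K (fun j => (u j : ℂ)) (c i) ∈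
      IntermediateField.adjoin k (Set.range fun j => y j / y j₀) := fun i => by
    rw [← hcval]
    exact hkmem _
  have hquot : ∀ (Q Q' : MvPolynomial (Fin (N + 1)) (MvPolynomial (Fin q) K)) (d : ℕ),
      Q.IsHomogeneous d → Q'.IsHomogeneous d →
      eval₂ (evalAt K (fun j => (u j : ℂ))) y Q / eval₂ (evalAt K (fun j => (u j : ℂ))) y Q' ∈
      IntermediateField.adjoin k (Set.range fun j => y j / y j₀) := by
    intro Q Q' d hQ hQ'
    rw [← hval, ← hval]
    refine quot_mem y j₀ hj₀ (a := specM τ (MvPolynomial.map φ Q))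
      (b := specM τ (MvPolynomial.map φ Q')) (d := d) ?_ ?_
    · exact (hQ.map φ).map _
    · exact (hQ'.map φ).map _
  have hcE0 : (∀ i, evalAt K (fun j => (u j : ℂ)) (c i) ≠ 0) →
      ∀ i, co t P z i ^ pw i ∈ IntermediateField.adjoin k (Set.range fun j => y j / y j₀) := by
    intro hc0 i
    rcases i with (_ | i) | j
    · change t ^ 1 ∈ _
      have h1 : t ^ 1 = eval₂ (evalAt K (fun j => (u j : ℂ))) y (A (Sum.inl none)) /
          eval₂ (evalAt K (fun j => (u j : ℂ))) y (B (Sum.inl none)) /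
          evalAt K (fun j => (u j : ℂ)) (c (Sum.inl none)) := by
        rw [← hy.base]
        field_simp [hy.base_ne, hc0 (Sum.inl none)]
      rw [h1]
      exact div_mem (hquot _ _ _ hA0 (hB _)) (hcmem _)
    · change lx (P i) ^ s i ∈ _
      rcases hy.ell i with ⟨h1, -⟩ | ⟨-, h2, h3⟩
      · rw [h1]
        change (0 : ℂ) ^ s i ∈ _
        rw [zero_pow (hs i).ne']
        exact zero_mem _
      · have h1 : lx (P i) ^ s i =
            eval₂ (evalAt K (fun j => (u j : ℂ))) y (A (Sum.inl (some i))) /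
            eval₂ (evalAt K (fun j => (u j : ℂ))) y
              (B (Sum.inl none) ^ s i * B (Sum.inl (some i))) /
            (evalAt K (fun j => (u j : ℂ)) (c (Sum.inl none)) ^ s i *
              evalAt K (fun j => (u j : ℂ)) (c (Sum.inl (some i)))) := by
          rw [← h3, eval₂_mul, eval₂_pow, mul_pow]
          have e1 := hc0 (Sum.inl none)
          have e2 := hc0 (Sum.inl (some i))
          have e3 := hy.base_ne
          field_simp
        rw [h1]
        refine div_mem (hquot _ _ _ (hAE i) ?_) (mul_mem (pow_mem (hcmem _) _) (hcmem _))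
        have h5 := ((hB (Sum.inl none)).pow (s i)).mul (hB (Sum.inl (some i)))
        rwa [mul_comm (w (Sum.inl none))] at h5
    · change z j ^ 1 ∈ _
      obtain ⟨h2, h3⟩ := hy.tor j
      have h1 : z j ^ 1 = eval₂ (evalAt K (fun j => (u j : ℂ))) y (A (Sum.inr j)) /
          eval₂ (evalAt K (fun j => (u j : ℂ))) y (B (Sum.inr j)) /
          evalAt K (fun j => (u j : ℂ)) (c (Sum.inr j)) := by
        rw [← h3]
        field_simp [h2, hc0 (Sum.inr j)]
      rw [h1]
      exact div_mem (hquot _ _ _ (hAT j) (hB _)) (hcmem _)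
  -- the places
  have hpl : ∀ l, ∃ (V : ValuationSubring ℂ) (F : Finset (Option (Fin n) ⊕ Fin k₀))
      (γ : V.ValueGroup), γ < 1 ∧ γ ≠ 0 ∧ (∀ z ∈ W, algebraMap k ℂ z ∈ V) ∧
      F.card + S.card ≤ m ∧
      (∀ j, Sum.inr j ∉ F → V.valuation (z j) * γ ^ e l (Sum.inr j) = 1) ∧
      cE ≤ F.toLeft.card := by
    intro l
    obtain ⟨h0, p, hpp, hpD, hpρ, hβp⟩ := hcon l
    set μ := (eval u (h l)).natAbs.factorization p with hμ
    have hμ0 : 0 < μ := Nat.pos_of_ne_zero fun h1 => hβp (by rw [h1]; exact dvd_zero β)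
    have hpC : (p : ℂ) ≠ 0 := Nat.cast_ne_zero.2 hpp.ne_zero
    have hpk : (p : k) ≠ 0 := Nat.cast_ne_zero.2 hpp.ne_zero
    -- a first place, to see that the constants are different from zero
    have hvh : ∀ V : ValuationSubring ℂ, V.valuation (p : ℂ) < 1 →
        V.valuation (algebraMap k ℂ (eval (fun j => ((u j : ℤ) : k)) (φ (hK l)))) =
        V.valuation (p : ℂ) ^ μ := by
      intro V hV
      have h1 : algebraMap k ℂ (eval (fun j => ((u j : ℤ) : k)) (φ (hK l))) =
          ((eval u (h l) : ℤ) : ℂ) := by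
        rw [hφK, eval_cast, map_intCast]
      rw [h1]
      exact v_int_pow hpp hV h0
    have hc0 : ∀ i, evalAt K (fun j => (u j : ℂ)) (c i) ≠ 0 := by
      obtain ⟨V, hVG, -⟩ := gaussS 𝓈 h𝓈 (fun i : Empty => (i.elim : ℂ))
        (algebraicIndependent_empty_type_iff.2 (algebraMap k ℂ).injective) hpp
      have hVW : ∀ z ∈ W, algebraMap k ℂ z ∈ V := fun z hz => hD₂ p hpp (by omega) V hVG ⟨z, hz⟩
      have h1 := (hnear V hVW l u p hVG hpρ (by
        rw [hvh V hVG.lt]
        exact pow_lt_one₀ zero_le hVG.lt hμ0.ne')).1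
      intro i hi
      have h2 := h1 i
      rw [hvh V hVG.lt] at h2
      change V.valuation (algebraMap k ℂ (eval τ (φ (c i)))) = _ at h2
      rw [hcval, hi, map_zero] at h2
      exact (pow_ne_zero _ (pow_ne_zero _ ((map_ne_zero _).2 hpC))) h2.symm
    have hSpw : AlgebraicIndependent k (fun i : S => co t P z i ^ pw i) := by
      have h1 := hSk.polynomial_aeval_of_transcendental
        (f := fun i : S => (Polynomial.X ^ pw i : Polynomial k)) (fun i => by
          rw [transcendental_iff_injective]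
          have h2 : Function.Injective (Polynomial.expand k (pw i)) :=
            Polynomial.expand_injective (hpw i)
          convert h2 using 1
          funext f
          rw [Polynomial.coe_expand, Polynomial.aeval_def]
          rfl)
      simpa using h1
    obtain ⟨S', hS'c, hS'⟩ := Pool.Agent.W216.LF.tr k N y j₀ hj₀ S _ hSpw
      (fun i => hcE0 hc0 i)
    have hS'card : S'.card = S.card := by rw [hS'c, Nat.card_eq_fintype_card, Fintype.card_coe]
    have hindS := algInd_smul hS' (fun _ => ((p : k))⁻¹) (fun _ => inv_ne_zero hpk)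
    obtain ⟨V, hVG, hVx⟩ := gaussS 𝓈 h𝓈 _ hindS hpp
    have hVW : ∀ z ∈ W, algebraMap k ℂ z ∈ V := fun z hz => hD₂ p hpp (by omega) V hVG ⟨z, hz⟩
    have hpn : (p : ℂ) ∈ V.nonunits := (ValuationSubring.mem_nonunits_iff _).2 hVG.lt
    have hvh1 : V.valuation (p : ℂ) ^ μ < 1 := pow_lt_one₀ zero_le hVG.lt hμ0.ne'
    obtain ⟨hcv, hyv⟩ := hnear V hVW l u p hVG hpρ (by rw [hvh V hVG.lt]; exact hvh1)
    obtain ⟨t₁, ht₁, htV, hAB, E, hE, hEg⟩ := hyv y hy.on.1 (fun i => by
      change aeval y (specM τ (MvPolynomial.map φ (G i))) = 0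
      rw [hval]
      exact hy.on.2 i)
    have hcv' : ∀ i, V.valuation (evalAt K (fun j => (u j : ℂ)) (c i)) =
        V.valuation (p : ℂ) ^ (μ * e l i) := by
      intro i
      have h1 := hcv i
      rw [hvh V hVG.lt] at h1
      change V.valuation (algebraMap k ℂ (eval τ (φ (c i)))) = _ at h1
      rw [hcval, ← pow_mul] at h1
      exact h1
    have hS'sub : S' ⊆ E.toRight := by
      intro j hj
      rw [Finset.mem_toRight]
      by_contra hjE
      have h1 := (hEg _ hjE).1
      change V.valuation (aeval (t₁ • y) (specM τ (X j : MvPolynomial (Fin (N + 1))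
        (MvPolynomial (Fin q) k)))) = 1 at h1
      rw [hX] at h1
      have h2 : (t₁ • y) j = (p : ℂ) * (algebraMap k ℂ (p : k)⁻¹ * (y j / y j₀)) * (t₁ * y j₀) := by
        rw [map_inv₀, map_natCast, Pi.smul_apply, smul_eq_mul]
        field_simp [hj₀, hpC]
      rw [h2, map_mul, map_mul] at h1
      have h3 : V.valuation (algebraMap k ℂ (p : k)⁻¹ * (y j / y j₀)) = 1 := hVx ⟨j, hj⟩
      rw [h3, mul_one] at h1
      have h4 := (ValuationSubring.valuation_le_one_iff V _).2 (htV j₀)
      exact ((mul_le_of_le_one_right' h4).trans_lt hVG.lt).ne h1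
    have hcard : E.toLeft.card + E.toRight.card = E.card := E.card_toLeft_add_card_toRight
    have hAval : ∀ (Q : MvPolynomial (Fin (N + 1)) (MvPolynomial (Fin q) K)) (d : ℕ),
        Q.IsHomogeneous d → aeval (t₁ • y) (specM τ (MvPolynomial.map φ Q)) =
        t₁ ^ d * eval₂ (evalAt K (fun j => (u j : ℂ))) y Q := by
      intro Q d hQ
      rw [specM_smul (hQ.map φ), hval]
    have hgoodi : ∀ i, i ∉ E.toLeft →
        V.valuation (aeval (t₁ • y) (specM τ (MvPolynomial.map φ (A i)))) = 1 ∧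
        V.valuation (aeval (t₁ • y) (specM τ (MvPolynomial.map φ (B i)))) = 1 := by
      intro i hi
      exact hEg (Sum.inl i) fun h => hi (Finset.mem_toLeft.2 h)
    have hle : ∀ i, V.valuation (aeval (t₁ • y) (specM τ (MvPolynomial.map φ (A i)))) ≤ 1 ∧
        V.valuation (aeval (t₁ • y) (specM τ (MvPolynomial.map φ (B i)))) ≤ 1 := by
      intro i
      exact ⟨(ValuationSubring.valuation_le_one_iff V _).2 (hAB (Sum.inl i)).1,
        (ValuationSubring.valuation_le_one_iff V _).2 (hAB (Sum.inl i)).2⟩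
    refine ⟨V, E.toLeft, V.valuation (p : ℂ) ^ μ, hvh1, ?_, hVW, ?_, fun j hj => ?_, ?_⟩
    · exact pow_ne_zero _ ((map_ne_zero _).2 hpC)
    · have h1 := Finset.card_le_card hS'sub
      omega
    · obtain ⟨h1, h2⟩ := hgoodi _ hj
      have h3 : evalAt K (fun j => (u j : ℂ)) (c (Sum.inr j)) * z j *
          aeval (t₁ • y) (specM τ (MvPolynomial.map φ (B (Sum.inr j)))) =
          aeval (t₁ • y) (specM τ (MvPolynomial.map φ (A (Sum.inr j)))) := by
        rw [hAval _ _ (hAT j), hAval _ _ (hB (Sum.inr j)), ← (hy.tor j).2]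
        ring
      have h4 := congrArg V.valuation h3
      rw [map_mul, h2, h1, mul_one, map_mul, hcv', mul_comm, pow_mul] at h4
      exact h4
    · -- the elliptic part
      let ℓ : ℂ := evalAt K (fun j => (u j : ℂ)) (c (Sum.inl none)) *
        aeval (t₁ • y) (specM τ (MvPolynomial.map φ (B (Sum.inl none))))
      have hℓt : ℓ * t = aeval (t₁ • y) (specM τ (MvPolynomial.map φ (A (Sum.inl none)))) := by
        change evalAt K (fun j => (u j : ℂ)) (c (Sum.inl none)) *
          aeval (t₁ • y) (specM τ (MvPolynomial.map φ (B (Sum.inl none)))) * t = _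
        rw [hAval _ _ hA0, hAval _ _ (hB (Sum.inl none)), ← hy.base]
        ring
      refine boundL V p hpp (by omega) hpn s hs μ hμ0 (fun i => e l (Sum.inl i))
        (hind.pos l _) (fun i => hind.large l i) (fun i j hij => hind.dist l i j hij μ hβp) ht0 ht1 P
        E.toLeft (fun h0 => ?_) ℓ ?_ ?_ ?_ (fun i hi => ?_) hcE
      · obtain ⟨h1, h2⟩ := hgoodi _ h0
        have h4 := congrArg V.valuation hℓt
        rw [h1, map_mul, map_mul, h2, mul_one, hcv', mul_comm] at h4
        exact h4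
      · refine mul_ne_zero (hc0 _) ?_
        rw [hAval _ _ (hB (Sum.inl none))]
        exact mul_ne_zero (pow_ne_zero _ ht₁) hy.base_ne
      · rw [map_mul]
        refine mul_le_one' ?_ (hle _).2
        rw [hcv']
        exact pow_le_one' hVG.lt.le _
      · rw [hℓt]
        exact (hle _).1
      · obtain ⟨h1, h2⟩ := hgoodi _ hi
        rcases hy.ell i with ⟨-, h3⟩ | ⟨h3, h4, h5⟩
        · exfalso
          rw [hAval _ _ (hB (Sum.inl (some i))), h3, mul_zero, map_zero] at h2
          exact zero_ne_one h2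
        · refine ⟨h3, ?_⟩
          have h6 : (ℓ * lx (P i)) ^ s i * evalAt K (fun j => (u j : ℂ)) (c (Sum.inl (some i))) *
              aeval (t₁ • y) (specM τ (MvPolynomial.map φ (B (Sum.inl (some i))))) =
              aeval (t₁ • y) (specM τ (MvPolynomial.map φ (A (Sum.inl (some i))))) := by
            change (evalAt K (fun j => (u j : ℂ)) (c (Sum.inl none)) *
              aeval (t₁ • y) (specM τ (MvPolynomial.map φ (B (Sum.inl none)))) * lx (P i)) ^ s i *
              _ * _ = _
            rw [hAval _ _ (hAE i), hAval _ _ (hB (Sum.inl none)),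
              hAval _ _ (hB (Sum.inl (some i))), ← h5, pow_add, mul_pow, mul_pow, mul_pow, mul_pow,
              ← pow_mul, mul_comm (s i) (w (Sum.inl none))]
            ring
          have h7 := congrArg V.valuation h6
          rw [map_mul, h2, h1, mul_one, map_mul, map_pow, hcv'] at h7
          exact h7
  choose V F γ hγ1 hγ0 hVW hFm hFt hFE using hpl
  by_contra hlt
  push Not at hlt
  have hv0 : ∀ l i, (V l).valuation (z i) ≠ 0 := fun l i => (Valuation.ne_zero_iff _).2 (hzη.1 i)
  have hVη : ∀ l j, (V l).valuation (η j) = 1 := by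
    intro l j
    have hΓV : ∀ z ∈ Γ', algebraMap k ℂ z ∈ V l := fun z hz => hVW l z (hΓW hz)
    refine le_antisymm (v_le_of_int Γ' (V l) hΓV (by rw [hΓ']; exact (hη j).2.1)) ?_
    have h5 := v_le_of_int Γ' (V l) hΓV (z := (η j)⁻¹) (by rw [hΓ']; exact (hη j).2.2)
    rw [map_inv₀] at h5
    have h6 : (V l).valuation (η j) ≠ 0 := (Valuation.ne_zero_iff _).2 (hη j).1
    exact (inv_le_one₀ (zero_lt_iff.2 h6)).1 h5
  let Y : Fin M → Finset (Fin k₀) := fun l => (F l)ᶜ.toRight
  have hYm : ∀ l j, j ∈ Y l ↔ Sum.inr j ∉ F l := fun l j => by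
    rw [Finset.mem_toRight, Finset.mem_compl]
  have hYc : ∀ l, (Y l)ᶜ = (F l).toRight := by
    intro l
    ext j
    rw [Finset.mem_compl, hYm, not_not, Finset.mem_toRight]
  have hYcard : ∀ l, (Y l).card + (F l).toRight.card = k₀ := by
    intro l
    rw [← hYc, Finset.card_add_card_compl, Fintype.card_fin]
  have hFcard : ∀ l, (F l).toLeft.card + (F l).toRight.card = (F l).card := fun l =>
    (F l).card_toLeft_add_card_toRight
  have hFT : (Finset.univ : Finset (Fin M)).card ≤ torusPlaces k₀ m := by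
    refine torus_count (fun l j => e l (Sum.inr j)) hind.minors M₂ Finset.univ Y (fun l _ => ?_)
      (fun l _ => ?_) (fun l _ a ha haY => ?_)
    · rw [hYc]
      have := hFm l
      have := hFcard l
      omega
    · have h1 := hYcard l
      have h2 := hFcard l
      have h3 := hFm l
      have h4 := hFE l
      omega
    · refine Pool.Agent.TH526.ZL.rel_of_polar' (V l) (hγ1 l) (hγ0 l) (x := z)
        (e := fun j => e l (Sum.inr j)) (fun j hj => hFt l j ((hYm l j).1 hj)) haY ?_
      have h1 : W282.ZP.chi (fun i => (V l).valuation (z i)) a =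
          (V l).valuation (∏ i, z i ^ a i) := by
        simp [W282.ZP.chi]
      rw [h1, hzη.2 a ha]
      simp only [map_prod, map_zpow₀, hVη l, one_zpow, Finset.prod_const_one]
  rw [Finset.card_univ, Fintype.card_fin] at hFT
  omega

end Pool.Agent.X295.Leg
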