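import Pool.Agent.X295.EllF
import Pool.Agent.X295.EllX
import Pool.Agent.W282.LF.Top
import Pool.Agent.W216.LF.TR
import Pool.Agent.W320.LF.ISO

/-!
The coordinates of a point of a fibre power of the Legendre family times a torus at one place near to
a degenerate divisor (helper file).
-/

set_option autoImplicit false

namespace Pool.Agent.X295.Leg

open WeierstrassCurve WeierstrassCurve.Affine Pool.Agent.W466.EP Pool.Agent.W282.LF

theorem boundL (V : ValuationSubring ℂ) (p : ℕ) (hpp : p.Prime) (hp3 : 3 < p)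
    (hp : (p : ℂ) ∈ V.nonunits) {n k₀ : ℕ} (s : Fin n → ℕ) (hs : ∀ i, 0 < s i) (μ : ℕ) (hμ : 0 < μ)
    (e : Option (Fin n) → ℕ) (he0 : 0 < e none) (he : ∀ i, s i ≤ e (some i))
    (hdist : ∀ i j, i ≠ j → ¬ ((s i : ℤ) * s j ∣ μ * (e (some i) * s j - e (some j) * s i)))
    {t : ℂ} (ht0 : t ≠ 0) (ht1 : t ≠ 1) (P : Fin n → (leg t).Point)
    (F : Finset (Option (Fin n) ⊕ Fin k₀))
    (hbase : Sum.inl none ∉ F → V.valuation t * V.valuation (p : ℂ) ^ (μ * e none) = 1)
    (ℓ : ℂ) (hℓ0 : ℓ ≠ 0) (hℓ1 : V.valuation ℓ ≤ 1) (hℓt : V.valuation (ℓ * t) ≤ 1)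
    (hell : ∀ i, Sum.inl (some i) ∉ F → P i ≠ 0 ∧
      V.valuation (ℓ * lx (P i)) ^ s i * V.valuation (p : ℂ) ^ (μ * e (some i)) = 1)
    {cE : ℕ} (hE : EData t P cE) : cE ≤ F.toLeft.card := by
  classical
  set v := V.valuation with hv
  have hp1 : v (p : ℂ) < 1 := by rwa [ValuationSubring.mem_nonunits_iff] at hp
  have hp0 : 0 < v (p : ℂ) := zero_lt_iff.2 ((map_ne_zero v).2 (Nat.cast_ne_zero.2 hpp.ne_zero))
  let β : ℕ := ∏ i, s i
  have hβ : 0 < β := Finset.prod_pos fun i _ => hs i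
  have hsβ : ∀ i, s i ∣ β := fun i => Finset.dvd_prod_of_mem _ (Finset.mem_univ i)
  have hsβ' : ∀ i, s i * (β / s i) = β := fun i => Nat.mul_div_cancel' (hsβ i)
  let ex : Option (Fin n) → ℕ := fun i => i.elim (2 * β + 1)
    (fun i => 2 * (μ * e (some i) * (β / s i)))
  have hc : ∀ i, ∃ z : ℂ, z ^ (2 * β) = ((p ^ ex i : ℕ) : ℂ) := fun i =>
    IsAlgClosed.exists_pow_nat_eq _ (by omega)
  choose c hc using hc
  have hfac : ∀ i, (p ^ ex i).factorization p = ex i := by
    intro i
    rw [hpp.factorization_pow, Finsupp.single_eq_same]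
  have hex : ∀ i, 2 * β ≤ (p ^ ex i).factorization p := by
    intro i
    rw [hfac]
    rcases i with _ | i
    · exact Nat.le_succ _
    · change 2 * β ≤ 2 * (μ * e (some i) * (β / s i))
      have h1 : β ≤ μ * e (some i) * (β / s i) := by
        calc β = s i * (β / s i) := (hsβ' i).symm
          _ ≤ e (some i) * (β / s i) := Nat.mul_le_mul_right _ (he i)
          _ ≤ μ * (e (some i) * (β / s i)) := Nat.le_mul_of_pos_left _ hμ
          _ = _ := by ring
      omega
  have hee : ∀ i j, i ≠ j → ¬ (p ^ ex i).factorization p ≡ (p ^ ex j).factorization p [MOD 2 * β] := by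
    intro i j hij h
    rw [hfac, hfac] at h
    have h2 : ex i % 2 = ex j % 2 := (h.of_dvd (Dvd.intro β rfl : 2 ∣ 2 * β))
    rcases i with _ | i <;> rcases j with _ | j
    · exact hij rfl
    · change (2 * β + 1) % 2 = (2 * (μ * e (some j) * (β / s j))) % 2 at h2
      omega
    · change (2 * (μ * e (some i) * (β / s i))) % 2 = (2 * β + 1) % 2 at h2
      omega
    · have hij' : i ≠ j := fun h => hij (by rw [h])
      have h3 := Nat.modEq_iff_dvd.1 h
      change ((2 * β : ℕ) : ℤ) ∣ ((2 * (μ * e (some j) * (β / s j)) : ℕ) : ℤ) -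
        ((2 * (μ * e (some i) * (β / s i)) : ℕ) : ℤ) at h3
      obtain ⟨z, hz⟩ := h3
      apply hdist i j hij'
      refine ⟨-z, ?_⟩
      have hi : (s i : ℤ) * ((β / s i : ℕ) : ℤ) = β := by exact_mod_cast hsβ' i
      have hj : (s j : ℤ) * ((β / s j : ℕ) : ℤ) = β := by exact_mod_cast hsβ' j
      have hβ0 : (β : ℤ) ≠ 0 := by exact_mod_cast hβ.ne'
      have h2β : (2 * (β : ℤ)) ≠ 0 := by positivity
      refine mul_left_cancel₀ h2β ?_
      rw [Nat.cast_mul 2, Nat.cast_mul 2, Nat.cast_mul 2, Nat.cast_mul (μ * e (some j)),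
        Nat.cast_mul (μ * e (some i)), Nat.cast_mul μ, Nat.cast_mul μ] at hz
      linear_combination (-(2 * (μ : ℤ) * e (some i) * s j)) * hi + (2 * (μ : ℤ) * e (some j) * s i) * hj - (s i : ℤ) * s j * hz
  let F' : Finset (Option (Fin n) ⊕ Fin k₀) := Finset.univ.filter fun x =>
    x ∈ F ∨ x = Sum.inl none ∨ ∃ j, x = Sum.inr j
  have hbad : badE F' = badE F := by
    ext i
    simp only [badE, F', Finset.mem_filter, Finset.mem_univ, true_and]
    constructor
    · rintro (h | h | ⟨j, h⟩)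
      · exact h
      · exact absurd (Sum.inl_injective h) (by simp)
      · exact absurd h (by simp)
    · exact fun h => Or.inl h
  have hPl : Place V p c (fun _ : Fin k₀ => 1) t P (fun _ => 1) F' := by
    refine ⟨hp, fun j hj => absurd ?_ hj, fun hj => absurd ?_ hj, ℓ, hℓ0, hℓ1, hℓt, fun i hi => ?_⟩
    · exact Finset.mem_filter.2 ⟨Finset.mem_univ _, Or.inr (Or.inr ⟨j, rfl⟩)⟩
    · exact Finset.mem_filter.2 ⟨Finset.mem_univ _, Or.inr (Or.inl rfl)⟩
    · have hi' : Sum.inl (some i) ∉ F := fun h => hi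
        (Finset.mem_filter.2 ⟨Finset.mem_univ _, Or.inl h⟩)
      obtain ⟨h1, h2⟩ := hell i hi'
      refine ⟨h1, ?_⟩
      have h3 : v (c (some i)) ^ (2 * β) = v (p : ℂ) ^ (2 * (μ * e (some i) * (β / s i))) := by
        rw [← map_pow, hc, Nat.cast_pow, map_pow]
        rfl
      have h4 : v (c (some i) * (ℓ * lx (P i))) ^ (2 * β) = 1 := by
        rw [map_mul, mul_pow, h3]
        have e1 : v (p : ℂ) ^ (2 * (μ * e (some i) * (β / s i))) =
            (v (p : ℂ) ^ (μ * e (some i))) ^ (2 * (β / s i)) := by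
          rw [← pow_mul]
          congr 1
          ring
        have e2 : v (ℓ * lx (P i)) ^ (2 * β) = (v (ℓ * lx (P i)) ^ s i) ^ (2 * (β / s i)) := by
          rw [← pow_mul]
          congr 1
          calc 2 * β = 2 * (s i * (β / s i)) := by rw [hsβ']
            _ = _ := by ring
        rw [e1, e2, ← mul_pow, mul_comm (v (p : ℂ) ^ (μ * e (some i))), h2, one_pow]
      exact (pow_left_inj₀ zero_le zero_le (by omega : 2 * β ≠ 0)).1 (h4.trans (one_pow _).symm)
  have hnone : IsIntegral ℤ (jinv t) → Sum.inl none ∈ F := by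
    intro hj
    by_contra h
    have h1 := hbase h
    have h2 := t_le hpp hp3 hp ht0 ht1 hj
    have h3 : v t * v (p : ℂ) ^ (μ * e none) < 1 := (mul_le_of_le_one_left' h2).trans_lt
      (pow_lt_one₀ zero_le hp1 (Nat.mul_pos hμ he0).ne')
    exact h3.ne h1
  cases hE with
  | gen M h =>
    have h1 := boundZ Pool.Agent.W320.LF.iso hpp hp3 (by omega) hc hex hee hPl M h
    rw [hbad] at h1
    exact h1.trans badE_card
  | fib hj M h =>
    have h1 := boundZ Pool.Agent.W320.LF.iso hpp hp3 (by omega) hc hex hee hPl M h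
    rw [hbad] at h1
    have h2 := badE_card' (hnone hj)
    omega
  | cm φ M h =>
    have h1 := boundCM Pool.Agent.X295.Ell.cmr_all hpp hp3 (by omega) hc hex hee ht0 ht1 φ hPl M h
    rw [hbad] at h1
    have h2 := badE_card' (hnone φ.int)
    omega

end Pool.Agent.X295.Leg
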