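import Pool.Agent.X295.PfD
import Pool.Agent.X295.LsB
import Pool.Agent.TH377.Dyn.Ht

/-!
Growth of the heights of the iterates: places and heights (helper file).
-/

set_option autoImplicit false

namespace Pool.Agent.X295.Lh

open MvPolynomial NumberField IsDedekindDomain Pool.Agent.Y673.Loc Pool.Agent.Y673.FM
  Pool.Agent.X295.Gal Pool.Agent.X295.Pf Height
open Pool.Agent.Y673.Loc.ZV
open Pool.Agent.TH377.Dyn (ovr sum_ef le_posLog)
open Real (posLog)

section loc
variable {L : Type} [Field L] {w : ZV L} {N d : ℕ} {A : (Fin N → L) → (Fin N → L)}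
  {P : Fin N → MvPolynomial (Fin N) L} {M : ℤ}

theorem grow (h : Hyp w d A P M) (hnd : ¬ (d : ℤ) ∣ M) (x : Fin N → L) (n : ℕ) :
    ∃ a : ℤ, Sz w a ((mp A P)^[n + 1] x) ∧ a ≤ -((d : ℤ) ^ n * M) := by
  have hd2 : (2 : ℤ) ≤ d := by exact_mod_cast h.two
  have hM := h.pos
  have h1 : ∃ a : ℤ, Sz w a (mp A P x) ∧ a ≤ -M := by
    by_cases h0 : x = 0
    · refine ⟨-M, h.small (a := 0) (fun i => ?_) (by rw [mul_zero]; omega), le_rfl⟩
      rw [h0]
      exact G_zero
    obtain ⟨a, ha⟩ := exists_sz (w := w) h0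
    rcases lt_trichotomy ((d : ℤ) * a) (-M) with h2 | h2 | h2
    · exact ⟨d * a, h.large ha h2, h2.le⟩
    · exact absurd ⟨-a, by linarith⟩ hnd
    · exact ⟨-M, h.small ha.1 h2, le_rfl⟩
  obtain ⟨a, ha, haM⟩ := h1
  have h2 : (d : ℤ) * a < -M := by nlinarith
  obtain ⟨h3, -⟩ := h.iter ha h2 n
  refine ⟨d ^ n * a, by rw [Function.iterate_succ_apply]; exact h3, ?_⟩
  have h4 : (0 : ℤ) < (d : ℤ) ^ n := by positivity
  nlinarith

end loc

section heights
variable {L : Type} [Field L] [NumberField L] {n : ℕ}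

theorem one_le_sup (x : Fin n → L) {i₀ : Fin n} (h0 : x i₀ = 1) (f : L → ℝ) (hf : f 1 = 1) :
    1 ≤ ⨆ i, f (x i) := by
  have h1 : f (x i₀) ≤ ⨆ i, f (x i) :=
    le_ciSup (f := fun i => f (x i)) (Set.finite_range _).bddAbove i₀
  rwa [h0, hf] at h1

/-- the finite places in a finite set contribute at most the height -/
theorem sum_le_ht {τ : Type} (x : Fin n → L) {i₀ : Fin n} (h0 : x i₀ = 1) (I : Finset τ)
    (φ : τ → FinitePlace L) (hinj : Set.InjOn φ I)
    (g : τ → ℝ) (hg : ∀ p ∈ I, ∃ j, g p ≤ posLog (φ p (x j))) :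
    ∑ p ∈ I, g p ≤ logHeight x := by
  classical
  set S := I.image φ with hS
  have hx : x ≠ 0 := by
    rintro rfl
    exact one_ne_zero h0.symm
  have hsup1 : ∀ w : FinitePlace L, 1 ≤ ⨆ i, w (x i) := fun w =>
    one_le_sup x h0 (fun y => w y) (map_one w)
  have hpos : ∀ w : FinitePlace L, 0 < ⨆ i, w (x i) := fun w => lt_of_lt_of_le one_pos (hsup1 w)
  have h1 : ∀ p ∈ I, g p ≤ Real.log (⨆ i, φ p (x i)) := by
    intro p hp
    obtain ⟨j, hj⟩ := hg p hp
    generalize φ p = w at hj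
    refine hj.trans ?_
    rw [Real.posLog]
    refine max_le (Real.log_nonneg (hsup1 w)) ?_
    by_cases h2 : w (x j) = 0
    · rw [h2, Real.log_zero]
      exact Real.log_nonneg (hsup1 w)
    · refine Real.log_le_log (lt_of_le_of_ne (apply_nonneg w _) (Ne.symm h2)) ?_
      exact le_ciSup (f := fun i => w (x i)) (Set.finite_range _).bddAbove j
  refine (Finset.sum_le_sum h1).trans ?_
  rw [← Finset.sum_image (f := fun w : FinitePlace L => Real.log (⨆ i, w (x i))) hinj, ← hS,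
    ← Real.log_prod fun w _ => (hpos w).ne', logHeight_eq_log_mulHeight]
  refine Real.log_le_log (Finset.prod_pos fun w _ => hpos w) ?_
  rw [NumberField.mulHeight_eq hx]
  have hfin : (Function.mulSupport fun w : FinitePlace L => ⨆ i, w (x i)).Finite := by
    have h2 : (⋃ i ∈ (Finset.univ.filter fun i => x i ≠ 0), Function.mulSupport
        fun w : FinitePlace L => w (x i)).Finite := by
      refine Set.Finite.biUnion (Finset.finite_toSet _) fun i hi => ?_
      exact FinitePlace.hasFiniteMulSupport (Finset.mem_filter.1 hi).2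
    refine h2.subset fun w hw => ?_
    by_contra hcon
    apply hw
    have h3 : ∀ i, x i ≠ 0 → w (x i) = 1 := by
      intro i hi
      by_contra h4
      apply hcon
      rw [Set.mem_iUnion₂]
      exact ⟨i, Finset.mem_filter.2 ⟨Finset.mem_univ _, hi⟩, h4⟩
    refine le_antisymm ?_ (hsup1 w)
    have : Nonempty (Fin n) := ⟨i₀⟩
    refine ciSup_le fun i => ?_
    by_cases h4 : x i = 0
    · rw [h4, map_zero]
      exact zero_le_one
    · exact (h3 i h4).le
  have h3 : ∏ w ∈ S, (⨆ i, w (x i)) ≤ ∏ᶠ w : FinitePlace L, ⨆ i, w (x i) := by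
    rw [finprod_eq_prod_of_mulSupport_subset (s := hfin.toFinset ∪ S) _ (by
      intro w hw
      rw [Finset.coe_union, Set.mem_union]
      exact Or.inl (hfin.mem_toFinset.2 hw))]
    exact Finset.prod_le_prod_of_subset_of_one_le Finset.subset_union_right
      (fun w _ => (hpos w).le) (fun w _ _ => hsup1 w)
  have h4 : 1 ≤ ∏ v : InfinitePlace L, (⨆ i, v (x i)) ^ v.mult :=
    Finset.one_le_prod fun v _ => one_le_pow₀ (one_le_sup x h0 (fun y => v y) (map_one v))
  have h5 : 0 ≤ ∏ w ∈ S, (⨆ i, w (x i)) := Finset.prod_nonneg fun w _ => (hpos w).le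
  calc ∏ w ∈ S, (⨆ i, w (x i)) = 1 * ∏ w ∈ S, (⨆ i, w (x i)) := (one_mul _).symm
    _ ≤ _ := mul_le_mul h4 h3 h5 (zero_le_one.trans h4)

/-- the contribution of a place -/
theorem pos_le (w : HeightOneSpectrum (𝓞 L)) (y : L) (a : ℤ) (h : (adv L w).E a y) :
    ((-a : ℤ) : ℝ) * Real.log (Ideal.absNorm w.asIdeal) ≤ posLog (FinitePlace.mk w y) := by
  have hlog : 0 ≤ Real.log (Ideal.absNorm w.asIdeal) := Real.log_natCast_nonneg _
  rcases le_or_gt 0 (-a) with h1 | h1
  · obtain ⟨m, hm⟩ := Int.eq_ofNat_of_zero_le h1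
    rw [hm, Int.cast_natCast]
    refine le_posLog w y m ?_
    have h2 : -WithZero.log (w.valuation L y) = a := h.2
    have h3 : w.valuation L y ≠ 0 := (Valuation.ne_zero_iff _).2 h.1
    rw [← WithZero.exp_log h3, WithZero.exp_le_exp]
    omega
  · refine le_trans ?_ Real.posLog_nonneg
    have h2 : ((-a : ℤ) : ℝ) ≤ 0 := by exact_mod_cast h1.le
    exact mul_nonpos_of_nonpos_of_nonneg h2 hlog

end heights

section places
variable {K L : Type} [Field K] [NumberField K] [Field L] [NumberField L] [Algebra K L]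

theorem up_ovr (v : HeightOneSpectrum (𝓞 K)) (q : v.asIdeal.primesOver (𝓞 L)) (x : K) :
    (adv L (ovr v q)).v (algebraMap K L x) = (q.1.ramificationIdx (𝓞 K) : ℕ) * (adv K v).v x := by
  have hmax := v.isMaximal
  have h3 : v.asIdeal.ramificationIdx' (ovr v q).asIdeal = q.1.ramificationIdx (𝓞 K) :=
    Ideal.ramificationIdx'_eq_ramificationIdx v.asIdeal q.1 v.ne_bot
  show -WithZero.log ((ovr v q).valuation L (algebraMap K L x)) =
    _ * (-WithZero.log (v.valuation K x))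
  rw [← HeightOneSpectrum.valuation_liesOver L v (ovr v q), WithZero.log_pow, h3]
  simp

/-- the sum of the local degrees of the places at which `e k` is not divisible by `β` -/
noncomputable def good (L : Type) [Field L] [NumberField L] [Algebra K L]
    (v : HeightOneSpectrum (𝓞 K)) (β : ℕ) (k : ℤ) : Finset (v.asIdeal.primesOver (𝓞 L)) := by
  classical
  exact Finset.univ.filter fun q => ¬ (β : ℤ) ∣ (q.1.ramificationIdx (𝓞 K) : ℕ) * k

theorem mem_good {v : HeightOneSpectrum (𝓞 K)} {β : ℕ} {k : ℤ}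
    {q : v.asIdeal.primesOver (𝓞 L)} :
    q ∈ good L v β k ↔ ¬ (β : ℤ) ∣ (q.1.ramificationIdx (𝓞 K) : ℕ) * k := by
  classical
  unfold good
  rw [Finset.mem_filter]
  simp

theorem one_le_good (v : HeightOneSpectrum (𝓞 K)) (β : ℕ) (k : ℤ)
    (h : ¬ (β : ℤ) ∣ k * Module.finrank K L) :
    1 ≤ ∑ q ∈ good L v β k, q.1.ramificationIdx (𝓞 K) * q.1.inertiaDeg (𝓞 K) := by
  classical
  by_contra hcon
  have h0 : ∑ q ∈ good L v β k, q.1.ramificationIdx (𝓞 K) * q.1.inertiaDeg (𝓞 K) = 0 := by omega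
  apply h
  rw [← sum_ef L v]
  push_cast
  rw [Finset.mul_sum]
  refine Finset.dvd_sum fun q _ => ?_
  by_cases hq : q ∈ good L v β k
  · have h1 := (Finset.sum_eq_zero_iff.1 h0) q hq
    have h2 : ((q.1.ramificationIdx (𝓞 K) : ℕ) : ℤ) * ((q.1.inertiaDeg (𝓞 K) : ℕ) : ℤ) = 0 := by
      exact_mod_cast h1
    rw [h2, mul_zero]
    exact dvd_zero _
  · rw [mem_good, not_not] at hq
    have e : k * (((q.1.ramificationIdx (𝓞 K) : ℕ) : ℤ) * ((q.1.inertiaDeg (𝓞 K) : ℕ) : ℤ)) =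
        (((q.1.ramificationIdx (𝓞 K) : ℕ) : ℤ) * k) * ((q.1.inertiaDeg (𝓞 K) : ℕ) : ℤ) := by ring
    rw [e]
    exact hq.mul_right _

theorem good_galois [IsGalois K L] (v : HeightOneSpectrum (𝓞 K)) (β : ℕ) (k : ℤ)
    (h : ¬ (β : ℤ) ∣ k * Module.finrank K L) :
    ∑ q ∈ good L v β k, q.1.ramificationIdx (𝓞 K) * q.1.inertiaDeg (𝓞 K) =
      Module.finrank K L := by
  classical
  have hmax := v.isMaximal
  have hall : ∀ q : v.asIdeal.primesOver (𝓞 L), q ∈ good L v β k := by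
    intro q
    rw [mem_good]
    intro hq
    apply h
    rw [← sum_ef L v]
    push_cast
    rw [Finset.mul_sum]
    refine Finset.dvd_sum fun q' _ => ?_
    have h1 := q.2.1
    have h2 := q.2.2
    have h3 := q'.2.1
    have h4 := q'.2.2
    rw [Ideal.ramificationIdx_eq_of_isGaloisGroup v.asIdeal q'.1 q.1 Gal(L/K)]
    have e : k * (((q.1.ramificationIdx (𝓞 K) : ℕ) : ℤ) * ((q'.1.inertiaDeg (𝓞 K) : ℕ) : ℤ)) =
        (((q.1.ramificationIdx (𝓞 K) : ℕ) : ℤ) * k) * ((q'.1.inertiaDeg (𝓞 K) : ℕ) : ℤ) := by ring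
    rw [e]
    exact hq.mul_right _
  rw [← sum_ef L v]
  refine Finset.sum_congr ?_ fun q _ => rfl
  ext q
  exact ⟨fun _ => Finset.mem_univ _, fun _ => hall q⟩

/-- **the sum over the places** -/
theorem sum_places {n : ℕ} (T : Finset (HeightOneSpectrum (𝓞 K)))
    (k : HeightOneSpectrum (𝓞 K) → ℤ) (β : ℕ) (c : ℝ) (x : Fin n → L) {i₀ : Fin n}
    (h0 : x i₀ = 1)
    (hloc : ∀ v ∈ T, ∀ q ∈ good L v β (k v), ∃ j,
      c * ((q.1.ramificationIdx (𝓞 K) * q.1.inertiaDeg (𝓞 K) : ℕ) *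
        Real.log (Ideal.absNorm v.asIdeal)) ≤ posLog (FinitePlace.mk (ovr v q) (x j))) :
    c * ∑ v ∈ T, ((∑ q ∈ good L v β (k v), q.1.ramificationIdx (𝓞 K) * q.1.inertiaDeg (𝓞 K) : ℕ) :
      ℝ) * Real.log (Ideal.absNorm v.asIdeal) ≤ logHeight x := by
  classical
  set I : Finset ((v : HeightOneSpectrum (𝓞 K)) × v.asIdeal.primesOver (𝓞 L)) :=
    T.sigma fun v => good L v β (k v) with hI
  set φ : ((v : HeightOneSpectrum (𝓞 K)) × v.asIdeal.primesOver (𝓞 L)) → FinitePlace L :=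
    fun p => FinitePlace.mk (ovr p.1 p.2) with hφ
  have hinj : Set.InjOn φ I := by
    rintro ⟨v, q⟩ _ ⟨v', q'⟩ _ h
    have h1 : ovr v q = ovr v' q' := FinitePlace.mk_eq_iff.1 h
    have h2 : q.1 = q'.1 := congrArg HeightOneSpectrum.asIdeal h1
    have h3 : v = v' := by
      have h4 := q.2.2.over
      have h5 := q'.2.2.over
      refine HeightOneSpectrum.ext ?_
      rw [h4, h5, h2]
    subst h3
    have h4 : q = q' := Subtype.ext h2
    rw [h4]
  have hle : ∀ p ∈ I, ∃ j, c * ((p.2.1.ramificationIdx (𝓞 K) * p.2.1.inertiaDeg (𝓞 K) : ℕ) *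
        Real.log (Ideal.absNorm p.1.asIdeal)) ≤ posLog (φ p (x j)) := by
    rintro ⟨v, q⟩ hp
    rw [hI, Finset.mem_sigma] at hp
    exact hloc v hp.1 q hp.2
  have h1 := sum_le_ht x h0 I φ hinj _ hle
  refine le_trans (le_of_eq ?_) h1
  rw [hI, Finset.sum_sigma, Finset.mul_sum]
  refine Finset.sum_congr rfl fun v _ => ?_
  rw [← Finset.mul_sum]
  congr 1
  rw [Nat.cast_sum, Finset.sum_mul]

end places

end Pool.Agent.X295.Lh
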