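import Pool.Agent.X295.LhA

/-!
Families with several parameters: many places dividing the denominator of the parameter (helper file).
-/

set_option autoImplicit false

namespace Pool.Agent.X295.Lh

open MvPolynomial NumberField IsDedekindDomain Pool.Agent.Y673.Loc Pool.Agent.Y673.FM
  Pool.Agent.X295.Gal Pool.Agent.X295.Pf Height
open Pool.Agent.Y673.Loc.ZV

variable {K : Type} [Field K] [NumberField K] {m : ℕ} {ι : Type} [Fintype ι]

/-- The values at `t` of the polynomials `p` in `Q` have valuations at least `- k deg p`, with equality for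
those in `E`, and the place is prime to `D`. -/
def At (Q E : Finset (MvPolynomial (Fin m) K)) (D : ℕ) (t : Fin m → K)
    (v : HeightOneSpectrum (𝓞 K)) (k : ℤ) : Prop :=
  0 < k ∧ (adv K v).v (D : K) = 0 ∧
    (∀ p ∈ Q, (adv K v).G (-(p.totalDegree * k)) (eval t p)) ∧
    ∀ p ∈ E, (adv K v).E (-(p.totalDegree * k)) (eval t p)

/-- for all `T ≤ Z` and `β ≥ N` there is such a place prime to `T` with `k` not divisible by `β` -/
def PlZ (Q E : Finset (MvPolynomial (Fin m) K)) (D₀ N Z : ℕ) (t : Fin m → K) : Prop :=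
  ∀ T : ℕ, 1 ≤ T → T ≤ Z → ∀ β : ℕ, N ≤ β → ∃ (v : HeightOneSpectrum (𝓞 K)) (k : ℤ),
    ¬ (β : ℤ) ∣ k ∧ At Q E (T * D₀) t v k

/-- **the counting theorem** -/
theorem count_fieldZ (ω : Module.Basis ι ℤ (𝓞 K)) (Q E : Finset (MvPolynomial (Fin m) K))
    (hE : ∀ p ∈ E, p ≠ 0) (D₀ : ℕ) (hD₀ : D₀ ≠ 0) (N : ℕ) (hN : 0 < N) (ε : ℝ) (hε : 0 < ε) :
    ∃ C : ℝ, 0 ≤ C ∧ ∀ H Z : ℕ, 1 ≤ H → 1 ≤ Z → ∀ S : Set (Fin m → K),
      (∀ t ∈ S, HtLe ω H t ∧ ¬ PlZ Q E D₀ N Z t) →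
      S.Finite ∧ (S.ncard : ℝ) ≤ C * (Z : ℝ) ^ (1 + ε) *
        (H : ℝ) ^ (((m : ℝ) + 1) * Module.finrank ℚ K - 1 +
        (Module.finrank ℚ K : ℝ) / N + ε) := by
  classical
  obtain ⟨e⟩ := exists_equiv ω (m + 1)
  obtain ⟨hirr, hdeg⟩ := irr_sub ω e
  set g := sub ω e (X 0 : MvPolynomial (Fin (m + 1)) K) with hg
  set P := ∏ p ∈ E, hmg p.totalDegree p with hP
  have hgP : ¬ g ∣ sub ω e P := by
    apply sub_not_dvd
    rw [hP, (X_prime (R := K) (i := (0 : Fin (m + 1)))).dvd_finsetProd_iff]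
    rintro ⟨p, hp, hd⟩
    exact hmg_not_X (hE p hp) hd
  obtain ⟨D₁, hD₁, h1⟩ := common (Q ∪ E) (fun p v => ∀ x : Fin (m + 1) → 𝓞 K,
    (adv K v).G 0 (eval (fun j => ((x j : 𝓞 K) : K)) (hmg p.totalDegree p)))
    (fun p _ => int_evalO _)
  have hD : D₀ * D₁ ≠ 0 := Nat.mul_ne_zero hD₀ hD₁
  obtain ⟨C, hC0, hC⟩ := core g hirr (Module.finrank ℚ K) (by rw [hdeg, mul_one]) (sub ω e P) hgP
    (D₀ * D₁) hD N hN ε hε
  have hbox : ∀ (H Z : ℕ) (S : Set (Fin m → K)), (∀ t ∈ S, HtLe ω H t ∧ ¬ PlZ Q E D₀ N Z t) →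
      ∃ f : (Fin m → K) → (Fin (m + 1) → 𝓞 K), (∀ t ∈ S, f t 0 ≠ 0 ∧
        (∀ i k, |ω.repr (f t i) k| ≤ H) ∧ ∀ j, t j = (f t j.succ : K) / (f t 0 : K)) := by
    intro H Z S hS
    have h2 : ∀ t ∈ S, ∃ x : Fin (m + 1) → 𝓞 K, x 0 ≠ 0 ∧ (∀ i k, |ω.repr (x i) k| ≤ H) ∧
      ∀ j, t j = (x j.succ : K) / (x 0 : K) := fun t ht => (hS t ht).1
    choose! f hf using h2
    exact ⟨f, hf⟩
  refine ⟨C, hC0, fun H Z hH hZ S hS => ?_⟩
  obtain ⟨f, hf⟩ := hbox H Z S hS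
  have hinj : Set.InjOn (fun t => crds ω e (f t)) S := by
    intro t ht t' ht' he
    have h3 := crds_inj ω e he
    funext j
    rw [(hf t ht).2.2 j, (hf t' ht').2.2 j, h3]
  have hsub : (fun t => crds ω e (f t)) '' S ⊆ (box ((m + 1) * Module.finrank ℚ K) H : Set _) := by
    rintro _ ⟨t, ht, rfl⟩
    rw [Finset.mem_coe, mem_box]
    intro j
    exact (hf t ht).2.1 _ _
  have hfin : ((fun t => crds ω e (f t)) '' S).Finite := (Finset.finite_toSet _).subset hsub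
  have hfS : S.Finite := hfin.of_finite_image hinj
  refine ⟨hfS, ?_⟩
  have h4 := hC H Z hH hZ hfin.toFinset (fun u hu => by
    rw [Set.Finite.mem_toFinset] at hu
    obtain ⟨t, ht, rfl⟩ := hu
    refine ⟨fun j => (hf t ht).2.1 _ _, ?_⟩
    rintro ⟨-, hv5, hw⟩
    apply (hS t ht).2
    intro T hT1 hT2 β hβ
    obtain ⟨v, hv1, hv2, hv3, hv4⟩ := hw T hT1 hT2 β hβ
    obtain ⟨hx0, -, hxt⟩ := hf t ht
    have hx0K : ((f t 0 : 𝓞 K) : K) ≠ 0 := by exact_mod_cast hx0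
    rw [hg, val_sub, eval_X] at hv2 hv3
    rw [val_sub, hP, map_prod] at hv4 hv5
    have hTD : T * (D₀ * D₁) ≠ 0 := Nat.mul_ne_zero (by omega) hD
    have hv0 : (adv K v).v ((T * D₀ : ℕ) : K) = 0 := Pool.Agent.Y673.CB.nat_unit v
      hTD ⟨D₁, by ring⟩ hv1
    have hvD : (adv K v).v (D₁ : K) = 0 := Pool.Agent.Y673.CB.nat_unit v
      hTD ⟨T * D₀, by ring⟩ hv1
    have h5 := h1 v hvD
    set k := (adv K v).v ((f t 0 : 𝓞 K) : K) with hk
    have hEk : (adv K v).E k ((f t 0 : 𝓞 K) : K) := ⟨hx0K, rfl⟩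
    have hte : (fun j : Fin m => ((f t j.succ : 𝓞 K) : K) / ((f t 0 : 𝓞 K) : K)) = t := by
      funext j
      exact (hxt j).symm
    have hval : ∀ p : MvPolynomial (Fin m) K, eval t p =
        eval (fun j => ((f t j : 𝓞 K) : K)) (hmg p.totalDegree p) /
          ((f t 0 : 𝓞 K) : K) ^ p.totalDegree := by
      intro p
      rw [hmg_eval le_rfl _ hx0K, hte, mul_div_cancel_left₀ _ (pow_ne_zero _ hx0K)]
    refine ⟨v, k, hv3, hv2, hv0, fun p hp => ?_, fun p hp => ?_⟩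
    · rw [hval p]
      have h6 := (h5 p (Finset.mem_union_left _ hp) (f t)).div (hEk.pow p.totalDegree)
      rwa [zero_sub] at h6
    · rw [hval p]
      have h7 : (adv K v).E 0 (eval (fun j => ((f t j : 𝓞 K) : K)) (hmg p.totalDegree p)) :=
        prod_unit E (fun p => eval (fun j => ((f t j : 𝓞 K) : K)) (hmg p.totalDegree p))
          (fun p hp => h5 p (Finset.mem_union_right _ hp) (f t)) hv5 hv4 p hp
      have h6 := h7.div (hEk.pow p.totalDegree)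
      rwa [zero_sub] at h6)
  rw [← Set.ncard_eq_toFinset_card _ hfin, Set.InjOn.ncard_image hinj] at h4
  push_cast at h4
  exact h4

/-- **the places contribute at least `log Z`** -/
theorem exists_places {Q E : Finset (MvPolynomial (Fin m) K)} {D₀ N Z : ℕ} (hD : D₀ ≠ 0)
    {t : Fin m → K} (h : PlZ Q E D₀ N Z t) {p₀ : MvPolynomial (Fin m) K} (hp₀ : p₀ ∈ E)
    (hdeg : 0 < p₀.totalDegree) {β : ℕ} (hβ : N ≤ β) :
    ∃ (T : Finset (HeightOneSpectrum (𝓞 K))) (k : HeightOneSpectrum (𝓞 K) → ℤ),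
      (∀ v ∈ T, ¬ (β : ℤ) ∣ k v ∧ At Q E D₀ t v (k v)) ∧
      Real.log ((Z : ℝ) + 1) ≤ ∑ v ∈ T, Real.log (Ideal.absNorm v.asIdeal) := by
  classical
  set VV : Set (HeightOneSpectrum (𝓞 K)) := {v | ∃ k : ℤ, ¬ (β : ℤ) ∣ k ∧ At Q E D₀ t v k} with hVV
  have hk : ∀ v ∈ VV, ∃ k : ℤ, ¬ (β : ℤ) ∣ k ∧ At Q E D₀ t v k := fun v hv => hv
  choose! k hk using hk
  set PP : Set ℕ := {p | p.Prime ∧ ∃ v ∈ VV, (p : 𝓞 K) ∈ v.asIdeal} with hPP
  have hfin : PP.Finite := by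
    refine (polePrimes_finite (eval t p₀)).subset ?_
    rintro p ⟨hp, v, hv, hpv⟩
    refine ⟨hp, v, hpv, ?_⟩
    obtain ⟨-, hk0, -, -, hE⟩ := hk v hv
    rw [(hE p₀ hp₀).2]
    have h1 : (0 : ℤ) < p₀.totalDegree := by exact_mod_cast hdeg
    nlinarith
  have hvp : ∀ p ∈ PP, ∃ v ∈ VV, (p : 𝓞 K) ∈ v.asIdeal := fun p hp => hp.2
  have hne : Nonempty (HeightOneSpectrum (𝓞 K)) := by
    obtain ⟨P, hP⟩ := Ideal.exists_maximal (𝓞 K)
    exact ⟨⟨P, hP.isPrime, Ring.ne_bot_of_isMaximal_of_not_isField hP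
      (RingOfIntegers.not_isField K)⟩⟩
  choose! φ hφ using hvp
  refine ⟨hfin.toFinset.image φ, k, ?_, ?_⟩
  · intro v hv
    obtain ⟨p, hp, rfl⟩ := Finset.mem_image.1 hv
    exact hk _ (hφ p (hfin.mem_toFinset.1 hp)).1
  have hinj : Set.InjOn φ hfin.toFinset := by
    intro p hp p' hp' he
    rw [Finset.mem_coe, hfin.mem_toFinset] at hp hp'
    have h1 := (hφ p hp).2
    rw [he] at h1
    exact prime_mem_unique _ hp.1 hp'.1 h1 (hφ p' hp').2
  rw [Finset.sum_image hinj]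
  have hprod : Z < ∏ p ∈ hfin.toFinset, p := by
    by_contra hle
    push Not at hle
    have hT : 0 < ∏ p ∈ hfin.toFinset, p := Finset.prod_pos fun p hp =>
      (hfin.mem_toFinset.1 hp).1.pos
    obtain ⟨v, k', h1, h2, h3, h4, h5⟩ := h _ hT hle β hβ
    obtain ⟨p, hp, hpv⟩ := res_prime v
    have h0 : (adv K v).v (D₀ : K) = 0 := Pool.Agent.Y673.CB.nat_unit v
      (Nat.mul_ne_zero hT.ne' hD) (Dvd.intro_left _ rfl) h3
    have hv : v ∈ VV := ⟨k', h1, h2, h0, h4, h5⟩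
    have hpP : p ∈ hfin.toFinset := hfin.mem_toFinset.2 ⟨hp, v, hv, hpv⟩
    have h6 := Pool.Agent.Y673.CB.nat_unit v (Nat.mul_ne_zero hT.ne' hD)
      ((Finset.dvd_prod_of_mem _ hpP).mul_right _ : p ∣ _ * D₀) h3
    exact Pool.Agent.Y673.CB.v_pos_of_mem v hp.ne_zero hpv h6
  have h1 : Real.log ((Z : ℝ) + 1) ≤ Real.log ((∏ p ∈ hfin.toFinset, p : ℕ) : ℝ) := by
    refine Real.log_le_log (by positivity) ?_
    exact_mod_cast hprod
  refine h1.trans ?_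
  rw [Nat.cast_prod, Real.log_prod fun p hp => by
    exact_mod_cast (hfin.mem_toFinset.1 hp).1.ne_zero]
  refine Finset.sum_le_sum fun p hp => ?_
  rw [hfin.mem_toFinset] at hp
  exact Real.log_le_log (by exact_mod_cast hp.1.pos) (by exact_mod_cast le_norm _ hp.1 (hφ p hp).2)

end Pool.Agent.X295.Lh
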