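import Pool.Agent.X295.LhB
import Pool.Agent.W238.Leh.General

/-!
Canonical heights for families of endomorphisms of projective space with several parameters
(helper file).
-/

set_option autoImplicit false

namespace Pool.Agent.X295.Lh

open MvPolynomial NumberField IsDedekindDomain Pool.Agent.Y673.Loc Pool.Agent.Y673.FM
  Pool.Agent.X295.Gal Pool.Agent.X295.Pf Height Filter Topology
open Pool.Agent.Y673.Loc.ZV
open Pool.Agent.TH377.Dyn (ovr sum_ef le_posLog)
open Real (posLog)

theorem log_norm {K L : Type} [Field K] [NumberField K] [Field L] [NumberField L] [Algebra K L]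
    (v : HeightOneSpectrum (𝓞 K)) (q : v.asIdeal.primesOver (𝓞 L)) :
    Real.log (Ideal.absNorm (ovr v q).asIdeal) =
      (q.1.inertiaDeg (𝓞 K) : ℕ) * Real.log (Ideal.absNorm v.asIdeal) := by
  have h6 : Ideal.absNorm (ovr v q).asIdeal =
      Ideal.absNorm v.asIdeal ^ q.1.inertiaDeg (𝓞 K) :=
    (Ideal.absNorm_pow_inertiaDeg v.asIdeal q.1).symm
  rw [h6]
  push_cast
  rw [Real.log_pow]

/-- the level of an extension of degree `D` -/
theorem level {β D : ℕ} (hβ : 0 < β) (h : ¬ β ∣ D) : β.minFac ≤ β / Nat.gcd β D ∧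
    ∀ k : ℤ, ¬ ((β / Nat.gcd β D : ℕ) : ℤ) ∣ k → ¬ (β : ℤ) ∣ k * D := by
  have hg : Nat.gcd β D ∣ β := Nat.gcd_dvd_left _ _
  have h1 : β / Nat.gcd β D ∣ β := Nat.div_dvd_of_dvd hg
  have h0 : 0 < β / Nat.gcd β D :=
    Nat.div_pos (Nat.gcd_le_left _ hβ) (Nat.gcd_pos_of_pos_left _ hβ)
  refine ⟨Nat.minFac_le_of_dvd ?_ h1, fun k hk hd => hk (dvd_red hβ ?_)⟩
  · by_contra hcon
    have h2 : β / Nat.gcd β D = 1 := by omega
    apply h
    have h3 := Nat.div_mul_cancel hg
    rw [h2, one_mul] at h3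
    rw [← h3]
    exact Nat.gcd_dvd_right _ _
  · rw [mul_comm]
    exact hd

variable {K : Type} [Field K] [NumberField K] {N d m : ℕ} {ι : Type} [Fintype ι]

/-- **lower bounds for the heights of the iterates** -/
theorem ht_lower {A : Fin N → MvPolynomial (Fin N) K} (hd : 2 ≤ d)
    (hhom : ∀ i, (A i).IsHomogeneous d) (hA : NonDeg A) : ∃ D₀ : ℕ, D₀ ≠ 0 ∧
    ∀ (P : Fin N → MvPolynomial (Fin N) (MvPolynomial (Fin m) K)) (δ : ℕ), 1 ≤ δ →
      (∀ i, ∀ α ∈ (P i).support, α.degree < d ∧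
        d * (coeff α (P i)).totalDegree ≤ δ * (d - α.degree)) →
      ∀ j : Fin N, (coeff 0 (P j)).totalDegree = δ → ∀ (t : Fin m → K) (Z : ℕ),
      PlZ (coeffs P) {coeff 0 (P j)} D₀ (d / Nat.gcd d δ).minFac Z t →
      ∀ (L : Type) [Field L] [NumberField L] [Algebra K L],
        ¬ (d / Nat.gcd d δ) ∣ Module.finrank K L → ∀ (y : Fin N → L) (n : ℕ),
          (d : ℝ) ^ n * δ * Real.log ((Z : ℝ) + 1) ≤
            logHeight (Fin.cons 1 ((act L (member A P t))^[n + 1] y) : Fin (N + 1) → L) ∧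
          (IsGalois K L → (d : ℝ) ^ n * δ * (Module.finrank K L * Real.log ((Z : ℝ) + 1)) ≤
            logHeight (Fin.cons 1 ((act L (member A P t))^[n + 1] y) : Fin (N + 1) → L)) := by
  obtain ⟨D₀, hD₀, hlead⟩ := lead_sz hhom hA
  refine ⟨D₀, hD₀, fun P δ hδ hlow j hj t Z hPl L _ _ _ hL y n => ?_⟩
  set β := d / Nat.gcd d δ with hβ
  have hβ0 : 0 < β := Nat.div_pos (Nat.gcd_le_left _ (by omega)) (Nat.gcd_pos_of_pos_left _
    (by omega))
  obtain ⟨hlev1, hlev2⟩ := level hβ0 hL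
  obtain ⟨T, k, hT, hlog⟩ := exists_places hD₀ hPl (Finset.mem_singleton_self _)
    (by rw [hj]; omega) hlev1
  have hTβ : ∀ v ∈ T, ¬ (β : ℤ) ∣ k v * Module.finrank K L := fun v hv =>
    hlev2 _ (hT v hv).1
  set PL : Fin N → MvPolynomial (Fin N) L := fun i =>
    MvPolynomial.map (algebraMap K L) (MvPolynomial.map (eval t) (P i)) with hPL
  have hcoef : ∀ i α, coeff α (PL i) = algebraMap K L (eval t (coeff α (P i))) := by
    intro i α
    rw [hPL, coeff_map, coeff_map]
  have hact : act L (member A P t) = mp (fun y i => aeval y (A i)) PL := by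
    funext y i
    unfold Pool.Agent.X295.Pf.act member Pool.Agent.X295.Pf.mp
    rw [map_add, aeval_map_eq y (MvPolynomial.map (eval t) (P i))]
  set z := (act L (member A P t))^[n + 1] y with hz
  have hloc : ∀ v ∈ T, ∀ q ∈ good L v β (k v), ∃ i : Fin (N + 1),
      ((d : ℝ) ^ n * δ) * ((q.1.ramificationIdx (𝓞 K) * q.1.inertiaDeg (𝓞 K) : ℕ) *
        Real.log (Ideal.absNorm v.asIdeal)) ≤
        posLog (FinitePlace.mk (ovr v q) ((Fin.cons 1 z : Fin (N + 1) → L) i)) := by
    intro v hv q hq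
    rw [mem_good] at hq
    obtain ⟨-, hk, hv0, hQ, hE⟩ := hT v hv
    have hup := up_ovr v q
    set e := q.1.ramificationIdx (𝓞 K) with he
    have he1 : 1 ≤ e := by
      by_contra hcon
      apply hq
      have : e = 0 := by omega
      rw [this, Nat.cast_zero, zero_mul]
      exact dvd_zero _
    have he' : (0 : ℤ) < e := by exact_mod_cast he1
    have hek : (0 : ℤ) < e * k v := mul_pos he' hk
    have hhyp : Hyp (adv L (ovr v q)) d (fun y i => aeval y (A i)) PL (δ * (e * k v)) := by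
      refine ⟨hd, mul_pos (by exact_mod_cast hδ) hek, ?_,
        fun a x hx => hlead v hv0 L (ovr v q) e hup a x hx, ?_, j, ?_⟩
      · funext i
        have h1 := eval_scale ((hhom i).map (algebraMap K L)) 0 (0 : Fin N → L)
        rw [zero_pow (by omega), zero_mul] at h1
        show aeval (0 : Fin N → L) (A i) = 0
        rw [aeval_map_eq, ← h1]
        congr 1
        congr 1
        funext i
        rw [zero_mul]
        rfl
      · intro i α hα
        have h1 : α ∈ (P i).support := by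
          rw [mem_support_iff] at hα ⊢
          intro h0
          apply hα
          rw [hcoef, h0, map_zero, map_zero]
        obtain ⟨h2, h3⟩ := hlow i α h1
        refine ⟨h2, e * (-((coeff α (P i)).totalDegree * k v)), ?_, ?_⟩
        · rw [hcoef]
          exact up_G hup (hQ _ (mem_coeffs h1))
        · have h4 : (d : ℤ) * (coeff α (P i)).totalDegree ≤ δ * (d - α.degree) := by
            have h5 : ((d * (coeff α (P i)).totalDegree : ℕ) : ℤ) ≤
                ((δ * (d - α.degree) : ℕ) : ℤ) := by exact_mod_cast h3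
            push_cast [Nat.cast_sub h2.le] at h5
            exact h5
          have h6 : (0 : ℤ) ≤ (e * k v) *
              (δ * (d - α.degree) - d * (coeff α (P i)).totalDegree) :=
            mul_nonneg hek.le (by linarith)
          linarith
      · have h1 := hE _ (Finset.mem_singleton_self _)
        have h2 := up_E hup h1
        rw [hcoef]
        rw [hj] at h2
        have e1 : (e : ℤ) * (-((δ : ℤ) * k v)) = -((δ : ℤ) * (e * k v)) := by ring
        rwa [e1] at h2
    have hnd : ¬ (d : ℤ) ∣ δ * (e * k v) := fun h1 => hq (dvd_red (by omega) h1)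
    obtain ⟨a, ha, haM⟩ := grow hhyp hnd y n
    rw [← hact] at ha
    obtain ⟨i, hi⟩ := ha.2
    refine ⟨i.succ, ?_⟩
    rw [Fin.cons_succ]
    refine le_trans ?_ (pos_le (ovr v q) (z i) a hi)
    rw [log_norm]
    have h1 : (d : ℤ) ^ n * δ * e ≤ -a := by
      have h2 : (0 : ℤ) ≤ (d : ℤ) ^ n * δ * e := by positivity
      have h3 : (1 : ℤ) ≤ k v := hk
      nlinarith
    have h2 : ((d : ℝ) ^ n * δ * e) ≤ ((-a : ℤ) : ℝ) := by exact_mod_cast h1
    have h3 : (0 : ℝ) ≤ (q.1.inertiaDeg (𝓞 K) : ℕ) * Real.log (Ideal.absNorm v.asIdeal) :=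
      mul_nonneg (Nat.cast_nonneg _) (Real.log_natCast_nonneg _)
    calc ((d : ℝ) ^ n * δ) * ((e * q.1.inertiaDeg (𝓞 K) : ℕ) *
          Real.log (Ideal.absNorm v.asIdeal)) =
          ((d : ℝ) ^ n * δ * e) * ((q.1.inertiaDeg (𝓞 K) : ℕ) *
            Real.log (Ideal.absNorm v.asIdeal)) := by push_cast; ring
      _ ≤ _ := mul_le_mul_of_nonneg_right h2 h3
  have hsum := sum_places T k β ((d : ℝ) ^ n * δ) (Fin.cons 1 z : Fin (N + 1) → L) (i₀ := 0)
    (Fin.cons_zero _ _) hloc
  have hc0 : (0 : ℝ) ≤ (d : ℝ) ^ n * δ := by positivity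
  have hln : ∀ v ∈ T, 0 ≤ Real.log (Ideal.absNorm v.asIdeal) := fun v _ =>
    Real.log_natCast_nonneg _
  refine ⟨?_, fun hG => ?_⟩
  · refine le_trans (mul_le_mul_of_nonneg_left (hlog.trans ?_) hc0) hsum
    refine Finset.sum_le_sum fun v hv => ?_
    refine le_mul_of_one_le_left (hln v hv) ?_
    exact_mod_cast one_le_good v β (k v) (hTβ v hv)
  · refine le_trans (mul_le_mul_of_nonneg_left ?_ hc0) hsum
    calc (Module.finrank K L : ℝ) * Real.log ((Z : ℝ) + 1) ≤
        Module.finrank K L * ∑ v ∈ T, Real.log (Ideal.absNorm v.asIdeal) :=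
          mul_le_mul_of_nonneg_left hlog (Nat.cast_nonneg _)
      _ = ∑ v ∈ T, ((∑ q ∈ good L v β (k v), q.1.ramificationIdx (𝓞 K) *
            q.1.inertiaDeg (𝓞 K) : ℕ) : ℝ) * Real.log (Ideal.absNorm v.asIdeal) := by
          rw [Finset.mul_sum]
          refine Finset.sum_congr rfl fun v hv => ?_
          rw [good_galois v β (k v) (hTβ v hv)]

theorem ht_cons {L : Type} [Field L] [NumberField L] (y : Fin (N + 1) → L) (hy : y 0 ≠ 0) :
    logHeight y = logHeight (Fin.cons 1 (deh y) : Fin (N + 1) → L) := by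
  have h1 : y = y 0 • (Fin.cons 1 (deh y) : Fin (N + 1) → L) := by
    funext i
    refine Fin.cases ?_ (fun j => ?_) i
    · rw [Pi.smul_apply, Fin.cons_zero, smul_eq_mul, mul_one]
    · rw [Pi.smul_apply, Fin.cons_succ, smul_eq_mul]
      unfold deh
      rw [mul_div_cancel₀ _ hy]
  conv_lhs => rw [h1]
  exact logHeight_smul_eq_logHeight _ hy

/-- The bounds for the canonical heights of the points outside the hyperplane at infinity over the
extensions of degree not divisible by `β`. -/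
def Good (κ : ℝ) (H d δ β : ℕ) (F : Fin (N + 1) → MvPolynomial (Fin (N + 1)) K) : Prop :=
  ∀ (L : Type) [Field L] [NumberField L] [Algebra K L], ¬ β ∣ Module.finrank K L →
    ∀ y : Fin (N + 1) → L, y 0 ≠ 0 → ∃ h : ℝ,
      Tendsto (fun n : ℕ => logHeight ((pact L F)^[n] y) / ((Module.finrank ℚ L : ℝ) *
        (d : ℝ) ^ n)) atTop (𝓝 h) ∧
      δ * κ * Real.log H / (d * Module.finrank ℚ K * Module.finrank K L) ≤ h ∧
      (IsGalois K L → δ * κ * Real.log H / (d * Module.finrank ℚ K) ≤ h)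

/-- **few exceptional members** -/
theorem lehmer_few {A : Fin N → MvPolynomial (Fin N) K} (hd : 2 ≤ d)
    (hhom : ∀ i, (A i).IsHomogeneous d) (hA : NonDeg A) (ω : Module.Basis ι ℤ (𝓞 K))
    (P : Fin N → MvPolynomial (Fin N) (MvPolynomial (Fin m) K)) (δ : ℕ) (hδ : 1 ≤ δ)
    (hlow : ∀ i, ∀ α ∈ (P i).support, α.degree < d ∧
      d * (coeff α (P i)).totalDegree ≤ δ * (d - α.degree))
    (hc : ∃ j : Fin N, (coeff 0 (P j)).totalDegree = δ) (κ : ℝ) (hκ : 0 < κ) (ε : ℝ)
    (hε : 0 < ε) :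
    ∃ C : ℝ, 0 ≤ C ∧ ∀ H : ℕ, 1 ≤ H → ∀ S : Set (Fin m → K),
      (∀ t ∈ S, HtLe ω H t ∧ ¬ Good κ H d δ (d / Nat.gcd d δ) (ext d (member A P t))) →
      S.Finite ∧ (S.ncard : ℝ) ≤ C * (H : ℝ) ^ (((m : ℝ) + 1) * Module.finrank ℚ K - 1 +
        (Module.finrank ℚ K : ℝ) / ((d / Nat.gcd d δ).minFac : ℕ) + κ + ε) := by
  obtain ⟨D₀, hD₀, h⟩ := ht_lower (m := m) hd hhom hA
  obtain ⟨j, hj⟩ := hc
  set ε' : ℝ := ε / (1 + κ) with hε'
  have hε'0 : 0 < ε' := by positivity
  have hκε : κ * (1 + ε') + ε' = κ + ε := by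
    rw [hε']
    field_simp
    ring
  obtain ⟨C, hC0, hC⟩ := count_fieldZ ω (coeffs P) {coeff 0 (P j)} (fun p hp => by
    rw [Finset.mem_singleton] at hp
    rintro rfl
    rw [← hp, totalDegree_zero] at hj
    omega) D₀ hD₀ (d / Nat.gcd d δ).minFac (Nat.minFac_pos _) ε' hε'0
  have h7 : ∀ i, ∀ α ∈ (P i).support, α.degree < d := fun i α hα => (hlow i α hα).1
  refine ⟨C, hC0, fun H hH S hS => ?_⟩
  have hH1 : (1 : ℝ) ≤ H := by exact_mod_cast hH
  have hH0 : (0 : ℝ) < H := by linarith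
  have hY1 : (1 : ℝ) ≤ (H : ℝ) ^ κ := Real.one_le_rpow hH1 hκ.le
  set Z := ⌊(H : ℝ) ^ κ⌋₊ with hZdef
  have hZ1 : 1 ≤ Z := by
    rw [hZdef, Nat.one_le_floor_iff]
    exact hY1
  have hZle : (Z : ℝ) ≤ (H : ℝ) ^ κ := Nat.floor_le (by positivity)
  have hZlt : (H : ℝ) ^ κ < Z + 1 := Nat.lt_floor_add_one _
  have hlogZ : κ * Real.log H ≤ Real.log ((Z : ℝ) + 1) := by
    rw [← Real.log_rpow hH0]
    exact Real.log_le_log (by positivity) hZlt.le
  obtain ⟨h1, h2⟩ := hC H Z hH hZ1 S (fun t ht => by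
    obtain ⟨h1, h2⟩ := hS t ht
    refine ⟨h1, fun hPl => h2 ?_⟩
    intro L _ _ _ hL y hy
    have hmor := ext_morphism (by omega) hhom hA h7 t
    have hdeg := fun i => member_deg hhom h7 t i
    obtain ⟨C', -, hC'⟩ := Pool.Agent.W238.Leh.general K N d hd (ext d (member A P t)) hmor.1
      hmor.2 1 one_pos
    obtain ⟨g1, -⟩ := hC' L
    have hy0 : y ≠ 0 := by
      rintro rfl
      exact hy rfl
    have hlim := g1 y hy0
    have hd0 : (0 : ℝ) < d := by
      have : 0 < d := by omega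
      exact_mod_cast this
    have hK0 : (0 : ℝ) < Module.finrank ℚ K := Nat.cast_pos.2 Module.finrank_pos
    have hL0 : (0 : ℝ) < Module.finrank K L := Nat.cast_pos.2 Module.finrank_pos
    have hKL : (Module.finrank ℚ L : ℝ) = Module.finrank ℚ K * Module.finrank K L := by
      rw [← Nat.cast_mul, Module.finrank_mul_finrank ℚ K L]
    refine ⟨_, hlim, ?_, ?_⟩
    · refine ge_of_tendsto' ((tendsto_add_atTop_iff_nat 1).2 hlim) fun n => ?_
      have h3 := (h P δ hδ hlow j hj t Z hPl L hL (deh y) n).1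
      have h4 := ext_iter hdeg hy (n + 1)
      have h5 : logHeight ((pact L (ext d (member A P t)))^[n + 1] y) =
          logHeight (Fin.cons 1 ((act L (member A P t))^[n + 1] (deh y)) : Fin (N + 1) → L) := by
        rw [ht_cons _ h4.1, h4.2]
        rfl
      have h6 : (d : ℝ) ^ n * δ * (κ * Real.log H) ≤
          logHeight ((pact L (ext d (member A P t)))^[n + 1] y) := by
        rw [h5]
        exact le_trans (mul_le_mul_of_nonneg_left hlogZ (by positivity)) h3
      show _ ≤ logHeight ((pact L (ext d (member A P t)))^[n + 1] y) / _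
      rw [le_div_iff₀ (by rw [hKL]; positivity), hKL]
      refine le_trans (le_of_eq ?_) h6
      field_simp
      try ring
    · intro hG
      refine ge_of_tendsto' ((tendsto_add_atTop_iff_nat 1).2 hlim) fun n => ?_
      have h3 := (h P δ hδ hlow j hj t Z hPl L hL (deh y) n).2 hG
      have h4 := ext_iter hdeg hy (n + 1)
      have h5 : logHeight ((pact L (ext d (member A P t)))^[n + 1] y) =
          logHeight (Fin.cons 1 ((act L (member A P t))^[n + 1] (deh y)) : Fin (N + 1) → L) := by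
        rw [ht_cons _ h4.1, h4.2]
        rfl
      have h6 : (d : ℝ) ^ n * δ * (Module.finrank K L * (κ * Real.log H)) ≤
          logHeight ((pact L (ext d (member A P t)))^[n + 1] y) := by
        rw [h5]
        refine le_trans (mul_le_mul_of_nonneg_left ?_ (by positivity)) h3
        exact mul_le_mul_of_nonneg_left hlogZ hL0.le
      show _ ≤ logHeight ((pact L (ext d (member A P t)))^[n + 1] y) / _
      rw [le_div_iff₀ (by rw [hKL]; positivity), hKL]
      refine le_trans (le_of_eq ?_) h6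
      field_simp
      try ring)
  refine ⟨h1, h2.trans ?_⟩
  rw [mul_assoc]
  refine mul_le_mul_of_nonneg_left ?_ hC0
  calc (Z : ℝ) ^ (1 + ε') * (H : ℝ) ^ (((m : ℝ) + 1) * Module.finrank ℚ K - 1 +
        (Module.finrank ℚ K : ℝ) / ((d / Nat.gcd d δ).minFac : ℕ) + ε')
      ≤ ((H : ℝ) ^ κ) ^ (1 + ε') * (H : ℝ) ^ (((m : ℝ) + 1) * Module.finrank ℚ K - 1 +
        (Module.finrank ℚ K : ℝ) / ((d / Nat.gcd d δ).minFac : ℕ) + ε') := by
        refine mul_le_mul_of_nonneg_right ?_ (by positivity)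
        exact Real.rpow_le_rpow (Nat.cast_nonneg _) hZle (by positivity)
    _ = (H : ℝ) ^ (κ * (1 + ε') + (((m : ℝ) + 1) * Module.finrank ℚ K - 1 +
        (Module.finrank ℚ K : ℝ) / ((d / Nat.gcd d δ).minFac : ℕ) + ε')) := by
        rw [← Real.rpow_mul hH0.le, ← Real.rpow_add hH0]
    _ ≤ _ := by
        refine Real.rpow_le_rpow_of_exponent_le hH1 ?_
        linarith

end Pool.Agent.X295.Lh
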