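import Pool.Agent.X295.LhC

/-!
Canonical heights over fields with bounded ramification for families of endomorphisms of projective
space with several parameters (helper file).
-/

set_option autoImplicit false

namespace Pool.Agent.X295.Lh

open MvPolynomial NumberField IsDedekindDomain Pool.Agent.Y673.Loc Pool.Agent.Y673.FM
  Pool.Agent.X295.Gal Pool.Agent.X295.Pf Height Filter Topology
open Pool.Agent.Y673.Loc.ZV
open Pool.Agent.TH377.Dyn (ovr sum_ef le_posLog)
open Real (posLog)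

/-- the primes of `L` not dividing `M` have ramification indices at most `B` over `K` -/
def RamLe (K L : Type) [Field K] [NumberField K] [Field L] [NumberField L] [Algebra K L]
    (M B : ℕ) : Prop :=
  ∀ (v : HeightOneSpectrum (𝓞 K)), (M : 𝓞 K) ∉ v.asIdeal →
    ∀ q : v.asIdeal.primesOver (𝓞 L), q.1.ramificationIdx (𝓞 K) ≤ B

theorem not_mem_of_v {K : Type} [Field K] [NumberField K] (v : HeightOneSpectrum (𝓞 K)) {M : ℕ}
    (hM : M ≠ 0) (h : (adv K v).v (M : K) = 0) : (M : 𝓞 K) ∉ v.asIdeal := fun hm =>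
  Pool.Agent.Y673.CB.v_pos_of_mem v hM hm h

theorem ram_pos {K L : Type} [Field K] [NumberField K] [Field L] [NumberField L] [Algebra K L]
    (v : HeightOneSpectrum (𝓞 K)) (q : v.asIdeal.primesOver (𝓞 L)) :
    1 ≤ q.1.ramificationIdx (𝓞 K) := by
  have hmax := v.isMaximal
  have h3 : v.asIdeal.ramificationIdx' (ovr v q).asIdeal = q.1.ramificationIdx (𝓞 K) :=
    Ideal.ramificationIdx'_eq_ramificationIdx v.asIdeal q.1 v.ne_bot
  rw [← h3]
  exact Nat.one_le_iff_ne_zero.2
    (Ideal.IsDedekindDomain.ramificationIdx'_ne_zero_of_liesOver (ovr v q).asIdeal v.ne_bot)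

variable {K : Type} [Field K] [NumberField K] {N d m : ℕ} {ι : Type} [Fintype ι]

/-- **lower bounds for the heights of the iterates** -/
theorem ht_lowerB {A : Fin N → MvPolynomial (Fin N) K} (hd : 2 ≤ d)
    (hhom : ∀ i, (A i).IsHomogeneous d) (hA : NonDeg A) : ∃ D₀ : ℕ, D₀ ≠ 0 ∧
    ∀ (P : Fin N → MvPolynomial (Fin N) (MvPolynomial (Fin m) K)) (δ : ℕ), 1 ≤ δ →
      (∀ i, ∀ α ∈ (P i).support, α.degree < d ∧
        d * (coeff α (P i)).totalDegree ≤ δ * (d - α.degree)) →
      ∀ j : Fin N, (coeff 0 (P j)).totalDegree = δ → ∀ (t : Fin m → K) (Z : ℕ),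
      ∀ M B : ℕ, M ≠ 0 → PlZ (coeffs P) {coeff 0 (P j)} (D₀ * M) (lvl d δ B) Z t →
      ∀ (L : Type) [Field L] [NumberField L] [Algebra K L],
        RamLe K L M B → ∀ (y : Fin N → L) (n : ℕ),
          (d : ℝ) ^ n * δ * (Module.finrank K L * Real.log ((Z : ℝ) + 1)) ≤
            logHeight (Fin.cons 1 ((act L (member A P t))^[n + 1] y) : Fin (N + 1) → L) := by
  obtain ⟨D₀, hD₀, hlead⟩ := lead_sz hhom hA
  refine ⟨D₀, hD₀, fun P δ hδ hlow j hj t Z M B hM hPl L _ _ _ hL y n => ?_⟩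
  set β := lvl d δ B with hβ
  have hDM : D₀ * M ≠ 0 := Nat.mul_ne_zero hD₀ hM
  obtain ⟨T, k, hT, hlog⟩ := exists_places hDM hPl (Finset.mem_singleton_self _)
    (by rw [hj]; omega) (le_refl β)
  set PL : Fin N → MvPolynomial (Fin N) L := fun i =>
    MvPolynomial.map (algebraMap K L) (MvPolynomial.map (eval t) (P i)) with hPL
  have hcoef : ∀ i α, coeff α (PL i) = algebraMap K L (eval t (coeff α (P i))) := by
    intro i α
    rw [hPL, coeff_map, coeff_map]
  have hact : act L (member A P t) = mp (fun y i => aeval y (A i)) PL := by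
    funext y i
    unfold Pool.Agent.X295.Pf.act member Pool.Agent.X295.Pf.mp
    rw [map_add, aeval_map_eq y (MvPolynomial.map (eval t) (P i))]
  set z := (act L (member A P t))^[n + 1] y with hz
  have hgood : ∀ v ∈ T, ∀ q : v.asIdeal.primesOver (𝓞 L),
      ¬ (d : ℤ) ∣ δ * ((q.1.ramificationIdx (𝓞 K) : ℕ) * k v) := by
    intro v hv q h1
    obtain ⟨h2, -, hv0, -, -⟩ := hT v hv
    have hvM : (adv K v).v (M : K) = 0 :=
      Pool.Agent.Y673.CB.nat_unit v hDM (Dvd.intro_left _ rfl) hv0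
    exact h2 (lvl_dvd (by omega) (ram_pos v q) (hL v (not_mem_of_v v hM hvM) q) h1)
  have hloc : ∀ v ∈ T, ∀ q ∈ good L v 0 1, ∃ i : Fin (N + 1),
      ((d : ℝ) ^ n * δ) * ((q.1.ramificationIdx (𝓞 K) * q.1.inertiaDeg (𝓞 K) : ℕ) *
        Real.log (Ideal.absNorm v.asIdeal)) ≤
        posLog (FinitePlace.mk (ovr v q) ((Fin.cons 1 z : Fin (N + 1) → L) i)) := by
    intro v hv q hq
    have hnd := hgood v hv q
    obtain ⟨-, hk, hv0', hQ, hE⟩ := hT v hv
    have hv0 : (adv K v).v (D₀ : K) = 0 :=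
      Pool.Agent.Y673.CB.nat_unit v hDM (Dvd.intro _ rfl) hv0'
    have hup := up_ovr v q
    set e := q.1.ramificationIdx (𝓞 K) with he
    have he1 : 1 ≤ e := ram_pos v q
    have he' : (0 : ℤ) < e := by exact_mod_cast he1
    have hek : (0 : ℤ) < e * k v := mul_pos he' hk
    have hhyp : Hyp (adv L (ovr v q)) d (fun y i => aeval y (A i)) PL (δ * (e * k v)) := by
      refine ⟨hd, mul_pos (by exact_mod_cast hδ) hek, ?_,
        fun a x hx => hlead v hv0 L (ovr v q) e hup a x hx, ?_, j, ?_⟩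
      · funext i
        have h1 := eval_scale ((hhom i).map (algebraMap K L)) 0 (0 : Fin N → L)
        rw [zero_pow (by omega), zero_mul] at h1
        show aeval (0 : Fin N → L) (A i) = 0
        rw [aeval_map_eq, ← h1]
        congr 1
        congr 1
        funext i
        rw [zero_mul]
        rfl
      · intro i α hα
        have h1 : α ∈ (P i).support := by
          rw [mem_support_iff] at hα ⊢
          intro h0
          apply hα
          rw [hcoef, h0, map_zero, map_zero]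
        obtain ⟨h2, h3⟩ := hlow i α h1
        refine ⟨h2, e * (-((coeff α (P i)).totalDegree * k v)), ?_, ?_⟩
        · rw [hcoef]
          exact up_G hup (hQ _ (mem_coeffs h1))
        · have h4 : (d : ℤ) * (coeff α (P i)).totalDegree ≤ δ * (d - α.degree) := by
            have h5 : ((d * (coeff α (P i)).totalDegree : ℕ) : ℤ) ≤
                ((δ * (d - α.degree) : ℕ) : ℤ) := by exact_mod_cast h3
            push_cast [Nat.cast_sub h2.le] at h5
            exact h5
          have h6 : (0 : ℤ) ≤ (e * k v) *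
              (δ * (d - α.degree) - d * (coeff α (P i)).totalDegree) :=
            mul_nonneg hek.le (by linarith)
          linarith
      · have h1 := hE _ (Finset.mem_singleton_self _)
        have h2 := up_E hup h1
        rw [hcoef]
        rw [hj] at h2
        have e1 : (e : ℤ) * (-((δ : ℤ) * k v)) = -((δ : ℤ) * (e * k v)) := by ring
        rwa [e1] at h2
    obtain ⟨a, ha, haM⟩ := grow hhyp hnd y n
    rw [← hact] at ha
    obtain ⟨i, hi⟩ := ha.2
    refine ⟨i.succ, ?_⟩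
    rw [Fin.cons_succ]
    refine le_trans ?_ (pos_le (ovr v q) (z i) a hi)
    rw [log_norm]
    have h1 : (d : ℤ) ^ n * δ * e ≤ -a := by
      have h2 : (0 : ℤ) ≤ (d : ℤ) ^ n * δ * e := by positivity
      have h3 : (1 : ℤ) ≤ k v := hk
      nlinarith
    have h2 : ((d : ℝ) ^ n * δ * e) ≤ ((-a : ℤ) : ℝ) := by exact_mod_cast h1
    have h3 : (0 : ℝ) ≤ (q.1.inertiaDeg (𝓞 K) : ℕ) * Real.log (Ideal.absNorm v.asIdeal) :=
      mul_nonneg (Nat.cast_nonneg _) (Real.log_natCast_nonneg _)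
    calc ((d : ℝ) ^ n * δ) * ((e * q.1.inertiaDeg (𝓞 K) : ℕ) *
          Real.log (Ideal.absNorm v.asIdeal)) =
          ((d : ℝ) ^ n * δ * e) * ((q.1.inertiaDeg (𝓞 K) : ℕ) *
            Real.log (Ideal.absNorm v.asIdeal)) := by push_cast; ring
      _ ≤ _ := mul_le_mul_of_nonneg_right h2 h3
  have hsum := sum_places T (fun _ => 1) 0 ((d : ℝ) ^ n * δ) (Fin.cons 1 z : Fin (N + 1) → L)
    (i₀ := 0) (Fin.cons_zero _ _) hloc
  have hc0 : (0 : ℝ) ≤ (d : ℝ) ^ n * δ := by positivity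
  refine le_trans (mul_le_mul_of_nonneg_left ?_ hc0) hsum
  calc (Module.finrank K L : ℝ) * Real.log ((Z : ℝ) + 1) ≤
      Module.finrank K L * ∑ v ∈ T, Real.log (Ideal.absNorm v.asIdeal) :=
        mul_le_mul_of_nonneg_left hlog (Nat.cast_nonneg _)
    _ = ∑ v ∈ T, ((∑ q ∈ good L v 0 1, q.1.ramificationIdx (𝓞 K) *
          q.1.inertiaDeg (𝓞 K) : ℕ) : ℝ) * Real.log (Ideal.absNorm v.asIdeal) := by
        rw [Finset.mul_sum]
        refine Finset.sum_congr rfl fun v hv => ?_
        congr 2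
        rw [← sum_ef L v]
        refine Finset.sum_congr ?_ fun q _ => rfl
        ext q
        refine ⟨fun _ => ?_, fun _ => Finset.mem_univ _⟩
        rw [mem_good, mul_one]
        intro h1
        have h2 : ((q.1.ramificationIdx (𝓞 K) : ℕ) : ℤ) = 0 := by simpa using h1
        have h3 := ram_pos v q
        omega

/-- The bounds for the canonical heights of the points outside the hyperplane at infinity over the
extensions with ramification indices at most `B` outside `M`. -/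
def GoodB (κ : ℝ) (H d δ M B : ℕ) (F : Fin (N + 1) → MvPolynomial (Fin (N + 1)) K) : Prop :=
  ∀ (L : Type) [Field L] [NumberField L] [Algebra K L], RamLe K L M B →
    ∀ y : Fin (N + 1) → L, y 0 ≠ 0 → ∃ h : ℝ,
      Tendsto (fun n : ℕ => logHeight ((pact L F)^[n] y) / ((Module.finrank ℚ L : ℝ) *
        (d : ℝ) ^ n)) atTop (𝓝 h) ∧
      δ * κ * Real.log H / (d * Module.finrank ℚ K) ≤ h

/-- **few exceptional members** -/
theorem bogomolov_few {A : Fin N → MvPolynomial (Fin N) K} (hd : 2 ≤ d)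
    (hhom : ∀ i, (A i).IsHomogeneous d) (hA : NonDeg A) (ω : Module.Basis ι ℤ (𝓞 K))
    (P : Fin N → MvPolynomial (Fin N) (MvPolynomial (Fin m) K)) (δ : ℕ) (hδ : 1 ≤ δ)
    (hlow : ∀ i, ∀ α ∈ (P i).support, α.degree < d ∧
      d * (coeff α (P i)).totalDegree ≤ δ * (d - α.degree))
    (hc : ∃ j : Fin N, (coeff 0 (P j)).totalDegree = δ) (M B : ℕ) (hM : M ≠ 0) (κ : ℝ)
    (hκ : 0 < κ) (ε : ℝ) (hε : 0 < ε) :
    ∃ C : ℝ, 0 ≤ C ∧ ∀ H : ℕ, 1 ≤ H → ∀ S : Set (Fin m → K),
      (∀ t ∈ S, HtLe ω H t ∧ ¬ GoodB κ H d δ M B (ext d (member A P t))) →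
      S.Finite ∧ (S.ncard : ℝ) ≤ C * (H : ℝ) ^ (((m : ℝ) + 1) * Module.finrank ℚ K - 1 +
        (Module.finrank ℚ K : ℝ) / (lvl d δ B : ℕ) + κ + ε) := by
  obtain ⟨D₀, hD₀, h⟩ := ht_lowerB (m := m) hd hhom hA
  obtain ⟨j, hj⟩ := hc
  set ε' : ℝ := ε / (1 + κ) with hε'
  have hε'0 : 0 < ε' := by positivity
  have hκε : κ * (1 + ε') + ε' = κ + ε := by
    rw [hε']
    field_simp
    ring
  obtain ⟨C, hC0, hC⟩ := count_fieldZ ω (coeffs P) {coeff 0 (P j)} (fun p hp => by
    rw [Finset.mem_singleton] at hp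
    rintro rfl
    rw [← hp, totalDegree_zero] at hj
    omega) (D₀ * M) (Nat.mul_ne_zero hD₀ hM) (lvl d δ B)
    (lvl_pos (by omega) _ _) ε' hε'0
  have h7 : ∀ i, ∀ α ∈ (P i).support, α.degree < d := fun i α hα => (hlow i α hα).1
  refine ⟨C, hC0, fun H hH S hS => ?_⟩
  have hH1 : (1 : ℝ) ≤ H := by exact_mod_cast hH
  have hH0 : (0 : ℝ) < H := by linarith
  have hY1 : (1 : ℝ) ≤ (H : ℝ) ^ κ := Real.one_le_rpow hH1 hκ.le
  set Z := ⌊(H : ℝ) ^ κ⌋₊ with hZdef
  have hZ1 : 1 ≤ Z := by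
    rw [hZdef, Nat.one_le_floor_iff]
    exact hY1
  have hZle : (Z : ℝ) ≤ (H : ℝ) ^ κ := Nat.floor_le (by positivity)
  have hZlt : (H : ℝ) ^ κ < Z + 1 := Nat.lt_floor_add_one _
  have hlogZ : κ * Real.log H ≤ Real.log ((Z : ℝ) + 1) := by
    rw [← Real.log_rpow hH0]
    exact Real.log_le_log (by positivity) hZlt.le
  obtain ⟨h1, h2⟩ := hC H Z hH hZ1 S (fun t ht => by
    obtain ⟨h1, h2⟩ := hS t ht
    refine ⟨h1, fun hPl => h2 ?_⟩
    intro L _ _ _ hL y hy
    have hmor := ext_morphism (by omega) hhom hA h7 t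
    have hdeg := fun i => member_deg hhom h7 t i
    obtain ⟨C', -, hC'⟩ := Pool.Agent.W238.Leh.general K N d hd (ext d (member A P t)) hmor.1
      hmor.2 1 one_pos
    obtain ⟨g1, -⟩ := hC' L
    have hy0 : y ≠ 0 := by
      rintro rfl
      exact hy rfl
    have hlim := g1 y hy0
    have hd0 : (0 : ℝ) < d := by
      have : 0 < d := by omega
      exact_mod_cast this
    have hK0 : (0 : ℝ) < Module.finrank ℚ K := Nat.cast_pos.2 Module.finrank_pos
    have hL0 : (0 : ℝ) < Module.finrank K L := Nat.cast_pos.2 Module.finrank_pos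
    have hKL : (Module.finrank ℚ L : ℝ) = Module.finrank ℚ K * Module.finrank K L := by
      rw [← Nat.cast_mul, Module.finrank_mul_finrank ℚ K L]
    refine ⟨_, hlim, ?_⟩
    refine ge_of_tendsto' ((tendsto_add_atTop_iff_nat 1).2 hlim) fun n => ?_
    have h3 := h P δ hδ hlow j hj t Z M B hM hPl L hL (deh y) n
    have h4 := ext_iter hdeg hy (n + 1)
    have h5 : logHeight ((pact L (ext d (member A P t)))^[n + 1] y) =
        logHeight (Fin.cons 1 ((act L (member A P t))^[n + 1] (deh y)) : Fin (N + 1) → L) := by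
      rw [ht_cons _ h4.1, h4.2]
      rfl
    have h6 : (d : ℝ) ^ n * δ * (Module.finrank K L * (κ * Real.log H)) ≤
        logHeight ((pact L (ext d (member A P t)))^[n + 1] y) := by
      rw [h5]
      refine le_trans (mul_le_mul_of_nonneg_left ?_ (by positivity)) h3
      exact mul_le_mul_of_nonneg_left hlogZ hL0.le
    show _ ≤ logHeight ((pact L (ext d (member A P t)))^[n + 1] y) / _
    rw [le_div_iff₀ (by rw [hKL]; positivity), hKL]
    refine le_trans (le_of_eq ?_) h6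
    field_simp
    try ring)
  refine ⟨h1, h2.trans ?_⟩
  rw [mul_assoc]
  refine mul_le_mul_of_nonneg_left ?_ hC0
  calc (Z : ℝ) ^ (1 + ε') * (H : ℝ) ^ (((m : ℝ) + 1) * Module.finrank ℚ K - 1 +
        (Module.finrank ℚ K : ℝ) / (lvl d δ B : ℕ) + ε')
      ≤ ((H : ℝ) ^ κ) ^ (1 + ε') * (H : ℝ) ^ (((m : ℝ) + 1) * Module.finrank ℚ K - 1 +
        (Module.finrank ℚ K : ℝ) / (lvl d δ B : ℕ) + ε') := by
        refine mul_le_mul_of_nonneg_right ?_ (by positivity)
        exact Real.rpow_le_rpow (Nat.cast_nonneg _) hZle (by positivity)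
    _ = (H : ℝ) ^ (κ * (1 + ε') + (((m : ℝ) + 1) * Module.finrank ℚ K - 1 +
        (Module.finrank ℚ K : ℝ) / (lvl d δ B : ℕ) + ε')) := by
        rw [← Real.rpow_mul hH0.le, ← Real.rpow_add hH0]
    _ ≤ _ := by
        refine Real.rpow_le_rpow_of_exponent_le hH1 ?_
        linarith

end Pool.Agent.X295.Lh
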