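import Pool.Agent.X295.GalI
import Pool.Agent.Y725.LS.Ext
import Pool.Agent.TH951.FE.Ht
import Pool.Agent.Helper259.HtExt

/-!
The poles of the members of families with several parameters (helper file).
-/

set_option autoImplicit false

namespace Pool.Agent.X295.Gal

open MvPolynomial NumberField IsDedekindDomain Height Pool.Agent.Y673.Loc Pool.Agent.Y673.FM
  Pool.Agent.Y673.DK
open Pool.Agent.Y673.Loc.ZV

variable {K : Type} [Field K] [NumberField K] {q : ℕ}

theorem ht_ext {K L : Type} [Field K] [NumberField K] [Field L] [NumberField L] [Algebra K L]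
    (j : K) : logHeight₁ (algebraMap K L j) = Module.finrank K L * logHeight₁ j := by
  rw [TH951.FE.logHeight₁_pair, TH951.FE.logHeight₁_pair,
    ← Pool.Agent.Helper259.HtExt.logHeight_ext (L := L)]
  congr 1
  funext i
  fin_cases i
  · rfl
  · exact (map_one _).symm

theorem res_prime (v : HeightOneSpectrum (𝓞 K)) : ∃ p : ℕ, p.Prime ∧ (p : 𝓞 K) ∈ v.asIdeal := by
  have key : ∀ n : ℕ, n ≠ 0 → (n : 𝓞 K) ∈ v.asIdeal →
      ∃ p : ℕ, p.Prime ∧ (p : 𝓞 K) ∈ v.asIdeal := by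
    intro n
    induction n using Nat.strong_induction_on with
    | _ n ih =>
      intro hn hmem
      by_cases h1 : n = 1
      · subst h1
        exact absurd ((Ideal.eq_top_iff_one _).2 (by simpa using hmem)) v.isPrime.ne_top
      obtain ⟨p, hp, m, rfl⟩ := Nat.exists_prime_and_dvd h1
      rw [Nat.cast_mul] at hmem
      have hm : m ≠ 0 := by
        rintro rfl
        exact hn (mul_zero _)
      rcases v.isPrime.mem_or_mem hmem with h | h
      · exact ⟨p, hp, h⟩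
      · exact ih m (by nlinarith [hp.two_le, Nat.pos_of_ne_zero hm]) hm h
  refine key (Ideal.absNorm v.asIdeal) ?_ (Ideal.absNorm_mem _)
  rw [Ne, Ideal.absNorm_eq_zero_iff]
  exact v.ne_bot

/-- the prime numbers below the poles of `j` -/
def polePrimes (j : K) : Set ℕ := {p | p.Prime ∧ ∃ v : HeightOneSpectrum (𝓞 K),
  (p : 𝓞 K) ∈ v.asIdeal ∧ (adv K v).v j < 0}

theorem polePrimes_finite (j : K) : (polePrimes j).Finite := by
  obtain ⟨D, hD, h⟩ := int_eval (MvPolynomial.C j : MvPolynomial (Fin 0) K)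
  refine (D.primeFactors.finite_toSet).subset ?_
  rintro p ⟨hp, v, hpv, hv⟩
  rw [Finset.mem_coe, Nat.mem_primeFactors]
  refine ⟨hp, ?_, hD⟩
  by_contra hpD
  have h1 := h v (nat_zero v hp hpv hpD) (fun _ => 0)
  rw [eval_C] at h1
  rcases h1 with h1 | h1
  · rw [h1] at hv
    simp [adv] at hv
  · omega

/-- the sum of the logarithms of the prime numbers below the poles of `j` -/
noncomputable def poleSum (j : K) : ℝ := ∑ p ∈ (polePrimes_finite j).toFinset, Real.log p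

/-- the height of `j` is bounded by the number of the poles -/
def ManyPoles (σ : ℝ) (j : K) : Prop := polePrimes j = ∅ ∨ logHeight₁ j ≤ σ * poleSum j

theorem log_prod (j : K) :
    Real.log ((∏ p ∈ (polePrimes_finite j).toFinset, p : ℕ) : ℝ) = poleSum j := by
  rw [Nat.cast_prod, Real.log_prod, poleSum]
  intro p hp
  rw [Set.Finite.mem_toFinset] at hp
  exact_mod_cast hp.1.ne_zero

theorem witJ_poles {j : K} {μ N Z : ℕ} (hμ : 0 < μ) (hw : WitJ j 0 μ 1 N Z) :
    Z < ∏ p ∈ (polePrimes_finite j).toFinset, p := by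
  by_contra hle
  push Not at hle
  have hT : 0 < ∏ p ∈ (polePrimes_finite j).toFinset, p := Finset.prod_pos fun p hp => by
    rw [Set.Finite.mem_toFinset] at hp
    exact hp.1.pos
  obtain ⟨v, k, h1, h2, -, h4, -⟩ := hw _ hT hle N le_rfl
  obtain ⟨p, hp, hpv⟩ := res_prime v
  have hpos : (0 : ℤ) < μ * k := mul_pos (by exact_mod_cast hμ) h2
  have hpP : p ∈ (polePrimes_finite j).toFinset := by
    rw [Set.Finite.mem_toFinset]
    exact ⟨hp, v, hpv, by rw [h4]; omega⟩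
  have h5 := Pool.Agent.Y673.CB.nat_unit v (a := p) (by rw [mul_one]; exact hT.ne')
    (by rw [mul_one]; exact Finset.dvd_prod_of_mem _ hpP) h1
  exact Pool.Agent.Y673.CB.v_pos_of_mem v hp.ne_zero hpv h5

theorem two_poleSum {j : K} {Z : ℕ} (hZ : 1 ≤ Z) {Y : ℝ} (hY : Y ≤ 2 * Z)
    (hne : polePrimes j ≠ ∅) (hY0 : 0 < Y)
    (h : Z < ∏ p ∈ (polePrimes_finite j).toFinset, p) :
    Real.log 2 ≤ poleSum j ∧ Real.log Y ≤ 2 * poleSum j := by
  have hZ' : (1 : ℝ) ≤ Z := by exact_mod_cast hZ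
  have h1 : Real.log Z ≤ poleSum j := by
    rw [← log_prod]
    exact Real.log_le_log (by linarith) (by exact_mod_cast h.le)
  have h2 : Real.log 2 ≤ poleSum j := by
    obtain ⟨p, hp⟩ := Set.nonempty_iff_ne_empty.2 hne
    have h3 : Real.log p ≤ poleSum j := by
      refine Finset.single_le_sum (f := fun p : ℕ => Real.log p)
        (fun p _ => Real.log_natCast_nonneg p) ?_
      rw [Set.Finite.mem_toFinset]
      exact hp
    refine le_trans (Real.log_le_log (by norm_num) ?_) h3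
    exact_mod_cast hp.1.two_le
  refine ⟨h2, ?_⟩
  have h4 := Real.log_le_log hY0 hY
  rw [Real.log_mul (by norm_num) (by linarith)] at h4
  linarith

/-- heights of integers -/
theorem ht_int (n : ℤ) {H : ℕ} (hH : 1 ≤ H) (hn : |n| ≤ H) :
    logHeight₁ ((n : ℤ) : K) ≤ Module.finrank ℚ K * Real.log H := by
  have h1 : ((n : ℤ) : K) = algebraMap ℚ K (n : ℚ) := by simp
  rw [h1, ht_ext]
  refine mul_le_mul_of_nonneg_left ?_ (Nat.cast_nonneg _)
  rw [Rat.logHeight₁_eq_log_max]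
  refine Real.log_le_log ?_ ?_
  · have h2 : 0 < max (n : ℚ).num.natAbs (n : ℚ).den := lt_max_of_lt_right (Rat.den_pos _)
    exact_mod_cast h2
  · have h3 : max (n : ℚ).num.natAbs (n : ℚ).den ≤ H := by
      rw [Rat.num_intCast, Rat.den_intCast]
      refine max_le ?_ hH
      have : (n.natAbs : ℤ) ≤ H := by
        rw [Int.natCast_natAbs]
        exact hn
      exact_mod_cast this
    exact_mod_cast h3

/-- heights of values of polynomials -/
theorem ht_val (f : MvPolynomial (Fin q) K) : ∃ C : ℝ, 0 ≤ C ∧ ∀ H : ℕ, 1 ≤ H →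
    ∀ u : Fin q → ℤ, (∀ j, |u j| ≤ H) → logHeight₁ (val u f) ≤ C * (1 + Real.log H) := by
  induction f using MvPolynomial.induction_on with
  | C a =>
    refine ⟨logHeight₁ a, zero_le_logHeight₁ a, fun H hH u hu => ?_⟩
    have h1 : 0 ≤ Real.log H := Real.log_natCast_nonneg H
    have h2 := zero_le_logHeight₁ a
    unfold val
    rw [eval_C]
    nlinarith
  | add f g hf hg =>
    obtain ⟨A, hA0, hA⟩ := hf
    obtain ⟨B, hB0, hB⟩ := hg
    refine ⟨totalWeight K * Real.log 2 + A + B, by positivity, fun H hH u hu => ?_⟩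
    have h1 : 0 ≤ Real.log H := Real.log_natCast_nonneg H
    have h2 : val u (f + g) = val u f + val u g := map_add _ _ _
    rw [h2]
    have h3 := logHeight₁_add_le (val u f) (val u g)
    have h4 := hA H hH u hu
    have h5 := hB H hH u hu
    have h6 : 0 ≤ (totalWeight K : ℝ) * Real.log 2 := by positivity
    nlinarith
  | mul_X f i hf =>
    obtain ⟨A, hA0, hA⟩ := hf
    refine ⟨A + Module.finrank ℚ K, by positivity, fun H hH u hu => ?_⟩
    have h1 : 0 ≤ Real.log H := Real.log_natCast_nonneg H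
    have h2 : val u (f * X i) = val u f * ((u i : ℤ) : K) := by
      unfold val
      rw [map_mul, eval_X]
    rw [h2]
    have h3 := logHeight₁_mul_le (val u f) ((u i : ℤ) : K)
    have h4 := hA H hH u hu
    have h5 := ht_int (K := K) (u i) hH (hu i)
    have h6 : (0 : ℝ) ≤ Module.finrank ℚ K := Nat.cast_nonneg _
    nlinarith

theorem ht_div (F G : MvPolynomial (Fin q) K) : ∃ C : ℝ, 0 ≤ C ∧ ∀ H : ℕ, 1 ≤ H →
    ∀ u : Fin q → ℤ, (∀ j, |u j| ≤ H) →
      logHeight₁ (val u F / val u G) ≤ C * (1 + Real.log H) := by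
  obtain ⟨A, hA0, hA⟩ := ht_val F
  obtain ⟨B, hB0, hB⟩ := ht_val G
  refine ⟨A + B, by positivity, fun H hH u hu => ?_⟩
  rw [div_eq_mul_inv]
  have h3 := logHeight₁_mul_le (val u F) (val u G)⁻¹
  rw [logHeight₁_inv] at h3
  have h4 := hA H hH u hu
  have h5 := hB H hH u hu
  linarith

/-- **almost all members have many poles** -/
theorem many_poles (F G : MvPolynomial (Fin q) K) (hG : G ≠ 0) (hFG : ¬ G ∣ F) {δ : ℝ}
    (hδ : 0 < δ) : ∃ σ C : ℝ, 0 ≤ σ ∧ 0 ≤ C ∧ ∀ H : ℕ, 1 ≤ H → ∀ S : Set (Fin q → ℤ),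
      (∀ u ∈ S, (∀ j, |u j| ≤ H) ∧ val u G ≠ 0 ∧ ¬ ManyPoles σ (val u F / val u G)) →
      S.Finite ∧ (S.ncard : ℝ) ≤ C * (H : ℝ) ^ ((q : ℝ) - 1 + δ) := by
  obtain ⟨g, hg, hpole⟩ := exists_pole hG hFG
  obtain ⟨A, hA0, hA⟩ := ht_div F G
  obtain ⟨ε, hε, hε1, hεδ⟩ : ∃ ε : ℝ, 0 < ε ∧ ε ≤ 1 ∧ 4 * ε ≤ δ :=
    ⟨min 1 (δ / 4), lt_min one_pos (by positivity), min_le_left _ _, by
      have := min_le_right 1 (δ / 4)
      linarith⟩
  obtain ⟨N, hN⟩ := exists_nat_gt (((Module.finrank ℚ K * G.totalDegree : ℕ) : ℝ) / ε)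
  have hN0 : 0 < N := by
    have h1 : (0 : ℝ) ≤ ((Module.finrank ℚ K * G.totalDegree : ℕ) : ℝ) / ε := by positivity
    have h2 : (0 : ℝ) < N := lt_of_le_of_lt h1 hN
    exact_mod_cast h2
  have hN' : (0 : ℝ) < N := by exact_mod_cast hN0
  have hNε : ((Module.finrank ℚ K * G.totalDegree : ℕ) : ℝ) / N ≤ ε := by
    rw [div_lt_iff₀ hε] at hN
    rw [div_le_iff₀ hN']
    linarith
  obtain ⟨C, hC0, hC⟩ := count_set (F₂ := 0) (G₂ := 1) hg hG one_ne_zero hpole (not_pole_zero g) 1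
    one_ne_zero N hN0 ε hε
  have hl2 : 0 < Real.log 2 := Real.log_pos (by norm_num)
  refine ⟨A * (1 / Real.log 2 + 2 / ε), C, by positivity, hC0, fun H hH S hS => ?_⟩
  have hH1 : (1 : ℝ) ≤ H := by exact_mod_cast hH
  have hH0 : (0 : ℝ) < H := by linarith
  have hY1 : (1 : ℝ) ≤ (H : ℝ) ^ ε := Real.one_le_rpow hH1 hε.le
  set Z := ⌊(H : ℝ) ^ ε⌋₊ with hZdef
  have hZ1 : 1 ≤ Z := by
    rw [hZdef, Nat.one_le_floor_iff]
    exact hY1
  have hZle : (Z : ℝ) ≤ (H : ℝ) ^ ε := Nat.floor_le (by positivity)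
  have hZlt : (H : ℝ) ^ ε < Z + 1 := Nat.lt_floor_add_one _
  have hZ1' : (1 : ℝ) ≤ Z := by exact_mod_cast hZ1
  obtain ⟨h1, h2⟩ := hC H Z hH hZ1 S (fun u hu => by
    obtain ⟨h1, h2, h3⟩ := hS u hu
    refine ⟨h1, h2, fun _ μ hμ _ hw => h3 ?_⟩
    have e0 : val u (0 : MvPolynomial (Fin q) K) / val u 1 = 0 := by
      unfold val
      rw [map_zero, zero_div]
    rw [e0] at hw
    have h4 := witJ_poles hμ hw
    by_cases hne : polePrimes (val u F / val u G) = ∅
    · exact Or.inl hne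
    right
    obtain ⟨h5, h6⟩ := two_poleSum hZ1 (Y := (H : ℝ) ^ ε) (by linarith) hne (by positivity) h4
    rw [Real.log_rpow hH0] at h6
    have h7 := hA H hH u h1
    set X := poleSum (val u F / val u G) with hX
    have h8 : 1 + Real.log H ≤ (1 / Real.log 2 + 2 / ε) * X := by
      have h9 : 1 ≤ 1 / Real.log 2 * X := by
        rw [one_div, inv_mul_eq_div, one_le_div hl2]
        exact h5
      have h10 : Real.log H ≤ 2 / ε * X := by
        rw [div_mul_eq_mul_div, le_div_iff₀ hε]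
        linarith
      linarith
    calc logHeight₁ (val u F / val u G) ≤ A * (1 + Real.log H) := h7
      _ ≤ A * ((1 / Real.log 2 + 2 / ε) * X) := mul_le_mul_of_nonneg_left h8 hA0
      _ = _ := by ring)
  refine ⟨h1, h2.trans ?_⟩
  rw [mul_assoc]
  refine mul_le_mul_of_nonneg_left ?_ hC0
  calc (Z : ℝ) ^ (1 + ε) * (H : ℝ) ^ ((q : ℝ) - 1 +
        (Module.finrank ℚ K * G.totalDegree : ℕ) / N + ε)
      ≤ ((H : ℝ) ^ ε) ^ (1 + ε) * (H : ℝ) ^ ((q : ℝ) - 1 + ε + ε) := by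
        refine mul_le_mul ?_ ?_ (by positivity) (by positivity)
        · exact Real.rpow_le_rpow (by linarith) hZle (by linarith)
        · refine Real.rpow_le_rpow_of_exponent_le hH1 ?_
          linarith
    _ = (H : ℝ) ^ (ε * (1 + ε) + ((q : ℝ) - 1 + ε + ε)) := by
        rw [← Real.rpow_mul hH0.le, ← Real.rpow_add hH0]
    _ ≤ (H : ℝ) ^ ((q : ℝ) - 1 + δ) := by
        refine Real.rpow_le_rpow_of_exponent_le hH1 ?_
        have h3 : ε * (1 + ε) ≤ 2 * ε := by nlinarith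
        linarith

/-- rational parameters -/
theorem many_poles_rat (F G : MvPolynomial (Fin q) K) (hG : G ≠ 0) (hFG : ∀ c : K, F ≠ C c * G)
    {δ : ℝ} (hδ : 0 < δ) : ∃ σ C : ℝ, 0 ≤ σ ∧ 0 ≤ C ∧ ∀ H : ℕ, 1 ≤ H → ∀ S : Set (Fin q → ℚ),
      (∀ t ∈ S, (∃ x, Rep H t x) ∧ rval t G ≠ 0 ∧ ¬ ManyPoles σ (rval t F / rval t G)) →
      S.Finite ∧ (S.ncard : ℝ) ≤ C * (H : ℝ) ^ ((q : ℝ) + δ) := by
  set D := max F.totalDegree G.totalDegree with hD
  have hFD : F.totalDegree ≤ D := le_max_left _ _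
  have hGD : G.totalDegree ≤ D := le_max_right _ _
  obtain ⟨σ, C, hσ, hC0, hC⟩ := many_poles (hmg D F) (hmg D G) (hmg_ne_zero hGD hG)
    (hmg_not_dvd hFD hGD hG hFG) hδ
  rw [show (((q + 1 : ℕ) : ℝ) - 1) = q by push_cast; ring] at hC
  refine ⟨σ, C, hσ, hC0, fun H hH S hS => ?_⟩
  refine rat_count (fun x => val x (hmg D G) ≠ 0 ∧
    ¬ ManyPoles σ (val x (hmg D F) / val x (hmg D G))) _ H (fun S' hS' => hC H hH S' hS') S
    fun t ht => ?_
  obtain ⟨⟨x, hx⟩, h1, h2⟩ := hS t ht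
  obtain ⟨e1, e2⟩ := val_hmg (D := D) hFD hGD hx
  exact ⟨x, hx, e2 h1, by rw [e1]; exact h2⟩

end Pool.Agent.X295.Gal
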