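import Pool.Agent.X295.GenMixK
import Pool.Agent.X295.GenNF

/-!
Families of curves in `Y(1)^n × G_m^k` over the algebraic numbers with parameters in a lattice of
algebraic numbers: definitions, and the main theorem (helper file).

`Y(1)^n × G_m^k` is the set of all `x ∈ ℂ^(n+k)` whose last `k` coordinates are not zero, where
`Y(1)` is identified with `ℂ` by the elliptic modular function `jj = j = E₄³ / Δ`.
-/

set_option autoImplicit false
set_option linter.unusedSectionVars false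

namespace Pool.Agent.X295.NF

open H294ZP UpperHalfPlane

/-- The points of the special subvariety `Z × T` of `Y(1)^n × G_m^k`, where `T` is the set of all `t`
with `t ^ a = η ^ a` for all `a ∈ M`. -/
def special {Γ : Set ℂ} {n k r : ℕ} (Z : SpecialVariety Γ n r) (M : Submodule ℤ (Fin k → ℤ))
    (η : Fin k → ℂ) : Set (Fin (n + k) → ℂ) :=
  {x | (∀ l, x (Fin.natAdd n l) ≠ 0) ∧ (fun j => x (Fin.castAdd k j)) ∈ Z.locus ∧
    ∀ a ∈ M, ∏ l, x (Fin.natAdd n l) ^ a l = ∏ l, η l ^ a l}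

/-- The scaling factors: `lam_j = a_j / (g_j ∏_i h_i ^ (w_ij))` and
`nu_l = (A_l / B_l) ∏_i h_i ^ (c_il)`. -/
structure Scaling (n k q K : ℕ) where
  a : Fin n → Parameters q
  g : Fin n → Parameters q
  w : Fin K → Fin n → ℕ
  A : Fin k → Parameters q
  B : Fin k → Parameters q
  c : Fin K → Fin k → ℤ

/-- The factor `lam_j (t)`. -/
noncomputable def Scaling.lam {n k q K : ℕ} (S : Scaling n k q K)
    (h : Fin K → Parameters q) (t : Fin q → ℂ) (j : Fin n) : ℂ :=
  valueAt t (S.a j) / (valueAt t (S.g j) * ∏ i, valueAt t (h i) ^ S.w i j)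

/-- The factor `nu_l (t)`. -/
noncomputable def Scaling.nu {n k q K : ℕ} (S : Scaling n k q K)
    (h : Fin K → Parameters q) (t : Fin q → ℂ) (l : Fin k) : ℂ :=
  valueAt t (S.A l) / valueAt t (S.B l) * ∏ i, valueAt t (h i) ^ S.c i l

/-- The poles and zeros along the hypersurfaces `h_i = 0`: `w_ij > 0`, and the other factors are not
divisible by the `h_i`. -/
structure Scaling.Exact {n k q K : ℕ} (S : Scaling n k q K)
    (h : Fin K → Parameters q) : Prop where
  w_pos : ∀ i j, 0 < S.w i j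
  a_not : ∀ i j, ¬ h i ∣ S.a j
  g_not : ∀ i j, ¬ h i ∣ S.g j
  A_not : ∀ i l, ¬ h i ∣ S.A l
  B_not : ∀ i l, ¬ h i ∣ S.B l

/-- The set `C_t` of all `(lam y', nu y'')`, `(y', y'')` in `V_t ∩ (ℂ^n × ℂ^k)`. -/
def scaledMemberM {n k q : ℕ} {κ : Type}
    (F : κ → MvPolynomial (Fin (n + k) × Bool) (Parameters q)) (t : Fin q → ℂ)
    (lam : Fin n → ℂ) (nu : Fin k → ℂ) : Set (Fin (n + k) → ℂ) :=
  {x | ∃ y : Fin (n + k) → ℂ, (∀ l, MvPolynomial.eval₂ (valueAt t) (coord none y) (F l) = 0) ∧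
    (∀ j, x (Fin.castAdd k j) = lam j * y (Fin.castAdd k j)) ∧
    ∀ l, x (Fin.natAdd n l) = nu l * y (Fin.natAdd n l)}

/-- For each set `S` of at least `k - 1` indices and each `l`, the vectors `(c_il')_{l' ≠ l}`,
`i ∈ S`, span `ℚ^(k-1)`. -/
def Independent {K k : ℕ} (c : Fin K → Fin k → ℤ) : Prop :=
  ∀ S : Finset (Fin K), k ≤ S.card + 1 → ∀ (l : Fin k) (a : Fin k → ℤ), a l = 0 →
    (∀ i ∈ S, ∑ l', a l' * c i l' = 0) → a = 0

/-- The Zilber-Pink conjecture for the curve given by the set `X` in `Y(1)^n × G_m^k`: only finitely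
many points of `X` are on special subvarieties of codimension at least two, and each proper special
subvariety contains only finitely many points of `X`. -/
def ZilberPinkM (Γ : Set ℂ) {n k : ℕ} (X : Set (Fin (n + k) → ℂ)) : Prop :=
  {x | x ∈ X ∧ ∃ (r : ℕ) (Z : SpecialVariety Γ n r) (M : Submodule ℤ (Fin k → ℤ))
    (η : Fin k → ℂ), (∀ l, ∃ o : ℕ, 0 < o ∧ η l ^ o = 1) ∧ r + 2 ≤ n + Module.finrank ℤ M ∧
    x ∈ special Z M η}.Finite ∧
  ∀ (r : ℕ) (Z : SpecialVariety Γ n r) (M : Submodule ℤ (Fin k → ℤ)) (η : Fin k → ℂ),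
    (∀ l, ∃ o : ℕ, 0 < o ∧ η l ^ o = 1) → r + 1 ≤ n + Module.finrank ℤ M →
    {x | x ∈ X ∧ x ∈ special Z M η}.Finite

/-- Linear forms which are not conjugate. -/
theorem not_dvd_lin {q r : ℕ} (ω ω' : Fin (r + 1) → algebraicClosure ℚ ℂ) (h0 : ω 0 = 1)
    (h0' : ω' 0 = 1) (hne : ω ≠ ω') {P Q : Parameters q} (hP : Irreducible P) (hQ : Q ≠ 0) :
    ¬ lin q ω P ∣ lin q ω' Q := by
  intro hd
  obtain ⟨b, hb⟩ := Function.ne_iff.1 hne
  have hb0 : b ≠ 0 := fun h => hb (by rw [h, h0, h0'])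
  set δ := ω' b - ω b with hδ
  have hδ0 : δ ≠ 0 := sub_ne_zero.2 (Ne.symm hb)
  obtain ⟨s, hs⟩ : ∃ s : Fin q → algebraicClosure ℚ ℂ, MvPolynomial.eval s Q ≠ 0 := by
    by_contra hcon
    push Not at hcon
    exact hQ (MvPolynomial.funext fun s => by rw [hcon s, map_zero])
  let y : Fin q → Parameters q := fun j =>
    MvPolynomial.C δ⁻¹ * (MvPolynomial.C (s j) - MvPolynomial.X j)
  let Ψ : Parameters (q * (r + 1)) →ₐ[algebraicClosure ℚ ℂ] Parameters q :=
    MvPolynomial.aeval fun a => if (finProdFinEquiv.symm a).2 = b then y (finProdFinEquiv.symm a).1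
      else if (finProdFinEquiv.symm a).2 = 0 then MvPolynomial.X (finProdFinEquiv.symm a).1 -
        MvPolynomial.C (ω b) * y (finProdFinEquiv.symm a).1 else 0
  have hΨ : ∀ (w : Fin (r + 1) → algebraicClosure ℚ ℂ) (hw : w 0 = 1) (j : Fin q),
      Ψ (∑ b, MvPolynomial.C (w b) * MvPolynomial.X (finProdFinEquiv (j, b))) =
        MvPolynomial.X j + MvPolynomial.C (w b - ω b) * y j := by
    intro w hw j
    rw [map_sum, Finset.sum_eq_add (a := (0 : Fin (r + 1))) (b := b) (Ne.symm hb0)]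
    · simp only [Ψ, map_mul, MvPolynomial.aeval_X, Equiv.symm_apply_apply, MvPolynomial.aeval_C,
        MvPolynomial.algebraMap_eq, if_neg (Ne.symm hb0), if_pos, hw, MvPolynomial.C_1, one_mul,
        MvPolynomial.C_sub]
      ring
    · rintro c - ⟨hc0, hcb⟩
      simp only [Ψ, map_mul, MvPolynomial.aeval_X, Equiv.symm_apply_apply, if_neg hcb, if_neg hc0,
        mul_zero]
    · intro h
      exact absurd (Finset.mem_univ _) h
    · intro h
      exact absurd (Finset.mem_univ _) h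
  have h1 : Ψ (lin q ω P) = P := by
    have h2 : Ψ.comp (lin q ω) = AlgHom.id _ _ := by
      refine MvPolynomial.algHom_ext fun j => ?_
      rw [AlgHom.comp_apply, lin, MvPolynomial.aeval_X, hΨ ω h0 j, sub_self, MvPolynomial.C_0,
        zero_mul, add_zero, AlgHom.id_apply]
    exact congrArg (fun f : Parameters q →ₐ[algebraicClosure ℚ ℂ] Parameters q => f P) h2
  have h2 : Ψ (lin q ω' Q) = MvPolynomial.C (MvPolynomial.eval s Q) := by
    have h3 : Ψ.comp (lin q ω') = MvPolynomial.aeval (fun j => MvPolynomial.C (s j)) := by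
      refine MvPolynomial.algHom_ext fun j => ?_
      rw [AlgHom.comp_apply, lin, MvPolynomial.aeval_X, hΨ ω' h0' j, MvPolynomial.aeval_X, ← hδ]
      show MvPolynomial.X j + MvPolynomial.C δ *
        (MvPolynomial.C δ⁻¹ * (MvPolynomial.C (s j) - MvPolynomial.X j)) = _
      rw [← mul_assoc, ← MvPolynomial.C_mul, mul_inv_cancel₀ hδ0, MvPolynomial.C_1, one_mul,
        add_sub_cancel]
    have h4 := congrArg (fun f : Parameters q →ₐ[algebraicClosure ℚ ℂ] Parameters q => f Q) h3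
    have h5 : (MvPolynomial.aeval (fun j => MvPolynomial.C (s j)) :
        Parameters q →ₐ[algebraicClosure ℚ ℂ] Parameters q) Q =
        MvPolynomial.C (MvPolynomial.eval s Q) := by
      rw [MvPolynomial.aeval_def, MvPolynomial.algebraMap_eq]
      exact (MvPolynomial.eval₂_comp_left MvPolynomial.C (RingHom.id _) s Q).symm
    rw [← h5]
    exact h4
  have h3 := map_dvd Ψ hd
  rw [h1, h2] at h3
  exact hP.not_isUnit (isUnit_of_dvd_unit h3 (IsUnit.map _ (isUnit_iff_ne_zero.2 hs)))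

/-- Conjugates of the substituted polynomials. -/
theorem map_lin {q r : ℕ} (ω : Fin (r + 1) → algebraicClosure ℚ ℂ)
    (σ : algebraicClosure ℚ ℂ →+* algebraicClosure ℚ ℂ) (P : Parameters q) :
    MvPolynomial.map σ (lin q ω P) = lin q (fun b => σ (ω b)) (MvPolynomial.map σ P) := by
  have h1 : (MvPolynomial.map σ).comp (lin q ω).toRingHom =
      (lin q (fun b => σ (ω b))).toRingHom.comp (MvPolynomial.map σ) := by
    refine MvPolynomial.ringHom_ext (fun a => ?_) (fun j => ?_)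
    · simp [lin]
    · simp [lin]
  exact congrArg (fun f : Parameters q →+* Parameters (q * (r + 1)) => f P) h1

/-- Families of curves in `Y(1)^n × G_m^k` which degenerate along several hypersurfaces over a number
field, and parameters in a lattice of algebraic numbers. -/
theorem mixNF {n k q K r : ℕ} {κ : Type} [Finite κ] (hK3 : 3 ≤ K) (hK : k * (k - 1) ≤ K)
    (ω : Fin (r + 1) → algebraicClosure ℚ ℂ) (hω0 : ω 0 = 1)
    (h : Fin K → Parameters q) (hirr : ∀ i, Irreducible (h i))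
    (hne : ∀ i j, i ≠ j → ∀ σ : algebraicClosure ℚ ℂ ≃ₐ[ℚ] algebraicClosure ℚ ℂ,
      ¬ h i ∣ MvPolynomial.map (σ : algebraicClosure ℚ ℂ →+* algebraicClosure ℚ ℂ) (h j))
    (F : κ → MvPolynomial (Fin (n + k) × Bool) (Parameters q)) (hF : ∀ i, GoodAlong (h i) F)
    (S : Scaling n k q K) (hS : S.Exact h) (hc : Independent S.c)
    (Γ : Set ℂ) (hΓ : Γ.Finite) (hΓa : ∀ γ ∈ Γ, IsAlgebraic ℚ γ) (ε : ℝ) (hε : 0 < ε) :
    ∃ C : ℝ, ∀ H : ℕ, 1 ≤ H →
      (({u : Fin q → Fin (r + 1) → ℤ | ¬ ZilberPinkM Γ (scaledMemberM F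
        (fun j => ∑ b, (ω b : ℂ) * (u j b : ℂ))
        (S.lam h (fun j => ∑ b, (ω b : ℂ) * (u j b : ℂ)))
        (S.nu h (fun j => ∑ b, (ω b : ℂ) * (u j b : ℂ))))} ∩ {u | ∀ j b, |u j b| ≤ H}).ncard : ℝ) ≤
          C * (H : ℝ) ^ ((q : ℝ) * (r + 1) - 1 + ε) := by
  classical
  have hω00 : ω 0 ≠ 0 := by rw [hω0]; exact one_ne_zero
  have hirr' : ∀ i, Irreducible (lin q ω (h i)) := fun i => irreducible_lin ω hω00 (hirr i)
  have hprime : ∀ i, Prime (lin q ω (h i)) := fun i =>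
    UniqueFactorizationMonoid.irreducible_iff_prime.1 (hirr' i)
  have hΩ := fun i => exists_Omega (lin q ω (h i)) (hprime i)
  choose Ω iF iA iC e he halg using hΩ
  choose d₀ hGM using fun i => ((hF i).lin ω hω00).toGM (e i) (he i)
  choose Nm DN hNm0 hNm hplace hconj using fun i => normQ (lin q ω (h i)) (hprime i).ne_zero
  have hNmne : ∀ i j, i ≠ j → ¬ lin q ω (h i) ∣
      MvPolynomial.map (Int.castRingHom Pool.Agent.Y226.QA) (Nm j) := by
    intro i j hij
    refine hconj j _ (hprime i) fun σ hd => ?_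
    rw [map_lin] at hd
    by_cases hσ : (fun b => (σ : algebraicClosure ℚ ℂ →+* algebraicClosure ℚ ℂ) (ω b)) = ω
    · rw [hσ] at hd
      exact hne i j hij σ ((lin_dvd ω hω00).1 hd)
    · exact not_dvd_lin ω _ hω0 (by simp [hω0]) (Ne.symm hσ) (hirr i)
        ((map_ne_zero_iff _ (MvPolynomial.map_injective _ σ.injective)).2 (hirr j).ne_zero) hd
  choose j0 hj0 using fun i => exists_varN (hirr' i) (hNm0 i) (hNm i)
  have hdvd : ∀ i (P : Parameters q), ¬ h i ∣ P → ¬ lin q ω (h i) ∣ lin q ω P :=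
    fun i P hP hd => hP ((lin_dvd ω hω00).1 hd)
  obtain ⟨ρ, hρ, D, hD⟩ := mix_finK n k (q * (r + 1)) K κ (∑ i, d₀ i)
    (fun t => MvPolynomial.map (lin q ω).toRingHom (F t)) (fun i => lin q ω (h i)) hprime Ω e he
    halg (fun i => by
      obtain ⟨h1, h2, h3, h4⟩ := hGM i
      refine ⟨h1, h2, h3, fun a b hab => ?_⟩
      obtain ⟨a', b', g', h5, h6, h7⟩ := h4 a b hab
      have h8 : d₀ i ≤ ∑ i, d₀ i :=
        Finset.single_le_sum (f := d₀) (fun _ _ => Nat.zero_le _) (Finset.mem_univ i)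
      exact ⟨a', b', g', h5.trans h8, h6.trans h8, h7⟩)
    hK3 hK (fun j => lin q ω (S.a j)) (fun j => lin q ω (S.g j)) S.w hS.w_pos
    (fun i j => hdvd i _ (hS.a_not i j)) (fun i j => hdvd i _ (hS.g_not i j))
    (fun l => lin q ω (S.A l)) (fun l => lin q ω (S.B l))
    (fun i l => hdvd i _ (hS.A_not i l)) (fun i l => hdvd i _ (hS.B_not i l)) S.c hc Γ hΓ
    (fun γ hγ => ⟨⟨γ, mem_algebraicClosure_iff.2 (hΓa γ hγ)⟩, rfl⟩) j0 Nm DN hNm0 hNm hplace hNmne
  -- the sets `C_t`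
  have hmain : ∀ u : Fin (q * (r + 1)) → ℤ,
      (∀ i, Good (Nm i) (MvPolynomial.rename Subtype.val (ρ i)) D u) →
      ZilberPinkM Γ (scaledMemberM F (fun j => ∑ b, (ω b : ℂ) * (u (finProdFinEquiv (j, b)) : ℂ))
        (S.lam h (fun j => ∑ b, (ω b : ℂ) * (u (finProdFinEquiv (j, b)) : ℂ)))
        (S.nu h (fun j => ∑ b, (ω b : ℂ) * (u (finProdFinEquiv (j, b)) : ℂ)))) := by
    intro u hu
    set t : Fin q → ℂ := fun j => ∑ b, (ω b : ℂ) * (u (finProdFinEquiv (j, b)) : ℂ) with ht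
    have hval : ∀ P : Parameters q, Pool.Agent.Y226.rA (MvPolynomial.eval
        (fun l => ((u l : ℤ) : Pool.Agent.Y226.QA)) (lin q ω P)) = valueAt t P := fun P =>
      rA_eval_lin ω u P
    have hvp : ∀ w : Fin K → ℕ, Pool.Agent.Y226.rA (MvPolynomial.eval
        (fun l => ((u l : ℤ) : Pool.Agent.Y226.QA)) (hprodK (fun i => lin q ω (h i)) w)) =
        ∏ i, valueAt t (h i) ^ w i := by
      intro w
      unfold hprodK
      rw [map_prod, map_prod]
      refine Finset.prod_congr rfl fun i _ => ?_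
      rw [map_pow, map_pow, hval]
    obtain ⟨hj, hl, h1, h2⟩ := hD u hu
    have hh0 : ∀ i, valueAt t (h i) ≠ 0 := by
      intro i h0
      rw [← hval, map_eq_zero] at h0
      have h5 := map_dvd (MvPolynomial.eval (fun l => ((u l : ℤ) : Pool.Agent.Y226.QA))) (hNm i)
      rw [h0, zero_dvd_iff, eval_cast] at h5
      exact (hu i).1 (by exact_mod_cast h5)
    have hset : ∀ x : Fin (n + k) → ℂ, x ∈ scaledMemberM F t (S.lam h t) (S.nu h t) →
        x ∈ Pool.Agent.X295.mscaled (fun t => MvPolynomial.map (lin q ω).toRingHom (F t))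
          (fun j => lin q ω (S.a j))
          (fun j => hprodK (fun i => lin q ω (h i)) (fun i => S.w i j) * lin q ω (S.g j))
          (fun l => hprodK (fun i => lin q ω (h i)) (fun i => (S.c i l).toNat) * lin q ω (S.A l))
          (fun l => hprodK (fun i => lin q ω (h i)) (fun i => (-S.c i l).toNat) * lin q ω (S.B l))
          (fun l => ((u l : ℤ) : Pool.Agent.Y226.QA)) := by
      rintro x ⟨y, hy, hx1, hx2⟩
      refine ⟨y, fun t' => ?_, fun j => ?_, fun l => ?_⟩
      · show MvPolynomial.eval₂ Pool.Agent.Y226.rA _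
          (MvPolynomial.map _ (MvPolynomial.map _ (F t'))) = 0
        rw [MvPolynomial.eval₂_map, MvPolynomial.eval₂_map]
        have h1 : ((Pool.Agent.Y226.rA).comp (MvPolynomial.eval
            (fun l => ((u l : ℤ) : Pool.Agent.Y226.QA)))).comp (lin q ω).toRingHom = valueAt t :=
          RingHom.ext hval
        rw [h1]
        exact hy t'
      · have h3 : valueAt t (S.g j) ≠ 0 ∧ (∏ i, valueAt t (h i) ^ S.w i j) ≠ 0 := by
          have h4 := (map_ne_zero Pool.Agent.Y226.rA).2 (hj j)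
          rw [map_mul, map_mul, hval, hvp] at h4
          exact ⟨right_ne_zero_of_mul h4, left_ne_zero_of_mul h4⟩
        rw [hval, map_mul, map_mul, hvp, hval, hx1 j, Scaling.lam]
        have h5 := h3.1
        have h6 := h3.2
        field_simp
      · have h3 : valueAt t (S.B l) ≠ 0 := by
          have h4 := (map_ne_zero Pool.Agent.Y226.rA).2 (hl l)
          rw [map_mul, map_mul, hval] at h4
          exact right_ne_zero_of_mul h4
        have h7 : ∏ i, valueAt t (h i) ^ S.c i l =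
            (∏ i, valueAt t (h i) ^ (S.c i l).toNat) /
              ∏ i, valueAt t (h i) ^ (-S.c i l).toNat := by
          rw [← Finset.prod_div_distrib]
          refine Finset.prod_congr rfl fun i _ => ?_
          rw [← zpow_natCast, ← zpow_natCast, ← zpow_sub₀ (hh0 i)]
          congr 1
          omega
        have h8 : (∏ i, valueAt t (h i) ^ (-S.c i l).toNat) ≠ 0 :=
          Finset.prod_ne_zero_iff.2 fun i _ => pow_ne_zero _ (hh0 i)
        rw [map_mul, map_mul, hvp, map_mul, map_mul, hvp, hval, hval, hx2 l, Scaling.nu, h7]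
        field_simp
    refine ⟨h1.subset ?_, fun r Z M η hη hr => (h2 r Z.toSV M η hη hr).subset ?_⟩
    · rintro x ⟨hx, r, Z, M, η, hη, hr, h0, hZ, hM⟩
      exact ⟨hset x hx, h0, r, Z.toSV, M, η, hη, hr, hZ, hM⟩
    · rintro x ⟨hx, h0, hZ, hM⟩
      exact ⟨hset x hx, h0, hZ, hM⟩
  obtain ⟨C, hC⟩ := count_union Nm j0 hj0 ρ hρ D hε
      {u : Fin (q * (r + 1)) → ℤ | ¬ ZilberPinkM Γ (scaledMemberM F
        (fun j => ∑ b, (ω b : ℂ) * (u (finProdFinEquiv (j, b)) : ℂ))
        (S.lam h (fun j => ∑ b, (ω b : ℂ) * (u (finProdFinEquiv (j, b)) : ℂ)))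
        (S.nu h (fun j => ∑ b, (ω b : ℂ) * (u (finProdFinEquiv (j, b)) : ℂ))))}
      (fun u hu => by
        by_contra hno
        push Not at hno
        exact hu (hmain u hno))
  refine ⟨C, fun H hH => ?_⟩
  let E : (Fin (q * (r + 1)) → ℤ) → (Fin q → Fin (r + 1) → ℤ) := fun u j b =>
    u (finProdFinEquiv (j, b))
  set PP : (Fin q → ℂ) → Prop := fun t => ¬ ZilberPinkM Γ (scaledMemberM F t (S.lam h t)
    (S.nu h t)) with hPP
  have h1 : {u : Fin q → Fin (r + 1) → ℤ | PP (fun j => ∑ b, (ω b : ℂ) * (u j b : ℂ))} ∩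
        {u | ∀ j b, |u j b| ≤ H} = E '' ({u |
        PP (fun j => ∑ b, (ω b : ℂ) * (u (finProdFinEquiv (j, b)) : ℂ))} ∩
          {u | ∀ a, |u a| ≤ H}) := by
    ext u
    constructor
    · rintro ⟨h1, h2⟩
      have h3 : E (fun a => u (finProdFinEquiv.symm a).1 (finProdFinEquiv.symm a).2) = u := by
        funext j b
        simp only [E]
        rw [Equiv.symm_apply_apply]
      refine ⟨fun a => u (finProdFinEquiv.symm a).1 (finProdFinEquiv.symm a).2,
        ⟨?_, fun a => h2 _ _⟩, h3⟩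
      have h4 : ∀ j b, (fun a => u (finProdFinEquiv.symm a).1 (finProdFinEquiv.symm a).2)
          (finProdFinEquiv (j, b)) = u j b := fun j b => congrFun (congrFun h3 j) b
      simp only [Set.mem_ofPred_eq] at h1 ⊢
      simp_rw [h4]
      exact h1
    · rintro ⟨v, ⟨h1, h2⟩, rfl⟩
      exact ⟨h1, fun j b => h2 _⟩
  have h2 : ({u : Fin q → Fin (r + 1) → ℤ | PP (fun j => ∑ b, (ω b : ℂ) * (u j b : ℂ))} ∩
        {u | ∀ j b, |u j b| ≤ H}).ncard ≤ ({u : Fin (q * (r + 1)) → ℤ |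
        PP (fun j => ∑ b, (ω b : ℂ) * (u (finProdFinEquiv (j, b)) : ℂ))} ∩
          {u | ∀ a, |u a| ≤ H}).ncard := by
    rw [h1]
    refine Set.ncard_image_le ?_
    refine Set.Finite.subset (Set.Finite.pi' (t := fun _ : Fin (q * (r + 1)) =>
      {z : ℤ | |z| ≤ H}) fun _ => ?_) (fun u hu a => hu.2 a)
    exact (Set.finite_Icc (-(H : ℤ)) H).subset fun z hz => abs_le.1 hz
  refine le_trans (by exact_mod_cast h2) ((hC H hH).trans (le_of_eq ?_))
  push_cast
  rfl

end Pool.Agent.X295.NF
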