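import Pool.Agent.X295.NearM2

/-!
Values of polynomials near to a hypersurface of the space of parameters (helper file).
-/

set_option autoImplicit false

open Function MvPolynomial Pool.Agent.W466.ZC Pool.Agent.TH526.ZL

namespace Pool.Agent.X295

variable {k : Type} [Field k] [Algebra k ℂ] {q : ℕ}

/-- Finitely many polynomials which are not divisible by `h` have values which are units at the
places over prime divisors of `h` which do not divide `ρ`. -/
theorem nearG [CharZero k] [Algebra.IsAlgebraic ℚ k] {ι : Type} [Finite ι]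
    (h : MvPolynomial (Fin q) ℤ) (hp : Prime (MvPolynomial.map (Int.castRingHom k) h))
    (g : ι → MvPolynomial (Fin q) k)
    (hg : ∀ x, ¬ MvPolynomial.map (Int.castRingHom k) h ∣ g x) (j0 : Fin q) :
    ∃ ρ : MvPolynomial {j : Fin q // j ≠ j0} ℤ, ρ ≠ 0 ∧
      ∃ W : Set k, W.Finite ∧ ∀ V : ValuationSubring ℂ, (∀ z ∈ W, algebraMap k ℂ z ∈ V) →
      ∀ τ : Fin q → ℤ, V.valuation ((eval τ h : ℤ) : ℂ) < 1 →
      V.valuation ((eval τ (rename Subtype.val ρ) : ℤ) : ℂ) = 1 →
      ∀ x, V.valuation (algebraMap k ℂ (eval (fun j => ((τ j : ℤ) : k)) (g x))) = 1 := by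
  classical
  have := Fintype.ofFinite ι
  have hΔ : ¬ MvPolynomial.map (Int.castRingHom k) h ∣ ∏ x, g x := by
    intro hdvd
    obtain ⟨x, -, hx⟩ := (hp.dvd_finsetProd_iff _).1 hdvd
    exact hg x hx
  obtain ⟨ρ, hρ, α, β, hαβ⟩ := elim h hp (∏ x, g x) hΔ j0
  refine ⟨ρ, hρ, coefsP α ∪ (coefsP β ∪ ⋃ x, coefsP (g x)), (coefsP_finite _).union
    ((coefsP_finite _).union (Set.finite_iUnion fun x => coefsP_finite _)), ?_⟩
  intro V hV τ hτ1 hτ2
  set τ' : Fin q → k := fun j => ((τ j : ℤ) : k) with hτ'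
  have hτV : ∀ i, algebraMap k ℂ (τ' i) ∈ V := by
    intro i
    rw [hτ', map_intCast]
    exact intCast_mem V _
  have hle : ∀ P : MvPolynomial (Fin q) k, (∀ z ∈ coefsP P, algebraMap k ℂ z ∈ V) →
      V.valuation (algebraMap k ℂ (eval τ' P)) ≤ 1 := fun P hP =>
    (ValuationSubring.valuation_le_one_iff _ _).2 (evalM_mem V P (coefsP_mem V hP) hτV)
  have hαV := hle α fun z hz => hV z (Or.inl hz)
  have hβV := hle β fun z hz => hV z (Or.inr (Or.inl hz))
  have hgV := fun x => hle (g x) fun z hz => hV z (Or.inr (Or.inr (Set.mem_iUnion.2 ⟨x, hz⟩)))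
  have hΔle : V.valuation (algebraMap k ℂ (eval τ' (∏ x, g x))) ≤ 1 := by
    rw [ValuationSubring.valuation_le_one_iff, map_prod, map_prod]
    exact prod_mem fun x _ => (ValuationSubring.valuation_le_one_iff _ _).1 (hgV x)
  have hid := congrArg (fun P => algebraMap k ℂ (eval τ' P)) hαβ
  simp only [map_add, map_mul, eval_cast, map_intCast, hτ'] at hid
  have hβΔ : V.valuation (algebraMap k ℂ (eval τ' β) *
      algebraMap k ℂ (eval τ' (∏ x, g x))) = 1 := by
    refine le_antisymm ?_ ?_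
    · rw [map_mul]
      exact mul_le_one' hβV hΔle
    · by_contra hlt
      push Not at hlt
      have h1 : V.valuation (algebraMap k ℂ (eval τ' α) * ((eval τ h : ℤ) : ℂ)) < 1 := by
        rw [map_mul]
        exact (mul_le_of_le_one_left' hαV).trans_lt hτ1
      have h2 := Valuation.map_add_lt _ h1 hlt
      rw [← hid, hτ2] at h2
      exact lt_irrefl _ h2
  have hΔ1 := (v_mul_one V hβV hΔle hβΔ).2
  rw [map_prod, map_prod] at hΔ1
  intro x
  exact v_prod_one V Finset.univ _ (fun x _ => hgV x) hΔ1 x (Finset.mem_univ x)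

end Pool.Agent.X295
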