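import Pool.Agent.Y152.BD.Fam
import Pool.Agent.X295.Cert
import Pool.Agent.X295.Bad

/-!
Families of subsets of products of modular curves with several parameters: valuation rings which are
good for the members which are near to degenerate divisors (helper file).
-/

set_option autoImplicit false

open Function UpperHalfPlane H294ZP MvPolynomial Pool.Agent.W466.ZC Pool.Agent.TH526.ZL

namespace Pool.Agent.X295

/-- the set of the coefficients of the coefficients of a polynomial over `k[u]` -/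
noncomputable def coefsM {k : Type} [Field k] {σ : Type*} {q : ℕ}
    (P : MvPolynomial σ (MvPolynomial (Fin q) k)) : Set k :=
  ⋃ u ∈ (P.support : Set (σ →₀ ℕ)), coefsP (P.coeff u)

theorem coefsM_finite {k : Type} [Field k] {σ : Type*} {q : ℕ}
    (P : MvPolynomial σ (MvPolynomial (Fin q) k)) : (coefsM P).Finite :=
  P.support.finite_toSet.biUnion fun u _ => coefsP_finite _

variable {k : Type} [Field k] [Algebra k ℂ] {q : ℕ}

theorem coefsP_mem (V : ValuationSubring ℂ) {σ : Type*} {P : MvPolynomial σ k}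
    (h : ∀ z ∈ coefsP P, algebraMap k ℂ z ∈ V) (u : σ →₀ ℕ) : algebraMap k ℂ (P.coeff u) ∈ V := by
  by_cases h0 : P.coeff u = 0
  · rw [h0, map_zero]
    exact zero_mem V
  · exact h _ ⟨u, mem_support_iff.2 h0, rfl⟩

theorem coefsM_mem (V : ValuationSubring ℂ) {σ : Type*}
    {P : MvPolynomial σ (MvPolynomial (Fin q) k)}
    (h : ∀ z ∈ coefsM P, algebraMap k ℂ z ∈ V) (u : σ →₀ ℕ) (w : Fin q →₀ ℕ) :
    algebraMap k ℂ ((P.coeff u).coeff w) ∈ V := by
  by_cases h0 : P.coeff u = 0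
  · rw [h0, coeff_zero, map_zero]
    exact zero_mem V
  · refine coefsP_mem V (fun z hz => h z (Set.mem_biUnion (x := u) ?_ hz)) w
    rw [Finset.mem_coe, mem_support_iff]
    exact h0

theorem evalM_mem (V : ValuationSubring ℂ) (P : MvPolynomial (Fin q) k)
    (hP : ∀ u, algebraMap k ℂ (P.coeff u) ∈ V) {τ : Fin q → k}
    (hτ : ∀ i, algebraMap k ℂ (τ i) ∈ V) : algebraMap k ℂ (eval τ P) ∈ V := by
  rw [eval_eq', map_sum]
  refine sum_mem fun u _ => ?_
  rw [map_mul, map_prod]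
  refine mul_mem (hP u) (prod_mem fun i _ => ?_)
  rw [map_pow]
  exact pow_mem (hτ i) _

theorem aeval_specM {σ : Type} [Fintype σ] (τ : Fin q → k)
    (P : MvPolynomial σ (MvPolynomial (Fin q) k)) (y : σ → ℂ) : aeval y (specM τ P) =
      ∑ u ∈ P.support, algebraMap k ℂ (eval τ (P.coeff u)) * ∏ j, y j ^ u j := by
  rw [specM, aeval_def, eval₂_map, eval₂_eq']
  rfl

theorem aeval_specM_mem {σ : Type} [Fintype σ] (V : ValuationSubring ℂ)
    (P : MvPolynomial σ (MvPolynomial (Fin q) k))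
    (hP : ∀ u i, algebraMap k ℂ ((P.coeff u).coeff i) ∈ V) {τ : Fin q → k}
    (hτ : ∀ i, algebraMap k ℂ (τ i) ∈ V) {y : σ → ℂ} (hy : ∀ j, y j ∈ V) :
    aeval y (specM τ P) ∈ V := by
  rw [aeval_specM]
  exact sum_mem fun u _ => mul_mem (evalM_mem V _ (hP u) hτ)
    (prod_mem fun j _ => pow_mem (hy j) _)

theorem specM_smul {σ : Type} [Fintype σ] {P : MvPolynomial σ (MvPolynomial (Fin q) k)} {e : ℕ}
    (hP : P.IsHomogeneous e) (τ : Fin q → k) (c : ℂ) (y : σ → ℂ) :
    aeval (c • y) (specM τ P) = c ^ e * aeval y (specM τ P) :=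
  aeval_smul' (hP.map _) c y

/-- Good valuation rings near to a divisor at one point of which the divisors of the `A i / B i` are in
general position. -/
theorem goodVM [IsAlgClosed k] {σ : Type} [Fintype σ] {κ : Type} [Finite κ]
    {n m : ℕ} (G : κ → MvPolynomial σ (MvPolynomial (Fin q) k))
    (hhom : ∀ i, ∃ e, (G i).IsHomogeneous e)
    (A B : Fin n → MvPolynomial σ (MvPolynomial (Fin q) k)) (d : Fin n → ℕ)
    (hA : ∀ i, (A i).IsHomogeneous (d i)) (hB : ∀ i, (B i).IsHomogeneous (d i))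
    (a : Fin q → k)
    (hdis : ∀ I : Finset (Fin n), I.card = m + 1 → ∀ y : σ → ℂ,
      (∀ i, aeval y (specM a (G i)) = 0) →
      (∀ i ∈ I, aeval y (specM a (A i)) * aeval y (specM a (B i)) = 0) → y = 0) :
    ∃ (δ : {I : Finset (Fin n) // I.card = m + 1} → MvPolynomial (Fin q) k),
      (∀ I, eval a (δ I) ≠ 0) ∧ ∃ W : Set k, W.Finite ∧ ∀ V : ValuationSubring ℂ,
      (∀ z ∈ W, algebraMap k ℂ z ∈ V) → ∀ τ : Fin q → k, (∀ i, algebraMap k ℂ (τ i) ∈ V) →
      (∀ I, V.valuation (algebraMap k ℂ (eval τ (δ I))) = 1) →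
      ∀ y : σ → ℂ, y ≠ 0 → (∀ i, aeval y (specM τ (G i)) = 0) →
        ∃ c : ℂ, c ≠ 0 ∧ (∀ i, aeval (c • y) (specM τ (A i)) ∈ V ∧
          aeval (c • y) (specM τ (B i)) ∈ V) ∧
          ∀ I : Finset (Fin n), I.card = m + 1 → ∃ i ∈ I,
            V.valuation (aeval (c • y) (specM τ (A i)) * aeval (c • y) (specM τ (B i))) = 1 := by
  classical
  have := Fintype.ofFinite κ
  choose eG heG using hhom
  let F : ∀ I : {I : Finset (Fin n) // I.card = m + 1}, κ ⊕ I.1 →
      MvPolynomial σ (MvPolynomial (Fin q) k) :=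
    fun I b => Sum.elim (fun i => G i) (fun i : I.1 => A i * B i) b
  have hFhom : ∀ I b, (F I b).IsHomogeneous (Sum.elim eG (fun i : I.1 => d i + d i) b) := by
    intro I b
    rcases b with i | i
    · exact heG i
    · exact (hA i).mul (hB i)
  have hcert : ∀ I : {I : Finset (Fin n) // I.card = m + 1}, ∃ (D : ℕ)
      (δ : MvPolynomial (Fin q) k), eval a δ ≠ 0 ∧ ∃ U : σ → κ ⊕ I.1 →
      MvPolynomial σ (MvPolynomial (Fin q) k), ∀ j,
        C δ * (X j : MvPolynomial σ (MvPolynomial (Fin q) k)) ^ D = ∑ b, U j b * F I b := by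
    intro I
    obtain ⟨M', hM'⟩ := cert0 (k := k) (fun b => specM a (F I b)) (fun y hb =>
      hdis I.1 I.2 y (fun i => hb (Sum.inl i)) fun i hi => by
        have := hb (Sum.inr ⟨i, hi⟩)
        simp only [F, Sum.elim_inr] at this
        rwa [map_mul, map_mul] at this)
    obtain ⟨D, δ, hδ, hmem⟩ := certM (F I) _ (hFhom I) a hM'
    refine ⟨D, δ, hδ, ?_⟩
    choose U hU using fun j => (Ideal.mem_span_range_iff_exists_fun).1 (hmem j)
    exact ⟨U, fun j => (hU j).symm⟩
  choose D δ hδ U hU using hcert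
  let W : Set k := (⋃ r : {I : Finset (Fin n) // I.card = m + 1} × σ,
      ⋃ b : κ ⊕ r.1.1, coefsM (U r.1 r.2 b)) ∪
    ((⋃ i, coefsM (A i)) ∪ ((⋃ i, coefsM (B i)) ∪ (⋃ i, coefsM (G i))))
  have hWfin : W.Finite := by
    refine Set.Finite.union (Set.finite_iUnion fun q => Set.finite_iUnion fun b =>
      coefsM_finite _) (Set.Finite.union (Set.finite_iUnion fun i => coefsM_finite _)
      (Set.Finite.union (Set.finite_iUnion fun i => coefsM_finite _)
      (Set.finite_iUnion fun i => coefsM_finite _)))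
  refine ⟨δ, hδ, W, hWfin, fun V hW => ?_⟩
  intro τ hτV hδτ y hy0 hyG
  have hUV : ∀ I j b u w, algebraMap k ℂ (((U I j b).coeff u).coeff w) ∈ V := by
    intro I j b
    refine coefsM_mem V fun z hz => hW z (Or.inl (Set.mem_iUnion.2 ⟨(I, j),
      Set.mem_iUnion.2 ⟨b, hz⟩⟩))
  have hAV : ∀ i u j, algebraMap k ℂ (((A i).coeff u).coeff j) ∈ V := fun i =>
    coefsM_mem V fun z hz => hW z (Or.inr (Or.inl (Set.mem_iUnion.2 ⟨i, hz⟩)))
  have hBV : ∀ i u j, algebraMap k ℂ (((B i).coeff u).coeff j) ∈ V := fun i =>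
    coefsM_mem V fun z hz => hW z (Or.inr (Or.inr (Or.inl (Set.mem_iUnion.2 ⟨i, hz⟩))))
  set v := V.valuation with hv
  have hne : (Finset.univ : Finset σ).Nonempty := by
    by_contra h
    rw [Finset.not_nonempty_iff_eq_empty, Finset.univ_eq_empty_iff] at h
    exact hy0 (funext fun j => (h.false j).elim)
  obtain ⟨j0, -, hj0⟩ := Finset.exists_max_image Finset.univ (fun j => v (y j)) hne
  have hyj0 : y j0 ≠ 0 := by
    intro h
    apply hy0
    funext j
    have h1 := hj0 j (Finset.mem_univ j)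
    simp only [h, map_zero, le_zero_iff] at h1
    exact (map_eq_zero v).1 h1
  set z := (y j0)⁻¹ • y with hz
  have hzV : ∀ j, z j ∈ V := by
    intro j
    rw [← ValuationSubring.valuation_le_one_iff, hz, Pi.smul_apply, smul_eq_mul, map_mul, map_inv₀]
    have h1 := hj0 j (Finset.mem_univ j)
    have h2 : v (y j0) ≠ 0 := (map_ne_zero v).2 hyj0
    calc (v (y j0))⁻¹ * v (y j) ≤ (v (y j0))⁻¹ * v (y j0) := mul_le_mul_right h1 _
      _ = 1 := inv_mul_cancel₀ h2
  have hzG : ∀ i, aeval z (specM τ (G i)) = 0 := by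
    intro i
    rw [hz, specM_smul (heG i), hyG i, mul_zero]
  refine ⟨(y j0)⁻¹, inv_ne_zero hyj0, fun i => ⟨aeval_specM_mem V _ (hAV i) hτV hzV,
    aeval_specM_mem V _ (hBV i) hτV hzV⟩, ?_⟩
  intro I hI
  by_contra hcon
  push Not at hcon
  have hlt : ∀ i ∈ I, v (aeval z (specM τ (A i)) * aeval z (specM τ (B i))) < 1 := by
    intro i hi
    refine lt_of_le_of_ne ?_ (hcon i hi)
    rw [ValuationSubring.valuation_le_one_iff]
    exact mul_mem (aeval_specM_mem V _ (hAV i) hτV hzV) (aeval_specM_mem V _ (hBV i) hτV hzV)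
  have h1 := congrArg (fun P => aeval z (specM τ P)) (hU ⟨I, hI⟩ j0)
  have h2 : z j0 = 1 := by
    rw [hz, Pi.smul_apply, smul_eq_mul, inv_mul_cancel₀ hyj0]
  have hL : aeval z (specM τ (C (δ ⟨I, hI⟩) *
      (X j0 : MvPolynomial σ (MvPolynomial (Fin q) k)) ^ D ⟨I, hI⟩)) =
      algebraMap k ℂ (eval τ (δ ⟨I, hI⟩)) := by
    rw [map_mul, map_mul, map_pow, map_pow]
    have e1 : specM (σ := σ) τ (C (δ ⟨I, hI⟩)) = C (eval τ (δ ⟨I, hI⟩)) := by
      rw [specM, MvPolynomial.map_C]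
    have e2 : specM (σ := σ) τ (X j0) = X j0 := by
      rw [specM, MvPolynomial.map_X]
    rw [e1, e2, aeval_C, aeval_X, h2, one_pow, mul_one]
  simp only at h1
  rw [hL, map_sum, map_sum] at h1
  have h3 : v (∑ b, aeval z (specM τ (U ⟨I, hI⟩ j0 b * F ⟨I, hI⟩ b))) < 1 := by
    refine Valuation.map_sum_lt _ one_ne_zero fun b _ => ?_
    rw [map_mul, map_mul, map_mul]
    refine (mul_le_of_le_one_left' ((ValuationSubring.valuation_le_one_iff _ _).2
      (aeval_specM_mem V _ (hUV ⟨I, hI⟩ j0 b) hτV hzV))).trans_lt ?_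
    rcases b with i | i
    · simp only [F, Sum.elim_inl, hzG i, map_zero]
      exact zero_lt_one
    · simp only [F, Sum.elim_inr, map_mul (specM τ), map_mul (aeval z)]
      exact hlt i i.2
  rw [← h1, hδτ ⟨I, hI⟩] at h3
  exact lt_irrefl _ h3

end Pool.Agent.X295
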