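import Pool.Agent.X295.Lin
import Pool.Agent.X295.Sub4

/-!
Projections of special subvarieties of `Y(1)^n`, and zeros of polynomials in boxes (helper file).
-/

set_option autoImplicit false

namespace Pool.Agent.X295

open MvPolynomial UpperHalfPlane H294ZP

/-- The projection of a special subvariety. -/
theorem SpV_proj {Λ : Type} [CommRing Λ] {f : Λ →+* ℂ} {n r m c : ℕ}
    (Z : Pool.Agent.Y152.RP.Fam.SpecialVariety f n r) (σ : Fin m → Fin n)
    (hm : (Finset.univ.filter fun l => ∃ t, Z.cls (σ t) = some l).card + c ≤ m) :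
    ∃ (r' : ℕ) (Z' : Pool.Agent.Y152.RP.Fam.SpecialVariety f m r'), r' + c ≤ m ∧
      ∀ x ∈ Z.locus, (fun t => x (σ t)) ∈ Z'.locus := by
  classical
  let R : Finset (Fin r) := Finset.univ.filter fun l => ∃ t, Z.cls (σ t) = some l
  let F : Fin r → Option (Fin R.card) := fun l => if h : l ∈ R then some (R.equivFin ⟨l, h⟩) else none
  refine ⟨R.card, ⟨fun t => (Z.cls (σ t)).bind F, ?_, fun t => Z.mat (σ t), fun t => Z.det_pos _,
    fun t => Z.const (σ t), fun t => Z.allowed _⟩, hm, ?_⟩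
  · intro l'
    obtain ⟨t, ht⟩ := (Finset.mem_filter.1 (R.equivFin.symm l').2).2
    refine ⟨t, ?_⟩
    have hl : (R.equivFin.symm l').1 ∈ R := (R.equivFin.symm l').2
    rw [ht, Option.bind_some]
    simp only [F, dif_pos hl, Subtype.coe_eta, Equiv.apply_symm_apply]
  rintro x ⟨z, hz⟩
  refine ⟨fun l' => z (R.equivFin.symm l').1, fun t => ⟨fun h => ?_, fun l' h => ?_⟩⟩
  · refine (hz (σ t)).1 ?_
    rcases hc : Z.cls (σ t) with _ | l
    · rfl
    · exfalso
      have hl : l ∈ R := Finset.mem_filter.2 ⟨Finset.mem_univ _, t, hc⟩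
      have h' : (Z.cls (σ t)).bind F = none := h
      rw [hc, Option.bind_some] at h'
      simp only [F, dif_pos hl] at h'
      exact absurd h' (by simp)
  · have h' : (Z.cls (σ t)).bind F = some l' := h
    rcases hc : Z.cls (σ t) with _ | l
    · rw [hc] at h'
      exact absurd h' (by simp)
    · have hl : l ∈ R := Finset.mem_filter.2 ⟨Finset.mem_univ _, t, hc⟩
      rw [hc, Option.bind_some] at h'
      simp only [F, dif_pos hl] at h'
      have h2 := Option.some_injective _ h'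
      have h3 : z (R.equivFin.symm l').1 = z l := by
        rw [← h2, Equiv.symm_apply_apply]
      have h4 := (hz (σ t)).2 l hc
      rw [← h3] at h4
      exact h4

/-- A special subvariety of codimension at least `c`, and its projections. -/
theorem SpV_witness {Λ : Type} [CommRing Λ] {f : Λ →+* ℂ} {n r c : ℕ}
    (Z : Pool.Agent.Y152.RP.Fam.SpecialVariety f n r) (hrc : r + c ≤ n) :
    ∃ s : Finset (Fin n), s.card ≤ 2 * c ∧ ∀ (m : ℕ) (σ : Fin m → Fin n),
      Function.Injective σ → (∀ i ∈ s, ∃ t, σ t = i) →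
      ∃ (r' : ℕ) (Z' : Pool.Agent.Y152.RP.Fam.SpecialVariety f m r'), r' + c ≤ m ∧
        ∀ x ∈ Z.locus, (fun t => x (σ t)) ∈ Z'.locus := by
  obtain ⟨s, hs, h⟩ := exists_witness Z.cls hrc
  exact ⟨s, hs, fun m σ hσ h1 => SpV_proj Z σ (h m σ hσ h1)⟩

/-- Zeros in boxes of polynomials over fields of characteristic zero. -/
theorem zerosK {k : Type} [Field k] [CharZero k] {q : ℕ} {P : MvPolynomial (Fin q) k} (hP : P ≠ 0)
    {ε : ℝ} (hε : 0 < ε) :
    ∃ C : ℝ, 0 ≤ C ∧ ∀ H : ℕ, 1 ≤ H →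
      (({u : Fin q → ℤ | eval (fun j => ((u j : ℤ) : k)) P = 0} ∩ {u | ∀ j, |u j| ≤ (H : ℤ)}).ncard :
        ℝ) ≤ C * (H : ℝ) ^ ((q : ℝ) - 1 + ε) := by
  classical
  rcases Nat.eq_zero_or_pos q with rfl | hq
  · refine ⟨0, le_rfl, fun H _ => ?_⟩
    have h1 : {u : Fin 0 → ℤ | eval (fun j => ((u j : ℤ) : k)) P = 0} ∩
        {u | ∀ j, |u j| ≤ (H : ℤ)} = ∅ := by
      refine Set.eq_empty_of_forall_notMem ?_
      rintro u ⟨hu, -⟩
      obtain ⟨c, rfl⟩ := C_surjective (Fin 0) P
      rw [Set.mem_ofPred_eq, eval_C] at hu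
      exact hP (by rw [hu, map_zero])
    rw [h1, Set.ncard_empty]
    simp
  · refine ⟨P.totalDegree * 3 ^ (q - 1), by positivity, fun H hH => ?_⟩
    let S : Finset k := (Finset.Icc (-(H : ℤ)) H).image fun z : ℤ => (z : k)
    have hScard : S.card = 2 * H + 1 := by
      rw [Finset.card_image_of_injective _ Int.cast_injective, card_Icc]
    have h := schwartz_zippel_totalDegree hP S
    rw [hScard] at h
    let Φ : (Fin q → ℤ) → (Fin q → k) := fun u j => ((u j : ℤ) : k)
    have hΦ : Function.Injective Φ := by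
      intro u v huv
      funext j
      exact Int.cast_injective (congrFun huv j)
    have hcard : (({u : Fin q → ℤ | eval (fun j => ((u j : ℤ) : k)) P = 0} ∩
        {u | ∀ j, |u j| ≤ (H : ℤ)}).ncard) ≤
        ((Fintype.piFinset fun _ : Fin q => S).filter fun x => eval x P = 0).card := by
      rw [← Set.ncard_image_of_injective _ hΦ, ← Set.ncard_coe_finset]
      refine Set.ncard_le_ncard ?_ (Finset.finite_toSet _)
      rintro _ ⟨u, ⟨hu1, hu2⟩, rfl⟩
      rw [Finset.mem_coe, Finset.mem_filter, Fintype.mem_piFinset]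
      exact ⟨fun j => Finset.mem_image.2 ⟨u j, Finset.mem_Icc.2 (abs_le.1 (hu2 j)), rfl⟩, hu1⟩
    have hpos : (0 : NNRat) < ((2 * H + 1 : ℕ) : NNRat) := by positivity
    have h2 : ((((Fintype.piFinset fun _ : Fin q => S).filter fun x => eval x P = 0).card : ℕ) :
        NNRat) ≤ P.totalDegree * ((2 * H + 1 : ℕ) : NNRat) ^ (q - 1) := by
      rw [div_le_div_iff₀ (by positivity) hpos] at h
      have h3 : ((((Fintype.piFinset fun _ : Fin q => S).filter fun x => eval x P = 0).card : ℕ) :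
          NNRat) * ((2 * H + 1 : ℕ) : NNRat) ≤
          (P.totalDegree * ((2 * H + 1 : ℕ) : NNRat) ^ (q - 1)) *
          ((2 * H + 1 : ℕ) : NNRat) := by
        have h5 : ((2 * H + 1 : ℕ) : NNRat) ^ q = ((2 * H + 1 : ℕ) : NNRat) ^ (q - 1) *
            ((2 * H + 1 : ℕ) : NNRat) := by
          rw [← pow_succ, Nat.sub_add_cancel hq]
        rw [h5, ← mul_assoc] at h
        exact h
      exact le_of_mul_le_mul_right h3 hpos
    have h3 : ((Fintype.piFinset fun _ : Fin q => S).filter fun x => eval x P = 0).card ≤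
        P.totalDegree * (2 * H + 1) ^ (q - 1) := by exact_mod_cast h2
    have h4 : (({u : Fin q → ℤ | eval (fun j => ((u j : ℤ) : k)) P = 0} ∩
        {u | ∀ j, |u j| ≤ (H : ℤ)}).ncard : ℝ) ≤ P.totalDegree * (2 * H + 1) ^ (q - 1) := by
      exact_mod_cast hcard.trans h3
    have hH1 : (1 : ℝ) ≤ H := by exact_mod_cast hH
    calc (({u : Fin q → ℤ | eval (fun j => ((u j : ℤ) : k)) P = 0} ∩
        {u | ∀ j, |u j| ≤ (H : ℤ)}).ncard : ℝ) ≤ P.totalDegree * (2 * H + 1) ^ (q - 1) := h4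
      _ ≤ P.totalDegree * (3 * H) ^ (q - 1) := by
          gcongr
          linarith
      _ = P.totalDegree * 3 ^ (q - 1) * (H : ℝ) ^ ((q : ℝ) - 1) := by
          rw [mul_pow, ← mul_assoc]
          congr 1
          rw [← Real.rpow_natCast, Nat.cast_sub hq, Nat.cast_one]
      _ ≤ P.totalDegree * 3 ^ (q - 1) * (H : ℝ) ^ ((q : ℝ) - 1 + ε) := by
          gcongr
          linarith

/-- Zeros of polynomials in the parameters of a lattice. -/
theorem zerosLin {K : Subfield ℂ} {q d : ℕ} (ω : Fin (d + 1) → K) (hω0 : ω 0 ≠ 0)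
    {P : MvPolynomial (Fin q) K} (hP : P ≠ 0) {ε : ℝ} (hε : 0 < ε) :
    ∃ C : ℝ, 0 ≤ C ∧ ∀ H : ℕ, 1 ≤ H →
      (({u : Fin q → Fin (d + 1) → ℤ | evalAt K (fun j => ∑ b, (ω b : ℂ) * (u j b : ℂ)) P = 0} ∩
        {u | ∀ j b, |u j b| ≤ H}).ncard : ℝ) ≤ C * (H : ℝ) ^ ((q : ℝ) * (d + 1) - 1 + ε) := by
  have hinj : lin q ω P ≠ 0 := by
    intro h0
    apply hP
    have h1 := lin_eq ω hω0 P
    rw [h0] at h1
    have h2 := (map_eq_zero_iff _ (rename_injective _ finProdFinEquiv.injective)).1 h1.symm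
    have h3 := (map_eq_zero_iff _ (thetaEquiv q ω hω0).injective).1 h2
    exact (map_eq_zero_iff _ (rename_injective _ fun a b hab => (Prod.mk.inj hab).1)).1 h3
  obtain ⟨C, hC0, hC⟩ := zerosK hinj hε
  refine ⟨C, hC0, fun H hH => ?_⟩
  rw [count_lin ω (fun t => evalAt K t P = 0) H]
  have h1 : {u : Fin (q * (d + 1)) → ℤ | evalAt K (latt ω fun a => (u a : ℂ)) P = 0} =
      {u | eval (fun j => ((u j : ℤ) : K)) (lin q ω P) = 0} := by
    ext u
    rw [Set.mem_ofPred_eq, Set.mem_ofPred_eq, ← evalAt_lin]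
    have h2 : evalAt K (fun a => (u a : ℂ)) (lin q ω P) =
        algebraMap K ℂ (eval (fun j => ((u j : ℤ) : K)) (lin q ω P)) := by
      have h3 : evalAt K (fun a => (u a : ℂ)) =
          (algebraMap K ℂ).comp (eval fun j => ((u j : ℤ) : K)) := by
        refine MvPolynomial.ringHom_ext (fun a => ?_) (fun j => ?_)
        · simp [evalAt]
        · simp [evalAt]
      rw [h3]
      rfl
    rw [h2, map_eq_zero]
  rw [h1]
  refine (hC H hH).trans (le_of_eq ?_)
  push_cast
  rfl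

end Pool.Agent.X295
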