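import Pool.Agent.X295.MixNF
import Pool.Agent.X295.PartF

/-!
Families of curves over number fields whose modular coordinates do not degenerate all together
(helper file).
-/

set_option autoImplicit false
set_option linter.unusedSectionVars false

namespace Pool.Agent.X295.NF

open H294ZP UpperHalfPlane

/-- Special subvarieties and their projections. -/
theorem witnessNF {Γ : Set ℂ} {n r c : ℕ} (Z : SpecialVariety Γ n r) (hrc : r + c ≤ n) :
    ∃ s : Finset (Fin n), s.card ≤ 2 * c ∧ ∀ (m : ℕ) (σ : Fin m → Fin n),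
      Function.Injective σ → (∀ i ∈ s, ∃ t, σ t = i) →
      ∃ (r' : ℕ) (Z' : SpecialVariety Γ m r'), r' + c ≤ m ∧
        ∀ x ∈ Z.locus, (fun t => x (σ t)) ∈ Z'.locus := by
  let Z₀ : Pool.Agent.Y152.RP.Fam.SpecialVariety (algebraMap (Algebra.adjoin ℤ Γ) ℂ) n r :=
    ⟨Z.cls, Z.surj, Z.mat, Z.det_pos, Z.const, Z.allowed⟩
  obtain ⟨s, hs, h⟩ := SpV_witness (c := c) Z₀ hrc
  refine ⟨s, hs, fun m σ hσ h1 => ?_⟩
  obtain ⟨r', Z', hr', hZ'⟩ := h m σ hσ h1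
  exact ⟨r', ⟨Z'.cls, Z'.surj, Z'.mat, Z'.det_pos, Z'.const, Z'.allowed⟩, hr', hZ'⟩

/-- The dimension of a special subvariety. -/
theorem SpecialVariety.le' {Γ : Set ℂ} {n r : ℕ} (Z : SpecialVariety Γ n r) : r ≤ n := by
  choose g hg using Z.surj
  have h1 : Function.Injective g := by
    intro l l' hll
    have h2 := hg l
    rw [hll, hg l'] at h2
    exact (Option.some_injective _ h2).symm
  simpa using Fintype.card_le_of_injective g h1

/-- The Zilber-Pink conjecture for curves, from projections to sets of coordinates such that each set of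
at most four coordinates is in one of them. -/
theorem zp_of_proj {Γ : Set ℂ} {n P : ℕ} (X : Set (Fin n → ℂ))
    (hX : ∀ (i : Fin n) (c : ℂ), {x | x ∈ X ∧ x i = c}.Finite)
    (m : Fin P → ℕ) (σ : ∀ s, Fin (m s) → Fin n) (hσ : ∀ s, Function.Injective (σ s))
    (hcover : ∀ J : Finset (Fin n), J.card ≤ 4 → ∃ s, ∀ i ∈ J, ∃ t, σ s t = i)
    (Y : ∀ s, Set (Fin (m s) → ℂ)) (hY : ∀ s, ZilberPink Γ (Y s))
    (hsub : ∀ s, ∀ x ∈ X, (fun i => x (σ s i)) ∈ Y s) : ZilberPink Γ X := by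
  classical
  have hfib : ∀ (s : Fin P) (t₀ : Fin (m s)) (S : Set (Fin (m s) → ℂ)), S.Finite →
      {x | x ∈ X ∧ (fun t => x (σ s t)) ∈ S}.Finite := by
    intro s t₀ S hS
    refine (hS.biUnion fun y _ => hX (σ s t₀) (y t₀)).subset ?_
    rintro x ⟨hx, hxS⟩
    exact Set.mem_biUnion hxS ⟨hx, rfl⟩
  constructor
  · have hU : (⋃ s : Fin P, {x | x ∈ X ∧ ∃ _ : Fin (m s), (fun t => x (σ s t)) ∈
        {y | y ∈ Y s ∧ ∃ (r : ℕ) (Z : SpecialVariety Γ (m s) r), r + 2 ≤ m s ∧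
            y ∈ Z.locus}}).Finite := by
      refine Set.finite_iUnion fun s => ?_
      by_cases hne : Nonempty (Fin (m s))
      · obtain ⟨t₀⟩ := hne
        refine (hfib s t₀ _ (hY s).1).subset ?_
        rintro x ⟨hx, -, hxS⟩
        exact ⟨hx, hxS⟩
      · refine Set.finite_empty.subset ?_
        rintro x ⟨-, t, -⟩
        exact (hne ⟨t⟩).elim
    refine hU.subset ?_
    rintro x ⟨hx, r, Z, hr, hZ⟩
    obtain ⟨E, hE, hpr⟩ := witnessNF (c := 2) Z hr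
    obtain ⟨s, hs⟩ := hcover E (by omega)
    obtain ⟨r', Z', hr', hZ'⟩ := hpr (m s) (σ s) (hσ s) hs
    exact Set.mem_iUnion.2 ⟨s, hx, ⟨0, by omega⟩, hsub s x hx, r', Z', hr', hZ' x hZ⟩
  · intro r Z hr
    obtain ⟨E, hE, hpr⟩ := witnessNF (c := 1) Z hr
    obtain ⟨s, hs⟩ := hcover E (by omega)
    obtain ⟨r', Z', hr', hZ'⟩ := hpr (m s) (σ s) (hσ s) hs
    refine (hfib s ⟨0, by omega⟩ _ ((hY s).2 r' Z' (by omega))).subset ?_
    rintro x ⟨hx, hZ⟩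
    exact ⟨hx, hsub s x hx, hZ' x hZ⟩

/-- The projection to the modular coordinates `x_{σ 0}, x_{σ 1}, …` and the torus. -/
def projM {n m k : ℕ} (σ : Fin m → Fin n) (x : Fin (n + k) → ℂ) : Fin (m + k) → ℂ :=
  Fin.addCases (fun t => x (Fin.castAdd k (σ t))) (fun l => x (Fin.natAdd n l))

theorem projM_cast {n m k : ℕ} (σ : Fin m → Fin n) (x : Fin (n + k) → ℂ) (t : Fin m) :
    projM σ x (Fin.castAdd k t) = x (Fin.castAdd k (σ t)) := Fin.addCases_left t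

theorem projM_nat {n m k : ℕ} (σ : Fin m → Fin n) (x : Fin (n + k) → ℂ) (l : Fin k) :
    projM σ x (Fin.natAdd m l) = x (Fin.natAdd n l) := Fin.addCases_right l

/-- The Zilber-Pink conjecture for curves in `Y(1)^n × G_m^k`, from projections to sets of modular
coordinates and the torus, such that each set of at most four modular coordinates is in one of them. -/
theorem zpM_of_proj {Γ : Set ℂ} {n k P : ℕ} (hk : 0 < k) (X : Set (Fin (n + k) → ℂ))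
    (hX : ∀ (i : Fin (n + k)) (c : ℂ), {x | x ∈ X ∧ x i = c}.Finite)
    (m : Fin P → ℕ) (σ : ∀ s, Fin (m s) → Fin n) (hσ : ∀ s, Function.Injective (σ s))
    (hcover : ∀ J : Finset (Fin n), J.card ≤ 4 → ∃ s, ∀ i ∈ J, ∃ t, σ s t = i)
    (Y : ∀ s, Set (Fin (m s + k) → ℂ)) (hY : ∀ s, ZilberPinkM Γ (Y s))
    (hsub : ∀ s, ∀ x ∈ X, projM (σ s) x ∈ Y s) : ZilberPinkM Γ X := by
  classical
  have hfib : ∀ (s : Fin P) (T : Set (Fin (m s + k) → ℂ)), T.Finite →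
      {x | x ∈ X ∧ projM (σ s) x ∈ T}.Finite := by
    intro s T hT
    refine (hT.biUnion fun y _ => hX (Fin.natAdd n ⟨0, hk⟩)
      (y (Fin.natAdd (m s) ⟨0, hk⟩))).subset ?_
    rintro x ⟨hx, hxT⟩
    exact Set.mem_biUnion hxT ⟨hx, (projM_nat (σ s) x ⟨0, hk⟩).symm⟩
  have hspecial : ∀ (s : Fin P) {r r' : ℕ} (Z : SpecialVariety Γ n r)
      (Z' : SpecialVariety Γ (m s) r') (M : Submodule ℤ (Fin k → ℤ)) (η : Fin k → ℂ),
      (∀ x ∈ Z.locus, (fun t => x (σ s t)) ∈ Z'.locus) → ∀ x : Fin (n + k) → ℂ,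
      x ∈ special Z M η → projM (σ s) x ∈ special Z' M η := by
    rintro s r r' Z Z' M η hZ' x ⟨h0, hZ, hM⟩
    refine ⟨fun l => ?_, ?_, fun a ha => ?_⟩
    · rw [projM_nat]
      exact h0 l
    · have h2 := hZ' _ hZ
      simp only [projM_cast]
      exact h2
    · simp only [projM_nat]
      exact hM a ha
  constructor
  · have hU : (⋃ s : Fin P, {x | x ∈ X ∧ projM (σ s) x ∈
        {y | y ∈ Y s ∧ ∃ (r : ℕ) (Z : SpecialVariety Γ (m s) r) (M : Submodule ℤ (Fin k → ℤ))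
          (η : Fin k → ℂ), (∀ l, ∃ o : ℕ, 0 < o ∧ η l ^ o = 1) ∧
            r + 2 ≤ m s + Module.finrank ℤ M ∧ y ∈ special Z M η}}).Finite :=
      Set.finite_iUnion fun s => hfib s _ (hY s).1
    refine hU.subset ?_
    rintro x ⟨hx, r, Z, M, η, hη, hr, hZ⟩
    have hrn := Z.le'
    obtain ⟨E, hE, hpr⟩ := witnessNF (c := min 2 (n - r)) Z (by omega)
    obtain ⟨s, hs⟩ := hcover E (by omega)
    obtain ⟨r', Z', hr', hZ'⟩ := hpr (m s) (σ s) (hσ s) hs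
    exact Set.mem_iUnion.2 ⟨s, hx, hsub s x hx, r', Z', M, η, hη, by omega,
      hspecial s Z Z' M η hZ' x hZ⟩
  · intro r Z M η hη hr
    have hrn := Z.le'
    obtain ⟨E, hE, hpr⟩ := witnessNF (c := min 1 (n - r)) Z (by omega)
    obtain ⟨s, hs⟩ := hcover E (by omega)
    obtain ⟨r', Z', hr', hZ'⟩ := hpr (m s) (σ s) (hσ s) hs
    refine (hfib s _ ((hY s).2 r' Z' M η hη (by omega))).subset ?_
    rintro x ⟨hx, hZ⟩
    exact ⟨hx, hsub s x hx, hspecial s Z Z' M η hZ' x hZ⟩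

/-- Zeros of polynomials in the parameters of a lattice. -/
theorem zerosNF {q d : ℕ} (ω : Fin (d + 1) → algebraicClosure ℚ ℂ) (hω0 : ω 0 ≠ 0)
    {P : Parameters q} (hP : P ≠ 0) {ε : ℝ} (hε : 0 < ε) :
    ∃ C : ℝ, 0 ≤ C ∧ ∀ H : ℕ, 1 ≤ H →
      (({u : Fin q → Fin (d + 1) → ℤ | valueAt (fun j => ∑ b, (ω b : ℂ) * (u j b : ℂ)) P = 0} ∩
        {u | ∀ j b, |u j b| ≤ H}).ncard : ℝ) ≤ C * (H : ℝ) ^ ((q : ℝ) * (d + 1) - 1 + ε) := by
  have hinj : lin q ω P ≠ 0 := by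
    intro h0
    apply hP
    rw [← ret_lin ω hω0 P, h0, map_zero]
  obtain ⟨C, hC0, hC⟩ := zerosK hinj hε
  refine ⟨C, hC0, fun H hH => ?_⟩
  let E : (Fin (q * (d + 1)) → ℤ) → (Fin q → Fin (d + 1) → ℤ) := fun u j b =>
    u (finProdFinEquiv (j, b))
  have hval : ∀ u : Fin (q * (d + 1)) → ℤ,
      (valueAt (fun j => ∑ b, (ω b : ℂ) * (u (finProdFinEquiv (j, b)) : ℂ)) P = 0 ↔
      MvPolynomial.eval (fun l => ((u l : ℤ) : algebraicClosure ℚ ℂ)) (lin q ω P) = 0) := by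
    intro u
    rw [← rA_eval_lin ω u P]
    exact map_eq_zero _
  have h1 : {u : Fin q → Fin (d + 1) → ℤ | valueAt (fun j => ∑ b, (ω b : ℂ) * (u j b : ℂ)) P = 0} ∩
        {u | ∀ j b, |u j b| ≤ (H : ℤ)} = E '' ({u | MvPolynomial.eval
          (fun l => ((u l : ℤ) : algebraicClosure ℚ ℂ)) (lin q ω P) = 0} ∩
          {u | ∀ a, |u a| ≤ (H : ℤ)}) := by
    ext u
    constructor
    · rintro ⟨h1, h2⟩
      have h3 : E (fun a => u (finProdFinEquiv.symm a).1 (finProdFinEquiv.symm a).2) = u := by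
        funext j b
        simp only [E]
        rw [Equiv.symm_apply_apply]
      refine ⟨fun a => u (finProdFinEquiv.symm a).1 (finProdFinEquiv.symm a).2,
        ⟨?_, fun a => h2 _ _⟩, h3⟩
      have h4 : ∀ j b, (fun a => u (finProdFinEquiv.symm a).1 (finProdFinEquiv.symm a).2)
          (finProdFinEquiv (j, b)) = u j b := fun j b => congrFun (congrFun h3 j) b
      refine (hval _).1 ?_
      simp_rw [h4]
      exact h1
    · rintro ⟨v, ⟨h1, h2⟩, rfl⟩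
      exact ⟨(hval v).2 h1, fun j b => h2 _⟩
  rw [h1]
  refine le_trans ?_ ((hC H hH).trans (le_of_eq ?_))
  · have hfin : ({u : Fin (q * (d + 1)) → ℤ | MvPolynomial.eval
          (fun l => ((u l : ℤ) : algebraicClosure ℚ ℂ)) (lin q ω P) = 0} ∩
          {u | ∀ a, |u a| ≤ (H : ℤ)}).Finite := by
      refine Set.Finite.subset (Set.Finite.pi' (t := fun _ : Fin (q * (d + 1)) =>
        {z : ℤ | |z| ≤ H}) fun _ => ?_) (fun u hu a => hu.2 a)
      exact (Set.finite_Icc (-(H : ℤ)) H).subset fun z hz => abs_le.1 hz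
    exact_mod_cast Set.ncard_image_le hfin
  · push_cast
    rfl

/-- The number of exceptions in a box, from a finite covering. -/
theorem count_cover {q r P : ℕ} (B S₀ : Set (Fin q → Fin (r + 1) → ℤ))
    (S : Fin P → Set (Fin q → Fin (r + 1) → ℤ)) (hsub : B ⊆ S₀ ∪ ⋃ s, S s) (E : ℝ)
    (h₀ : ∃ C : ℝ, 0 ≤ C ∧ ∀ H : ℕ, 1 ≤ H →
      ((S₀ ∩ {u | ∀ j b, |u j b| ≤ (H : ℤ)}).ncard : ℝ) ≤ C * (H : ℝ) ^ E)
    (hS : ∀ s, ∃ C : ℝ, ∀ H : ℕ, 1 ≤ H →
      ((S s ∩ {u | ∀ j b, |u j b| ≤ (H : ℤ)}).ncard : ℝ) ≤ C * (H : ℝ) ^ E) :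
    ∃ C : ℝ, ∀ H : ℕ, 1 ≤ H →
      ({u : Fin q → Fin (r + 1) → ℤ | (∀ j b, |u j b| ≤ H) ∧ u ∈ B}.ncard : ℝ) ≤
        C * (H : ℝ) ^ E := by
  classical
  obtain ⟨C₀, -, hC₀⟩ := h₀
  choose C hC using hS
  refine ⟨C₀ + ∑ s, C s, fun H hH => ?_⟩
  have hbox : {u : Fin q → Fin (r + 1) → ℤ | ∀ j b, |u j b| ≤ (H : ℤ)}.Finite := by
    refine Set.Finite.subset (Set.Finite.pi' (t := fun _ : Fin q =>
      {v : Fin (r + 1) → ℤ | ∀ b, |v b| ≤ (H : ℤ)}) fun _ => ?_) (fun u hu j => hu j)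
    refine Set.Finite.subset (Set.Finite.pi' (t := fun _ : Fin (r + 1) =>
      {z : ℤ | |z| ≤ H}) fun _ => ?_) (fun u hu b => hu b)
    exact (Set.finite_Icc (-(H : ℤ)) H).subset fun z hz => abs_le.1 hz
  let S₀' := S₀ ∩ {u | ∀ j b, |u j b| ≤ (H : ℤ)}
  let S' : Fin P → Set (Fin q → Fin (r + 1) → ℤ) := fun s =>
    S s ∩ {u | ∀ j b, |u j b| ≤ (H : ℤ)}
  have hcovS : {u : Fin q → Fin (r + 1) → ℤ | (∀ j b, |u j b| ≤ H) ∧ u ∈ B} ⊆
      S₀' ∪ ⋃ s, S' s := by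
    rintro u ⟨hu, hB⟩
    rcases hsub hB with h | h
    · exact Or.inl ⟨h, hu⟩
    · obtain ⟨s, hs⟩ := Set.mem_iUnion.1 h
      exact Or.inr (Set.mem_iUnion.2 ⟨s, hs, hu⟩)
  have hfin : (S₀' ∪ ⋃ s, S' s).Finite :=
    (hbox.subset Set.inter_subset_right).union
      (Set.finite_iUnion fun s => hbox.subset Set.inter_subset_right)
  have h1 := Set.ncard_le_ncard hcovS hfin
  have h2 : (⋃ s, S' s).ncard ≤ ∑ s, (S' s).ncard := by
    have h3 : (⋃ s, S' s) = ⋃ s ∈ (Finset.univ : Finset (Fin P)), S' s := by simp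
    rw [h3]
    exact Finset.set_ncard_biUnion_le _ _
  have h4 := (h1.trans (Set.ncard_union_le _ _)).trans (Nat.add_le_add_left h2 _)
  have h5 : ({u : Fin q → Fin (r + 1) → ℤ | (∀ j b, |u j b| ≤ H) ∧ u ∈ B}.ncard : ℝ) ≤
        (S₀'.ncard : ℝ) + ∑ s, ((S' s).ncard : ℝ) := by exact_mod_cast h4
  refine h5.trans ?_
  rw [add_mul, Finset.sum_mul]
  exact add_le_add (hC₀ H hH) (Finset.sum_le_sum fun s _ => hC s H hH)

end Pool.Agent.X295.NF
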