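import Pool.Agent.X295.GalK

/-!
Polynomial families over the field of rational functions: places dividing the denominator of the
parameter (helper file).
-/

set_option autoImplicit false

namespace Pool.Agent.X295.Pf

open MvPolynomial NumberField IsDedekindDomain Pool.Agent.Y673.Loc Pool.Agent.Y673.FM
  Pool.Agent.X295.Gal
open Pool.Agent.Y673.Loc.ZV

/-- a place above, the ramification index is at most the relative degree -/
theorem above' (K L : Type) [Field K] [NumberField K] [Field L] [NumberField L] [Algebra K L]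
    (v : HeightOneSpectrum (𝓞 K)) : ∃ (w : HeightOneSpectrum (𝓞 L)) (e : ℕ), 1 ≤ e ∧
    e ≤ Module.finrank K L ∧ ∀ x : K, (adv L w).v (algebraMap K L x) = e * (adv K v).v x := by
  obtain ⟨⟨P, hP, hPv⟩⟩ := (inferInstance : Nonempty (Ideal.primesOver v.asIdeal (𝓞 L)))
  have hP0 : P ≠ ⊥ := Ideal.ne_bot_of_liesOver_of_ne_bot v.ne_bot P
  let w : HeightOneSpectrum (𝓞 L) := ⟨P, hP, hP0⟩
  have hw : w.asIdeal.LiesOver v.asIdeal := hPv
  have h1 : 1 ≤ v.asIdeal.ramificationIdx' w.asIdeal := Nat.one_le_iff_ne_zero.2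
      (Ideal.IsDedekindDomain.ramificationIdx'_ne_zero_of_liesOver w.asIdeal v.ne_bot)
  have h2 : ∀ x : K, (adv L w).v (algebraMap K L x) =
      (v.asIdeal.ramificationIdx' w.asIdeal : ℕ) * (adv K v).v x := by
    intro x
    show -WithZero.log (w.valuation L (algebraMap K L x)) = _ * (-WithZero.log (v.valuation K x))
    rw [← HeightOneSpectrum.valuation_liesOver L v w, WithZero.log_pow]
    simp
  refine ⟨w, v.asIdeal.ramificationIdx' w.asIdeal, h1, ?_, h2⟩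
  classical
  have : v.asIdeal.IsMaximal := v.isPrime.isMaximal v.ne_bot
  have : w.asIdeal.IsPrime := w.isPrime
  have hP : w.asIdeal ∈ IsDedekindDomain.primesOverFinset v.asIdeal (𝓞 L) :=
    (IsDedekindDomain.mem_primesOverFinset_iff v.ne_bot _).mpr ⟨w.isPrime, hw⟩
  rw [← Ideal.sum_ramification_inertia (R := 𝓞 K) (𝓞 L) K L (p := v.asIdeal) v.ne_bot,
    ← Finset.add_sum_erase _ _ hP]
  refine le_trans (Nat.le_mul_of_pos_right _ ?_) (Nat.le_add_right _ _)
  exact Nat.pos_iff_ne_zero.mpr (Ideal.inertiaDeg'_ne_zero v.asIdeal w.asIdeal)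

variable {K : Type} [Field K] [NumberField K] {m s : ℕ} {ι : Type} [Fintype ι]

theorem up_G {L : Type} [Field L] [NumberField L] [Algebra K L] {v : HeightOneSpectrum (𝓞 K)}
    {w : HeightOneSpectrum (𝓞 L)} {e : ℕ}
    (h : ∀ x : K, (adv L w).v (algebraMap K L x) = e * (adv K v).v x) {n : ℤ} {x : K}
    (hx : (adv K v).G n x) : (adv L w).G (e * n) (algebraMap K L x) := by
  rcases hx with h0 | hx
  · left; rw [h0, map_zero]
  · right
    rw [h]
    exact mul_le_mul_of_nonneg_left hx (Nat.cast_nonneg _)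

theorem up_E {L : Type} [Field L] [NumberField L] [Algebra K L] {v : HeightOneSpectrum (𝓞 K)}
    {w : HeightOneSpectrum (𝓞 L)} {e : ℕ}
    (h : ∀ x : K, (adv L w).v (algebraMap K L x) = e * (adv K v).v x) {n : ℤ} {x : K}
    (hx : (adv K v).E n x) : (adv L w).E (e * n) (algebraMap K L x) := by
  refine ⟨?_, ?_⟩
  · rw [Ne, map_eq_zero]; exact hx.1
  · rw [h, hx.2]

/-- values at integral vectors are integral at almost all places -/
theorem int_evalO (f : MvPolynomial (Fin s) K) : ∃ D : ℕ, D ≠ 0 ∧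
    ∀ v : HeightOneSpectrum (𝓞 K), (adv K v).v (D : K) = 0 → ∀ x : Fin s → 𝓞 K,
      (adv K v).G 0 (eval (fun j => ((x j : 𝓞 K) : K)) f) := by
  obtain ⟨d, hd, f₀, hf₀⟩ := clear f
  refine ⟨d, hd, fun v hv x => ?_⟩
  have hd' : (d : K) ≠ 0 := by exact_mod_cast hd
  have h1 := congrArg (eval (fun j => ((x j : 𝓞 K) : K))) hf₀
  have h3 : eval (fun j => ((x j : 𝓞 K) : K)) (MvPolynomial.map (algebraMap (𝓞 K) K) f₀) =
      algebraMap (𝓞 K) K (eval x f₀) := by
    rw [eval_map, MvPolynomial.eval, coe_eval₂Hom, hom_eval₂]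
    congr 1
  rw [h3, map_mul, eval_C] at h1
  have h2 : eval (fun j => ((x j : 𝓞 K) : K)) f = algebraMap (𝓞 K) K (eval x f₀) / (d : K) := by
    rw [h1]
    field_simp
  rw [h2]
  exact gdu (G_zero_int v _) ⟨hd', hv⟩

/-- coefficients are integral at almost all places -/
theorem int_coeff (f : MvPolynomial (Fin s) K) : ∃ D : ℕ, D ≠ 0 ∧
    ∀ v : HeightOneSpectrum (𝓞 K), (adv K v).v (D : K) = 0 → ∀ α,
      (adv K v).G 0 (coeff α f) := by
  obtain ⟨d, hd, f₀, hf₀⟩ := clear f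
  refine ⟨d, hd, fun v hv α => ?_⟩
  have hd' : (d : K) ≠ 0 := by exact_mod_cast hd
  have h1 := congrArg (coeff α) hf₀
  rw [coeff_map, coeff_C_mul] at h1
  have h2 : coeff α f = algebraMap (𝓞 K) K (coeff α f₀) / (d : K) := by
    rw [h1]
    field_simp
  rw [h2]
  exact gdu (G_zero_int v _) ⟨hd', hv⟩

/-- a common denominator for finitely many conditions -/
theorem common {τ : Type} (Q : Finset τ) (P : τ → HeightOneSpectrum (𝓞 K) → Prop)
    (h : ∀ p ∈ Q, ∃ D : ℕ, D ≠ 0 ∧ ∀ v, (adv K v).v (D : K) = 0 → P p v) :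
    ∃ D : ℕ, D ≠ 0 ∧ ∀ v, (adv K v).v (D : K) = 0 → ∀ p ∈ Q, P p v := by
  classical
  induction Q using Finset.induction_on with
  | empty => exact ⟨1, one_ne_zero, fun v _ p hp => absurd hp (Finset.notMem_empty p)⟩
  | insert a Q ha ih =>
    obtain ⟨D₁, h1, h2⟩ := h a (Finset.mem_insert_self a Q)
    obtain ⟨D₂, h3, h4⟩ := ih fun p hp => h p (Finset.mem_insert_of_mem hp)
    have h5 : D₁ * D₂ ≠ 0 := Nat.mul_ne_zero h1 h3
    refine ⟨D₁ * D₂, h5, fun v hv p hp => ?_⟩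
    rcases Finset.mem_insert.1 hp with rfl | hp
    · exact h2 v (Pool.Agent.Y673.CB.nat_unit v h5 (Dvd.intro _ rfl) hv)
    · exact h4 v (Pool.Agent.Y673.CB.nat_unit v h5 (Dvd.intro_left _ rfl) hv) p hp

theorem G_prod {L τ : Type} [Field L] {w : ZV L} (E : Finset τ) (f : τ → L)
    (h : ∀ p ∈ E, w.G 0 (f p)) : w.G 0 (∏ p ∈ E, f p) := by
  classical
  induction E using Finset.induction_on with
  | empty => rw [Finset.prod_empty]; exact E_one.G
  | insert a E ha ih =>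
    rw [Finset.prod_insert ha]
    exact g00 (h a (Finset.mem_insert_self a E))
      (ih fun p hp => h p (Finset.mem_insert_of_mem hp))

theorem prod_unit {L τ : Type} [Field L] {w : ZV L} (E : Finset τ) (f : τ → L)
    (h : ∀ p ∈ E, w.G 0 (f p)) (h0 : ∏ p ∈ E, f p ≠ 0) (hv : w.v (∏ p ∈ E, f p) = 0) :
    ∀ p ∈ E, w.E 0 (f p) := by
  classical
  intro p hp
  rw [← Finset.mul_prod_erase E f hp] at h0 hv
  have h1 := (mul_ne_zero_iff.1 h0).1
  have h2 := (mul_ne_zero_iff.1 h0).2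
  have h3 := (G_prod (E.erase p) f fun a ha => h a (Finset.mem_of_mem_erase ha)).resolve_left h2
  have h4 := (h p hp).resolve_left h1
  rw [w.mul' _ _ h1 h2] at hv
  exact ⟨h1, by omega⟩

theorem irr_sub (ω : Module.Basis ι ℤ (𝓞 K)) (e : Fin (m + 1) × ι ≃ Fin s) :
    Irreducible (sub ω e (X 0 : MvPolynomial (Fin (m + 1)) K)) ∧
      (sub ω e (X 0 : MvPolynomial (Fin (m + 1)) K)).totalDegree = 1 := by
  have hX : (X 0 : MvPolynomial (Fin (m + 1)) K) ≠ 0 := X_ne_zero _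
  have h0 := sub_ne_zero ω e hX
  have h1 : ¬ sub ω e (X 0 : MvPolynomial (Fin (m + 1)) K) ∣ sub ω e 1 := by
    apply sub_not_dvd
    intro hd
    exact (X_prime (R := K) (i := (0 : Fin (m + 1)))).not_isUnit (isUnit_of_dvd_one hd)
  have h2 : (sub ω e (X 0 : MvPolynomial (Fin (m + 1)) K)).totalDegree = 1 := by
    have h3 := totalDegree_sub ω e (X 0 : MvPolynomial (Fin (m + 1)) K)
    rw [totalDegree_X] at h3
    refine le_antisymm h3 ?_
    by_contra hcon
    have h4 : (sub ω e (X 0 : MvPolynomial (Fin (m + 1)) K)).totalDegree = 0 := by omega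
    rw [totalDegree_eq_zero_iff_eq_C] at h4
    apply h1
    have h5 : coeff 0 (sub ω e (X 0 : MvPolynomial (Fin (m + 1)) K)) ≠ 0 := by
      intro h6
      rw [h6, C_0] at h4
      exact h0 h4
    rw [h4]
    exact ((isUnit_iff_ne_zero.2 h5).map C).dvd
  refine ⟨irreducible_of_totalDegree_eq_one h2 fun x hx => ?_, h2⟩
  rw [isUnit_iff_ne_zero]
  rintro rfl
  apply h0
  ext i
  rw [coeff_zero]
  exact zero_dvd_iff.1 (hx i)

theorem hmg_not_X {p : MvPolynomial (Fin m) K} (hp : p ≠ 0) :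
    ¬ (X 0 : MvPolynomial (Fin (m + 1)) K) ∣ hmg p.totalDegree p := by
  classical
  obtain ⟨a, ha, haD⟩ : ∃ a ∈ p.support, a.degree = p.totalDegree := by
    have h1 : p.support.Nonempty := support_nonempty.2 hp
    obtain ⟨a, ha, h2⟩ := Finset.exists_mem_eq_sup p.support h1 fun s => s.sum fun _ e => e
    refine ⟨a, ha, ?_⟩
    rw [totalDegree, h2]
    rfl
  rintro ⟨Q, hQ⟩
  have h1 := congrArg (coeff (Finsupp.cons 0 a)) hQ
  have h2 : coeff (Finsupp.cons 0 a) ((X 0 : MvPolynomial (Fin (m + 1)) K) * Q) = 0 := by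
    rw [coeff_X_mul', if_neg]
    rw [Finsupp.mem_support_iff, Finsupp.cons_zero]
    exact fun h => h rfl
  rw [h2] at h1
  unfold hmg at h1
  rw [coeff_sum, Finset.sum_eq_single a] at h1
  · rw [coeff_monomial, haD, Nat.sub_self, if_pos rfl] at h1
    exact (mem_support_iff.1 ha) h1
  · intro b _ hba
    rw [coeff_monomial, if_neg]
    intro h3
    apply hba
    have h4 := congrArg Finsupp.tail h3
    rwa [Finsupp.tail_cons, Finsupp.tail_cons] at h4
  · intro h3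
    exact absurd ha h3

/-- There is a place `v` prime to `D₀` and `k > 0` not divisible by `N` such that the values at `t` of the
polynomials `p` in `Q` have valuations at least `- k deg p`, with equality for those in `E`. -/
def Pl (Q E : Finset (MvPolynomial (Fin m) K)) (D₀ N : ℕ) (t : Fin m → K) : Prop :=
  ∃ (v : HeightOneSpectrum (𝓞 K)) (k : ℤ), 0 < k ∧ ¬ (N : ℤ) ∣ k ∧ (adv K v).v (D₀ : K) = 0 ∧
    (∀ p ∈ Q, (adv K v).G (-(p.totalDegree * k)) (eval t p)) ∧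
    ∀ p ∈ E, (adv K v).E (-(p.totalDegree * k)) (eval t p)

/-- the height of `t` is at most `H` -/
def HtLe (ω : Module.Basis ι ℤ (𝓞 K)) (H : ℕ) (t : Fin m → K) : Prop :=
  ∃ x : Fin (m + 1) → 𝓞 K, x 0 ≠ 0 ∧ (∀ i k, |ω.repr (x i) k| ≤ H) ∧
    ∀ j, t j = (x j.succ : K) / (x 0 : K)

/-- **the counting theorem** -/
theorem count_field (ω : Module.Basis ι ℤ (𝓞 K)) (Q E : Finset (MvPolynomial (Fin m) K))
    (hE : ∀ p ∈ E, p ≠ 0) (D₀ : ℕ) (hD₀ : D₀ ≠ 0) (N : ℕ) (hN : 0 < N) (ε : ℝ) (hε : 0 < ε) :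
    ∃ C : ℝ, 0 ≤ C ∧ ∀ H : ℕ, 1 ≤ H → ∀ S : Set (Fin m → K),
      (∀ t ∈ S, HtLe ω H t ∧ ¬ Pl Q E D₀ N t) →
      S.Finite ∧ (S.ncard : ℝ) ≤ C * (H : ℝ) ^ (((m : ℝ) + 1) * Module.finrank ℚ K - 1 +
        (Module.finrank ℚ K : ℝ) / N + ε) := by
  classical
  obtain ⟨e⟩ := exists_equiv ω (m + 1)
  obtain ⟨hirr, hdeg⟩ := irr_sub ω e
  set g := sub ω e (X 0 : MvPolynomial (Fin (m + 1)) K) with hg
  set P := ∏ p ∈ E, hmg p.totalDegree p with hP
  have hgP : ¬ g ∣ sub ω e P := by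
    apply sub_not_dvd
    rw [hP, (X_prime (R := K) (i := (0 : Fin (m + 1)))).dvd_finsetProd_iff]
    rintro ⟨p, hp, hd⟩
    exact hmg_not_X (hE p hp) hd
  obtain ⟨D₁, hD₁, h1⟩ := common (Q ∪ E) (fun p v => ∀ x : Fin (m + 1) → 𝓞 K,
    (adv K v).G 0 (eval (fun j => ((x j : 𝓞 K) : K)) (hmg p.totalDegree p)))
    (fun p _ => int_evalO _)
  have hD : D₀ * D₁ ≠ 0 := Nat.mul_ne_zero hD₀ hD₁
  obtain ⟨C, hC0, hC⟩ := core g hirr (Module.finrank ℚ K) (by rw [hdeg, mul_one]) (sub ω e P) hgP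
    (D₀ * D₁) hD N hN ε hε
  have hbox : ∀ (H : ℕ) (S : Set (Fin m → K)), (∀ t ∈ S, HtLe ω H t ∧ ¬ Pl Q E D₀ N t) →
      ∃ f : (Fin m → K) → (Fin (m + 1) → 𝓞 K), (∀ t ∈ S, f t 0 ≠ 0 ∧
        (∀ i k, |ω.repr (f t i) k| ≤ H) ∧ ∀ j, t j = (f t j.succ : K) / (f t 0 : K)) := by
    intro H S hS
    have h2 : ∀ t ∈ S, ∃ x : Fin (m + 1) → 𝓞 K, x 0 ≠ 0 ∧ (∀ i k, |ω.repr (x i) k| ≤ H) ∧
      ∀ j, t j = (x j.succ : K) / (x 0 : K) := fun t ht => (hS t ht).1
    choose! f hf using h2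
    exact ⟨f, hf⟩
  refine ⟨C, hC0, fun H hH S hS => ?_⟩
  obtain ⟨f, hf⟩ := hbox H S hS
  have hinj : Set.InjOn (fun t => crds ω e (f t)) S := by
    intro t ht t' ht' he
    have h3 := crds_inj ω e he
    funext j
    rw [(hf t ht).2.2 j, (hf t' ht').2.2 j, h3]
  have hsub : (fun t => crds ω e (f t)) '' S ⊆ (box ((m + 1) * Module.finrank ℚ K) H : Set _) := by
    rintro _ ⟨t, ht, rfl⟩
    rw [Finset.mem_coe, mem_box]
    intro j
    exact (hf t ht).2.1 _ _
  have hfin : ((fun t => crds ω e (f t)) '' S).Finite := (Finset.finite_toSet _).subset hsub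
  have hfS : S.Finite := hfin.of_finite_image hinj
  refine ⟨hfS, ?_⟩
  have h4 := hC H 1 hH le_rfl hfin.toFinset (fun u hu => by
    rw [Set.Finite.mem_toFinset] at hu
    obtain ⟨t, ht, rfl⟩ := hu
    refine ⟨fun j => (hf t ht).2.1 _ _, ?_⟩
    rintro ⟨-, hv5, hw⟩
    apply (hS t ht).2
    obtain ⟨v, hv1, hv2, hv3, hv4⟩ := hw 1 le_rfl le_rfl N le_rfl
    obtain ⟨hx0, -, hxt⟩ := hf t ht
    have hx0K : ((f t 0 : 𝓞 K) : K) ≠ 0 := by exact_mod_cast hx0
    rw [hg, val_sub, eval_X] at hv2 hv3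
    rw [val_sub, hP, map_prod] at hv4 hv5
    have hv0 : (adv K v).v (D₀ : K) = 0 := Pool.Agent.Y673.CB.nat_unit v
      (by rw [one_mul]; exact hD) (by rw [one_mul]; exact Dvd.intro _ rfl) hv1
    have hvD : (adv K v).v (D₁ : K) = 0 := Pool.Agent.Y673.CB.nat_unit v
      (by rw [one_mul]; exact hD) (by rw [one_mul]; exact Dvd.intro_left _ rfl) hv1
    have h5 := h1 v hvD
    set k := (adv K v).v ((f t 0 : 𝓞 K) : K) with hk
    have hEk : (adv K v).E k ((f t 0 : 𝓞 K) : K) := ⟨hx0K, rfl⟩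
    have hte : (fun j : Fin m => ((f t j.succ : 𝓞 K) : K) / ((f t 0 : 𝓞 K) : K)) = t := by
      funext j
      exact (hxt j).symm
    have hval : ∀ p : MvPolynomial (Fin m) K, eval t p =
        eval (fun j => ((f t j : 𝓞 K) : K)) (hmg p.totalDegree p) /
          ((f t 0 : 𝓞 K) : K) ^ p.totalDegree := by
      intro p
      rw [hmg_eval le_rfl _ hx0K, hte, mul_div_cancel_left₀ _ (pow_ne_zero _ hx0K)]
    refine ⟨v, k, hv2, hv3, hv0, fun p hp => ?_, fun p hp => ?_⟩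
    · rw [hval p]
      have h6 := (h5 p (Finset.mem_union_left _ hp) (f t)).div (hEk.pow p.totalDegree)
      rwa [zero_sub] at h6
    · rw [hval p]
      have h7 : (adv K v).E 0 (eval (fun j => ((f t j : 𝓞 K) : K)) (hmg p.totalDegree p)) :=
        prod_unit E (fun p => eval (fun j => ((f t j : 𝓞 K) : K)) (hmg p.totalDegree p))
          (fun p hp => h5 p (Finset.mem_union_right _ hp) (f t)) hv5 hv4 p hp
      have h6 := h7.div (hEk.pow p.totalDegree)
      rwa [zero_sub] at h6)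
  rw [← Set.ncard_eq_toFinset_card _ hfin, Set.InjOn.ncard_image hinj, Nat.cast_one,
    Real.one_rpow, mul_one] at h4
  push_cast at h4
  exact h4

/-- the level -/
def lvl (d r B : ℕ) : ℕ := d / Nat.gcd d (B.factorial * r)

theorem lvl_pos {d : ℕ} (hd : 0 < d) (r B : ℕ) : 0 < lvl d r B :=
  Nat.div_pos (Nat.gcd_le_left _ hd) (Nat.gcd_pos_of_pos_left _ hd)

/-- from `d ∣ r e k` to the divisibility of `k` -/
theorem lvl_dvd {d r B e : ℕ} {k : ℤ} (hd : 0 < d) (he : 1 ≤ e) (heB : e ≤ B)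
    (h : (d : ℤ) ∣ r * (e * k)) : ((lvl d r B : ℕ) : ℤ) ∣ k := by
  refine dvd_red hd ?_
  obtain ⟨a, ha⟩ := Nat.dvd_factorial he heB
  rw [ha]
  have h1 : ((e * a * r : ℕ) : ℤ) * k = (r * (e * k)) * a := by push_cast; ring
  rw [h1]
  exact h.mul_right _

end Pool.Agent.X295.Pf
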