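import Pool.Agent.X295.PfA

/-!
Preperiodic points of regular polynomial maps of affine space with a large constant term: the local
analysis (helper file).
-/

set_option autoImplicit false

namespace Pool.Agent.X295.Pf

open MvPolynomial NumberField IsDedekindDomain Pool.Agent.Y673.Loc Pool.Agent.Y673.FM
  Pool.Agent.X295.Gal
open Pool.Agent.Y673.Loc.ZV

section loc
variable {L : Type} [Field L] {w : ZV L} {N d : ℕ}

/-- the minimum of the valuations of the coordinates is `n` -/
def Sz (w : ZV L) (n : ℤ) (x : Fin N → L) : Prop := (∀ i, w.G n (x i)) ∧ ∃ i, w.E n (x i)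

theorem Sz.unique {n n' : ℤ} {x : Fin N → L} (h : Sz w n x) (h' : Sz w n' x) : n = n' := by
  obtain ⟨i, hi⟩ := h.2
  obtain ⟨j, hj⟩ := h'.2
  have h1 := hi.le_of_G (h'.1 i)
  have h2 := hj.le_of_G (h.1 j)
  omega

theorem exists_sz {x : Fin N → L} (hx : x ≠ 0) : ∃ n, Sz w n x := by
  classical
  obtain ⟨j, hj⟩ := Function.ne_iff.1 hx
  obtain ⟨i, hi, hmin⟩ := Finset.exists_min_image (Finset.univ.filter fun i => x i ≠ 0)
    (fun i => w.v (x i)) ⟨j, by rw [Finset.mem_filter]; exact ⟨Finset.mem_univ _, hj⟩⟩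
  refine ⟨w.v (x i), fun k => ?_, i, (Finset.mem_filter.1 hi).2, rfl⟩
  by_cases h0 : x k = 0
  · exact Or.inl h0
  · exact Or.inr (hmin k (by rw [Finset.mem_filter]; exact ⟨Finset.mem_univ _, h0⟩))

theorem G_pow {a : ℤ} {x : L} (h : w.G a x) (n : ℕ) : w.G (a * n) (x ^ n) := by
  induction n with
  | zero => rw [pow_zero, Nat.cast_zero, mul_zero]; exact E_one.G
  | succ n ih =>
    rw [pow_succ]
    have h1 := ih.mul h
    have e : a * ((n + 1 : ℕ) : ℤ) = a * n + a := by push_cast; ring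
    rw [e]
    exact h1

theorem G_mon {a : ℤ} {x : Fin N → L} (h : ∀ i, w.G a (x i)) (α : Fin N →₀ ℕ) :
    w.G (a * α.degree) (∏ i, x i ^ α i) := by
  classical
  rw [Finsupp.degree_eq_sum]
  have key : ∀ s : Finset (Fin N), w.G (a * ((∑ i ∈ s, α i : ℕ) : ℤ)) (∏ i ∈ s, x i ^ α i) := by
    intro s
    induction s using Finset.induction_on with
    | empty => rw [Finset.prod_empty, Finset.sum_empty, Nat.cast_zero, mul_zero]; exact E_one.G
    | insert i s hi ih =>
      rw [Finset.prod_insert hi, Finset.sum_insert hi]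
      have h1 := (G_pow (h i) (α i)).mul ih
      have e : a * ((α i + ∑ i ∈ s, α i : ℕ) : ℤ) = a * (α i) + a * ((∑ i ∈ s, α i : ℕ) : ℤ) := by
        push_cast; ring
      rw [e]
      exact h1
  exact key Finset.univ

theorem G_sum {τ : Type} {a : ℤ} (s : Finset τ) (f : τ → L) (h : ∀ i ∈ s, w.G a (f i)) :
    w.G a (∑ i ∈ s, f i) := by
  classical
  induction s using Finset.induction_on with
  | empty => rw [Finset.sum_empty]; exact G_zero
  | insert i s hi ih =>
    rw [Finset.sum_insert hi]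
    exact (h i (Finset.mem_insert_self i s)).add (ih fun j hj => h j (Finset.mem_insert_of_mem hj))

theorem G_eval {a t : ℤ} {x : Fin N → L} (hx : ∀ i, w.G a (x i)) (f : MvPolynomial (Fin N) L)
    (h : ∀ α ∈ f.support, ∃ b, w.G b (coeff α f) ∧ t ≤ b + a * α.degree) : w.G t (eval x f) := by
  rw [eval_eq']
  refine G_sum _ _ fun α hα => ?_
  obtain ⟨b, hb, htb⟩ := h α hα
  exact (hb.mul (G_mon hx α)).mono htb

theorem eval_scale {f : MvPolynomial (Fin N) L} (hf : f.IsHomogeneous d) (c : L) (x : Fin N → L) :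
    eval (fun i => c * x i) f = c ^ d * eval x f := by
  rw [eval_eq', eval_eq', Finset.mul_sum]
  refine Finset.sum_congr rfl fun α hα => ?_
  have h1 : α.degree = d := by
    rw [Finsupp.degree_eq_weight_one]
    exact hf (mem_support_iff.1 hα)
  have h2 : ∏ i, (c * x i) ^ α i = c ^ d * ∏ i, x i ^ α i := by
    simp_rw [mul_pow]
    rw [Finset.prod_mul_distrib, Finset.prod_pow_eq_pow_sum, ← Finsupp.degree_eq_sum, h1]
  rw [h2]
  ring

/-- the map -/
noncomputable def mp (A : (Fin N → L) → (Fin N → L)) (P : Fin N → MvPolynomial (Fin N) L)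
    (x : Fin N → L) : Fin N → L := fun i => A x i + eval x (P i)

variable {A : (Fin N → L) → (Fin N → L)} {P : Fin N → MvPolynomial (Fin N) L} {M : ℤ}

/-- the conditions -/
structure Hyp (w : ZV L) (d : ℕ) (A : (Fin N → L) → (Fin N → L))
    (P : Fin N → MvPolynomial (Fin N) L) (M : ℤ) : Prop where
  two : 2 ≤ d
  pos : 0 < M
  zero : A 0 = 0
  lead : ∀ a x, Sz w a x → Sz w (d * a) (A x)
  low : ∀ i, ∀ α ∈ (P i).support, α.degree < d ∧ ∃ b, w.G b (coeff α (P i)) ∧
    -(M * (d - α.degree)) ≤ d * b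
  const : ∃ j, w.E (-M) (coeff 0 (P j))

theorem Hyp.leadG (h : Hyp w d A P M) {a : ℤ} {x : Fin N → L} (hx : ∀ i, w.G a (x i))
    (ha : -M < d * a) : ∀ i, w.G (-M + 1) (A x i) := by
  intro i
  by_cases h0 : x = 0
  · rw [h0, h.zero]
    exact G_zero
  obtain ⟨n, hn⟩ := exists_sz (w := w) h0
  have h1 := (h.lead n x hn).1 i
  obtain ⟨j, hj⟩ := hn.2
  have h2 := hj.le_of_G (hx j)
  have h3 : (0 : ℤ) ≤ d := Nat.cast_nonneg _
  exact h1.mono (by nlinarith)

/-- small points -/
theorem Hyp.small (h : Hyp w d A P M) {a : ℤ} {x : Fin N → L} (hx : ∀ i, w.G a (x i))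
    (ha : -M < d * a) : Sz w (-M) (mp A P x) := by
  classical
  have hd : (0 : ℤ) < d := by have := h.two; exact_mod_cast (by omega : 0 < d)
  have key : ∀ i, w.G (-M + 1) (mp A P x i - coeff 0 (P i)) := by
    intro i
    have h1 : mp A P x i - coeff 0 (P i) = A x i + eval x (P i - C (coeff 0 (P i))) := by
      unfold mp
      rw [map_sub, eval_C]
      ring
    rw [h1]
    refine (h.leadG hx ha i).add (G_eval hx _ fun α hα => ?_)
    have h2 : α ≠ 0 := by
      rintro rfl
      rw [mem_support_iff, coeff_sub, coeff_C, if_pos rfl, sub_self] at hα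
      exact hα rfl
    have h3 : coeff α (P i - C (coeff 0 (P i))) = coeff α (P i) := by
      rw [coeff_sub, coeff_C, if_neg (Ne.symm h2), sub_zero]
    have h4 : α ∈ (P i).support := by
      rw [mem_support_iff, ← h3]
      exact mem_support_iff.1 hα
    obtain ⟨h5, b, h6, h7⟩ := h.low i α h4
    rw [h3]
    refine ⟨b, h6, ?_⟩
    have h8 : 1 ≤ α.degree := by
      rw [Nat.one_le_iff_ne_zero, Ne, Finsupp.degree_eq_zero_iff]
      exact h2
    have h8' : (1 : ℤ) ≤ α.degree := by exact_mod_cast h8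
    have h9 : (d : ℤ) * (-M) < d * (b + a * α.degree) := by nlinarith
    have h10 := lt_of_mul_lt_mul_left h9 hd.le
    omega
  refine ⟨fun i => ?_, ?_⟩
  · have h1 : w.G (-M) (coeff 0 (P i)) := by
      by_cases h0 : coeff 0 (P i) = 0
      · exact Or.inl h0
      obtain ⟨-, b, h6, h7⟩ := h.low i 0 (mem_support_iff.2 h0)
      rw [map_zero] at h7
      refine h6.mono ?_
      have h9 : (d : ℤ) * (-M) ≤ d * b := by
        have : -(M * ((d : ℤ) - ((0 : ℕ) : ℤ))) = d * (-M) := by push_cast; ring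
        linarith
      exact le_of_mul_le_mul_left h9 hd
    have h2 := ((key i).mono (by omega : -M ≤ -M + 1)).add h1
    rwa [sub_add_cancel] at h2
  · obtain ⟨j, hj⟩ := h.const
    refine ⟨j, ?_⟩
    have h2 := hj.addG (key j) (by omega)
    rwa [add_sub_cancel] at h2

/-- large points -/
theorem Hyp.large (h : Hyp w d A P M) {a : ℤ} {x : Fin N → L} (hx : Sz w a x)
    (ha : d * a < -M) : Sz w (d * a) (mp A P x) := by
  have hd : (0 : ℤ) < d := by have := h.two; exact_mod_cast (by omega : 0 < d)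
  have hA := h.lead a x hx
  have key : ∀ i, w.G (d * a + 1) (eval x (P i)) := by
    intro i
    refine G_eval hx.1 _ fun α hα => ?_
    obtain ⟨h5, b, h6, h7⟩ := h.low i α hα
    refine ⟨b, h6, ?_⟩
    have h8 : (0 : ℤ) < (d : ℤ) - α.degree := by
      have : (α.degree : ℤ) < d := by exact_mod_cast h5
      omega
    have h9 : (d : ℤ) * (d * a) < d * (b + a * α.degree) := by nlinarith
    have h10 := lt_of_mul_lt_mul_left h9 hd.le
    omega
  refine ⟨fun i => (hA.1 i).add ((key i).mono (by omega)), ?_⟩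
  obtain ⟨j, hj⟩ := hA.2
  exact ⟨j, hj.addG (key j) (by omega)⟩

theorem Hyp.iter (h : Hyp w d A P M) {a : ℤ} {x : Fin N → L} (hx : Sz w a x)
    (ha : d * a < -M) (n : ℕ) : Sz w (d ^ n * a) ((mp A P)^[n] x) ∧ d * (d ^ n * a) < -M := by
  have hd2 : (2 : ℤ) ≤ d := by exact_mod_cast h.two
  have hM := h.pos
  induction n with
  | zero => simpa using ⟨hx, ha⟩
  | succ n ih =>
    obtain ⟨h1, h2⟩ := ih
    rw [Function.iterate_succ_apply']
    have h3 := h.large h1 h2
    have e : (d : ℤ) ^ (n + 1) * a = d * (d ^ n * a) := by ring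
    rw [e]
    exact ⟨h3, by nlinarith⟩

theorem Hyp.no_large (h : Hyp w d A P M) {a : ℤ} {x : Fin N → L} (hx : Sz w a x)
    (ha : d * a < -M) {m n : ℕ} (hmn : m < n) (he : (mp A P)^[m] x = (mp A P)^[n] x) : False := by
  have hd2 : (2 : ℤ) ≤ d := by exact_mod_cast h.two
  have hM := h.pos
  have h1 := (h.iter hx ha m).1
  have h2 := (h.iter hx ha n).1
  rw [he] at h1
  have h3 := h1.unique h2
  have ha0 : a ≠ 0 := by
    rintro rfl
    rw [mul_zero] at ha
    omega
  have h4 := mul_right_cancel₀ ha0 h3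
  have h5 : (d : ℤ) ^ m < (d : ℤ) ^ n := pow_lt_pow_right₀ (by omega) hmn
  omega

/-- **the valuations of a preperiodic point** -/
theorem Hyp.dvd (h : Hyp w d A P M) {x : Fin N → L} {m n : ℕ} (hmn : m < n)
    (he : (mp A P)^[m] x = (mp A P)^[n] x) : (d : ℤ) ∣ M := by
  have hd2 : (2 : ℤ) ≤ d := by exact_mod_cast h.two
  have hM := h.pos
  have he' : (mp A P)^[m] (mp A P x) = (mp A P)^[n] (mp A P x) := by
    rw [← Function.iterate_succ_apply, ← Function.iterate_succ_apply,
      Function.iterate_succ_apply', Function.iterate_succ_apply', he]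
  have hsmall : ∀ a : ℤ, (∀ i, w.G a (x i)) → ¬ -M < d * a := by
    intro a hx ha
    exact h.no_large (h.small hx ha) (by nlinarith) hmn he'
  by_cases h0 : x = 0
  · exfalso
    refine hsmall 0 (fun i => ?_) (by rw [mul_zero]; omega)
    rw [h0]
    exact G_zero
  obtain ⟨a, ha⟩ := exists_sz (w := w) h0
  have h1 := hsmall a ha.1
  have h2 : ¬ (d : ℤ) * a < -M := fun h3 => h.no_large ha h3 hmn he
  exact ⟨-a, by linarith [(by omega : (d : ℤ) * a = -M)]⟩

end loc

end Pool.Agent.X295.Pf
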