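import Pool.Agent.X295.PfB

/-!
Families of endomorphisms of projective space with several parameters (helper file).
-/

set_option autoImplicit false

namespace Pool.Agent.X295.Pf

open MvPolynomial NumberField IsDedekindDomain Pool.Agent.Y673.Loc Pool.Agent.Y673.FM
  Pool.Agent.X295.Gal
open Pool.Agent.Y673.Loc.ZV

variable {K : Type} [Field K] [NumberField K] {N d m : ℕ} {ι : Type} [Fintype ι]

/-- the forms have no common zero except the origin -/
def NonDeg (A : Fin N → MvPolynomial (Fin N) K) : Prop :=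
  ∀ y : Fin N → AlgebraicClosure K, (∀ i, aeval y (A i) = 0) → y = 0

theorem cert {A : Fin N → MvPolynomial (Fin N) K} (hA : NonDeg A) (j : Fin N) :
    ∃ (n : ℕ) (B : Fin N → MvPolynomial (Fin N) K), X j ^ n = ∑ i, B i * A i := by
  have h1 : X j ∈ (Ideal.span (Set.range A)).radical := by
    rw [← vanishingIdeal_zeroLocus_eq_radical (K := AlgebraicClosure K), mem_vanishingIdeal_iff]
    intro y hy
    rw [mem_zeroLocus_iff] at hy
    have h0 := hA y fun i => hy _ (Ideal.subset_span ⟨i, rfl⟩)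
    rw [h0, aeval_X]
    rfl
  obtain ⟨n, hn⟩ := h1
  obtain ⟨B, hB⟩ := Ideal.mem_span_range_iff_exists_fun.1 hn
  exact ⟨n, B, hB.symm⟩

theorem aeval_map_eq {L : Type} [Field L] [Algebra K L] (y : Fin N → L)
    (f : MvPolynomial (Fin N) K) :
    aeval y f = eval y (MvPolynomial.map (algebraMap K L) f) := by
  rw [eval_map, aeval_def]

/-- the leading forms do not change the size at almost all places -/
theorem lead_sz {A : Fin N → MvPolynomial (Fin N) K} (hhom : ∀ i, (A i).IsHomogeneous d)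
    (hA : NonDeg A) : ∃ D : ℕ, D ≠ 0 ∧ ∀ v : HeightOneSpectrum (𝓞 K), (adv K v).v (D : K) = 0 →
    ∀ (L : Type) [Field L] [NumberField L] [Algebra K L] (w : HeightOneSpectrum (𝓞 L)) (e : ℕ),
      (∀ x : K, (adv L w).v (algebraMap K L x) = e * (adv K v).v x) →
      ∀ (a : ℤ) (y : Fin N → L), Sz (adv L w) a y →
        Sz (adv L w) (d * a) (fun i => aeval y (A i)) := by
  choose n B hB using fun j => cert hA j
  obtain ⟨D₁, hD₁, h1⟩ := common (Finset.univ : Finset (Fin N))
    (fun i v => ∀ α, (adv K v).G 0 (coeff α (A i))) (fun i _ => int_coeff _)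
  obtain ⟨D₂, hD₂, h2⟩ := common (Finset.univ : Finset (Fin N × Fin N))
    (fun p v => ∀ α, (adv K v).G 0 (coeff α (B p.1 p.2))) (fun p _ => int_coeff _)
  have hD : D₁ * D₂ ≠ 0 := Nat.mul_ne_zero hD₁ hD₂
  refine ⟨D₁ * D₂, hD, fun v hv L _ _ _ w e hup a y hy => ?_⟩
  have hA1 := h1 v (Pool.Agent.Y673.CB.nat_unit v hD (Dvd.intro _ rfl) hv)
  have hB1 := h2 v (Pool.Agent.Y673.CB.nat_unit v hD (Dvd.intro_left _ rfl) hv)
  obtain ⟨i₀, hi₀⟩ := hy.2
  set u := y i₀ with hu
  set z : Fin N → L := fun i => y i / u with hz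
  have hzG : ∀ i, (adv L w).G 0 (z i) := fun i => by
    have h3 := (hy.1 i).div hi₀
    rwa [sub_self] at h3
  have hyz : (fun i => u * z i) = y := by
    funext i
    rw [hz]
    field_simp [hi₀.1]
  have hint : ∀ f : MvPolynomial (Fin N) K, (∀ α, (adv K v).G 0 (coeff α f)) →
      (adv L w).G 0 (aeval z f) := by
    intro f hf
    rw [aeval_map_eq]
    refine G_eval hzG _ fun α _ => ⟨0, ?_, by rw [zero_mul, add_zero]⟩
    rw [coeff_map]
    have h3 := up_G hup (hf α)
    rwa [mul_zero] at h3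
  have hsc : ∀ i, aeval y (A i) = u ^ d * aeval z (A i) := by
    intro i
    rw [aeval_map_eq, aeval_map_eq, ← hyz]
    exact eval_scale ((hhom i).map _) u z
  have hud := hi₀.pow d
  refine ⟨fun i => ?_, ?_⟩
  · show (adv L w).G _ (aeval y (A i))
    rw [hsc i]
    have h3 := hud.G.mul (hint (A i) (hA1 i (Finset.mem_univ _)))
    rwa [add_zero] at h3
  · obtain ⟨i, hi⟩ : ∃ i, (adv L w).E 0 (aeval z (A i)) := by
      by_contra hcon
      push Not at hcon
      have hG1 : ∀ i, (adv L w).G 1 (aeval z (A i)) := by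
        intro i
        rcases hint (A i) (hA1 i (Finset.mem_univ _)) with h3 | h3
        · exact Or.inl h3
        · by_cases h0 : aeval z (A i) = 0
          · exact Or.inl h0
          · right
            have h4 : (adv L w).v (aeval z (A i)) ≠ 0 := fun h5 => hcon i ⟨h0, h5⟩
            omega
      have h3 : z i₀ = 1 := div_self hi₀.1
      have h4 := congrArg (aeval z) (hB i₀)
      rw [map_pow, aeval_X, h3, one_pow, map_sum] at h4
      have h5 : (adv L w).G 1 (1 : L) := by
        rw [h4]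
        refine G_sum _ _ fun i _ => ?_
        rw [map_mul]
        exact g01 (hint _ (hB1 (i₀, i) (Finset.mem_univ _))) (hG1 i)
      have h6 := (E_one (w := adv L w)).le_of_G h5
      omega
    refine ⟨i, ?_⟩
    show (adv L w).E _ (aeval y (A i))
    rw [hsc i]
    have h3 := hud.mul hi
    rwa [add_zero] at h3

/-- the member of the family at `t` -/
noncomputable def member (A : Fin N → MvPolynomial (Fin N) K)
    (P : Fin N → MvPolynomial (Fin N) (MvPolynomial (Fin m) K)) (t : Fin m → K) :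
    Fin N → MvPolynomial (Fin N) K := fun i => A i + MvPolynomial.map (eval t) (P i)

/-- the polynomial map on the points over `L` -/
noncomputable def act (L : Type) [Field L] [Algebra K L] (f : Fin N → MvPolynomial (Fin N) K)
    (y : Fin N → L) : Fin N → L := fun i => aeval y (f i)

open Classical in
/-- the coefficients -/
noncomputable def coeffs (P : Fin N → MvPolynomial (Fin N) (MvPolynomial (Fin m) K)) :
    Finset (MvPolynomial (Fin m) K) :=
  Finset.univ.biUnion fun i => (P i).support.image fun α => coeff α (P i)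

theorem mem_coeffs {P : Fin N → MvPolynomial (Fin N) (MvPolynomial (Fin m) K)} {i : Fin N}
    {α : Fin N →₀ ℕ} (h : α ∈ (P i).support) : coeff α (P i) ∈ coeffs P := by
  classical
  unfold coeffs
  rw [Finset.mem_biUnion]
  exact ⟨i, Finset.mem_univ _, Finset.mem_image_of_mem _ h⟩

/-- no preperiodic points of small degree -/
theorem no_preper {A : Fin N → MvPolynomial (Fin N) K} (hd : 2 ≤ d)
    (hhom : ∀ i, (A i).IsHomogeneous d) (hA : NonDeg A) : ∃ D₀ : ℕ, D₀ ≠ 0 ∧
    ∀ (P : Fin N → MvPolynomial (Fin N) (MvPolynomial (Fin m) K)) (δ B : ℕ), 1 ≤ δ →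
      (∀ i, ∀ α ∈ (P i).support, α.degree < d ∧
        d * (coeff α (P i)).totalDegree ≤ δ * (d - α.degree)) →
      ∀ j : Fin N, (coeff 0 (P j)).totalDegree = δ → ∀ t : Fin m → K,
      Pl (coeffs P) {coeff 0 (P j)} D₀ (lvl d δ B) t →
      ∀ (L : Type) [Field L] [NumberField L] [Algebra K L], Module.finrank K L ≤ B →
        ∀ (y : Fin N → L) (a b : ℕ), a < b →
          (act L (member A P t))^[a] y ≠ (act L (member A P t))^[b] y := by
  obtain ⟨D₀, hD₀, hlead⟩ := lead_sz hhom hA
  refine ⟨D₀, hD₀, fun P δ B hδ hlow j hj t hPl L _ _ _ hL y a b hab he => ?_⟩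
  obtain ⟨v, k, hk, hNk, hv, hQ, hE⟩ := hPl
  obtain ⟨w, e, he1, heB, hup⟩ := above' K L v
  set PL : Fin N → MvPolynomial (Fin N) L := fun i =>
    MvPolynomial.map (algebraMap K L) (MvPolynomial.map (eval t) (P i)) with hPL
  have hcoef : ∀ i α, coeff α (PL i) = algebraMap K L (eval t (coeff α (P i))) := by
    intro i α
    rw [hPL, coeff_map, coeff_map]
  have hact : act L (member A P t) = mp (fun y i => aeval y (A i)) PL := by
    funext y i
    unfold act member mp
    rw [map_add, aeval_map_eq y (MvPolynomial.map (eval t) (P i))]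
  have he' : (0 : ℤ) < e := by exact_mod_cast he1
  have hek : (0 : ℤ) < e * k := mul_pos he' hk
  have hhyp : Hyp (adv L w) d (fun y i => aeval y (A i)) PL (δ * (e * k)) := by
    refine ⟨hd, mul_pos (by exact_mod_cast hδ) hek, ?_, fun a x hx => hlead v hv L w e hup a x hx,
      ?_, j, ?_⟩
    · funext i
      have h1 := eval_scale ((hhom i).map (algebraMap K L)) 0 (0 : Fin N → L)
      rw [zero_pow (by omega), zero_mul] at h1
      show aeval (0 : Fin N → L) (A i) = 0
      rw [aeval_map_eq, ← h1]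
      congr 1
      congr 1
      funext i
      rw [zero_mul]
      rfl
    · intro i α hα
      have h1 : α ∈ (P i).support := by
        rw [mem_support_iff] at hα ⊢
        intro h0
        apply hα
        rw [hcoef, h0, map_zero, map_zero]
      obtain ⟨h2, h3⟩ := hlow i α h1
      refine ⟨h2, e * (-((coeff α (P i)).totalDegree * k)), ?_, ?_⟩
      · rw [hcoef]
        exact up_G hup (hQ _ (mem_coeffs h1))
      · have h4 : (d : ℤ) * (coeff α (P i)).totalDegree ≤ δ * (d - α.degree) := by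
          have h5 : ((d * (coeff α (P i)).totalDegree : ℕ) : ℤ) ≤ ((δ * (d - α.degree) : ℕ) : ℤ) :=
            by exact_mod_cast h3
          push_cast [Nat.cast_sub h2.le] at h5
          exact h5
        have h6 : (0 : ℤ) ≤ (e * k) * (δ * (d - α.degree) - d * (coeff α (P i)).totalDegree) :=
          mul_nonneg hek.le (by linarith)
        linarith
    · have h1 := hE _ (Finset.mem_singleton_self _)
      have h2 := up_E hup h1
      rw [hcoef]
      rw [hj] at h2
      have e1 : (e : ℤ) * (-((δ : ℤ) * k)) = -((δ : ℤ) * (e * k)) := by ring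
      rwa [e1] at h2
  rw [hact] at he
  have h1 := hhyp.dvd hab he
  exact hNk (lvl_dvd (by omega) he1 (heB.trans hL) h1)

/-- **the exceptional members are few** -/
theorem few {A : Fin N → MvPolynomial (Fin N) K} (hd : 2 ≤ d)
    (hhom : ∀ i, (A i).IsHomogeneous d) (hA : NonDeg A) (ω : Module.Basis ι ℤ (𝓞 K))
    (P : Fin N → MvPolynomial (Fin N) (MvPolynomial (Fin m) K)) (δ B : ℕ) (hδ : 1 ≤ δ)
    (hlow : ∀ i, ∀ α ∈ (P i).support, α.degree < d ∧
      d * (coeff α (P i)).totalDegree ≤ δ * (d - α.degree))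
    (hc : ∃ j : Fin N, (coeff 0 (P j)).totalDegree = δ) (ε : ℝ) (hε : 0 < ε) :
    ∃ C : ℝ, 0 ≤ C ∧ ∀ H : ℕ, 1 ≤ H → ∀ S : Set (Fin m → K),
      (∀ t ∈ S, HtLe ω H t ∧ ∃ (L : Type) (_ : Field L) (_ : NumberField L) (_ : Algebra K L),
        Module.finrank K L ≤ B ∧ ∃ (y : Fin N → L) (a b : ℕ), a < b ∧
          (act L (member A P t))^[a] y = (act L (member A P t))^[b] y) →
      S.Finite ∧ (S.ncard : ℝ) ≤ C * (H : ℝ) ^ (((m : ℝ) + 1) * Module.finrank ℚ K - 1 +
        (Module.finrank ℚ K : ℝ) / (lvl d δ B : ℕ) + ε) := by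
  obtain ⟨D₀, hD₀, h⟩ := no_preper (m := m) hd hhom hA
  obtain ⟨j, hj⟩ := hc
  obtain ⟨C, hC0, hC⟩ := count_field ω (coeffs P) {coeff 0 (P j)} (fun p hp => by
    rw [Finset.mem_singleton] at hp
    rintro rfl
    rw [← hp, totalDegree_zero] at hj
    omega) D₀ hD₀ (lvl d δ B) (lvl_pos (by omega) _ _) ε hε
  refine ⟨C, hC0, fun H hH S hS => hC H hH S fun t ht => ?_⟩
  obtain ⟨h1, L, iF, iN, iA, h2, y, a, b, hab, he⟩ := hS t ht
  exact ⟨h1, fun hPl => h P δ B hδ hlow j hj t hPl L h2 y a b hab he⟩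

end Pool.Agent.X295.Pf
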