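import Pool.Agent.X295.PfC

/-!
Families of endomorphisms of projective space with several parameters: the extension to projective
space (helper file).
-/

set_option autoImplicit false

namespace Pool.Agent.X295.Pf

open MvPolynomial NumberField IsDedekindDomain Pool.Agent.Y673.Loc Pool.Agent.Y673.FM
  Pool.Agent.X295.Gal
open Pool.Agent.Y673.Loc.ZV

theorem tdeg_map_le {R S σ : Type} [CommSemiring R] [CommSemiring S] (φ : R →+* S)
    (f : MvPolynomial σ R) : (MvPolynomial.map φ f).totalDegree ≤ f.totalDegree :=
  Finset.sup_mono (support_map_subset _ _)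

theorem hmg_map {K L : Type} [Field K] [Field L] {N : ℕ} (φ : K →+* L) (D : ℕ)
    (f : MvPolynomial (Fin N) K) :
    MvPolynomial.map φ (hmg D f) = hmg D (MvPolynomial.map φ f) := by
  unfold hmg
  rw [map_sum, support_map_of_injective _ φ.injective]
  refine Finset.sum_congr rfl fun α _ => ?_
  rw [map_monomial, coeff_map]

theorem aeval_map_eq' {K L : Type} [Field K] [Field L] [Algebra K L] {n : ℕ} (y : Fin n → L)
    (f : MvPolynomial (Fin n) K) :
    aeval y f = eval y (MvPolynomial.map (algebraMap K L) f) := by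
  rw [eval_map, aeval_def]

theorem aeval_hmg {K L : Type} [Field K] [Field L] [Algebra K L] {N D : ℕ}
    {f : MvPolynomial (Fin N) K} (hD : f.totalDegree ≤ D) (y : Fin (N + 1) → L) (hy : y 0 ≠ 0) :
    aeval y (hmg D f) = y 0 ^ D * aeval (fun j => y j.succ / y 0) f := by
  rw [aeval_map_eq', hmg_map, hmg_eval ((tdeg_map_le _ _).trans hD) y hy, aeval_map_eq']

variable {K : Type} [Field K] {N d : ℕ}

/-- the extension of a polynomial map to projective space -/
noncomputable def ext (d : ℕ) (f : Fin N → MvPolynomial (Fin N) K) :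
    Fin (N + 1) → MvPolynomial (Fin (N + 1)) K :=
  Fin.cons (X 0 ^ d) fun i => hmg d (f i)

/-- the map on the vectors over `L` -/
noncomputable def pact (L : Type) [Field L] [Algebra K L] {n : ℕ}
    (F : Fin n → MvPolynomial (Fin n) K) (y : Fin n → L) : Fin n → L := fun i => aeval y (F i)

/-- affine coordinates -/
def deh {L : Type} [Field L] (y : Fin (N + 1) → L) : Fin N → L := fun j => y j.succ / y 0

theorem ext_act {L : Type} [Field L] [Algebra K L] {f : Fin N → MvPolynomial (Fin N) K}
    (hf : ∀ i, (f i).totalDegree ≤ d) {y : Fin (N + 1) → L} (hy : y 0 ≠ 0) :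
    pact L (ext d f) y 0 ≠ 0 ∧ deh (pact L (ext d f) y) = pact L f (deh y) := by
  have h0 : pact L (ext d f) y 0 = y 0 ^ d := by
    unfold pact ext
    rw [Fin.cons_zero, map_pow, aeval_X]
  have h1 : y 0 ^ d ≠ 0 := pow_ne_zero _ hy
  refine ⟨by rw [h0]; exact h1, ?_⟩
  funext j
  show pact L (ext d f) y j.succ / pact L (ext d f) y 0 = _
  rw [h0]
  have h2 : pact L (ext d f) y j.succ = y 0 ^ d * aeval (fun j => y j.succ / y 0) (f j) := by
    unfold pact ext
    rw [Fin.cons_succ]
    exact aeval_hmg (hf j) y hy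
  rw [h2, mul_div_cancel_left₀ _ h1]
  rfl

theorem ext_iter {L : Type} [Field L] [Algebra K L] {f : Fin N → MvPolynomial (Fin N) K}
    (hf : ∀ i, (f i).totalDegree ≤ d) {y : Fin (N + 1) → L} (hy : y 0 ≠ 0) (n : ℕ) :
    (pact L (ext d f))^[n] y 0 ≠ 0 ∧
      deh ((pact L (ext d f))^[n] y) = (pact L f)^[n] (deh y) := by
  induction n with
  | zero => exact ⟨hy, rfl⟩
  | succ n ih =>
    rw [Function.iterate_succ_apply', Function.iterate_succ_apply', ← ih.2]
    exact ext_act hf ih.1

theorem ext_preper {L : Type} [Field L] [Algebra K L] {f : Fin N → MvPolynomial (Fin N) K}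
    (hf : ∀ i, (f i).totalDegree ≤ d) {y : Fin (N + 1) → L} (hy : y 0 ≠ 0) {a b : ℕ} {c : L}
    (hc : c ≠ 0) (h : (pact L (ext d f))^[b] y = c • (pact L (ext d f))^[a] y) :
    (pact L f)^[a] (deh y) = (pact L f)^[b] (deh y) := by
  rw [← (ext_iter hf hy a).2, ← (ext_iter hf hy b).2, h]
  funext j
  unfold deh
  rw [Pi.smul_apply, Pi.smul_apply, smul_eq_mul, smul_eq_mul, mul_div_mul_left _ _ hc]

/-- at infinity -/
theorem aeval_hmg_zero {L : Type} [Field L] [Algebra K L] {A P : MvPolynomial (Fin N) K}
    (hA : A.IsHomogeneous d) (hP : ∀ α ∈ P.support, α.degree < d) {y : Fin (N + 1) → L}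
    (hy : y 0 = 0) : aeval y (hmg d (A + P)) = aeval (fun j : Fin N => y j.succ) A := by
  classical
  set T := (A + P).support ∪ A.support with hT
  have h1 : aeval y (hmg d (A + P)) = ∑ α ∈ T, algebraMap K L (coeff α (A + P)) *
      (y 0 ^ (d - α.degree) * ∏ i : Fin N, y i.succ ^ α i) := by
    unfold hmg
    rw [map_sum, ← Finset.sum_subset (Finset.subset_union_left (s₂ := A.support))]
    · refine Finset.sum_congr rfl fun α _ => ?_
      rw [aeval_monomial, Finsupp.prod_fintype _ _ (fun i => pow_zero _), Fin.prod_univ_succ,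
        Finsupp.cons_zero]
      simp only [Finsupp.cons_succ]
    · intro α _ hα
      rw [notMem_support_iff.1 hα, map_zero, zero_mul]
  have h2 : aeval (fun j : Fin N => y j.succ) A = ∑ α ∈ T, algebraMap K L (coeff α A) *
      ∏ i : Fin N, y i.succ ^ α i := by
    rw [aeval_def, eval₂_eq', ← Finset.sum_subset (Finset.subset_union_right
      (s₁ := (A + P).support))]
    intro α _ hα
    rw [notMem_support_iff.1 hα, map_zero, zero_mul]
  rw [h1, h2]
  refine Finset.sum_congr rfl fun α hα => ?_
  by_cases hαd : α.degree = d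
  · have h3 : coeff α P = 0 := by
      by_contra h0
      have := hP α (mem_support_iff.2 h0)
      omega
    rw [hαd, Nat.sub_self, pow_zero, one_mul, coeff_add, h3, add_zero]
  · have h3 : coeff α A = 0 := by
      by_contra h0
      apply hαd
      rw [Finsupp.degree_eq_weight_one]
      exact hA h0
    have h4 : d - α.degree ≠ 0 ∨ coeff α (A + P) = 0 := by
      by_cases h0 : coeff α P = 0
      · right; rw [coeff_add, h3, h0, add_zero]
      · left
        have := hP α (mem_support_iff.2 h0)
        omega
    rw [h3, map_zero, zero_mul]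
    rcases h4 with h4 | h4
    · rw [hy, zero_pow h4, zero_mul, mul_zero]
    · rw [h4, map_zero, zero_mul]

variable {m : ℕ}

theorem member_deg [NumberField K] {A : Fin N → MvPolynomial (Fin N) K}
    (hhom : ∀ i, (A i).IsHomogeneous d)
    {P : Fin N → MvPolynomial (Fin N) (MvPolynomial (Fin m) K)}
    (hlow : ∀ i, ∀ α ∈ (P i).support, α.degree < d) (t : Fin m → K) (i : Fin N) :
    (member A P t i).totalDegree ≤ d := by
  unfold member
  refine (totalDegree_add _ _).trans (max_le (hhom i).totalDegree_le ?_)
  refine (tdeg_map_le _ _).trans ?_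
  unfold totalDegree
  refine Finset.sup_le fun α hα => ?_
  exact (hlow i α hα).le

/-- every member is a morphism -/
theorem ext_morphism [NumberField K] {A : Fin N → MvPolynomial (Fin N) K} (hd : 1 ≤ d)
    (hhom : ∀ i, (A i).IsHomogeneous d) (hA : NonDeg A)
    {P : Fin N → MvPolynomial (Fin N) (MvPolynomial (Fin m) K)}
    (hlow : ∀ i, ∀ α ∈ (P i).support, α.degree < d) (t : Fin m → K) :
    (∀ i, (ext d (member A P t) i).IsHomogeneous d) ∧
    ∀ y : Fin (N + 1) → AlgebraicClosure K,
      (∀ i, aeval y (ext d (member A P t) i) = 0) → y = 0 := by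
  constructor
  · intro i
    unfold ext
    refine Fin.cases ?_ (fun j => ?_) i
    · rw [Fin.cons_zero]
      have h1 := (isHomogeneous_X K (0 : Fin (N + 1))).pow d
      rwa [one_mul] at h1
    · rw [Fin.cons_succ]
      exact hmg_hom (member_deg hhom hlow t j)
  · intro y hy
    have h0 : y 0 = 0 := by
      have h1 := hy 0
      unfold ext at h1
      rw [Fin.cons_zero, map_pow, aeval_X] at h1
      exact (pow_eq_zero_iff (by omega)).1 h1
    have h1 : (fun j : Fin N => y j.succ) = 0 := by
      apply hA
      intro i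
      have h2 := hy i.succ
      unfold ext member at h2
      rw [Fin.cons_succ] at h2
      rw [← h2]
      refine (aeval_hmg_zero (hhom i) (fun α hα => ?_) h0).symm
      apply hlow i α
      rw [mem_support_iff] at hα ⊢
      intro h3
      apply hα
      rw [coeff_map, h3, map_zero]
    funext i
    refine Fin.cases h0 (fun j => ?_) i
    exact congrFun h1 j

end Pool.Agent.X295.Pf
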