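import Pool.Agent.X295.PfB

/-!
Preperiodic points of rational maps of the line with a large constant term (helper file).
-/

set_option autoImplicit false

namespace Pool.Agent.X295.Pf

open NumberField IsDedekindDomain Pool.Agent.Y673.Loc Pool.Agent.Y673.FM Pool.Agent.X295.Gal
open Pool.Agent.Y673.Loc.ZV Polynomial

section loc
variable {L : Type} [Field L] {w : ZV L} {d e : ℕ} {P Q : L[X]} {M₀ Md Mq : ℤ}

theorem G_peval {a t : ℤ} {z : L} (hz : w.G a z) (f : L[X])
    (h : ∀ i, f.coeff i ≠ 0 → ∃ b, w.G b (f.coeff i) ∧ t ≤ b + a * i) : w.G t (f.eval z) := by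
  rw [eval_eq_sum_range]
  refine G_sum _ _ fun i _ => ?_
  by_cases h0 : f.coeff i = 0
  · rw [h0, zero_mul]; exact G_zero
  obtain ⟨b, hb, htb⟩ := h i h0
  exact (hb.mul (G_pow hz i)).mono htb

theorem peval_split (f : L[X]) (n : ℕ) (z : L) :
    f.eval z = f.coeff n * z ^ n + (f.erase n).eval z := by
  conv_lhs => rw [← monomial_add_erase f n]
  rw [eval_add, eval_monomial]

open Classical in
/-- the rational map `P / Q` on the projective line -/
noncomputable def step (P Q : L[X]) : Option L → Option L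
  | none => none
  | some z => if Q.eval z = 0 then none else some (P.eval z / Q.eval z)

/-- the conditions -/
structure HypR (w : ZV L) (d e : ℕ) (P Q : L[X]) (M₀ Md Mq : ℤ) : Prop where
  two : 2 ≤ d
  lt : e < d
  zero : w.E (-M₀) (P.coeff 0)
  lead : w.E (-Md) (P.coeff d)
  mid : ∀ i, P.coeff i ≠ 0 → i ≤ d ∧ ∃ b, w.G b (P.coeff i) ∧ -((d - i) * M₀ + i * Md) ≤ d * b
  qlead : w.E (-Mq) (Q.coeff e)
  qmid : ∀ i, Q.coeff i ≠ 0 → i ≤ e ∧ ∃ c, w.G c (Q.coeff i) ∧
    -(d * Mq + (e - i) * (M₀ - Md)) ≤ d * c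
  esc : d * Mq + (e + 1) * (M₀ - Md) < d * M₀

theorem HypR.large_P (h : HypR w d e P Q M₀ Md Mq) {a : ℤ} {z : L} (hz : w.E a z)
    (ha : d * a < -(M₀ - Md)) : w.E (-Md + a * d) (P.eval z) := by
  have hd : (0 : ℤ) < d := by have := h.two; exact_mod_cast (by omega : 0 < d)
  rw [peval_split P d z]
  have h1 := h.lead.mul (hz.pow d)
  have e1 : (d : ℤ) * a = a * d := mul_comm _ _
  rw [e1] at h1
  refine h1.addG (m := -Md + a * d + 1) (G_peval hz.G _ fun i hi => ?_) (by omega)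
  rw [coeff_erase] at hi ⊢
  split_ifs at hi ⊢ with hid
  · exact absurd rfl hi
  obtain ⟨h2, b, hb, h3⟩ := h.mid i hi
  refine ⟨b, hb, ?_⟩
  have h4 : (1 : ℤ) ≤ d - i := by
    have : i < d := lt_of_le_of_ne h2 hid
    have : (i : ℤ) < d := by exact_mod_cast this
    omega
  have h5 : (d : ℤ) * (-Md + a * d) < d * (b + a * i) := by nlinarith
  have h6 := lt_of_mul_lt_mul_left h5 hd.le
  omega

theorem HypR.large_Q (h : HypR w d e P Q M₀ Md Mq) {a : ℤ} {z : L} (hz : w.E a z)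
    (ha : d * a < -(M₀ - Md)) : w.E (-Mq + a * e) (Q.eval z) := by
  have hd : (0 : ℤ) < d := by have := h.two; exact_mod_cast (by omega : 0 < d)
  rw [peval_split Q e z]
  have h1 := h.qlead.mul (hz.pow e)
  have e1 : (e : ℤ) * a = a * e := mul_comm _ _
  rw [e1] at h1
  refine h1.addG (m := -Mq + a * e + 1) (G_peval hz.G _ fun i hi => ?_) (by omega)
  rw [coeff_erase] at hi ⊢
  split_ifs at hi ⊢ with hid
  · exact absurd rfl hi
  obtain ⟨h2, b, hb, h3⟩ := h.qmid i hi
  refine ⟨b, hb, ?_⟩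
  have h4 : (1 : ℤ) ≤ e - i := by
    have : i < e := lt_of_le_of_ne h2 hid
    have : (i : ℤ) < e := by exact_mod_cast this
    omega
  have h5 : (d : ℤ) * (-Mq + a * e) < d * (b + a * i) := by nlinarith
  have h6 := lt_of_mul_lt_mul_left h5 hd.le
  omega

theorem HypR.large (h : HypR w d e P Q M₀ Md Mq) {a : ℤ} {z : L} (hz : w.E a z)
    (ha : d * a < -(M₀ - Md)) : ∃ z' a', step P Q (some z) = some z' ∧ w.E a' z' ∧ a' < a := by
  have hd : (0 : ℤ) < d := by have := h.two; exact_mod_cast (by omega : 0 < d)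
  have h1 := h.large_P hz ha
  have h2 := h.large_Q hz ha
  refine ⟨P.eval z / Q.eval z, _, ?_, h1.div h2, ?_⟩
  · exact if_neg h2.1
  · have h3 : (0 : ℤ) ≤ d - 1 - e := by
      have := h.lt
      have : (e : ℤ) < d := by exact_mod_cast this
      omega
    have h4 := h.esc
    have h5 : (d : ℤ) * (-Md + a * d - (-Mq + a * e)) < d * a := by nlinarith
    exact lt_of_mul_lt_mul_left h5 hd.le

theorem HypR.large_iter (h : HypR w d e P Q M₀ Md Mq) (n : ℕ) : ∀ {a : ℤ} {z : L}, w.E a z →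
    d * a < -(M₀ - Md) → ∃ z' a', (step P Q)^[n + 1] (some z) = some z' ∧ w.E a' z' ∧ a' < a := by
  have hd : (0 : ℤ) < d := by have := h.two; exact_mod_cast (by omega : 0 < d)
  induction n with
  | zero =>
    intro a z hz ha
    exact h.large hz ha
  | succ n ih =>
    intro a z hz ha
    obtain ⟨z₁, a₁, h1, h2, h3⟩ := h.large hz ha
    obtain ⟨z₂, a₂, h4, h5, h6⟩ := ih h2 (by nlinarith)
    refine ⟨z₂, a₂, ?_, h5, by omega⟩
    rw [Function.iterate_succ_apply, h1, h4]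

theorem HypR.no_large (h : HypR w d e P Q M₀ Md Mq) {a : ℤ} {z : L} (hz : w.E a z)
    (ha : d * a < -(M₀ - Md)) {m n : ℕ} (hmn : m < n)
    (he : (step P Q)^[m] (some z) = (step P Q)^[n] (some z)) : False := by
  have hd : (0 : ℤ) < d := by have := h.two; exact_mod_cast (by omega : 0 < d)
  obtain ⟨y, b, hy1, hy2, hy3⟩ : ∃ y b, (step P Q)^[m] (some z) = some y ∧ w.E b y ∧
      d * b < -(M₀ - Md) := by
    rcases m with _ | m
    · exact ⟨z, a, rfl, hz, ha⟩
    · obtain ⟨y, b, h1, h2, h3⟩ := h.large_iter m hz ha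
      exact ⟨y, b, h1, h2, by nlinarith⟩
  obtain ⟨k, rfl⟩ : ∃ k, n = k + 1 + m := ⟨n - m - 1, by omega⟩
  rw [Function.iterate_add_apply, hy1] at he
  obtain ⟨y', b', h4, h5, h6⟩ := h.large_iter k hy2 hy3
  rw [h4] at he
  have h7 := Option.some.inj he
  rw [← h7] at h5
  have h8 := h5.eq hy2
  omega

theorem HypR.small (h : HypR w d e P Q M₀ Md Mq) {a : ℤ} {z : L} (hz : w.G a z)
    (ha : -(M₀ - Md) < d * a) (hQ : Q.eval z ≠ 0) : ∃ z' a', step P Q (some z) = some z' ∧
      w.E a' z' ∧ d * a' < -(M₀ - Md) := by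
  have hd : (0 : ℤ) < d := by have := h.two; exact_mod_cast (by omega : 0 < d)
  have h1 : w.E (-M₀) (P.eval z) := by
    rw [peval_split P 0 z, pow_zero, mul_one]
    refine h.zero.addG (m := -M₀ + 1) (G_peval hz _ fun i hi => ?_) (by omega)
    rw [coeff_erase] at hi ⊢
    split_ifs at hi ⊢ with hid
    · exact absurd rfl hi
    obtain ⟨h2, b, hb, h3⟩ := h.mid i hi
    refine ⟨b, hb, ?_⟩
    have h4 : (1 : ℤ) ≤ i := by
      have : 1 ≤ i := Nat.one_le_iff_ne_zero.2 hid
      exact_mod_cast this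
    have h5 : (d : ℤ) * (-M₀) < d * (b + a * i) := by nlinarith
    have h6 := lt_of_mul_lt_mul_left h5 hd.le
    omega
  obtain ⟨s, hs⟩ : ∃ s, w.E s (Q.eval z) := ⟨_, hQ, rfl⟩
  have h2 : -(d * Mq + e * (M₀ - Md)) ≤ d * s := by
    by_contra hcon
    push Not at hcon
    have h3 : w.G (s + 1) (Q.eval z) := by
      refine G_peval hz _ fun i hi => ?_
      obtain ⟨h2, b, hb, h3⟩ := h.qmid i hi
      refine ⟨b, hb, ?_⟩
      have h4 : (0 : ℤ) ≤ i := Nat.cast_nonneg _
      have h5 : (d : ℤ) * s < d * (b + a * i) := by nlinarith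
      have h6 := lt_of_mul_lt_mul_left h5 hd.le
      omega
    have := hs.le_of_G h3
    omega
  refine ⟨P.eval z / Q.eval z, _, ?_, h1.div hs, ?_⟩
  · exact if_neg hQ
  · have h4 := h.esc
    linarith

/-- **the valuation of a preperiodic point** -/
theorem HypR.dvd (h : HypR w d e P Q M₀ Md Mq) {z : L} (hQ : Q.eval z ≠ 0) {m n : ℕ}
    (hmn : m < n) (he : (step P Q)^[m] (some z) = (step P Q)^[n] (some z)) :
    (d : ℤ) ∣ M₀ - Md := by
  have hd2 : (2 : ℤ) ≤ d := by exact_mod_cast h.two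
  have he' : (step P Q)^[m] (step P Q (some z)) = (step P Q)^[n] (step P Q (some z)) := by
    rw [← Function.iterate_succ_apply, ← Function.iterate_succ_apply,
      Function.iterate_succ_apply', Function.iterate_succ_apply', he]
  have hsmall : ∀ a : ℤ, w.G a z → ¬ -(M₀ - Md) < d * a := by
    intro a hx ha
    obtain ⟨z', a', h1, h2, h3⟩ := h.small hx ha hQ
    rw [h1] at he'
    exact h.no_large h2 h3 hmn he'
  by_cases h0 : z = 0
  · exfalso
    refine hsmall (|M₀ - Md| + 1) (by rw [h0]; exact G_zero) ?_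
    have h1 := neg_abs_le (M₀ - Md)
    have h2 := abs_nonneg (M₀ - Md)
    have h3 := le_abs_self (M₀ - Md)
    have h4 : -(M₀ - Md) ≤ |M₀ - Md| := by rw [← abs_neg]; exact le_abs_self _
    nlinarith
  have ha : w.E (w.v z) z := ⟨h0, rfl⟩
  have h1 := hsmall _ ha.G
  have h2 : ¬ (d : ℤ) * w.v z < -(M₀ - Md) := fun h3 => h.no_large ha h3 hmn he
  exact ⟨-w.v z, by linarith [(by omega : (d : ℤ) * w.v z = -(M₀ - Md))]⟩

end loc

end Pool.Agent.X295.Pf
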