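import Pool.Agent.X295.PfE

/-!
Families of rational maps of the line with several parameters (helper file).
-/

set_option autoImplicit false

namespace Pool.Agent.X295.Pf

open NumberField IsDedekindDomain Pool.Agent.Y673.Loc Pool.Agent.Y673.FM Pool.Agent.X295.Gal
open Pool.Agent.Y673.Loc.ZV Polynomial

variable {K : Type} [Field K] [NumberField K] {m d e : ℕ} {ι : Type} [Fintype ι]

/-- the member at `t`, over `L` -/
noncomputable def memL (L : Type) [Field L] [Algebra K L] (P : (MvPolynomial (Fin m) K)[X])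
    (t : Fin m → K) : L[X] := (P.map (MvPolynomial.eval t)).map (algebraMap K L)

theorem memL_coeff (L : Type) [Field L] [Algebra K L] (P : (MvPolynomial (Fin m) K)[X])
    (t : Fin m → K) (i : ℕ) :
    (memL L P t).coeff i = algebraMap K L (MvPolynomial.eval t (P.coeff i)) := by
  unfold memL
  rw [coeff_map, coeff_map]

open Classical in
/-- the coefficients -/
noncomputable def cfs (P Q : (MvPolynomial (Fin m) K)[X]) : Finset (MvPolynomial (Fin m) K) :=
  (P.support.image fun i => P.coeff i) ∪ (Q.support.image fun i => Q.coeff i)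

open Classical in
theorem rat_no_preper {P Q : (MvPolynomial (Fin m) K)[X]} (hd : 2 ≤ d) (hed : e < d)
    (hP : ∀ i, P.coeff i ≠ 0 → i ≤ d ∧ d * (P.coeff i).totalDegree ≤
      (d - i) * (P.coeff 0).totalDegree + i * (P.coeff d).totalDegree)
    (hQ : ∀ i, Q.coeff i ≠ 0 → i ≤ e ∧
      d * (Q.coeff i).totalDegree + (e - i) * (P.coeff d).totalDegree ≤
      d * (Q.coeff e).totalDegree + (e - i) * (P.coeff 0).totalDegree)
    (hesc : d * (Q.coeff e).totalDegree + (e + 1) * (P.coeff 0).totalDegree <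
      d * (P.coeff 0).totalDegree + (e + 1) * (P.coeff d).totalDegree) (B : ℕ) {t : Fin m → K}
    (hPl : Pl (cfs P Q) {P.coeff 0, P.coeff d, Q.coeff e} 1
      (lvl d (((P.coeff 0).totalDegree : ℤ) - (P.coeff d).totalDegree).natAbs B) t)
    (L : Type) [Field L] [NumberField L] [Algebra K L] (hL : Module.finrank K L ≤ B)
    {z : L} (hz : (memL L Q t).eval z ≠ 0) {a b : ℕ} (hab : a < b) :
    (step (memL L P t) (memL L Q t))^[a] (some z) ≠
      (step (memL L P t) (memL L Q t))^[b] (some z) := by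
  classical
  intro he
  obtain ⟨v, k, hk, hNk, -, hQ', hE⟩ := hPl
  obtain ⟨w, f, hf1, hfB, hup⟩ := above' K L v
  have hf' : (0 : ℤ) < f := by exact_mod_cast hf1
  set κ : ℤ := f * k with hκ
  have hκ0 : 0 < κ := mul_pos hf' hk
  set δ₀ : ℕ := (P.coeff 0).totalDegree with hδ₀
  set δd : ℕ := (P.coeff d).totalDegree with hδd
  set δq : ℕ := (Q.coeff e).totalDegree with hδq
  have hEe : ∀ p ∈ ({P.coeff 0, P.coeff d, Q.coeff e} : Finset (MvPolynomial (Fin m) K)),
      (adv L w).E (-(p.totalDegree * κ)) (algebraMap K L (MvPolynomial.eval t p)) := by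
    intro p hp
    have h1 := up_E hup (hE p hp)
    have e1 : (f : ℤ) * (-((p.totalDegree : ℤ) * k)) = -((p.totalDegree : ℤ) * κ) := by
      rw [hκ]; ring
    rwa [e1] at h1
  have hGe : ∀ p ∈ cfs P Q,
      (adv L w).G (-(p.totalDegree * κ)) (algebraMap K L (MvPolynomial.eval t p)) := by
    intro p hp
    have h1 := up_G hup (hQ' p hp)
    have e1 : (f : ℤ) * (-((p.totalDegree : ℤ) * k)) = -((p.totalDegree : ℤ) * κ) := by
      rw [hκ]; ring
    rwa [e1] at h1
  have hhyp : HypR (adv L w) d e (memL L P t) (memL L Q t) (δ₀ * κ) (δd * κ) (δq * κ) := by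
    refine ⟨hd, hed, ?_, ?_, ?_, ?_, ?_, ?_⟩
    · rw [memL_coeff]; exact hEe _ (by simp)
    · rw [memL_coeff]; exact hEe _ (by simp)
    · intro i hi
      rw [memL_coeff] at hi
      have hi' : P.coeff i ≠ 0 := by
        intro h0
        apply hi
        rw [h0, map_zero, map_zero]
      obtain ⟨h1, h2⟩ := hP i hi'
      refine ⟨h1, -((P.coeff i).totalDegree * κ), ?_, ?_⟩
      · rw [memL_coeff]
        refine hGe _ ?_
        unfold cfs
        exact Finset.mem_union_left _ (Finset.mem_image_of_mem _ (Polynomial.mem_support_iff.2 hi'))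
      · have h3 : ((d * (P.coeff i).totalDegree : ℕ) : ℤ) ≤
            (((d - i) * δ₀ + i * δd : ℕ) : ℤ) := by exact_mod_cast h2
        push_cast [Nat.cast_sub h1] at h3
        have h4 : (0 : ℤ) ≤ κ * ((d - i) * δ₀ + i * δd - d * (P.coeff i).totalDegree) :=
          mul_nonneg hκ0.le (by linarith)
        linarith
    · rw [memL_coeff]; exact hEe _ (by simp)
    · intro i hi
      rw [memL_coeff] at hi
      have hi' : Q.coeff i ≠ 0 := by
        intro h0
        apply hi
        rw [h0, map_zero, map_zero]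
      obtain ⟨h1, h2⟩ := hQ i hi'
      refine ⟨h1, -((Q.coeff i).totalDegree * κ), ?_, ?_⟩
      · rw [memL_coeff]
        refine hGe _ ?_
        unfold cfs
        exact Finset.mem_union_right _ (Finset.mem_image_of_mem _ (Polynomial.mem_support_iff.2 hi'))
      · have h3 : ((d * (Q.coeff i).totalDegree + (e - i) * δd : ℕ) : ℤ) ≤
            ((d * δq + (e - i) * δ₀ : ℕ) : ℤ) := by exact_mod_cast h2
        push_cast [Nat.cast_sub h1] at h3
        have h4 : (0 : ℤ) ≤ κ * (d * δq + (e - i) * δ₀ -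
            (d * (Q.coeff i).totalDegree + (e - i) * δd)) := mul_nonneg hκ0.le (by linarith)
        linarith
    · have h3 : ((d * δq + (e + 1) * δ₀ : ℕ) : ℤ) < ((d * δ₀ + (e + 1) * δd : ℕ) : ℤ) := by
        exact_mod_cast hesc
      push_cast at h3
      have h4 : (0 : ℤ) < κ * (d * δ₀ + (e + 1) * δd - (d * δq + (e + 1) * δ₀)) :=
        mul_pos hκ0 (by linarith)
      linarith
  have h1 := hhyp.dvd hz hab he
  have h2 : (d : ℤ) ∣ ((((δ₀ : ℤ) - δd).natAbs : ℕ) : ℤ) * (f * k) := by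
    have e1 : (δ₀ : ℤ) * κ - δd * κ = ((δ₀ : ℤ) - δd) * κ := by ring
    rw [e1] at h1
    rcases Int.natAbs_eq ((δ₀ : ℤ) - δd) with h3 | h3
    · rw [h3] at h1
      exact h1
    · rw [h3, neg_mul, dvd_neg] at h1
      exact h1
  exact hNk (lvl_dvd (by omega) hf1 (hfB.trans hL) h2)

/-- **the exceptional members are few** -/
theorem rat_few (ω : Module.Basis ι ℤ (𝓞 K)) {P Q : (MvPolynomial (Fin m) K)[X]} (hd : 2 ≤ d)
    (hed : e < d) (h0 : P.coeff 0 ≠ 0) (hPd : P.coeff d ≠ 0) (hQe : Q.coeff e ≠ 0)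
    (hP : ∀ i, P.coeff i ≠ 0 → i ≤ d ∧ d * (P.coeff i).totalDegree ≤
      (d - i) * (P.coeff 0).totalDegree + i * (P.coeff d).totalDegree)
    (hQ : ∀ i, Q.coeff i ≠ 0 → i ≤ e ∧
      d * (Q.coeff i).totalDegree + (e - i) * (P.coeff d).totalDegree ≤
      d * (Q.coeff e).totalDegree + (e - i) * (P.coeff 0).totalDegree)
    (hesc : d * (Q.coeff e).totalDegree + (e + 1) * (P.coeff 0).totalDegree <
      d * (P.coeff 0).totalDegree + (e + 1) * (P.coeff d).totalDegree) (B : ℕ) (ε : ℝ)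
    (hε : 0 < ε) :
    ∃ C : ℝ, 0 ≤ C ∧ ∀ H : ℕ, 1 ≤ H → ∀ S : Set (Fin m → K),
      (∀ t ∈ S, HtLe ω H t ∧ ∃ (L : Type) (_ : Field L) (_ : NumberField L) (_ : Algebra K L),
        Module.finrank K L ≤ B ∧ ((memL L Q t).coeff e = 0 ∨
          ∃ z : L, (memL L Q t).eval z ≠ 0 ∧ ∃ a b : ℕ, a < b ∧
          (step (memL L P t) (memL L Q t))^[a] (some z) =
            (step (memL L P t) (memL L Q t))^[b] (some z))) →
      S.Finite ∧ (S.ncard : ℝ) ≤ C * (H : ℝ) ^ (((m : ℝ) + 1) * Module.finrank ℚ K - 1 +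
        (Module.finrank ℚ K : ℝ) /
          (lvl d (((P.coeff 0).totalDegree : ℤ) - (P.coeff d).totalDegree).natAbs B : ℕ) + ε) := by
  classical
  obtain ⟨C, hC0, hC⟩ := count_field ω (cfs P Q) {P.coeff 0, P.coeff d, Q.coeff e}
    (fun p hp => by
      simp only [Finset.mem_insert, Finset.mem_singleton] at hp
      rcases hp with rfl | rfl | rfl
      · exact h0
      · exact hPd
      · exact hQe) 1 one_ne_zero
    (lvl d (((P.coeff 0).totalDegree : ℤ) - (P.coeff d).totalDegree).natAbs B)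
    (lvl_pos (by omega) _ _) ε hε
  refine ⟨C, hC0, fun H hH S hS => hC H hH S fun t ht => ?_⟩
  obtain ⟨h1, L, iF, iN, iA, h2, h3⟩ := hS t ht
  refine ⟨h1, fun hPl => ?_⟩
  rcases h3 with h3 | ⟨z, hz, a, b, hab, he⟩
  · obtain ⟨v, k, -, -, -, -, hE⟩ := hPl
    have h4 := (hE (Q.coeff e) (by simp)).1
    apply h4
    rwa [memL_coeff, map_eq_zero] at h3
  · exact rat_no_preper hd hed hP hQ hesc B hPl L h2 hz hab he

end Pool.Agent.X295.Pf
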