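import Pool.Agent.X295.PfF

/-!
Families of Hénon maps with several parameters (helper file).
-/

set_option autoImplicit false

namespace Pool.Agent.X295.Pf

open NumberField IsDedekindDomain Pool.Agent.Y673.Loc Pool.Agent.Y673.FM Pool.Agent.X295.Gal
open Pool.Agent.Y673.Loc.ZV Polynomial

section loc
variable {L : Type} [Field L] {w : ZV L} {d : ℕ} {P : L[X]} {b c : L} {M₀ Md Mb : ℤ}

/-- the conditions -/
structure HypH (w : ZV L) (d : ℕ) (P : L[X]) (b c : L) (M₀ Md Mb : ℤ) : Prop where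
  two : 2 ≤ d
  zero : w.E (-M₀) (P.coeff 0)
  lead : w.E (-Md) (P.coeff d)
  mid : ∀ i, P.coeff i ≠ 0 → i ≤ d ∧ ∃ b, w.G b (P.coeff i) ∧ -((d - i) * M₀ + i * Md) ≤ d * b
  hb : w.G (-Mb) b
  hc : w.G (-Mb) c
  esc : (M₀ - Md) + d * Mb < d * M₀

theorem HypH.large_P (h : HypH w d P b c M₀ Md Mb) {a : ℤ} {z : L} (hz : w.E a z)
    (ha : d * a < -(M₀ - Md)) : w.E (-Md + a * d) (P.eval z) := by
  have hd : (0 : ℤ) < d := by have := h.two; exact_mod_cast (by omega : 0 < d)
  rw [peval_split P d z]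
  have h1 := h.lead.mul (hz.pow d)
  have e1 : (d : ℤ) * a = a * d := mul_comm _ _
  rw [e1] at h1
  refine h1.addG (m := -Md + a * d + 1) (G_peval hz.G _ fun i hi => ?_) (by omega)
  rw [coeff_erase] at hi ⊢
  split_ifs at hi ⊢ with hid
  · exact absurd rfl hi
  obtain ⟨h2, b, hb, h3⟩ := h.mid i hi
  refine ⟨b, hb, ?_⟩
  have h4 : (1 : ℤ) ≤ d - i := by
    have : i < d := lt_of_le_of_ne h2 hid
    have : (i : ℤ) < d := by exact_mod_cast this
    omega
  have h5 : (d : ℤ) * (-Md + a * d) < d * (b + a * i) := by nlinarith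
  have h6 := lt_of_mul_lt_mul_left h5 hd.le
  omega

theorem HypH.small_P (h : HypH w d P b c M₀ Md Mb) {a : ℤ} {z : L} (hz : w.G a z)
    (ha : -(M₀ - Md) < d * a) : w.E (-M₀) (P.eval z) := by
  have hd : (0 : ℤ) < d := by have := h.two; exact_mod_cast (by omega : 0 < d)
  rw [peval_split P 0 z, pow_zero, mul_one]
  refine h.zero.addG (m := -M₀ + 1) (G_peval hz _ fun i hi => ?_) (by omega)
  rw [coeff_erase] at hi ⊢
  split_ifs at hi ⊢ with hid
  · exact absurd rfl hi
  obtain ⟨h2, b, hb, h3⟩ := h.mid i hi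
  refine ⟨b, hb, ?_⟩
  have h4 : (1 : ℤ) ≤ i := by
    have : 1 ≤ i := Nat.one_le_iff_ne_zero.2 hid
    exact_mod_cast this
  have h5 : (d : ℤ) * (-M₀) < d * (b + a * i) := by nlinarith
  have h6 := lt_of_mul_lt_mul_left h5 hd.le
  omega

/-- the Hénon map -/
noncomputable def hen (P : L[X]) (b c : L) (p : L × L) : L × L :=
  (p.2, (P.eval p.2 - b * p.1) / c)

/-- **the valuations of a periodic point** -/
theorem HypH.dvd (h : HypH w d P b c M₀ Md Mb) (hc0 : c ≠ 0) {p : L × L} {n : ℕ} (hn : 1 ≤ n)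
    (hp : (hen P b c)^[n] p = p) : (d : ℤ) ∣ M₀ - Md := by
  classical
  have hd : (0 : ℤ) < d := by have := h.two; exact_mod_cast (by omega : 0 < d)
  have hd2 : (2 : ℤ) ≤ d := by exact_mod_cast h.two
  set z : ℕ → L := fun k => ((hen P b c)^[k] p).1 with hz
  have hz2 : ∀ k, ((hen P b c)^[k] p).2 = z (k + 1) := by
    intro k
    rw [hz]
    show _ = ((hen P b c)^[k + 1] p).1
    rw [Function.iterate_succ_apply']
    rfl
  have hrec : ∀ k, P.eval (z (k + 1)) = c * z (k + 2) + b * z k := by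
    intro k
    have h1 : z (k + 2) = (P.eval (z (k + 1)) - b * z k) / c := by
      rw [← hz2 (k + 1), Function.iterate_succ_apply']
      show (P.eval ((hen P b c)^[k] p).2 - b * ((hen P b c)^[k] p).1) / c = _
      rw [hz2 k]
    rw [h1]
    field_simp
    ring
  have hper : ∀ k, z (k + n) = z k := by
    intro k
    rw [hz]
    show ((hen P b c)^[k + n] p).1 = ((hen P b c)^[k] p).1
    rw [Function.iterate_add_apply, hp]
  have hmod : ∀ k, z k = z (k % n) := by
    intro k
    have h1 : ∀ j k, z (k + n * j) = z k := by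
      intro j
      induction j with
      | zero => intro k; rw [mul_zero, add_zero]
      | succ j ih =>
        intro k
        rw [mul_add, mul_one, ← add_assoc, hper, ih]
    conv_lhs => rw [← Nat.mod_add_div k n]
    exact h1 _ _
  -- not all zero
  obtain ⟨k₀, hk₀⟩ : ∃ k, z k ≠ 0 := by
    by_contra hcon
    push Not at hcon
    have h1 := hrec 0
    rw [hcon (0 + 1), hcon (0 + 2), hcon 0, mul_zero, mul_zero, add_zero, peval_split P 0 0] at h1
    have h2 : (P.erase 0).eval 0 = 0 := by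
      rw [← coeff_zero_eq_eval_zero, coeff_erase, if_pos rfl]
    rw [h2, pow_zero, mul_one, add_zero] at h1
    exact h.zero.1 h1
  obtain ⟨k₁, hk₁, hmin⟩ := Finset.exists_min_image ((Finset.range n).filter fun k => z k ≠ 0)
    (fun k => w.v (z k)) ⟨k₀ % n, by
      rw [Finset.mem_filter, Finset.mem_range]
      exact ⟨Nat.mod_lt _ (by omega), by rw [← hmod]; exact hk₀⟩⟩
  rw [Finset.mem_filter, Finset.mem_range] at hk₁
  set a := w.v (z k₁) with ha
  have hEa : w.E a (z k₁) := ⟨hk₁.2, rfl⟩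
  have hGa : ∀ k, w.G a (z k) := by
    intro k
    by_cases h0 : z k = 0
    · exact Or.inl h0
    · right
      rw [hmod k] at h0 ⊢
      exact hmin _ (by
        rw [Finset.mem_filter, Finset.mem_range]
        exact ⟨Nat.mod_lt _ (by omega), h0⟩)
  have hGP : ∀ k, w.G (a - Mb) (P.eval (z (k + 1))) := by
    intro k
    rw [hrec]
    have e1 : a - Mb = -Mb + a := by ring
    rw [e1]
    exact (h.hc.mul (hGa _)).add (h.hb.mul (hGa _))
  have hesc := h.esc
  -- the orbit is not large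
  have h1 : ¬ (d : ℤ) * a < -(M₀ - Md) := by
    intro h2
    obtain ⟨k, hk⟩ : ∃ k, z (k + 1) = z k₁ := ⟨k₁ + n - 1, by
      rw [show k₁ + n - 1 + 1 = k₁ + n by omega, hper]⟩
    have h3 := h.large_P hEa h2
    rw [← hk] at h3
    have h4 := h3.le_of_G (hGP k)
    have h5 : (d : ℤ) * (a - Mb) ≤ d * (-Md + a * d) := mul_le_mul_of_nonneg_left h4 hd.le
    have h6 : ((d : ℤ) - 1) * (d * a) < (d - 1) * (-(M₀ - Md)) :=
      mul_lt_mul_of_pos_left h2 (by omega)
    nlinarith
  push Not at h1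
  -- no point is small
  have h2 : ¬ -(M₀ - Md) < d * a := by
    intro h3
    have h4 := h.small_P (hGa (0 + 1)) h3
    have h5 := h4.le_of_G (hGP 0)
    have h6 : (d : ℤ) * (a - Mb) ≤ d * (-M₀) := mul_le_mul_of_nonneg_left h5 hd.le
    nlinarith
  exact ⟨-a, by linarith [(by omega : (d : ℤ) * a = -(M₀ - Md))]⟩

end loc

variable {K : Type} [Field K] [NumberField K] {m d : ℕ} {ι : Type} [Fintype ι]

open Classical in
/-- the coefficients -/
noncomputable def cfh (P : (MvPolynomial (Fin m) K)[X]) (b c : MvPolynomial (Fin m) K) :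
    Finset (MvPolynomial (Fin m) K) := (P.support.image fun i => P.coeff i) ∪ {b, c}

open Classical in
theorem hen_no_per {P : (MvPolynomial (Fin m) K)[X]} {b c : MvPolynomial (Fin m) K} (hd : 2 ≤ d)
    (hP : ∀ i, P.coeff i ≠ 0 → i ≤ d ∧ d * (P.coeff i).totalDegree ≤
      (d - i) * (P.coeff 0).totalDegree + i * (P.coeff d).totalDegree)
    (hesc : (P.coeff 0).totalDegree + d * max b.totalDegree c.totalDegree <
      d * (P.coeff 0).totalDegree + (P.coeff d).totalDegree) (B : ℕ) {t : Fin m → K}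
    (hPl : Pl (cfh P b c) {P.coeff 0, P.coeff d, b, c} 1
      (lvl d (((P.coeff 0).totalDegree : ℤ) - (P.coeff d).totalDegree).natAbs B) t) :
    MvPolynomial.eval t (P.coeff d) ≠ 0 ∧ MvPolynomial.eval t b ≠ 0 ∧
    MvPolynomial.eval t c ≠ 0 ∧
    ∀ (L : Type) [Field L] [NumberField L] [Algebra K L], Module.finrank K L ≤ B →
    ∀ (p : L × L) (n : ℕ), 1 ≤ n →
    (hen (memL L P t) (algebraMap K L (MvPolynomial.eval t b))
      (algebraMap K L (MvPolynomial.eval t c)))^[n] p ≠ p := by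
  classical
  obtain ⟨v, k, hk, hNk, -, hQ', hE⟩ := hPl
  have hc0 : MvPolynomial.eval t c ≠ 0 := (hE c (by simp)).1
  refine ⟨(hE (P.coeff d) (by simp)).1, (hE b (by simp)).1, hc0, ?_⟩
  intro L _ _ _ hL p n hn he
  obtain ⟨w, f, hf1, hfB, hup⟩ := above' K L v
  have hf' : (0 : ℤ) < f := by exact_mod_cast hf1
  set κ : ℤ := f * k with hκ
  have hκ0 : 0 < κ := mul_pos hf' hk
  set δ₀ : ℕ := (P.coeff 0).totalDegree with hδ₀
  set δd : ℕ := (P.coeff d).totalDegree with hδd
  set δb : ℕ := max b.totalDegree c.totalDegree with hδb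
  have hEe : ∀ p ∈ ({P.coeff 0, P.coeff d, b, c} : Finset (MvPolynomial (Fin m) K)),
      (adv L w).E (-(p.totalDegree * κ)) (algebraMap K L (MvPolynomial.eval t p)) := by
    intro p hp
    have h1 := up_E hup (hE p hp)
    have e1 : (f : ℤ) * (-((p.totalDegree : ℤ) * k)) = -((p.totalDegree : ℤ) * κ) := by
      rw [hκ]; ring
    rwa [e1] at h1
  have hGe : ∀ p ∈ cfh P b c,
      (adv L w).G (-(p.totalDegree * κ)) (algebraMap K L (MvPolynomial.eval t p)) := by
    intro p hp
    have h1 := up_G hup (hQ' p hp)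
    have e1 : (f : ℤ) * (-((p.totalDegree : ℤ) * k)) = -((p.totalDegree : ℤ) * κ) := by
      rw [hκ]; ring
    rwa [e1] at h1
  have hbc : ∀ p ∈ ({b, c} : Finset (MvPolynomial (Fin m) K)),
      (adv L w).G (-(δb * κ)) (algebraMap K L (MvPolynomial.eval t p)) := by
    intro p hp
    have h1 := hGe p (by unfold cfh; exact Finset.mem_union_right _ hp)
    refine h1.mono ?_
    have h2 : p.totalDegree ≤ δb := by
      simp only [Finset.mem_insert, Finset.mem_singleton] at hp
      rcases hp with rfl | rfl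
      · exact le_max_left _ _
      · exact le_max_right _ _
    have h3 : (p.totalDegree : ℤ) ≤ δb := by exact_mod_cast h2
    nlinarith
  have hhyp : HypH (adv L w) d (memL L P t) (algebraMap K L (MvPolynomial.eval t b))
      (algebraMap K L (MvPolynomial.eval t c)) (δ₀ * κ) (δd * κ) (δb * κ) := by
    refine ⟨hd, ?_, ?_, ?_, hbc b (by simp), hbc c (by simp), ?_⟩
    · rw [memL_coeff]; exact hEe _ (by simp)
    · rw [memL_coeff]; exact hEe _ (by simp)
    · intro i hi
      rw [memL_coeff] at hi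
      have hi' : P.coeff i ≠ 0 := by
        intro h0
        apply hi
        rw [h0, map_zero, map_zero]
      obtain ⟨h1, h2⟩ := hP i hi'
      refine ⟨h1, -((P.coeff i).totalDegree * κ), ?_, ?_⟩
      · rw [memL_coeff]
        refine hGe _ ?_
        unfold cfh
        exact Finset.mem_union_left _ (Finset.mem_image_of_mem _ (Polynomial.mem_support_iff.2 hi'))
      · have h3 : ((d * (P.coeff i).totalDegree : ℕ) : ℤ) ≤
            (((d - i) * δ₀ + i * δd : ℕ) : ℤ) := by exact_mod_cast h2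
        push_cast [Nat.cast_sub h1] at h3
        have h4 : (0 : ℤ) ≤ κ * ((d - i) * δ₀ + i * δd - d * (P.coeff i).totalDegree) :=
          mul_nonneg hκ0.le (by linarith)
        linarith
    · have h3 : ((δ₀ + d * δb : ℕ) : ℤ) < ((d * δ₀ + δd : ℕ) : ℤ) := by
        exact_mod_cast hesc
      push_cast at h3
      have h4 : (0 : ℤ) < κ * (d * δ₀ + δd - (δ₀ + d * δb)) := mul_pos hκ0 (by linarith)
      linarith
  have hcL : algebraMap K L (MvPolynomial.eval t c) ≠ 0 := by
    rw [Ne, map_eq_zero]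
    exact hc0
  have h1 := hhyp.dvd hcL hn he
  have h2 : (d : ℤ) ∣ ((((δ₀ : ℤ) - δd).natAbs : ℕ) : ℤ) * (f * k) := by
    have e1 : (δ₀ : ℤ) * κ - δd * κ = ((δ₀ : ℤ) - δd) * κ := by ring
    rw [e1] at h1
    rcases Int.natAbs_eq ((δ₀ : ℤ) - δd) with h3 | h3
    · rw [h3] at h1
      exact h1
    · rw [h3, neg_mul, dvd_neg] at h1
      exact h1
  exact hNk (lvl_dvd (by omega) hf1 (hfB.trans hL) h2)

/-- **the exceptional members are few** -/
theorem hen_few (ω : Module.Basis ι ℤ (𝓞 K)) {P : (MvPolynomial (Fin m) K)[X]}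
    {b c : MvPolynomial (Fin m) K} (hd : 2 ≤ d) (h0 : P.coeff 0 ≠ 0) (hPd : P.coeff d ≠ 0)
    (hb0 : b ≠ 0) (hc0 : c ≠ 0)
    (hP : ∀ i, P.coeff i ≠ 0 → i ≤ d ∧ d * (P.coeff i).totalDegree ≤
      (d - i) * (P.coeff 0).totalDegree + i * (P.coeff d).totalDegree)
    (hesc : (P.coeff 0).totalDegree + d * max b.totalDegree c.totalDegree <
      d * (P.coeff 0).totalDegree + (P.coeff d).totalDegree) (B : ℕ) (ε : ℝ) (hε : 0 < ε) :
    ∃ C : ℝ, 0 ≤ C ∧ ∀ H : ℕ, 1 ≤ H → ∀ S : Set (Fin m → K),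
      (∀ t ∈ S, HtLe ω H t ∧ ¬ (MvPolynomial.eval t (P.coeff d) ≠ 0 ∧
        MvPolynomial.eval t b ≠ 0 ∧ MvPolynomial.eval t c ≠ 0 ∧
        ∀ (L : Type) [Field L] [NumberField L] [Algebra K L], Module.finrank K L ≤ B →
          ∀ (p : L × L) (n : ℕ), 1 ≤ n →
          (hen (memL L P t) (algebraMap K L (MvPolynomial.eval t b))
            (algebraMap K L (MvPolynomial.eval t c)))^[n] p ≠ p)) →
      S.Finite ∧ (S.ncard : ℝ) ≤ C * (H : ℝ) ^ (((m : ℝ) + 1) * Module.finrank ℚ K - 1 +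
        (Module.finrank ℚ K : ℝ) /
          (lvl d (((P.coeff 0).totalDegree : ℤ) - (P.coeff d).totalDegree).natAbs B : ℕ) + ε) := by
  classical
  obtain ⟨C, hC0, hC⟩ := count_field ω (cfh P b c) {P.coeff 0, P.coeff d, b, c}
    (fun p hp => by
      simp only [Finset.mem_insert, Finset.mem_singleton] at hp
      rcases hp with rfl | rfl | rfl | rfl
      · exact h0
      · exact hPd
      · exact hb0
      · exact hc0) 1 one_ne_zero
    (lvl d (((P.coeff 0).totalDegree : ℤ) - (P.coeff d).totalDegree).natAbs B)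
    (lvl_pos (by omega) _ _) ε hε
  refine ⟨C, hC0, fun H hH S hS => hC H hH S fun t ht => ?_⟩
  obtain ⟨h1, h2⟩ := hS t ht
  exact ⟨h1, fun hPl => h2 (hen_no_per hd hP hesc B hPl)⟩

end Pool.Agent.X295.Pf
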