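import Pool.Agent.X295.PinkP

/-!
Families with several parameters of multisections of powers of elliptic schemes which degenerate along
a hypersurface: the main theorem for points (helper file).
-/

set_option autoImplicit false

namespace Pool.Agent.X295.Pink

open WeierstrassCurve WeierstrassCurve.Affine Pool.Agent.W466.EP
open H294ZP MvPolynomial Pool.Agent.W282.ZP Pool.Agent.Y152.BD Pool.Agent.Y152.RP
open Pool.Agent.X295.Leg (DegeneratesAlongH InGeneralPositionH)
open Pool.Agent.TH971.RF (EndRing)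

/-- The orders of the poles of the coordinates along the divisor: `s i < 2 e i`, and the differences of
the numbers `e i / s i` are not integral after multiplication with a number not divisible by `β`. -/
structure IndepP {n : ℕ} (β : ℕ) (s e : Fin n → ℕ) : Prop where
  large : ∀ i, s i < 2 * e i
  dist : ∀ i j : Fin n, i ≠ j → ∀ μ : ℕ, ¬ β ∣ μ →
    ¬ ((s i : ℤ) * s j ∣ μ * (e i * s j - e j * s i))

/-- The value of a root of an equation with small leading coefficients. -/
theorem root_v {Γ₀ : Type*} [LinearOrderedCommGroupWithZero Γ₀] (v : Valuation ℂ Γ₀) {s : ℕ}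
    {X a b c : ℂ} (d : Fin s → ℂ) (hd : ∀ h, v (d h) ≤ 1) (ha : v a = 1)
    (hb : v b = 1) (hc : v c < 1) (h : c * (b * X ^ s + ∑ h : Fin s, d h * X ^ (h : ℕ)) = a) :
    v X ^ s * v c = 1 := by
  have h1 := congrArg v h
  rw [ha, map_mul] at h1
  by_cases hX : v X ≤ 1
  · exfalso
    have h2 : v (b * X ^ s + ∑ h : Fin s, d h * X ^ (h : ℕ)) ≤ 1 := by
      refine (Valuation.map_add _ _ _).trans (max_le ?_ ?_)
      · rw [map_mul, map_pow, hb, one_mul]
        exact pow_le_one₀ zero_le hX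
      · refine Valuation.map_sum_le _ fun h _ => ?_
        rw [map_mul, map_pow]
        exact mul_le_one' (hd h) (pow_le_one₀ zero_le hX)
    exact ((mul_le_of_le_one_right' h2).trans_lt hc).ne h1
  · push Not at hX
    have hX0 : v X ≠ 0 := (zero_lt_one.trans hX).ne'
    have h2 : v (∑ h : Fin s, d h * X ^ (h : ℕ)) < v (b * X ^ s) := by
      rw [map_mul, map_pow, hb, one_mul]
      refine Valuation.map_sum_lt _ (pow_ne_zero _ hX0) fun h _ => ?_
      rw [map_mul, map_pow]
      exact (mul_le_of_le_one_left' (hd h)).trans_lt (pow_lt_pow_right₀ hX h.2)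
    rw [Valuation.map_add_eq_of_lt_left _ h2, map_mul, map_pow, hb, one_mul, mul_comm] at h1
    exact h1

theorem familyP (K : Subfield ℂ) (κ : Type) [Finite κ] (q N n m : ℕ)
    (G : κ → MvPolynomial (Fin (N + 1)) (MvPolynomial (Fin q) K))
    (hG : ∀ k, ∃ e, (G k).IsHomogeneous e) (r : ℕ)
    (A₄ A₆ : MvPolynomial (Fin (N + 1)) (MvPolynomial (Fin q) K))
    (hA₄ : A₄.IsHomogeneous (4 * r)) (hA₆ : A₆.IsHomogeneous (6 * r))
    (A B : Fin n → MvPolynomial (Fin (N + 1)) (MvPolynomial (Fin q) K))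
    (s : Fin n → ℕ) (hs : ∀ i, 0 < s i) (w : Fin n → ℕ)
    (hB : ∀ i, (B i).IsHomogeneous (w i)) (hA : ∀ i, (A i).IsHomogeneous (w i + 2 * r * s i))
    (D : ∀ i, Fin (s i) → MvPolynomial (Fin (N + 1)) (MvPolynomial (Fin q) K))
    (hD : ∀ i h, (D i h).IsHomogeneous (w i + 2 * r * (s i - h)))
    (c : Fin n → MvPolynomial (Fin q) K)
    (h : MvPolynomial (Fin q) ℤ) (e : Fin n → ℕ)
    (hdeg : DegeneratesAlongH m G A B c (MvPolynomial.map (Int.castRingHom K) h) e)
    (β : ℕ) (hβ : 0 < β) (hind : IndepP β s e)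
    (Δ : ℕ) (hΔ : h.totalDegree ≤ Δ) (ε : ℝ) (hε : 0 < ε) :
    ∃ bad : Set (Fin q → ℤ), (∃ C : ℝ, ∀ H : ℕ, 1 ≤ H →
      ((bad ∩ {u | ∀ j, |u j| ≤ H}).ncard : ℝ) ≤ C * (H : ℝ) ^ ((q : ℝ) - 1 + Δ / β + ε)) ∧
      ∀ u ∉ bad, (∀ i, evalAt K (fun j => (u j : ℂ)) (c i) ≠ 0) ∧
        ∀ (y : Fin (N + 1) → ℂ), OnB (fun j => (u j : ℂ)) G y →
        ∀ P : Fin n → (crv (eval₂ (evalAt K (fun j => (u j : ℂ))) y A₄)
          (eval₂ (evalAt K (fun j => (u j : ℂ))) y A₆)).Point,
        (∀ i, (P i = 0 ∧ eval₂ (evalAt K (fun j => (u j : ℂ))) y (B i) = 0) ∨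
          (P i ≠ 0 ∧ evalAt K (fun j => (u j : ℂ)) (c i) *
            (eval₂ (evalAt K (fun j => (u j : ℂ))) y (B i) * xx (P i) ^ s i +
              ∑ h : Fin (s i), eval₂ (evalAt K (fun j => (u j : ℂ))) y (D i h) *
                xx (P i) ^ (h : ℕ)) = eval₂ (evalAt K (fun j => (u j : ℂ))) y (A i))) →
        ∀ (E : EndRing (eval₂ (evalAt K (fun j => (u j : ℂ))) y A₄)
          (eval₂ (evalAt K (fun j => (u j : ℂ))) y A₆)) (Λ : Submodule E.O (Fin n → E.O)),
        (∀ a ∈ Λ, ∃ t : ℕ, 0 < t ∧ t • ∑ l, E.act (a l) (P l) = 0) →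
        ∀ (j₀ : Fin (N + 1)) (S : Finset (Fin (N + 1))), y j₀ ≠ 0 →
          AlgebraicIndependent K (fun j : S => y j / y j₀) →
          S.card + Module.finrank E.O Λ ≤ m := by
  classical
  let k := algebraicClosure K ℂ
  have hcl : IsAlgClosure K k := inferInstance
  have hac : IsAlgClosed k := hcl.isAlgClosed
  have halgk : Algebra.IsAlgebraic K k := hcl.isAlgebraic
  have : FaithfulSMul ℤ k := (faithfulSMul_iff_algebraMap_injective ℤ k).2 Int.cast_injective
  obtain ⟨𝓈, h𝓈⟩ := exists_isTranscendenceBasis ℤ k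
  let φ : MvPolynomial (Fin q) K →+* MvPolynomial (Fin q) k := MvPolynomial.map (algebraMap K k)
  have hev : ∀ (t : Fin q → k), (algebraMap k ℂ).comp ((MvPolynomial.eval t).comp φ) =
      evalAt K (fun j => algebraMap k ℂ (t j)) := by
    intro t
    refine MvPolynomial.ringHom_ext (fun a => ?_) (fun j => ?_)
    · simp only [φ, evalAt, RingHom.comp_apply, MvPolynomial.map_C, MvPolynomial.eval_C,
        AlgHom.toRingHom_eq_coe, RingHom.coe_coe, MvPolynomial.aeval_C]
      rfl
    · simp only [φ, evalAt, RingHom.comp_apply, MvPolynomial.map_X, MvPolynomial.eval_X,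
        AlgHom.toRingHom_eq_coe, RingHom.coe_coe, MvPolynomial.aeval_X]
  have hevP : ∀ (t : Fin q → k) (P : MvPolynomial (Fin q) K),
      algebraMap k ℂ (MvPolynomial.eval t (φ P)) = evalAt K (fun j => algebraMap k ℂ (t j)) P :=
    fun t P => congrArg (fun f : MvPolynomial (Fin q) K →+* ℂ => f P) (hev t)
  have hspec : ∀ (t : Fin q → k) (P : MvPolynomial (Fin (N + 1)) (MvPolynomial (Fin q) K))
      (y : Fin (N + 1) → ℂ), aeval y (specM t (MvPolynomial.map φ P)) =
        eval₂ (evalAt K (fun j => algebraMap k ℂ (t j))) y P := by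
    intro t P y
    rw [specM, MvPolynomial.map_map, aeval_def, eval₂_map, hev]
  have hmapφ : ∀ P : MvPolynomial (Fin q) K, MvPolynomial.map (algebraMap k ℂ) (φ P) =
      MvPolynomial.map (algebraMap K ℂ) P := by
    intro P
    simp only [φ]
    rw [MvPolynomial.map_map]
    rfl
  let hK : MvPolynomial (Fin q) K := MvPolynomial.map (Int.castRingHom K) h
  have hφK : φ hK = MvPolynomial.map (Int.castRingHom k) h := by
    change MvPolynomial.map (algebraMap K k) (MvPolynomial.map (Int.castRingHom K) h) = _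
    rw [MvPolynomial.map_map, RingHom.ext_int ((algebraMap K k).comp (Int.castRingHom K))
      (Int.castRingHom k)]
  have hirr : Irreducible (φ hK) :=
    irr_of_map (algebraMap k ℂ) (by rw [hmapφ]; exact hdeg.1)
  have hprime : Prime (φ hK) := UniqueFactorizationMonoid.irreducible_iff_prime.1 hirr
  have hh0 : h ≠ 0 := by
    intro h0
    apply hprime.ne_zero
    rw [hφK, h0, map_zero]
  have hNd : φ hK ∣ MvPolynomial.map (Int.castRingHom k) h := by
    rw [hφK]
  choose g hcg hgu using hdeg.2.1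
  have hgk : ∀ i, ¬ φ hK ∣ φ (g i) := by
    intro i hdvd
    obtain ⟨w, hw⟩ := hdvd
    obtain ⟨u, hu1, hu2⟩ := hgu i
    apply hu2
    have h1 := congrArg (aeval (R := k) u) hw
    rw [map_mul] at h1
    have h2 : aeval (R := k) u (φ hK) = evalAt K u hK :=
      MvPolynomial.aeval_map_algebraMap (R := K) k u hK
    have h4 : aeval (R := k) u (φ (g i)) = evalAt K u (g i) :=
      MvPolynomial.aeval_map_algebraMap (R := K) k u (g i)
    rw [h2, hu1, zero_mul, h4] at h1
    exact h1
  obtain ⟨b₀, hbalg, hb0, hbpos⟩ := hdeg.2.2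
  have hbk : ∀ j, ∃ t : k, algebraMap k ℂ t = b₀ j := by
    intro j
    exact ⟨⟨_, mem_algebraicClosure_iff.2 (hbalg j)⟩, rfl⟩
  choose b hb using hbk
  have hb' : (fun j => algebraMap k ℂ (b j)) = b₀ := funext hb
  obtain ⟨j0, hj0⟩ := exists_varN hirr hh0 hNd
  -- the finite set of constants
  let Cf : MvPolynomial (Fin (N + 1)) (MvPolynomial (Fin q) K) → Set k := fun Q =>
    ⋃ d ∈ Q.support, (fun f => algebraMap K k ((Q.coeff d).coeff f)) '' ((Q.coeff d).support : Set _)
  have hCf : ∀ Q, (Cf Q).Finite := fun Q =>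
    Set.Finite.biUnion (Finset.finite_toSet _) fun d _ => (Finset.finite_toSet _).image _
  -- the forms and the coordinate hyperplanes
  let A' : Fin n ⊕ Fin (N + 1) → MvPolynomial (Fin (N + 1)) (MvPolynomial (Fin q) k) :=
    Sum.elim (fun i => MvPolynomial.map φ (A i)) (fun j => X j)
  let B' : Fin n ⊕ Fin (N + 1) → MvPolynomial (Fin (N + 1)) (MvPolynomial (Fin q) k) :=
    Sum.elim (fun i => MvPolynomial.map φ (B i)) (fun _ => 1)
  let dA : Fin n ⊕ Fin (N + 1) → ℕ := Sum.elim (fun i => w i + 2 * r * s i) (fun _ => 1)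
  let dB : Fin n ⊕ Fin (N + 1) → ℕ := Sum.elim w (fun _ => 0)
  have hA' : ∀ i, (A' i).IsHomogeneous (dA i) := by
    rintro (i | j)
    · exact (hA i).map _
    · exact isHomogeneous_X _ j
  have hB' : ∀ i, (B' i).IsHomogeneous (dB i) := by
    rintro (i | j)
    · exact (hB i).map _
    · exact isHomogeneous_one _ _
  have hX : ∀ (τ : Fin q → k) (y : Fin (N + 1) → ℂ) (j : Fin (N + 1)),
      aeval y (specM τ (X j : MvPolynomial (Fin (N + 1)) (MvPolynomial (Fin q) k))) = y j := by
    intro τ y j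
    rw [specM, MvPolynomial.map_X, aeval_X]
  have h1X : ∀ (τ : Fin q → k) (y : Fin (N + 1) → ℂ),
      aeval y (specM τ (1 : MvPolynomial (Fin (N + 1)) (MvPolynomial (Fin q) k))) = (1 : ℂ) := by
    intro τ y
    rw [map_one, map_one]
  obtain ⟨ρ, hρ, W, hW, hΓW, hnear⟩ := nearX (k := k) 𝓈 h𝓈 (m := m) (M := 1)
    (fun i => MvPolynomial.map φ (G i))
    (fun i => by
      obtain ⟨e, he⟩ := hG i
      exact ⟨e, he.map _⟩)
    A' B' dA dB hA' hB'
    (fun _ => φ hK) (fun _ => hprime) (fun _ => h) (fun _ => hh0) (fun _ => hNd)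
    (fun i => φ (c i)) (fun _ => e)
    (fun _ i => φ (g i)) (fun _ i => by rw [hcg i, map_mul, map_pow]) (fun _ => hgk) (fun _ => b)
    (fun _ => by
      apply (algebraMap k ℂ).injective
      rw [hevP, hb', hb0, map_zero])
    (fun _ I hI y h1 h2 => by
      by_contra h0
      obtain ⟨i, hi, h3⟩ := hbpos I hI y ⟨h0, fun i => by
        have h4 := h1 i
        rw [hspec, hb'] at h4
        exact h4⟩
      apply h3
      have h4 := h2 i hi
      rcases i with i | j
      · change aeval y (specM b (MvPolynomial.map φ (A i))) *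
          aeval y (specM b (MvPolynomial.map φ (B i))) = 0 at h4
        rw [hspec, hspec, hb'] at h4
        exact h4
      · change aeval y (specM b (X j : MvPolynomial (Fin (N + 1)) (MvPolynomial (Fin q) k))) *
          aeval y (specM b (1 : MvPolynomial (Fin (N + 1)) (MvPolynomial (Fin q) k))) = 0 at h4
        rw [hX, h1X, mul_one] at h4
        exact h4)
    ((Cf A₄ ∪ Cf A₆) ∪ ⋃ i, ⋃ h, Cf (D i h)) (((hCf _).union (hCf _)).union
      (Set.finite_iUnion fun i => Set.finite_iUnion fun h => hCf _)) (fun _ => j0)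
  have hcastf : ∀ u : Fin q → ℤ, (fun j => algebraMap k ℂ ((u j : ℤ) : k)) =
      (fun j => (u j : ℂ)) := fun u => funext fun j => map_intCast _ _
  have := hW.to_subtype
  obtain ⟨D₂, hD₂⟩ := mem_of_gauss 𝓈 h𝓈 (fun z : W => (z : k))
  refine ⟨{u | ∃ l : Fin 1, ¬ GoodB β h (rename Subtype.val (ρ l)) (D₂ + 3) u},
    count_unionB β hβ (fun _ => h) (fun _ => j0) (fun _ => hj0) ρ hρ (D₂ + 3) hε Δ (fun _ => hΔ) _
      (fun u hu => hu), ?_⟩
  intro u hu
  have hcon : GoodB β h (rename Subtype.val (ρ 0)) (D₂ + 3) u := by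
    by_contra hl
    exact hu ⟨0, hl⟩
  -- values of the forms
  set τ : Fin q → k := fun j => ((u j : ℤ) : k) with hτ
  have hval : ∀ (Q : MvPolynomial (Fin (N + 1)) (MvPolynomial (Fin q) K)) (y : Fin (N + 1) → ℂ),
      aeval y (specM τ (MvPolynomial.map φ Q)) = eval₂ (evalAt K (fun j => (u j : ℂ))) y Q := by
    intro Q y
    rw [hspec, hτ, hcastf]
  have hcval : ∀ i, algebraMap k ℂ (eval τ (φ (c i))) = evalAt K (fun j => (u j : ℂ)) (c i) := by
    intro i
    rw [hevP, hτ, hcastf]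
  obtain ⟨h0, p, hpp, hpD, hpρ, hβp⟩ := hcon
  set μ := (eval u h).natAbs.factorization p with hμ
  have hμ0 : 0 < μ := Nat.pos_of_ne_zero fun h1 => hβp (by rw [h1]; exact dvd_zero β)
  have hpC : (p : ℂ) ≠ 0 := Nat.cast_ne_zero.2 hpp.ne_zero
  have hpk : (p : k) ≠ 0 := Nat.cast_ne_zero.2 hpp.ne_zero
  have hvh : ∀ V : ValuationSubring ℂ, V.valuation (p : ℂ) < 1 →
      V.valuation (algebraMap k ℂ (eval (fun j => ((u j : ℤ) : k)) (φ hK))) =
      V.valuation (p : ℂ) ^ μ := by
    intro V hV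
    have h1 : algebraMap k ℂ (eval (fun j => ((u j : ℤ) : k)) (φ hK)) =
        ((eval u h : ℤ) : ℂ) := by
      rw [hφK, eval_cast, map_intCast]
    rw [h1]
    exact v_int_pow hpp hV h0
  have hc0 : ∀ i, evalAt K (fun j => (u j : ℂ)) (c i) ≠ 0 := by
    obtain ⟨V, hVG, -⟩ := gaussA 𝓈 h𝓈 (fun i : Empty => (i.elim : ℂ))
      (algebraicIndependent_empty_type_iff.2 (algebraMap k ℂ).injective) hpp
    have hVW : ∀ z ∈ W, algebraMap k ℂ z ∈ V := fun z hz => hD₂ p hpp (by omega) V hVG ⟨z, hz⟩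
    have h1 := (hnear V hVW 0 u p hVG hpρ (by
      rw [hvh V hVG.lt]
      exact pow_lt_one₀ zero_le hVG.lt hμ0.ne')).1
    intro i hi
    have h2 := h1 i
    rw [hvh V hVG.lt] at h2
    change V.valuation (algebraMap k ℂ (eval τ (φ (c i)))) = _ at h2
    rw [hcval, hi, map_zero] at h2
    exact (pow_ne_zero _ (pow_ne_zero _ ((map_ne_zero _).2 hpC))) h2.symm
  refine ⟨hc0, fun y hy P hP E Λ hΛ j₀ S hj₀ hS => ?_⟩
  have hSk : AlgebraicIndependent k (fun j : S => y j / y j₀) := hS.extendScalars k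
  have hindS := algInd_smul hSk (fun _ => ((p : k))⁻¹) (fun _ => inv_ne_zero hpk)
  obtain ⟨V, hVG, hVx, harch⟩ := gaussA 𝓈 h𝓈 _ hindS hpp
  have hVW : ∀ z ∈ W, algebraMap k ℂ z ∈ V := fun z hz => hD₂ p hpp (by omega) V hVG ⟨z, hz⟩
  have hpn : (p : ℂ) ∈ V.nonunits := (ValuationSubring.mem_nonunits_iff _).2 hVG.lt
  have hvh1 : V.valuation (p : ℂ) ^ μ < 1 := pow_lt_one₀ zero_le hVG.lt hμ0.ne'
  obtain ⟨hcv, hyv⟩ := hnear V hVW 0 u p hVG hpρ (by rw [hvh V hVG.lt]; exact hvh1)
  obtain ⟨t₁, ht₁, htV, hAB, F, hF, hFg⟩ := hyv y hy.1 (fun i => by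
    change aeval y (specM τ (MvPolynomial.map φ (G i))) = 0
    rw [hval]
    exact hy.2 i)
  have hcv' : ∀ i, V.valuation (evalAt K (fun j => (u j : ℂ)) (c i)) =
      V.valuation (p : ℂ) ^ (μ * e i) := by
    intro i
    have h1 := hcv i
    rw [hvh V hVG.lt] at h1
    change V.valuation (algebraMap k ℂ (eval τ (φ (c i)))) = _ at h1
    rw [hcval, ← pow_mul] at h1
    exact h1
  have hSsub : S ⊆ F.toRight := by
    intro j hj
    rw [Finset.mem_toRight]
    by_contra hjE
    have h1 := (hFg _ hjE).1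
    change V.valuation (aeval (t₁ • y) (specM τ (X j : MvPolynomial (Fin (N + 1))
      (MvPolynomial (Fin q) k)))) = 1 at h1
    rw [hX] at h1
    have h2 : (t₁ • y) j = (p : ℂ) * (algebraMap k ℂ (p : k)⁻¹ * (y j / y j₀)) * (t₁ * y j₀) := by
      rw [map_inv₀, map_natCast, Pi.smul_apply, smul_eq_mul]
      field_simp [hj₀, hpC]
    rw [h2, map_mul, map_mul] at h1
    have h3 : V.valuation (algebraMap k ℂ (p : k)⁻¹ * (y j / y j₀)) = 1 := hVx ⟨j, hj⟩
    rw [h3, mul_one] at h1
    have h4 := (ValuationSubring.valuation_le_one_iff V _).2 (htV j₀)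
    exact ((mul_le_of_le_one_right' h4).trans_lt hVG.lt).ne h1
  have hcard : F.toLeft.card + F.toRight.card = F.card := F.card_toLeft_add_card_toRight
  have hAval : ∀ (Q : MvPolynomial (Fin (N + 1)) (MvPolynomial (Fin q) K)) (d : ℕ),
      Q.IsHomogeneous d → aeval (t₁ • y) (specM τ (MvPolynomial.map φ Q)) =
      t₁ ^ d * eval₂ (evalAt K (fun j => (u j : ℂ))) y Q := by
    intro Q d hQ
    rw [specM_smul (hQ.map φ), hval]
  -- the coefficients of the equation of the curve
  have hint : ∀ Q : MvPolynomial (Fin (N + 1)) (MvPolynomial (Fin q) K), Cf Q ⊆ W →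
      V.valuation (aeval (t₁ • y) (specM τ (MvPolynomial.map φ Q))) ≤ 1 := by
    intro Q hQ
    rw [hval, ValuationSubring.valuation_le_one_iff, MvPolynomial.eval₂_eq]
    refine sum_mem fun d hd => mul_mem ?_ (prod_mem fun j _ => pow_mem (htV j) _)
    change MvPolynomial.aeval (fun j => (u j : ℂ)) (Q.coeff d) ∈ V
    rw [MvPolynomial.aeval_def, MvPolynomial.eval₂_eq]
    refine sum_mem fun f hf => mul_mem ?_ (prod_mem fun j _ => pow_mem (intCast_mem V _) _)
    have h1 : algebraMap K k ((Q.coeff d).coeff f) ∈ W := by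
      apply hQ
      simp only [Cf, Set.mem_iUnion]
      exact ⟨d, hd, f, hf, rfl⟩
    exact hVW _ h1
  have hle := Finset.card_le_card hSsub
  have hbd : Module.finrank E.O Λ ≤ F.toLeft.card := by
    refine boundP V p hpp hpn harch s hs μ hμ0 e hind.large
      (fun i j hij => hind.dist i j hij μ hβp) (pow_ne_zero r ht₁) ?_ ?_ P F.toLeft
      (fun i hi => ?_) E Λ hΛ
    · have h1 := hint A₄ fun z hz => hΓW (Or.inl (Or.inl hz))
      rw [hAval _ _ hA₄] at h1
      rwa [← pow_mul, mul_comm r 4]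
    · have h1 := hint A₆ fun z hz => hΓW (Or.inl (Or.inr hz))
      rw [hAval _ _ hA₆] at h1
      rwa [← pow_mul, mul_comm r 6]
    · have h1 := hFg (Sum.inl i) fun h => hi (Finset.mem_toLeft.2 h)
      change V.valuation (aeval (t₁ • y) (specM τ (MvPolynomial.map φ (A i)))) = 1 ∧
        V.valuation (aeval (t₁ • y) (specM τ (MvPolynomial.map φ (B i)))) = 1 at h1
      obtain ⟨h1, h2⟩ := h1
      rw [hAval _ _ (hA i)] at h1
      rw [hAval _ _ (hB i)] at h2
      rcases hP i with ⟨-, h3⟩ | ⟨-, h3⟩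
      · exfalso
        rw [h3, mul_zero, map_zero] at h2
        exact zero_ne_one h2
      · have h6 : evalAt K (fun j => (u j : ℂ)) (c i) *
            ((t₁ ^ w i * eval₂ (evalAt K (fun j => (u j : ℂ))) y (B i)) *
              ((t₁ ^ r) ^ 2 * xx (P i)) ^ s i + ∑ h : Fin (s i),
              (t₁ ^ (w i + 2 * r * (s i - h)) *
                eval₂ (evalAt K (fun j => (u j : ℂ))) y (D i h)) *
                ((t₁ ^ r) ^ 2 * xx (P i)) ^ (h : ℕ)) =
            t₁ ^ (w i + 2 * r * s i) * eval₂ (evalAt K (fun j => (u j : ℂ))) y (A i) := by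
          rw [← h3, mul_left_comm]
          congr 1
          rw [mul_add, Finset.mul_sum]
          congr 1
          · ring
          · refine Finset.sum_congr rfl fun h _ => ?_
            have h8 : w i + 2 * r * s i = (w i + 2 * r * (s i - h)) + 2 * r * (h : ℕ) := by
              have h9 : s i = (s i - h) + (h : ℕ) := (Nat.sub_add_cancel h.2.le).symm
              conv_lhs => rw [h9]
              ring
            rw [h8]
            ring
        have h7 := root_v V.valuation
          (fun h => t₁ ^ (w i + 2 * r * (s i - h)) *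
            eval₂ (evalAt K (fun j => (u j : ℂ))) y (D i h)) (fun h => by
            have h8 := hint (D i h) fun z hz => hΓW (Or.inr (Set.mem_iUnion.2 ⟨i,
              Set.mem_iUnion.2 ⟨h, hz⟩⟩))
            rwa [hAval _ _ (hD i h)] at h8) h1 h2 (by
            rw [hcv']
            have h9 := hind.large i
            exact pow_lt_one₀ zero_le hVG.lt (Nat.mul_pos hμ0 (by omega)).ne') h6
        rw [hcv'] at h7
        exact h7
  omega

end Pool.Agent.X295.Pink
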