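import Pool.Agent.TH971.RF.C3
import Pool.Agent.X295.LegF

/-!
Relations with endomorphisms as coefficients between points of an elliptic curve over `ℂ` at one place
(helper file for families of multisections of powers of elliptic schemes).
-/

set_option autoImplicit false

namespace Pool.Agent.X295.Pink

open WeierstrassCurve WeierstrassCurve.Affine Pool.Agent.W466.EP MvPolynomial
open Pool.Agent.TH971.RF (EndRing scl rel_placeE exists_relO xx_scl)

/-- Archimedean places of Gauss type. -/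
theorem exists_gaussAt_arch {s : Type} (b : s → ℂ) (hb : AlgebraicIndependent ℚ b) {p : ℕ}
    (hp : p.Prime) : ∃ V : ValuationSubring ℂ, GaussAt V p b ∧
      ∀ z : ℂ, ∃ M : ℕ, V.valuation z * V.valuation (p : ℂ) ^ M ≤ 1 := by
  classical
  have hyZ : AlgebraicIndependent ℤ b := hb.restrictScalars (Int.cast_injective (α := ℚ))
  have hr : AlgebraicIndepOn ℤ id (Set.range b) := hyZ.coe_range
  obtain ⟨S, hys, hs⟩ := exists_isTranscendenceBasis_superset hr
  have : Algebra.IsAlgebraic ℤ ℚ := IsLocalization.isAlgebraic ℚ (nonZeroDivisors ℤ)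
  have hsQ : AlgebraicIndependent ℚ ((↑) : S → ℂ) := hs.1.extendScalars ℚ
  have halg : Algebra.IsAlgebraic (Algebra.adjoin ℤ (Set.range ((↑) : S → ℂ))) ℂ := hs.isAlgebraic
  obtain ⟨V, hV⟩ := exists_gaussAt ((↑) : S → ℂ) hsQ hp
  set v := V.valuation with hv
  refine ⟨V, ⟨hV.lt, fun f hf => ?_⟩, ?_⟩
  · let ρ : s → S := fun j => ⟨b j, hys ⟨j, rfl⟩⟩
    have hρ : Function.Injective ρ := fun i j h => hb.injective (congrArg Subtype.val h)
    have h1 := hV.gauss (rename ρ f) (by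
      intro hd
      apply hf
      rw [C_dvd_iff_dvd_coeff] at hd ⊢
      intro m
      have h2 := hd (m.mapDomain ρ)
      rwa [coeff_rename_mapDomain _ hρ] at h2)
    rw [aeval_rename] at h1
    exact h1
  · have hval : ∀ (N : ℕ) (f : MvPolynomial S ℤ) (m : S →₀ ℕ), (f.coeff m).natAbs ≤ N →
        f.coeff m ≠ 0 → ∃ k : ℕ, v (aeval ((↑) : S → ℂ) f) = v (p : ℂ) ^ k := by
      intro N
      induction N with
      | zero =>
        intro f m h1 h2
        exact absurd (Int.natAbs_eq_zero.1 (Nat.le_zero.1 h1)) h2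
      | succ N ih =>
        intro f m h1 h2
        by_cases hd : C (p : ℤ) ∣ f
        · obtain ⟨f', rfl⟩ := hd
          have h3 : (C (p : ℤ) * f').coeff m = p * f'.coeff m := by rw [coeff_C_mul]
          rw [h3] at h1 h2
          have h4 : f'.coeff m ≠ 0 := right_ne_zero_of_mul h2
          have h5 : (f'.coeff m).natAbs ≤ N := by
            rw [Int.natAbs_mul, Int.natAbs_natCast] at h1
            have h6 := Int.natAbs_pos.2 h4
            have h7 : 2 * (f'.coeff m).natAbs ≤ p * (f'.coeff m).natAbs :=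
              Nat.mul_le_mul_right _ hp.two_le
            omega
          obtain ⟨k, hk⟩ := ih f' m h5 h4
          refine ⟨k + 1, ?_⟩
          rw [map_mul, aeval_C, map_mul, hk, pow_succ']
          simp
        · exact ⟨0, by rw [pow_zero]; exact hV.gauss f hd⟩
    intro z
    obtain ⟨a, ha, hint⟩ := (halg.1 z).exists_integral_multiple
    have h2 : (a : ℂ) ∈ (aeval ((↑) : S → ℂ) : MvPolynomial S ℤ →ₐ[ℤ] ℂ).range := by
      rw [← Algebra.adjoin_range_eq_range_aeval]
      exact a.2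
    obtain ⟨f, hf⟩ := h2
    have hf0 : f ≠ 0 := by
      rintro rfl
      apply ha
      apply Subtype.ext
      rw [← hf]
      simp
    obtain ⟨m, hm⟩ : ∃ m, f.coeff m ≠ 0 := by
      by_contra h
      push Not at h
      exact hf0 (MvPolynomial.ext _ _ fun m => by rw [h m, coeff_zero])
    obtain ⟨k, hk⟩ := hval _ f m le_rfl hm
    refine ⟨k, ?_⟩
    have h4 : (a : ℂ) * z ∈ V := by
      refine Pool.Agent.W466.ZC.mem_of_integral V ?_ hint
      intro z hz
      have hle : Algebra.adjoin ℤ (Set.range ((↑) : S → ℂ)) ≤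
          subalgebraOfSubring V.toSubring := by
        refine Algebra.adjoin_le ?_
        rintro _ ⟨x, rfl⟩
        exact (ValuationSubring.valuation_le_one_iff V _).1 (hV.unit hp x).le
      exact hle hz
    have h5 : (a : ℂ) = aeval ((↑) : S → ℂ) f := hf.symm
    rw [h5, ← ValuationSubring.valuation_le_one_iff, map_mul, ← hv, hk, mul_comm] at h4
    exact h4

/-- Archimedean places of Gauss type at which given algebraically independent numbers are units. -/
theorem gaussA {k : Type} [Field k] [Algebra k ℂ] [CharZero k] (𝓈 : Set k)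
    (h𝓈 : IsTranscendenceBasis ℤ ((↑) : 𝓈 → k)) {ι : Type} (x : ι → ℂ)
    (hx : AlgebraicIndependent k x) {p : ℕ} (hp : p.Prime) :
    ∃ V : ValuationSubring ℂ, GaussAt V p (fun a : 𝓈 => algebraMap k ℂ a) ∧
      (∀ i, V.valuation (x i) = 1) ∧
      ∀ z : ℂ, ∃ M : ℕ, V.valuation z * V.valuation (p : ℂ) ^ M ≤ 1 := by
  classical
  have : FaithfulSMul ℤ k := (faithfulSMul_iff_algebraMap_injective ℤ k).2 Int.cast_injective
  let b : 𝓈 ⊕ ι → ℂ := Sum.elim (fun a => algebraMap k ℂ a) x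
  have hsum : AlgebraicIndependent ℤ (Sum.elim x (algebraMap k ℂ ∘ ((↑) : 𝓈 → k))) :=
    h𝓈.1.sumElim_comp hx
  have hbZ : AlgebraicIndependent ℤ b := by
    have h5 := hsum.comp (Equiv.sumComm 𝓈 ι) (Equiv.injective _)
    have h6 : Sum.elim x (algebraMap k ℂ ∘ ((↑) : 𝓈 → k)) ∘ (Equiv.sumComm 𝓈 ι) = b := by
      funext a
      rcases a with a | a <;> rfl
    rwa [h6] at h5
  have : Algebra.IsAlgebraic ℤ ℚ := IsLocalization.isAlgebraic ℚ (nonZeroDivisors ℤ)
  have hbQ : AlgebraicIndependent ℚ b := hbZ.extendScalars ℚ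
  obtain ⟨V, hV, hV2⟩ := exists_gaussAt_arch b hbQ hp
  exact ⟨V, hV.inl, fun i => hV.unit hp (Sum.inr i), hV2⟩

/-- The rank of the relations between points at one place. -/
theorem boundP (V : ValuationSubring ℂ) (p : ℕ) (hpp : p.Prime)
    (hp : (p : ℂ) ∈ V.nonunits)
    (harch : ∀ z : ℂ, ∃ M : ℕ, V.valuation z * V.valuation (p : ℂ) ^ M ≤ 1)
    {n : ℕ} (s : Fin n → ℕ) (hs : ∀ i, 0 < s i) (μ : ℕ) (hμ : 0 < μ)
    (e : Fin n → ℕ) (he : ∀ i, s i < 2 * e i)
    (hdist : ∀ i j, i ≠ j → ¬ ((s i : ℤ) * s j ∣ μ * (e i * s j - e j * s i)))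
    {a b z : ℂ} (hz : z ≠ 0) (ha : V.valuation (z ^ 4 * a) ≤ 1)
    (hb : V.valuation (z ^ 6 * b) ≤ 1) (P : Fin n → (crv a b).Point) (F : Finset (Fin n))
    (hP : ∀ i, i ∉ F → V.valuation (z ^ 2 * xx (P i)) ^ s i *
      V.valuation (p : ℂ) ^ (μ * e i) = 1)
    (E : EndRing a b) (Λ : Submodule E.O (Fin n → E.O))
    (hΛ : ∀ c ∈ Λ, ∃ t : ℕ, 0 < t ∧ t • ∑ l, E.act (c l) (P l) = 0) :
    Module.finrank E.O Λ ≤ F.card := by
  classical
  by_contra hcon
  push Not at hcon
  obtain ⟨c, hc, hc0, hcF⟩ := exists_relO Λ F hcon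
  obtain ⟨t, ht, hrel⟩ := hΛ c hc
  set v := V.valuation with hv
  have hp1 : v (p : ℂ) < 1 := by rwa [ValuationSubring.mem_nonunits_iff] at hp
  have hp0 : 0 < v (p : ℂ) := zero_lt_iff.2 ((map_ne_zero v).2 (Nat.cast_ne_zero.2 hpp.ne_zero))
  let R : ℕ := ∏ i, s i
  have hR : 0 < R := Finset.prod_pos fun i _ => hs i
  have hsR : ∀ i, s i ∣ R := fun i => Finset.dvd_prod_of_mem _ (Finset.mem_univ i)
  have hsR' : ∀ i, s i * (R / s i) = R := fun i => Nat.mul_div_cancel' (hsR i)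
  obtain ⟨z₀, hz₀⟩ := IsAlgClosed.exists_pow_nat_eq (p : ℂ) hR
  have hρR : v (p : ℂ) = v z₀ ^ R := by rw [← hz₀, map_pow]
  have hρ0 : 0 < v z₀ := by
    rw [zero_lt_iff]
    intro h0
    rw [h0, zero_pow hR.ne'] at hρR
    exact hp0.ne' hρR
  refine rel_placeE (V := V) hpp hp harch hz ha hb E hρR hR hρ0 P Fᶜ
    (fun i => μ * e i * (R / s i)) (fun i hi => ?_) (fun i hi => ?_) (fun i hi j hj hij hmod => ?_)
    c hc0 (fun i hi => hcF i (by_contra fun h => hi (Finset.mem_compl.2 h))) ht hrel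
  · have h1 := hP i (Finset.mem_compl.1 hi)
    rw [xx_scl]
    have h2 : (v (z ^ 2 * xx (P i)) * v z₀ ^ (μ * e i * (R / s i))) ^ s i = 1 ^ s i := by
      rw [one_pow, mul_pow, ← pow_mul, mul_assoc (μ * e i), mul_comm (R / s i), hsR',
        mul_comm (μ * e i), pow_mul, ← hρR]
      exact h1
    exact (pow_left_inj₀ zero_le zero_le (hs i).ne').1 h2
  · have h1 := he i
    have h2 : 0 < R / s i := Nat.div_pos (Nat.le_of_dvd hR (hsR i)) (hs i)
    calc R = s i * (R / s i) := (hsR' i).symm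
      _ < 2 * e i * (R / s i) := Nat.mul_lt_mul_of_pos_right h1 h2
      _ ≤ μ * (2 * e i * (R / s i)) := Nat.le_mul_of_pos_left _ hμ
      _ = 2 * (μ * e i * (R / s i)) := by ring
  · apply hdist i j hij
    have h1 : (R : ℤ) ∣ ((μ * e j * (R / s j) : ℕ) : ℤ) - ((μ * e i * (R / s i) : ℕ) : ℤ) :=
      (Nat.modEq_iff_dvd.1 hmod)
    obtain ⟨w, hw⟩ := h1
    have h2 : ((s i : ℤ)) * ((R / s i : ℕ) : ℤ) = (R : ℤ) := by exact_mod_cast hsR' i
    have h3 : ((s j : ℤ)) * ((R / s j : ℕ) : ℤ) = (R : ℤ) := by exact_mod_cast hsR' j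
    have hR' : (R : ℤ) ≠ 0 := by exact_mod_cast hR.ne'
    refine ⟨-w, ?_⟩
    apply mul_left_cancel₀ hR'
    rw [Nat.cast_mul, Nat.cast_mul, Nat.cast_mul, Nat.cast_mul] at hw
    have h4 := congrArg (fun x : ℤ => x * ((s i : ℤ) * s j)) hw
    beta_reduce at h4
    linear_combination -h4 + (μ : ℤ) * e j * s i * h3 - (μ : ℤ) * e i * s j * h2

end Pool.Agent.X295.Pink
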