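import Pool.Agent.X295.Tor
import Pool.Agent.X295.Lin

/-!
Families of systems of Laurent polynomials with several parameters and complex coefficients, with
degenerate divisors over the algebraic numbers (helper file).
-/

set_option autoImplicit false

open H294ZP MvPolynomial Pool.Agent.W466.ZC Pool.Agent.TH526.ZL

namespace Pool.Agent.X295

/-- The values of polynomials which do not vanish along a divisor at the places near to it. -/
theorem nearC {k : Type} [Field k] [Algebra k ℂ] [CharZero k] (𝓈 : Set k)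
    (h𝓈 : IsTranscendenceBasis ℤ ((↑) : 𝓈 → k)) {q : ℕ} {ι : Type} [Finite ι]
    (h : MvPolynomial (Fin q) k) (hp : Prime h) (Nm : MvPolynomial (Fin q) ℤ) (hN0 : Nm ≠ 0)
    (hN : h ∣ MvPolynomial.map (Int.castRingHom k) Nm) (g : ι → MvPolynomial (Fin q) k)
    (hg : ∀ i, ¬ h ∣ g i) (j0 : Fin q) :
    ∃ ρ : MvPolynomial {j : Fin q // j ≠ j0} ℤ, ρ ≠ 0 ∧ ∃ W : Set k, W.Finite ∧
      ∀ V : ValuationSubring ℂ, (∀ z ∈ W, algebraMap k ℂ z ∈ V) → ∀ (τ : Fin q → ℤ) (p : ℕ),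
      GaussAt V p (fun a : 𝓈 => algebraMap k ℂ a) →
      ¬ (p : ℤ) ∣ eval τ (rename Subtype.val ρ) →
      V.valuation (algebraMap k ℂ (eval (fun j => ((τ j : ℤ) : k)) h)) < 1 →
      ∀ i, V.valuation (algebraMap k ℂ (eval (fun j => ((τ j : ℤ) : k)) (g i))) = 1 := by
  classical
  have := Fintype.ofFinite ι
  have hΔ : ¬ h ∣ ∏ i, g i := by
    intro hdvd
    obtain ⟨i, -, hi⟩ := (hp.dvd_finsetProd_iff _).1 hdvd
    exact hg i hi
  obtain ⟨ρ, hρ, α, β, hαβ⟩ := elimK 𝓈 h𝓈 Nm hN0 h hp hN (∏ i, g i) hΔ j0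
  refine ⟨ρ, hρ, coefsP α ∪ (coefsP β ∪ ⋃ i, coefsP (g i)), (coefsP_finite _).union
    ((coefsP_finite _).union (Set.finite_iUnion fun i => coefsP_finite _)), ?_⟩
  intro V hV τ p hVp hpρ hτ1
  set τ' : Fin q → k := fun j => ((τ j : ℤ) : k) with hτ'
  have hτV : ∀ i, algebraMap k ℂ (τ' i) ∈ V := by
    intro i
    rw [hτ', map_intCast]
    exact intCast_mem V _
  have hle : ∀ P : MvPolynomial (Fin q) k, (∀ z ∈ coefsP P, algebraMap k ℂ z ∈ V) →
      V.valuation (algebraMap k ℂ (eval τ' P)) ≤ 1 := fun P hP =>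
    (ValuationSubring.valuation_le_one_iff _ _).2 (evalM_mem V P (coefsP_mem V hP) hτV)
  have hαV := hle α fun z hz => hV z (Or.inl hz)
  have hβV := hle β fun z hz => hV z (Or.inr (Or.inl hz))
  have hgV := fun i => hle (g i) fun z hz => hV z (Or.inr (Or.inr (Set.mem_iUnion.2 ⟨i, hz⟩)))
  have hΔle : V.valuation (algebraMap k ℂ (eval τ' (∏ i, g i))) ≤ 1 := by
    rw [ValuationSubring.valuation_le_one_iff, map_prod, map_prod]
    exact prod_mem fun i _ => (ValuationSubring.valuation_le_one_iff _ _).1 (hgV i)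
  obtain ⟨f, hf1, hf2⟩ := hαβ τ
  have hf3 := hVp.gauss f (hf1 p hpρ)
  have hf4 : aeval (fun a : 𝓈 => algebraMap k ℂ a) f = algebraMap k ℂ (aeval ((↑) : 𝓈 → k) f) := by
    have h8 := MvPolynomial.map_aeval (R := ℤ) ((↑) : 𝓈 → k) (algebraMap k ℂ) f
    rw [h8, aeval_def, coe_eval₂Hom]
    congr 1
    exact RingHom.ext_int _ _
  rw [hf4, hf2, map_add, map_mul, map_mul, map_add, map_mul, map_mul] at hf3
  have hβΔ : V.valuation (algebraMap k ℂ (eval τ' β) * algebraMap k ℂ (eval τ' (∏ i, g i))) = 1 := by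
    refine le_antisymm ?_ ?_
    · rw [map_mul]
      exact mul_le_one' hβV hΔle
    · by_contra hlt
      push Not at hlt
      have h1 : V.valuation (algebraMap k ℂ (eval τ' α) *
          algebraMap k ℂ (eval τ' h)) < 1 := by
        rw [map_mul]
        exact (mul_le_of_le_one_left' hαV).trans_lt hτ1
      have h2 := Valuation.map_add_lt _ h1 hlt
      exact h2.ne hf3
  have hΔ1 := (v_mul_one V hβV hΔle hβΔ).2
  rw [map_prod, map_prod] at hΔ1
  exact fun i => v_prod_one V Finset.univ _ (fun i _ => hgV i) hΔ1 i (Finset.mem_univ i)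

/-- The values of finitely many polynomials at the places near to several hypersurfaces. -/
theorem valuesC {q M : ℕ} {ι : Type} [Finite ι] (h : Fin M → MvPolynomial (Fin q) ℂ)
    (hh : ∀ l, Irreducible (h l)) (halg : ∀ l w, IsAlgebraic ℚ ((h l).coeff w))
    (c : ι → MvPolynomial (Fin q) ℂ) (e : Fin M → ι → ℕ)
    (hc : ∀ l x, ∃ g, c x = h l ^ e l x * g ∧ ¬ h l ∣ g)
    (Γ : Set ℂ) (hΓ : Γ.Finite) {ε : ℝ} (hε : 0 < ε) (S : Set (Fin q → ℤ))
    (hS : ∀ u : Fin q → ℤ, (∀ l, eval (fun j => (u j : ℂ)) (h l) ≠ 0) →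
      ∀ V : Fin M → ValuationSubring ℂ,
      (∀ l, (V l).valuation (eval (fun j => (u j : ℂ)) (h l)) < 1) → (∀ l, ∀ γ ∈ Γ, γ ∈ V l) →
      (∀ l x, (V l).valuation (eval (fun j => (u j : ℂ)) (c x)) =
        (V l).valuation (eval (fun j => (u j : ℂ)) (h l)) ^ e l x) → u ∉ S) :
    ∃ C : ℝ, ∀ H : ℕ, 1 ≤ H → ((S ∩ {u | ∀ j, |u j| ≤ H}).ncard : ℝ) ≤
      C * (H : ℝ) ^ ((q : ℝ) - 1 + ε) := by
  classical
  have hprime : ∀ l, Prime (h l) := fun l =>
    UniqueFactorizationMonoid.irreducible_iff_prime.1 (hh l)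
  have : FaithfulSMul ℤ ℂ := (faithfulSMul_iff_algebraMap_injective ℤ ℂ).2 Int.cast_injective
  obtain ⟨𝓈, h𝓈⟩ := exists_isTranscendenceBasis ℤ ℂ
  obtain ⟨Nm, D₁, hNm0, hNmd, hplace⟩ := normK (k := ℂ) 𝓈 h𝓈 (algebraMap QB ℂ) (fun z => rfl) h halg
  have hNm0' : ∀ l, Nm l ≠ 0 := fun l => hNm0 l (hprime l).ne_zero
  choose j0 hj0 using fun l => exists_varN (hh l) (hNm0' l) (hNmd l)
  choose g hg1 hg2 using hc
  choose ρ hρ W hW hnear using fun l => nearC (k := ℂ) 𝓈 h𝓈 (h l) (hprime l) (Nm l) (hNm0' l)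
    (hNmd l) (g l) (hg2 l) (j0 l)
  have hWf : ((⋃ l, W l) ∪ Γ).Finite := (Set.finite_iUnion hW).union hΓ
  have := hWf.to_subtype
  obtain ⟨D₂, hD₂⟩ := mem_of_gauss 𝓈 h𝓈 (fun z : ((⋃ l, W l) ∪ Γ : Set ℂ) => (z : ℂ))
  refine count_union Nm j0 hj0 ρ hρ (D₁ + D₂) hε S fun u hu => ?_
  by_contra hcon
  push Not at hcon
  have hpl : ∀ l, ∃ V : ValuationSubring ℂ,
      V.valuation (eval (fun j => ((u j : ℤ) : ℂ)) (h l)) < 1 ∧
      (∀ z ∈ ((⋃ l, W l) ∪ Γ : Set ℂ), z ∈ V) ∧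
      eval (fun j => ((u j : ℤ) : ℂ)) (h l) ≠ 0 ∧
      ∀ x, V.valuation (eval (fun j => ((u j : ℤ) : ℂ)) (g l x)) = 1 := by
    intro l
    obtain ⟨h0, p, hp, hpD, h1, h2⟩ := hcon l
    obtain ⟨V, hV1, -, hV3⟩ := hplace l p hp (by omega) u h1 Empty (Empty.elim : Empty → ℂ)
      (algebraicIndependent_empty_type_iff.2 (algebraMap ℂ ℂ).injective)
    have hVW : ∀ z ∈ ((⋃ l, W l) ∪ Γ : Set ℂ), z ∈ V := fun z hz =>
      hD₂ p hp (by omega) V hV1 ⟨z, hz⟩
    refine ⟨V, hV3, hVW, fun h4 => h0 ?_, hnear l V (fun z hz => hVW z (Or.inl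
      (Set.mem_iUnion.2 ⟨l, hz⟩))) u p hV1 h2 hV3⟩
    have h5 := map_dvd (eval (fun j => ((u j : ℤ) : ℂ))) (hNmd l)
    rw [h4, zero_dvd_iff, eval_cast] at h5
    exact_mod_cast h5
  choose V hV1 hVW hV0 hVg using hpl
  refine hS u hV0 V hV1 (fun l γ hγ => hVW l γ (Or.inr hγ)) (fun l x => ?_) hu
  rw [hg1 l x, map_mul, map_mul, map_pow, map_pow, hVg l x, mul_one]

section

variable {F : Type} [Field F] {q d : ℕ} (ω : Fin (d + 1) → F)

/-- A left inverse of the substitution. -/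
noncomputable def retF : MvPolynomial (Fin (q * (d + 1))) F →ₐ[F] MvPolynomial (Fin q) F :=
  MvPolynomial.aeval fun a => if (finProdFinEquiv.symm a).2 = 0 then
    MvPolynomial.C (ω 0)⁻¹ * MvPolynomial.X (finProdFinEquiv.symm a).1 else 0

theorem retF_lin (hω0 : ω 0 ≠ 0) (P : MvPolynomial (Fin q) F) : retF ω (lin q ω P) = P := by
  have h1 : (retF (q := q) ω).comp (lin q ω) = AlgHom.id _ _ := by
    refine MvPolynomial.algHom_ext fun j => ?_
    rw [AlgHom.comp_apply, lin, MvPolynomial.aeval_X, AlgHom.id_apply, map_sum,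
      Finset.sum_eq_single 0]
    · rw [map_mul, retF, MvPolynomial.aeval_X, Equiv.symm_apply_apply, if_pos rfl,
        MvPolynomial.aeval_C, MvPolynomial.algebraMap_eq, ← mul_assoc,
        ← MvPolynomial.C_mul, mul_inv_cancel₀ hω0, MvPolynomial.C_1, one_mul]
    · intro b _ hb
      rw [map_mul, retF, MvPolynomial.aeval_X, Equiv.symm_apply_apply, if_neg hb, mul_zero]
    · intro h0
      exact absurd (Finset.mem_univ _) h0
  exact congrArg (fun f : MvPolynomial (Fin q) F →ₐ[F] MvPolynomial (Fin q) F => f P) h1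

theorem linF_dvd (hω0 : ω 0 ≠ 0) {h P : MvPolynomial (Fin q) F} :
    lin q ω h ∣ lin q ω P ↔ h ∣ P := by
  refine ⟨fun hd => ?_, fun hd => map_dvd _ hd⟩
  have h1 := map_dvd (retF ω) hd
  rwa [retF_lin ω hω0, retF_lin ω hω0] at h1

end

theorem eval_linC {q d : ℕ} (ω : Fin (d + 1) → ℂ) (u : Fin (q * (d + 1)) → ℂ)
    (P : MvPolynomial (Fin q) ℂ) :
    eval u (lin q ω P) = eval (fun j => ∑ b, ω b * u (finProdFinEquiv (j, b))) P := by
  have h1 : (eval u).comp (lin q ω).toRingHom =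
      eval (fun j => ∑ b, ω b * u (finProdFinEquiv (j, b))) := by
    refine MvPolynomial.ringHom_ext (fun x => ?_) (fun l => ?_)
    · simp
    · simp [lin]
  exact congrArg (fun f : MvPolynomial (Fin q) ℂ →+* ℂ => f P) h1

theorem count_linC {q d : ℕ} (ω : Fin (d + 1) → ℂ) (P : (Fin q → ℂ) → Prop) (H : ℕ) :
    ({u : Fin q → Fin (d + 1) → ℤ | P fun j => ∑ b, ω b * (u j b : ℂ)} ∩
      {u | ∀ j b, |u j b| ≤ (H : ℤ)}).ncard =
    ({u : Fin (q * (d + 1)) → ℤ | P fun j => ∑ b, ω b * (u (finProdFinEquiv (j, b)) : ℂ)} ∩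
      {u | ∀ a, |u a| ≤ (H : ℤ)}).ncard := by
  let E : (Fin (q * (d + 1)) → ℤ) → (Fin q → Fin (d + 1) → ℤ) := fun u j b =>
    u (finProdFinEquiv (j, b))
  have hE : Function.Injective E := by
    intro u v huv
    funext a
    have h1 := congrFun (congrFun huv (finProdFinEquiv.symm a).1) (finProdFinEquiv.symm a).2
    have h2 : finProdFinEquiv ((finProdFinEquiv.symm a).1, (finProdFinEquiv.symm a).2) = a :=
      finProdFinEquiv.apply_symm_apply a
    simp only [E, h2] at h1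
    exact h1
  rw [← Set.ncard_image_of_injective _ hE]
  congr 1
  ext u
  constructor
  · rintro ⟨h1, h2⟩
    have h3 : E (fun a => u (finProdFinEquiv.symm a).1 (finProdFinEquiv.symm a).2) = u := by
      funext j b
      simp only [E]
      rw [Equiv.symm_apply_apply]
    have h4 : ∀ j b, (fun a => u (finProdFinEquiv.symm a).1 (finProdFinEquiv.symm a).2)
        (finProdFinEquiv (j, b)) = u j b := fun j b => congrFun (congrFun h3 j) b
    refine ⟨fun a => u (finProdFinEquiv.symm a).1 (finProdFinEquiv.symm a).2,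
      ⟨?_, fun a => h2 _ _⟩, h3⟩
    simp only [Set.mem_ofPred_eq] at h1 ⊢
    simp_rw [h4]
    exact h1
  · rintro ⟨v, ⟨h1, h2⟩, rfl⟩
    exact ⟨h1, fun j b => h2 _⟩

end Pool.Agent.X295
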